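import Mathlib

set_option autoImplicit false

/-!
# Property A (MP_86b484_co): common definitions

`V` is the vertex type; a coloured graph is a function on unordered pairs with `none` = non-edge.
-/

open Finset

namespace Pool.ER

/-- coloured graphs on `V`, colours `Fin r`: `none` = non-edge, `some c` = edge of colour `c` -/
abbrev CG (V : Type) (r : ℕ) := Sym2 V → Option (Fin r)

/-- list systems on `V` -/
abbrev LS (V : Type) (r : ℕ) := Sym2 V → Finset (Fin r)

/-- colours seen on the tuple `w` -/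
def tupCols {V : Type} {r k : ℕ} (φ : CG V r) (w : Fin k → V) : Finset (Fin r) :=
  univ.filter fun c => ∃ i j : Fin k, i < j ∧ φ s(w i, w j) = some c

/-- admissible: no `k`-tuple of pairwise adjacent vertices sees `s` or more colours -/
def Adm {V : Type} (k s : ℕ) {r : ℕ} (φ : CG V r) : Prop :=
  ∀ w : Fin k → V, (∀ i j : Fin k, i < j → φ s(w i, w j) ≠ none) → (tupCols φ w).card < s

open Classical in
/-- the admissible colourings of the graph `G` -/
noncomputable def cols {V : Type} [Fintype V] [DecidableEq V] (k s r : ℕ) (G : SimpleGraph V) :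
    Finset (CG V r) :=
  univ.filter fun φ => (∀ e : Sym2 V, φ e ≠ none ↔ e ∈ G.edgeSet) ∧ Adm k s φ

open Classical in
/-- `c(n)`: the maximal number of admissible colourings of an `n`-vertex graph -/
noncomputable def cnum (k s r n : ℕ) : ℕ :=
  (univ : Finset (SimpleGraph (Fin n))).sup fun G => (cols k s r G).card

/-- `log_r c(n)` -/
noncomputable def lc (k s r n : ℕ) : ℝ := Real.logb r (cnum k s r n)

/-- a pattern on the pairs `i<j` of `Fin k` with at least `s` colours chosen from the lists -/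
def RbL (s : ℕ) {k r : ℕ} (L : Fin k → Fin k → Finset (Fin r)) : Prop :=
  ∃ χ : Fin k → Fin k → Fin r, (∀ i j : Fin k, i < j → χ i j ∈ L i j) ∧
    s ≤ (univ.filter fun c : Fin r => ∃ i j : Fin k, i < j ∧ χ i j = c).card

/-- the tuple `w` is rainbow (at least `s` colours possible) in the list system `L` -/
def Rb (s : ℕ) {V : Type} {k r : ℕ} (L : LS V r) (w : Fin k → V) : Prop :=
  RbL s (fun i j => L s(w i, w j))

/-! ## numbers -/

/-- loss of a list of size `t`: `1 - log_r t` -/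
noncomputable def beta (r t : ℕ) : ℝ := 1 - Real.log t / Real.log r

/-- `I_k(e) = ∑_{l<k} ⌊l/e⌋` -/
noncomputable def Ik (k : ℕ) (e : ℝ) : ℕ := ∑ l ∈ range k, ⌊(l : ℝ) / e⌋₊

/-- normalised loss of a list -/
noncomputable def eL (g : ℝ) {r : ℕ} (L : Finset (Fin r)) : ℝ := g * beta r (max 1 L.card)

/-- the standing assumptions on the parameters; `s - 1 = C(k,2) - d` -/
structure Par (k s r d : ℕ) (g : ℝ) : Prop where
  hk : 3 ≤ k
  hs : 3 ≤ s
  hd : 1 ≤ d
  hsd : s + d = k.choose 2 + 1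
  hsr : s ≤ r
  hg : (k : ℝ) - 1 ≤ g
  hgp : ∀ p a : ℕ, 1 ≤ p → p ≤ k - 2 → 1 ≤ a → Ik k (p : ℝ) = a + d → (p : ℝ) ≤ g * beta r a

/-- optimal palette structures: `p` parts, palette of size `a` inside the parts -/
def LShape (k d r : ℕ) (g : ℝ) (p a : ℕ) : Prop :=
  2 ≤ a ∧ 1 ≤ p ∧ p ≤ k - 2 ∧ Ik k (p : ℝ) = a + d ∧ g * beta r a = p ∧ (p = 1 ∨ k - 1 < 2 * p)

/-- the Turan structure: `k-1` parts, nothing inside -/
def TShape (k : ℕ) (g : ℝ) (p a : ℕ) : Prop := a = 0 ∧ p = k - 1 ∧ g = (k : ℝ) - 1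

/-- optimal structures -/
def Shape (k d r : ℕ) (g : ℝ) (p a : ℕ) : Prop := LShape k d r g p a ∨ TShape k g p a

/-- the pure list of a pair of classes -/
def pureL {p r : ℕ} (A : Finset (Fin r)) (i j : Fin p) : Finset (Fin r) := if i = j then A else univ

/-! ## structures of colourings of `Fin n` -/

/-- all classes have size `n/p ± τ n` -/
def Bal {n p : ℕ} (τ : ℝ) (Q : Fin n → Fin p) : Prop :=
  ∀ i : Fin p, |((univ.filter fun u => Q u = i).card : ℝ) - n / p| ≤ τ * n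

/-- number of (ordered) pairs inside a class whose colour is not in the palette `A` -/
def defect {n p r : ℕ} (φ : CG (Fin n) r) (Q : Fin n → Fin p) (A : Finset (Fin r)) : ℕ :=
  (univ.filter fun x : Fin n × Fin n => Q x.1 = Q x.2 ∧ ∃ c : Fin r, c ∉ A ∧ φ s(x.1, x.2) = some c).card

/-- lower density: between large disjoint subsets of `W` inside classes, every allowed colour has
density at least `γ` -/
def LDW {n p r : ℕ} (W : Finset (Fin n)) (ε γ : ℝ) (φ : CG (Fin n) r) (Q : Fin n → Fin p)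
    (A : Finset (Fin r)) : Prop :=
  ∀ X Y : Finset (Fin n), X ⊆ W → Y ⊆ W → Disjoint X Y → ε * n ≤ X.card → ε * n ≤ Y.card →
    ∀ i j : Fin p, (∀ x ∈ X, Q x = i) → (∀ y ∈ Y, Q y = j) →
    ∀ c : Fin r, c ∈ pureL A i j →
      γ * X.card * Y.card ≤ ((X ×ˢ Y).filter fun z => φ s(z.1, z.2) = some c).card

/-- restriction of a coloured graph to the vertex set `W` (pairs not inside `W` become non-edges) -/
def restr {V : Type} [DecidableEq V] {r : ℕ} (W : Finset V) (φ : CG V r) : CG V r :=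
  fun e => if e ∈ W.sym2 then φ e else none

/-- exactly pure -/
def Pure {n p r : ℕ} (φ : CG (Fin n) r) (Q : Fin n → Fin p) (A : Finset (Fin r)) : Prop :=
  ∀ u v : Fin n, u ≠ v → Q u = Q v → ∀ c : Fin r, φ s(u, v) = some c → c ∈ A

/-- number of `w ∈ W` in class `i` with `φ(x w) = c` -/
def cnt {n p r : ℕ} (W : Finset (Fin n)) (φ : CG (Fin n) r) (Q : Fin n → Fin p) (x : Fin n)
    (i : Fin p) (c : Fin r) : ℕ :=
  (W.filter fun w => Q w = i ∧ φ s(x, w) = some c).card

/-- the pair `u, v` is fine in `φ` with respect to `(Q, A)` on `W` -/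
def Fine {n p r : ℕ} (W : Finset (Fin n)) (ε₂ γ₂ : ℝ) (φ : CG (Fin n) r) (Q : Fin n → Fin p)
    (A : Finset (Fin r)) (u v : Fin n) : Prop :=
  ∃ iu iv : Fin p,
    (∀ c, c ∉ A → (cnt W φ Q u iu c : ℝ) ≤ ε₂ * n) ∧
    (∀ c, c ∉ A → (cnt W φ Q v iv c : ℝ) ≤ ε₂ * n) ∧
    (∀ i, i ≠ iu → ∀ c, γ₂ * n ≤ (cnt W φ Q u i c : ℝ)) ∧
    (∀ i, i ≠ iv → ∀ c, γ₂ * n ≤ (cnt W φ Q v i c : ℝ)) ∧
    (iu = iv → ∀ c, φ s(u, v) = some c → c ∈ A)

open Classical in
/-- number of rainbow `k`-tuples (all maps `Fin k → Fin n`) of a list system -/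
noncomputable def nRb (k s : ℕ) {n r : ℕ} (L : LS (Fin n) r) : ℕ :=
  (univ.filter fun w : Fin k → Fin n => Rb s L w).card

/-- total normalised loss at `v` -/
noncomputable def row (g : ℝ) {n r : ℕ} (L : LS (Fin n) r) (v : Fin n) : ℝ :=
  ∑ u : Fin n, eL g (L s(u, v))

open Classical in
/-- number of vertices with total loss larger than `x * n` -/
noncomputable def nHigh (g x : ℝ) {n r : ℕ} (L : LS (Fin n) r) : ℕ :=
  (univ.filter fun v : Fin n => x * n < row g L v).card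

/-- pull back of a list system on the parts -/
def pull {n M r : ℕ} (P : Fin n → Fin M) (Λ : LS (Fin M) r) : LS (Fin n) r := fun e => Λ (e.map P)

/-- number of unordered pairs whose colour is not in the list -/
def exc {n r : ℕ} (φ : CG (Fin n) r) (L : LS (Fin n) r) : ℕ :=
  (univ.filter fun e : Sym2 (Fin n) => ∃ c : Fin r, c ∉ L e ∧ φ e = some c).card

open Classical in
/-- number of ordered pairs whose list does not have the size prescribed by the classes -/
noncomputable def sizeBad (g : ℝ) {n r p : ℕ} (L : LS (Fin n) r) (Q : Fin n → Fin p) : ℕ :=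
  (univ.filter fun x : Fin n × Fin n =>
    eL g (L s(x.1, x.2)) ≠ if Q x.1 = Q x.2 then (p : ℝ) else 0).card

/-- number of ordered pairs whose list is not the pure one -/
def listBad {n r p : ℕ} (L : LS (Fin n) r) (Q : Fin n → Fin p) (A : Finset (Fin r)) : ℕ :=
  (univ.filter fun x : Fin n × Fin n => L s(x.1, x.2) ≠ pureL A (Q x.1) (Q x.2)).card

/-- `φ` is `τ`-close to one of the optimal structures -/
def NearPure (k d r : ℕ) (g τ : ℝ) {n : ℕ} (φ : CG (Fin n) r) : Prop :=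
  ∃ p a : ℕ, Shape k d r g p a ∧ ∃ (Q : Fin n → Fin p) (A : Finset (Fin r)),
    A.card = a ∧ Bal τ Q ∧ (defect φ Q A : ℝ) ≤ τ * (n : ℝ) ^ 2

/-- decrement condition at `n`: removing at most `ρ n + 1` vertices decreases `log_r c` by at least
`(1 - 1/g - δ) n` per vertex -/
def Dec (k s r : ℕ) (g ρ δ : ℝ) (n : ℕ) : Prop :=
  ∀ b : ℕ, (b : ℝ) ≤ ρ * n + 1 → lc k s r (n - b) + b * (1 - 1 / g - δ) * n ≤ lc k s r n

/-- `K_n` wins (for `r ≥ s`, `s - 1 = C(k,2) - d`) -/
def KS (k s d r : ℕ) : Prop :=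
  r ^ (k - 2) < (s - 1) ^ (k - 1) ∨
  ∃ p a : ℕ, 2 ≤ p ∧ p ≤ k - 2 ∧ 1 ≤ a ∧ Ik k (p : ℝ) = a + d ∧ r ^ (k - 1 - p) ≤ a ^ (k - 1)

/-- `j` sees exactly one member of the tuple `w` with loss `p` and the others with loss `0` -/
def unitAt (g : ℝ) {n r p : ℕ} (L : LS (Fin n) r) (w : Fin p → Fin n) (j : Fin n) : Prop :=
  ∃ i : Fin p, eL g (L s(w i, j)) = p ∧ ∀ i' : Fin p, i' ≠ i → eL g (L s(w i', j)) = 0

open Classical in
/-- perfect tuples: almost all `j` are unit, and the rows of the members are at most `(1+ξ) n` -/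
def PerfectT (g ξ : ℝ) {n r p : ℕ} (L : LS (Fin n) r) (w : Fin p → Fin n) : Prop :=
  ((univ.filter fun j : Fin n => ¬ unitAt g L w j).card : ℝ) ≤ ξ * n ∧
    ∀ i : Fin p, row g L (w i) ≤ (1 + ξ) * n

/-- pairs of stars (at two vertices, supported on `W`) with prescribed neighbourhoods whose colours
outside the lists `Lu`, `Lv` are rare -/
structure StarPair {n p r : ℕ} (W Nu Nv : Finset (Fin n)) (Q : Fin n → Fin p) (ε : ℝ)
    (Lu Lv : Fin p → Finset (Fin r)) (z : (Fin n → Option (Fin r)) × (Fin n → Option (Fin r))) :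
    Prop where
  h1 : ∀ w, z.1 w ≠ none ↔ w ∈ W ∧ w ∈ Nu
  h2 : ∀ w, z.2 w ≠ none ↔ w ∈ W ∧ w ∈ Nv
  h3 : ∀ i c, c ∉ Lu i → ((W.filter fun w => Q w = i ∧ z.1 w = some c).card : ℝ) ≤ ε * n
  h4 : ∀ i c, c ∉ Lv i → ((W.filter fun w => Q w = i ∧ z.2 w = some c).card : ℝ) ≤ ε * n

/-- some allowed colour (or allowed pair of colours) occurs fewer than `γ n` times in a class where
the lists have at least two elements -/
def StarLow {n p r : ℕ} (W : Finset (Fin n)) (Q : Fin n → Fin p) (γ : ℝ)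
    (Lu Lv : Fin p → Finset (Fin r)) (z : (Fin n → Option (Fin r)) × (Fin n → Option (Fin r))) :
    Prop :=
  (∃ i, 2 ≤ (Lu i).card ∧ ∃ x ∈ Lu i,
      ((W.filter fun w => Q w = i ∧ z.1 w = some x).card : ℝ) < γ * n) ∨
  (∃ i, 2 ≤ (Lv i).card ∧ ∃ y ∈ Lv i,
      ((W.filter fun w => Q w = i ∧ z.2 w = some y).card : ℝ) < γ * n) ∨
  (∃ i, 2 ≤ (Lu i).card ∧ 2 ≤ (Lv i).card ∧ ∃ x ∈ Lu i, ∃ y ∈ Lv i,
      ((W.filter fun w => Q w = i ∧ z.1 w = some x ∧ z.2 w = some y).card : ℝ) < γ * n)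

end Pool.ER
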