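import Mathlib
import Pool.Agent.ER.Defs

set_option autoImplicit false

open Finset

namespace Pool.ER

theorem card_le_prod_sum {ι α : Type} [Fintype ι] [DecidableEq ι] (Ω : ι → Finset α)
    (y : ι → α → ℝ) (hy : ∀ i a, 0 ≤ y i a) (E : Finset (ι → α)) (hE : ∀ f ∈ E, ∀ i, f i ∈ Ω i)
    {c : ℝ} (hc : 0 < c) (hEc : ∀ f ∈ E, c ≤ ∏ i, y i (f i)) :
    (E.card : ℝ) ≤ c⁻¹ * ∏ i, ∑ a ∈ Ω i, y i a := by
  classical
  rw [Finset.prod_univ_sum]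
  have h1 : (E.card : ℝ) * c ≤ ∑ f ∈ Fintype.piFinset Ω, ∏ i, y i (f i) := by
    have h2 : (E.card : ℝ) * c = ∑ f ∈ E, c := by simp
    rw [h2]
    calc ∑ f ∈ E, c ≤ ∑ f ∈ E, ∏ i, y i (f i) := Finset.sum_le_sum hEc
      _ ≤ _ := Finset.sum_le_sum_of_subset_of_nonneg
          (fun f hf => Fintype.mem_piFinset.2 (hE f hf))
          (fun f _ _ => Finset.prod_nonneg fun i _ => hy i _)
  rw [inv_mul_eq_div, le_div_iff₀ hc]
  exact h1

end Pool.ER
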