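import Mathlib
import Pool.Agent.ER.Defs

set_option autoImplicit false

open Finset Filter

namespace Pool.ER

/-! Module KON (helper39). -/

theorem KON_card_pairs (k : ℕ) :
    ((univ : Finset (Fin k × Fin k)).filter fun q => q.1 < q.2).card = k.choose 2 := by
  rw [Finset.card_filter, ← Finset.univ_product_univ, Finset.sum_product_right]
  have h1 : ∀ j : Fin k, (∑ i : Fin k, if i < j then 1 else 0) = (j : ℕ) := by
    intro j
    rw [← Finset.card_filter]
    have : (univ.filter fun i : Fin k => i < j) = Finset.Iio j := by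
      ext i; simp
    rw [this, Fin.card_Iio]
  simp only [h1]
  rw [Fin.sum_univ_eq_sum_range (fun l => l) k, Finset.sum_range_id, Nat.choose_two_right]

/-! ### KON -/
theorem kon {k s r d : ℕ} (hs : 1 ≤ s) (hd : 1 ≤ d) (hsd : s + d = k.choose 2 + 1)
    (L : Fin k → Fin k → Finset (Fin r)) (hne : ∀ i j : Fin k, i < j → (L i j).Nonempty)
    (hn : ¬ RbL s L) :
    ∃ P : Finset (Fin k × Fin k), P.Nonempty ∧ (∀ q ∈ P, q.1 < q.2) ∧
      (P.biUnion fun q => L q.1 q.2).card + d ≤ P.card := by
  classical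
  by_contra hcon
  push Not at hcon
  apply hn
  -- k ≥ 2
  have hk2 : 2 ≤ k := by
    by_contra hk
    have : k.choose 2 = 0 := Nat.choose_eq_zero_of_lt (by omega)
    omega
  have hne01 := hne ⟨0, by omega⟩ ⟨1, by omega⟩ (by simp [Fin.lt_def])
  obtain ⟨c0, _⟩ := hne01
  -- Hall
  let ι := {q : Fin k × Fin k // q.1 < q.2}
  let t : ι → Finset (Fin r ⊕ Fin (d - 1)) := fun q =>
    (L q.1.1 q.1.2).map ⟨Sum.inl, Sum.inl_injective⟩ ∪
      (univ : Finset (Fin (d - 1))).map ⟨Sum.inr, Sum.inr_injective⟩
  have hall : ∀ S : Finset ι, S.card ≤ (S.biUnion t).card := by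
    intro S
    rcases S.eq_empty_or_nonempty with rfl | hS
    · simp
    set P : Finset (Fin k × Fin k) := S.map ⟨Subtype.val, Subtype.val_injective⟩ with hP
    have h1 := hcon P (by rw [hP]; exact hS.map) (by
      intro q hq
      rw [hP, Finset.mem_map] at hq
      obtain ⟨a, _, rfl⟩ := hq
      exact a.2)
    have hPc : P.card = S.card := by rw [hP, card_map]
    have h2 : ((P.biUnion fun q => L q.1 q.2).map ⟨Sum.inl, Sum.inl_injective⟩ ∪
        (univ : Finset (Fin (d - 1))).map ⟨Sum.inr, Sum.inr_injective⟩) ⊆ S.biUnion t := by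
      intro x hx
      rw [mem_union] at hx
      rw [mem_biUnion]
      rcases hx with hx | hx
      · rw [Finset.mem_map] at hx
        obtain ⟨c, hc, rfl⟩ := hx
        rw [mem_biUnion] at hc
        obtain ⟨q, hq, hc⟩ := hc
        rw [hP, Finset.mem_map] at hq
        obtain ⟨a, ha, rfl⟩ := hq
        refine ⟨a, ha, ?_⟩
        simp only [t, mem_union, Finset.mem_map]
        left
        exact ⟨c, hc, rfl⟩
      · obtain ⟨a, ha⟩ := hS
        refine ⟨a, ha, ?_⟩
        simp only [t, mem_union]
        right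
        exact hx
    have h3 := card_le_card h2
    rw [card_union_of_disjoint, card_map, card_map, card_univ, Fintype.card_fin] at h3
    · rw [← hPc]
      omega
    · rw [disjoint_left]
      intro x hx hx'
      rw [Finset.mem_map] at hx hx'
      obtain ⟨a, _, rfl⟩ := hx
      obtain ⟨b, _, hb⟩ := hx'
      simp at hb
  obtain ⟨f, hfinj, hft⟩ := (Finset.all_card_le_biUnion_card_iff_exists_injective t).1 hall
  let χ : Fin k → Fin k → Fin r := fun i j =>
    if h : i < j then
      (match f ⟨(i, j), h⟩ with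
        | Sum.inl c => c
        | Sum.inr _ => (hne i j h).choose)
    else c0
  refine ⟨χ, ?_, ?_⟩
  · intro i j h
    have h1 := hft ⟨(i, j), h⟩
    simp only [χ, dif_pos h]
    rcases hf : f ⟨(i, j), h⟩ with c | b
    · rw [hf] at h1
      simp only [t, mem_union, Finset.mem_map] at h1
      rcases h1 with ⟨c', hc', hcc⟩ | ⟨b, _, hb⟩
      · simp only [Function.Embedding.coeFn_mk, Sum.inl.injEq] at hcc
        rw [← hcc]
        exact hc'
      · simp at hb
    · exact (hne i j h).choose_spec
  · set S : Finset (Fin r) := univ.filter fun c : Fin r => ∃ i j : Fin k, i < j ∧ χ i j = c with hS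
    have h1 : (univ : Finset ι).image f ⊆ S.map ⟨Sum.inl, Sum.inl_injective⟩ ∪
        (univ : Finset (Fin (d - 1))).map ⟨Sum.inr, Sum.inr_injective⟩ := by
      intro x hx
      rw [mem_image] at hx
      obtain ⟨⟨⟨i, j⟩, hij⟩, _, rfl⟩ := hx
      rw [mem_union]
      rcases hf : f ⟨(i, j), hij⟩ with c | b
      · left
        rw [Finset.mem_map]
        refine ⟨c, ?_, rfl⟩
        rw [hS, mem_filter]
        refine ⟨mem_univ _, i, j, hij, ?_⟩
        have hij' : i < j := hij
        simp only [χ, dif_pos hij', hf]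
      · right
        rw [Finset.mem_map]
        exact ⟨b, mem_univ _, rfl⟩
    have h2 := card_le_card h1
    rw [card_image_of_injective _ hfinj, card_univ] at h2
    have h3 : Fintype.card ι = k.choose 2 := by
      rw [← KON_card_pairs k]
      exact Fintype.card_subtype _
    rw [h3] at h2
    have h4 := h2.trans (card_union_le _ _)
    rw [card_map, card_map, card_univ, Fintype.card_fin] at h4
    omega

theorem kon_size {k s r d : ℕ} (hs : 1 ≤ s) (hd : 1 ≤ d) (hsd : s + d = k.choose 2 + 1)
    (L : Fin k → Fin k → Finset (Fin r)) (hne : ∀ i j : Fin k, i < j → (L i j).Nonempty)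
    (hn : ¬ RbL s L) :
    ∃ t : ℕ, 1 ≤ t ∧ t < s ∧
      t + d ≤ ((univ : Finset (Fin k × Fin k)).filter fun q =>
        q.1 < q.2 ∧ (L q.1 q.2).card ≤ t).card := by
  obtain ⟨P, hPne, hPlt, hPc⟩ := kon hs hd hsd L hne hn
  set U := P.biUnion fun q => L q.1 q.2 with hU
  have hsub : ∀ q ∈ P, (L q.1 q.2) ⊆ U := by
    intro q hq
    rw [hU]
    exact subset_biUnion_of_mem (fun q : Fin k × Fin k => L q.1 q.2) hq
  have h1 : P ⊆ (univ : Finset (Fin k × Fin k)).filter fun q =>
        q.1 < q.2 ∧ (L q.1 q.2).card ≤ U.card := by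
    intro q hq
    rw [mem_filter]
    exact ⟨mem_univ _, hPlt q hq, card_le_card (hsub q hq)⟩
  have h2 := card_le_card h1
  have h3 : P.card ≤ k.choose 2 := by
    rw [← KON_card_pairs k]
    apply card_le_card
    intro q hq
    rw [mem_filter]
    exact ⟨mem_univ _, hPlt q hq⟩
  refine ⟨U.card, ?_, ?_, ?_⟩
  · obtain ⟨q, hq⟩ := hPne
    have h4 := (hne q.1 q.2 (hPlt q hq)).card_pos
    have h5 := card_le_card (hsub q hq)
    omega
  · omega
  · omega

end Pool.ER
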