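import Mathlib
import Pool.Agent.ER.Defs

set_option autoImplicit false

open Finset Filter

namespace Pool.ER

/-! Module NUM1 (helper39). -/

/-- layer-cake formula -/
private lemma NUM1_layer (k : ℕ) (y : ℝ) (hy : 1 ≤ y) :
    Ik k y = ∑ m ∈ range k, (k - ⌈((m + 1 : ℕ) : ℝ) * y⌉₊) := by
  have hy0 : 0 < y := by linarith
  unfold Ik
  have h1 : ∀ l ∈ range k, ⌊(l : ℝ) / y⌋₊
      = ∑ m ∈ range k, (if ⌈((m + 1 : ℕ) : ℝ) * y⌉₊ ≤ l then 1 else 0) := by
    intro l hl
    rw [mem_range] at hl
    have hfl : ⌊(l : ℝ) / y⌋₊ ≤ l := by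
      have : (l : ℝ) / y ≤ l := div_le_self (by positivity) hy
      calc ⌊(l : ℝ) / y⌋₊ ≤ ⌊(l : ℝ)⌋₊ := Nat.floor_le_floor this
        _ = l := Nat.floor_natCast l
    rw [← Finset.sum_filter, Finset.sum_const, smul_eq_mul, mul_one]
    have : (range k).filter (fun m => ⌈((m + 1 : ℕ) : ℝ) * y⌉₊ ≤ l) = range ⌊(l : ℝ) / y⌋₊ := by
      ext m
      simp only [mem_filter, mem_range]
      rw [Nat.ceil_le, ← le_div_iff₀ hy0]
      rw [← Nat.le_floor_iff (by positivity)]
      omega
    rw [this, card_range]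
  rw [Finset.sum_congr rfl h1, Finset.sum_comm]
  apply Finset.sum_congr rfl
  intro m _
  rw [← Finset.sum_filter, Finset.sum_const, smul_eq_mul, mul_one]
  have : (range k).filter (fun l => ⌈((m + 1 : ℕ) : ℝ) * y⌉₊ ≤ l)
      = Finset.Ico ⌈((m + 1 : ℕ) : ℝ) * y⌉₊ k := by
    ext l
    simp only [mem_filter, mem_range, mem_Ico]
    tauto
  rw [this, Nat.card_Ico]

private lemma NUM1_bound (k : ℕ) (e : ℝ) (he : 1 ≤ e) :
    (Ik k e : ℝ) ≤ (k - e / 2) ^ 2 / (2 * e) := by
  have he0 : 0 < e := by linarith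
  rw [NUM1_layer k e he]
  set M := ⌊(k : ℝ) / e⌋₊ with hM
  have hMk : M ≤ k := by
    rw [hM]
    have : (k : ℝ) / e ≤ k := div_le_self (by positivity) he
    calc ⌊(k : ℝ) / e⌋₊ ≤ ⌊(k : ℝ)⌋₊ := Nat.floor_le_floor this
      _ = k := Nat.floor_natCast k
  have hsplit : ∑ m ∈ range k, (k - ⌈((m + 1 : ℕ) : ℝ) * e⌉₊)
      = ∑ m ∈ range M, (k - ⌈((m + 1 : ℕ) : ℝ) * e⌉₊) := by
    symm
    apply Finset.sum_subset (Finset.range_mono hMk)
    intro m _ hm2
    rw [mem_range, not_lt] at hm2
    apply Nat.sub_eq_zero_of_le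
    have h1 : (k : ℝ) / e < ((m + 1 : ℕ) : ℝ) := by
      rw [hM] at hm2
      exact Nat.lt_of_floor_lt (by omega)
    rw [div_lt_iff₀ he0] at h1
    have h2 := Nat.le_ceil (((m + 1 : ℕ) : ℝ) * e)
    have h3 : (k : ℝ) ≤ (⌈((m + 1 : ℕ) : ℝ) * e⌉₊ : ℝ) := by linarith
    exact_mod_cast h3
  rw [hsplit]
  have hle : ∀ m ∈ range M, ((k - ⌈((m + 1 : ℕ) : ℝ) * e⌉₊ : ℕ) : ℝ)
      ≤ (k : ℝ) - e * (m + 1) := by
    intro m hm
    rw [mem_range] at hm
    have h1 : ((m + 1 : ℕ) : ℝ) ≤ (k : ℝ) / e := by
      rw [hM] at hm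
      rw [← Nat.le_floor_iff (by positivity)]
      omega
    rw [le_div_iff₀ he0] at h1
    have h2 : ⌈((m + 1 : ℕ) : ℝ) * e⌉₊ ≤ k := by
      rw [Nat.ceil_le]; exact h1
    rw [Nat.cast_sub h2]
    have h3 := Nat.le_ceil (((m + 1 : ℕ) : ℝ) * e)
    push_cast at h3 ⊢
    linarith
  rw [Nat.cast_sum]
  refine (Finset.sum_le_sum hle).trans ?_
  have : ∀ N : ℕ, ∑ m ∈ range N, ((k : ℝ) - e * (m + 1)) = N * k - e * (N * (N + 1) / 2) := by
    intro N
    induction N with
    | zero => simp
    | succ N ih =>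
      rw [Finset.sum_range_succ, ih]
      push_cast
      ring
  rw [this M, le_div_iff₀ (by positivity)]
  nlinarith [sq_nonneg ((k : ℝ) - e / 2 - e * M)]

/-- `Ik ≤ C/e`, strictly for `e > 1`, `k ≥ 2`. -/
private lemma NUM1_lt (k : ℕ) (hk : 2 ≤ k) (e : ℝ) (he : 1 < e) :
    (Ik k e : ℝ) < (k.choose 2 : ℝ) / e := by
  have he0 : 0 < e := by linarith
  unfold Ik
  rw [Nat.cast_sum]
  have h1 : ∑ l ∈ range k, (⌊(l : ℝ) / e⌋₊ : ℝ) < ∑ l ∈ range k, (l : ℝ) / e := by
    apply Finset.sum_lt_sum
    · intro l _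
      exact Nat.floor_le (by positivity)
    · refine ⟨1, mem_range.2 (by omega), ?_⟩
      have : ⌊((1 : ℕ) : ℝ) / e⌋₊ = 0 := by
        rw [Nat.floor_eq_zero, div_lt_one he0]
        push_cast
        exact he
      rw [this]
      push_cast
      positivity
  have h2 : ∑ l ∈ range k, (l : ℝ) / e = (k.choose 2 : ℝ) / e := by
    rw [← Finset.sum_div, ← Nat.cast_sum, Finset.sum_range_id, Nat.choose_two_right]
  rw [h2] at h1
  exact h1

private lemma NUM1_choose_real (k : ℕ) : (k.choose 2 : ℝ) = k * (k - 1) / 2 := by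
  rw [Nat.cast_choose_two]

private lemma NUM1_floor_le {x y : ℝ} {n : ℕ} (hy : 0 < y) (hx : 0 ≤ x) (h : x < y * (n + 1)) :
    ⌊x / y⌋₊ ≤ n := by
  have : ⌊x / y⌋₊ < n + 1 := by
    rw [Nat.floor_lt (by positivity), div_lt_iff₀ hy]
    push_cast
    linarith
  omega

/-- `c < x ^ (m/n)` from `c^n < x^m` and monotonicity in the exponent -/
private lemma NUM1_rpow {c x z : ℝ} (hc : 0 < c) (hx : 1 ≤ x) (m n : ℕ) (hn : 0 < n)
    (h : c ^ n < x ^ m) (hz : (m : ℝ) / n ≤ z) : c < x ^ z := by
  have hn' : (0 : ℝ) < n := by exact_mod_cast hn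
  have hx0 : 0 < x := by linarith
  have h1 : Real.log c * n < Real.log x * m := by
    have := Real.log_lt_log (by positivity) h
    rw [Real.log_pow, Real.log_pow] at this
    linarith
  have h2 : Real.log c < z * Real.log x := by
    have hlx : 0 ≤ Real.log x := Real.log_nonneg hx
    have h3 : (m : ℝ) / n * Real.log x ≤ z * Real.log x := mul_le_mul_of_nonneg_right hz hlx
    have h4 : Real.log c < (m : ℝ) / n * Real.log x := by
      rw [div_mul_eq_mul_div, lt_div_iff₀ hn']
      linarith
    linarith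
  rw [Real.lt_rpow_iff_log_lt hc hx0]
  exact h2

private lemma NUM1_choose_le (k : ℕ) (hk : 6 ≤ k) : k * (k - 1) / 2 ≤ 2 ^ (k - 2) := by
  induction k, hk using Nat.le_induction with
  | base => decide
  | succ k hk ih =>
    have h1 : (k + 1) * (k + 1 - 1) / 2 = k * (k - 1) / 2 + k := by
      have h2 : (k + 1) * (k + 1 - 1) = k * (k - 1) + k * 2 := by
        obtain ⟨j, rfl⟩ : ∃ j, k = j + 1 := ⟨k - 1, by omega⟩
        simp only [Nat.add_sub_cancel]
        ring
      rw [h2, Nat.add_mul_div_right _ _ (by norm_num)]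
    have h3 : 2 ^ (k + 1 - 2) = 2 ^ (k - 2) + 2 ^ (k - 2) := by
      rw [show k + 1 - 2 = (k - 2) + 1 by omega, pow_succ]
      ring
    have h4 : k ≤ 2 ^ (k - 2) := by
      refine le_trans ?_ ih
      rw [Nat.le_div_iff_mul_le (by norm_num)]
      have : 2 ≤ k - 1 := by omega
      exact Nat.mul_le_mul_left k this
    omega

/-! ### NUM1 -/
theorem numeric_real {k : ℕ} (hk : 4 ≤ k) {e : ℝ} (h1 : 1 < e) (h2 : e ≤ ((k : ℝ) - 1) / 2) :
    (Ik k e : ℝ) < (k.choose 2 : ℝ) ^ (((k : ℝ) - 1 - e) / ((k : ℝ) - 2)) := by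
  have he0 : 0 < e := by linarith
  rcases Nat.lt_or_ge k 6 with hk6 | hk6
  · -- k = 4, 5
    interval_cases k
    · -- k = 4
      norm_num at h2
      have hI : Ik 4 e ≤ 3 := by
        unfold Ik
        simp only [Finset.sum_range_succ, Finset.sum_range_zero]
        have a0 : ⌊((0 : ℕ) : ℝ) / e⌋₊ = 0 := by simp
        have a1 : ⌊((1 : ℕ) : ℝ) / e⌋₊ ≤ 0 := NUM1_floor_le he0 (by norm_num) (by norm_num; linarith)
        have a2 : ⌊((2 : ℕ) : ℝ) / e⌋₊ ≤ 1 := NUM1_floor_le he0 (by norm_num) (by norm_num; linarith)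
        have a3 : ⌊((3 : ℕ) : ℝ) / e⌋₊ ≤ 2 := NUM1_floor_le he0 (by norm_num) (by norm_num; linarith)
        omega
      have hI' : (Ik 4 e : ℝ) ≤ 3 := by exact_mod_cast hI
      have hC : ((4 : ℕ).choose 2 : ℝ) = 6 := by norm_num [Nat.choose]
      rw [hC]
      refine lt_of_le_of_lt hI' (NUM1_rpow (by norm_num) (by norm_num) 3 4 (by norm_num)
        (by norm_num) ?_)
      norm_num
      linarith
    · -- k = 5
      norm_num at h2
      have hC : ((5 : ℕ).choose 2 : ℝ) = 10 := by norm_num [Nat.choose]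
      rw [hC]
      have a0 : ⌊((0 : ℕ) : ℝ) / e⌋₊ = 0 := by simp
      have a1 : ⌊((1 : ℕ) : ℝ) / e⌋₊ ≤ 0 := NUM1_floor_le he0 (by norm_num) (by norm_num; linarith)
      have a2 : ⌊((2 : ℕ) : ℝ) / e⌋₊ ≤ 1 := NUM1_floor_le he0 (by norm_num) (by norm_num; linarith)
      have a3 : ⌊((3 : ℕ) : ℝ) / e⌋₊ ≤ 2 := NUM1_floor_le he0 (by norm_num) (by norm_num; linarith)
      have a4 : ⌊((4 : ℕ) : ℝ) / e⌋₊ ≤ 3 := NUM1_floor_le he0 (by norm_num) (by norm_num; linarith)
      have hexp : (((5 : ℕ) : ℝ) - 1 - e) / (((5 : ℕ) : ℝ) - 2) = (4 - e) / 3 := by norm_num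
      rw [hexp]
      have hIeq : Ik 5 e = ⌊((0 : ℕ) : ℝ) / e⌋₊ + ⌊((1 : ℕ) : ℝ) / e⌋₊ + ⌊((2 : ℕ) : ℝ) / e⌋₊
          + ⌊((3 : ℕ) : ℝ) / e⌋₊ + ⌊((4 : ℕ) : ℝ) / e⌋₊ := by
        unfold Ik
        simp only [Finset.sum_range_succ, Finset.sum_range_zero, zero_add]
      rcases le_or_gt e (4 / 3) with hA | hA
      · have hI' : (Ik 5 e : ℝ) ≤ 6 := by
          have : Ik 5 e ≤ 6 := by omega
          exact_mod_cast this
        refine lt_of_le_of_lt hI' (NUM1_rpow (by norm_num) (by norm_num) 8 9 (by norm_num)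
          (by norm_num) ?_)
        norm_num
        linarith
      · have a4' : ⌊((4 : ℕ) : ℝ) / e⌋₊ ≤ 2 :=
          NUM1_floor_le he0 (by norm_num) (by norm_num; linarith)
        rcases le_or_gt e (3 / 2) with hB | hB
        · have hI' : (Ik 5 e : ℝ) ≤ 5 := by
            have : Ik 5 e ≤ 5 := by omega
            exact_mod_cast this
          refine lt_of_le_of_lt hI' (NUM1_rpow (by norm_num) (by norm_num) 5 6 (by norm_num)
            (by norm_num) ?_)
          norm_num
          linarith
        · have a3' : ⌊((3 : ℕ) : ℝ) / e⌋₊ ≤ 1 :=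
            NUM1_floor_le he0 (by norm_num) (by norm_num; linarith)
          have hI' : (Ik 5 e : ℝ) ≤ 4 := by
            have : Ik 5 e ≤ 4 := by omega
            exact_mod_cast this
          refine lt_of_le_of_lt hI' (NUM1_rpow (by norm_num) (by norm_num) 2 3 (by norm_num)
            (by norm_num) ?_)
          norm_num
          linarith
  · -- k ≥ 6
    have hk' : (6 : ℝ) ≤ k := by exact_mod_cast hk6
    have hC := NUM1_choose_real k
    have hCpos : (15 : ℝ) ≤ (k.choose 2 : ℝ) := by rw [hC]; nlinarith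
    set C : ℝ := (k.choose 2 : ℝ) with hCdef
    have hC2 : C ≤ (2 : ℝ) ^ ((k : ℝ) - 2) := by
      have h3 := NUM1_choose_le k hk6
      rw [← Nat.choose_two_right] at h3
      have h4 : (k.choose 2 : ℝ) ≤ ((2 ^ (k - 2) : ℕ) : ℝ) := by exact_mod_cast h3
      rw [hCdef]
      refine h4.trans (le_of_eq ?_)
      push_cast
      rw [← Real.rpow_natCast]
      congr 1
      push_cast [Nat.cast_sub (show 2 ≤ k by omega)]
      ring
    have hlogC : Real.log C ≤ ((k : ℝ) - 2) * Real.log 2 := by
      have := Real.log_le_log (by linarith) hC2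
      rwa [Real.log_rpow (by norm_num)] at this
    have hk2 : (0 : ℝ) < (k : ℝ) - 2 := by linarith
    have hlogC0 : 0 < Real.log C := Real.log_pos (by linarith)
    rcases le_or_gt e 2 with hA | hA
    · -- 1 < e ≤ 2
      have hI := NUM1_lt k (by omega) e h1
      refine hI.trans_le ?_
      rw [← hCdef]
      rw [← Real.log_le_log_iff (by positivity) (Real.rpow_pos_of_pos (by linarith) _),
        Real.log_rpow (by linarith), Real.log_div (by linarith) (by linarith)]
      -- log C - log e ≤ (k-1-e)/(k-2) log C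
      have e1 : ((k : ℝ) - 1 - e) / ((k : ℝ) - 2) * Real.log C
          = Real.log C - (e - 1) * (Real.log C / ((k : ℝ) - 2)) := by
        field_simp
        ring
      rw [e1]
      have h5 : Real.log C / ((k : ℝ) - 2) ≤ Real.log 2 := by
        rw [div_le_iff₀ hk2]; linarith
      -- (e-1) log 2 ≤ log e
      have h6 : (e - 1) * Real.log 2 ≤ Real.log e := by
        have hcc := strictConcaveOn_log_Ioi.concaveOn.2 (x := 1) (y := 2)
          (by simp) (by simp) (show (0 : ℝ) ≤ 2 - e by linarith)
          (show (0 : ℝ) ≤ e - 1 by linarith) (by ring)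
        simp only [smul_eq_mul, Real.log_one, mul_zero, zero_add] at hcc
        have e2 : (2 - e) * 1 + (e - 1) * 2 = e := by ring
        rw [e2] at hcc
        exact hcc
      have h7 : (e - 1) * (Real.log C / ((k : ℝ) - 2)) ≤ (e - 1) * Real.log 2 :=
        mul_le_mul_of_nonneg_left h5 (by linarith)
      linarith
    · -- 2 < e ≤ (k-1)/2
      have hI := NUM1_bound k e h1.le
      have hke : 0 < (k : ℝ) - e / 2 := by linarith
      -- U ≤ k^2/(2e) exp(-e/k)
      have hU : (k - e / 2) ^ 2 / (2 * e) ≤ (k : ℝ) ^ 2 / (2 * e) * Real.exp (-(e / k)) := by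
        have h3 : 1 - e / (2 * k) ≤ Real.exp (-(e / (2 * k))) := by
          have := Real.add_one_le_exp (-(e / (2 * k)))
          linarith
        have h30 : 0 ≤ 1 - e / (2 * k) := by
          have : e / (2 * k) ≤ 1 := by
            rw [div_le_one (by linarith)]; linarith
          linarith
        have h4 : (1 - e / (2 * k)) ^ 2 ≤ Real.exp (-(e / (2 * k))) ^ 2 :=
          pow_le_pow_left₀ h30 h3 2
        have h5 : Real.exp (-(e / (2 * k))) ^ 2 = Real.exp (-(e / k)) := by
          rw [← Real.exp_nat_mul]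
          congr 1
          push_cast
          field_simp
        rw [h5] at h4
        have h6 : (k - e / 2) ^ 2 / (2 * e) = (k : ℝ) ^ 2 / (2 * e) * (1 - e / (2 * k)) ^ 2 := by
          field_simp
        rw [h6]
        exact mul_le_mul_of_nonneg_left h4 (by positivity)
      refine (hI.trans hU).trans_lt ?_
      rw [← Real.log_lt_log_iff (by positivity) (Real.rpow_pos_of_pos (by linarith) _),
        Real.log_rpow (by linarith), Real.log_mul (by positivity) (Real.exp_pos _).ne',
        Real.log_exp, Real.log_div (by positivity) (by positivity),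
        Real.log_pow, Real.log_mul (by norm_num) (by linarith)]
      push_cast
      -- 2 log k - (log 2 + log e) - e/k < (k-1-e)/(k-2) log C
      set b : ℝ := ((k : ℝ) - 1) / 2 with hb
      have hb2 : 2 < b := by linarith
      set lam : ℝ := (e - 2) / (b - 2) with hlam
      have hb2' : 0 < b - 2 := by linarith
      have hlam0 : 0 ≤ lam := by rw [hlam]; apply div_nonneg <;> linarith
      have hlam1 : lam ≤ 1 := by rw [hlam, div_le_one hb2']; linarith
      have hee : e = (1 - lam) * 2 + lam * b := by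
        rw [hlam]; field_simp; ring
      have hcc := strictConcaveOn_log_Ioi.concaveOn.2 (x := 2) (y := b)
          (by simp) (by simp only [Set.mem_Ioi]; linarith) (show (0 : ℝ) ≤ 1 - lam by linarith)
          hlam0 (by ring)
      simp only [smul_eq_mul] at hcc
      rw [← hee] at hcc
      -- endpoint A
      have hlogCval : Real.log C = Real.log k + Real.log (k - 1) - Real.log 2 := by
        rw [hC, Real.log_div (by nlinarith) (by norm_num), Real.log_mul (by linarith) (by linarith)]
      have hlk : Real.log k - Real.log (k - 1) ≤ 1 / ((k : ℝ) - 1) := by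
        have := Real.log_le_sub_one_of_pos (show 0 < (k : ℝ) / (k - 1) by
          apply div_pos <;> linarith)
        rw [Real.log_div (by linarith) (by linarith)] at this
        have e3 : (k : ℝ) / (k - 1) - 1 = 1 / (k - 1) := by
          have : (k : ℝ) - 1 ≠ 0 := by linarith
          field_simp
          ring
        linarith
      have hA' : 2 * Real.log k - (Real.log 2 + Real.log 2) - 2 / k
          < (((k : ℝ) - 1 - 2) / ((k : ℝ) - 2)) * Real.log C := by
        have e1 : (((k : ℝ) - 1 - 2) / ((k : ℝ) - 2)) * Real.log C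
            = Real.log C - Real.log C / ((k : ℝ) - 2) := by
          field_simp
          ring
        rw [e1]
        have h5 : Real.log C / ((k : ℝ) - 2) ≤ Real.log 2 := by
          rw [div_le_iff₀ hk2]; linarith
        have h6 : 1 / ((k : ℝ) - 1) < 2 / k := by
          rw [div_lt_div_iff₀ (by linarith) (by linarith)]
          linarith
        rw [hlogCval]
        rw [hlogCval] at h5
        linarith
      -- endpoint B
      have hB' : 2 * Real.log k - (Real.log 2 + Real.log b) - b / k
          < (((k : ℝ) - 1 - b) / ((k : ℝ) - 2)) * Real.log C := by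
        have hlogb : Real.log b = Real.log (k - 1) - Real.log 2 := by
          rw [hb, Real.log_div (by linarith) (by norm_num)]
        have hln2 : Real.log 2 < 0.6931471808 := Real.log_two_lt_d9
        have hlow : 3 * ((k : ℝ) - 2) / ((k : ℝ) - 1) ≤ Real.log C := by
          rcases Nat.lt_or_ge k 7 with h7 | h7
          · have hk6' : k = 6 := by omega
            have hk6'' : (k : ℝ) = 6 := by exact_mod_cast hk6'
            rw [hC, hk6'']
            have h8 : (12 : ℝ) / 5 ≤ Real.log 15 := by
              rw [Real.le_log_iff_exp_le (by norm_num)]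
              have h9 : Real.exp (12 / 5) ^ 5 ≤ (15 : ℝ) ^ 5 := by
                rw [← Real.exp_nat_mul]
                have : ((5 : ℕ) : ℝ) * (12 / 5) = ((12 : ℕ) : ℝ) * 1 := by norm_num
                rw [this, Real.exp_nat_mul]
                have h10 : Real.exp 1 ≤ 2.7182818286 := Real.exp_one_lt_d9.le
                calc Real.exp 1 ^ 12 ≤ (2.7182818286 : ℝ) ^ 12 :=
                      pow_le_pow_left₀ (Real.exp_pos _).le h10 12
                  _ ≤ 15 ^ 5 := by norm_num
              exact le_of_pow_le_pow_left₀ (by norm_num) (by norm_num) h9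
            norm_num at h8 ⊢
            linarith
          · have hk7 : (7 : ℝ) ≤ k := by exact_mod_cast h7
            have h8 : (3 : ℝ) ≤ Real.log C := by
              rw [Real.le_log_iff_exp_le (by linarith)]
              have h10 : Real.exp 1 ≤ 2.7182818286 := Real.exp_one_lt_d9.le
              have : Real.exp 3 = Real.exp 1 ^ 3 := by
                rw [← Real.exp_nat_mul]; norm_num
              rw [this]
              calc Real.exp 1 ^ 3 ≤ (2.7182818286 : ℝ) ^ 3 :=
                    pow_le_pow_left₀ (Real.exp_pos _).le h10 3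
                _ ≤ 21 := by norm_num
                _ ≤ C := by rw [hC]; nlinarith
            refine le_trans ?_ h8
            rw [div_le_iff₀ (by linarith)]
            linarith
        -- (k-1-b)/(k-2) = (k-1)/(2(k-2)) = 1/2 + 1/(2(k-2))
        have e1 : (((k : ℝ) - 1 - b) / ((k : ℝ) - 2)) * Real.log C
            = Real.log C / 2 + Real.log C / (2 * ((k : ℝ) - 2)) := by
          rw [hb]
          field_simp
          ring
        have h11 : 3 / (2 * ((k : ℝ) - 1)) ≤ Real.log C / (2 * ((k : ℝ) - 2)) := by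
          rw [div_le_div_iff₀ (by linarith) (by linarith)]
          rw [div_le_iff₀ (by linarith)] at hlow
          nlinarith
        have h12 : b / k = 1 / 2 - 1 / (2 * k) := by
          rw [hb]; field_simp
        have h13 : 1 / (2 * (k : ℝ)) ≤ 1 / 12 := by
          apply one_div_le_one_div_of_le (by norm_num); linarith
        have h14 : 3 / (2 * ((k : ℝ) - 1)) = 3 / 2 * (1 / ((k : ℝ) - 1)) := by
          field_simp
        rw [e1, hlogb, h12]
        rw [h14] at h11
        have h15 : Real.log C / 2 = (Real.log k + Real.log (k - 1) - Real.log 2) / 2 := by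
          rw [hlogCval]
        rw [h15]
        linarith
      have hmixA : (1 - lam) * (2 * Real.log k - (Real.log 2 + Real.log 2) - 2 / k)
          ≤ (1 - lam) * ((((k : ℝ) - 1 - 2) / ((k : ℝ) - 2)) * Real.log C) :=
        mul_le_mul_of_nonneg_left hA'.le (by linarith)
      have hmixB : lam * (2 * Real.log k - (Real.log 2 + Real.log b) - b / k)
          ≤ lam * ((((k : ℝ) - 1 - b) / ((k : ℝ) - 2)) * Real.log C) :=
        mul_le_mul_of_nonneg_left hB'.le hlam0
      have hstrict : (1 - lam) * (2 * Real.log k - (Real.log 2 + Real.log 2) - 2 / k)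
          + lam * (2 * Real.log k - (Real.log 2 + Real.log b) - b / k)
          < (1 - lam) * ((((k : ℝ) - 1 - 2) / ((k : ℝ) - 2)) * Real.log C)
          + lam * ((((k : ℝ) - 1 - b) / ((k : ℝ) - 2)) * Real.log C) := by
        rcases eq_or_lt_of_le hlam0 with h0 | h0
        · rw [← h0]; simp only [sub_zero, one_mul, zero_mul, add_zero]; exact hA'
        · have := mul_lt_mul_of_pos_left hB' h0
          linarith
      have hrhs : (1 - lam) * ((((k : ℝ) - 1 - 2) / ((k : ℝ) - 2)) * Real.log C)
          + lam * ((((k : ℝ) - 1 - b) / ((k : ℝ) - 2)) * Real.log C)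
          = (((k : ℝ) - 1 - e) / ((k : ℝ) - 2)) * Real.log C := by
        have hgen : ∀ x : ℝ, x = (1 - lam) * 2 + lam * b →
            (1 - lam) * ((((k : ℝ) - 1 - 2) / ((k : ℝ) - 2)) * Real.log C)
            + lam * ((((k : ℝ) - 1 - b) / ((k : ℝ) - 2)) * Real.log C)
            = (((k : ℝ) - 1 - x) / ((k : ℝ) - 2)) * Real.log C := by
          intro x hx
          rw [hx]
          field_simp
          ring
        exact hgen e hee
      rw [hrhs] at hstrict
      refine lt_of_le_of_lt ?_ hstrict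
      have hlhs : (1 - lam) * (2 * Real.log k - (Real.log 2 + Real.log 2) - 2 / k)
          + lam * (2 * Real.log k - (Real.log 2 + Real.log b) - b / k)
          = 2 * Real.log k - (Real.log 2 + ((1 - lam) * Real.log 2 + lam * Real.log b)) - e / k := by
        have hgen : ∀ x : ℝ, x = (1 - lam) * 2 + lam * b →
            (1 - lam) * (2 * Real.log k - (Real.log 2 + Real.log 2) - 2 / k)
            + lam * (2 * Real.log k - (Real.log 2 + Real.log b) - b / k)
            = 2 * Real.log k - (Real.log 2 + ((1 - lam) * Real.log 2 + lam * Real.log b))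
              - x / k := by
          intro x hx
          rw [hx]
          field_simp
          ring
        exact hgen e hee
      rw [hlhs]
      linarith

end Pool.ER
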