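import Mathlib
import Pool.Agent.ER.Defs
import Pool.Agent.ER.NUM1

set_option autoImplicit false

open Finset Filter

namespace Pool.ER

/-! Module NUM2 (helper39). -/

private lemma NUM2_Ik_one (k : ℕ) : Ik k (1 : ℝ) = k.choose 2 := by
  unfold Ik
  rw [Nat.choose_two_right, ← Finset.sum_range_id]
  apply Finset.sum_congr rfl
  intro l _
  simp

private lemma NUM2_Ik_nat (k q : ℕ) : Ik k (q : ℝ) = ∑ l ∈ range k, l / q := by
  unfold Ik
  apply Finset.sum_congr rfl
  intro l _
  rw [Nat.floor_div_natCast, Nat.floor_natCast]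

/-- for `y > (k-1)/2`, with `q = ⌈y⌉`, `Ik k y = Ik k q = k - q` -/
private lemma NUM2_Ik_large (k : ℕ) (y : ℝ) (hy : 0 < y) (h : (k : ℝ) - 1 < 2 * y) :
    Ik k y = k - ⌈y⌉₊ := by
  unfold Ik
  have h1 : ∀ l ∈ range k, ⌊(l : ℝ) / y⌋₊ = if ⌈y⌉₊ ≤ l then 1 else 0 := by
    intro l hl
    have hl' : l + 1 ≤ k := mem_range.1 hl
    have hl'' : (l : ℝ) + 1 ≤ k := by exact_mod_cast hl'
    have h2 : ⌊(l : ℝ) / y⌋₊ < 2 := by
      rw [Nat.floor_lt (by positivity), div_lt_iff₀ hy]
      push_cast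
      linarith
    split_ifs with h3
    · rw [Nat.ceil_le] at h3
      have h4 : 1 ≤ ⌊(l : ℝ) / y⌋₊ := by
        rw [Nat.one_le_floor_iff, one_le_div hy]
        exact h3
      omega
    · rw [Nat.ceil_le, not_le] at h3
      rw [Nat.floor_eq_zero, div_lt_one hy]
      exact h3
  rw [Finset.sum_congr rfl h1, ← Finset.sum_filter, Finset.sum_const, smul_eq_mul, mul_one]
  have : (range k).filter (fun l => ⌈y⌉₊ ≤ l) = Finset.Ico ⌈y⌉₊ k := by
    ext l
    simp only [mem_filter, mem_range, mem_Ico]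
    tauto
  rw [this, Nat.card_Ico]

private lemma NUM2_beta_lt {r t t' : ℕ} (hr : 2 ≤ r) (ht : 1 ≤ t) (htt : t < t') :
    beta r t' < beta r t := by
  unfold beta
  have hlr : 0 < Real.log r := Real.log_pos (by exact_mod_cast hr)
  have h1 : Real.log t < Real.log t' :=
    Real.log_lt_log (by exact_mod_cast ht) (by exact_mod_cast htt)
  have h2 : Real.log t / Real.log r < Real.log t' / Real.log r :=
    div_lt_div_of_pos_right h1 hlr
  linarith

private lemma NUM2_beta_le {r t t' : ℕ} (hr : 2 ≤ r) (ht : 1 ≤ t) (htt : t ≤ t') :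
    beta r t' ≤ beta r t := by
  rcases eq_or_lt_of_le htt with h | h
  · rw [h]
  · exact (NUM2_beta_lt hr ht h).le

private lemma NUM2_beta_one (r : ℕ) : beta r 1 = 1 := by
  simp [beta]

private lemma NUM2_beta_pos {r t : ℕ} (hr : 2 ≤ r) (ht : 1 ≤ t) (htr : t < r) : 0 < beta r t := by
  unfold beta
  have hlr : 0 < Real.log r := Real.log_pos (by exact_mod_cast hr)
  have h1 : Real.log t < Real.log r :=
    Real.log_lt_log (by exact_mod_cast ht) (by exact_mod_cast htr)
  have h2 : Real.log t / Real.log r < 1 := by rwa [div_lt_one hlr]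
  linarith

/-- superadditivity: `C^θ ≤ (C-d)^θ + d^θ` for `0 ≤ θ ≤ 1` -/
private lemma NUM2_rpow_add (x y θ : ℝ) (hx : 0 ≤ x) (hy : 0 ≤ y) (h0 : 0 ≤ θ) (h1 : θ ≤ 1) :
    (x + y) ^ θ ≤ x ^ θ + y ^ θ := Real.rpow_add_le_add_rpow hx hy h0 h1

/-! ### NUM2 -/
theorem numeric {k s r d : ℕ} {g : ℝ} (H : Par k s r d g) {t : ℕ} (h1 : 1 ≤ t) (h2 : t < s) :
    1 ≤ g * beta r t ∧
      (t + d ≤ Ik k (g * beta r t) → ∃ p : ℕ, LShape k d r g p t) := by
  obtain ⟨hk, hs, hd, hsd, hsr, hg, hgp⟩ := H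
  have hr2 : 2 ≤ r := by omega
  have hk' : (3 : ℝ) ≤ k := by exact_mod_cast hk
  have hg0 : 0 < g := by linarith
  have hp1 := hgp 1 (s - 1) le_rfl (by omega) (by omega) (by
    push_cast
    rw [NUM2_Ik_one]
    omega)
  push_cast at hp1
  have hbt : beta r (s - 1) ≤ beta r t := NUM2_beta_le hr2 h1 (by omega)
  have he1 : 1 ≤ g * beta r t := hp1.trans (mul_le_mul_of_nonneg_left hbt hg0.le)
  refine ⟨he1, fun hI => ?_⟩
  set e := g * beta r t with he
  have he0 : 0 < e := by linarith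
  rcases eq_or_lt_of_le he1 with heq | hlt
  · -- e = 1
    refine ⟨1, ?_⟩
    have hts : t = s - 1 := by
      by_contra hne
      have : t < s - 1 := by omega
      have h3 := NUM2_beta_lt hr2 h1 this
      have h4 : g * beta r (s - 1) < g * beta r t := mul_lt_mul_of_pos_left h3 hg0
      rw [← he, ← heq] at h4
      linarith
    refine ⟨by omega, le_rfl, by omega, ?_, ?_, Or.inl rfl⟩
    · push_cast
      rw [NUM2_Ik_one]
      omega
    · rw [← he, ← heq]
      norm_num
  rcases lt_or_ge ((k : ℝ) - 1) (2 * e) with hbig | hsmall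
  · -- large e
    have hIk := NUM2_Ik_large k e he0 hbig
    set q := ⌈e⌉₊ with hq
    have heq' : e ≤ q := Nat.le_ceil e
    have hIkq : Ik k (q : ℝ) = k - q := by
      have := NUM2_Ik_large k (q : ℝ) (by linarith) (by linarith)
      rw [this, Nat.ceil_natCast]
    rw [hIk] at hI
    have hq2 : q ≤ k - 2 := by omega
    have hq1 : 1 ≤ q := by
      rw [hq]; exact Nat.one_le_ceil_iff.2 he0
    set a := k - q - d with ha
    have ha1 : 1 ≤ a := by omega
    have hgq := hgp q a hq1 hq2 ha1 (by rw [hIkq]; omega)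
    have hta : t ≤ a := by omega
    have hba : beta r a ≤ beta r t := NUM2_beta_le hr2 h1 hta
    have h5 : g * beta r a ≤ e := mul_le_mul_of_nonneg_left hba hg0.le
    have h6 : e = q := le_antisymm heq' (hgq.trans h5)
    have h7 : a = t := by
      by_contra hne
      have : t < a := by omega
      have h3 := NUM2_beta_lt hr2 h1 this
      have h4 : g * beta r a < g * beta r t := mul_lt_mul_of_pos_left h3 hg0
      rw [← he, h6] at h4
      linarith
    refine ⟨q, ?_, hq1, hq2, ?_, ?_, ?_⟩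
    · -- 2 ≤ t
      by_contra hcon
      have ht1 : t = 1 := by omega
      rw [ht1, NUM2_beta_one, mul_one] at he
      have : (q : ℝ) ≤ k - 2 := by
        have : (q : ℝ) + 2 ≤ k := by
          have h8 : q + 2 ≤ k := by omega
          exact_mod_cast h8
        linarith
      linarith
    · rw [hIkq]; omega
    · rw [← he, h6]
    · right
      have h8 : (k : ℝ) - 1 < 2 * q := by linarith
      have h9 : (k : ℝ) < ((2 * q + 1 : ℕ) : ℝ) := by push_cast; linarith
      have h10 : k < 2 * q + 1 := by exact_mod_cast h9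
      omega
  · -- small e: contradiction
    exfalso
    have hk4 : 4 ≤ k := by
      by_contra hcon
      have hk3 : k = 3 := by omega
      rw [hk3] at hsmall
      push_cast at hsmall
      linarith
    have hk4' : (4 : ℝ) ≤ k := by exact_mod_cast hk4
    have hnum := numeric_real hk4 hlt (by linarith)
    set θ := ((k : ℝ) - 1 - e) / ((k : ℝ) - 2) with hθ
    have hk2 : (0 : ℝ) < (k : ℝ) - 2 := by linarith
    have hθ0 : 0 ≤ θ := by rw [hθ]; apply div_nonneg <;> linarith
    have hθ1 : θ ≤ 1 := by rw [hθ, div_le_one hk2]; linarith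
    have hlr : 0 < Real.log r := Real.log_pos (by exact_mod_cast hr2)
    -- log t ≥ θ log (s-1)
    have hls : Real.log ((s - 1 : ℕ) : ℝ) ≤ (1 - 1 / g) * Real.log r := by
      unfold beta at hp1
      have h3 : 1 / g ≤ 1 - Real.log ((s - 1 : ℕ) : ℝ) / Real.log r := by
        rw [div_le_iff₀ hg0]; linarith
      have h4 : Real.log ((s - 1 : ℕ) : ℝ) / Real.log r ≤ 1 - 1 / g := by linarith
      rwa [div_le_iff₀ hlr] at h4
    have hlt' : Real.log t = (1 - e / g) * Real.log r := by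
      have : e / g = 1 - Real.log t / Real.log r := by
        rw [he]; unfold beta; field_simp
      rw [this]
      field_simp
      ring
    have hconv : θ * (1 - 1 / g) ≤ 1 - e / g := by
      -- 1 - e/g = θ(1-1/g) + (1-θ)(1-(k-1)/g)
      have h3 : 1 - e / g = θ * (1 - 1 / g) + (1 - θ) * (1 - ((k : ℝ) - 1) / g) := by
        rw [hθ]
        field_simp
        ring
      rw [h3]
      have h4 : ((k : ℝ) - 1) / g ≤ 1 := by rw [div_le_one hg0]; exact hg
      have h5 : 0 ≤ (1 - θ) * (1 - ((k : ℝ) - 1) / g) := by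
        apply mul_nonneg <;> linarith
      linarith
    have hlogt : θ * Real.log ((s - 1 : ℕ) : ℝ) ≤ Real.log t := by
      rw [hlt']
      calc θ * Real.log ((s - 1 : ℕ) : ℝ) ≤ θ * ((1 - 1 / g) * Real.log r) :=
            mul_le_mul_of_nonneg_left hls hθ0
        _ = (θ * (1 - 1 / g)) * Real.log r := by ring
        _ ≤ (1 - e / g) * Real.log r := mul_le_mul_of_nonneg_right hconv hlr.le
    have hs1 : (0 : ℝ) < ((s - 1 : ℕ) : ℝ) := by
      have : 0 < s - 1 := by omega
      exact_mod_cast this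
    have ht0 : (0 : ℝ) < t := by exact_mod_cast h1
    have h3 : ((s - 1 : ℕ) : ℝ) ^ θ ≤ t := by
      rw [← Real.log_le_log_iff (Real.rpow_pos_of_pos hs1 _) ht0, Real.log_rpow hs1]
      exact hlogt
    have h4 : (d : ℝ) ^ θ ≤ d := by
      have hd1 : (1 : ℝ) ≤ d := by exact_mod_cast hd
      calc (d : ℝ) ^ θ ≤ (d : ℝ) ^ (1 : ℝ) := Real.rpow_le_rpow_of_exponent_le hd1 hθ1
        _ = d := Real.rpow_one _
    have h5 : (k.choose 2 : ℝ) ^ θ ≤ ((s - 1 : ℕ) : ℝ) ^ θ + (d : ℝ) ^ θ := by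
      have h6 : (k.choose 2 : ℝ) = ((s - 1 : ℕ) : ℝ) + d := by
        have : k.choose 2 = (s - 1) + d := by omega
        rw [this]; push_cast; ring
      rw [h6]
      exact NUM2_rpow_add _ _ _ hs1.le (by positivity) hθ0 hθ1
    have h6 : (t : ℝ) + d ≤ Ik k e := by exact_mod_cast hI
    linarith

/-! ### NUM3 -/
theorem exists_crit {k s r d : ℕ} (hk : 3 ≤ k) (hs : 3 ≤ s) (hd : 1 ≤ d)
    (hsd : s + d = k.choose 2 + 1) (hsr : s ≤ r) :
    ∃ g : ℝ, Par k s r d g ∧ ∃ p a : ℕ, Shape k d r g p a := by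
  have hr2 : 2 ≤ r := by omega
  have hk' : (3 : ℝ) ≤ k := by exact_mod_cast hk
  have hCs : k.choose 2 = (s - 1) + d := by omega
  -- Ik k p ≤ choose
  have hIkle : ∀ p : ℕ, 1 ≤ p → Ik k (p : ℝ) ≤ k.choose 2 := by
    intro p hp
    rw [← NUM2_Ik_one k]
    unfold Ik
    apply Finset.sum_le_sum
    intro l _
    apply Nat.floor_le_floor
    have : (1 : ℝ) ≤ p := by exact_mod_cast hp
    rw [div_one]
    exact div_le_self (by positivity) this
  -- the finite set of candidates
  set T : Finset ℕ := (Finset.Icc 1 (k - 2)).filter (fun p => d + 1 ≤ Ik k (p : ℝ)) with hT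
  have hTne : T.Nonempty := by
    refine ⟨1, ?_⟩
    rw [hT, mem_filter, mem_Icc]
    refine ⟨⟨le_rfl, by omega⟩, ?_⟩
    push_cast
    rw [NUM2_Ik_one]
    omega
  set f : ℕ → ℝ := fun p => (p : ℝ) / beta r (Ik k (p : ℝ) - d) with hf
  obtain ⟨p0, hp0, hmax⟩ := T.exists_max_image f hTne
  have hmem : ∀ p, p ∈ T ↔ (1 ≤ p ∧ p ≤ k - 2) ∧ d + 1 ≤ Ik k (p : ℝ) := by
    intro p
    rw [hT, mem_filter, mem_Icc]
  have hbpos : ∀ p, p ∈ T → 0 < beta r (Ik k (p : ℝ) - d) := by
    intro p hp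
    rw [hmem] at hp
    apply NUM2_beta_pos hr2 (by omega)
    have := hIkle p hp.1.1
    omega
  set g : ℝ := max ((k : ℝ) - 1) (f p0) with hg
  have hgk : (k : ℝ) - 1 ≤ g := le_max_left _ _
  have hg0 : 0 < g := by linarith
  have hpar : Par k s r d g := by
    refine ⟨hk, hs, hd, hsd, hsr, hgk, ?_⟩
    intro p a hp1 hp2 ha hI
    have hpT : p ∈ T := by
      rw [hmem]; exact ⟨⟨hp1, hp2⟩, by omega⟩
    have h1 : f p ≤ g := (hmax p hpT).trans (le_max_right _ _)
    have h2 := hbpos p hpT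
    have h3 : Ik k (p : ℝ) - d = a := by omega
    simp only [hf] at h1
    rw [h3] at h1 h2
    rwa [div_le_iff₀ h2] at h1
  refine ⟨g, hpar, ?_⟩
  rcases le_or_gt (f p0) ((k : ℝ) - 1) with hcase | hcase
  · -- Turan shape
    refine ⟨k - 1, 0, Or.inr ⟨rfl, rfl, ?_⟩⟩
    rw [hg, max_eq_left hcase]
  · have hgf : g = f p0 := by rw [hg, max_eq_right hcase.le]
    have h2 := hbpos p0 hp0
    have hp0' := (hmem p0).1 hp0
    set a := Ik k (p0 : ℝ) - d with ha
    have hgb : g * beta r a = p0 := by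
      rw [hgf]
      simp only [hf]
      rw [← ha]
      field_simp
    have ha1 : 1 ≤ a := by omega
    have has : a < s := by
      have := hIkle p0 hp0'.1.1
      omega
    obtain ⟨_, h3⟩ := numeric hpar ha1 has
    obtain ⟨p, hp⟩ := h3 (by rw [hgb]; omega)
    exact ⟨p, a, Or.inl hp⟩

end Pool.ER
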