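import Mathlib
import Pool.Agent.ER.Defs
import Pool.Agent.ER.NUM2
import Pool.Agent.ER.KON

set_option autoImplicit false

open Finset Filter

namespace Pool.ER

/-! Module TUP (helper39). -/

theorem TUP_beta_anti {r t t' : ℕ} (hr : 2 ≤ r) (ht : 1 ≤ t) (htt : t ≤ t') :
    beta r t' ≤ beta r t := by
  unfold beta
  have hlr : 0 < Real.log r := Real.log_pos (by exact_mod_cast hr)
  have h1 : Real.log t ≤ Real.log t' :=
    Real.log_le_log (by exact_mod_cast ht) (by exact_mod_cast htt)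
  have h2 : Real.log t / Real.log r ≤ Real.log t' / Real.log r :=
    div_le_div_of_nonneg_right h1 hlr.le
  linarith

theorem TUP_beta_nonneg {r t : ℕ} (hr : 2 ≤ r) (ht : 1 ≤ t) (htr : t ≤ r) : 0 ≤ beta r t := by
  have h1 := TUP_beta_anti hr ht htr
  have h2 : beta r r = 0 := by
    unfold beta
    have hlr : 0 < Real.log r := Real.log_pos (by exact_mod_cast hr)
    rw [div_self hlr.ne']; ring
  linarith

theorem TUP_eL_nonneg {r : ℕ} (hr : 2 ≤ r) {g : ℝ} (hg : 0 ≤ g) (L : Finset (Fin r)) :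
    0 ≤ eL g L := by
  unfold eL
  apply mul_nonneg hg
  apply TUP_beta_nonneg hr (le_max_left _ _)
  have : L.card ≤ r := by
    have := card_le_univ L
    rwa [Fintype.card_fin] at this
  omega

theorem TUP_eL_ge {r : ℕ} (hr : 2 ≤ r) {g : ℝ} (hg : 0 ≤ g) (L : Finset (Fin r)) {t : ℕ}
    (ht : 1 ≤ t) (hL : L.card ≤ t) : g * beta r t ≤ eL g L := by
  unfold eL
  apply mul_le_mul_of_nonneg_left _ hg
  exact TUP_beta_anti hr (le_max_left _ _) (by omega)

theorem TUP_eL_le_g {r : ℕ} (hr : 2 ≤ r) {g : ℝ} (hg : 0 ≤ g) (L : Finset (Fin r)) :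
    eL g L ≤ g := by
  unfold eL
  have h1 : beta r (max 1 L.card) ≤ beta r 1 := TUP_beta_anti hr le_rfl (le_max_left _ _)
  have h2 : beta r 1 = 1 := by simp [beta]
  rw [h2] at h1
  nlinarith

theorem TUP_eL_small {r : ℕ} {g : ℝ} (L : Finset (Fin r)) (hL : L.card ≤ 1) : eL g L = g := by
  unfold eL
  rw [max_eq_left hL]
  simp [beta]

/-! ### TUP -/
theorem tuple_unit {k s r d : ℕ} {g : ℝ} (H : Par k s r d g)
    (L : Fin k → Fin k → Finset (Fin r))
    (hgr : ∀ l : Fin k, ∑ i ∈ univ.filter (· < l), eL g (L i l) ≤ ((l : ℕ) : ℝ))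
    (hn : ¬ RbL s L) :
    ∃ p a : ℕ, Shape k d r g p a ∧ ∃ (hp : p < k) (i : Fin k), i < ⟨p, hp⟩ ∧
      eL g (L i ⟨p, hp⟩) = p ∧ ∀ i' : Fin k, i' < ⟨p, hp⟩ → i' ≠ i → eL g (L i' ⟨p, hp⟩) = 0 := by
  have hk := H.hk
  have hs := H.hs
  have hsr := H.hsr
  have hg := H.hg
  have hr2 : 2 ≤ r := by omega
  have hk' : (3 : ℝ) ≤ k := by exact_mod_cast hk
  have hg0 : 0 < g := by linarith
  by_cases hone : ∃ i l : Fin k, i < l ∧ (L i l).card ≤ 1
  · -- Case 1
    obtain ⟨i, l, hil, hcard⟩ := hone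
    have he : eL g (L i l) = g := TUP_eL_small _ hcard
    have hsum := hgr l
    have hmem : i ∈ univ.filter (· < l) := by simp [hil]
    rw [← Finset.add_sum_erase _ _ hmem, he] at hsum
    have hrest : 0 ≤ ∑ x ∈ (univ.filter (· < l)).erase i, eL g (L x l) :=
      Finset.sum_nonneg fun x _ => TUP_eL_nonneg hr2 hg0.le _
    have hl : ((l : ℕ) : ℝ) ≤ k - 1 := by
      have : (l : ℕ) + 1 ≤ k := l.2
      have : (((l : ℕ) + 1 : ℕ) : ℝ) ≤ k := by exact_mod_cast this
      push_cast at this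
      linarith
    have hlk : ((l : ℕ) : ℝ) = k - 1 := by linarith
    have hgk : g = (k : ℝ) - 1 := by linarith
    have hlk' : (l : ℕ) = k - 1 := by
      have h1 : ((l : ℕ) : ℝ) + 1 = k := by linarith
      have h2 : (l : ℕ) + 1 = k := by exact_mod_cast h1
      omega
    have hleq : l = ⟨k - 1, by omega⟩ := Fin.ext hlk'
    refine ⟨k - 1, 0, Or.inr ⟨rfl, rfl, hgk⟩, by omega, i, ?_, ?_, ?_⟩
    · rw [← hleq]; exact hil
    · rw [← hleq, he, hgk, Nat.cast_sub (by omega)]; push_cast; ring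
    · intro i' hi' hne
      rw [← hleq] at hi' ⊢
      have hz : ∑ x ∈ (univ.filter (· < l)).erase i, eL g (L x l) = 0 := by
        apply le_antisymm _ hrest
        linarith
      rw [Finset.sum_eq_zero_iff_of_nonneg fun x _ => TUP_eL_nonneg hr2 hg0.le _] at hz
      apply hz
      simp [hi', hne]
  · push Not at hone
    have hne : ∀ i j : Fin k, i < j → (L i j).Nonempty := by
      intro i j hij
      have := hone i j hij
      rw [← card_pos]; omega
    obtain ⟨t, ht1, hts, hN⟩ := kon_size (by omega) H.hd H.hsd L hne hn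
    obtain ⟨he1, hnum⟩ := numeric H ht1 hts
    set e := g * beta r t with he
    have he0 : 0 < e := by linarith
    -- counting
    set cn : Fin k → ℕ := fun l => ((univ.filter (· < l)).filter fun i => (L i l).card ≤ t).card
      with hcn
    have hNsum : ((univ : Finset (Fin k × Fin k)).filter fun q =>
        q.1 < q.2 ∧ (L q.1 q.2).card ≤ t).card = ∑ l : Fin k, cn l := by
      rw [Finset.card_filter, ← Finset.univ_product_univ, Finset.sum_product_right]
      apply Finset.sum_congr rfl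
      intro l _
      rw [← Finset.card_filter]
      simp only [hcn]
      rw [Finset.filter_filter]
    have hcnle : ∀ l : Fin k, cn l ≤ ⌊((l : ℕ) : ℝ) / e⌋₊ := by
      intro l
      rw [Nat.le_floor_iff (by positivity), le_div_iff₀ he0]
      refine le_trans ?_ (hgr l)
      simp only [hcn]
      calc (((univ.filter (· < l)).filter fun i => (L i l).card ≤ t).card : ℝ) * e
          = ∑ i ∈ (univ.filter (· < l)).filter fun i => (L i l).card ≤ t, e := by
            rw [Finset.sum_const, nsmul_eq_mul]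
        _ ≤ ∑ i ∈ (univ.filter (· < l)).filter fun i => (L i l).card ≤ t, eL g (L i l) := by
            apply Finset.sum_le_sum
            intro i hi
            rw [Finset.mem_filter] at hi
            exact TUP_eL_ge hr2 hg0.le _ ht1 hi.2
        _ ≤ ∑ i ∈ univ.filter (· < l), eL g (L i l) := by
            apply Finset.sum_le_sum_of_subset_of_nonneg (Finset.filter_subset _ _)
            intro i _ _
            exact TUP_eL_nonneg hr2 hg0.le _
    have hIk : Ik k e = ∑ l : Fin k, ⌊((l : ℕ) : ℝ) / e⌋₊ := by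
      unfold Ik
      rw [Fin.sum_univ_eq_sum_range (fun l => ⌊((l : ℕ) : ℝ) / e⌋₊) k]
    have hle : ∑ l : Fin k, cn l ≤ Ik k e := by
      rw [hIk]; exact Finset.sum_le_sum fun l _ => hcnle l
    rw [hNsum] at hN
    obtain ⟨p, hL⟩ := hnum (hN.trans hle)
    obtain ⟨ht2, hp1, hpk, hIkp, hgb, hor⟩ := hL
    have hep : e = p := hgb
    have hpk' : p < k := by omega
    -- equality
    have heq : ∀ l : Fin k, cn l = ⌊((l : ℕ) : ℝ) / e⌋₊ := by
      have hsum : ∑ l : Fin k, cn l = ∑ l : Fin k, ⌊((l : ℕ) : ℝ) / e⌋₊ := by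
        rw [← hIk]
        apply le_antisymm hle
        rw [hep, hIkp]
        exact hN
      intro l
      exact (Finset.sum_eq_sum_iff_of_le fun l _ => hcnle l).1 hsum l (mem_univ _)
    have hp0 : (0 : ℝ) < p := by exact_mod_cast hp1
    have hcp := heq ⟨p, hpk'⟩
    rw [hep] at hcp
    simp only at hcp
    rw [div_self hp0.ne', Nat.floor_one] at hcp
    simp only [hcn] at hcp
    obtain ⟨i, hi⟩ := Finset.card_eq_one.1 hcp
    have himem : i ∈ (univ.filter (· < (⟨p, hpk'⟩ : Fin k))).filter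
        fun i => (L i ⟨p, hpk'⟩).card ≤ t := by
      rw [hi]; exact Finset.mem_singleton_self i
    rw [Finset.mem_filter, Finset.mem_filter] at himem
    obtain ⟨⟨_, hip⟩, hicard⟩ := himem
    have hsum := hgr ⟨p, hpk'⟩
    simp only at hsum
    have hmem : i ∈ univ.filter (· < (⟨p, hpk'⟩ : Fin k)) := by simp [hip]
    rw [← Finset.add_sum_erase _ _ hmem] at hsum
    have hrest : 0 ≤ ∑ x ∈ (univ.filter (· < (⟨p, hpk'⟩ : Fin k))).erase i,
        eL g (L x ⟨p, hpk'⟩) :=
      Finset.sum_nonneg fun x _ => TUP_eL_nonneg hr2 hg0.le _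
    have hei : (p : ℝ) ≤ eL g (L i ⟨p, hpk'⟩) := by
      rw [← hep]
      exact TUP_eL_ge hr2 hg0.le _ ht1 hicard
    refine ⟨p, t, Or.inl ⟨ht2, hp1, hpk, hIkp, hgb, hor⟩, hpk', i, hip, ?_, ?_⟩
    · linarith
    · intro i' hi' hne'
      have hz : ∑ x ∈ (univ.filter (· < (⟨p, hpk'⟩ : Fin k))).erase i,
          eL g (L x ⟨p, hpk'⟩) = 0 := by
        apply le_antisymm _ hrest
        linarith
      rw [Finset.sum_eq_zero_iff_of_nonneg fun x _ => TUP_eL_nonneg hr2 hg0.le _] at hz
      apply hz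
      simp [hi', hne']

end Pool.ER
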