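import Mathlib
import Pool.Agent.ER.Defs
import Pool.Agent.ER.TUP

set_option autoImplicit false

open Finset Filter

namespace Pool.ER

/-! Module CLO (helper39). -/

theorem CLO_RbL_perm {s k r : ℕ} (Ls : Fin k → Fin k → Finset (Fin r))
    (hsymm : ∀ x y, Ls x y = Ls y x) (ρ : Fin k ≃ Fin k)
    (h : RbL s (fun x y => Ls (ρ x) (ρ y))) : RbL s Ls := by
  obtain ⟨χ, h1, h2⟩ := h
  refine ⟨fun i j => if ρ.symm i < ρ.symm j then χ (ρ.symm i) (ρ.symm j)
    else χ (ρ.symm j) (ρ.symm i), ?_, ?_⟩
  · intro i j hij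
    beta_reduce
    split_ifs with hc
    · have := h1 _ _ hc
      simpa using this
    · have hne : ρ.symm j ≠ ρ.symm i := fun he => hij.ne (ρ.symm.injective he).symm
      have hlt : ρ.symm j < ρ.symm i := lt_of_le_of_ne (not_lt.1 hc) hne
      have := h1 _ _ hlt
      rw [hsymm i j]
      simpa using this
  · refine h2.trans (card_le_card ?_)
    intro c hc
    rw [Finset.mem_filter] at hc ⊢
    obtain ⟨_, x, y, hxy, hχ⟩ := hc
    refine ⟨mem_univ _, ?_⟩
    rcases lt_trichotomy (ρ x) (ρ y) with hlt | heq | hgt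
    · refine ⟨ρ x, ρ y, hlt, ?_⟩
      simp only [Equiv.symm_apply_apply]
      rw [if_pos hxy]; exact hχ
    · exact absurd (ρ.injective heq) hxy.ne
    · refine ⟨ρ y, ρ x, hgt, ?_⟩
      simp only [Equiv.symm_apply_apply]
      rw [if_neg (not_lt.2 hxy.le)]; exact hχ

theorem CLO_RbL_congr {s k r : ℕ} {L L' : Fin k → Fin k → Finset (Fin r)}
    (h : ∀ x y, x < y → L x y = L' x y) (hR : RbL s L) : RbL s L' := by
  obtain ⟨χ, h1, h2⟩ := hR
  exact ⟨χ, fun i j hij => by rw [← h i j hij]; exact h1 i j hij, h2⟩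

/-- number of earlier positions in the same residue class -/
theorem CLO_count (l p : ℕ) (hp : 1 ≤ p) :
    ((range l).filter fun j => j % p = l % p).card = l / p := by
  have h := Nat.count_modEq_card l (show 0 < p by omega) l
  rw [if_neg (lt_irrefl _), add_zero, Nat.count_eq_card_filter_range] at h
  rw [← h]
  rfl

theorem CLO_sorted {p : ℕ} (e : Fin p → ℝ) (he : ∀ i, 0 ≤ e i) (hm : Monotone e)
    (hsum : ∑ i, e i ≤ p) (b : Fin p) : e b ≤ (b : ℕ) + 1 := by
  have hbp : (b : ℕ) + 1 ≤ p := b.2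
  have hbp' : ((b : ℕ) : ℝ) + 1 ≤ p := by exact_mod_cast hbp
  have h1 : ((p : ℝ) - (b : ℕ)) * e b ≤ ∑ i, e i := by
    have h2 : ∑ i ∈ Finset.Ici b, e b ≤ ∑ i ∈ Finset.Ici b, e i :=
      Finset.sum_le_sum fun i hi => hm (Finset.mem_Ici.1 hi)
    have h3 : ∑ i ∈ Finset.Ici b, e i ≤ ∑ i, e i :=
      Finset.sum_le_sum_of_subset_of_nonneg (subset_univ _) fun i _ _ => he i
    rw [Finset.sum_const, Fin.card_Ici, nsmul_eq_mul, Nat.cast_sub (by omega)] at h2
    linarith
  have hpos : 0 < (p : ℝ) - (b : ℕ) := by linarith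
  have h4 : ((p : ℝ) - (b : ℕ)) * e b ≤ ((p : ℝ) - (b : ℕ)) * ((b : ℕ) + 1) := by
    have hb0 : (0 : ℝ) ≤ (b : ℕ) := by positivity
    nlinarith
  exact le_of_mul_le_mul_left h4 hpos

/-- the rotation moving position `p` to the front -/
def CLO_rhoF (k p : ℕ) (hp : p < k) (x : Fin k) : Fin k :=
  ⟨if (x : ℕ) < p then x + 1 else if (x : ℕ) = p then 0 else x, by
    have := x.2
    split_ifs <;> omega⟩

theorem CLO_rhoF_inj (k p : ℕ) (hp : p < k) : Function.Injective (CLO_rhoF k p hp) := by
  intro x y h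
  have h' := congrArg Fin.val h
  simp only [CLO_rhoF] at h'
  apply Fin.ext
  split_ifs at h' <;> omega

noncomputable def CLO_rho (k p : ℕ) (hp : p < k) : Fin k ≃ Fin k :=
  Equiv.ofBijective (CLO_rhoF k p hp) (Finite.injective_iff_bijective.1 (CLO_rhoF_inj k p hp))

theorem CLO_rho_lt {k p : ℕ} (hp : p < k) (x : Fin k) (h : (x : ℕ) < p) :
    ((CLO_rho k p hp x : Fin k) : ℕ) = x + 1 := by
  simp [CLO_rho, CLO_rhoF, h]

theorem CLO_rho_eq {k p : ℕ} (hp : p < k) (x : Fin k) (h : (x : ℕ) = p) :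
    ((CLO_rho k p hp x : Fin k) : ℕ) = 0 := by
  simp [CLO_rho, CLO_rhoF, h]

theorem CLO_rho_gt {k p : ℕ} (hp : p < k) (x : Fin k) (h : p < (x : ℕ)) :
    CLO_rho k p hp x = x := by
  have h1 : ¬ (x : ℕ) < p := by omega
  have h2 : ¬ (x : ℕ) = p := by omega
  apply Fin.ext
  simp [CLO_rho, CLO_rhoF, h1, h2]

/-- for `l > p`, `ρ` permutes the positions below `l` -/
theorem CLO_rho_lt_iff {k p : ℕ} (hp : p < k) (l x : Fin k) (hl : p < (l : ℕ)) :
    CLO_rho k p hp x < l ↔ x < l := by
  rw [Fin.lt_def, Fin.lt_def]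
  rcases lt_trichotomy (x : ℕ) p with h | h | h
  · rw [CLO_rho_lt hp x h]; omega
  · rw [CLO_rho_eq hp x h]; omega
  · rw [CLO_rho_gt hp x h]

theorem CLO_eL_univ {r : ℕ} (hr : 2 ≤ r) (g : ℝ) : eL g (univ : Finset (Fin r)) = 0 := by
  unfold eL
  rw [card_univ, Fintype.card_fin, max_eq_right (by omega)]
  unfold beta
  have hlr : 0 < Real.log r := Real.log_pos (by exact_mod_cast hr)
  rw [div_self hlr.ne']; ring

theorem CLO_beta_inj {r t t' : ℕ} (hr : 2 ≤ r) (ht : 1 ≤ t) (ht' : 1 ≤ t')
    (h : beta r t = beta r t') : t = t' := by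
  unfold beta at h
  have hlr : 0 < Real.log r := Real.log_pos (by exact_mod_cast hr)
  have h1 : Real.log t / Real.log r = Real.log t' / Real.log r := by linarith
  rw [div_left_inj' hlr.ne'] at h1
  have h2 : (t : ℝ) = t' := by
    apply Real.log_injOn_pos _ _ h1
    · simp only [Set.mem_Ioi]; exact_mod_cast ht
    · simp only [Set.mem_Ioi]; exact_mod_cast ht'
  exact_mod_cast h2

theorem CLO_eL_zero {r : ℕ} (hr : 2 ≤ r) {g : ℝ} (hg : 0 < g) (L : Finset (Fin r))
    (h : eL g L = 0) : L = univ := by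
  unfold eL at h
  have h1 : beta r (max 1 L.card) = 0 := by
    rcases mul_eq_zero.1 h with h | h
    · linarith
    · exact h
  have h2 : beta r r = 0 := by
    unfold beta
    have hlr : 0 < Real.log r := Real.log_pos (by exact_mod_cast hr)
    rw [div_self hlr.ne']; ring
  have h3 := CLO_beta_inj hr (le_max_left _ _) (by omega) (h1.trans h2.symm)
  apply Finset.eq_univ_of_card
  rw [Fintype.card_fin]
  omega

theorem CLO_shape {k s r d : ℕ} {g : ℝ} (H : Par k s r d g) {p a : ℕ}
    (hS : Shape k d r g p a) (A : Finset (Fin r)) (hA : A.card = a) :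
    eL g A = p ∧ 1 ≤ p ∧ p < k := by
  have hk := H.hk
  rcases hS with ⟨h1, h2, h3, h4, h5, h6⟩ | ⟨h1, h2, h3⟩
  · refine ⟨?_, h2, by omega⟩
    unfold eL
    rw [hA, max_eq_right (by omega)]
    exact h5
  · refine ⟨?_, by omega, by omega⟩
    rw [TUP_eL_small A (by omega), h3, h2, Nat.cast_sub (by omega)]
    push_cast; ring

/-- main step: exactly one class with loss `p`, the others with loss `0` -/
theorem CLO_main {k s r d : ℕ} {g : ℝ} (H : Par k s r d g) {p a : ℕ} (hS : Shape k d r g p a)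
    (A : Finset (Fin r)) (hA : A.card = a) (Lv : Fin p → Finset (Fin r))
    (hsum : ∑ i, eL g (Lv i) ≤ p)
    (hnr : ∀ cls : Fin k → Fin p,
      ¬ RbL s (fun x y : Fin k => if (x : ℕ) = 0 then Lv (cls y) else
        pureL A (cls x) (cls y))) :
    ∃ i₀, eL g (Lv i₀) = p ∧ ∀ j, j ≠ i₀ → eL g (Lv j) = 0 := by
  have hk := H.hk
  have hr2 : 2 ≤ r := by have := H.hs; have := H.hsr; omega
  have hg0 : 0 < g := by
    have := H.hg
    have hk' : (3 : ℝ) ≤ k := by exact_mod_cast hk
    linarith
  obtain ⟨heA, hp1, hpk⟩ := CLO_shape H hS A hA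
  have hp0 : (0 : ℝ) < p := by exact_mod_cast hp1
  -- sorted order
  set e : Fin p → ℝ := fun i => eL g (Lv i) with he
  have henn : ∀ i, 0 ≤ e i := fun i => TUP_eL_nonneg hr2 hg0.le _
  set σ := Tuple.sort e with hσ
  have hmono : Monotone (e ∘ σ) := Tuple.monotone_sort e
  have hsum' : ∑ i, (e ∘ σ) i ≤ p := by
    have : ∑ i, (e ∘ σ) i = ∑ i, e i := Equiv.sum_comp σ e
    rw [this]; exact hsum
  have hsorted := CLO_sorted (e ∘ σ) (fun i => henn _) hmono hsum'
  -- classes
  let cls : Fin k → Fin p := fun x => σ ⟨((x : ℕ) - 1) % p, Nat.mod_lt _ (by omega)⟩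
  let Ls : Fin k → Fin k → Finset (Fin r) := fun x y =>
    if (x : ℕ) = 0 then Lv (cls y) else if (y : ℕ) = 0 then Lv (cls x) else pureL A (cls x) (cls y)
  have hLs0 : ∀ x y : Fin k, (x : ℕ) ≠ 0 → (y : ℕ) = 0 → Ls x y = Lv (cls x) := by
    intro x y hx hy
    simp only [Ls, if_neg hx, if_pos hy]
  have hLs1 : ∀ x y : Fin k, (x : ℕ) ≠ 0 → (y : ℕ) ≠ 0 → Ls x y = pureL A (cls x) (cls y) := by
    intro x y hx hy
    simp only [Ls, if_neg hx, if_neg hy]
  have hLs2 : ∀ x y : Fin k, (x : ℕ) = 0 → Ls x y = Lv (cls y) := by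
    intro x y hx
    simp only [Ls, if_pos hx]
  have hsymm : ∀ x y, Ls x y = Ls y x := by
    intro x y
    by_cases hx : (x : ℕ) = 0
    · by_cases hy : (y : ℕ) = 0
      · have : x = y := Fin.ext (by omega)
        rw [this]
      · rw [hLs2 x y hx, hLs0 y x hy hx]
    · by_cases hy : (y : ℕ) = 0
      · rw [hLs0 x y hx hy, hLs2 y x hy]
      · rw [hLs1 x y hx hy, hLs1 y x hy hx]
        unfold pureL
        by_cases hc : cls x = cls y
        · rw [if_pos hc, if_pos hc.symm]
        · rw [if_neg hc, if_neg (fun h => hc h.symm)]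
  have hnLs : ¬ RbL s Ls := by
    intro hR
    apply hnr cls
    apply CLO_RbL_congr _ hR
    intro x y hxy
    by_cases hx : (x : ℕ) = 0
    · rw [hLs2 x y hx, if_pos hx]
    · have hy : (y : ℕ) ≠ 0 := by
        have := Fin.lt_def.1 hxy; omega
      rw [hLs1 x y hx hy, if_neg hx]
  set ρ := CLO_rho k p hpk with hρ
  have hnT : ¬ RbL s (fun x y => Ls (ρ x) (ρ y)) := fun h => hnLs (CLO_RbL_perm Ls hsymm ρ h)
  have hepure : ∀ i j : Fin p, eL g (pureL A i j) = if i = j then (p : ℝ) else 0 := by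
    intro i j
    unfold pureL
    by_cases hij : i = j
    · rw [if_pos hij, if_pos hij]; exact heA
    · rw [if_neg hij, if_neg hij]; exact CLO_eL_univ hr2 g
  have hclseq : ∀ x y : Fin k, cls x = cls y ↔ ((x : ℕ) - 1) % p = ((y : ℕ) - 1) % p := by
    intro x y
    simp only [cls]
    rw [σ.injective.eq_iff, Fin.mk.injEq]
  -- the greedy condition
  have hgr : ∀ l : Fin k, ∑ i ∈ univ.filter (· < l), eL g (Ls (ρ i) (ρ l)) ≤ ((l : ℕ) : ℝ) := by
    intro l
    rcases lt_trichotomy (l : ℕ) p with hl | hl | hl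
    · -- l < p
      have : ∑ i ∈ univ.filter (· < l), eL g (Ls (ρ i) (ρ l)) = 0 := by
        apply Finset.sum_eq_zero
        intro i hi
        rw [Finset.mem_filter] at hi
        have hil := Fin.lt_def.1 hi.2
        have hρi := CLO_rho_lt hpk i (by omega)
        have hρl := CLO_rho_lt hpk l hl
        rw [← hρ] at hρi hρl
        rw [hLs1 _ _ (by omega) (by omega), hepure, if_neg]
        rw [hclseq, hρi, hρl]
        simp only [Nat.add_sub_cancel]
        rw [Nat.mod_eq_of_lt (by omega), Nat.mod_eq_of_lt (by omega)]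
        omega
      rw [this]; positivity
    · -- l = p
      have hρl := CLO_rho_eq hpk l hl
      rw [← hρ] at hρl
      have h1 : ∑ i ∈ univ.filter (· < l), eL g (Ls (ρ i) (ρ l)) = ∑ j : Fin p, (e ∘ σ) j := by
        symm
        apply Finset.sum_bij (fun (j : Fin p) _ => (⟨(j : ℕ), by omega⟩ : Fin k))
        · intro j _
          rw [Finset.mem_filter, Fin.lt_def]
          exact ⟨mem_univ _, by simp only; omega⟩
        · intro j _ j' _ h
          simp only [Fin.mk.injEq] at h
          exact Fin.ext h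
        · intro i hi
          rw [Finset.mem_filter, Fin.lt_def] at hi
          exact ⟨⟨i, by omega⟩, mem_univ _, rfl⟩
        · intro j _
          have hj : (j : ℕ) < p := j.2
          have hρi := CLO_rho_lt hpk (⟨(j : ℕ), by omega⟩ : Fin k) hj
          rw [← hρ] at hρi
          rw [hLs0 _ _ (by rw [hρi]; omega) hρl]
          simp only [Function.comp, he, cls]
          congr 4
          apply Fin.ext
          simp only [hρi, Nat.add_sub_cancel]
          rw [Nat.mod_eq_of_lt hj]
      rw [h1, hl]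
      exact hsum'
    · -- l > p
      have hρl := CLO_rho_gt hpk l hl
      rw [← hρ] at hρl
      have h1 : ∑ i ∈ univ.filter (· < l), eL g (Ls (ρ i) (ρ l))
          = ∑ j ∈ univ.filter (· < l), eL g (Ls j l) := by
        rw [hρl]
        apply Finset.sum_equiv ρ
        · intro i
          rw [Finset.mem_filter, Finset.mem_filter]
          simp only [mem_univ, true_and]
          rw [hρ, CLO_rho_lt_iff hpk l i hl]
        · intro i _
          rfl
      rw [h1]
      have hz : (⟨0, by omega⟩ : Fin k) ∈ univ.filter (· < l) := by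
        rw [Finset.mem_filter, Fin.lt_def]
        exact ⟨mem_univ _, by simp only; omega⟩
      rw [← Finset.add_sum_erase _ _ hz, hLs2 _ _ rfl]
      have h2 : ∑ j ∈ (univ.filter (· < l)).erase (⟨0, by omega⟩ : Fin k), eL g (Ls j l)
          = (((range ((l : ℕ) - 1)).filter fun j => j % p = ((l : ℕ) - 1) % p).card : ℝ) * p := by
        rw [← nsmul_eq_mul, ← Finset.sum_const, Finset.sum_filter]
        apply Finset.sum_bij (fun (j : Fin k) _ => (j : ℕ) - 1)
        · intro j hj
          rw [Finset.mem_erase, Finset.mem_filter, Fin.lt_def] at hj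
          rw [Finset.mem_range]
          have : (j : ℕ) ≠ 0 := fun h => hj.1 (Fin.ext h)
          omega
        · intro j hj j' hj' h
          rw [Finset.mem_erase, Finset.mem_filter, Fin.lt_def] at hj hj'
          have h3 : (j : ℕ) ≠ 0 := fun h => hj.1 (Fin.ext h)
          have h4 : (j' : ℕ) ≠ 0 := fun h => hj'.1 (Fin.ext h)
          exact Fin.ext (by omega)
        · intro b hb
          rw [Finset.mem_range] at hb
          refine ⟨⟨b + 1, by omega⟩, ?_, by simp⟩
          rw [Finset.mem_erase, Finset.mem_filter, Fin.lt_def]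
          refine ⟨?_, mem_univ _, by simp only; omega⟩
          intro h
          have := congrArg Fin.val h
          simp at this
        · intro j hj
          rw [Finset.mem_erase, Finset.mem_filter, Fin.lt_def] at hj
          have h3 : (j : ℕ) ≠ 0 := fun h => hj.1 (Fin.ext h)
          rw [hLs1 _ _ h3 (by omega), hepure]
          by_cases hc : cls j = cls l
          · rw [if_pos hc, if_pos ((hclseq j l).1 hc)]
          · rw [if_neg hc, if_neg fun h => hc ((hclseq j l).2 h)]
      rw [h2, CLO_count _ _ hp1]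
      have h3 := hsorted ⟨((l : ℕ) - 1) % p, Nat.mod_lt _ (by omega)⟩
      simp only [Function.comp] at h3
      have h4 : eL g (Lv (cls l)) ≤ (((l : ℕ) - 1) % p : ℕ) + 1 := h3
      have h5 : ((((l : ℕ) - 1) % p : ℕ) : ℝ) + (((l : ℕ) - 1) / p : ℕ) * p = ((l : ℕ) : ℝ) - 1 := by
        have h6 := Nat.mod_add_div ((l : ℕ) - 1) p
        have h7 : (((((l : ℕ) - 1) % p + p * (((l : ℕ) - 1) / p) : ℕ)) : ℝ)
            = (((l : ℕ) - 1 : ℕ) : ℝ) := by rw [h6]
        rw [Nat.cast_sub (by omega)] at h7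
        push_cast at h7 ⊢
        linarith
      linarith
  obtain ⟨p', a', hS', hp'k, i, hip', hei, hrest⟩ := tuple_unit H _ hgr hnT
  have hp'1 : 1 ≤ p' := by
    rcases hS' with h | h
    · exact h.2.1
    · have := h.2.1; omega
  have hp'0 : (0 : ℝ) < p' := by exact_mod_cast hp'1
  rcases lt_trichotomy p' p with hlt | heq | hgt
  · -- p' < p : contradiction
    exfalso
    have hil := Fin.lt_def.1 hip'
    simp only at hil
    have hρi := CLO_rho_lt hpk i (by omega)
    have hρl := CLO_rho_lt hpk (⟨p', hp'k⟩ : Fin k) hlt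
    rw [← hρ] at hρi hρl
    rw [hLs1 _ _ (by omega) (by omega), hepure, if_neg] at hei
    · linarith
    · rw [hclseq, hρi, hρl]
      simp only [Nat.add_sub_cancel]
      rw [Nat.mod_eq_of_lt (by omega), Nat.mod_eq_of_lt (by omega)]
      omega
  · -- p' = p
    subst heq
    have hρl := CLO_rho_eq hpk (⟨p', hp'k⟩ : Fin k) rfl
    rw [← hρ] at hρl
    have hil := Fin.lt_def.1 hip'
    simp only at hil
    have hclsσ : ∀ j : Fin p', cls (ρ (⟨(j : ℕ), by omega⟩ : Fin k)) = σ j := by
      intro j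
      have hρi := CLO_rho_lt hpk (⟨(j : ℕ), by omega⟩ : Fin k) j.2
      rw [← hρ] at hρi
      simp only [cls]
      congr 1
      apply Fin.ext
      simp only [hρi, Nat.add_sub_cancel]
      rw [Nat.mod_eq_of_lt j.2]
    have hρne : ∀ j : Fin p', ((ρ (⟨(j : ℕ), by omega⟩ : Fin k) : Fin k) : ℕ) ≠ 0 := by
      intro j
      have hρi := CLO_rho_lt hpk (⟨(j : ℕ), by omega⟩ : Fin k) j.2
      rw [← hρ] at hρi
      rw [hρi]; omega
    set i0 : Fin p' := ⟨(i : ℕ), hil⟩ with hi0
    refine ⟨σ i0, ?_, ?_⟩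
    · have h1 := hclsσ i0
      have h2 : (⟨(i0 : ℕ), by omega⟩ : Fin k) = i := Fin.ext rfl
      rw [h2] at h1
      have h3 := hρne i0
      rw [h2] at h3
      rw [hLs0 _ _ h3 hρl, h1] at hei
      exact hei
    · intro j hj
      obtain ⟨j0, rfl⟩ := σ.surjective j
      have hj0 : j0 ≠ i0 := fun h => hj (by rw [h])
      have h1 := hrest (⟨(j0 : ℕ), by omega⟩ : Fin k) (by rw [Fin.lt_def]; exact j0.2) (by
        intro h
        apply hj0
        apply Fin.ext
        have := congrArg Fin.val h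
        exact this)
      rw [hLs0 _ _ (hρne j0) hρl, hclsσ j0] at h1
      exact h1
  · -- p' > p : contradiction
    exfalso
    have hρl := CLO_rho_gt hpk (⟨p', hp'k⟩ : Fin k) hgt
    rw [← hρ] at hρl
    -- position j = p' - p
    set j : Fin k := ⟨p' - p, by omega⟩ with hj
    have hρj : ρ (ρ.symm j) = j := Equiv.apply_symm_apply ρ j
    have hlt : ρ.symm j < (⟨p', hp'k⟩ : Fin k) := by
      rw [← CLO_rho_lt_iff hpk (⟨p', hp'k⟩ : Fin k) (ρ.symm j) hgt, ← hρ, hρj, hj, Fin.lt_def]
      simp only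
      omega
    have hcc : cls j = cls (⟨p', hp'k⟩ : Fin k) := by
      rw [hclseq]
      simp only [hj]
      have : p' - 1 = (p' - p - 1) + p := by omega
      rw [this, Nat.add_mod_right]
    have hval : eL g (Ls (ρ (ρ.symm j)) (ρ (⟨p', hp'k⟩ : Fin k))) = p := by
      rw [hρj, hρl, hLs1 _ _ (by simp only [hj]; omega) (by simp only; omega), hepure, if_pos hcc]
    by_cases hji : ρ.symm j = i
    · rw [hji] at hval
      rw [hval] at hei
      have : p = p' := by exact_mod_cast hei
      omega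
    · have := hrest (ρ.symm j) hlt hji
      rw [hval] at this
      linarith

theorem CLO_Ik_nat (k p : ℕ) : Ik k (p : ℝ) = ∑ l ∈ range k, l / p := by
  unfold Ik
  apply Finset.sum_congr rfl
  intro l _
  rw [Nat.floor_div_natCast, Nat.floor_natCast]

/-- the cyclic assignment has exactly `I_k(p)` inside pairs -/
theorem CLO_inside (k p : ℕ) (hp : 1 ≤ p) :
    ((univ : Finset (Fin k × Fin k)).filter fun q =>
      q.1 < q.2 ∧ (q.1 : ℕ) % p = (q.2 : ℕ) % p).card = Ik k (p : ℝ) := by
  rw [CLO_Ik_nat, Finset.card_filter, ← Finset.univ_product_univ, Finset.sum_product_right,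
    ← Fin.sum_univ_eq_sum_range (fun l => l / p) k]
  apply Finset.sum_congr rfl
  intro l _
  rw [← Finset.card_filter, ← CLO_count (l : ℕ) p hp]
  apply Finset.card_bij (fun (x : Fin k) _ => (x : ℕ))
  · intro x hx
    rw [Finset.mem_filter] at hx ⊢
    exact ⟨Finset.mem_range.2 (Fin.lt_def.1 hx.2.1), hx.2.2⟩
  · intro x _ y _ h
    exact Fin.ext h
  · intro b hb
    rw [Finset.mem_filter, Finset.mem_range] at hb
    have := l.2
    refine ⟨⟨b, by omega⟩, ?_, rfl⟩
    rw [Finset.mem_filter]
    exact ⟨mem_univ _, Fin.lt_def.2 hb.1, hb.2⟩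

/-- a bad set of pairs contains no pair with the full list -/
theorem CLO_no_univ {k s r d : ℕ} (hsd : s + d = k.choose 2 + 1) (hsr : s ≤ r)
    (L : Fin k → Fin k → Finset (Fin r)) (P : Finset (Fin k × Fin k))
    (hPlt : ∀ q ∈ P, q.1 < q.2) (hPc : (P.biUnion fun q => L q.1 q.2).card + d ≤ P.card) :
    ∀ q ∈ P, L q.1 q.2 ≠ univ := by
  intro q hq hu
  have h1 : (univ : Finset (Fin r)) ⊆ P.biUnion fun q => L q.1 q.2 := by
    rw [← hu]
    exact subset_biUnion_of_mem (fun q : Fin k × Fin k => L q.1 q.2) hq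
  have h2 := card_le_card h1
  rw [card_univ, Fintype.card_fin] at h2
  have h3 : P.card ≤ k.choose 2 := by
    rw [← KON_card_pairs k]
    apply card_le_card
    intro q hq
    rw [Finset.mem_filter]
    exact ⟨mem_univ _, hPlt q hq⟩
  omega

/-! ### CLO: a vertex with small total loss is a clone -/
theorem clone {k s r d : ℕ} {g : ℝ} (H : Par k s r d g) {p a : ℕ} (hS : Shape k d r g p a)
    (A : Finset (Fin r)) (hA : A.card = a) (Lv : Fin p → Finset (Fin r))
    (hsum : ∑ i, eL g (Lv i) ≤ p)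
    (hnr : ∀ cls : Fin k → Fin p, (∀ b : Fin k, 0 < (b : ℕ) → (Lv (cls b)).Nonempty) →
      ¬ RbL s (fun x y : Fin k => if (x : ℕ) = 0 then Lv (cls y) else
        pureL A (cls x) (cls y))) :
    ∃ i₀, Lv i₀ = A ∧ ∀ j, j ≠ i₀ → Lv j = univ := by
  have hk := H.hk
  have hs := H.hs
  have hsr := H.hsr
  have hg := H.hg
  have hr2 : 2 ≤ r := by omega
  have hk' : (3 : ℝ) ≤ k := by exact_mod_cast hk
  have hg0 : 0 < g := by linarith
  obtain ⟨heA, hp1, hpk⟩ := CLO_shape H hS A hA
  by_cases hemp : ∃ i, Lv i = ∅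
  · -- an empty list
    obtain ⟨i, hi⟩ := hemp
    have hei : eL g (Lv i) = g := TUP_eL_small _ (by rw [hi]; simp)
    rw [← Finset.add_sum_erase _ _ (mem_univ i), hei] at hsum
    have hrest : 0 ≤ ∑ x ∈ univ.erase i, eL g (Lv x) :=
      Finset.sum_nonneg fun x _ => TUP_eL_nonneg hr2 hg0.le _
    rcases hS with ⟨h1, h2, h3, h4, h5, h6⟩ | ⟨h1, h2, h3⟩
    · exfalso
      have : (p : ℝ) + 2 ≤ k := by
        have : p + 2 ≤ k := by omega
        exact_mod_cast this
      linarith
    · refine ⟨i, ?_, ?_⟩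
      · rw [hi]
        symm
        rw [← card_eq_zero, hA]; exact h1
      · intro j hj
        apply CLO_eL_zero hr2 hg0
        have hpg : (p : ℝ) = g := by
          rw [h3, h2, Nat.cast_sub (by omega)]; push_cast; ring
        have hz : ∑ x ∈ univ.erase i, eL g (Lv x) = 0 := by
          apply le_antisymm _ hrest
          linarith
        rw [Finset.sum_eq_zero_iff_of_nonneg fun x _ => TUP_eL_nonneg hr2 hg0.le _] at hz
        exact hz j (by simp [hj])
  push Not at hemp
  have hnonemp : ∀ i, (Lv i).Nonempty := fun i => hemp i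
  have hnr' : ∀ cls : Fin k → Fin p,
      ¬ RbL s (fun x y : Fin k => if (x : ℕ) = 0 then Lv (cls y) else
        pureL A (cls x) (cls y)) := fun cls => hnr cls fun b _ => hnonemp _
  obtain ⟨i0, hi0, hrest⟩ := CLO_main H hS A hA Lv hsum hnr'
  refine ⟨i0, ?_, fun j hj => CLO_eL_zero hr2 hg0 _ (hrest j hj)⟩
  have huniv : ∀ j, j ≠ i0 → Lv j = univ := fun j hj => CLO_eL_zero hr2 hg0 _ (hrest j hj)
  rcases hS with ⟨h1, h2, h3, h4, h5, h6⟩ | ⟨h1, h2, h3⟩
  · -- LShape
    have hcard : (Lv i0).card = a := by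
      have h7 : g * beta r (max 1 (Lv i0).card) = g * beta r a := by
        rw [h5]; exact hi0
      have h8 := mul_left_cancel₀ hg0.ne' h7
      have h9 := CLO_beta_inj hr2 (le_max_left _ _) (by omega) h8
      omega
    by_contra hne
    let cls : Fin k → Fin p := fun b => ⟨((i0 : ℕ) + (b : ℕ)) % p, Nat.mod_lt _ (by omega)⟩
    have hcls : ∀ x y : Fin k, cls x = cls y ↔ (x : ℕ) % p = (y : ℕ) % p := by
      intro x y
      simp only [cls, Fin.mk.injEq]
      constructor
      · intro h
        exact Nat.ModEq.add_left_cancel' (i0 : ℕ) h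
      · intro h
        exact Nat.ModEq.add_left (i0 : ℕ) h
    have hcls0 : ∀ x : Fin k, (x : ℕ) = 0 → cls x = i0 := by
      intro x hx
      apply Fin.ext
      simp only [cls, hx, add_zero]
      exact Nat.mod_eq_of_lt i0.2
    set L : Fin k → Fin k → Finset (Fin r) := fun x y =>
      if (x : ℕ) = 0 then Lv (cls y) else pureL A (cls x) (cls y) with hL
    have hAne : A.Nonempty := by rw [← card_pos, hA]; omega
    have hLne : ∀ i j : Fin k, i < j → (L i j).Nonempty := by
      intro i j _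
      simp only [hL]
      split_ifs
      · exact hnonemp _
      · unfold pureL
        split_ifs
        · exact hAne
        · obtain ⟨c, _⟩ := hAne
          exact ⟨c, mem_univ _⟩
    obtain ⟨P, hPne, hPlt, hPc⟩ := kon (by omega) H.hd H.hsd L hLne (hnr' cls)
    have hnu := CLO_no_univ H.hsd hsr L P hPlt hPc
    -- lists of inside pairs
    have hLval : ∀ q ∈ P, (q.1 : ℕ) % p = (q.2 : ℕ) % p ∧
        L q.1 q.2 = if (q.1 : ℕ) = 0 then Lv i0 else A := by
      intro q hq
      have h7 := hnu q hq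
      simp only [hL] at h7 ⊢
      split_ifs at h7 ⊢ with h8
      · have h9 : cls q.2 = i0 := by
          by_contra hc
          exact h7 (huniv _ hc)
        refine ⟨?_, by rw [h9]⟩
        rw [← hcls, hcls0 q.1 h8, h9]
      · unfold pureL at h7 ⊢
        by_cases hc : cls q.1 = cls q.2
        · rw [if_pos hc]
          exact ⟨(hcls _ _).1 hc, rfl⟩
        · rw [if_neg hc] at h7
          exact absurd rfl h7
    set Ins := (univ : Finset (Fin k × Fin k)).filter fun q =>
      q.1 < q.2 ∧ (q.1 : ℕ) % p = (q.2 : ℕ) % p with hIns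
    have hsub : P ⊆ Ins := by
      intro q hq
      rw [hIns, Finset.mem_filter]
      exact ⟨mem_univ _, hPlt q hq, (hLval q hq).1⟩
    have hInscard : Ins.card = a + d := by
      rw [hIns, CLO_inside k p hp1, h4]
    set U := P.biUnion fun q => L q.1 q.2 with hU
    have hsubU : ∀ q ∈ P, L q.1 q.2 ⊆ U := by
      intro q hq
      rw [hU]
      exact subset_biUnion_of_mem (fun q : Fin k × Fin k => L q.1 q.2) hq
    have hUa : a ≤ U.card := by
      obtain ⟨q, hq⟩ := hPne
      have h7 := card_le_card (hsubU q hq)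
      rw [(hLval q hq).2] at h7
      split_ifs at h7 <;> omega
    have hPle := card_le_card hsub
    have hPeq : P = Ins := Finset.eq_of_subset_of_card_le hsub (by omega)
    have hq0 : ((⟨0, by omega⟩, ⟨p, hpk⟩) : Fin k × Fin k) ∈ P := by
      rw [hPeq, hIns, Finset.mem_filter]
      refine ⟨mem_univ _, ?_, ?_⟩
      · rw [Fin.lt_def]; simp only; omega
      · simp
    have hq1 : ((⟨1, by omega⟩, ⟨p + 1, by omega⟩) : Fin k × Fin k) ∈ P := by
      rw [hPeq, hIns, Finset.mem_filter]
      refine ⟨mem_univ _, ?_, ?_⟩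
      · rw [Fin.lt_def]; simp only; omega
      · simp only
        rw [Nat.add_mod_left]
    have hv0 := hsubU _ hq0
    have hv1 := hsubU _ hq1
    rw [(hLval _ hq0).2] at hv0
    rw [(hLval _ hq1).2] at hv1
    simp only [if_true] at hv0
    simp only [one_ne_zero, if_false] at hv1
    have hun : Lv i0 ∪ A ⊆ U := union_subset hv0 hv1
    have hcu := card_le_card hun
    have hss : Lv i0 ⊂ Lv i0 ∪ A := by
      rw [Finset.ssubset_iff_subset_ne]
      refine ⟨subset_union_left, ?_⟩
      intro heq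
      have h7 : A ⊆ Lv i0 := by
        rw [heq]; exact subset_union_right
      exact hne (Finset.eq_of_subset_of_card_le h7 (by omega)).symm
    have := card_lt_card hss
    omega
  · -- TShape
    exfalso
    have hcard : (Lv i0).card = 1 := by
      have hpg : (p : ℝ) = g := by
        rw [h3, h2, Nat.cast_sub (by omega)]; push_cast; ring
      have h7 : g * beta r (max 1 (Lv i0).card) = g * beta r 1 := by
        have h8 : g * beta r (max 1 (Lv i0).card) = p := hi0
        rw [h8, hpg]
        simp [beta]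
      have h8 := mul_left_cancel₀ hg0.ne' h7
      have h9 := CLO_beta_inj hr2 (le_max_left _ _) le_rfl h8
      have h10 := (hnonemp i0).card_pos
      omega
    let cls : Fin k → Fin p := fun b => ⟨((b : ℕ) - 1) % p, Nat.mod_lt _ (by omega)⟩
    have hcls : ∀ x y : Fin k, (x : ℕ) ≠ 0 → (y : ℕ) ≠ 0 → cls x = cls y → x = y := by
      intro x y hx hy h
      simp only [cls, Fin.mk.injEq] at h
      have := x.2
      have := y.2
      rw [Nat.mod_eq_of_lt (by omega), Nat.mod_eq_of_lt (by omega)] at h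
      exact Fin.ext (by omega)
    set L : Fin k → Fin k → Finset (Fin r) := fun x y =>
      if (x : ℕ) = 0 then Lv (cls y) else pureL A (cls x) (cls y) with hL
    have hLne : ∀ i j : Fin k, i < j → (L i j).Nonempty := by
      intro i j hij
      simp only [hL]
      split_ifs with h7
      · exact hnonemp _
      · unfold pureL
        rw [if_neg]
        · exact ⟨⟨0, by omega⟩, mem_univ _⟩
        · intro hc
          have := Fin.lt_def.1 hij
          exact hij.ne (hcls i j h7 (by omega) hc)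
    obtain ⟨P, hPne, hPlt, hPc⟩ := kon (by omega) H.hd H.hsd L hLne (hnr' cls)
    have hnu := CLO_no_univ H.hsd hsr L P hPlt hPc
    have hLval : ∀ q ∈ P, (q.1 : ℕ) = 0 ∧ cls q.2 = i0 := by
      intro q hq
      have h7 := hnu q hq
      have hlt := Fin.lt_def.1 (hPlt q hq)
      simp only [hL] at h7
      split_ifs at h7 with h8
      · refine ⟨h8, ?_⟩
        by_contra hc
        exact h7 (huniv _ hc)
      · exfalso
        apply h7
        unfold pureL
        rw [if_neg]
        intro hc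
        exact (hPlt q hq).ne (hcls _ _ h8 (by omega) hc)
    have hP1 : P.card ≤ 1 := by
      rw [Finset.card_le_one]
      intro q hq q' hq'
      obtain ⟨h7, h8⟩ := hLval q hq
      obtain ⟨h9, h10⟩ := hLval q' hq'
      have hlt := Fin.lt_def.1 (hPlt q hq)
      have hlt' := Fin.lt_def.1 (hPlt q' hq')
      apply Prod.ext
      · exact Fin.ext (by omega)
      · exact hcls _ _ (by omega) (by omega) (h8.trans h10.symm)
    have hU1 : 1 ≤ (P.biUnion fun q => L q.1 q.2).card := by
      obtain ⟨q, hq⟩ := hPne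
      have h7 := card_le_card (subset_biUnion_of_mem (fun q : Fin k × Fin k => L q.1 q.2) hq)
      have h8 := (hLne _ _ (hPlt q hq)).card_pos
      omega
    have := H.hd
    omega

end Pool.ER
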