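import Mathlib
import Pool.Agent.ER.Defs

set_option autoImplicit false

/-!
# CNT: the counting lemma for the cut norm (MP_86b484_co)
-/

open Finset

namespace Pool.ER

/-- a linear functional on the cube is dominated by its value on a subset -/
theorem CNT_lin {n : ℕ} (c a : Fin n → ℝ) (h0 : ∀ x, 0 ≤ a x) (h1 : ∀ x, a x ≤ 1) :
    ∃ S : Finset (Fin n), |∑ x, c x * a x| ≤ |∑ x ∈ S, c x| := by
  rcases le_total 0 (∑ x, c x * a x) with h | h
  · refine ⟨univ.filter fun x => 0 ≤ c x, ?_⟩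
    rw [abs_of_nonneg h]
    refine le_trans ?_ (le_abs_self _)
    rw [Finset.sum_filter]
    refine Finset.sum_le_sum fun x _ => ?_
    split_ifs with hx
    · exact mul_le_of_le_one_right hx (h1 x)
    · push Not at hx
      exact mul_nonpos_of_nonpos_of_nonneg hx.le (h0 x)
  · refine ⟨univ.filter fun x => c x ≤ 0, ?_⟩
    rw [abs_of_nonpos h]
    refine le_trans ?_ (neg_le_abs _)
    rw [neg_le_neg_iff, Finset.sum_filter]
    refine Finset.sum_le_sum fun x _ => ?_
    split_ifs with hx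
    · have := h1 x
      nlinarith
    · push Not at hx
      exact mul_nonneg hx.le (h0 x)

theorem CNT_bilin {n : ℕ} {K : ℝ} (D : Fin n → Fin n → ℝ)
    (hcut : ∀ S T : Finset (Fin n), |∑ u ∈ S, ∑ v ∈ T, D u v| ≤ K)
    (a b : Fin n → ℝ) (ha0 : ∀ x, 0 ≤ a x) (ha1 : ∀ x, a x ≤ 1) (hb0 : ∀ x, 0 ≤ b x)
    (hb1 : ∀ x, b x ≤ 1) : |∑ x, ∑ y, D x y * (a x * b y)| ≤ K := by
  have e1 : ∑ x, ∑ y, D x y * (a x * b y) = ∑ x, (∑ y, D x y * b y) * a x := by
    refine Finset.sum_congr rfl fun x _ => ?_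
    rw [Finset.sum_mul]
    refine Finset.sum_congr rfl fun y _ => ?_
    ring
  rw [e1]
  obtain ⟨S, hS⟩ := CNT_lin (fun x => ∑ y, D x y * b y) a ha0 ha1
  refine hS.trans ?_
  have e2 : ∑ x ∈ S, ∑ y, D x y * b y = ∑ y, (∑ x ∈ S, D x y) * b y := by
    rw [Finset.sum_comm]
    refine Finset.sum_congr rfl fun y _ => ?_
    rw [Finset.sum_mul]
  simp only [e2]
  obtain ⟨T, hT⟩ := CNT_lin (fun y => ∑ x ∈ S, D x y) b hb0 hb1
  refine hT.trans ?_
  rw [Finset.sum_comm]
  exact hcut S T

theorem CNT_update {n k : ℕ} (i : Fin k) (F : (Fin k → Fin n) → ℝ) :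
    ∑ w : Fin k → Fin n, ∑ x : Fin n, F (Function.update w i x) =
      n * ∑ w : Fin k → Fin n, F w := by
  rw [← Finset.sum_product']
  have e : ∑ z ∈ (univ : Finset (Fin k → Fin n)) ×ˢ (univ : Finset (Fin n)),
      F (Function.update z.1 i z.2) =
      ∑ z ∈ (univ : Finset (Fin k → Fin n)) ×ˢ (univ : Finset (Fin n)), F z.1 := by
    refine Finset.sum_nbij' (fun z => (Function.update z.1 i z.2, z.1 i))
      (fun z => (Function.update z.1 i z.2, z.1 i)) ?_ ?_ ?_ ?_ ?_
    · intro z _; simp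
    · intro z _; simp
    · intro z _; simp
    · intro z _; simp
    · intro z _; simp
  rw [e, Finset.sum_product]
  simp only [Finset.sum_const, Finset.card_univ, Fintype.card_fin, nsmul_eq_mul]
  rw [Finset.mul_sum]

theorem CNT_one {n k : ℕ} {ε : ℝ} (h : Fin k × Fin k → Fin n → Fin n → ℝ)
    (hh0 : ∀ q u v, 0 ≤ h q u v) (hh1 : ∀ q u v, h q u v ≤ 1)
    (q₀ : Fin k × Fin k) (hq₀ : q₀.1 < q₀.2) (D : Fin n → Fin n → ℝ)
    (hcut : ∀ S T : Finset (Fin n), |∑ u ∈ S, ∑ v ∈ T, D u v| ≤ ε * (n : ℝ) ^ 2) :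
    |∑ w : Fin k → Fin n, D (w q₀.1) (w q₀.2) *
      ∏ q ∈ ((univ : Finset (Fin k × Fin k)).filter (fun q => q.1 < q.2)).erase q₀,
        h q (w q.1) (w q.2)| ≤ ε * (n : ℝ) ^ k := by
  obtain ⟨i, j⟩ := q₀
  simp only at hq₀ ⊢
  have hij : i ≠ j := hq₀.ne
  set A := ((univ : Finset (Fin k × Fin k)).filter (fun q => q.1 < q.2)).erase (i, j) with hA
  set F : (Fin k → Fin n) → ℝ := fun w => D (w i) (w j) * ∏ q ∈ A, h q (w q.1) (w q.2) with hF
  rcases Nat.eq_zero_or_pos n with rfl | hn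
  · have : IsEmpty (Fin k → Fin 0) := ⟨fun w => (w i).elim0⟩
    rw [Finset.univ_eq_empty, Finset.sum_empty, abs_zero]
    have hk : k ≠ 0 := by
      rintro rfl
      exact i.elim0
    simp [hk]
  have hnr : (0 : ℝ) < n := by exact_mod_cast hn
  have h2 : (n : ℝ) * (n * ∑ w, F w) =
      ∑ w : Fin k → Fin n, ∑ x : Fin n, ∑ y : Fin n,
        F (Function.update (Function.update w i x) j y) := by
    have e1 := CNT_update (n := n) j F
    have e2 := CNT_update (n := n) i (fun w => ∑ y : Fin n, F (Function.update w j y))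
    rw [e2, ← e1]
  have h3 : ∀ w : Fin k → Fin n, |∑ x : Fin n, ∑ y : Fin n,
        F (Function.update (Function.update w i x) j y)| ≤ ε * (n : ℝ) ^ 2 := by
    intro w
    set A1 := A.filter (fun q => q.1 = j ∨ q.2 = j) with hA1
    set A2 := A.filter (fun q => ¬ (q.1 = j ∨ q.2 = j)) with hA2
    set a : Fin n → ℝ := fun x => ∏ q ∈ A2,
      h q (Function.update w i x q.1) (Function.update w i x q.2) with ha
    set b : Fin n → ℝ := fun y => ∏ q ∈ A1,
      h q (Function.update w j y q.1) (Function.update w j y q.2) with hb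
    have hfac : ∀ x y, F (Function.update (Function.update w i x) j y) = D x y * (a x * b y) := by
      intro x y
      simp only [hF]
      rw [Function.update_self, Function.update_of_ne hij, Function.update_self]
      congr 1
      rw [← Finset.prod_filter_mul_prod_filter_not A (fun q => q.1 = j ∨ q.2 = j), mul_comm]
      congr 1
      · refine Finset.prod_congr rfl fun q hq => ?_
        have hq' := (Finset.mem_filter.mp hq).2
        push Not at hq'
        rw [Function.update_of_ne hq'.1, Function.update_of_ne hq'.2]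
      · refine Finset.prod_congr rfl fun q hq => ?_
        obtain ⟨hq1, hq2⟩ := Finset.mem_filter.mp hq
        rw [hA, Finset.mem_erase, Finset.mem_filter] at hq1
        have hlt : q.1 < q.2 := hq1.2.2
        have hne : q ≠ (i, j) := hq1.1
        have n1 : q.1 ≠ i := by
          intro h1
          rcases hq2 with h2 | h2
          · exact hij (h1.symm.trans h2)
          · exact hne (Prod.ext h1 h2)
        have n2 : q.2 ≠ i := by
          intro h1
          rcases hq2 with h2 | h2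
          · rw [h1, h2] at hlt
            exact absurd hlt (not_lt.mpr hq₀.le)
          · exact hij (h1.symm.trans h2)
        have u1 : Function.update (Function.update w i x) j y q.1 = Function.update w j y q.1 := by
          by_cases h : q.1 = j
          · rw [h, Function.update_self, Function.update_self]
          · rw [Function.update_of_ne h, Function.update_of_ne h, Function.update_of_ne n1]
        have u2 : Function.update (Function.update w i x) j y q.2 = Function.update w j y q.2 := by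
          by_cases h : q.2 = j
          · rw [h, Function.update_self, Function.update_self]
          · rw [Function.update_of_ne h, Function.update_of_ne h, Function.update_of_ne n2]
        rw [u1, u2]
    simp only [hfac]
    refine CNT_bilin D hcut a b ?_ ?_ ?_ ?_
    · exact fun x => Finset.prod_nonneg fun q _ => hh0 _ _ _
    · exact fun x => Finset.prod_le_one (fun q _ => hh0 _ _ _) (fun q _ => hh1 _ _ _)
    · exact fun x => Finset.prod_nonneg fun q _ => hh0 _ _ _
    · exact fun x => Finset.prod_le_one (fun q _ => hh0 _ _ _) (fun q _ => hh1 _ _ _)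
  have h4 : |(n : ℝ) * (n * ∑ w, F w)| ≤ (n : ℝ) ^ k * (ε * (n : ℝ) ^ 2) := by
    rw [h2]
    calc |∑ w : Fin k → Fin n, ∑ x : Fin n, ∑ y : Fin n,
        F (Function.update (Function.update w i x) j y)|
        ≤ ∑ w : Fin k → Fin n, |∑ x : Fin n, ∑ y : Fin n,
            F (Function.update (Function.update w i x) j y)| := Finset.abs_sum_le_sum_abs _ _
      _ ≤ ∑ _w : Fin k → Fin n, ε * (n : ℝ) ^ 2 := Finset.sum_le_sum fun w _ => h3 w
      _ = (n : ℝ) ^ k * (ε * (n : ℝ) ^ 2) := by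
          rw [Finset.sum_const, Finset.card_univ, Fintype.card_fun, Fintype.card_fin,
            Fintype.card_fin, nsmul_eq_mul]
          push_cast
          ring
  have h5 : |(n : ℝ) * (n * ∑ w, F w)| = (n : ℝ) ^ 2 * |∑ w, F w| := by
    rw [← mul_assoc, abs_mul, abs_of_nonneg (by positivity : (0 : ℝ) ≤ (n : ℝ) * n)]
    ring
  rw [h5] at h4
  have h6 : (n : ℝ) ^ 2 * |∑ w, F w| ≤ (n : ℝ) ^ 2 * (ε * (n : ℝ) ^ k) := by
    calc (n : ℝ) ^ 2 * |∑ w, F w| ≤ (n : ℝ) ^ k * (ε * (n : ℝ) ^ 2) := h4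
      _ = (n : ℝ) ^ 2 * (ε * (n : ℝ) ^ k) := by ring
  exact le_of_mul_le_mul_left h6 (by positivity)

theorem counting {n k : ℕ} {ε : ℝ} (f W : Fin k → Fin k → Fin n → Fin n → ℝ)
    (hf0 : ∀ i j u v, 0 ≤ f i j u v) (hf1 : ∀ i j u v, f i j u v ≤ 1)
    (hW0 : ∀ i j u v, 0 ≤ W i j u v) (hW1 : ∀ i j u v, W i j u v ≤ 1)
    (hcut : ∀ i j, ∀ S T : Finset (Fin n),
      |∑ u ∈ S, ∑ v ∈ T, (f i j u v - W i j u v)| ≤ ε * (n : ℝ) ^ 2) :
    |∑ w : Fin k → Fin n,
        ((∏ q ∈ (univ : Finset (Fin k × Fin k)).filter (fun q => q.1 < q.2), f q.1 q.2 (w q.1) (w q.2)) -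
         (∏ q ∈ (univ : Finset (Fin k × Fin k)).filter (fun q => q.1 < q.2), W q.1 q.2 (w q.1) (w q.2)))|
      ≤ (k : ℝ) ^ 2 * ε * (n : ℝ) ^ k := by
  set B := (univ : Finset (Fin k × Fin k)).filter (fun q => q.1 < q.2) with hB
  -- mixed products
  have main : ∀ A : Finset (Fin k × Fin k), A ⊆ B →
      |∑ w : Fin k → Fin n,
        ((∏ q ∈ B, (if q ∈ A then f q.1 q.2 (w q.1) (w q.2) else W q.1 q.2 (w q.1) (w q.2))) -
         (∏ q ∈ B, W q.1 q.2 (w q.1) (w q.2)))| ≤ (A.card : ℝ) * (ε * (n : ℝ) ^ k) := by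
    intro A
    induction A using Finset.induction_on with
    | empty =>
      intro _
      simp
    | insert q₀ A hq₀ ih =>
      intro hA
      have hA' : A ⊆ B := fun x hx => hA (Finset.mem_insert_of_mem hx)
      have hq₀B : q₀ ∈ B := hA (Finset.mem_insert_self _ _)
      have hlt : q₀.1 < q₀.2 := by
        rw [hB, Finset.mem_filter] at hq₀B
        exact hq₀B.2
      have ih' := ih hA'
      have hone := CNT_one (n := n) (k := k) (ε := ε)
        (fun q u v => if q ∈ A then f q.1 q.2 u v else W q.1 q.2 u v)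
        (by intro q u v; split_ifs; exacts [hf0 _ _ _ _, hW0 _ _ _ _])
        (by intro q u v; split_ifs; exacts [hf1 _ _ _ _, hW1 _ _ _ _])
        q₀ hlt (fun u v => f q₀.1 q₀.2 u v - W q₀.1 q₀.2 u v) (hcut q₀.1 q₀.2)
      have hdiff : ∀ w : Fin k → Fin n,
          (∏ q ∈ B, (if q ∈ insert q₀ A then f q.1 q.2 (w q.1) (w q.2) else
              W q.1 q.2 (w q.1) (w q.2))) =
          (f q₀.1 q₀.2 (w q₀.1) (w q₀.2) - W q₀.1 q₀.2 (w q₀.1) (w q₀.2)) *
            (∏ q ∈ B.erase q₀, (if q ∈ A then f q.1 q.2 (w q.1) (w q.2) else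
              W q.1 q.2 (w q.1) (w q.2))) +
          ∏ q ∈ B, (if q ∈ A then f q.1 q.2 (w q.1) (w q.2) else
              W q.1 q.2 (w q.1) (w q.2)) := by
        intro w
        rw [← Finset.mul_prod_erase B _ hq₀B,
          ← Finset.mul_prod_erase B (fun q => if q ∈ A then f q.1 q.2 (w q.1) (w q.2) else
              W q.1 q.2 (w q.1) (w q.2)) hq₀B]
        have e1 : ∏ q ∈ B.erase q₀, (if q ∈ insert q₀ A then f q.1 q.2 (w q.1) (w q.2) else
              W q.1 q.2 (w q.1) (w q.2)) =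
            ∏ q ∈ B.erase q₀, (if q ∈ A then f q.1 q.2 (w q.1) (w q.2) else
              W q.1 q.2 (w q.1) (w q.2)) := by
          refine Finset.prod_congr rfl fun q hq => ?_
          have hne : q ≠ q₀ := (Finset.mem_erase.mp hq).1
          simp only [Finset.mem_insert, hne, false_or]
        rw [e1, if_pos (Finset.mem_insert_self _ _), if_neg hq₀]
        ring
      have hsum : ∑ w : Fin k → Fin n,
          ((∏ q ∈ B, (if q ∈ insert q₀ A then f q.1 q.2 (w q.1) (w q.2) else
              W q.1 q.2 (w q.1) (w q.2))) - (∏ q ∈ B, W q.1 q.2 (w q.1) (w q.2))) =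
          (∑ w : Fin k → Fin n, (f q₀.1 q₀.2 (w q₀.1) (w q₀.2) - W q₀.1 q₀.2 (w q₀.1) (w q₀.2)) *
            (∏ q ∈ B.erase q₀, (if q ∈ A then f q.1 q.2 (w q.1) (w q.2) else
              W q.1 q.2 (w q.1) (w q.2)))) +
          ∑ w : Fin k → Fin n, ((∏ q ∈ B, (if q ∈ A then f q.1 q.2 (w q.1) (w q.2) else
              W q.1 q.2 (w q.1) (w q.2))) - (∏ q ∈ B, W q.1 q.2 (w q.1) (w q.2))) := by
        rw [← Finset.sum_add_distrib]
        refine Finset.sum_congr rfl fun w _ => ?_
        rw [hdiff w]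
        ring
      rw [hsum, Finset.card_insert_of_notMem hq₀]
      refine (abs_add_le _ _).trans ?_
      push_cast
      rw [add_mul, one_mul, add_comm ((A.card : ℝ) * _)]
      exact add_le_add hone ih'
  have h1 := main B (Finset.Subset.refl B)
  have h2 : ∀ w : Fin k → Fin n,
      (∏ q ∈ B, (if q ∈ B then f q.1 q.2 (w q.1) (w q.2) else W q.1 q.2 (w q.1) (w q.2))) =
      ∏ q ∈ B, f q.1 q.2 (w q.1) (w q.2) := fun w =>
    Finset.prod_congr rfl fun q hq => if_pos hq
  simp only [h2] at h1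
  refine h1.trans ?_
  rcases Nat.eq_zero_or_pos k with rfl | hk
  · have : B = ∅ := by
      ext q; exact q.1.elim0
    rw [this]
    simp
  have hε : 0 ≤ ε * (n : ℝ) ^ 2 := (abs_nonneg _).trans (hcut ⟨0, hk⟩ ⟨0, hk⟩ ∅ ∅)
  have hnn : 0 ≤ ε * (n : ℝ) ^ k := by
    rcases Nat.eq_zero_or_pos n with rfl | hn
    · simp [hk.ne']
    · have hn2 : (0 : ℝ) < (n : ℝ) ^ 2 := by positivity
      have : 0 ≤ ε := by
        by_contra hneg
        push Not at hneg
        nlinarith
      positivity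
  have hcard : (B.card : ℝ) ≤ (k : ℝ) ^ 2 := by
    have h3 : B.card ≤ Fintype.card (Fin k × Fin k) := B.card_le_univ
    rw [Fintype.card_prod, Fintype.card_fin] at h3
    have h4 : (B.card : ℝ) ≤ ((k * k : ℕ) : ℝ) := by exact_mod_cast h3
    calc (B.card : ℝ) ≤ ((k * k : ℕ) : ℝ) := h4
      _ = (k : ℝ) ^ 2 := by push_cast; ring
  calc (B.card : ℝ) * (ε * (n : ℝ) ^ k) ≤ (k : ℝ) ^ 2 * (ε * (n : ℝ) ^ k) :=
        mul_le_mul_of_nonneg_right hcard hnn
    _ = (k : ℝ) ^ 2 * ε * (n : ℝ) ^ k := by ring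

end Pool.ER
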