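import Mathlib
import Pool.Agent.ER.Defs

set_option autoImplicit false

/-!
# REG: weak regularity for `r` functions (MP_86b484_co)
-/

open Finset

namespace Pool.ER

noncomputable def cellAvg {n M : ℕ} (P : Fin n → Fin M) (f : Fin n → Fin n → ℝ) (u v : Fin n) : ℝ :=
  (∑ x ∈ univ.filter (fun x => P x = P u), ∑ y ∈ univ.filter (fun y => P y = P v), f x y) /
    (((univ.filter fun x => P x = P u).card : ℝ) * ((univ.filter fun y => P y = P v).card : ℝ))

/-- the same for a general type of labels -/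
noncomputable def REG_cav {n : ℕ} {α : Type} [DecidableEq α] (P : Fin n → α)
    (f : Fin n → Fin n → ℝ) (u v : Fin n) : ℝ :=
  (∑ x ∈ univ.filter (fun x => P x = P u), ∑ y ∈ univ.filter (fun y => P y = P v), f x y) /
    (((univ.filter fun x => P x = P u).card : ℝ) * ((univ.filter fun y => P y = P v).card : ℝ))

theorem REG_cav_eq {n M : ℕ} (P : Fin n → Fin M) (f : Fin n → Fin n → ℝ) (u v : Fin n) :
    cellAvg P f u v = REG_cav P f u v := rfl

section
variable {n : ℕ} {α : Type} [DecidableEq α]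

/-- the averaging kernel -/
noncomputable def REG_K (P : Fin n → α) (u x : Fin n) : ℝ :=
  if P x = P u then 1 / ((univ.filter fun x => P x = P u).card : ℝ) else 0

theorem REG_card_pos (P : Fin n → α) (u : Fin n) :
    (0 : ℝ) < ((univ.filter fun x => P x = P u).card : ℝ) := by
  have : 0 < (univ.filter fun x => P x = P u).card :=
    Finset.card_pos.mpr ⟨u, by simp⟩
  exact_mod_cast this

theorem REG_K_nonneg (P : Fin n → α) (u x : Fin n) : 0 ≤ REG_K P u x := by
  unfold REG_K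
  split_ifs
  · exact (one_div_pos.mpr (REG_card_pos P u)).le
  · exact le_rfl

theorem REG_K_symm (P : Fin n → α) (u x : Fin n) : REG_K P u x = REG_K P x u := by
  unfold REG_K
  by_cases h : P x = P u
  · rw [if_pos h, if_pos h.symm, h]
  · rw [if_neg h, if_neg (fun h' => h h'.symm)]

theorem REG_K_sum (P : Fin n → α) (u : Fin n) : ∑ x, REG_K P u x = 1 := by
  unfold REG_K
  rw [← Finset.sum_filter, Finset.sum_const, nsmul_eq_mul]
  exact mul_one_div_cancel (REG_card_pos P u).ne'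

theorem REG_cav_K (P : Fin n → α) (f : Fin n → Fin n → ℝ) (u v : Fin n) :
    REG_cav P f u v = ∑ x, ∑ y, REG_K P u x * REG_K P v y * f x y := by
  unfold REG_cav REG_K
  rw [Finset.sum_div, Finset.sum_filter]
  refine Finset.sum_congr rfl fun x _ => ?_
  by_cases h : P x = P u
  · rw [if_pos h, Finset.sum_div, Finset.sum_filter]
    refine Finset.sum_congr rfl fun y _ => ?_
    by_cases h' : P y = P v
    · rw [if_pos h', if_pos h, if_pos h']
      have h1 := (REG_card_pos P u).ne'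
      have h2 := (REG_card_pos P v).ne'
      field_simp
    · rw [if_neg h', if_neg h']
      ring
  · rw [if_neg h]
    symm
    apply Finset.sum_eq_zero
    intro y _
    rw [if_neg h]
    ring

theorem REG_cav_nonneg (P : Fin n → α) {f : Fin n → Fin n → ℝ} (hf : ∀ u v, 0 ≤ f u v)
    (u v : Fin n) : 0 ≤ REG_cav P f u v := by
  rw [REG_cav_K]
  exact Finset.sum_nonneg fun x _ => Finset.sum_nonneg fun y _ =>
    mul_nonneg (mul_nonneg (REG_K_nonneg _ _ _) (REG_K_nonneg _ _ _)) (hf _ _)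

theorem REG_cav_le_one (P : Fin n → α) {f : Fin n → Fin n → ℝ} (hf : ∀ u v, f u v ≤ 1)
    (u v : Fin n) : REG_cav P f u v ≤ 1 := by
  rw [REG_cav_K]
  calc ∑ x, ∑ y, REG_K P u x * REG_K P v y * f x y
      ≤ ∑ x, ∑ y, REG_K P u x * REG_K P v y := by
        refine Finset.sum_le_sum fun x _ => Finset.sum_le_sum fun y _ => ?_
        exact mul_le_of_le_one_right (mul_nonneg (REG_K_nonneg _ _ _) (REG_K_nonneg _ _ _))
          (hf _ _)
    _ = (∑ x, REG_K P u x) * ∑ y, REG_K P v y := by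
        rw [Finset.sum_mul_sum]
    _ = 1 := by rw [REG_K_sum, REG_K_sum, one_mul]

/-- functions of two variables which are constant on the cells -/
def REG_meas (P : Fin n → α) (g : Fin n → Fin n → ℝ) : Prop :=
  ∀ u u' v v', P u = P u' → P v = P v' → g u v = g u' v'

theorem REG_cav_meas (P : Fin n → α) (f : Fin n → Fin n → ℝ) : REG_meas P (REG_cav P f) := by
  intro u u' v v' h h'
  unfold REG_cav
  rw [h, h']

theorem REG_ortho (P : Fin n → α) (f g : Fin n → Fin n → ℝ) (hg : REG_meas P g) :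
    ∑ u, ∑ v, REG_cav P f u v * g u v = ∑ u, ∑ v, f u v * g u v := by
  have key : ∀ x y : Fin n, ∑ u, ∑ v, REG_K P u x * REG_K P v y * g u v = g x y := by
    intro x y
    calc ∑ u, ∑ v, REG_K P u x * REG_K P v y * g u v
        = ∑ u, ∑ v, REG_K P x u * REG_K P y v * g x y := by
          refine Finset.sum_congr rfl fun u _ => Finset.sum_congr rfl fun v _ => ?_
          rw [REG_K_symm P u x, REG_K_symm P v y]
          by_cases h : P u = P x
          · by_cases h' : P v = P y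
            · rw [hg u x v y h h']
            · have : REG_K P y v = 0 := by
                unfold REG_K; rw [if_neg h']
              rw [this]; ring
          · have : REG_K P x u = 0 := by
              unfold REG_K; rw [if_neg h]
            rw [this]; ring
      _ = ((∑ u, REG_K P x u) * ∑ v, REG_K P y v) * g x y := by
          rw [Finset.sum_mul_sum, Finset.sum_mul]
          refine Finset.sum_congr rfl fun u _ => ?_
          rw [Finset.sum_mul]
      _ = g x y := by rw [REG_K_sum, REG_K_sum]; ring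
  calc ∑ u, ∑ v, REG_cav P f u v * g u v
      = ∑ u, ∑ v, ∑ x, ∑ y, f x y * (REG_K P u x * REG_K P v y * g u v) := by
        refine Finset.sum_congr rfl fun u _ => Finset.sum_congr rfl fun v _ => ?_
        rw [REG_cav_K, Finset.sum_mul]
        refine Finset.sum_congr rfl fun x _ => ?_
        rw [Finset.sum_mul]
        refine Finset.sum_congr rfl fun y _ => ?_
        ring
    _ = ∑ x, ∑ y, ∑ u, ∑ v, f x y * (REG_K P u x * REG_K P v y * g u v) := by
        calc ∑ u, ∑ v, ∑ x, ∑ y, f x y * (REG_K P u x * REG_K P v y * g u v)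
            = ∑ u, ∑ x, ∑ v, ∑ y, f x y * (REG_K P u x * REG_K P v y * g u v) :=
              Finset.sum_congr rfl fun u _ => Finset.sum_comm
          _ = ∑ x, ∑ u, ∑ v, ∑ y, f x y * (REG_K P u x * REG_K P v y * g u v) :=
              Finset.sum_comm
          _ = ∑ x, ∑ u, ∑ y, ∑ v, f x y * (REG_K P u x * REG_K P v y * g u v) :=
              Finset.sum_congr rfl fun x _ => Finset.sum_congr rfl fun u _ => Finset.sum_comm
          _ = ∑ x, ∑ y, ∑ u, ∑ v, f x y * (REG_K P u x * REG_K P v y * g u v) :=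
              Finset.sum_congr rfl fun x _ => Finset.sum_comm
    _ = ∑ x, ∑ y, f x y * g x y := by
        refine Finset.sum_congr rfl fun x _ => Finset.sum_congr rfl fun y _ => ?_
        rw [← key x y, Finset.mul_sum]
        refine Finset.sum_congr rfl fun u _ => ?_
        rw [Finset.mul_sum]

/-- energy -/
noncomputable def REG_en {r : ℕ} (P : Fin n → α) (f : Fin r → Fin n → Fin n → ℝ) : ℝ :=
  ∑ c, ∑ u, ∑ v, REG_cav P (f c) u v ^ 2

/-- the conclusion -/
def REG_good {r : ℕ} (ε : ℝ) (P : Fin n → α) (f : Fin r → Fin n → Fin n → ℝ) : Prop :=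
  ∀ c : Fin r, ∀ S T : Finset (Fin n),
      |∑ u ∈ S, ∑ v ∈ T, (f c u v - REG_cav P (f c) u v)| ≤ ε * (n : ℝ) ^ 2

theorem REG_en_le {r : ℕ} (P : Fin n → α) {f : Fin r → Fin n → Fin n → ℝ}
    (h0 : ∀ c u v, 0 ≤ f c u v) (h1 : ∀ c u v, f c u v ≤ 1) :
    REG_en P f ≤ r * (n : ℝ) ^ 2 := by
  unfold REG_en
  calc ∑ c, ∑ u, ∑ v, REG_cav P (f c) u v ^ 2
      ≤ ∑ _c : Fin r, ∑ _u : Fin n, ∑ _v : Fin n, (1 : ℝ) := by
        refine Finset.sum_le_sum fun c _ => Finset.sum_le_sum fun u _ =>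
          Finset.sum_le_sum fun v _ => ?_
        have ha := REG_cav_nonneg P (h0 c) u v
        have hb := REG_cav_le_one P (h1 c) u v
        nlinarith
    _ = r * (n : ℝ) ^ 2 := by
        simp only [Finset.sum_const, Finset.card_univ, Fintype.card_fin, nsmul_eq_mul, mul_one]
        ring

/-- relabelling by an injective map changes nothing -/
theorem REG_cav_comp {β : Type} [DecidableEq β] (P : Fin n → α) (i : α → β)
    (hi : Function.Injective i) (f : Fin n → Fin n → ℝ) (u v : Fin n) :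
    REG_cav (i ∘ P) f u v = REG_cav P f u v := by
  unfold REG_cav
  simp only [Function.comp, hi.eq_iff]

/-- Pythagoras for a refinement -/
theorem REG_pyth {β : Type} [DecidableEq β] (P : Fin n → α) (Q : Fin n → β)
    (hPQ : ∀ u v, Q u = Q v → P u = P v) (f : Fin n → Fin n → ℝ) :
    ∑ u, ∑ v, (REG_cav Q f u v - REG_cav P f u v) ^ 2 =
      ∑ u, ∑ v, REG_cav Q f u v ^ 2 - ∑ u, ∑ v, REG_cav P f u v ^ 2 := by
  have hm : REG_meas Q (REG_cav P f) := by
    intro u u' v v' h h'
    exact REG_cav_meas P f u u' v v' (hPQ _ _ h) (hPQ _ _ h')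
  have h1 := REG_ortho Q f (REG_cav P f) hm
  have h2 := REG_ortho P f (REG_cav P f) (REG_cav_meas P f)
  have h3 : ∑ u, ∑ v, (REG_cav Q f u v - REG_cav P f u v) ^ 2 =
      ∑ u, ∑ v, REG_cav Q f u v ^ 2 - 2 * ∑ u, ∑ v, REG_cav Q f u v * REG_cav P f u v +
        ∑ u, ∑ v, REG_cav P f u v * REG_cav P f u v := by
    rw [Finset.mul_sum, ← Finset.sum_sub_distrib, ← Finset.sum_add_distrib]
    refine Finset.sum_congr rfl fun u _ => ?_
    rw [Finset.mul_sum, ← Finset.sum_sub_distrib, ← Finset.sum_add_distrib]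
    refine Finset.sum_congr rfl fun v _ => ?_
    ring
  have h4 : ∑ u, ∑ v, REG_cav P f u v ^ 2 = ∑ u, ∑ v, REG_cav P f u v * REG_cav P f u v :=
    Finset.sum_congr rfl fun u _ => Finset.sum_congr rfl fun v _ => by ring
  rw [h3, h4, h1, ← h2]
  ring

theorem REG_en_mono {β : Type} [DecidableEq β] (P : Fin n → α) (Q : Fin n → β)
    (hPQ : ∀ u v, Q u = Q v → P u = P v) (f : Fin n → Fin n → ℝ) :
    ∑ u, ∑ v, REG_cav P f u v ^ 2 ≤ ∑ u, ∑ v, REG_cav Q f u v ^ 2 := by
  have h := REG_pyth P Q hPQ f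
  have h2 : 0 ≤ ∑ u, ∑ v, (REG_cav Q f u v - REG_cav P f u v) ^ 2 :=
    Finset.sum_nonneg fun u _ => Finset.sum_nonneg fun v _ => sq_nonneg _
  linarith

/-- the refinement by `S` and `T` -/
def REG_ref (P : Fin n → α) (S T : Finset (Fin n)) (u : Fin n) : α × Bool × Bool :=
  (P u, decide (u ∈ S), decide (u ∈ T))

theorem REG_gain (P : Fin n → α) (f : Fin n → Fin n → ℝ) (S T : Finset (Fin n)) {ε : ℝ}
    (hε : 0 < ε) (h : ε * (n : ℝ) ^ 2 < |∑ u ∈ S, ∑ v ∈ T, (f u v - REG_cav P f u v)|) :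
    ∑ u, ∑ v, REG_cav P f u v ^ 2 + ε ^ 2 * (n : ℝ) ^ 2 ≤
      ∑ u, ∑ v, REG_cav (REG_ref P S T) f u v ^ 2 := by
  set Q := REG_ref P S T with hQ
  have hPQ : ∀ u v, Q u = Q v → P u = P v := by
    intro u v huv
    simpa [hQ, REG_ref] using congrArg Prod.fst huv
  have hp := REG_pyth P Q hPQ f
  set D : Fin n → Fin n → ℝ := fun u v => REG_cav Q f u v - REG_cav P f u v with hD
  set g : Fin n → Fin n → ℝ := fun u v => if u ∈ S ∧ v ∈ T then 1 else 0 with hg
  have hgm : REG_meas Q g := by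
    intro u u' v v' h1 h2
    have h1' : (decide (u ∈ S)) = decide (u' ∈ S) := by
      have := congrArg (fun z => z.2.1) h1
      simpa [hQ, REG_ref] using this
    have h2' : (decide (v ∈ T)) = decide (v' ∈ T) := by
      have := congrArg (fun z => z.2.2) h2
      simpa [hQ, REG_ref] using this
    have h1'' : u ∈ S ↔ u' ∈ S := by simpa using h1'
    have h2'' : v ∈ T ↔ v' ∈ T := by simpa using h2'
    simp only [hg, h1'', h2'']
  have ho := REG_ortho Q f g hgm
  have hsum : ∀ F : Fin n → Fin n → ℝ,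
      ∑ u ∈ S, ∑ v ∈ T, F u v = ∑ u, ∑ v, F u v * g u v := by
    intro F
    have : ∀ u v, F u v * g u v = if u ∈ S then (if v ∈ T then F u v else 0) else 0 := by
      intro u v
      simp only [hg]
      by_cases h1 : u ∈ S <;> by_cases h2 : v ∈ T <;> simp [h1, h2]
    simp only [this]
    rw [← Finset.sum_filter_add_sum_filter_not univ (fun u => u ∈ S)]
    have h1 : ∑ u ∈ univ.filter (fun u => ¬ u ∈ S),
        ∑ v, (if u ∈ S then (if v ∈ T then F u v else 0) else 0) = 0 := by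
      apply Finset.sum_eq_zero
      intro u hu
      apply Finset.sum_eq_zero
      intro v _
      rw [if_neg (Finset.mem_filter.mp hu).2]
    rw [h1, add_zero]
    have h2 : univ.filter (fun u => u ∈ S) = S := by ext; simp
    rw [h2]
    refine Finset.sum_congr rfl fun u hu => ?_
    simp only [if_pos hu]
    rw [← Finset.sum_filter]
    congr 1
    ext; simp
  have hS : ∑ u ∈ S, ∑ v ∈ T, (f u v - REG_cav P f u v) = ∑ u ∈ S, ∑ v ∈ T, D u v := by
    rw [hsum, hsum]
    have e1 : ∑ u, ∑ v, (f u v - REG_cav P f u v) * g u v =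
        ∑ u, ∑ v, f u v * g u v - ∑ u, ∑ v, REG_cav P f u v * g u v := by
      rw [← Finset.sum_sub_distrib]
      refine Finset.sum_congr rfl fun u _ => ?_
      rw [← Finset.sum_sub_distrib]
      refine Finset.sum_congr rfl fun v _ => ?_
      ring
    have e2 : ∑ u, ∑ v, D u v * g u v =
        ∑ u, ∑ v, REG_cav Q f u v * g u v - ∑ u, ∑ v, REG_cav P f u v * g u v := by
      rw [← Finset.sum_sub_distrib]
      refine Finset.sum_congr rfl fun u _ => ?_
      rw [← Finset.sum_sub_distrib]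
      refine Finset.sum_congr rfl fun v _ => ?_
      simp only [hD]
      ring
    rw [e1, e2, ho]
  rw [hS] at h
  -- Cauchy-Schwarz
  have hcs : (∑ u ∈ S, ∑ v ∈ T, D u v) ^ 2 ≤ (n : ℝ) ^ 2 * ∑ u, ∑ v, D u v ^ 2 := by
    rw [← Finset.sum_product']
    calc (∑ x ∈ S ×ˢ T, D x.1 x.2) ^ 2
        ≤ ((S ×ˢ T).card : ℝ) * ∑ x ∈ S ×ˢ T, D x.1 x.2 ^ 2 := sq_sum_le_card_mul_sum_sq
      _ ≤ (n : ℝ) ^ 2 * ∑ x ∈ (univ : Finset (Fin n × Fin n)), D x.1 x.2 ^ 2 := by
          apply mul_le_mul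
          · have h1 : (S ×ˢ T).card ≤ n ^ 2 := by
              rw [Finset.card_product, sq]
              have hs := S.card_le_univ
              have ht := T.card_le_univ
              rw [Fintype.card_fin] at hs ht
              exact Nat.mul_le_mul hs ht
            exact_mod_cast h1
          · exact Finset.sum_le_sum_of_subset_of_nonneg (Finset.subset_univ _)
              fun _ _ _ => sq_nonneg _
          · exact Finset.sum_nonneg fun _ _ => sq_nonneg _
          · positivity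
      _ = (n : ℝ) ^ 2 * ∑ u, ∑ v, D u v ^ 2 := by
          rw [← Finset.univ_product_univ, Finset.sum_product]
  have hn : 0 < n := by
    rcases Nat.eq_zero_or_pos n with rfl | hn
    · exfalso
      have : S = ∅ := by
        ext x; exact x.elim0
      rw [this] at h
      simp at h
    · exact hn
  have hnr : (0 : ℝ) < (n : ℝ) ^ 2 := by positivity
  have h3 : (ε * (n : ℝ) ^ 2) ^ 2 < (∑ u ∈ S, ∑ v ∈ T, D u v) ^ 2 := by
    rw [← sq_abs (∑ u ∈ S, ∑ v ∈ T, D u v)]
    exact pow_lt_pow_left₀ h (by positivity) (by norm_num)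
  have h4 : ε ^ 2 * (n : ℝ) ^ 2 < ∑ u, ∑ v, D u v ^ 2 := by
    have h5 : (n : ℝ) ^ 2 * (ε ^ 2 * (n : ℝ) ^ 2) < (n : ℝ) ^ 2 * ∑ u, ∑ v, D u v ^ 2 := by
      calc (n : ℝ) ^ 2 * (ε ^ 2 * (n : ℝ) ^ 2) = (ε * (n : ℝ) ^ 2) ^ 2 := by ring
        _ < _ := h3
        _ ≤ _ := hcs
    exact lt_of_mul_lt_mul_left h5 hnr.le
  have h6 : ∑ u, ∑ v, D u v ^ 2 = ∑ u, ∑ v, REG_cav Q f u v ^ 2 -
      ∑ u, ∑ v, REG_cav P f u v ^ 2 := hp
  linarith

end

theorem REG_step {r n m : ℕ} {ε : ℝ} (hε : 0 < ε) (f : Fin r → Fin n → Fin n → ℝ)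
    (P : Fin n → Fin m) (hP : ¬ REG_good ε P f) :
    ∃ P' : Fin n → Fin (m * 4), REG_en P f + ε ^ 2 * (n : ℝ) ^ 2 ≤ REG_en P' f := by
  unfold REG_good at hP
  push Not at hP
  obtain ⟨c, S, T, h⟩ := hP
  have hcard : Fintype.card (Fin m × Bool × Bool) = m * 4 := by simp
  let e : Fin m × Bool × Bool ≃ Fin (m * 4) := Fintype.equivFinOfCardEq hcard
  refine ⟨e ∘ REG_ref P S T, ?_⟩
  have h1 : REG_en (e ∘ REG_ref P S T) f = REG_en (REG_ref P S T) f := by
    unfold REG_en
    refine Finset.sum_congr rfl fun c _ => Finset.sum_congr rfl fun u _ =>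
      Finset.sum_congr rfl fun v _ => ?_
    rw [REG_cav_comp _ _ e.injective]
  rw [h1]
  have hPQ : ∀ u v, REG_ref P S T u = REG_ref P S T v → P u = P v := by
    intro u v huv
    simpa [REG_ref] using congrArg Prod.fst huv
  have h2 := REG_gain P (f c) S T hε h
  unfold REG_en
  rw [← Finset.add_sum_erase univ _ (Finset.mem_univ c),
    ← Finset.add_sum_erase univ (fun c => ∑ u, ∑ v, REG_cav (REG_ref P S T) (f c) u v ^ 2)
      (Finset.mem_univ c)]
  have h3 : ∑ x ∈ univ.erase c, ∑ u, ∑ v, REG_cav P (f x) u v ^ 2 ≤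
      ∑ x ∈ univ.erase c, ∑ u, ∑ v, REG_cav (REG_ref P S T) (f x) u v ^ 2 :=
    Finset.sum_le_sum fun x _ => REG_en_mono P _ hPQ (f x)
  linarith

theorem REG_iter {r n : ℕ} {ε : ℝ} (hε : 0 < ε) (f : Fin r → Fin n → Fin n → ℝ) (j : ℕ) :
    (∃ P : Fin n → Fin (4 ^ j), REG_good ε P f) ∨
      ∃ P : Fin n → Fin (4 ^ j), (j : ℝ) * (ε ^ 2 * (n : ℝ) ^ 2) ≤ REG_en P f := by
  induction j with
  | zero =>
    right
    refine ⟨fun _ => 0, ?_⟩
    simp only [Nat.cast_zero, zero_mul]
    unfold REG_en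
    exact Finset.sum_nonneg fun _ _ => Finset.sum_nonneg fun _ _ => Finset.sum_nonneg
      fun _ _ => sq_nonneg _
  | succ j ih =>
    have key : ∀ P : Fin n → Fin (4 ^ j), REG_good ε P f →
        ∃ P : Fin n → Fin (4 ^ (j + 1)), REG_good ε P f := by
      intro P hP
      have hle : 4 ^ j ≤ 4 ^ (j + 1) := Nat.pow_le_pow_right (by norm_num) (Nat.le_succ j)
      refine ⟨Fin.castLE hle ∘ P, ?_⟩
      intro c S T
      have h1 := hP c S T
      have h2 : ∀ u v, REG_cav (Fin.castLE hle ∘ P) (f c) u v = REG_cav P (f c) u v :=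
        fun u v => REG_cav_comp P _ (Fin.castLE_injective hle) _ u v
      simp only [h2]
      exact h1
    rcases ih with ⟨P, hP⟩ | ⟨P, hP⟩
    · exact Or.inl (key P hP)
    · by_cases hg : REG_good ε P f
      · exact Or.inl (key P hg)
      · right
        obtain ⟨P', hP'⟩ := REG_step hε f P hg
        refine ⟨P', ?_⟩
        push_cast
        rw [add_mul, one_mul]
        refine le_trans ?_ hP'
        linarith

theorem weak_reg (r : ℕ) {ε : ℝ} (hε : 0 < ε) : ∃ M : ℕ, ∀ n : ℕ,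
    ∀ f : Fin r → Fin n → Fin n → ℝ, (∀ c u v, 0 ≤ f c u v) → (∀ c u v, f c u v ≤ 1) →
    ∃ P : Fin n → Fin M, ∀ c : Fin r, ∀ S T : Finset (Fin n),
      |∑ u ∈ S, ∑ v ∈ T, (f c u v - cellAvg P (f c) u v)| ≤ ε * (n : ℝ) ^ 2 := by
  obtain ⟨J, hJ⟩ := exists_nat_gt ((r : ℝ) / ε ^ 2)
  refine ⟨4 ^ J, fun n f h0 h1 => ?_⟩
  rcases Nat.eq_zero_or_pos n with rfl | hn
  · refine ⟨fun u => u.elim0, fun c S T => ?_⟩
    have : S = ∅ := by ext x; exact x.elim0
    rw [this]
    simp
  rcases REG_iter hε f J with ⟨P, hP⟩ | ⟨P, hP⟩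
  · exact ⟨P, hP⟩
  · exfalso
    have h2 := REG_en_le P h0 h1
    have hnr : (0 : ℝ) < (n : ℝ) ^ 2 := by positivity
    have h3 : (r : ℝ) < J * ε ^ 2 := by
      rw [div_lt_iff₀ (by positivity)] at hJ
      exact hJ
    nlinarith

end Pool.ER
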