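import Mathlib
import Pool.Agent.ER.Defs
import Pool.Agent.ER.REG
import Pool.Agent.ER.CNT

set_option autoImplicit false

/-!
# CONT: the container lemma (MP_86b484_co)
-/

open Finset

namespace Pool.ER

/-- indicator of colour `c` -/
noncomputable def CONT_f {n r : ℕ} (φ : CG (Fin n) r) (c : Fin r) (u v : Fin n) : ℝ :=
  if φ s(u, v) = some c then 1 else 0

/-- block averages -/
noncomputable def CONT_avg {n M r : ℕ} (P : Fin n → Fin M) (φ : CG (Fin n) r) (c : Fin r)
    (i j : Fin M) : ℝ :=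
  (∑ x ∈ univ.filter (fun x => P x = i), ∑ y ∈ univ.filter (fun y => P y = j), CONT_f φ c x y) /
    (((univ.filter fun x => P x = i).card : ℝ) * ((univ.filter fun y => P y = j).card : ℝ))

theorem CONT_f_symm {n r : ℕ} (φ : CG (Fin n) r) (c : Fin r) (u v : Fin n) :
    CONT_f φ c u v = CONT_f φ c v u := by
  unfold CONT_f
  rw [Sym2.eq_swap]

theorem CONT_avg_symm {n M r : ℕ} (P : Fin n → Fin M) (φ : CG (Fin n) r) (c : Fin r)
    (i j : Fin M) : CONT_avg P φ c i j = CONT_avg P φ c j i := by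
  unfold CONT_avg
  rw [Finset.sum_comm, mul_comm ((univ.filter fun x => P x = i).card : ℝ)]
  congr 1
  refine Finset.sum_congr rfl fun x _ => Finset.sum_congr rfl fun y _ => ?_
  rw [CONT_f_symm]

/-- the list system of the parts -/
noncomputable def CONT_L {n M r : ℕ} (δ : ℝ) (P : Fin n → Fin M) (φ : CG (Fin n) r) :
    LS (Fin M) r :=
  Sym2.lift ⟨fun i j => univ.filter fun c => δ ≤ CONT_avg P φ c i j, by
    intro i j
    ext c
    simp only [Finset.mem_filter, Finset.mem_univ, true_and]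
    rw [CONT_avg_symm]⟩

theorem CONT_mem {n M r : ℕ} (δ : ℝ) (P : Fin n → Fin M) (φ : CG (Fin n) r) (u v : Fin n)
    (c : Fin r) :
    c ∈ pull P (CONT_L δ P φ) s(u, v) ↔ δ ≤ cellAvg P (CONT_f φ c) u v := by
  unfold pull CONT_L
  rw [Sym2.map_mk]
  simp only [Sym2.lift_mk, Finset.mem_filter, Finset.mem_univ, true_and]
  rfl

theorem CONT_exc {n M r : ℕ} {δ : ℝ} (hδ : 0 < δ) (P : Fin n → Fin M) (φ : CG (Fin n) r) :
    (exc φ (pull P (CONT_L δ P φ)) : ℝ) ≤ r * δ * (n : ℝ) ^ 2 := by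
  set L := pull P (CONT_L δ P φ) with hL
  set O : Finset (Fin n × Fin n) := univ.filter fun x =>
    ∃ c : Fin r, c ∉ L s(x.1, x.2) ∧ φ s(x.1, x.2) = some c with hO
  have h1 : exc φ L ≤ O.card := by
    unfold exc
    refine le_trans (Finset.card_le_card ?_) (Finset.card_image_le (s := O)
      (f := fun x : Fin n × Fin n => s(x.1, x.2)))
    intro e he
    induction e using Sym2.ind with
    | _ u v =>
      rw [Finset.mem_filter] at he
      exact Finset.mem_image.mpr ⟨(u, v), by simpa [hO] using he.2, rfl⟩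
  set g : Fin r → Fin n → Fin n → ℝ := fun c u v =>
    if cellAvg P (CONT_f φ c) u v < δ then 1 else 0 with hg
  have h2 : (O.card : ℝ) ≤ ∑ c : Fin r, ∑ u, ∑ v, CONT_f φ c u v * g c u v := by
    have e1 : (O.card : ℝ) = ∑ u : Fin n, ∑ v : Fin n,
        (if ∃ c : Fin r, c ∉ L s(u, v) ∧ φ s(u, v) = some c then (1 : ℝ) else 0) := by
      rw [hO, Finset.card_filter, Nat.cast_sum, ← Finset.univ_product_univ, Finset.sum_product]
      simp only [Nat.cast_ite, Nat.cast_one, Nat.cast_zero]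
    rw [e1]
    have e2 : ∑ c : Fin r, ∑ u, ∑ v, CONT_f φ c u v * g c u v =
        ∑ u, ∑ v, ∑ c : Fin r, CONT_f φ c u v * g c u v := by
      rw [Finset.sum_comm]
      exact Finset.sum_congr rfl fun u _ => Finset.sum_comm
    rw [e2]
    refine Finset.sum_le_sum fun u _ => Finset.sum_le_sum fun v _ => ?_
    have hnn : ∀ c : Fin r, 0 ≤ CONT_f φ c u v * g c u v := by
      intro c
      simp only [CONT_f, hg]
      split_ifs <;> norm_num
    split_ifs with h
    · obtain ⟨c, hc, hφ⟩ := h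
      refine le_trans ?_ (Finset.single_le_sum (f := fun c => CONT_f φ c u v * g c u v)
        (fun c _ => hnn c) (Finset.mem_univ c))
      rw [hL, CONT_mem] at hc
      push Not at hc
      simp only [CONT_f, hg]
      rw [if_pos hφ, if_pos hc]
      norm_num
    · exact Finset.sum_nonneg fun c _ => hnn c
  have h3 : ∀ c : Fin r, ∑ u, ∑ v, CONT_f φ c u v * g c u v ≤ δ * (n : ℝ) ^ 2 := by
    intro c
    have hm : REG_meas P (g c) := by
      intro u u' v v' h h'
      have := REG_cav_meas P (CONT_f φ c) u u' v v' h h'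
      simp only [hg]
      rw [REG_cav_eq, REG_cav_eq, this]
    rw [← REG_ortho P (CONT_f φ c) (g c) hm]
    calc ∑ u, ∑ v, REG_cav P (CONT_f φ c) u v * g c u v
        ≤ ∑ _u : Fin n, ∑ _v : Fin n, δ := by
          refine Finset.sum_le_sum fun u _ => Finset.sum_le_sum fun v _ => ?_
          simp only [hg, REG_cav_eq]
          split_ifs with h
          · rw [mul_one]; exact h.le
          · rw [mul_zero]; exact hδ.le
      _ = δ * (n : ℝ) ^ 2 := by
          simp only [Finset.sum_const, Finset.card_univ, Fintype.card_fin, nsmul_eq_mul]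
          ring
  calc (exc φ L : ℝ) ≤ O.card := by exact_mod_cast h1
    _ ≤ ∑ c : Fin r, ∑ u, ∑ v, CONT_f φ c u v * g c u v := h2
    _ ≤ ∑ _c : Fin r, δ * (n : ℝ) ^ 2 := Finset.sum_le_sum fun c _ => h3 c
    _ = r * δ * (n : ℝ) ^ 2 := by
        simp only [Finset.sum_const, Finset.card_univ, Fintype.card_fin, nsmul_eq_mul]
        ring

theorem CONT_pattern {n M r k s : ℕ} {δ ε : ℝ} (hδ : 0 < δ) (P : Fin n → Fin M)
    (φ : CG (Fin n) r) (hφ : Adm k s φ)
    (hcut : ∀ c : Fin r, ∀ S T : Finset (Fin n),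
      |∑ u ∈ S, ∑ v ∈ T, (CONT_f φ c u v - cellAvg P (CONT_f φ c) u v)| ≤ ε * (n : ℝ) ^ 2)
    (χ : Fin k → Fin k → Fin r)
    (hχ : s ≤ (univ.filter fun c : Fin r => ∃ i j : Fin k, i < j ∧ χ i j = c).card)
    (X : Finset (Fin k → Fin n))
    (hX : ∀ w ∈ X, ∀ i j : Fin k, i < j → χ i j ∈ pull P (CONT_L δ P φ) s(w i, w j)) :
    (X.card : ℝ) * δ ^ ((univ : Finset (Fin k × Fin k)).filter (fun q => q.1 < q.2)).card ≤
      (k : ℝ) ^ 2 * ε * (n : ℝ) ^ k := by
  set B := (univ : Finset (Fin k × Fin k)).filter (fun q => q.1 < q.2) with hB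
  have hf0 : ∀ (c : Fin r) (u v : Fin n), 0 ≤ CONT_f φ c u v := by
    intro c u v; unfold CONT_f; split_ifs <;> norm_num
  have hf1 : ∀ (c : Fin r) (u v : Fin n), CONT_f φ c u v ≤ 1 := by
    intro c u v; unfold CONT_f; split_ifs <;> norm_num
  have hc := counting (n := n) (k := k) (ε := ε) (fun i j => CONT_f φ (χ i j))
    (fun i j => cellAvg P (CONT_f φ (χ i j)))
    (fun i j u v => hf0 _ _ _) (fun i j u v => hf1 _ _ _)
    (fun i j u v => REG_cav_nonneg P (hf0 _) u v)
    (fun i j u v => REG_cav_le_one P (hf1 _) u v)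
    (fun i j S T => hcut (χ i j) S T)
  rw [← hB] at hc
  have hzero : ∀ w : Fin k → Fin n, ∏ q ∈ B, CONT_f φ (χ q.1 q.2) (w q.1) (w q.2) = 0 := by
    intro w
    by_contra hne
    have hne := Finset.prod_ne_zero_iff.mp hne
    have h1 : ∀ i j : Fin k, i < j → φ s(w i, w j) = some (χ i j) := by
      intro i j hij
      have := hne (i, j) (by rw [hB, Finset.mem_filter]; exact ⟨Finset.mem_univ _, hij⟩)
      unfold CONT_f at this
      by_contra h
      rw [if_neg h] at this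
      exact this rfl
    have h2 := hφ w (fun i j hij => by rw [h1 i j hij]; exact Option.some_ne_none _)
    have h3 : (univ.filter fun c : Fin r => ∃ i j : Fin k, i < j ∧ χ i j = c) ⊆ tupCols φ w := by
      intro c hc
      rw [Finset.mem_filter] at hc
      obtain ⟨_, i, j, hij, hcc⟩ := hc
      unfold tupCols
      rw [Finset.mem_filter]
      exact ⟨Finset.mem_univ _, i, j, hij, by rw [h1 i j hij, hcc]⟩
    exact absurd (hχ.trans (Finset.card_le_card h3)) (not_le.mpr h2)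
  simp only [hzero, zero_sub] at hc
  have h4 : ∑ w : Fin k → Fin n, ∏ q ∈ B, cellAvg P (CONT_f φ (χ q.1 q.2)) (w q.1) (w q.2) ≤
      (k : ℝ) ^ 2 * ε * (n : ℝ) ^ k := by
    rw [Finset.sum_neg_distrib, abs_neg] at hc
    exact (le_abs_self _).trans hc
  refine le_trans ?_ h4
  calc (X.card : ℝ) * δ ^ B.card = ∑ _w ∈ X, δ ^ B.card := by
        rw [Finset.sum_const, nsmul_eq_mul]
    _ ≤ ∑ w ∈ X, ∏ q ∈ B, cellAvg P (CONT_f φ (χ q.1 q.2)) (w q.1) (w q.2) := by
        refine Finset.sum_le_sum fun w hw => ?_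
        rw [← Finset.prod_const]
        refine Finset.prod_le_prod (fun q _ => hδ.le) fun q hq => ?_
        rw [hB, Finset.mem_filter] at hq
        have := hX w hw q.1 q.2 hq.2
        rwa [CONT_mem] at this
    _ ≤ ∑ w : Fin k → Fin n, ∏ q ∈ B, cellAvg P (CONT_f φ (χ q.1 q.2)) (w q.1) (w q.2) := by
        refine Finset.sum_le_sum_of_subset_of_nonneg (Finset.subset_univ _) fun w _ _ => ?_
        exact Finset.prod_nonneg fun q _ => REG_cav_nonneg P (hf0 _) _ _

theorem container {k s r : ℕ} (hk : 2 ≤ k) {η : ℝ} (hη : 0 < η) : ∃ M : ℕ, ∀ n : ℕ,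
    ∀ φ : CG (Fin n) r, (∀ v, φ s(v, v) = none) → Adm k s φ →
    ∃ (P : Fin n → Fin M) (Λ : LS (Fin M) r),
      (exc φ (pull P Λ) : ℝ) ≤ η * (n : ℝ) ^ 2 ∧ (nRb k s (pull P Λ) : ℝ) ≤ η * (n : ℝ) ^ k := by
  classical
  set δ : ℝ := η / (r + 1) with hδdef
  have hδ : 0 < δ := by positivity
  set m := ((univ : Finset (Fin k × Fin k)).filter (fun q => q.1 < q.2)).card with hm
  set N : ℕ := Fintype.card (Fin k → Fin k → Fin r) with hN
  set ε : ℝ := η * δ ^ m / ((N + 1) * ((k : ℝ) ^ 2 + 1)) with hεdef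
  have hε : 0 < ε := by positivity
  obtain ⟨M, hM⟩ := weak_reg r hε
  refine ⟨M, fun n φ _ hφ => ?_⟩
  obtain ⟨P, hP⟩ := hM n (CONT_f φ)
    (by intro c u v; unfold CONT_f; split_ifs <;> norm_num)
    (by intro c u v; unfold CONT_f; split_ifs <;> norm_num)
  refine ⟨P, CONT_L δ P φ, ?_, ?_⟩
  · refine (CONT_exc hδ P φ).trans ?_
    refine mul_le_mul_of_nonneg_right ?_ (by positivity)
    rw [hδdef, mul_div_assoc', div_le_iff₀ (by positivity)]
    nlinarith
  · set L := pull P (CONT_L δ P φ) with hL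
    set Xs : Finset (Fin k → Fin k → Fin r) := univ.filter fun χ =>
      s ≤ (univ.filter fun c : Fin r => ∃ i j : Fin k, i < j ∧ χ i j = c).card with hXs
    set Y : (Fin k → Fin k → Fin r) → Finset (Fin k → Fin n) := fun χ =>
      univ.filter fun w => ∀ i j : Fin k, i < j → χ i j ∈ L s(w i, w j) with hY
    have h1 : nRb k s L ≤ ∑ χ ∈ Xs, (Y χ).card := by
      unfold nRb
      refine le_trans (Finset.card_le_card ?_) Finset.card_biUnion_le
      intro w hw
      rw [Finset.mem_filter] at hw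
      obtain ⟨χ, hχ1, hχ2⟩ := hw.2
      rw [Finset.mem_biUnion]
      refine ⟨χ, ?_, ?_⟩
      · rw [hXs, Finset.mem_filter]
        refine ⟨Finset.mem_univ _, ?_⟩
        convert hχ2
      · simp only [hY]
        rw [Finset.mem_filter]
        exact ⟨Finset.mem_univ _, hχ1⟩
    have h2 : ∀ χ ∈ Xs, ((Y χ).card : ℝ) ≤ (k : ℝ) ^ 2 * ε * (n : ℝ) ^ k / δ ^ m := by
      intro χ hχ
      rw [le_div_iff₀ (by positivity)]
      refine CONT_pattern hδ P φ hφ hP χ ?_ (Y χ) ?_
      · rw [hXs, Finset.mem_filter] at hχ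
        exact hχ.2
      · intro w hw
        simp only [hY] at hw
        rw [Finset.mem_filter] at hw
        exact hw.2
    have h3 : (nRb k s L : ℝ) ≤ N * ((k : ℝ) ^ 2 * ε * (n : ℝ) ^ k / δ ^ m) := by
      calc (nRb k s L : ℝ) ≤ ((∑ χ ∈ Xs, (Y χ).card : ℕ) : ℝ) := by exact_mod_cast h1
        _ = ∑ χ ∈ Xs, ((Y χ).card : ℝ) := by push_cast; rfl
        _ ≤ ∑ _χ ∈ Xs, (k : ℝ) ^ 2 * ε * (n : ℝ) ^ k / δ ^ m := Finset.sum_le_sum h2
        _ = Xs.card * ((k : ℝ) ^ 2 * ε * (n : ℝ) ^ k / δ ^ m) := by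
            rw [Finset.sum_const, nsmul_eq_mul]
        _ ≤ N * ((k : ℝ) ^ 2 * ε * (n : ℝ) ^ k / δ ^ m) := by
            refine mul_le_mul_of_nonneg_right ?_ (by positivity)
            have := Xs.card_le_univ
            exact_mod_cast this
    refine h3.trans ?_
    have h4 : (N : ℝ) * ((k : ℝ) ^ 2 * ε * (n : ℝ) ^ k / δ ^ m) =
        (N / (N + 1)) * ((k : ℝ) ^ 2 / ((k : ℝ) ^ 2 + 1)) * (η * (n : ℝ) ^ k) := by
      rw [hεdef]
      field_simp
    rw [h4]
    have h5 : ((N : ℝ) / (N + 1)) ≤ 1 := by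
      rw [div_le_one (by positivity)]; linarith
    have h6 : ((k : ℝ) ^ 2 / ((k : ℝ) ^ 2 + 1)) ≤ 1 := by
      rw [div_le_one (by positivity)]; linarith
    have h7 : ((N : ℝ) / (N + 1)) * ((k : ℝ) ^ 2 / ((k : ℝ) ^ 2 + 1)) ≤ 1 :=
      mul_le_one₀ h5 (by positivity) h6
    exact mul_le_of_le_one_left (by positivity) h7

end Pool.ER
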