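import Mathlib
import Pool.Agent.ER.Defs

set_option autoImplicit false

open Finset Filter

namespace Pool.ER

namespace Conv

/-- the set of pairs of elements with the same image -/
theorem sq_card_le {α β : Type*} [DecidableEq α] [DecidableEq β] (s : Finset α) (f : α → β) :
    s.card ^ 2 ≤ (s.image f).card *
      ((s ×ˢ s).filter fun z : α × α => f z.1 = f z.2).card := by
  have h1 : ((s ×ˢ s).filter fun z : α × α => f z.1 = f z.2).card =
      ∑ b ∈ s.image f, (s.filter fun a => f a = b).card ^ 2 := by
    rw [Finset.card_eq_sum_card_fiberwise (f := fun z : α × α => f z.1) (t := s.image f)]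
    · apply Finset.sum_congr rfl
      intro b hb
      rw [sq, ← Finset.card_product]
      congr 1
      ext z
      simp only [Finset.mem_filter, Finset.mem_product]
      constructor
      · rintro ⟨⟨⟨h1, h2⟩, h3⟩, h4⟩
        exact ⟨⟨h1, h4⟩, h2, h3 ▸ h4⟩
      · rintro ⟨⟨h1, h2⟩, h3, h4⟩
        exact ⟨⟨⟨h1, h3⟩, h2.trans h4.symm⟩, h2⟩
    · intro z hz
      have hz' := (Finset.mem_filter.1 (Finset.mem_coe.1 hz)).1
      exact Finset.mem_coe.2 (Finset.mem_image_of_mem _ (Finset.mem_product.1 hz').1)
  rw [h1, Finset.card_eq_sum_card_image f s]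
  exact sq_sum_le_card_mul_sum_sq

/-- the collapsing map -/
def col {n : ℕ} (x : Fin (n + 2)) : Fin (n + 1) :=
  if h : (x : ℕ) < n + 1 then ⟨x, h⟩ else Fin.last n

/-- the glued colouring -/
def glue {n r : ℕ} (z : CG (Fin (n + 1)) r × CG (Fin (n + 1)) r) : CG (Fin (n + 2)) r :=
  fun e => if Fin.last (n + 1) ∈ e then z.2 (e.map col) else z.1 (e.map col)

/-- the other vertices -/
def oth (n : ℕ) : Finset (Fin (n + 1)) := univ.filter (· ≠ Fin.last n)

theorem oth_card (n : ℕ) : (oth n).card = n := by
  unfold oth
  rw [Finset.filter_ne', Finset.card_erase_of_mem (mem_univ _)]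
  simp

theorem col_castSucc {n : ℕ} (a : Fin (n + 1)) : col (Fin.castSucc a) = a := by
  unfold col
  rw [dif_pos (by simp [a.2])]
  rfl

theorem col_last {n : ℕ} : col (Fin.last (n + 1)) = Fin.last n := by
  unfold col
  rw [dif_neg (by simp)]

/-- if the collapse is the last vertex, the vertex is one of the two clones -/
theorem col_eq_last {n : ℕ} {x : Fin (n + 2)} (h : col x = Fin.last n) :
    x = Fin.castSucc (Fin.last n) ∨ x = Fin.last (n + 1) := by
  unfold col at h
  split_ifs at h with h1
  · left
    ext
    have := congrArg Fin.val h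
    simpa using this
  · right
    ext
    have := x.2
    simp
    omega

theorem restr_eq {n r : ℕ} {φ ψ : CG (Fin (n + 1)) r} (h : restr (oth n) φ = restr (oth n) ψ)
    {a b : Fin (n + 1)} (ha : a ≠ Fin.last n) (hb : b ≠ Fin.last n) :
    φ s(a, b) = ψ s(a, b) := by
  have h1 := congrFun h s(a, b)
  unfold restr at h1
  have h2 : s(a, b) ∈ (oth n).sym2 := by
    rw [Finset.mk_mem_sym2_iff]
    unfold oth
    simp [ha, hb]
  rw [if_pos h2, if_pos h2] at h1
  exact h1

theorem glue_mem {k s r n : ℕ} (G : SimpleGraph (Fin (n + 1)))
    {z : CG (Fin (n + 1)) r × CG (Fin (n + 1)) r} (h1 : z.1 ∈ cols k s r G)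
    (h2 : z.2 ∈ cols k s r G) (h12 : restr (oth n) z.1 = restr (oth n) z.2) :
    glue z ∈ cols k s r (G.comap col) := by
  classical
  unfold cols at h1 h2 ⊢
  rw [Finset.mem_filter] at h1 h2 ⊢
  obtain ⟨-, h1a, h1b⟩ := h1
  obtain ⟨-, h2a, h2b⟩ := h2
  have hedge : ∀ e : Sym2 (Fin (n + 2)), e.map col ∈ G.edgeSet ↔
      e ∈ (G.comap col).edgeSet := by
    intro e
    induction e with
    | h x y => simp
  have hE : ∀ e : Sym2 (Fin (n + 2)), glue z e ≠ none ↔ e ∈ (G.comap col).edgeSet := by
    intro e
    unfold glue
    split_ifs with h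
    · rw [h2a, hedge]
    · rw [h1a, hedge]
  refine ⟨mem_univ _, hE, ?_⟩
  intro w hw
  by_cases hlast : ∃ i0, w i0 = Fin.last (n + 1)
  · obtain ⟨i0, hi0⟩ := hlast
    have hadj : ∀ i j : Fin k, i ≠ j → G.Adj (col (w i)) (col (w j)) := by
      intro i j hij
      rcases lt_or_gt_of_ne hij with h | h
      · have := (hE _).1 (hw i j h)
        simpa using this
      · have := (hE _).1 (hw j i h)
        have h3 : G.Adj (col (w j)) (col (w i)) := by simpa using this
        exact h3.symm
    have hne : ∀ i, i ≠ i0 → col (w i) ≠ Fin.last n := by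
      intro i hi h
      have h3 := hadj i i0 hi
      rw [h, hi0, col_last] at h3
      exact G.loopless.irrefl _ h3
    have key : ∀ i j : Fin k, i < j → glue z s(w i, w j) = z.2 s(col (w i), col (w j)) := by
      intro i j hij
      unfold glue
      split_ifs with h
      · rfl
      · have hi : i ≠ i0 := by
          rintro rfl
          exact h (by rw [hi0]; simp)
        have hj : j ≠ i0 := by
          rintro rfl
          exact h (by rw [hi0]; simp)
        exact restr_eq h12 (hne i hi) (hne j hj)
    have h3 : tupCols (glue z) w = tupCols z.2 (fun i => col (w i)) := by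
      unfold tupCols
      ext c
      simp only [Finset.mem_filter, mem_univ, true_and]
      constructor
      · rintro ⟨i, j, hij, h⟩
        exact ⟨i, j, hij, by rw [← key i j hij]; exact h⟩
      · rintro ⟨i, j, hij, h⟩
        exact ⟨i, j, hij, by rw [key i j hij]; exact h⟩
    rw [h3]
    apply h2b
    intro i j hij
    rw [← key i j hij]
    exact hw i j hij
  · have key : ∀ i j : Fin k, glue z s(w i, w j) = z.1 s(col (w i), col (w j)) := by
      intro i j
      unfold glue
      split_ifs with h
      · exfalso
        rw [Sym2.mem_iff] at h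
        rcases h with h | h
        · exact hlast ⟨i, h.symm⟩
        · exact hlast ⟨j, h.symm⟩
      · rfl
    have h3 : tupCols (glue z) w = tupCols z.1 (fun i => col (w i)) := by
      unfold tupCols
      ext c
      simp only [Finset.mem_filter, mem_univ, true_and]
      constructor
      · rintro ⟨i, j, hij, h⟩
        exact ⟨i, j, hij, by rw [← key i j]; exact h⟩
      · rintro ⟨i, j, hij, h⟩
        exact ⟨i, j, hij, by rw [key i j]; exact h⟩
    rw [h3]
    apply h1b
    intro i j hij
    rw [← key i j]
    exact hw i j hij

theorem glue_inj {r n : ℕ} {z z' : CG (Fin (n + 1)) r × CG (Fin (n + 1)) r}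
    (h12 : restr (oth n) z.1 = restr (oth n) z.2)
    (h12' : restr (oth n) z'.1 = restr (oth n) z'.2) (h : glue z = glue z') : z = z' := by
  have h1 : z.1 = z'.1 := by
    funext e
    induction e with
    | h a b =>
      have h3 := congrFun h s(Fin.castSucc a, Fin.castSucc b)
      have h4 : ¬ Fin.last (n + 1) ∈ s(Fin.castSucc a, Fin.castSucc b) := by
        rw [Sym2.mem_iff]
        rintro (h | h)
        · exact (Fin.castSucc_lt_last a).ne h.symm
        · exact (Fin.castSucc_lt_last b).ne h.symm
      unfold glue at h3
      rw [if_neg h4, if_neg h4, Sym2.map_mk] at h3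
      simpa [col_castSucc] using h3
  have h2 : z.2 = z'.2 := by
    funext e
    induction e with
    | h a b =>
      by_cases hab : a ≠ Fin.last n ∧ b ≠ Fin.last n
      · rw [← restr_eq h12 hab.1 hab.2, ← restr_eq h12' hab.1 hab.2, h1]
      · let q : Fin (n + 1) → Fin (n + 2) := fun a =>
          if a = Fin.last n then Fin.last (n + 1) else Fin.castSucc a
        have hq : ∀ a, col (q a) = a := by
          intro a
          by_cases ha : a = Fin.last n
          · change col (if a = Fin.last n then Fin.last (n + 1) else Fin.castSucc a) = a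
            rw [if_pos ha, col_last, ha]
          · change col (if a = Fin.last n then Fin.last (n + 1) else Fin.castSucc a) = a
            rw [if_neg ha, col_castSucc]
        have h3 := congrFun h s(q a, q b)
        have h4 : Fin.last (n + 1) ∈ s(q a, q b) := by
          rw [Sym2.mem_iff]
          by_cases ha : a = Fin.last n
          · left
            change _ = (if a = Fin.last n then Fin.last (n + 1) else Fin.castSucc a)
            rw [if_pos ha]
          · right
            have hb : b = Fin.last n := by
              by_contra hb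
              exact hab ⟨ha, hb⟩
            change _ = (if b = Fin.last n then Fin.last (n + 1) else Fin.castSucc b)
            rw [if_pos hb]
        unfold glue at h3
        rw [if_pos h4, if_pos h4, Sym2.map_mk] at h3
        simpa [hq] using h3
  exact Prod.ext h1 h2

end Conv

/-- the core, from the restriction estimate -/
theorem cnum_logconv_of {k s r n : ℕ}
    (hres : ∀ (G : SimpleGraph (Fin (n + 1))) (W : Finset (Fin (n + 1))),
      ((cols k s r G).image (restr W)).card ≤ cnum k s r W.card) :
    cnum k s r (n + 1) ^ 2 ≤ cnum k s r n * cnum k s r (n + 2) := by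
  classical
  obtain ⟨G, -, hG⟩ := Finset.exists_mem_eq_sup (univ : Finset (SimpleGraph (Fin (n + 1))))
    univ_nonempty (fun G => (cols k s r G).card)
  have h1 : cnum k s r (n + 1) = (cols k s r G).card := by
    unfold cnum
    rw [← hG]
  rw [h1]
  have h2 := Conv.sq_card_le (cols k s r G) (restr (Conv.oth n))
  have h3 : ((cols k s r G).image (restr (Conv.oth n))).card ≤ cnum k s r n := by
    have := hres G (Conv.oth n)
    rw [Conv.oth_card] at this
    exact this
  have h4 : (((cols k s r G) ×ˢ (cols k s r G)).filter fun z =>
      restr (Conv.oth n) z.1 = restr (Conv.oth n) z.2).card ≤ cnum k s r (n + 2) := by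
    calc _ ≤ (cols k s r (G.comap Conv.col)).card := by
          apply Finset.card_le_card_of_injOn Conv.glue
          · intro z hz
            have hz' := Finset.mem_filter.1 (Finset.mem_coe.1 hz)
            have hz2 := Finset.mem_product.1 hz'.1
            exact Finset.mem_coe.2 (Conv.glue_mem G hz2.1 hz2.2 hz'.2)
          · intro z hz z' hz' h
            exact Conv.glue_inj (Finset.mem_filter.1 (Finset.mem_coe.1 hz)).2
              (Finset.mem_filter.1 (Finset.mem_coe.1 hz')).2 h
      _ ≤ cnum k s r (n + 2) := by
          unfold cnum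
          exact Finset.le_sup (f := fun G : SimpleGraph (Fin (n + 2)) => (cols k s r G).card)
            (mem_univ _)
  exact h2.trans (Nat.mul_le_mul h3 h4)

end Pool.ER
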