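import Mathlib
import Pool.Agent.ER.Defs

set_option autoImplicit false

/-!
# Property A (MP_86b484_co): module RES, restrictions of coloured graphs
-/

open Finset Filter

namespace Pool.ER

theorem RES_mem_cols {V : Type} [Fintype V] [DecidableEq V] {k s r : ℕ} {G : SimpleGraph V}
    {φ : CG V r} : φ ∈ cols k s r G ↔ (∀ e : Sym2 V, φ e ≠ none ↔ e ∈ G.edgeSet) ∧ Adm k s φ := by
  classical
  unfold cols
  simp

/-- the admissible colourings of any graph on `Fin n` are at most `c(n)` -/
theorem RES_card_le {k s r n : ℕ} (G : SimpleGraph (Fin n)) :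
    (cols k s r G).card ≤ cnum k s r n := by
  classical
  unfold cnum
  exact Finset.le_sup (f := fun G : SimpleGraph (Fin n) => (cols k s r G).card) (Finset.mem_univ G)

theorem RES_exists {k s r n : ℕ} :
    ∃ G : SimpleGraph (Fin n), (cols k s r G).card = cnum k s r n := by
  classical
  unfold cnum
  obtain ⟨G, _, hG⟩ := Finset.exists_mem_eq_sup (univ : Finset (SimpleGraph (Fin n)))
    ⟨⊥, Finset.mem_univ _⟩ (fun G => (cols k s r G).card)
  exact ⟨G, hG.symm⟩

/-- pull back of admissible colourings along a map of vertices -/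
theorem RES_comap_mem {V U : Type} [Fintype V] [DecidableEq V] [Fintype U] [DecidableEq U]
    {k s r : ℕ} {G : SimpleGraph V} {φ : CG V r} (hφ : φ ∈ cols k s r G) (f : U → V) :
    (fun e : Sym2 U => φ (e.map f)) ∈ cols k s r (G.comap f) := by
  rw [RES_mem_cols] at hφ ⊢
  refine ⟨fun e => ?_, fun w hw => ?_⟩
  · induction e using Sym2.ind with
    | _ a b =>
      rw [Sym2.map_mk, hφ.1]
      simp
  · have h := hφ.2 (fun i => f (w i)) (fun i j hij => by
      have := hw i j hij
      simpa using this)
    have he : tupCols (fun e : Sym2 U => φ (e.map f)) w = tupCols φ fun i => f (w i) := by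
      ext c
      unfold tupCols
      rw [Finset.mem_filter, Finset.mem_filter]
      exact Iff.rfl
    rw [he]
    exact h

theorem RES_map_mem_sym2 {V U : Type} [DecidableEq V] (W : Finset V) (f : U → V)
    (hf : ∀ u, f u ∈ W) (e : Sym2 U) : e.map f ∈ W.sym2 := by
  induction e using Sym2.ind with
  | _ a b => simp [hf]

/-- if `f` covers `W` then a restricted colouring is determined by its pull back along `f` -/
theorem RES_restr_ext {V U : Type} [DecidableEq V] {r : ℕ} (W : Finset V) (f : U → V)
    (hs : ∀ x ∈ W, ∃ u, f u = x) (φ₁ φ₂ : CG V r)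
    (h : ∀ e : Sym2 U, φ₁ (e.map f) = φ₂ (e.map f)) : restr W φ₁ = restr W φ₂ := by
  funext e
  unfold restr
  by_cases he : e ∈ W.sym2
  · rw [if_pos he, if_pos he]
    induction e using Sym2.ind with
    | _ a b =>
      rw [Finset.mk_mem_sym2_iff] at he
      obtain ⟨x, hx⟩ := hs a he.1
      obtain ⟨y, hy⟩ := hs b he.2
      have := h s(x, y)
      rw [Sym2.map_mk] at this
      simpa [hx, hy] using this
  · rw [if_neg he, if_neg he]

theorem card_image_restr_le {k s r n : ℕ} (hk : 2 ≤ k) (G : SimpleGraph (Fin n))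
    (W : Finset (Fin n)) : ((cols k s r G).image (restr W)).card ≤ cnum k s r W.card := by
  classical
  have _ := hk
  let f : Fin W.card → Fin n := fun i => W.orderEmbOfFin rfl i
  have hf : ∀ u, f u ∈ W := fun u => Finset.orderEmbOfFin_mem W rfl u
  have hs : ∀ x ∈ W, ∃ u, f u = x := by
    intro x hx
    have : x ∈ Set.range (W.orderEmbOfFin rfl) := by
      rw [Finset.range_orderEmbOfFin]; exact hx
    obtain ⟨u, hu⟩ := this
    exact ⟨u, hu⟩
  refine le_trans ?_ (RES_card_le (G.comap f))
  apply Finset.card_le_card_of_injOn (fun ψ e => ψ (e.map f))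
  · intro ψ hψ
    have hψ' := hψ
    rw [Finset.mem_coe, Finset.mem_image] at hψ'
    obtain ⟨φ, hφ, rfl⟩ := hψ'
    have h := RES_comap_mem hφ f
    have h2 : (fun e : Sym2 (Fin W.card) => restr W φ (e.map f)) =
        fun e : Sym2 (Fin W.card) => φ (e.map f) := by
      funext e
      unfold restr
      rw [if_pos (RES_map_mem_sym2 W f hf e)]
    show (fun e : Sym2 (Fin W.card) => restr W φ (e.map f)) ∈ _
    rw [h2]
    exact h
  · intro ψ₁ h₁ ψ₂ h₂ h
    rw [Finset.mem_coe, Finset.mem_image] at h₁ h₂
    obtain ⟨φ₁, _, rfl⟩ := h₁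
    obtain ⟨φ₂, _, rfl⟩ := h₂
    apply RES_restr_ext W f hs
    intro e
    have := congrFun h e
    simp only [restr] at this
    rwa [if_pos (RES_map_mem_sym2 W f hf e), if_pos (RES_map_mem_sym2 W f hf e)] at this

theorem one_le_cnum {k s r n : ℕ} (hk : 2 ≤ k) (hs : 1 ≤ s) : 1 ≤ cnum k s r n := by
  classical
  have _ := hs
  refine le_trans ?_ (RES_card_le (k := k) (s := s) (r := r) (⊥ : SimpleGraph (Fin n)))
  apply Finset.card_pos.2
  refine ⟨fun _ => none, ?_⟩
  rw [RES_mem_cols]
  refine ⟨fun e => by simp, fun w hw => ?_⟩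
  exact absurd rfl (hw ⟨0, by omega⟩ ⟨1, by omega⟩ (by simp [Fin.lt_def]))

theorem RES_diag {V : Type} [Fintype V] [DecidableEq V] {k s r : ℕ} {G : SimpleGraph V}
    {φ : CG V r} (hφ : φ ∈ cols k s r G) (v : V) : φ s(v, v) = none := by
  rw [RES_mem_cols] at hφ
  by_contra h
  have := (hφ.1 s(v, v)).1 h
  simp at this

/-- the vertices different from the last one -/
theorem RES_card_erase (n : ℕ) : ((univ : Finset (Fin (n + 1))).erase (Fin.last n)).card = n := by
  rw [Finset.card_erase_of_mem (Finset.mem_univ _)]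
  simp

theorem RES_restr_eq_iff {n r : ℕ} {φ₁ φ₂ : CG (Fin (n + 1)) r}
    (h : restr ((univ : Finset (Fin (n + 1))).erase (Fin.last n)) φ₁ =
      restr ((univ : Finset (Fin (n + 1))).erase (Fin.last n)) φ₂)
    (e : Sym2 (Fin (n + 1))) (he : Fin.last n ∉ e) : φ₁ e = φ₂ e := by
  have h2 := congrFun h e
  have he' : e ∈ ((univ : Finset (Fin (n + 1))).erase (Fin.last n)).sym2 := by
    rw [Finset.mem_sym2_iff]
    intro a ha
    rw [Finset.mem_erase]
    exact ⟨fun hh => he (hh ▸ ha), Finset.mem_univ _⟩
  unfold restr at h2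
  rwa [if_pos he', if_pos he'] at h2

theorem cnum_succ_le {k s r n : ℕ} (hk : 2 ≤ k) (hr : 1 ≤ r) :
    cnum k s r (n + 1) ≤ cnum k s r n * r ^ n := by
  classical
  obtain ⟨G, hG⟩ := RES_exists (k := k) (s := s) (r := r) (n := n + 1)
  rw [← hG]
  set W := (univ : Finset (Fin (n + 1))).erase (Fin.last n) with hW
  have h1 : ((cols k s r G).image (restr W)).card ≤ cnum k s r n := by
    have := card_image_restr_le (s := s) (r := r) hk G W
    rwa [RES_card_erase] at this
  have h2 : (cols k s r G).card ≤ r ^ n * ((cols k s r G).image (restr W)).card := by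
    apply Finset.card_le_mul_card_image
    intro ψ _
    have h3 : ((cols k s r G).filter fun φ => restr W φ = ψ).card ≤
        (univ : Finset (Fin n → Fin r)).card := by
      apply Finset.card_le_card_of_injOn
        (fun φ j => (φ s(Fin.last n, Fin.castSucc j)).getD ⟨0, hr⟩)
      · intro φ _; simp
      · intro φ₁ h₁ φ₂ h₂ h
        rw [Finset.mem_coe, Finset.mem_filter] at h₁ h₂
        have hr12 : restr W φ₁ = restr W φ₂ := h₁.2.trans h₂.2.symm
        have hm1 := RES_mem_cols.1 h₁.1
        have hm2 := RES_mem_cols.1 h₂.1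
        funext e
        by_cases he : Fin.last n ∈ e
        · obtain ⟨y, rfl⟩ := Sym2.mem_iff_exists.1 he
          rcases Fin.eq_castSucc_or_eq_last y with ⟨j, rfl⟩ | rfl
          · have hj := congrFun h j
            simp only at hj
            by_cases hn : s(Fin.last n, Fin.castSucc j) ∈ G.edgeSet
            · have a1 := (hm1.1 _).2 hn
              have a2 := (hm2.1 _).2 hn
              obtain ⟨c1, hc1⟩ := Option.ne_none_iff_exists'.1 a1
              obtain ⟨c2, hc2⟩ := Option.ne_none_iff_exists'.1 a2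
              rw [hc1, hc2] at hj ⊢
              simpa using hj
            · have a1 : φ₁ s(Fin.last n, Fin.castSucc j) = none := by
                by_contra hh; exact hn ((hm1.1 _).1 hh)
              have a2 : φ₂ s(Fin.last n, Fin.castSucc j) = none := by
                by_contra hh; exact hn ((hm2.1 _).1 hh)
              rw [a1, a2]
          · rw [RES_diag h₁.1, RES_diag h₂.1]
        · exact RES_restr_eq_iff hr12 e he
    simpa using h3
  calc (cols k s r G).card ≤ r ^ n * ((cols k s r G).image (restr W)).card := h2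
    _ ≤ r ^ n * cnum k s r n := Nat.mul_le_mul_left _ h1
    _ = cnum k s r n * r ^ n := Nat.mul_comm _ _

end Pool.ER
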