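import Mathlib
import Pool.Agent.ER.Defs
import Pool.Agent.ER.RES
import Pool.Agent.ER.ConvCore

set_option autoImplicit false

open Finset Filter

namespace Pool.ER

theorem cnum_logconv {k s r n : ℕ} (hk : 2 ≤ k) :
    cnum k s r (n + 1) ^ 2 ≤ cnum k s r n * cnum k s r (n + 2) :=
  cnum_logconv_of fun G W => card_image_restr_le hk G W

end Pool.ER
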