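import Mathlib
import Pool.Agent.ER.Defs

set_option autoImplicit false

/-!
# EMB: greedy embedding of patterns into pure structures of positive lower density
-/

open Finset Filter

namespace Pool.ER

/-- few vertices of `Y₀` have few neighbours of colour `c` in `Y₁` -/
theorem EMB_bad {γ ε : ℝ} (hγ : 0 < γ) (hε : 0 < ε) {n r p : ℕ} {W : Finset (Fin n)}
    {φ : CG (Fin n) r} {Q : Fin n → Fin p} {A : Finset (Fin r)} (hL : LDW W ε γ φ Q A)
    (hn : 1 ≤ ε * n) (Y₀ Y₁ : Finset (Fin n)) (h0 : Y₀ ⊆ W) (h1 : Y₁ ⊆ W) (i j : Fin p)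
    (hi : ∀ x ∈ Y₀, Q x = i) (hj : ∀ y ∈ Y₁, Q y = j) (hY₁ : 4 * (ε * n) ≤ Y₁.card) (c : Fin r)
    (hc : c ∈ pureL A i j) :
    ((Y₀.filter fun y => ((Y₁.filter fun z => φ s(y, z) = some c).card : ℝ) <
      γ / 4 * Y₁.card).card : ℝ) < 2 * (ε * n) := by
  by_contra hcon
  rw [not_lt] at hcon
  set B := Y₀.filter fun y => ((Y₁.filter fun z => φ s(y, z) = some c).card : ℝ) <
      γ / 4 * Y₁.card with hB
  have hceil : (⌈ε * n⌉₊ : ℝ) < ε * n + 1 := Nat.ceil_lt_add_one (by positivity)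
  have hle : ⌈ε * n⌉₊ ≤ B.card := by
    have : (⌈ε * n⌉₊ : ℝ) ≤ B.card := by linarith
    exact_mod_cast this
  obtain ⟨X, hXB, hXc⟩ := Finset.exists_subset_card_eq hle
  have hX1 : ε * n ≤ (X.card : ℝ) := by rw [hXc]; exact Nat.le_ceil _
  have hX2 : (X.card : ℝ) ≤ 2 * (ε * n) := by rw [hXc]; linarith
  have hYd : (Y₁.card : ℝ) - X.card ≤ ((Y₁ \ X).card : ℝ) := by
    have := Finset.le_card_sdiff X Y₁
    have h2 : Y₁.card ≤ (Y₁ \ X).card + X.card := by omega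
    have h3 : (Y₁.card : ℝ) ≤ ((Y₁ \ X).card : ℝ) + X.card := by exact_mod_cast h2
    linarith
  have hXY : X ⊆ Y₀ := hXB.trans (Finset.filter_subset _ _)
  have key := hL X (Y₁ \ X) (hXY.trans h0) (Finset.sdiff_subset.trans h1) Finset.disjoint_sdiff
    hX1 (by linarith) i j (fun x hx => hi x (hXY hx))
    (fun y hy => hj y (Finset.mem_sdiff.1 hy).1) c hc
  have hcount : (((X ×ˢ (Y₁ \ X)).filter fun z => φ s(z.1, z.2) = some c).card : ℝ) ≤
      X.card * (γ / 4 * Y₁.card) := by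
    have h1 : ((X ×ˢ (Y₁ \ X)).filter fun z => φ s(z.1, z.2) = some c).card ≤
        ∑ x ∈ X, (Y₁.filter fun z => φ s(x, z) = some c).card := by
      rw [Finset.card_filter, Finset.sum_product]
      apply Finset.sum_le_sum
      intro x _
      rw [← Finset.card_filter]
      apply Finset.card_le_card
      exact Finset.filter_subset_filter _ Finset.sdiff_subset
    have h2 : ((∑ x ∈ X, (Y₁.filter fun z => φ s(x, z) = some c).card : ℕ) : ℝ) ≤
        ∑ _x ∈ X, γ / 4 * Y₁.card := by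
      push_cast
      apply Finset.sum_le_sum
      intro x hx
      exact (Finset.mem_filter.1 (hXB hx)).2.le
    rw [Finset.sum_const, nsmul_eq_mul] at h2
    calc _ ≤ _ := by exact_mod_cast h1
      _ ≤ _ := h2
  have hXpos : (0 : ℝ) < X.card := by linarith
  have hYpos : (0 : ℝ) < Y₁.card := by linarith
  have h3 : γ * X.card * ((Y₁ \ X).card : ℝ) ≤ X.card * (γ / 4 * Y₁.card) := key.trans hcount
  have h4 : γ * ((Y₁ \ X).card : ℝ) ≤ γ / 4 * Y₁.card := by
    have : X.card * (γ * ((Y₁ \ X).card : ℝ)) ≤ X.card * (γ / 4 * Y₁.card) := by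
      calc _ = γ * X.card * ((Y₁ \ X).card : ℝ) := by ring
        _ ≤ _ := h3
    exact le_of_mul_le_mul_left this hXpos
  have h5 : (Y₁.card : ℝ) / 2 ≤ ((Y₁ \ X).card : ℝ) := by linarith
  have h6 : γ * (Y₁.card / 2) ≤ γ * ((Y₁ \ X).card : ℝ) := mul_le_mul_of_nonneg_left h5 hγ.le
  have h7 : 0 < γ * Y₁.card := mul_pos hγ hYpos
  linarith

theorem EMB_aux {γ ε : ℝ} (hγ : 0 < γ) (hγ1 : γ ≤ 1) (hε : 0 < ε) {n r p : ℕ}
    {W : Finset (Fin n)} {φ : CG (Fin n) r} {Q : Fin n → Fin p} {A : Finset (Fin r)}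
    (hL : LDW W ε γ φ Q A) (hn : 1 ≤ ε * n) (k : ℕ) :
    ∀ m : ℕ, m ≤ k → ∀ δ : ℝ, 4 * ((k : ℝ) + 1) * ε ≤ δ * (γ / 4) ^ m →
      ∀ (cls : Fin m → Fin p) (Y : Fin m → Finset (Fin n)) (χ : Fin m → Fin m → Fin r),
        (∀ a, Y a ⊆ W) → (∀ a, ∀ y ∈ Y a, Q y = cls a) → (∀ a, δ * n ≤ (Y a).card) →
        (∀ a b : Fin m, a < b → χ a b ∈ pureL A (cls a) (cls b)) →
        ∃ w : Fin m → Fin n, (∀ a, w a ∈ Y a) ∧
          ∀ a b : Fin m, a < b → φ s(w a, w b) = some (χ a b) := by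
  intro m
  induction m with
  | zero =>
    intro _ δ _ cls Y χ _ _ _ _
    exact ⟨fun a => a.elim0, fun a => a.elim0, fun a => a.elim0⟩
  | succ m ih =>
    intro hm δ hδ cls Y χ hW hcls hcard hχ
    have hγ4 : 0 < γ / 4 := by linarith
    have hγ41 : γ / 4 ≤ 1 := by linarith
    have hpow : 0 < (γ / 4) ^ (m + 1) := pow_pos hγ4 _
    have hpow1 : (γ / 4) ^ (m + 1) ≤ 1 := pow_le_one₀ hγ4.le hγ41
    have hk0 : (0 : ℝ) ≤ k := Nat.cast_nonneg k
    have hδpos : 0 < δ := by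
      have h1 : 0 < 4 * ((k : ℝ) + 1) * ε := by positivity
      by_contra hneg
      have : δ * (γ / 4) ^ (m + 1) ≤ 0 := mul_nonpos_of_nonpos_of_nonneg (not_lt.1 hneg) hpow.le
      linarith
    have hδ1 : 4 * ((k : ℝ) + 1) * ε ≤ δ :=
      hδ.trans (by
        calc δ * (γ / 4) ^ (m + 1) ≤ δ * 1 := mul_le_mul_of_nonneg_left hpow1 hδpos.le
          _ = δ := mul_one δ)
    have hn0 : (0 : ℝ) < n := by
      rcases Nat.eq_zero_or_pos n with h | h
      · subst h; norm_num at hn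
      · exact_mod_cast h
    have hδn : 4 * ((k : ℝ) + 1) * (ε * n) ≤ δ * n := by
      calc 4 * ((k : ℝ) + 1) * (ε * n) = 4 * ((k : ℝ) + 1) * ε * n := by ring
        _ ≤ δ * n := mul_le_mul_of_nonneg_right hδ1 hn0.le
    have hεn : 0 < ε * n := by linarith
    have h4ε : 4 * (ε * n) ≤ δ * n := by nlinarith
    -- the bad sets
    set Bd : Fin m → Finset (Fin n) := fun b => (Y 0).filter fun y =>
      (((Y b.succ).filter fun z => φ s(y, z) = some (χ 0 b.succ)).card : ℝ) <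
        γ / 4 * (Y b.succ).card with hBd
    have hbad : ∀ b : Fin m, ((Bd b).card : ℝ) < 2 * (ε * n) := by
      intro b
      exact EMB_bad hγ hε hL hn (Y 0) (Y b.succ) (hW 0) (hW _) (cls 0) (cls b.succ) (hcls 0)
        (hcls _) (h4ε.trans (hcard _)) (χ 0 b.succ) (hχ 0 b.succ (Fin.succ_pos b))
    have hun : ((univ.biUnion Bd).card : ℝ) < (Y 0).card := by
      have h1 : ((univ.biUnion Bd).card : ℝ) ≤ ∑ b : Fin m, ((Bd b).card : ℝ) := by
        exact_mod_cast Finset.card_biUnion_le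
      have h2 : ∑ b : Fin m, ((Bd b).card : ℝ) ≤ ∑ _b : Fin m, 2 * (ε * n) :=
        Finset.sum_le_sum fun b _ => (hbad b).le
      rw [Finset.sum_const, Finset.card_univ, Fintype.card_fin, nsmul_eq_mul] at h2
      have h3 : (m : ℝ) ≤ k := by exact_mod_cast (by omega : m ≤ k)
      have h4 : (m : ℝ) * (2 * (ε * n)) ≤ k * (2 * (ε * n)) :=
        mul_le_mul_of_nonneg_right h3 (by positivity)
      have h5 := hcard 0
      nlinarith
    obtain ⟨w₀, hw₀, hw₀'⟩ : ∃ w₀ ∈ Y 0, w₀ ∉ univ.biUnion Bd := by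
      by_contra hcon
      push Not at hcon
      have : (Y 0).card ≤ (univ.biUnion Bd).card := Finset.card_le_card fun x hx => hcon x hx
      have : ((Y 0).card : ℝ) ≤ (univ.biUnion Bd).card := by exact_mod_cast this
      linarith
    have hgood : ∀ b : Fin m, γ / 4 * (Y b.succ).card ≤
        (((Y b.succ).filter fun z => φ s(w₀, z) = some (χ 0 b.succ)).card : ℝ) := by
      intro b
      by_contra hcon
      apply hw₀'
      rw [Finset.mem_biUnion]
      exact ⟨b, Finset.mem_univ _, Finset.mem_filter.2 ⟨hw₀, not_le.1 hcon⟩⟩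
    obtain ⟨w, hw1, hw2⟩ := ih (by omega) (δ * (γ / 4)) (by
        calc _ ≤ _ := hδ
          _ = δ * (γ / 4) * (γ / 4) ^ m := by rw [pow_succ]; ring)
      (fun b => cls b.succ)
      (fun b => (Y b.succ).filter fun z => φ s(w₀, z) = some (χ 0 b.succ))
      (fun a b => χ a.succ b.succ)
      (fun a => (Finset.filter_subset _ _).trans (hW _))
      (fun a y hy => hcls _ y (Finset.mem_filter.1 hy).1)
      (fun a => by
        refine le_trans ?_ (hgood a)
        calc δ * (γ / 4) * n = γ / 4 * (δ * n) := by ring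
          _ ≤ γ / 4 * (Y a.succ).card := mul_le_mul_of_nonneg_left (hcard _) hγ4.le)
      (fun a b hab => hχ a.succ b.succ (Fin.succ_lt_succ_iff.2 hab))
    refine ⟨Fin.cons w₀ w, ?_, ?_⟩
    · intro a
      refine Fin.cases ?_ (fun b => ?_) a
      · simpa using hw₀
      · simpa using (Finset.mem_filter.1 (hw1 b)).1
    · intro a b
      refine Fin.cases ?_ (fun a' => ?_) a
      · refine Fin.cases ?_ (fun b' => ?_) b
        · intro h; exact absurd h (lt_irrefl _)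
        · intro _
          simpa using (Finset.mem_filter.1 (hw1 b')).2
      · refine Fin.cases ?_ (fun b' => ?_) b
        · intro h; exact absurd h (Fin.not_lt_zero _)
        · intro h
          simpa using hw2 a' b' (Fin.succ_lt_succ_iff.1 h)

theorem embed (k r : ℕ) {γ ε' : ℝ} (hγ : 0 < γ) (hγ1 : γ ≤ 1) (hε' : 0 < ε') :
    ∃ ε : ℝ, 0 < ε ∧ ∀ᶠ n : ℕ in atTop, ∀ (p : ℕ) (W : Finset (Fin n)) (φ : CG (Fin n) r)
      (Q : Fin n → Fin p) (A : Finset (Fin r)), LDW W ε γ φ Q A →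
      ∀ m : ℕ, m ≤ k → ∀ (cls : Fin m → Fin p) (Y : Fin m → Finset (Fin n))
        (χ : Fin m → Fin m → Fin r),
        (∀ a, Y a ⊆ W) → (∀ a, ∀ y ∈ Y a, Q y = cls a) → (∀ a, ε' * n ≤ (Y a).card) →
        (∀ a b : Fin m, a < b → χ a b ∈ pureL A (cls a) (cls b)) →
        ∃ w : Fin m → Fin n, (∀ a, w a ∈ Y a) ∧
          ∀ a b : Fin m, a < b → φ s(w a, w b) = some (χ a b) := by
  have hγ4 : 0 < γ / 4 := by linarith
  have hγ41 : γ / 4 ≤ 1 := by linarith
  have hk0 : (0 : ℝ) ≤ k := Nat.cast_nonneg k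
  set ε : ℝ := ε' * (γ / 4) ^ k / (4 * ((k : ℝ) + 1)) with hεdef
  have hε : 0 < ε := by positivity
  refine ⟨ε, hε, ?_⟩
  filter_upwards [eventually_ge_atTop ⌈1 / ε⌉₊] with n hn
  intro p W φ Q A hL m hm cls Y χ h1 h2 h3 h4
  have hn1 : 1 ≤ ε * n := by
    have : (1 / ε) ≤ n := (Nat.le_ceil _).trans (by exact_mod_cast hn)
    calc 1 = ε * (1 / ε) := by field_simp
      _ ≤ ε * n := mul_le_mul_of_nonneg_left this hε.le
  refine EMB_aux hγ hγ1 hε hL hn1 k m hm ε' ?_ cls Y χ h1 h2 h3 h4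
  have h5 : 4 * ((k : ℝ) + 1) * ε = ε' * (γ / 4) ^ k := by
    rw [hεdef]; field_simp
  rw [h5]
  exact mul_le_mul_of_nonneg_left (pow_le_pow_of_le_one hγ4.le hγ41 hm) hε'.le

end Pool.ER
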