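import Mathlib
import Pool.Agent.ER.Defs

set_option autoImplicit false

open Finset Filter

namespace Pool.ER

/-! Module GAN (helper39). -/

/-! ### GAN: pure analysis -/
theorem growth_analysis (f : ℕ → ℝ) (hmono : Monotone fun n => f (n + 1) - f n) {α B : ℝ}
    (hα : 0 ≤ α) (hlow : ∀ n : ℕ, α * (n : ℝ) ^ 2 / 2 - B * (n + 1) ≤ f n)
    (hup : ∀ θ : ℝ, 0 < θ → ∀ᶠ n : ℕ in atTop, f (n + 1) - f n ≤ (α + θ) * n) {δ : ℝ}
    (hδ : 0 < δ) : ∀ᶠ n : ℕ in atTop, (α - δ) * n ≤ f (n + 1) - f n := by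
  -- h small
  set h : ℝ := min (1 / 2) (δ / (α + 1)) with hh
  have hh0 : 0 < h := by
    rw [hh]; apply lt_min (by norm_num); positivity
  have hh1 : h ≤ 1 / 2 := min_le_left _ _
  have hh2 : h * (α + 1) ≤ δ := by
    have : h ≤ δ / (α + 1) := min_le_right _ _
    rwa [le_div_iff₀ (by linarith)] at this
  set θ : ℝ := h * δ / 2 with hθ
  have hθ0 : 0 < θ := by rw [hθ]; positivity
  obtain ⟨N0, hN0⟩ := eventually_atTop.1 (hup θ hθ0)
  -- f m ≤ f N0 + (α+θ) m²/2 for m ≥ N0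
  have hf1 : ∀ m : ℕ, N0 ≤ m → f m ≤ f N0 + (α + θ) * (m : ℝ) ^ 2 / 2 := by
    intro m hm
    induction m, hm using Nat.le_induction with
    | base =>
      have : 0 ≤ (α + θ) * (N0 : ℝ) ^ 2 / 2 := by positivity
      linarith
    | succ m hm ih =>
      have h1 := hN0 m hm
      push_cast
      nlinarith
  -- telescoping
  have hf2 : ∀ (U : ℝ) (m j : ℕ), (∀ i, i < m + j → f (i + 1) - f i ≤ U) →
      f (m + j) ≤ f m + j * U := by
    intro U m j
    induction j with
    | zero => intro _; simp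
    | succ j ih =>
      intro hU
      have h1 := ih (fun i hi => hU i (by omega))
      have h2 := hU (m + j) (by omega)
      rw [← add_assoc]
      push_cast
      linarith
  -- eventually in n
  have hev : ∀ᶠ n : ℕ in atTop, f N0 + α * n + B * (n + 1) < h * δ / 4 * (n : ℝ) ^ 2 := by
    have h1 : Tendsto (fun n : ℕ => (n : ℝ)) atTop atTop := tendsto_natCast_atTop_atTop
    have h2 := h1.eventually_ge_atTop (max 1 ((|f N0| + α + 2 * |B| + 1) / (h * δ / 4)))
    filter_upwards [h2] with n hn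
    have hn1 : (1 : ℝ) ≤ n := (le_max_left _ _).trans hn
    have hn2 : (|f N0| + α + 2 * |B| + 1) / (h * δ / 4) ≤ n := (le_max_right _ _).trans hn
    rw [div_le_iff₀ (by positivity)] at hn2
    have h3 : f N0 ≤ |f N0| := le_abs_self _
    have h4 : B ≤ |B| := le_abs_self _
    have h5 : 0 ≤ |f N0| := abs_nonneg _
    have h6 : 0 ≤ |B| := abs_nonneg _
    have h7 : (|f N0| + α + 2 * |B| + 1) * n ≤ n * (h * δ / 4) * n :=
      mul_le_mul_of_nonneg_right hn2 (by linarith)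
    have h8 : f N0 + α * n + B * (n + 1) ≤ |f N0| * n + α * n + |B| * (2 * n) := by
      have e1 : |f N0| ≤ |f N0| * n := le_mul_of_one_le_right h5 hn1
      have e2 : B * (n + 1) ≤ |B| * (n + 1) := mul_le_mul_of_nonneg_right h4 (by linarith)
      have e3 : |B| * (n + 1) ≤ |B| * (2 * n) := mul_le_mul_of_nonneg_left (by linarith) h6
      linarith
    nlinarith
  have hev2 : ∀ᶠ n : ℕ in atTop, 2 * N0 + 2 ≤ n := eventually_ge_atTop _
  filter_upwards [hev, hev2] with n hn hn2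
  by_contra hcon
  push Not at hcon
  set U := f (n + 1) - f n with hU
  have hn0 : (0 : ℝ) ≤ n := by positivity
  set n1 := ⌊(1 - h) * n⌋₊ with hn1
  have hn1le : (n1 : ℝ) ≤ (1 - h) * n := Nat.floor_le (by nlinarith)
  have hn1lt : (1 - h) * n < n1 + 1 := Nat.lt_floor_add_one _
  have hn1n : n1 ≤ n := by
    have : (n1 : ℝ) ≤ n := by nlinarith
    exact_mod_cast this
  have hN0n1 : N0 ≤ n1 := by
    rw [hn1, Nat.le_floor_iff (by nlinarith)]
    have : ((2 * N0 + 2 : ℕ) : ℝ) ≤ n := by exact_mod_cast hn2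
    push_cast at this
    nlinarith
  have h1 := hf1 n1 hN0n1
  have h2 := hf2 U n1 (n - n1) (by
    intro i hi
    have : i ≤ n := by omega
    exact hmono this)
  rw [Nat.add_sub_cancel' hn1n, Nat.cast_sub hn1n] at h2
  have h3 := hlow n
  -- (n - n1) U ≤ h (α - δ) n² + α n
  have h4 : ((n : ℝ) - n1) * U ≤ h * (α - δ) * n ^ 2 + α * n := by
    have hnn1 : 0 ≤ (n : ℝ) - n1 := by
      have : (n1 : ℝ) ≤ n := by exact_mod_cast hn1n
      linarith
    have e1 : ((n : ℝ) - n1) * U ≤ ((n : ℝ) - n1) * ((α - δ) * n) :=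
      mul_le_mul_of_nonneg_left hcon.le hnn1
    have e2 : ((n : ℝ) - n1) = h * n + ((1 - h) * n - n1) := by ring
    have e3 : 0 ≤ (1 - h) * n - n1 := by linarith
    have e4 : (1 - h) * n - n1 ≤ 1 := by linarith
    have e5 : ((1 - h) * n - n1) * ((α - δ) * n) ≤ α * n := by
      have e6 : ((1 - h) * n - n1) * ((α - δ) * n) ≤ ((1 - h) * n - n1) * (α * n) := by
        apply mul_le_mul_of_nonneg_left _ e3
        nlinarith
      have e7 : ((1 - h) * n - n1) * (α * n) ≤ 1 * (α * n) :=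
        mul_le_mul_of_nonneg_right e4 (by positivity)
      linarith
    have e8 : ((n : ℝ) - n1) * ((α - δ) * n)
        = h * (α - δ) * n ^ 2 + ((1 - h) * n - n1) * ((α - δ) * n) := by
      nth_rewrite 1 [e2]; ring
    linarith
  have h5 : (α + θ) * (n1 : ℝ) ^ 2 / 2 ≤ (α + θ) * ((1 - h) * n) ^ 2 / 2 := by
    have : (n1 : ℝ) ^ 2 ≤ ((1 - h) * n) ^ 2 := pow_le_pow_left₀ (by positivity) hn1le 2
    have h6 : 0 ≤ α + θ := by linarith
    nlinarith
  -- algebra
  have h6 : (α + θ) * ((1 - h) * n) ^ 2 / 2 + h * (α - δ) * n ^ 2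
      ≤ α * n ^ 2 / 2 - h * δ / 4 * n ^ 2 := by
    have e1 : (α + θ) * (1 - h) ^ 2 / 2 + h * (α - δ) ≤ α / 2 - h * δ / 4 := by
      have e2 : (1 - h) ^ 2 ≤ 1 := by nlinarith
      have e3 : θ * (1 - h) ^ 2 ≤ θ := by nlinarith
      have e4 : h * (h * α) ≤ h * δ := by
        apply mul_le_mul_of_nonneg_left _ hh0.le
        nlinarith
      rw [hθ] at e3 ⊢
      nlinarith
    have hn2' : (0 : ℝ) ≤ (n : ℝ) ^ 2 := by positivity
    nlinarith
  linarith

end Pool.ER
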