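import Mathlib
import Pool.Agent.ER.Defs

set_option autoImplicit false

/-!
# PAT: patterns of the pure templates
-/

open Finset

namespace Pool.ER

/-- the inside pairs of a pattern -/
def PAT_ins {k p : ℕ} (cls : Fin k → Fin p) : Finset (Fin k × Fin k) :=
  univ.filter fun q => q.1 < q.2 ∧ cls q.1 = cls q.2

/-- ordered pairs with equal classes -/
def PAT_sym {k p : ℕ} (cls : Fin k → Fin p) : Finset (Fin k × Fin k) :=
  univ.filter fun q => cls q.1 = cls q.2

lemma PAT_sum_div {p : ℕ} (hp : 0 < p) : ∀ q t : ℕ, t ≤ p →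
    ∑ l ∈ range (p * q + t), l / p = p * q.choose 2 + q * t := by
  intro q
  induction q with
  | zero =>
    intro t ht
    simp only [mul_zero, zero_add, Nat.choose_zero_succ, zero_mul]
    refine Finset.sum_eq_zero fun l hl => ?_
    exact Nat.div_eq_of_lt (lt_of_lt_of_le (mem_range.mp hl) ht)
  | succ q ihq =>
    intro t
    induction t with
    | zero =>
      intro _
      have h := ihq p le_rfl
      have h2 : (q + 1).choose 2 = q + q.choose 2 := by
        rw [Nat.choose_succ_succ' q 1, Nat.choose_one_right]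
      rw [show p * (q + 1) + 0 = p * q + p by ring, h, h2]
      ring
    | succ t iht =>
      intro ht
      rw [← add_assoc, Finset.sum_range_succ, iht (by omega), Nat.mul_add_div hp,
        Nat.div_eq_of_lt (by omega : t < p)]
      ring

lemma PAT_Ik (k p : ℕ) : Ik k (p : ℝ) = ∑ l ∈ range k, l / p := by
  unfold Ik
  refine Finset.sum_congr rfl fun l _ => ?_
  exact Nat.floor_div_eq_div l p

/-- the symmetric count -/
lemma PAT_sym_card {k p : ℕ} (cls : Fin k → Fin p) :
    (PAT_sym cls).card = 2 * (PAT_ins cls).card + k := by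
  have h1 : (PAT_sym cls) = PAT_ins cls ∪ ((PAT_ins cls).image Prod.swap) ∪
      (univ : Finset (Fin k)).image (fun x => (x, x)) := by
    ext ⟨x, y⟩
    simp only [PAT_sym, PAT_ins, mem_filter, mem_univ, true_and, mem_union, mem_image, Prod.exists,
      Prod.swap_prod_mk, Prod.mk.injEq]
    constructor
    · intro h
      rcases lt_trichotomy x y with hxy | hxy | hxy
      · exact Or.inl (Or.inl ⟨hxy, h⟩)
      · exact Or.inr ⟨x, rfl, hxy⟩
      · exact Or.inl (Or.inr ⟨y, x, ⟨hxy, h.symm⟩, rfl, rfl⟩)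
    · rintro ((⟨_, h⟩ | ⟨a, b, ⟨_, h⟩, rfl, rfl⟩) | ⟨a, rfl, rfl⟩)
      · exact h
      · exact h.symm
      · rfl
  have h2 : Disjoint (PAT_ins cls) ((PAT_ins cls).image Prod.swap) := by
    rw [Finset.disjoint_left]
    rintro ⟨x, y⟩ hx hy
    simp only [PAT_ins, mem_filter, mem_univ, true_and, mem_image, Prod.exists,
      Prod.swap_prod_mk, Prod.mk.injEq] at hx hy
    obtain ⟨a, b, ⟨hab, _⟩, rfl, rfl⟩ := hy
    exact absurd hx.1 (not_lt.mpr hab.le)
  have h3 : Disjoint (PAT_ins cls ∪ ((PAT_ins cls).image Prod.swap))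
      ((univ : Finset (Fin k)).image (fun x => (x, x))) := by
    rw [Finset.disjoint_left]
    rintro ⟨x, y⟩ hx hy
    simp only [PAT_ins, mem_filter, mem_univ, true_and, mem_image, Prod.exists, mem_union,
      Prod.swap_prod_mk, Prod.mk.injEq] at hx hy
    obtain ⟨c, rfl, rfl⟩ := hy
    rcases hx with ⟨h, _⟩ | ⟨a, b, ⟨hab, _⟩, rfl, rfl⟩
    · exact lt_irrefl _ h
    · exact lt_irrefl _ hab
  rw [h1, card_union_of_disjoint h3, card_union_of_disjoint h2,
    Finset.card_image_of_injective _ Prod.swap_injective,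
    Finset.card_image_of_injective _ (fun x y h => by simpa using h), card_univ, Fintype.card_fin]
  ring

lemma PAT_sym_sum {k p : ℕ} (cls : Fin k → Fin p) :
    (PAT_sym cls).card = ∑ i : Fin p, ((univ.filter fun x => cls x = i).card) ^ 2 := by
  rw [Finset.card_eq_sum_card_fiberwise (f := fun q : Fin k × Fin k => cls q.1)
    (t := (univ : Finset (Fin p))) (fun _ _ => by simp)]
  refine Finset.sum_congr rfl fun i _ => ?_
  rw [sq, ← Finset.card_product]
  congr 1
  ext ⟨x, y⟩
  simp only [PAT_sym, mem_filter, mem_univ, true_and, mem_product]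
  constructor
  · rintro ⟨h1, h2⟩; exact ⟨h2, h1 ▸ h2⟩
  · rintro ⟨h1, h2⟩; exact ⟨h1.trans h2.symm, h1⟩

/-- every assignment of `k` vertices to `p` classes has at least `I_k(p)` inside pairs -/
theorem inside_ge (k p : ℕ) (hp : 1 ≤ p) (cls : Fin k → Fin p) :
    Ik k (p : ℝ) ≤ ((univ : Finset (Fin k × Fin k)).filter fun q =>
      q.1 < q.2 ∧ cls q.1 = cls q.2).card := by
  change _ ≤ (PAT_ins cls).card
  rw [PAT_Ik]
  have hk := Nat.div_add_mod k p
  have h1 := PAT_sum_div (p := p) hp (k / p) (k % p) (Nat.mod_lt _ hp).le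
  rw [hk] at h1
  rw [h1]
  have h2 := PAT_sym_card cls
  rw [PAT_sym_sum] at h2
  have h3 : ∑ i : Fin p, (univ.filter fun x => cls x = i).card = k := by
    have := Finset.card_eq_sum_card_fiberwise (s := (univ : Finset (Fin k))) (f := cls)
      (t := (univ : Finset (Fin p))) (fun _ _ => by simp)
    rw [← this, card_univ, Fintype.card_fin]
  set q := k / p
  set t := k % p
  set m : Fin p → ℤ := fun i => ((univ.filter fun x => cls x = i).card : ℤ) with hm
  have h2' : ∑ i : Fin p, m i ^ 2 = 2 * ((PAT_ins cls).card : ℤ) + k := by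
    simp only [hm]; exact_mod_cast h2
  have h3' : ∑ i : Fin p, m i = k := by
    simp only [hm]; exact_mod_cast h3
  have h4 : ∑ i : Fin p, (2 * q * m i - q ^ 2 + m i - q : ℤ) ≤ ∑ i : Fin p, m i ^ 2 := by
    refine Finset.sum_le_sum fun i _ => ?_
    have h5 : ((m i - q : ℤ)) ≤ (m i - q) ^ 2 := Int.le_self_sq _
    nlinarith
  have h5 : ∑ i : Fin p, (2 * q * m i - q ^ 2 + m i - q : ℤ) = 2 * q * k - p * q ^ 2 + k - p * q := by
    rw [Finset.sum_sub_distrib, Finset.sum_add_distrib, Finset.sum_sub_distrib, ← Finset.mul_sum,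
      h3']
    simp
  have h6 : (2 * (q.choose 2) : ℤ) = q ^ 2 - q := by
    have := Nat.choose_two_right q
    have h7 : 2 ∣ q * (q - 1) := (Nat.even_mul_pred_self q).two_dvd
    have h8 : 2 * q.choose 2 = q * (q - 1) := by rw [this]; exact Nat.mul_div_cancel' h7
    rcases Nat.eq_zero_or_pos q with h0 | h0
    · simp [h0]
    · have h9 : ((q - 1 : ℕ) : ℤ) = q - 1 := by push_cast [h0]; ring
      have h10 : ((2 * q.choose 2 : ℕ) : ℤ) = ((q * (q - 1) : ℕ) : ℤ) := by rw [h8]
      push_cast [h9] at h10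
      rw [h10]; ring
  have h7 : (k : ℤ) = p * q + t := by exact_mod_cast hk.symm
  have h8 : (2 * (p * q.choose 2 + q * t : ℕ) : ℤ) ≤ 2 * ((PAT_ins cls).card : ℤ) := by
    push_cast
    have : (2 * (p * (q.choose 2 : ℤ) + q * t)) = p * (2 * (q.choose 2 : ℤ)) + 2 * (q * t) := by ring
    rw [this, h6]
    rw [h5, h2'] at h4
    rw [h7] at h4
    nlinarith
  have h9 : (p * q.choose 2 + q * t : ℕ) ≤ (PAT_ins cls).card := by
    have : ((p * q.choose 2 + q * t : ℕ) : ℤ) ≤ ((PAT_ins cls).card : ℤ) := by linarith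
    exact_mod_cast this
  exact h9

/-- the number of pairs -/
lemma PAT_pairs (k : ℕ) :
    ((univ : Finset (Fin k × Fin k)).filter fun q => q.1 < q.2).card = k.choose 2 := by
  have h := PAT_sym_card (k := k) (p := 1) (fun _ => 0)
  have h1 : (PAT_ins (k := k) (p := 1) (fun _ => 0)) =
      (univ : Finset (Fin k × Fin k)).filter fun q => q.1 < q.2 := by
    ext q; simp [PAT_ins]
  have h2 : (PAT_sym (k := k) (p := 1) (fun _ => 0)).card = k ^ 2 := by
    have : (PAT_sym (k := k) (p := 1) (fun _ => 0)) = univ := by ext q; simp [PAT_sym]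
    rw [this, card_univ, Fintype.card_prod, Fintype.card_fin, sq]
  rw [h1, h2] at h
  rw [Nat.choose_two_right]
  symm
  apply Nat.div_eq_of_eq_mul_left (by norm_num)
  rcases Nat.eq_zero_or_pos k with h0 | h0
  · subst h0; simp
  · obtain ⟨m, rfl⟩ : ∃ m, k = m + 1 := ⟨k - 1, by omega⟩
    simp only [Nat.add_sub_cancel]
    nlinarith

/-- exactly pure loop structures are admissible -/
theorem pure_adm {k s r d : ℕ} {g : ℝ} (H : Par k s r d g) {p a : ℕ} (hS : LShape k d r g p a)
    {n : ℕ} (φ : CG (Fin n) r) (hdiag : ∀ v, φ s(v, v) = none) (Q : Fin n → Fin p)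
    (A : Finset (Fin r)) (hA : A.card = a) (hP : Pure φ Q A) : Adm k s φ := by
  intro w hw
  obtain ⟨ha2, hp1, hpk, hI, _, _⟩ := hS
  set cross : Finset (Fin k × Fin k) :=
    univ.filter fun q => q.1 < q.2 ∧ Q (w q.1) ≠ Q (w q.2) with hcross
  have hin := inside_ge k p hp1 (fun x => Q (w x))
  rw [hI] at hin
  have hsplit : ((univ : Finset (Fin k × Fin k)).filter fun q => q.1 < q.2).card =
      ((univ : Finset (Fin k × Fin k)).filter fun q => q.1 < q.2 ∧ Q (w q.1) = Q (w q.2)).card +
        cross.card := by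
    rw [hcross, ← Finset.card_union_of_disjoint]
    · congr 1
      ext q
      simp only [mem_filter, mem_univ, true_and, mem_union]
      tauto
    · rw [Finset.disjoint_left]
      intro q h1 h2
      simp only [mem_filter, mem_univ, true_and] at h1 h2
      exact h2.2 h1.2
  rw [PAT_pairs] at hsplit
  have hsub : tupCols φ w ⊆ A ∪ cross.image (fun q => (φ s(w q.1, w q.2)).getD (⟨0, by
      have := H.hs; have := H.hsr; omega⟩)) := by
    intro c hc
    simp only [tupCols, mem_filter, mem_univ, true_and] at hc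
    obtain ⟨i, j, hij, hc⟩ := hc
    rw [mem_union]
    by_cases hQ : Q (w i) = Q (w j)
    · left
      refine hP (w i) (w j) ?_ hQ c hc
      intro h
      rw [h, hdiag] at hc
      exact absurd hc (by simp)
    · right
      refine mem_image.mpr ⟨(i, j), by simp [hcross, hij, hQ], ?_⟩
      simp [hc]
  have h1 := (card_le_card hsub).trans (card_union_le _ _)
  have h2 := h1.trans (Nat.add_le_add_left card_image_le _)
  rw [hA] at h2
  have h3 := H.hsd
  omega

/-- a function onto a small set -/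
lemma PAT_onto {α β : Type} [DecidableEq α] [DecidableEq β] (I : Finset α) (T : Finset β)
    (hne : T.Nonempty) (h : T.card ≤ I.card) : ∃ f : α → β, (∀ x, f x ∈ T) ∧ T ⊆ I.image f := by
  obtain ⟨t0, ht0⟩ := hne
  have hc : Fintype.card T ≤ Fintype.card I := by simpa using h
  obtain ⟨e⟩ := Function.Embedding.nonempty_of_card_le hc
  classical
  refine ⟨fun x => if hx : ∃ t : T, ((e t : I) : α) = x then (hx.choose : β) else t0, ?_, ?_⟩
  · intro x
    dsimp only
    split_ifs with hx
    · exact hx.choose.2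
    · exact ht0
  · intro t ht
    refine mem_image.mpr ⟨(e ⟨t, ht⟩ : I), (e ⟨t, ht⟩).2, ?_⟩
    have hx : ∃ t' : T, ((e t' : I) : α) = ((e ⟨t, ht⟩ : I) : α) := ⟨⟨t, ht⟩, rfl⟩
    rw [dif_pos hx]
    have h1 : hx.choose = (⟨t, ht⟩ : T) := e.injective (Subtype.ext hx.choose_spec)
    rw [h1]

/-- number of inside pairs of the pattern `x mod p` -/
lemma PAT_mod_card (k p : ℕ) (hp : 0 < p) :
    (PAT_ins (k := k) (fun x => (⟨(x : ℕ) % p, Nat.mod_lt _ hp⟩ : Fin p))).card =
      ∑ l ∈ range k, l / p := by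
  rw [Finset.card_eq_sum_card_fiberwise (f := fun q : Fin k × Fin k => q.2)
    (t := (univ : Finset (Fin k))) (fun _ _ => by simp), ← Fin.sum_univ_eq_sum_range]
  refine Finset.sum_congr rfl fun y _ => ?_
  have h1 : (y : ℕ) / p = ((range (y : ℕ)).filter fun x => x % p = (y : ℕ) % p).card := by
    have h2 := Nat.count_modEq_card (y : ℕ) hp (y : ℕ)
    rw [if_neg (lt_irrefl _), add_zero, Nat.count_eq_card_filter_range] at h2
    rw [← h2]
    rfl
  rw [h1]
  refine Finset.card_bij (fun q _ => (q.1 : ℕ)) ?_ ?_ ?_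
  · rintro ⟨a, b⟩ h
    simp only [PAT_ins, mem_filter, mem_univ, true_and, Fin.mk.injEq] at h
    obtain ⟨⟨hab, h3⟩, rfl⟩ := h
    simp only [mem_filter, mem_range]
    exact ⟨hab, h3⟩
  · rintro ⟨a, b⟩ h ⟨a', b'⟩ h' hh
    simp only [PAT_ins, mem_filter, mem_univ, true_and, Fin.mk.injEq] at h h'
    obtain ⟨_, rfl⟩ := h
    obtain ⟨_, rfl⟩ := h'
    simp only [Prod.mk.injEq, and_true]
    exact Fin.ext hh
  · intro x hx
    simp only [mem_filter, mem_range] at hx
    refine ⟨(⟨x, hx.1.trans y.2⟩, y), ?_, rfl⟩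
    simp only [PAT_ins, mem_filter, mem_univ, true_and, Fin.mk.injEq, and_true]
    exact ⟨hx.1, hx.2⟩

/-- balanced pattern -/
lemma PAT_balanced {k p : ℕ} (hk : 2 ≤ k) (hp : 1 ≤ p) (hpk : p < k) (i : Fin p) :
    ∃ cls : Fin k → Fin p, (∀ x : Fin k, (x : ℕ) < 2 → cls x = i) ∧
      (PAT_ins cls).card = Ik k (p : ℝ) := by
  have hp0 : 0 < p := hp
  set m : Fin k → Fin p := fun x => (⟨(x : ℕ) % p, Nat.mod_lt _ hp0⟩ : Fin p) with hm
  set σ : Equiv.Perm (Fin k) := Equiv.swap ⟨1, by omega⟩ ⟨p, hpk⟩ with hσ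
  set τ : Equiv.Perm (Fin p) := Equiv.swap ⟨0, hp0⟩ i with hτ
  refine ⟨fun x => τ (m (σ x)), ?_, ?_⟩
  · intro x hx
    have h1 : m (σ x) = ⟨0, hp0⟩ := by
      rcases Nat.lt_or_ge (x : ℕ) 1 with h | h
      · have hx0 : x = ⟨0, by omega⟩ := Fin.ext (by simp; omega)
        have h2 : σ x = x := by
          rw [hσ]
          apply Equiv.swap_apply_of_ne_of_ne
          · rw [hx0]; simp
          · rw [hx0]; intro h; rw [Fin.mk.injEq] at h; omega
        rw [h2, hx0]; simp [hm]
      · have hx1 : x = ⟨1, by omega⟩ := Fin.ext (by simp; omega)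
        have h2 : σ x = ⟨p, hpk⟩ := by rw [hσ, hx1]; exact Equiv.swap_apply_left _ _
        rw [h2]; simp [hm]
    change τ (m (σ x)) = i
    rw [h1, hτ]
    exact Equiv.swap_apply_left _ _
  · have h1 : (PAT_sym (fun x => τ (m (σ x)))).card = (PAT_sym m).card := by
      refine Finset.card_bij (fun q _ => (σ q.1, σ q.2)) ?_ ?_ ?_
      · rintro ⟨a, b⟩ h
        simp only [PAT_sym, mem_filter, mem_univ, true_and] at h ⊢
        exact τ.injective h
      · rintro ⟨a, b⟩ _ ⟨a', b'⟩ _ h
        simp only [Prod.mk.injEq] at h ⊢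
        exact ⟨σ.injective h.1, σ.injective h.2⟩
      · rintro ⟨a, b⟩ h
        refine ⟨(σ.symm a, σ.symm b), ?_, by simp⟩
        simp only [PAT_sym, mem_filter, mem_univ, true_and, Equiv.apply_symm_apply] at h ⊢
        rw [h]
    have h2 : (PAT_ins m).card = Ik k (p : ℝ) := by
      rw [hm, PAT_mod_card k p hp0, ← PAT_Ik]
    rw [PAT_sym_card, PAT_sym_card, h2] at h1
    omega

/-- colours for a pattern -/
lemma PAT_rb {k s r d p a : ℕ} (hsd : s + d = k.choose 2 + 1) (hsr : s ≤ r)
    (A : Finset (Fin r)) (hA : A.card = a) (c : Fin r) (hc : c ∉ A)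
    (cls : Fin k → Fin p) (hk : 2 ≤ k) (h01 : ∀ x y : Fin k, (x : ℕ) < 2 → (y : ℕ) < 2 → cls x = cls y)
    (hI : (PAT_ins cls).card ≤ a + d) (hI2 : a + 1 ≤ (PAT_ins cls).card)
    (ha : a = 0 → (PAT_ins cls).card = 1) :
    RbL s (fun x y : Fin k => if (x : ℕ) = 0 ∧ (y : ℕ) = 1 then {c} else
        pureL A (cls x) (cls y)) := by
  classical
  set e01 : Fin k × Fin k := (⟨0, by omega⟩, ⟨1, by omega⟩) with he
  have hemem : e01 ∈ PAT_ins cls := by
    simp only [PAT_ins, mem_filter, mem_univ, true_and, he]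
    refine ⟨?_, h01 _ _ (by simp) (by simp)⟩
    rw [Fin.mk_lt_mk]; norm_num
  set I : Finset (Fin k × Fin k) := (PAT_ins cls).erase e01 with hIdef
  have hIc : I.card = (PAT_ins cls).card - 1 := card_erase_of_mem hemem
  set C : Finset (Fin k × Fin k) := univ.filter fun q => q.1 < q.2 ∧ cls q.1 ≠ cls q.2 with hC
  have hsplit : ((univ : Finset (Fin k × Fin k)).filter fun q => q.1 < q.2).card =
      (PAT_ins cls).card + C.card := by
    rw [hC, PAT_ins, ← Finset.card_union_of_disjoint]
    · congr 1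
      ext q
      simp only [mem_filter, mem_univ, true_and, mem_union]
      tauto
    · rw [Finset.disjoint_left]
      intro q h1 h2
      simp only [mem_filter, mem_univ, true_and] at h1 h2
      exact h2.2 h1.2
  rw [PAT_pairs] at hsplit
  -- colours outside
  have hcomp : s - 1 - a ≤ ((insert c A)ᶜ : Finset (Fin r)).card := by
    rw [card_compl, Fintype.card_fin, card_insert_of_notMem hc, hA]
    omega
  obtain ⟨T, hT, hTc⟩ := Finset.exists_subset_card_eq hcomp
  -- function on the cross pairs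
  obtain ⟨fC, hfC⟩ : ∃ f : Fin k × Fin k → Fin r, T ⊆ C.image f := by
    rcases T.eq_empty_or_nonempty with h0 | h0
    · exact ⟨fun _ => c, by rw [h0]; exact empty_subset _⟩
    · obtain ⟨f, _, hf⟩ := PAT_onto C T h0 (by rw [hTc]; omega)
      exact ⟨f, hf⟩
  -- function on the inside pairs
  obtain ⟨fI, hfI, hfI'⟩ : ∃ f : Fin k × Fin k → Fin r, (∀ q ∈ I, f q ∈ A) ∧ A ⊆ I.image f := by
    rcases A.eq_empty_or_nonempty with h0 | h0
    · have ha0 : a = 0 := by rw [← hA, h0, card_empty]
      have hI0 : I = ∅ := by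
        rw [← card_eq_zero, hIc, ha ha0]
      refine ⟨fun _ => c, ?_, ?_⟩
      · rw [hI0]; intro q hq; exact absurd hq (notMem_empty _)
      · rw [h0]; exact empty_subset _
    · obtain ⟨f, hf1, hf2⟩ := PAT_onto I A h0 (by rw [hIc, hA]; omega)
      exact ⟨f, fun q _ => hf1 q, hf2⟩
  refine ⟨fun x y => if (x : ℕ) = 0 ∧ (y : ℕ) = 1 then c else
    if cls x = cls y then fI (x, y) else fC (x, y), ?_, ?_⟩
  · intro x y hxy
    by_cases h : (x : ℕ) = 0 ∧ (y : ℕ) = 1
    · simp [h]
    · simp only [h, if_false]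
      by_cases h2 : cls x = cls y
      · simp only [h2, if_true, pureL]
        apply hfI
        rw [hIdef, mem_erase]
        refine ⟨?_, by simp [PAT_ins, hxy, h2]⟩
        intro h3
        apply h
        rw [he, Prod.mk.injEq] at h3
        exact ⟨by rw [h3.1], by rw [h3.2]⟩
      · simp [h2, pureL]
  · have hsub : insert c (A ∪ T) ⊆ univ.filter fun col : Fin r => ∃ i j : Fin k, i < j ∧
        (if (i : ℕ) = 0 ∧ (j : ℕ) = 1 then c else
          if cls i = cls j then fI (i, j) else fC (i, j)) = col := by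
      intro col hcol
      rw [mem_filter]
      refine ⟨mem_univ _, ?_⟩
      rw [mem_insert, mem_union] at hcol
      rcases hcol with rfl | hcol | hcol
      · exact ⟨⟨0, by omega⟩, ⟨1, by omega⟩, by rw [Fin.mk_lt_mk]; norm_num, by simp⟩
      · obtain ⟨q, hq, hq2⟩ := mem_image.mp (hfI' hcol)
        rw [hIdef, mem_erase] at hq
        simp only [PAT_ins, mem_filter, mem_univ, true_and] at hq
        refine ⟨q.1, q.2, hq.2.1, ?_⟩
        have hne : ¬ (((q.1 : Fin k) : ℕ) = 0 ∧ ((q.2 : Fin k) : ℕ) = 1) := by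
          intro h3
          apply hq.1
          rw [he]
          exact Prod.ext (Fin.ext h3.1) (Fin.ext h3.2)
        rw [if_neg hne, if_pos hq.2.2]
        exact hq2
      · obtain ⟨q, hq, hq2⟩ := mem_image.mp (hfC hcol)
        simp only [hC, mem_filter, mem_univ, true_and] at hq
        refine ⟨q.1, q.2, hq.1, ?_⟩
        have hne : ¬ (((q.1 : Fin k) : ℕ) = 0 ∧ ((q.2 : Fin k) : ℕ) = 1) := by
          intro h3
          exact hq.2 (h01 _ _ (by omega) (by omega))
        rw [if_neg hne, if_neg hq.2]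
        exact hq2
    have hdisj : Disjoint A T := by
      rw [Finset.disjoint_left]
      intro x hx hx'
      have := hT hx'
      rw [mem_compl, mem_insert] at this
      exact this (Or.inr hx)
    have hcT : c ∉ A ∪ T := by
      rw [mem_union]
      rintro (h | h)
      · exact hc h
      · have := hT h
        rw [mem_compl, mem_insert] at this
        exact this (Or.inl rfl)
    have hcard : (insert c (A ∪ T)).card = 1 + a + (s - 1 - a) := by
      rw [card_insert_of_notMem hcT, card_union_of_disjoint hdisj, hA, hTc]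
      ring
    have h4 := card_le_card hsub
    rw [hcard] at h4
    refine le_trans ?_ h4
    omega

/-- the pure template with one inside pair coloured outside the palette is rainbow -/
theorem rain_edge {k s r d : ℕ} {g : ℝ} (H : Par k s r d g) {p a : ℕ}
    (hS : Shape k d r g p a) (A : Finset (Fin r)) (hA : A.card = a) (c : Fin r) (hc : c ∉ A)
    (i : Fin p) :
    ∃ cls : Fin k → Fin p, (∀ x : Fin k, (x : ℕ) < 2 → cls x = i) ∧
      (a = 0 → ∀ x : Fin k, 2 ≤ (x : ℕ) → cls x ≠ i) ∧
      RbL s (fun x y : Fin k => if (x : ℕ) = 0 ∧ (y : ℕ) = 1 then {c} else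
        pureL A (cls x) (cls y)) := by
  have hk := H.hk
  have hp1 : 1 ≤ p := by
    have := i.2; omega
  have hpk : p < k := by
    rcases hS with h | h
    · have := h.2.2.1; omega
    · have := h.2.1; omega
  obtain ⟨cls, h1, h2⟩ := PAT_balanced (by omega : 2 ≤ k) hp1 hpk i
  have h01 : ∀ x y : Fin k, (x : ℕ) < 2 → (y : ℕ) < 2 → cls x = cls y := fun x y hx hy => by
    rw [h1 x hx, h1 y hy]
  rcases hS with hL | hT
  · refine ⟨cls, h1, fun h0 => absurd h0 (by have := hL.1; omega), ?_⟩
    refine PAT_rb H.hsd H.hsr A hA c hc cls (by omega) h01 ?_ ?_ ?_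
    · rw [h2, hL.2.2.2.1]
    · rw [h2, hL.2.2.2.1]; have := H.hd; omega
    · intro h0; exact absurd h0 (by have := hL.1; omega)
  · obtain ⟨ha0, hpk1, _⟩ := hT
    have hI1 : Ik k (p : ℝ) = 1 := by
      rw [PAT_Ik]
      have hkp : k = p * 1 + 1 := by omega
      rw [hkp, PAT_sum_div (by omega) 1 1 (by omega)]
      simp
    rw [hI1] at h2
    refine ⟨cls, h1, ?_, ?_⟩
    · intro _ x hx hxi
      have hx0 : ((⟨0, by omega⟩ : Fin k), (⟨1, by omega⟩ : Fin k)) ∈ PAT_ins cls := by
        simp only [PAT_ins, mem_filter, mem_univ, true_and]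
        exact ⟨by rw [Fin.mk_lt_mk]; norm_num, h01 _ _ (by simp) (by simp)⟩
      have hx1 : ((⟨0, by omega⟩ : Fin k), x) ∈ PAT_ins cls := by
        simp only [PAT_ins, mem_filter, mem_univ, true_and]
        refine ⟨?_, ?_⟩
        · rw [Fin.lt_def]; simp; omega
        · rw [h1 _ (by simp), hxi]
      obtain ⟨y, hy⟩ := card_eq_one.mp h2
      rw [hy, mem_singleton] at hx0 hx1
      have := hx0.trans hx1.symm
      rw [Prod.mk.injEq] at this
      have h3 := congrArg Fin.val this.2
      simp at h3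
      omega
    · refine PAT_rb H.hsd H.hsr A hA c hc cls (by omega) h01 ?_ ?_ ?_
      · rw [h2]; have := H.hd; omega
      · rw [h2]; omega
      · intro _; exact h2

end Pool.ER
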