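import Mathlib
import Pool.Agent.ER.Defs
import Pool.Agent.ER.PAT

set_option autoImplicit false

/-!
# LOW: the lower bound for the number of colourings
-/

open Finset

namespace Pool.ER

/-- the pattern `x mod p` on `Fin n` -/
def LOW_Q (n p : ℕ) (hp : 0 < p) : Fin n → Fin p := fun x => ⟨(x : ℕ) % p, Nat.mod_lt _ hp⟩

lemma LOW_class (n p : ℕ) (hp : 0 < p) (i : Fin p) :
    ((univ.filter fun x => LOW_Q n p hp x = i).card : ℝ) ≤ n / p + 1 := by
  have h1 : (univ.filter fun x => LOW_Q n p hp x = i).card ≤ n / p + 1 := by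
    have h2 := Nat.count_modEq_card n hp (i : ℕ)
    rw [Nat.count_eq_card_filter_range] at h2
    have h3 : (univ.filter fun x => LOW_Q n p hp x = i).card ≤
        ((range n).filter fun x => x ≡ (i : ℕ) [MOD p]).card := by
      refine Finset.card_le_card_of_injOn (fun x => (x : ℕ)) ?_ (fun x _ y _ h => Fin.ext h)
      intro x hx
      have hx' : LOW_Q n p hp x = i := (mem_filter.mp (mem_coe.mp hx)).2
      refine mem_coe.mpr (mem_filter.mpr ⟨mem_range.mpr x.2, ?_⟩)
      have h4 : (x : ℕ) % p = i := congrArg Fin.val hx'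
      unfold Nat.ModEq
      rw [h4, Nat.mod_eq_of_lt i.2]
    refine h3.trans ?_
    rw [h2]
    split_ifs <;> omega
  have h5 : ((univ.filter fun x => LOW_Q n p hp x = i).card : ℝ) ≤ ((n / p + 1 : ℕ) : ℝ) := by
    exact_mod_cast h1
  refine h5.trans ?_
  push_cast
  have := Nat.cast_div_le (α := ℝ) (m := n) (n := p)
  linarith

lemma LOW_ins (n p : ℕ) (hp : 0 < p) :
    2 * ((PAT_ins (LOW_Q n p hp)).card : ℝ) ≤ (n : ℝ) ^ 2 / p := by
  have h1 := PAT_sym_card (LOW_Q n p hp)
  have h2 : ((PAT_sym (LOW_Q n p hp)).card : ℝ) ≤ n * (n / p + 1) := by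
    have h3 : (PAT_sym (LOW_Q n p hp)).card =
        ∑ u : Fin n, (univ.filter fun x => LOW_Q n p hp x = LOW_Q n p hp u).card := by
      rw [Finset.card_eq_sum_card_fiberwise (f := fun q : Fin n × Fin n => q.2)
        (t := (univ : Finset (Fin n))) (fun _ _ => by simp)]
      refine Finset.sum_congr rfl fun u _ => ?_
      refine Finset.card_bij (fun q _ => q.1) ?_ ?_ ?_
      · rintro ⟨a, b⟩ h
        simp only [PAT_sym, mem_filter, mem_univ, true_and] at h ⊢
        rw [← h.2]; exact h.1
      · rintro ⟨a, b⟩ h ⟨a', b'⟩ h' hh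
        simp only [PAT_sym, mem_filter, mem_univ, true_and] at h h' hh
        rw [hh, h.2, h'.2]
      · intro x hx
        simp only [mem_filter, mem_univ, true_and] at hx
        exact ⟨(x, u), by simp [PAT_sym, hx], rfl⟩
    rw [h3]
    push_cast
    calc ∑ u : Fin n, ((univ.filter fun x => LOW_Q n p hp x = LOW_Q n p hp u).card : ℝ)
        ≤ ∑ _u : Fin n, ((n : ℝ) / p + 1) := Finset.sum_le_sum fun u _ => LOW_class n p hp _
      _ = n * (n / p + 1) := by
          rw [Finset.sum_const, card_univ, Fintype.card_fin, nsmul_eq_mul]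
  have h4 : ((PAT_sym (LOW_Q n p hp)).card : ℝ) = 2 * ((PAT_ins (LOW_Q n p hp)).card : ℝ) + n := by
    rw [h1]; push_cast; ring
  have h5 : (n : ℝ) * (n / p + 1) = (n : ℝ) ^ 2 / p + n := by ring
  linarith

lemma LOW_pairs_real (n : ℕ) :
    (((univ : Finset (Fin n × Fin n)).filter fun q => q.1 < q.2).card : ℝ) =
      ((n : ℝ) ^ 2 - n) / 2 := by
  rw [PAT_pairs, Nat.cast_choose_two]
  ring

open Classical in
/-- product lower bound -/
lemma LOW_gen {k s r n p : ℕ} (hr : 2 ≤ r) (hp : 0 < p) (In : Finset (Option (Fin r)))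
    (hIn0 : In.Nonempty) (G : SimpleGraph (Fin n))
    (hcols : ∀ φ : CG (Fin n) r, (∀ v, φ s(v, v) = none) →
      (∀ u v, u ≠ v → LOW_Q n p hp u = LOW_Q n p hp v → φ s(u, v) ∈ In) →
      (∀ u v, LOW_Q n p hp u ≠ LOW_Q n p hp v → φ s(u, v) ≠ none) → φ ∈ cols k s r G)
    (b : ℝ) (hb : 0 ≤ b) (hIn : Real.logb r In.card = 1 - b) :
    ((n : ℝ) ^ 2 - n) / 2 - b * ((n : ℝ) ^ 2 / p / 2) ≤ lc k s r n := by
  have hr1 : (1 : ℝ) < r := by exact_mod_cast (by omega : 1 < r)
  set Q := LOW_Q n p hp with hQ
  set Ω : Sym2 (Fin n) → Finset (Option (Fin r)) := fun e =>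
    if e.IsDiag then {none} else if (e.map Q).IsDiag then In else univ.image some with hΩ
  have hsub : Fintype.piFinset Ω ⊆ cols k s r G := by
    intro φ hφ
    rw [Fintype.mem_piFinset] at hφ
    refine hcols φ ?_ ?_ ?_
    · intro v
      have := hφ s(v, v)
      simpa [hΩ] using this
    · intro u v huv h
      have := hφ s(u, v)
      simpa [hΩ, huv, h] using this
    · intro u v h
      have h1 := hφ s(u, v)
      have huv : u ≠ v := fun h' => h (by rw [h'])
      simp only [hΩ, Sym2.mk_isDiag_iff, huv, if_false, Sym2.map_mk, h] at h1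
      obtain ⟨c, _, hc⟩ := mem_image.mp h1
      rw [← hc]
      exact Option.some_ne_none c
  have hΩne : ∀ e, (Ω e).Nonempty := by
    intro e
    simp only [hΩ]
    split_ifs
    · exact singleton_nonempty _
    · exact hIn0
    · exact ⟨some ⟨0, by omega⟩, mem_image.mpr ⟨_, mem_univ _, rfl⟩⟩
  have hpos : ∀ e, (0 : ℝ) < (Ω e).card := fun e => by exact_mod_cast card_pos.mpr (hΩne e)
  have hcard : (∏ e, ((Ω e).card : ℝ)) ≤ cnum k s r n := by
    have h1 := card_le_card hsub
    rw [Fintype.card_piFinset] at h1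
    have h2 : (cols k s r G).card ≤ cnum k s r n :=
      Finset.le_sup (f := fun G : SimpleGraph (Fin n) => (cols k s r G).card) (mem_univ G)
    exact_mod_cast h1.trans h2
  have hlog : ∑ e, Real.logb r ((Ω e).card : ℝ) ≤ lc k s r n := by
    rw [← Real.logb_prod _ _ (fun e _ => (hpos e).ne')]
    exact Real.logb_le_logb_of_le hr1 (Finset.prod_pos fun e _ => hpos e) hcard
  refine le_trans ?_ hlog
  have h1 : ∑ e, Real.logb r ((Ω e).card : ℝ) =
      ∑ e ∈ (univ : Finset (Fin n)).sym2 with ¬ e.IsDiag, Real.logb r ((Ω e).card : ℝ) := by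
    rw [Finset.sym2_univ, Finset.sum_filter]
    refine Finset.sum_congr rfl fun e _ => ?_
    by_cases h : e.IsDiag
    · simp [hΩ, h]
    · simp [h]
  rw [h1, Finset.sum_sym2_filter_not_isDiag]
  have h2 : ((univ : Finset (Fin n)).offDiag.filter fun i : Fin n × Fin n => i.1 < i.2) =
      (univ : Finset (Fin n × Fin n)).filter fun q => q.1 < q.2 := by
    ext ⟨x, y⟩
    simp only [mem_filter, mem_offDiag, mem_univ, true_and, and_iff_right_iff_imp]
    intro h
    exact h.ne
  rw [h2]
  have h3 : ∀ q ∈ (univ : Finset (Fin n × Fin n)).filter (fun q => q.1 < q.2),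
      Real.logb r ((Ω s(q.1, q.2)).card : ℝ) = 1 - (if Q q.1 = Q q.2 then b else 0) := by
    intro q hq
    have hq' : q.1 ≠ q.2 := (mem_filter.mp hq).2.ne
    by_cases h : Q q.1 = Q q.2
    · simp only [hΩ, Sym2.mk_isDiag_iff, hq', if_false, Sym2.map_mk, h, if_true]
      exact hIn
    · simp only [hΩ, Sym2.mk_isDiag_iff, hq', if_false, Sym2.map_mk, h]
      rw [card_image_of_injective _ (Option.some_injective _), card_univ, Fintype.card_fin,
        Real.logb_self_eq_one hr1]
      ring
  rw [Finset.sum_congr rfl h3, Finset.sum_sub_distrib, Finset.sum_const, nsmul_eq_mul, mul_one,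
    LOW_pairs_real, ← Finset.sum_filter, Finset.sum_const, nsmul_eq_mul, Finset.filter_filter]
  have h4 := LOW_ins n p hp
  have h5 : ((univ : Finset (Fin n × Fin n)).filter fun q => q.1 < q.2 ∧ Q q.1 = Q q.2) =
      PAT_ins (LOW_Q n p hp) := rfl
  rw [h5]
  have h6 : ((PAT_ins (LOW_Q n p hp)).card : ℝ) * b ≤ b * ((n : ℝ) ^ 2 / p / 2) := by
    have h7 : ((PAT_ins (LOW_Q n p hp)).card : ℝ) ≤ (n : ℝ) ^ 2 / p / 2 := by linarith
    calc ((PAT_ins (LOW_Q n p hp)).card : ℝ) * b ≤ ((n : ℝ) ^ 2 / p / 2) * b :=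
          mul_le_mul_of_nonneg_right h7 hb
      _ = _ := by ring
  linarith

theorem lower_bound {k s r d : ℕ} {g : ℝ} (H : Par k s r d g) {p a : ℕ}
    (hS : Shape k d r g p a) :
    ∃ B : ℝ, ∀ n : ℕ, (1 - 1 / g) * (n : ℝ) ^ 2 / 2 - B * (n + 1) ≤ lc k s r n := by
  refine ⟨1 / 2, fun n => ?_⟩
  have hk := H.hk
  have hs := H.hs
  have hsr := H.hsr
  have hg0 : 0 < g := by
    have h1 := H.hg
    have h2 : (3 : ℝ) ≤ k := by exact_mod_cast hk
    linarith
  have hr2 : 2 ≤ r := by omega
  have hr1 : (1 : ℝ) < r := by exact_mod_cast (by omega : 1 < r)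
  have hlr : 0 < Real.log r := Real.log_pos hr1
  have key : ∀ b : ℝ, 0 < p → b = p / g → ((n : ℝ) ^ 2 - n) / 2 - b * ((n : ℝ) ^ 2 / p / 2) ≤ lc k s r n →
      (1 - 1 / g) * (n : ℝ) ^ 2 / 2 - 1 / 2 * (n + 1) ≤ lc k s r n := by
    intro b hp hb h
    refine le_trans ?_ h
    have hp' : (0 : ℝ) < p := by exact_mod_cast hp
    have h1 : b * ((n : ℝ) ^ 2 / p / 2) = 1 / g * (n : ℝ) ^ 2 / 2 := by
      rw [hb]; field_simp
    rw [h1]
    linarith
  rcases hS with hL | hT
  · have hL' := hL
    obtain ⟨ha2, hp1, hpk, hI, hgb, _⟩ := hL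
    have har : a ≤ r := by
      have h1 : Ik k (p : ℝ) ≤ k.choose 2 := by
        have h2 := inside_ge k p hp1 (fun _ => ⟨0, hp1⟩)
        refine h2.trans ?_
        rw [← PAT_pairs]
        refine card_le_card ?_
        intro q hq
        simp only [mem_filter, mem_univ, true_and] at hq ⊢
        exact hq.1
      have h3 := H.hsd
      have h4 := H.hd
      omega
    obtain ⟨A, _, hA⟩ := Finset.exists_subset_card_eq (s := (univ : Finset (Fin r)))
      (n := a) (by rw [card_univ, Fintype.card_fin]; exact har)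
    have hb : beta r a = p / g := by
      rw [eq_div_iff hg0.ne', mul_comm]; exact hgb
    refine key (beta r a) hp1 hb ?_
    have hAne : A.Nonempty := card_pos.mp (by omega)
    classical
    refine LOW_gen hr2 hp1 (A.image some) (hAne.image _) ⊤ ?_ (beta r a) ?_ ?_
    · intro φ h1 h2 h3
      simp only [cols, mem_filter, mem_univ, true_and]
      have hne : ∀ u v : Fin n, u ≠ v → φ s(u, v) ≠ none := by
        intro u v huv
        by_cases h : LOW_Q n p hp1 u = LOW_Q n p hp1 v
        · obtain ⟨c, _, hc⟩ := mem_image.mp (h2 u v huv h)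
          rw [← hc]; exact Option.some_ne_none c
        · exact h3 u v h
      refine ⟨?_, ?_⟩
      · intro e
        induction e using Sym2.ind with
        | _ u v =>
          rw [SimpleGraph.mem_edgeSet, SimpleGraph.top_adj]
          constructor
          · intro h huv
            rw [huv] at h
            exact h (h1 v)
          · intro huv
            exact hne u v huv
      · refine pure_adm H hL' φ h1 (LOW_Q n p hp1) A hA ?_
        intro u v huv hQ c hc
        obtain ⟨c', hc', h4⟩ := mem_image.mp (h2 u v huv hQ)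
        rw [hc] at h4
        rw [← Option.some_injective _ h4]
        exact hc'
    · rw [hb]; positivity
    · rw [card_image_of_injective _ (Option.some_injective _), hA]
      unfold beta Real.logb
      ring
  · obtain ⟨ha0, hpk, hgk⟩ := hT
    have hp0 : 0 < p := by omega
    have hp' : (p : ℝ) = (k : ℝ) - 1 := by
      rw [hpk, Nat.cast_sub (by omega)]; simp
    have hb : (1 : ℝ) = p / g := by
      rw [hgk, hp']
      rw [div_self]
      rw [← hgk]; exact hg0.ne'
    refine key 1 hp0 hb ?_
    classical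
    set Q := LOW_Q n p hp0 with hQ
    set G : SimpleGraph (Fin n) :=
      { Adj := fun u v => Q u ≠ Q v
        symm := ⟨fun u v h => Ne.symm h⟩
        loopless := ⟨fun u h => h rfl⟩ } with hG
    refine LOW_gen hr2 hp0 {none} (singleton_nonempty _) G ?_ 1 (by norm_num) ?_
    · intro φ h1 h2 h3
      simp only [cols, mem_filter, mem_univ, true_and]
      have hiff : ∀ u v : Fin n, φ s(u, v) ≠ none ↔ Q u ≠ Q v := by
        intro u v
        constructor
        · intro h h4
          by_cases huv : u = v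
          · rw [huv] at h; exact h (h1 v)
          · exact h (mem_singleton.mp (h2 u v huv h4))
        · exact h3 u v
      refine ⟨?_, ?_⟩
      · intro e
        induction e using Sym2.ind with
        | _ u v =>
          rw [SimpleGraph.mem_edgeSet]
          exact hiff u v
      · intro w hw
        exfalso
        have hinj : Function.Injective (fun i : Fin k => Q (w i)) := by
          intro i j hij
          by_contra hne
          rcases lt_or_gt_of_ne hne with h | h
          · exact (hiff _ _).mp (hw i j h) hij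
          · exact (hiff _ _).mp (hw j i h) hij.symm
        have := Fintype.card_le_of_injective _ hinj
        rw [Fintype.card_fin, Fintype.card_fin] at this
        omega
    · simp

end Pool.ER
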