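import Mathlib
import Pool.Agent.ER.Defs
import Pool.Agent.ER.CLO

set_option autoImplicit false

open Finset Filter

namespace Pool.ER

/-! Module LIST (helper39). -/

/-- counting extensions: lower bound -/
theorem LIST_fib {n k m : ℕ} (ι : Fin m ↪ Fin k) (B : Finset (Fin m → Fin n))
    (T : Fin k → Finset (Fin n)) (κ : ℝ) (hκ : 0 ≤ κ)
    (hT : ∀ b, b ∉ Set.range ι → κ * n ≤ (T b).card) (W : Finset (Fin k → Fin n))
    (hW : ∀ w : Fin k → Fin n, (w ∘ ι) ∈ B → (∀ b, b ∉ Set.range ι → w b ∈ T b) → w ∈ W) :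
    (B.card : ℝ) * (κ * n) ^ (k - m) ≤ W.card := by
  classical
  -- fibre
  have hfib : ∀ q ∈ B, (κ * n) ^ (k - m) ≤ ((W.filter fun w => w ∘ ι = q).card : ℝ) := by
    intro q hq
    let t : Fin k → Finset (Fin n) := fun b =>
      if h : ∃ i, ι i = b then {q h.choose} else T b
    have hsub : Fintype.piFinset t ⊆ W.filter fun w => w ∘ ι = q := by
      intro w hw
      rw [Fintype.mem_piFinset] at hw
      have h1 : w ∘ ι = q := by
        funext i
        have h2 := hw (ι i)
        have h3 : ∃ j, ι j = ι i := ⟨i, rfl⟩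
        simp only [t, dif_pos h3, Finset.mem_singleton] at h2
        have h4 : h3.choose = i := ι.injective h3.choose_spec
        rw [h4] at h2
        exact h2
      rw [Finset.mem_filter]
      refine ⟨hW w (by rw [h1]; exact hq) ?_, h1⟩
      intro b hb
      have h2 := hw b
      have h3 : ¬ ∃ j, ι j = b := fun ⟨j, hj⟩ => hb ⟨j, hj⟩
      simp only [t, dif_neg h3] at h2
      exact h2
    have h1 := card_le_card hsub
    rw [Fintype.card_piFinset] at h1
    have h2 : ((∏ b, (t b).card : ℕ) : ℝ) ≤ ((W.filter fun w => w ∘ ι = q).card : ℝ) := by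
      exact_mod_cast h1
    refine le_trans ?_ h2
    rw [Nat.cast_prod]
    have h3 : ∀ b, (if b ∈ univ.map ι then (1 : ℝ) else κ * n) ≤ ((t b).card : ℝ) := by
      intro b
      by_cases hb : ∃ i, ι i = b
      · have : b ∈ univ.map ι := by
          rw [Finset.mem_map]
          obtain ⟨i, hi⟩ := hb
          exact ⟨i, mem_univ _, hi⟩
        rw [if_pos this]
        simp only [t, dif_pos hb, card_singleton, Nat.cast_one, le_refl]
      · have : b ∉ univ.map ι := by
          rw [Finset.mem_map]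
          rintro ⟨i, _, hi⟩
          exact hb ⟨i, hi⟩
        rw [if_neg this]
        simp only [t, dif_neg hb]
        exact hT b fun ⟨i, hi⟩ => hb ⟨i, hi⟩
    refine le_trans (le_of_eq ?_) (Finset.prod_le_prod (fun b _ => ?_) fun b _ => h3 b)
    · rw [Finset.prod_ite, Finset.prod_const_one, one_mul, Finset.prod_const]
      congr 1
      have h4 : (univ.filter fun b => b ∉ univ.map ι) = (univ.map ι)ᶜ := by
        ext b; simp
      rw [h4, card_compl, card_map, card_univ, Fintype.card_fin, Fintype.card_fin]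
    · split_ifs
      · exact zero_le_one
      · positivity
  have h1 : ∑ q ∈ B, ((W.filter fun w => w ∘ ι = q).card : ℝ) ≤ W.card := by
    rw [← Nat.cast_sum, Finset.sum_card_fiberwise_eq_card_filter]
    exact_mod_cast card_le_card (Finset.filter_subset _ _)
  refine le_trans ?_ h1
  calc (B.card : ℝ) * (κ * n) ^ (k - m) = ∑ _q ∈ B, (κ * n) ^ (k - m) := by
        rw [Finset.sum_const, nsmul_eq_mul]
    _ ≤ _ := Finset.sum_le_sum hfib

/-- counting tuples with a prescribed pair: upper bound -/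
theorem LIST_pair {n k : ℕ} (i j : Fin k) (hij : i ≠ j) (SB : Finset (Fin n × Fin n)) :
    ((univ : Finset (Fin k → Fin n)).filter fun w => (w i, w j) ∈ SB).card
      = SB.card * n ^ (k - 2) := by
  classical
  have h1 : ((univ : Finset (Fin k → Fin n)).filter fun w => (w i, w j) ∈ SB).card
      = ∑ q ∈ SB, ((univ : Finset (Fin k → Fin n)).filter fun w => (w i, w j) = q).card := by
    rw [Finset.sum_card_fiberwise_eq_card_filter]
  rw [h1]
  have h2 : ∀ q ∈ SB, ((univ : Finset (Fin k → Fin n)).filter fun w => (w i, w j) = q).card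
      = n ^ (k - 2) := by
    intro q _
    have h3 : ((univ : Finset (Fin k → Fin n)).filter fun w => (w i, w j) = q)
        = Fintype.piFinset fun b => if b = i then {q.1} else if b = j then {q.2} else univ := by
      ext w
      rw [Finset.mem_filter, Fintype.mem_piFinset]
      constructor
      · rintro ⟨_, h⟩ b
        have ha := congrArg Prod.fst h
        have hb := congrArg Prod.snd h
        simp only at ha hb
        split_ifs with h4 h5
        · rw [h4, ha]; simp
        · rw [h5, hb]; simp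
        · simp
      · intro h
        refine ⟨mem_univ _, ?_⟩
        have ha := h i
        have hb := h j
        rw [if_pos rfl, Finset.mem_singleton] at ha
        rw [if_neg hij.symm, if_pos rfl, Finset.mem_singleton] at hb
        rw [ha, hb]
    rw [h3, Fintype.card_piFinset]
    have h4 : ∀ b : Fin k, (if b = i then ({q.1} : Finset (Fin n)) else if b = j then {q.2}
        else univ).card = if b ∈ ({i, j} : Finset (Fin k)) then 1 else n := by
      intro b
      by_cases hb : b = i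
      · simp [hb]
      · by_cases hb' : b = j
        · have : j ≠ i := hij.symm
          simp [hb', this]
        · simp [hb, hb']
    simp only [h4]
    rw [Finset.prod_ite, Finset.prod_const_one, one_mul, Finset.prod_const]
    congr 1
    have h5 : (univ.filter fun b => b ∉ ({i, j} : Finset (Fin k))) = ({i, j} : Finset (Fin k))ᶜ := by
      ext b; simp
    rw [h5, card_compl, Fintype.card_fin, card_pair hij]
  rw [Finset.sum_congr rfl h2, Finset.sum_const, smul_eq_mul]

/-- the bad tuples: rainbow or containing a bad pair -/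
theorem LIST_bad {n k s r : ℕ} (hk : 2 ≤ k) (L : LS (Fin n) r) (SB : Finset (Fin n × Fin n))
    {η : ℝ} (hR : (nRb k s L : ℝ) ≤ η * (n : ℝ) ^ k) (hSB : (SB.card : ℝ) ≤ η * (n : ℝ) ^ 2)
    (W : Finset (Fin k → Fin n))
    (hW : ∀ w ∈ W, Rb s L w ∨ ∃ i j : Fin k, i < j ∧ (w i, w j) ∈ SB) :
    (W.card : ℝ) ≤ (k ^ 2 + 1) * η * (n : ℝ) ^ k := by
  classical
  set R : Finset (Fin k → Fin n) := univ.filter fun w => Rb s L w with hRdef
  set P : Finset (Fin k × Fin k) := univ.filter fun q => q.1 < q.2 with hP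
  have hsub : W ⊆ R ∪ P.biUnion fun q => univ.filter fun w : Fin k → Fin n => (w q.1, w q.2) ∈ SB := by
    intro w hw
    rw [Finset.mem_union]
    rcases hW w hw with h | ⟨i, j, hij, h⟩
    · left
      rw [hRdef, Finset.mem_filter]
      exact ⟨mem_univ _, h⟩
    · right
      rw [Finset.mem_biUnion]
      refine ⟨(i, j), ?_, ?_⟩
      · rw [hP, Finset.mem_filter]; exact ⟨mem_univ _, hij⟩
      · rw [Finset.mem_filter]; exact ⟨mem_univ _, h⟩
  have h1 := (card_le_card hsub).trans (card_union_le _ _)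
  have h2 : (P.biUnion fun q => univ.filter fun w : Fin k → Fin n => (w q.1, w q.2) ∈ SB).card
      ≤ k ^ 2 * (SB.card * n ^ (k - 2)) := by
    refine card_biUnion_le.trans ?_
    calc ∑ q ∈ P, (univ.filter fun w : Fin k → Fin n => (w q.1, w q.2) ∈ SB).card
        = ∑ q ∈ P, SB.card * n ^ (k - 2) := by
          apply Finset.sum_congr rfl
          intro q hq
          rw [hP, Finset.mem_filter] at hq
          exact LIST_pair q.1 q.2 hq.2.ne SB
      _ = P.card * (SB.card * n ^ (k - 2)) := by rw [Finset.sum_const, smul_eq_mul]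
      _ ≤ k ^ 2 * (SB.card * n ^ (k - 2)) := by
          apply Nat.mul_le_mul_right
          have : P.card ≤ (univ : Finset (Fin k × Fin k)).card := card_le_card (subset_univ _)
          rw [card_univ, Fintype.card_prod, Fintype.card_fin] at this
          rw [sq]; exact this
  have h3 : R.card = nRb k s L := by
    unfold nRb
    rw [hRdef]
  have h4 : (W.card : ℝ) ≤ nRb k s L + k ^ 2 * (SB.card * (n : ℝ) ^ (k - 2)) := by
    have : W.card ≤ nRb k s L + k ^ 2 * (SB.card * n ^ (k - 2)) := by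
      rw [← h3]; omega
    exact_mod_cast this
  have h5 : (SB.card : ℝ) * (n : ℝ) ^ (k - 2) ≤ η * (n : ℝ) ^ k := by
    calc (SB.card : ℝ) * (n : ℝ) ^ (k - 2) ≤ η * (n : ℝ) ^ 2 * (n : ℝ) ^ (k - 2) :=
          mul_le_mul_of_nonneg_right hSB (by positivity)
      _ = η * (n : ℝ) ^ k := by
          rw [mul_assoc, ← pow_add]
          congr 2
          omega
  have hk0 : (0 : ℝ) ≤ (k : ℝ) ^ 2 := by positivity
  nlinarith

/-- combination of the two counting lemmas -/
theorem LIST_core {n k s r m : ℕ} (hk : 2 ≤ k) (hn : 0 < n) (hm : m ≤ k) (L : LS (Fin n) r)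
    (SB : Finset (Fin n × Fin n)) {η : ℝ}
    (hR : (nRb k s L : ℝ) ≤ η * (n : ℝ) ^ k) (hSB : (SB.card : ℝ) ≤ η * (n : ℝ) ^ 2)
    (ι : Fin m ↪ Fin k) (B : Finset (Fin m → Fin n)) (T : Fin k → Finset (Fin n))
    (hT : ∀ b, 1 / (2 * k) * (n : ℝ) ≤ (T b).card)
    (hB : ∀ w : Fin k → Fin n, (w ∘ ι) ∈ B → (∀ b, b ∉ Set.range ι → w b ∈ T b) →
      Rb s L w ∨ ∃ i j : Fin k, i < j ∧ (w i, w j) ∈ SB) :
    (B.card : ℝ) ≤ (k ^ 2 + 1) * (2 * k) ^ k * η * (n : ℝ) ^ m := by
  classical
  have hk0 : (0 : ℝ) < k := by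
    have : 0 < k := by omega
    exact_mod_cast this
  have hn0 : (0 : ℝ) < n := by exact_mod_cast hn
  set W : Finset (Fin k → Fin n) := univ.filter fun w =>
    (w ∘ ι) ∈ B ∧ ∀ b, b ∉ Set.range ι → w b ∈ T b with hW
  have h1 := LIST_fib ι B T (1 / (2 * k)) (by positivity) (fun b _ => hT b) W (by
    intro w hw1 hw2
    rw [hW, Finset.mem_filter]
    exact ⟨mem_univ _, hw1, hw2⟩)
  have h2 := LIST_bad hk L SB hR hSB W (by
    intro w hw
    rw [hW, Finset.mem_filter] at hw
    exact hB w hw.2.1 hw.2.2)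
  have h3 : (1 / (2 * k) : ℝ) ^ k * (n : ℝ) ^ (k - m) ≤ (1 / (2 * k) * n : ℝ) ^ (k - m) := by
    rw [mul_pow]
    apply mul_le_mul_of_nonneg_right _ (by positivity)
    apply pow_le_pow_of_le_one (by positivity) _ (Nat.sub_le k m)
    rw [div_le_one (by positivity)]
    have : (1 : ℝ) ≤ k := by
      have : 1 ≤ k := by omega
      exact_mod_cast this
    linarith
  have h4 : (B.card : ℝ) * ((1 / (2 * k) : ℝ) ^ k * (n : ℝ) ^ (k - m))
      ≤ (k ^ 2 + 1) * η * (n : ℝ) ^ k := by
    refine le_trans (mul_le_mul_of_nonneg_left h3 (by positivity)) (h1.trans h2)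
  have h5 : (n : ℝ) ^ k = (n : ℝ) ^ (k - m) * (n : ℝ) ^ m := by
    rw [← pow_add]; congr 1; omega
  rw [h5] at h4
  have h6 : (B.card : ℝ) * (1 / (2 * k) : ℝ) ^ k ≤ (k ^ 2 + 1) * η * (n : ℝ) ^ m := by
    have h7 : 0 < (n : ℝ) ^ (k - m) := by positivity
    have h8 : (B.card : ℝ) * (1 / (2 * k) : ℝ) ^ k * (n : ℝ) ^ (k - m)
        ≤ (k ^ 2 + 1) * η * (n : ℝ) ^ m * (n : ℝ) ^ (k - m) := by linarith
    exact le_of_mul_le_mul_right h8 h7
  have h9 : (1 / (2 * k) : ℝ) ^ k = ((2 * k : ℝ) ^ k)⁻¹ := by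
    rw [one_div, inv_pow]
  rw [h9, ← div_eq_mul_inv, div_le_iff₀ (by positivity)] at h6
  linarith

/-- pure-size tuples which are not rainbow have equal inside lists -/
theorem LIST_eq {k s r d : ℕ} {g : ℝ} (H : Par k s r d g) {p a : ℕ} (hL : LShape k d r g p a)
    (M : Fin k → Fin k → Finset (Fin r))
    (hin : ∀ i j : Fin k, i < j → (i : ℕ) % p = (j : ℕ) % p → (M i j).card = a)
    (hcr : ∀ i j : Fin k, i < j → (i : ℕ) % p ≠ (j : ℕ) % p → M i j = univ)
    (hn : ¬ RbL s M) :
    ∃ U : Finset (Fin r), ∀ i j : Fin k, i < j → (i : ℕ) % p = (j : ℕ) % p → M i j = U := by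
  have hk := H.hk
  have hs := H.hs
  have hsr := H.hsr
  obtain ⟨h1, h2, h3, h4, h5, h6⟩ := hL
  have hne : ∀ i j : Fin k, i < j → (M i j).Nonempty := by
    intro i j hij
    by_cases hc : (i : ℕ) % p = (j : ℕ) % p
    · rw [← card_pos, hin i j hij hc]; omega
    · rw [hcr i j hij hc]; exact ⟨⟨0, by omega⟩, mem_univ _⟩
  obtain ⟨P, hPne, hPlt, hPc⟩ := kon (by omega) H.hd H.hsd M hne hn
  have hnu := CLO_no_univ H.hsd hsr M P hPlt hPc
  set Ins := (univ : Finset (Fin k × Fin k)).filter fun q =>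
    q.1 < q.2 ∧ (q.1 : ℕ) % p = (q.2 : ℕ) % p with hIns
  have hsub : P ⊆ Ins := by
    intro q hq
    rw [hIns, Finset.mem_filter]
    refine ⟨mem_univ _, hPlt q hq, ?_⟩
    by_contra hc
    exact hnu q hq (hcr _ _ (hPlt q hq) hc)
  have hInscard : Ins.card = a + d := by
    rw [hIns, CLO_inside k p h2, h4]
  set U := P.biUnion fun q => M q.1 q.2 with hU
  have hsubU : ∀ q ∈ P, M q.1 q.2 ⊆ U := by
    intro q hq
    rw [hU]
    exact subset_biUnion_of_mem (fun q : Fin k × Fin k => M q.1 q.2) hq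
  have hPle := card_le_card hsub
  have hUa : U.card ≤ a := by omega
  have hUa' : a ≤ U.card := by
    obtain ⟨q, hq⟩ := hPne
    have h7 := card_le_card (hsubU q hq)
    have h8 := hsub hq
    rw [hIns, Finset.mem_filter] at h8
    rw [hin _ _ h8.2.1 h8.2.2] at h7
    exact h7
  have hPeq : P = Ins := Finset.eq_of_subset_of_card_le hsub (by omega)
  refine ⟨U, ?_⟩
  intro i j hij hc
  have hq : (i, j) ∈ P := by
    rw [hPeq, hIns, Finset.mem_filter]
    exact ⟨mem_univ _, hij, hc⟩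
  apply Finset.eq_of_subset_of_card_le (hsubU _ hq)
  rw [hin i j hij hc]
  exact hUa

/-- the set of size-bad pairs -/
noncomputable def LIST_SB (g : ℝ) {n r p : ℕ} (L : LS (Fin n) r) (Q : Fin n → Fin p) :
    Finset (Fin n × Fin n) := by
  classical
  exact univ.filter fun x : Fin n × Fin n =>
    eL g (L s(x.1, x.2)) ≠ if Q x.1 = Q x.2 then (p : ℝ) else 0

theorem LIST_SB_card (g : ℝ) {n r p : ℕ} (L : LS (Fin n) r) (Q : Fin n → Fin p) :
    (LIST_SB g L Q).card = sizeBad g L Q := by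
  unfold LIST_SB sizeBad
  congr

theorem LIST_not_SB {g : ℝ} {n r p : ℕ} {L : LS (Fin n) r} {Q : Fin n → Fin p} {x y : Fin n}
    (h : (x, y) ∉ LIST_SB g L Q) : eL g (L s(x, y)) = if Q x = Q y then (p : ℝ) else 0 := by
  unfold LIST_SB at h
  simp only [Finset.mem_filter, mem_univ, true_and, ne_eq, not_not] at h
  exact h

theorem LIST_class {n p k : ℕ} {η : ℝ} (Q : Fin n → Fin p) (hp : 1 ≤ p) (hpk : p < k)
    (hη : η ≤ 1 / (2 * k)) (hQ : Bal η Q) (i : Fin p) :
    1 / (2 * k) * (n : ℝ) ≤ ((univ.filter fun u => Q u = i).card : ℝ) := by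
  have h1 := hQ i
  rw [abs_le] at h1
  have hn0 : (0 : ℝ) ≤ n := by positivity
  have hp0 : (0 : ℝ) < p := by exact_mod_cast hp
  have hpk' : (p : ℝ) ≤ k := by exact_mod_cast hpk.le
  have hk0 : (0 : ℝ) < k := by linarith
  have h2 : (n : ℝ) / k ≤ n / p := div_le_div_of_nonneg_left hn0 hp0 hpk'
  have h3 : η * n ≤ 1 / (2 * k) * n := mul_le_mul_of_nonneg_right hη hn0
  have h4 : (n : ℝ) / k = 1 / (2 * k) * n + 1 / (2 * k) * n := by
    field_simp
    ring
  linarith [h1.1]

/-- a permutation with prescribed images of `0` and `1` -/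
theorem LIST_perm {p : ℕ} (hp : 2 ≤ p) (c c' : Fin p) (h : c ≠ c') :
    ∃ π : Equiv.Perm (Fin p), π ⟨0, by omega⟩ = c ∧ π ⟨1, by omega⟩ = c' := by
  set z : Fin p := ⟨0, by omega⟩ with hz
  set o : Fin p := ⟨1, by omega⟩ with ho
  have hzo : z ≠ o := by
    intro h
    have := congrArg Fin.val h
    simp [hz, ho] at this
  set π' := Equiv.swap z c with hπ'
  have h1 : π' z = c := Equiv.swap_apply_left z c
  have h2 : π' o ≠ c := by
    rw [← h1]
    intro h
    exact hzo (π'.injective h).symm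
  refine ⟨π'.trans (Equiv.swap (π' o) c'), ?_, ?_⟩
  · rw [Equiv.trans_apply, h1]
    exact Equiv.swap_apply_of_ne_of_ne h2.symm h
  · rw [Equiv.trans_apply]
    exact Equiv.swap_apply_left _ _

/-- quadruples with different lists -/
noncomputable def LIST_Bq {n r p : ℕ} (L : LS (Fin n) r) (Q : Fin n → Fin p) (c c' : Fin p) :
    Finset ((Fin n × Fin n) × (Fin n × Fin n)) :=
  univ.filter fun z => Q z.1.1 = c ∧ Q z.1.2 = c ∧ Q z.2.1 = c' ∧ Q z.2.2 = c' ∧
    L s(z.1.1, z.1.2) ≠ L s(z.2.1, z.2.2)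

theorem LIST_mem_Bq {n r p : ℕ} {L : LS (Fin n) r} {Q : Fin n → Fin p} {c c' : Fin p}
    {z : (Fin n × Fin n) × (Fin n × Fin n)} : z ∈ LIST_Bq L Q c c' ↔
    Q z.1.1 = c ∧ Q z.1.2 = c ∧ Q z.2.1 = c' ∧ Q z.2.2 = c' ∧
    L s(z.1.1, z.1.2) ≠ L s(z.2.1, z.2.2) := by
  unfold LIST_Bq
  rw [Finset.mem_filter]
  exact ⟨fun h => h.2, fun h => ⟨mem_univ _, h⟩⟩

theorem LIST_card_a {k s r d : ℕ} {g : ℝ} (H : Par k s r d g) {p a : ℕ}
    (hL : LShape k d r g p a) (S : Finset (Fin r)) (h : eL g S = p) : S.card = a := by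
  have hk := H.hk
  have hs := H.hs
  have hsr := H.hsr
  have hg := H.hg
  have hk' : (3 : ℝ) ≤ k := by exact_mod_cast hk
  have hg0 : 0 < g := by linarith
  obtain ⟨h1, h2, h3, h4, h5, h6⟩ := hL
  have h7 : g * beta r (max 1 S.card) = g * beta r a := by
    rw [h5]; exact h
  have h8 := mul_left_cancel₀ hg0.ne' h7
  have h9 := CLO_beta_inj (by omega) (le_max_left _ _) (by omega) h8
  omega

/-- case `p = 1` -/
theorem LIST_G_one {k s r d : ℕ} {g : ℝ} (H : Par k s r d g) {a : ℕ}
    (hL : LShape k d r g 1 a) {n : ℕ} (hn : 0 < n) (L : LS (Fin n) r) {η : ℝ}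
    (hR : (nRb k s L : ℝ) ≤ η * (n : ℝ) ^ k) (Q : Fin n → Fin 1)
    (hSB : (sizeBad g L Q : ℝ) ≤ η * (n : ℝ) ^ 2) (c c' : Fin 1) :
    ((LIST_Bq L Q c c').card : ℝ) ≤ 2 * ((k ^ 2 + 1) * (2 * k) ^ k * η * (n : ℝ) ^ 4) := by
  classical
  have hk := H.hk
  have hn0 : (0 : ℝ) < n := by exact_mod_cast hn
  have hk' : (3 : ℝ) ≤ k := by exact_mod_cast hk
  set B3 : Finset (Fin 3 → Fin n) := univ.filter fun q => L s(q 0, q 1) ≠ L s(q 0, q 2) with hB3
  have h3 : (B3.card : ℝ) ≤ (k ^ 2 + 1) * (2 * k) ^ k * η * (n : ℝ) ^ 3 := by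
    apply LIST_core (m := 3) (by omega) hn hk L (LIST_SB g L Q) hR
      (by rw [LIST_SB_card]; exact hSB) (Fin.castLEEmb hk) B3 (fun _ => univ)
    · intro b
      rw [card_univ, Fintype.card_fin]
      have : 1 / (2 * (k : ℝ)) ≤ 1 := by
        rw [div_le_one (by linarith)]; linarith
      nlinarith
    · intro w hw _
      by_contra hcon
      push Not at hcon
      obtain ⟨hnR, hpairs⟩ := hcon
      obtain ⟨U, hU⟩ := LIST_eq H hL (fun i j => L s(w i, w j)) (by
        intro i j hij _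
        apply LIST_card_a H hL
        have h4 := LIST_not_SB (hpairs i j hij)
        rw [h4, if_pos (Subsingleton.elim _ _)]) (by
        intro i j _ hne
        exact absurd (by rw [Nat.mod_one, Nat.mod_one]) hne) hnR
      rw [hB3, Finset.mem_filter] at hw
      apply hw.2
      have e1 := hU (Fin.castLEEmb hk 0) (Fin.castLEEmb hk 1) (by
        rw [Fin.lt_def]; simp) (by rw [Nat.mod_one, Nat.mod_one])
      have e2 := hU (Fin.castLEEmb hk 0) (Fin.castLEEmb hk 2) (by
        rw [Fin.lt_def]; simp) (by rw [Nat.mod_one, Nat.mod_one])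
      exact e1.trans e2.symm
  -- injections
  have hsub : LIST_Bq L Q c c' ⊆
      (univ.filter fun z : (Fin n × Fin n) × (Fin n × Fin n) =>
        L s(z.1.1, z.1.2) ≠ L s(z.1.1, z.2.1)) ∪
      (univ.filter fun z : (Fin n × Fin n) × (Fin n × Fin n) =>
        L s(z.2.1, z.1.1) ≠ L s(z.2.1, z.2.2)) := by
    intro z hz
    rw [LIST_mem_Bq] at hz
    rw [Finset.mem_union, Finset.mem_filter, Finset.mem_filter]
    by_contra hcon
    push Not at hcon
    obtain ⟨h4, h5⟩ := hcon
    have h4' := h4 (mem_univ _)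
    have h5' := h5 (mem_univ _)
    apply hz.2.2.2.2
    rw [h4', Sym2.eq_swap, h5']
  have hc1 : (univ.filter fun z : (Fin n × Fin n) × (Fin n × Fin n) =>
        L s(z.1.1, z.1.2) ≠ L s(z.1.1, z.2.1)).card ≤ B3.card * n := by
    have : B3.card * n = (B3 ×ˢ (univ : Finset (Fin n))).card := by
      rw [card_product, card_univ, Fintype.card_fin]
    rw [this]
    apply Finset.card_le_card_of_injOn
      (fun z : (Fin n × Fin n) × (Fin n × Fin n) => (![z.1.1, z.1.2, z.2.1], z.2.2))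
    · intro z hz
      simp only [Finset.coe_filter, mem_univ, true_and, Set.mem_ofPred_eq] at hz
      simp only [Finset.mem_coe, Finset.mem_product, mem_univ, and_true, hB3, Finset.mem_filter,
        true_and]
      exact hz
    · intro z _ z' _ h
      simp only [Prod.mk.injEq] at h
      obtain ⟨h6, h7⟩ := h
      have e0 := congrFun h6 0
      have e1 := congrFun h6 1
      have e2 := congrFun h6 2
      simp only [Matrix.cons_val_zero, Matrix.cons_val_one, Matrix.cons_val] at e0 e1 e2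
      exact Prod.ext (Prod.ext e0 e1) (Prod.ext e2 h7)
  have hc2 : (univ.filter fun z : (Fin n × Fin n) × (Fin n × Fin n) =>
        L s(z.2.1, z.1.1) ≠ L s(z.2.1, z.2.2)).card ≤ B3.card * n := by
    have : B3.card * n = (B3 ×ˢ (univ : Finset (Fin n))).card := by
      rw [card_product, card_univ, Fintype.card_fin]
    rw [this]
    apply Finset.card_le_card_of_injOn
      (fun z : (Fin n × Fin n) × (Fin n × Fin n) => (![z.2.1, z.1.1, z.2.2], z.1.2))
    · intro z hz
      simp only [Finset.coe_filter, mem_univ, true_and, Set.mem_ofPred_eq] at hz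
      simp only [Finset.mem_coe, Finset.mem_product, mem_univ, and_true, hB3, Finset.mem_filter,
        true_and]
      exact hz
    · intro z _ z' _ h
      simp only [Prod.mk.injEq] at h
      obtain ⟨h6, h7⟩ := h
      have e0 := congrFun h6 0
      have e1 := congrFun h6 1
      have e2 := congrFun h6 2
      simp only [Matrix.cons_val_zero, Matrix.cons_val_one, Matrix.cons_val] at e0 e1 e2
      exact Prod.ext (Prod.ext e1 h7) (Prod.ext e0 e2)
  have h4 : (LIST_Bq L Q c c').card ≤ 2 * (B3.card * n) := by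
    have := (card_le_card hsub).trans (card_union_le _ _)
    omega
  have h5 : ((LIST_Bq L Q c c').card : ℝ) ≤ 2 * (B3.card * n) := by exact_mod_cast h4
  refine h5.trans ?_
  have h6 : (B3.card : ℝ) * n ≤ (k ^ 2 + 1) * (2 * k) ^ k * η * (n : ℝ) ^ 3 * n :=
    mul_le_mul_of_nonneg_right h3 hn0.le
  have h7 : (k ^ 2 + 1) * (2 * k) ^ k * η * (n : ℝ) ^ 3 * n
      = (k ^ 2 + 1) * (2 * k) ^ k * η * (n : ℝ) ^ 4 := by ring
  linarith

/-- case `p ≥ 2`, different classes -/
theorem LIST_G_ne {k s r d : ℕ} {g : ℝ} (H : Par k s r d g) {p a : ℕ} (hp2 : 2 ≤ p)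
    (hL : LShape k d r g p a) {n : ℕ} (hn : 0 < n) (L : LS (Fin n) r) {η : ℝ}
    (hR : (nRb k s L : ℝ) ≤ η * (n : ℝ) ^ k) (Q : Fin n → Fin p)
    (hcl : ∀ i, 1 / (2 * k) * (n : ℝ) ≤ ((univ.filter fun u => Q u = i).card : ℝ))
    (hSB : (sizeBad g L Q : ℝ) ≤ η * (n : ℝ) ^ 2) (c c' : Fin p) (hcc : c ≠ c') :
    ((LIST_Bq L Q c c').card : ℝ) ≤ (k ^ 2 + 1) * (2 * k) ^ k * η * (n : ℝ) ^ 4 := by
  classical
  have hk := H.hk
  have hs := H.hs
  have hsr := H.hsr
  have hg := H.hg
  have hn0 : (0 : ℝ) < n := by exact_mod_cast hn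
  have hk' : (3 : ℝ) ≤ k := by exact_mod_cast hk
  have hg0 : 0 < g := by linarith
  have hpk : p + 2 ≤ k := by have := hL.2.2.1; omega
  obtain ⟨π, hπ0, hπ1⟩ := LIST_perm hp2 c c' hcc
  set B4 : Finset (Fin 4 → Fin n) := univ.filter fun q =>
    Q (q 0) = c ∧ Q (q 1) = c ∧ Q (q 2) = c' ∧ Q (q 3) = c' ∧ L s(q 0, q 1) ≠ L s(q 2, q 3) with hB4
  let f : Fin 4 → Fin k := ![⟨0, by omega⟩, ⟨p, by omega⟩, ⟨1, by omega⟩, ⟨p + 1, by omega⟩]
  have hf : Function.Injective f := by
    intro x y h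
    fin_cases x <;> fin_cases y <;> simp [f] at h ⊢ <;> omega
  let ι : Fin 4 ↪ Fin k := ⟨f, hf⟩
  have h4 : (B4.card : ℝ) ≤ (k ^ 2 + 1) * (2 * k) ^ k * η * (n : ℝ) ^ 4 := by
    apply LIST_core (m := 4) (by omega) hn (by omega) L (LIST_SB g L Q) hR
      (by rw [LIST_SB_card]; exact hSB) ι B4
      (fun b => univ.filter fun u => Q u = π ⟨(b : ℕ) % p, Nat.mod_lt _ (by omega)⟩)
    · intro b
      exact hcl _
    · intro w hw hT
      rw [hB4, Finset.mem_filter] at hw
      obtain ⟨_, q0, q1, q2, q3, qL⟩ := hw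
      have q0' : Q (w ⟨0, by omega⟩) = c := q0
      have q1' : Q (w ⟨p, by omega⟩) = c := q1
      have q2' : Q (w ⟨1, by omega⟩) = c' := q2
      have q3' : Q (w ⟨p + 1, by omega⟩) = c' := q3
      have hQw : ∀ b : Fin k, Q (w b) = π ⟨(b : ℕ) % p, Nat.mod_lt _ (by omega)⟩ := by
        intro b
        by_cases hb : b ∈ Set.range ι
        · obtain ⟨i, hi⟩ := hb
          rw [← hi]
          fin_cases i
          · have e : (⟨((⟨0, by omega⟩ : Fin k) : ℕ) % p, Nat.mod_lt _ (by omega)⟩ : Fin p)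
                = ⟨0, by omega⟩ := by apply Fin.ext; simp
            refine q0'.trans ?_
            rw [← hπ0]
            exact congrArg π e.symm
          · have e : (⟨((⟨p, by omega⟩ : Fin k) : ℕ) % p, Nat.mod_lt _ (by omega)⟩ : Fin p)
                = ⟨0, by omega⟩ := by apply Fin.ext; simp
            refine q1'.trans ?_
            rw [← hπ0]
            exact congrArg π e.symm
          · have e : (⟨((⟨1, by omega⟩ : Fin k) : ℕ) % p, Nat.mod_lt _ (by omega)⟩ : Fin p)
                = ⟨1, by omega⟩ := by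
              apply Fin.ext; simp only; exact Nat.mod_eq_of_lt (by omega)
            refine q2'.trans ?_
            rw [← hπ1]
            exact congrArg π e.symm
          · have e : (⟨((⟨p + 1, by omega⟩ : Fin k) : ℕ) % p, Nat.mod_lt _ (by omega)⟩ : Fin p)
                = ⟨1, by omega⟩ := by
              apply Fin.ext; simp only; rw [Nat.add_mod_left]; exact Nat.mod_eq_of_lt (by omega)
            refine q3'.trans ?_
            rw [← hπ1]
            exact congrArg π e.symm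
        · have h5 := hT b hb
          rw [Finset.mem_filter] at h5
          exact h5.2
      by_contra hcon
      push Not at hcon
      obtain ⟨hnR, hpairs⟩ := hcon
      have hQeq : ∀ i j : Fin k, Q (w i) = Q (w j) ↔ (i : ℕ) % p = (j : ℕ) % p := by
        intro i j
        rw [hQw i, hQw j, π.injective.eq_iff, Fin.mk.injEq]
      obtain ⟨U, hU⟩ := LIST_eq H hL (fun i j => L s(w i, w j)) (by
        intro i j hij hm
        apply LIST_card_a H hL
        have h4 := LIST_not_SB (hpairs i j hij)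
        rw [h4, if_pos ((hQeq i j).2 hm)]) (by
        intro i j hij hm
        have h4 := LIST_not_SB (hpairs i j hij)
        rw [if_neg fun h => hm ((hQeq i j).1 h)] at h4
        exact CLO_eL_zero (by omega) hg0 _ h4) hnR
      have e1 : L s(w ⟨0, by omega⟩, w ⟨p, by omega⟩) = U :=
        hU ⟨0, by omega⟩ ⟨p, by omega⟩ (by rw [Fin.lt_def]; simp only; omega) (by simp)
      have e2 : L s(w ⟨1, by omega⟩, w ⟨p + 1, by omega⟩) = U :=
        hU ⟨1, by omega⟩ ⟨p + 1, by omega⟩ (by rw [Fin.lt_def]; simp only; omega)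
          (by simp only; rw [Nat.add_mod_left])
      exact qL (e1.trans e2.symm)
  refine le_trans ?_ h4
  have : (LIST_Bq L Q c c').card ≤ B4.card := by
    apply Finset.card_le_card_of_injOn
      (fun z : (Fin n × Fin n) × (Fin n × Fin n) => ![z.1.1, z.1.2, z.2.1, z.2.2])
    · intro z hz
      rw [Finset.mem_coe, LIST_mem_Bq] at hz
      simp only [Finset.mem_coe, hB4, Finset.mem_filter, mem_univ, true_and]
      exact hz
    · intro z _ z' _ h
      have e0 := congrFun h 0
      have e1 := congrFun h 1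
      have e2 := congrFun h 2
      have e3 := congrFun h 3
      simp only [Matrix.cons_val_zero, Matrix.cons_val_one, Matrix.cons_val] at e0 e1 e2 e3
      exact Prod.ext (Prod.ext e0 e1) (Prod.ext e2 e3)
  exact_mod_cast this

/-- case `p ≥ 2`, same class -/
theorem LIST_G_same {n r p k : ℕ} (hk : 3 ≤ k) (hn : 0 < n) (L : LS (Fin n) r) (Q : Fin n → Fin p)
    (hcl : ∀ i, 1 / (2 * k) * (n : ℝ) ≤ ((univ.filter fun u => Q u = i).card : ℝ))
    (c c' : Fin p) {X : ℝ} (hX : ((LIST_Bq L Q c c').card : ℝ) ≤ X * (n : ℝ) ^ 4) :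
    ((LIST_Bq L Q c c).card : ℝ) ≤ 2 * (2 * k) ^ 2 * X * (n : ℝ) ^ 4 := by
  classical
  have hn0 : (0 : ℝ) < n := by exact_mod_cast hn
  have hk' : (3 : ℝ) ≤ k := by exact_mod_cast hk
  set C := univ.filter fun u => Q u = c' with hC
  set P1 : Finset (((Fin n × Fin n) × (Fin n × Fin n)) × (Fin n × Fin n)) :=
    univ.filter fun t => (t.1.1, t.2) ∈ LIST_Bq L Q c c' with hP1
  set P2 : Finset (((Fin n × Fin n) × (Fin n × Fin n)) × (Fin n × Fin n)) :=
    univ.filter fun t => (t.1.2, t.2) ∈ LIST_Bq L Q c c' with hP2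
  have hsub : LIST_Bq L Q c c ×ˢ (C ×ˢ C) ⊆ P1 ∪ P2 := by
    intro t ht
    rw [Finset.mem_product, LIST_mem_Bq, Finset.mem_product, hC, Finset.mem_filter,
      Finset.mem_filter] at ht
    obtain ⟨⟨h1, h2, h3, h4, h5⟩, ⟨_, h6⟩, ⟨_, h7⟩⟩ := ht
    rw [Finset.mem_union, hP1, hP2, Finset.mem_filter, Finset.mem_filter, LIST_mem_Bq, LIST_mem_Bq]
    by_cases h8 : L s(t.1.1.1, t.1.1.2) = L s(t.2.1, t.2.2)
    · right
      refine ⟨mem_univ _, h3, h4, h6, h7, ?_⟩
      intro h9
      exact h5 (h8.trans h9.symm)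
    · left
      exact ⟨mem_univ _, h1, h2, h6, h7, h8⟩
  have hc1 : P1.card ≤ (LIST_Bq L Q c c').card * (n * n) := by
    have : (LIST_Bq L Q c c').card * (n * n)
        = (LIST_Bq L Q c c' ×ˢ (univ : Finset (Fin n × Fin n))).card := by
      rw [card_product, card_univ, Fintype.card_prod, Fintype.card_fin]
    rw [this]
    apply Finset.card_le_card_of_injOn
      (fun t : ((Fin n × Fin n) × (Fin n × Fin n)) × (Fin n × Fin n) => ((t.1.1, t.2), t.1.2))
    · intro t ht
      rw [Finset.mem_coe, hP1, Finset.mem_filter] at ht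
      rw [Finset.mem_coe, Finset.mem_product]
      exact ⟨ht.2, mem_univ _⟩
    · intro t _ t' _ h
      simp only [Prod.mk.injEq] at h
      exact Prod.ext (Prod.ext h.1.1 h.2) h.1.2
  have hc2 : P2.card ≤ (LIST_Bq L Q c c').card * (n * n) := by
    have : (LIST_Bq L Q c c').card * (n * n)
        = (LIST_Bq L Q c c' ×ˢ (univ : Finset (Fin n × Fin n))).card := by
      rw [card_product, card_univ, Fintype.card_prod, Fintype.card_fin]
    rw [this]
    apply Finset.card_le_card_of_injOn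
      (fun t : ((Fin n × Fin n) × (Fin n × Fin n)) × (Fin n × Fin n) => ((t.1.2, t.2), t.1.1))
    · intro t ht
      rw [Finset.mem_coe, hP2, Finset.mem_filter] at ht
      rw [Finset.mem_coe, Finset.mem_product]
      exact ⟨ht.2, mem_univ _⟩
    · intro t _ t' _ h
      simp only [Prod.mk.injEq] at h
      exact Prod.ext (Prod.ext h.2 h.1.1) h.1.2
  have h1 := (card_le_card hsub).trans (card_union_le _ _)
  rw [card_product, card_product] at h1
  have h2 : (LIST_Bq L Q c c).card * (C.card * C.card) ≤ 2 * ((LIST_Bq L Q c c').card * (n * n)) := by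
    omega
  have h3 : ((LIST_Bq L Q c c).card : ℝ) * ((C.card : ℝ) * C.card)
      ≤ 2 * (((LIST_Bq L Q c c').card : ℝ) * (n * n)) := by exact_mod_cast h2
  have h4 := hcl c'
  rw [← hC] at h4
  have h5 : (1 / (2 * k) * (n : ℝ)) * (1 / (2 * k) * (n : ℝ)) ≤ (C.card : ℝ) * C.card :=
    mul_le_mul h4 h4 (by positivity) (by positivity)
  have h6 : ((LIST_Bq L Q c c).card : ℝ) * ((1 / (2 * k) * (n : ℝ)) * (1 / (2 * k) * (n : ℝ)))
      ≤ 2 * (X * (n : ℝ) ^ 4 * (n * n)) := by
    refine (mul_le_mul_of_nonneg_left h5 (by positivity)).trans (h3.trans ?_)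
    have := mul_le_mul_of_nonneg_right hX (show (0 : ℝ) ≤ n * n by positivity)
    linarith
  have h7 : ((LIST_Bq L Q c c).card : ℝ) * ((1 / (2 * k) * (n : ℝ)) * (1 / (2 * k) * (n : ℝ)))
      = ((LIST_Bq L Q c c).card : ℝ) / (2 * k) ^ 2 * (n * n) := by
    field_simp
  rw [h7] at h6
  have h8 : ((LIST_Bq L Q c c).card : ℝ) / (2 * k) ^ 2 * (n * n)
      ≤ 2 * (X * (n : ℝ) ^ 4) * (n * n) := by linarith
  have h9 := le_of_mul_le_mul_right h8 (show (0 : ℝ) < n * n by positivity)
  rw [div_le_iff₀ (by positivity)] at h9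
  linarith

/-- all quadruples -/
theorem LIST_G {k s r d : ℕ} {g : ℝ} (H : Par k s r d g) {p a : ℕ}
    (hL : LShape k d r g p a) {n : ℕ} (hn : 0 < n) (L : LS (Fin n) r) {η : ℝ} (hη : 0 ≤ η)
    (hR : (nRb k s L : ℝ) ≤ η * (n : ℝ) ^ k) (Q : Fin n → Fin p)
    (hcl : ∀ i, 1 / (2 * k) * (n : ℝ) ≤ ((univ.filter fun u => Q u = i).card : ℝ))
    (hSB : (sizeBad g L Q : ℝ) ≤ η * (n : ℝ) ^ 2) (c c' : Fin p) :
    ((LIST_Bq L Q c c').card : ℝ)
      ≤ 2 * (2 * k) ^ 2 * ((k ^ 2 + 1) * (2 * k) ^ k * η) * (n : ℝ) ^ 4 := by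
  have hk := H.hk
  have hk' : (3 : ℝ) ≤ k := by exact_mod_cast hk
  have hn0 : (0 : ℝ) < n := by exact_mod_cast hn
  have hX0 : 0 ≤ (k ^ 2 + 1) * (2 * k) ^ k * η * (n : ℝ) ^ 4 := by positivity
  have h4k : (1 : ℝ) ≤ (2 * k) ^ 2 := by nlinarith
  have hp1 := hL.2.1
  rcases Nat.lt_or_ge p 2 with hp | hp
  · have hp' : p = 1 := by omega
    subst hp'
    have h := LIST_G_one H hL hn L hR Q hSB c c'
    nlinarith
  · by_cases hcc : c = c'
    · subst hcc
      obtain ⟨c'', hc''⟩ : ∃ c'' : Fin p, c ≠ c'' := by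
        by_cases h0 : (c : ℕ) = 0
        · refine ⟨⟨1, by omega⟩, fun h => ?_⟩
          have := congrArg Fin.val h
          simp only at this; omega
        · refine ⟨⟨0, by omega⟩, fun h => ?_⟩
          have := congrArg Fin.val h
          simp only at this; omega
      exact LIST_G_same hk hn L Q hcl c c'' (LIST_G_ne H hp hL hn L hR Q hcl hSB c c'' hc'')
    · have h := LIST_G_ne H hp hL hn L hR Q hcl hSB c c' hcc
      nlinarith

/-- the loop case -/
theorem LIST_loop {k s r d : ℕ} {g : ℝ} (H : Par k s r d g) {p a : ℕ}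
    (hL : LShape k d r g p a) {n : ℕ} (hn : 0 < n) (L : LS (Fin n) r) {η : ℝ} (hη : 0 ≤ η)
    (hη2 : η ≤ (1 / (2 * k)) ^ 2 / 2)
    (hR : (nRb k s L : ℝ) ≤ η * (n : ℝ) ^ k) (Q : Fin n → Fin p)
    (hcl : ∀ i, 1 / (2 * k) * (n : ℝ) ≤ ((univ.filter fun u => Q u = i).card : ℝ))
    (hSB : (sizeBad g L Q : ℝ) ≤ η * (n : ℝ) ^ 2) :
    ∃ A : Finset (Fin r), A.card = a ∧ (listBad L Q A : ℝ)
      ≤ (k ^ 2 * (2 * (2 * k) ^ 2 * ((k ^ 2 + 1) * (2 * k) ^ k)) * (2 * (2 * k) ^ 2) + 1)
        * η * (n : ℝ) ^ 2 := by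
  classical
  have hk := H.hk
  have hs := H.hs
  have hsr := H.hsr
  have hg := H.hg
  have hk' : (3 : ℝ) ≤ k := by exact_mod_cast hk
  have hg0 : 0 < g := by linarith
  have hn0 : (0 : ℝ) < n := by exact_mod_cast hn
  have hp1 := hL.2.1
  have hpk : p ≤ k := by have := hL.2.2.1; omega
  set SB := LIST_SB g L Q with hSBdef
  have hSBc : (SB.card : ℝ) ≤ η * (n : ℝ) ^ 2 := by rw [hSBdef, LIST_SB_card]; exact hSB
  -- inside pairs which are size-good
  set S : Finset (Fin n × Fin n) := univ.filter fun x => Q x.1 = Q x.2 ∧ x ∉ SB with hS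
  set c0 : Fin p := ⟨0, by omega⟩ with hc0
  set C := univ.filter fun u => Q u = c0 with hC
  have hScard : (1 / (2 * k)) ^ 2 / 2 * (n : ℝ) ^ 2 ≤ (S.card : ℝ) := by
    have h1 : C ×ˢ C ⊆ S ∪ SB := by
      intro x hx
      rw [Finset.mem_product, hC, Finset.mem_filter, Finset.mem_filter] at hx
      rw [Finset.mem_union, hS, Finset.mem_filter]
      by_cases h : x ∈ SB
      · right; exact h
      · left
        exact ⟨mem_univ _, by rw [hx.1.2, hx.2.2], h⟩
    have h2 := (card_le_card h1).trans (card_union_le _ _)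
    rw [card_product] at h2
    have h3 : (C.card : ℝ) * C.card ≤ S.card + SB.card := by exact_mod_cast h2
    have h4 := hcl c0
    rw [← hC] at h4
    have h5 : (1 / (2 * k) * (n : ℝ)) * (1 / (2 * k) * (n : ℝ)) ≤ (C.card : ℝ) * C.card :=
      mul_le_mul h4 h4 (by positivity) (by positivity)
    have h6 : η * (n : ℝ) ^ 2 ≤ (1 / (2 * k)) ^ 2 / 2 * (n : ℝ) ^ 2 :=
      mul_le_mul_of_nonneg_right hη2 (by positivity)
    have h7 : (1 / (2 * k) * (n : ℝ)) * (1 / (2 * k) * (n : ℝ))
        = (1 / (2 * k)) ^ 2 / 2 * (n : ℝ) ^ 2 + (1 / (2 * k)) ^ 2 / 2 * (n : ℝ) ^ 2 := by ring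
    linarith
  have hSpos : 0 < (S.card : ℝ) := lt_of_lt_of_le (by positivity) hScard
  -- disagreement counts
  set D : Fin n × Fin n → ℕ := fun y => (univ.filter fun x : Fin n × Fin n =>
    Q x.1 = Q x.2 ∧ L s(x.1, x.2) ≠ L s(y.1, y.2)).card with hD
  have hsum : ∑ y ∈ S, (D y : ℝ)
      ≤ k ^ 2 * (2 * (2 * k) ^ 2 * ((k ^ 2 + 1) * (2 * k) ^ k * η) * (n : ℝ) ^ 4) := by
    -- ∑ D ≤ ∑_{c,c'} |Bq|
    have h1 : ∑ y ∈ S, D y ≤ ∑ q : Fin p × Fin p, (LIST_Bq L Q q.1 q.2).card := by
      have h2 : ∑ y ∈ S, D y = ((univ ×ˢ S).filter fun z : (Fin n × Fin n) × (Fin n × Fin n) =>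
          Q z.1.1 = Q z.1.2 ∧ L s(z.1.1, z.1.2) ≠ L s(z.2.1, z.2.2)).card := by
        rw [Finset.card_filter, Finset.sum_product_right]
        apply Finset.sum_congr rfl
        intro y _
        simp only [hD]
        rw [Finset.card_filter]
      rw [h2]
      have h3 : ((univ ×ˢ S).filter fun z : (Fin n × Fin n) × (Fin n × Fin n) =>
          Q z.1.1 = Q z.1.2 ∧ L s(z.1.1, z.1.2) ≠ L s(z.2.1, z.2.2))
          ⊆ (univ : Finset (Fin p × Fin p)).biUnion fun q => LIST_Bq L Q q.1 q.2 := by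
        intro z hz
        rw [Finset.mem_filter, Finset.mem_product, hS, Finset.mem_filter] at hz
        obtain ⟨⟨_, _, h4, _⟩, h5, h6⟩ := hz
        rw [Finset.mem_biUnion]
        refine ⟨(Q z.1.1, Q z.2.1), mem_univ _, ?_⟩
        rw [LIST_mem_Bq]
        exact ⟨rfl, h5.symm, rfl, h4.symm, h6⟩
      exact (card_le_card h3).trans card_biUnion_le
    have h2 : (∑ q : Fin p × Fin p, ((LIST_Bq L Q q.1 q.2).card : ℝ))
        ≤ ∑ _q : Fin p × Fin p,
          (2 * (2 * k) ^ 2 * ((k ^ 2 + 1) * (2 * k) ^ k * η) * (n : ℝ) ^ 4) :=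
      Finset.sum_le_sum fun q _ => LIST_G H hL hn L hη hR Q hcl hSB q.1 q.2
    rw [Finset.sum_const, card_univ, Fintype.card_prod, Fintype.card_fin, nsmul_eq_mul] at h2
    have h3 : ((∑ y ∈ S, D y : ℕ) : ℝ) ≤ ((∑ q : Fin p × Fin p, (LIST_Bq L Q q.1 q.2).card : ℕ) : ℝ) := by
      exact_mod_cast h1
    push_cast at h3 h2
    refine h3.trans (h2.trans ?_)
    apply mul_le_mul_of_nonneg_right _ (by positivity)
    have : (p : ℝ) ≤ k := by exact_mod_cast hpk
    nlinarith [show (0 : ℝ) ≤ p by positivity]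
  -- choose a typical pair
  obtain ⟨y, hyS, hy⟩ : ∃ y ∈ S, (D y : ℝ)
      ≤ k ^ 2 * (2 * (2 * k) ^ 2 * ((k ^ 2 + 1) * (2 * k) ^ k * η) * (n : ℝ) ^ 4) / S.card := by
    by_contra hcon
    push Not at hcon
    have hSne : S.Nonempty := by
      rw [← card_pos]; exact_mod_cast hSpos
    have h1 := Finset.sum_lt_sum_of_nonempty hSne hcon
    rw [Finset.sum_const, nsmul_eq_mul, mul_div_cancel₀ _ hSpos.ne'] at h1
    linarith
  have hyS' := hyS
  rw [hS, Finset.mem_filter] at hyS'
  obtain ⟨_, hyQ, hySB⟩ := hyS'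
  refine ⟨L s(y.1, y.2), ?_, ?_⟩
  · apply LIST_card_a H hL
    have h1 := LIST_not_SB (x := y.1) (y := y.2) hySB
    rw [h1, if_pos hyQ]
  · -- listBad
    have h1 : listBad L Q (L s(y.1, y.2)) ≤ D y + SB.card := by
      unfold listBad
      have h2 : (univ.filter fun x : Fin n × Fin n =>
          L s(x.1, x.2) ≠ pureL (L s(y.1, y.2)) (Q x.1) (Q x.2)) ⊆
          (univ.filter fun x : Fin n × Fin n =>
            Q x.1 = Q x.2 ∧ L s(x.1, x.2) ≠ L s(y.1, y.2)) ∪ SB := by
        intro x hx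
        rw [Finset.mem_filter] at hx
        rw [Finset.mem_union, Finset.mem_filter]
        by_cases hq : Q x.1 = Q x.2
        · left
          refine ⟨mem_univ _, hq, ?_⟩
          have := hx.2
          unfold pureL at this
          rwa [if_pos hq] at this
        · right
          by_contra hnb
          have h3 := LIST_not_SB (x := x.1) (y := x.2) hnb
          rw [if_neg hq] at h3
          have h4 := CLO_eL_zero (by omega) hg0 _ h3
          apply hx.2
          unfold pureL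
          rw [if_neg hq]
          exact h4
      exact (card_le_card h2).trans (card_union_le _ _)
    have h2 : (listBad L Q (L s(y.1, y.2)) : ℝ) ≤ D y + SB.card := by exact_mod_cast h1
    -- bound for D y
    have h3 : (D y : ℝ) ≤ (k ^ 2 * (2 * (2 * k) ^ 2 * ((k ^ 2 + 1) * (2 * k) ^ k)) *
        (2 * (2 * k) ^ 2)) * η * (n : ℝ) ^ 2 := by
      refine hy.trans ?_
      rw [div_le_iff₀ hSpos]
      have h4 : (k ^ 2 * (2 * (2 * k) ^ 2 * ((k ^ 2 + 1) * (2 * k) ^ k)) *
          (2 * (2 * k) ^ 2)) * η * (n : ℝ) ^ 2 * ((1 / (2 * k)) ^ 2 / 2 * (n : ℝ) ^ 2)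
          ≤ (k ^ 2 * (2 * (2 * k) ^ 2 * ((k ^ 2 + 1) * (2 * k) ^ k)) *
          (2 * (2 * k) ^ 2)) * η * (n : ℝ) ^ 2 * S.card :=
        mul_le_mul_of_nonneg_left hScard (by positivity)
      refine le_trans (le_of_eq ?_) h4
      have hk0 : (k : ℝ) ≠ 0 := by positivity
      field_simp
    have h5 : (k ^ 2 * (2 * (2 * k) ^ 2 * ((k ^ 2 + 1) * (2 * k) ^ k)) * (2 * (2 * k) ^ 2) + 1)
        * η * (n : ℝ) ^ 2 = (k ^ 2 * (2 * (2 * k) ^ 2 * ((k ^ 2 + 1) * (2 * k) ^ k)) *
        (2 * (2 * k) ^ 2)) * η * (n : ℝ) ^ 2 + η * (n : ℝ) ^ 2 := by ring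
    rw [h5]
    linarith

/-- the Turan case: few inside pairs with exactly one colour -/
theorem LIST_turan {k s r d : ℕ} {g : ℝ} (H : Par k s r d g) {p a : ℕ}
    (hT : TShape k g p a) {n : ℕ} (hn : 0 < n) (L : LS (Fin n) r) {η : ℝ}
    (hR : (nRb k s L : ℝ) ≤ η * (n : ℝ) ^ k) (Q : Fin n → Fin p)
    (hcl : ∀ i, 1 / (2 * k) * (n : ℝ) ≤ ((univ.filter fun u => Q u = i).card : ℝ))
    (hSB : (sizeBad g L Q : ℝ) ≤ η * (n : ℝ) ^ 2) (c : Fin p) :
    ((univ.filter fun x : Fin n × Fin n => Q x.1 = c ∧ Q x.2 = c ∧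
      (L s(x.1, x.2)).card = 1).card : ℝ) ≤ (k ^ 2 + 1) * (2 * k) ^ k * η * (n : ℝ) ^ 2 := by
  classical
  have hk := H.hk
  have hs := H.hs
  have hsr := H.hsr
  have hg := H.hg
  have hk' : (3 : ℝ) ≤ k := by exact_mod_cast hk
  have hg0 : 0 < g := by linarith
  obtain ⟨h1, h2, h3⟩ := hT
  set B2 : Finset (Fin 2 → Fin n) := univ.filter fun q =>
    Q (q 0) = c ∧ Q (q 1) = c ∧ (L s(q 0, q 1)).card = 1 with hB2
  set z : Fin p := ⟨0, by omega⟩ with hz
  set π := Equiv.swap z c with hπ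
  have hπ0 : π z = c := Equiv.swap_apply_left z c
  have hk2 : 2 ≤ k := by omega
  have h4 : (B2.card : ℝ) ≤ (k ^ 2 + 1) * (2 * k) ^ k * η * (n : ℝ) ^ 2 := by
    apply LIST_core (m := 2) hk2 hn hk2 L (LIST_SB g L Q) hR
      (by rw [LIST_SB_card]; exact hSB) (Fin.castLEEmb hk2) B2
      (fun b => univ.filter fun u => Q u = π ⟨((b : ℕ) - 1) % p, Nat.mod_lt _ (by omega)⟩)
    · intro b
      exact hcl _
    · intro w hw hTw
      rw [hB2, Finset.mem_filter] at hw
      obtain ⟨_, q0, q1, qL⟩ := hw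
      have q0' : Q (w ⟨0, by omega⟩) = c := q0
      have q1' : Q (w ⟨1, by omega⟩) = c := q1
      have hQw : ∀ b : Fin k, Q (w b) = π ⟨((b : ℕ) - 1) % p, Nat.mod_lt _ (by omega)⟩ := by
        intro b
        rcases Nat.lt_or_ge (b : ℕ) 2 with hb | hb
        · have e : (⟨((b : ℕ) - 1) % p, Nat.mod_lt _ (by omega)⟩ : Fin p) = z := by
            apply Fin.ext
            have : (b : ℕ) - 1 = 0 := by omega
            simp only [this, Nat.zero_mod, hz]
          rw [e, hπ0]
          rcases Nat.lt_or_ge (b : ℕ) 1 with hb1 | hb1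
          · have : b = ⟨0, by omega⟩ := Fin.ext (by simp only; omega)
            rw [this]; exact q0'
          · have : b = ⟨1, by omega⟩ := Fin.ext (by simp only; omega)
            rw [this]; exact q1'
        · have h5 := hTw b (by
            rintro ⟨i, hi⟩
            have := congrArg Fin.val hi
            simp only [Fin.castLEEmb_apply, Fin.val_castLE] at this
            have := i.2
            omega)
          rw [Finset.mem_filter] at h5
          exact h5.2
      by_contra hcon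
      push Not at hcon
      obtain ⟨hnR, hpairs⟩ := hcon
      -- all pairs other than (0,1) are cross
      have hcross : ∀ i j : Fin k, i < j → ¬ ((i : ℕ) = 0 ∧ (j : ℕ) = 1) → L s(w i, w j) = univ := by
        intro i j hij hne
        have hij' := Fin.lt_def.1 hij
        have h5 := LIST_not_SB (hpairs i j hij)
        have hQne : Q (w i) ≠ Q (w j) := by
          rw [hQw i, hQw j]
          intro h
          have h6 := π.injective h
          rw [Fin.mk.injEq] at h6
          have := i.2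
          have := j.2
          rw [Nat.mod_eq_of_lt (by omega), Nat.mod_eq_of_lt (by omega)] at h6
          omega
        rw [if_neg hQne] at h5
        exact CLO_eL_zero (by omega) hg0 _ h5
      have h01 : (L s(w ⟨0, by omega⟩, w ⟨1, by omega⟩)).card = 1 := qL
      have hne : ∀ i j : Fin k, i < j → (L s(w i, w j)).Nonempty := by
        intro i j hij
        by_cases h : (i : ℕ) = 0 ∧ (j : ℕ) = 1
        · have e1 : i = ⟨0, by omega⟩ := Fin.ext h.1
          have e2 : j = ⟨1, by omega⟩ := Fin.ext h.2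
          rw [e1, e2, ← card_pos, h01]; exact one_pos
        · rw [hcross i j hij h]; exact ⟨⟨0, by omega⟩, mem_univ _⟩
      obtain ⟨P, hPne, hPlt, hPc⟩ := kon (by omega) H.hd H.hsd (fun i j => L s(w i, w j)) hne hnR
      have hnu := CLO_no_univ H.hsd hsr (fun i j => L s(w i, w j)) P hPlt hPc
      have hP1 : P.card ≤ 1 := by
        rw [Finset.card_le_one]
        intro q hq q' hq'
        have h5 : (q.1 : ℕ) = 0 ∧ (q.2 : ℕ) = 1 := by
          by_contra h
          exact hnu q hq (hcross _ _ (hPlt q hq) h)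
        have h6 : (q'.1 : ℕ) = 0 ∧ (q'.2 : ℕ) = 1 := by
          by_contra h
          exact hnu q' hq' (hcross _ _ (hPlt q' hq') h)
        exact Prod.ext (Fin.ext (by omega)) (Fin.ext (by omega))
      have hU1 : 1 ≤ (P.biUnion fun q => L s(w q.1, w q.2)).card := by
        obtain ⟨q, hq⟩ := hPne
        have h7 := card_le_card (subset_biUnion_of_mem
          (fun q : Fin k × Fin k => L s(w q.1, w q.2)) hq)
        have h8 := (hne _ _ (hPlt q hq)).card_pos
        omega
      have := H.hd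
      omega
  refine le_trans ?_ h4
  have : (univ.filter fun x : Fin n × Fin n => Q x.1 = c ∧ Q x.2 = c ∧
      (L s(x.1, x.2)).card = 1).card ≤ B2.card := by
    apply Finset.card_le_card_of_injOn (fun x : Fin n × Fin n => ![x.1, x.2])
    · intro x hx
      rw [Finset.mem_coe, Finset.mem_filter] at hx
      simp only [Finset.mem_coe, hB2, Finset.mem_filter, mem_univ, true_and]
      exact hx.2
    · intro x _ x' _ h
      have e0 := congrFun h 0
      have e1 := congrFun h 1
      simp only [Matrix.cons_val_zero, Matrix.cons_val_one] at e0 e1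
      exact Prod.ext e0 e1
  exact_mod_cast this

/-! ### LIST -/
theorem structure_lists {k s r d : ℕ} {g : ℝ} (H : Par k s r d g) {τ : ℝ} (hτ : 0 < τ) :
    ∃ η : ℝ, 0 < η ∧ ∀ n : ℕ, 0 < n → ∀ L : LS (Fin n) r,
      (nRb k s L : ℝ) ≤ η * (n : ℝ) ^ k → ∀ p a : ℕ, Shape k d r g p a → ∀ Q : Fin n → Fin p,
        Bal η Q → (sizeBad g L Q : ℝ) ≤ η * (n : ℝ) ^ 2 →
        ∃ A : Finset (Fin r), A.card = a ∧ (listBad L Q A : ℝ) ≤ τ * (n : ℝ) ^ 2 := by
  classical
  have hk := H.hk
  have hs := H.hs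
  have hsr := H.hsr
  have hg := H.hg
  have hk' : (3 : ℝ) ≤ k := by exact_mod_cast hk
  have hg0 : 0 < g := by linarith
  set K1 : ℝ := k ^ 2 * (2 * (2 * k) ^ 2 * ((k ^ 2 + 1) * (2 * k) ^ k)) * (2 * (2 * k) ^ 2) + 1
    with hK1
  set K2 : ℝ := k * ((k ^ 2 + 1) * (2 * k) ^ k) + 1 with hK2
  have hK1pos : 0 < K1 := by positivity
  have hK2pos : 0 < K2 := by positivity
  set η : ℝ := min (min (1 / (2 * k)) ((1 / (2 * k)) ^ 2 / 2)) (min (τ / K1) (τ / K2)) with hη
  have hη0 : 0 < η := by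
    rw [hη]
    apply lt_min
    · apply lt_min <;> positivity
    · apply lt_min <;> positivity
  have hη1 : η ≤ 1 / (2 * k) := (min_le_left _ _).trans (min_le_left _ _)
  have hη2 : η ≤ (1 / (2 * k)) ^ 2 / 2 := (min_le_left _ _).trans (min_le_right _ _)
  have hη3 : K1 * η ≤ τ := by
    have : η ≤ τ / K1 := (min_le_right _ _).trans (min_le_left _ _)
    rw [le_div_iff₀ hK1pos] at this
    linarith
  have hη4 : K2 * η ≤ τ := by
    have : η ≤ τ / K2 := (min_le_right _ _).trans (min_le_right _ _)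
    rw [le_div_iff₀ hK2pos] at this
    linarith
  refine ⟨η, hη0, ?_⟩
  intro n hn L hR p a hS Q hBal hSB
  have hn0 : (0 : ℝ) < n := by exact_mod_cast hn
  have hp : 1 ≤ p ∧ p < k := by
    rcases hS with h | h
    · have := h.2.1; have := h.2.2.1; omega
    · have := h.2.1; omega
  have hcl : ∀ i, 1 / (2 * k) * (n : ℝ) ≤ ((univ.filter fun u => Q u = i).card : ℝ) :=
    fun i => LIST_class Q hp.1 hp.2 hη1 hBal i
  rcases hS with hL | hT
  · obtain ⟨A, hA, hbad⟩ := LIST_loop H hL hn L hη0.le hη2 hR Q hcl hSB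
    refine ⟨A, hA, hbad.trans ?_⟩
    exact mul_le_mul_of_nonneg_right hη3 (by positivity)
  · refine ⟨∅, by rw [card_empty]; exact hT.1.symm, ?_⟩
    set SB := LIST_SB g L Q with hSBdef
    have hSBc : (SB.card : ℝ) ≤ η * (n : ℝ) ^ 2 := by rw [hSBdef, LIST_SB_card]; exact hSB
    have h1 : listBad L Q (∅ : Finset (Fin r)) ≤ (∑ c : Fin p, (univ.filter fun x : Fin n × Fin n =>
        Q x.1 = c ∧ Q x.2 = c ∧ (L s(x.1, x.2)).card = 1).card) + SB.card := by
      unfold listBad
      have h2 : (univ.filter fun x : Fin n × Fin n =>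
          L s(x.1, x.2) ≠ pureL (∅ : Finset (Fin r)) (Q x.1) (Q x.2)) ⊆
          ((univ : Finset (Fin p)).biUnion fun c => univ.filter fun x : Fin n × Fin n =>
            Q x.1 = c ∧ Q x.2 = c ∧ (L s(x.1, x.2)).card = 1) ∪ SB := by
        intro x hx
        rw [Finset.mem_filter] at hx
        rw [Finset.mem_union]
        by_contra hcon
        push Not at hcon
        obtain ⟨hc1, hc2⟩ := hcon
        have h3 := LIST_not_SB (x := x.1) (y := x.2) hc2
        apply hx.2
        unfold pureL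
        by_cases hq : Q x.1 = Q x.2
        · rw [if_pos hq] at h3 ⊢
          -- card ≤ 1
          have hgp : g * beta r (max 1 (L s(x.1, x.2)).card) = g * beta r 1 := by
            have e1 : g * beta r (max 1 (L s(x.1, x.2)).card) = p := h3
            have e2 : (p : ℝ) = g := by
              rw [hT.2.2, hT.2.1, Nat.cast_sub (by omega)]; push_cast; ring
            rw [e1, e2]; simp [beta]
          have h8 := mul_left_cancel₀ hg0.ne' hgp
          have h9 := CLO_beta_inj (by omega) (le_max_left _ _) le_rfl h8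
          have h10 : (L s(x.1, x.2)).card ≠ 1 := by
            intro h
            apply hc1
            rw [Finset.mem_biUnion]
            refine ⟨Q x.1, mem_univ _, ?_⟩
            rw [Finset.mem_filter]
            exact ⟨mem_univ _, rfl, hq.symm, h⟩
          rw [← card_eq_zero]
          omega
        · rw [if_neg hq] at h3 ⊢
          exact CLO_eL_zero (by omega) hg0 _ h3
      exact (card_le_card h2).trans ((card_union_le _ _).trans
        (Nat.add_le_add_right card_biUnion_le _))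
    have h2 : (listBad L Q (∅ : Finset (Fin r)) : ℝ) ≤ (∑ c : Fin p, ((univ.filter fun x : Fin n × Fin n =>
        Q x.1 = c ∧ Q x.2 = c ∧ (L s(x.1, x.2)).card = 1).card : ℝ)) + SB.card := by
      exact_mod_cast h1
    have h3 : (∑ c : Fin p, ((univ.filter fun x : Fin n × Fin n =>
        Q x.1 = c ∧ Q x.2 = c ∧ (L s(x.1, x.2)).card = 1).card : ℝ))
        ≤ ∑ _c : Fin p, ((k ^ 2 + 1) * (2 * k) ^ k * η * (n : ℝ) ^ 2) :=
      Finset.sum_le_sum fun c _ => LIST_turan H hT hn L hR Q hcl hSB c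
    rw [Finset.sum_const, card_univ, Fintype.card_fin, nsmul_eq_mul] at h3
    have h4 : (p : ℝ) * ((k ^ 2 + 1) * (2 * k) ^ k * η * (n : ℝ) ^ 2)
        ≤ k * ((k ^ 2 + 1) * (2 * k) ^ k * η * (n : ℝ) ^ 2) := by
      apply mul_le_mul_of_nonneg_right _ (by positivity)
      exact_mod_cast hp.2.le
    have h5 : K2 * η * (n : ℝ) ^ 2 ≤ τ * (n : ℝ) ^ 2 :=
      mul_le_mul_of_nonneg_right hη4 (by positivity)
    have h6 : K2 * η * (n : ℝ) ^ 2 = k * ((k ^ 2 + 1) * (2 * k) ^ k * η * (n : ℝ) ^ 2)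
        + η * (n : ℝ) ^ 2 := by
      rw [hK2]; ring
    linarith

end Pool.ER
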