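import Mathlib
import Pool.Agent.ER.Defs
import Pool.Agent.ER.CHE
import Pool.Agent.ER.RES

set_option autoImplicit false

open Finset Filter

namespace Pool.ER

/-! ### ROW -/

/-- sum of the weights over the possible values of one pair -/
theorem ROW_sum_one {r : ℕ} (A : Finset (Fin r)) {x : ℝ} (hx : 0 < x) :
    ∑ c : Fin r, (if c ∉ A then x else 1) ≤ (max 1 (A.card : ℝ)) * (1 + r * x) := by
  have h1 : ∑ c : Fin r, (if c ∉ A then x else 1) = (Aᶜ.card : ℝ) * x + A.card := by
    rw [Finset.sum_ite]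
    simp only [not_not, Finset.sum_const, nsmul_eq_mul, mul_one]
    congr 2
    · congr 1
      congr 1
      ext c; simp
    · congr 1
      ext c; simp
  have h2 : (Aᶜ.card : ℝ) ≤ r := by
    have := Finset.card_le_univ (Aᶜ)
    rw [Fintype.card_fin] at this
    exact_mod_cast this
  have h3 : (1 : ℝ) ≤ max 1 (A.card : ℝ) := le_max_left _ _
  have h4 : (A.card : ℝ) ≤ max 1 (A.card : ℝ) := le_max_right _ _
  rw [h1]
  have h5 : (Aᶜ.card : ℝ) * x ≤ r * x := mul_le_mul_of_nonneg_right h2 hx.le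
  have h6 : (0 : ℝ) ≤ r * x := by positivity
  nlinarith

theorem ROW_fibre {r n : ℕ} (L : LS (Fin n) r) (B : Finset (Fin n)) (G : SimpleGraph (Fin n))
    (ψ : CG (Fin n) r) (F : Finset (CG (Fin n) r)) {x T : ℝ} (hx : 0 < x) (hx1 : x ≤ 1)
    (hF : ∀ φ ∈ F, (∀ e, φ e ≠ none ↔ e ∈ G.edgeSet) ∧ restr (univ \ B) φ = ψ ∧
      (exc φ L : ℝ) ≤ T) :
    (F.card : ℝ) ≤ (x ^ T)⁻¹ * ∏ e ∈ (univ : Finset (Sym2 (Fin n))).filter
      (fun e => e ∉ (univ \ B).sym2), ((max 1 ((L e).card : ℝ)) * (1 + r * x)) := by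
  classical
  have h := card_le_prod_sum
    (Ω := fun e : Sym2 (Fin n) => if e ∈ (univ \ B).sym2 then {ψ e} else
      if e ∈ G.edgeSet then (univ : Finset (Fin r)).image some else {none})
    (y := fun (e : Sym2 (Fin n)) (a : Option (Fin r)) => if e ∈ (univ \ B).sym2 then (1 : ℝ) else
      if (∃ c, c ∉ L e ∧ a = some c) then x else 1)
    (by
      intro e a
      split_ifs <;> positivity)
    F
    (by
      intro φ hφ e
      obtain ⟨h1, h2, h3⟩ := hF φ hφ
      split_ifs with h4 h5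
      · rw [Finset.mem_singleton, ← h2]
        simp only [restr]
        rw [if_pos h4]
      · have := (h1 e).2 h5
        rw [Finset.mem_image]
        obtain ⟨c, hc⟩ := Option.ne_none_iff_exists'.1 this
        exact ⟨c, mem_univ _, hc.symm⟩
      · rw [Finset.mem_singleton]
        by_contra h6
        exact h5 ((h1 e).1 h6))
    (c := x ^ T) (Real.rpow_pos_of_pos hx T)
    (by
      intro φ hφ
      obtain ⟨h1, h2, h3⟩ := hF φ hφ
      have h4 : ∏ e : Sym2 (Fin n), (if (∃ c, c ∉ L e ∧ φ e = some c) then x else 1)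
          = x ^ (exc φ L) := by
        rw [Finset.prod_ite]
        simp only [Finset.prod_const, one_pow, mul_one]
        rfl
      calc x ^ T ≤ x ^ ((exc φ L : ℕ) : ℝ) := Real.rpow_le_rpow_of_exponent_ge hx hx1 h3
        _ = x ^ (exc φ L) := Real.rpow_natCast _ _
        _ = ∏ e : Sym2 (Fin n), (if (∃ c, c ∉ L e ∧ φ e = some c) then x else 1) := h4.symm
        _ ≤ _ := by
          refine Finset.prod_le_prod (fun e _ => ?_) (fun e _ => ?_)
          · split_ifs <;> positivity
          · split_ifs <;> first | exact le_refl _ | exact hx1)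
  refine h.trans ?_
  refine mul_le_mul_of_nonneg_left ?_ (inv_nonneg.2 (Real.rpow_nonneg hx.le T))
  rw [Finset.prod_filter]
  refine Finset.prod_le_prod (fun e _ => ?_) (fun e _ => ?_)
  · refine Finset.sum_nonneg fun a _ => ?_
    split_ifs <;> positivity
  · have hM : (1 : ℝ) ≤ max 1 ((L e).card : ℝ) := le_max_left _ _
    have hR : (0 : ℝ) ≤ r * x := by positivity
    by_cases h4 : e ∈ (univ \ B).sym2
    · simp only [h4, if_true, not_true_eq_false, if_false, Finset.sum_singleton, le_refl]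
    · simp only [h4, if_false, not_false_eq_true, if_true]
      by_cases h5 : e ∈ G.edgeSet
      · simp only [h5, if_true]
        rw [Finset.sum_image (fun a _ b _ hab => Option.some_injective _ hab)]
        refine le_trans (le_of_eq ?_) (ROW_sum_one (L e) hx)
        refine Finset.sum_congr rfl fun c _ => ?_
        by_cases h6 : c ∈ L e
        · have : ¬ ∃ c', c' ∉ L e ∧ (some c : Option (Fin r)) = some c' := by
            rintro ⟨c', h7, h8⟩
            exact h7 (Option.some_injective _ h8 ▸ h6)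
          rw [if_neg this, if_neg (not_not.2 h6)]
        · have : ∃ c', c' ∉ L e ∧ (some c : Option (Fin r)) = some c' := ⟨c, h6, rfl⟩
          rw [if_pos this, if_pos h6]
      · simp only [h5, if_false, Finset.sum_singleton]
        have : ¬ ∃ c', c' ∉ L e ∧ (none : Option (Fin r)) = some c' := by
          rintro ⟨c', h7, h8⟩
          exact Option.some_ne_none _ h8.symm
        rw [if_neg this]
        nlinarith

/-- the pairs touching `B` -/
theorem ROW_touch {n : ℕ} (B : Finset (Fin n)) :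
    (univ : Finset (Sym2 (Fin n))).filter (fun e => e ∉ (univ \ B).sym2) ⊆
      (B ×ˢ (univ : Finset (Fin n))).image (fun z => s(z.2, z.1)) := by
  intro e he
  rw [mem_filter] at he
  induction e using Sym2.ind with
  | _ a b =>
    have h1 : ¬ (a ∉ B ∧ b ∉ B) := by
      intro h2
      apply he.2
      rw [Finset.mk_mem_sym2_iff]
      simp [h2.1, h2.2]
    rw [Finset.mem_image]
    by_cases ha : a ∈ B
    · exact ⟨(a, b), by simp [ha], by simp [Sym2.eq_swap]⟩
    · have hb : b ∈ B := by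
        by_contra hb
        exact h1 ⟨ha, hb⟩
      exact ⟨(b, a), by simp [hb], rfl⟩

theorem ROW_row {g : ℝ} (hg : 0 < g) {r n : ℕ} (hr : 2 ≤ r) (L : LS (Fin n) r) (v : Fin n) :
    ∑ u : Fin n, Real.log (max 1 ((L s(u, v)).card : ℝ)) = Real.log r * (n - row g L v / g) := by
  have hlr : 0 < Real.log r := Real.log_pos (by exact_mod_cast hr)
  have h1 : row g L v = g * ∑ u : Fin n, (1 - Real.log (max 1 ((L s(u, v)).card : ℝ)) / Real.log r) := by
    unfold row
    rw [Finset.mul_sum]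
    refine Finset.sum_congr rfl fun u _ => ?_
    unfold eL beta
    push_cast
    rfl
  rw [h1, mul_div_cancel_left₀ _ hg.ne', Finset.sum_sub_distrib, ← Finset.sum_div]
  simp only [Finset.sum_const, Finset.card_univ, Fintype.card_fin, nsmul_eq_mul, mul_one]
  field_simp
  ring

theorem ROW_prod {g δ : ℝ} (hg : 0 < g) {r n : ℕ} (hr : 2 ≤ r) (L : LS (Fin n) r)
    (B : Finset (Fin n)) (hB : ∀ v ∈ B, (1 + 2 * δ * g) * n < row g L v) {x : ℝ} (hx : 0 < x) :
    ∏ e ∈ (univ : Finset (Sym2 (Fin n))).filter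
      (fun e => e ∉ (univ \ B).sym2), ((max 1 ((L e).card : ℝ)) * (1 + r * x)) ≤
    Real.exp (Real.log r * (B.card * (1 - 1 / g - 2 * δ) * n) + r * x * (B.card * n)) := by
  have hlr : 0 < Real.log r := Real.log_pos (by exact_mod_cast hr)
  have hpos : ∀ e : Sym2 (Fin n), 0 < (max 1 ((L e).card : ℝ)) * (1 + r * x) := by
    intro e
    have h1 : (0 : ℝ) < max 1 ((L e).card : ℝ) := lt_of_lt_of_le one_pos (le_max_left _ _)
    positivity
  have hprod : 0 < ∏ e ∈ (univ : Finset (Sym2 (Fin n))).filter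
      (fun e => e ∉ (univ \ B).sym2), ((max 1 ((L e).card : ℝ)) * (1 + r * x)) :=
    Finset.prod_pos fun e _ => hpos e
  rw [← Real.log_le_iff_le_exp hprod, Real.log_prod (fun e _ => (hpos e).ne')]
  have h0 : (0 : ℝ) ≤ Real.log (1 + r * x) := Real.log_nonneg (by
    have : (0 : ℝ) ≤ r * x := by positivity
    linarith)
  have h1 : ∀ e : Sym2 (Fin n), Real.log ((max 1 ((L e).card : ℝ)) * (1 + r * x)) =
      Real.log (max 1 ((L e).card : ℝ)) + Real.log (1 + r * x) := by
    intro e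
    have h1 : (0 : ℝ) < max 1 ((L e).card : ℝ) := lt_of_lt_of_le one_pos (le_max_left _ _)
    rw [Real.log_mul h1.ne' (by positivity)]
  have h2 : ∀ e : Sym2 (Fin n), 0 ≤ Real.log ((max 1 ((L e).card : ℝ)) * (1 + r * x)) := by
    intro e
    rw [h1]
    have : 0 ≤ Real.log (max 1 ((L e).card : ℝ)) := Real.log_nonneg (le_max_left _ _)
    linarith
  calc ∑ e ∈ (univ : Finset (Sym2 (Fin n))).filter (fun e => e ∉ (univ \ B).sym2),
        Real.log ((max 1 ((L e).card : ℝ)) * (1 + r * x))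
      ≤ ∑ e ∈ (B ×ˢ (univ : Finset (Fin n))).image (fun z => s(z.2, z.1)),
        Real.log ((max 1 ((L e).card : ℝ)) * (1 + r * x)) :=
          Finset.sum_le_sum_of_subset_of_nonneg (ROW_touch B) (fun e _ _ => h2 e)
    _ ≤ ∑ z ∈ B ×ˢ (univ : Finset (Fin n)),
        Real.log ((max 1 ((L s(z.2, z.1)).card : ℝ)) * (1 + r * x)) :=
          Finset.sum_image_le_of_nonneg (fun e _ => h2 e)
    _ = ∑ v ∈ B, ∑ u : Fin n, Real.log ((max 1 ((L s(u, v)).card : ℝ)) * (1 + r * x)) := by
          rw [Finset.sum_product]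
    _ = ∑ v ∈ B, (Real.log r * (n - row g L v / g) + n * Real.log (1 + r * x)) := by
          refine Finset.sum_congr rfl fun v _ => ?_
          simp only [h1]
          rw [Finset.sum_add_distrib, ROW_row hg hr]
          simp
    _ ≤ ∑ v ∈ B, (Real.log r * ((1 - 1 / g - 2 * δ) * n) + n * (r * x)) := by
          refine Finset.sum_le_sum fun v hv => ?_
          refine add_le_add ?_ ?_
          · refine mul_le_mul_of_nonneg_left ?_ hlr.le
            have h3 := (hB v hv).le
            have h4 : (1 + 2 * δ * g) * n / g ≤ row g L v / g := by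
              exact div_le_div_of_nonneg_right h3 hg.le
            have h5 : (1 + 2 * δ * g) * n / g = (1 / g + 2 * δ) * n := by
              field_simp
            rw [h5] at h4
            linarith
          · refine mul_le_mul_of_nonneg_left ?_ (Nat.cast_nonneg n)
            have h6 : (0 : ℝ) < 1 + r * x := by positivity
            have := Real.log_le_sub_one_of_pos h6
            linarith
    _ = _ := by
          rw [Finset.sum_const, nsmul_eq_mul]
          ring

theorem ROW_num {A : ℝ} (hA : 0 < A) (M : ℕ) (K : ℕ) : ∀ᶠ n : ℕ in atTop,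
    ((M : ℝ) ^ n * K * 2 ^ n) * Real.exp (-(A * (n : ℝ) ^ 2)) ≤ 1 / 16 := by
  set c₁ : ℝ := Real.log (2 * M + 1) with hc₁
  set c₂ : ℝ := Real.log (16 * K + 1) with hc₂
  have h1 : 0 ≤ c₁ := Real.log_nonneg (by
    have : (0 : ℝ) ≤ M := Nat.cast_nonneg M
    linarith)
  have h2 : 0 ≤ c₂ := Real.log_nonneg (by
    have : (0 : ℝ) ≤ K := Nat.cast_nonneg K
    linarith)
  obtain ⟨N, hN⟩ := exists_nat_ge ((c₁ + c₂) / A)
  filter_upwards [eventually_ge_atTop (max 1 N)] with n hn
  have hn1 : (1 : ℝ) ≤ n := by exact_mod_cast (le_max_left 1 N).trans hn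
  have hn2 : (N : ℝ) ≤ n := by exact_mod_cast (le_max_right 1 N).trans hn
  have h3 : c₁ + c₂ ≤ A * n := by
    rw [div_le_iff₀ hA] at hN
    nlinarith
  have h4 : n * c₁ + c₂ - A * (n : ℝ) ^ 2 ≤ 0 := by nlinarith
  have h5 : (M : ℝ) ^ n * 2 ^ n ≤ Real.exp (n * c₁) := by
    rw [hc₁, mul_comm (n : ℝ), Real.exp_mul, Real.exp_log (by positivity), Real.rpow_natCast,
      ← mul_pow]
    refine pow_le_pow_left₀ (by positivity) (by linarith) n
  have h6 : (K : ℝ) ≤ (1 / 16) * Real.exp c₂ := by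
    rw [hc₂, Real.exp_log (by positivity)]
    linarith
  calc ((M : ℝ) ^ n * K * 2 ^ n) * Real.exp (-(A * (n : ℝ) ^ 2))
      = ((M : ℝ) ^ n * 2 ^ n) * K * Real.exp (-(A * (n : ℝ) ^ 2)) := by ring
    _ ≤ (Real.exp (n * c₁) * ((1 / 16) * Real.exp c₂)) * Real.exp (-(A * (n : ℝ) ^ 2)) := by
        refine mul_le_mul_of_nonneg_right ?_ (Real.exp_pos _).le
        exact mul_le_mul h5 h6 (Nat.cast_nonneg K) (Real.exp_pos _).le
    _ = (1 / 16) * Real.exp (n * c₁ + c₂ - A * (n : ℝ) ^ 2) := by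
        rw [sub_eq_add_neg, Real.exp_add, Real.exp_add]
        ring
    _ ≤ (1 / 16) * 1 := by
        refine mul_le_mul_of_nonneg_left ?_ (by norm_num)
        rw [← Real.exp_zero]
        exact Real.exp_le_exp.2 h4
    _ = 1 / 16 := by ring

theorem ROW_cnum_le {k s r m : ℕ} (hr : 2 ≤ r) :
    (cnum k s r m : ℝ) ≤ Real.exp (Real.log r * lc k s r m) := by
  have hlr : 0 < Real.log r := Real.log_pos (by exact_mod_cast hr)
  unfold lc Real.logb
  rw [mul_div_cancel₀ _ hlr.ne']
  rcases Nat.eq_zero_or_pos (cnum k s r m) with h | h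
  · rw [h, Nat.cast_zero]; exact (Real.exp_pos _).le
  · rw [Real.exp_log (by exact_mod_cast h)]

theorem ROW_cnum_eq {k s r m : ℕ} (hr : 2 ≤ r) (h : 0 < cnum k s r m) :
    Real.exp (Real.log r * lc k s r m) = (cnum k s r m : ℝ) := by
  have hlr : 0 < Real.log r := Real.log_pos (by exact_mod_cast hr)
  unfold lc Real.logb
  rw [mul_div_cancel₀ _ hlr.ne', Real.exp_log (by exact_mod_cast h)]

/-- one term of the union bound -/
theorem ROW_one {k s r n : ℕ} (hk : 3 ≤ k) (hr : 2 ≤ r) {g δ : ℝ} (hg : 0 < g)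
    (L : LS (Fin n) r) (B : Finset (Fin n)) (hB : ∀ v ∈ B, (1 + 2 * δ * g) * n < row g L v)
    (G : SimpleGraph (Fin n)) (F : Finset (CG (Fin n) r)) (hF : F ⊆ cols k s r G) {x T : ℝ}
    (hx : 0 < x) (hx1 : x ≤ 1) (hFT : ∀ φ ∈ F, (exc φ L : ℝ) ≤ T) :
    (F.card : ℝ) ≤ Real.exp (Real.log r * lc k s r (n - B.card)) *
      (Real.exp (-(Real.log x * T)) *
        Real.exp (Real.log r * (B.card * (1 - 1 / g - 2 * δ) * n) + r * x * (B.card * n))) := by
  classical
  set bd : ℝ := Real.exp (-(Real.log x * T)) *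
        Real.exp (Real.log r * (B.card * (1 - 1 / g - 2 * δ) * n) + r * x * (B.card * n)) with hbd
  have h1 : F.card = ∑ ψ ∈ F.image (restr (univ \ B)),
      (F.filter fun φ => restr (univ \ B) φ = ψ).card := Finset.card_eq_sum_card_image _ _
  have h2 : ∀ ψ ∈ F.image (restr (univ \ B)),
      ((F.filter fun φ => restr (univ \ B) φ = ψ).card : ℝ) ≤ bd := by
    intro ψ _
    have h3 := ROW_fibre L B G ψ (F.filter fun φ => restr (univ \ B) φ = ψ) (x := x) (T := T) hx hx1
      (by
        intro φ hφ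
        rw [mem_filter] at hφ
        have h4 := hF hφ.1
        unfold cols at h4
        rw [mem_filter] at h4
        exact ⟨h4.2.1, hφ.2, hFT φ hφ.1⟩)
    refine h3.trans ?_
    rw [hbd]
    have h5 : (x ^ T)⁻¹ = Real.exp (-(Real.log x * T)) := by
      rw [Real.rpow_def_of_pos hx, Real.exp_neg]
    rw [h5]
    exact mul_le_mul_of_nonneg_left (ROW_prod hg hr L B hB hx) (Real.exp_pos _).le
  have h6 : ((F.image (restr (univ \ B))).card : ℝ) ≤
      Real.exp (Real.log r * lc k s r (n - B.card)) := by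
    refine le_trans ?_ (ROW_cnum_le hr)
    have h7 : (F.image (restr (univ \ B))).card ≤ ((cols k s r G).image (restr (univ \ B))).card :=
      Finset.card_le_card (Finset.image_subset_image hF)
    have h8 := h7.trans (card_image_restr_le (by omega) G (univ \ B))
    have h9 : (univ \ B).card = n - B.card := by
      rw [Finset.card_sdiff_of_subset (Finset.subset_univ B), Finset.card_univ, Fintype.card_fin]
    rw [h9] at h8
    exact_mod_cast h8
  have h10 : (F.card : ℝ) = ∑ ψ ∈ F.image (restr (univ \ B)),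
      ((F.filter fun φ => restr (univ \ B) φ = ψ).card : ℝ) := by
    rw [h1]; push_cast
    rfl
  rw [h10]
  refine (Finset.sum_le_sum h2).trans ?_
  rw [Finset.sum_const, nsmul_eq_mul]
  exact mul_le_mul_of_nonneg_right h6 (by rw [hbd]; positivity)

theorem row_bound {k s r : ℕ} (hk : 3 ≤ k) (hr : 2 ≤ r) {g δ ρ : ℝ} (hg : 0 < g) (hδ : 0 < δ)
    (hρ : 0 < ρ) : ∃ η : ℝ, 0 < η ∧ ∀ M : ℕ, ∀ᶠ n : ℕ in atTop, Dec k s r g ρ δ n →
      ∀ G : SimpleGraph (Fin n), ∀ E ⊆ cols k s r G,
      (∀ φ ∈ E, ∃ (P : Fin n → Fin M) (Λ : LS (Fin M) r),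
          (exc φ (pull P Λ) : ℝ) ≤ η * (n : ℝ) ^ 2 ∧
          ρ * n < nHigh g (1 + 2 * δ * g) (pull P Λ)) →
      (E.card : ℝ) ≤ cnum k s r n / 16 := by
  classical
  have hlr : 0 < Real.log r := Real.log_pos (by exact_mod_cast hr)
  have hr0 : (0 : ℝ) < r := by positivity
  set l : ℝ := Real.log r with hl
  set x : ℝ := min 1 (δ * l / (2 * r)) with hxdef
  have hx : 0 < x := by
    rw [hxdef]; exact lt_min one_pos (by positivity)
  have hx1 : x ≤ 1 := min_le_left _ _
  have hrx : r * x ≤ δ * l / 2 := by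
    have h1 : x ≤ δ * l / (2 * r) := min_le_right _ _
    calc r * x ≤ r * (δ * l / (2 * r)) := mul_le_mul_of_nonneg_left h1 hr0.le
      _ = δ * l / 2 := by field_simp
  have hlx : Real.log x ≤ 0 := Real.log_nonpos hx.le hx1
  set A : ℝ := ρ * δ * l / 4 with hA
  have hA0 : 0 < A := by rw [hA]; positivity
  set η : ℝ := A / (-Real.log x + 1) with hη
  have hη0 : 0 < η := by
    rw [hη]; exact div_pos hA0 (by linarith)
  have hηA : -(Real.log x * η) ≤ A := by
    have h1 : η * (-Real.log x + 1) = A := by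
      rw [hη]; exact div_mul_cancel₀ _ (by linarith)
    nlinarith
  refine ⟨η, hη0, fun M => ?_⟩
  filter_upwards [ROW_num hA0 M (Fintype.card (LS (Fin M) r))] with n hn hDec G E hE hE2
  set b : ℕ := ⌊ρ * n⌋₊ + 1 with hb
  have hρn : 0 ≤ ρ * n := by positivity
  have hb1 : (b : ℝ) ≤ ρ * n + 1 := by
    rw [hb]; push_cast
    have := Nat.floor_le hρn
    linarith
  have hb2 : ρ * n ≤ b := by
    rw [hb]; push_cast
    exact (Nat.lt_floor_add_one _).le
  have hD := hDec b hb1
  rcases Finset.eq_empty_or_nonempty E with hEe | ⟨φ₀, hφ₀⟩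
  · rw [hEe, Finset.card_empty, Nat.cast_zero]
    positivity
  have hcpos : 0 < cnum k s r n := by
    have h1 : 0 < (cols k s r G).card := Finset.card_pos.2 ⟨φ₀, hE hφ₀⟩
    exact lt_of_lt_of_le h1
      (Finset.le_sup (f := fun G : SimpleGraph (Fin n) => (cols k s r G).card) (mem_univ G))
  -- the union bound
  set I : Finset ((Fin n → Fin M) × LS (Fin M) r × Finset (Fin n)) := univ with hI
  set F : ((Fin n → Fin M) × LS (Fin M) r × Finset (Fin n)) → Finset (CG (Fin n) r) := fun i =>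
    if (i.2.2.card = b ∧ ∀ v ∈ i.2.2, (1 + 2 * δ * g) * n < row g (pull i.1 i.2.1) v) then
      E.filter (fun φ => (exc φ (pull i.1 i.2.1) : ℝ) ≤ η * (n : ℝ) ^ 2) else ∅ with hFdef
  have hcov : E ⊆ I.biUnion F := by
    intro φ hφ
    obtain ⟨P, Λ, h1, h2⟩ := hE2 φ hφ
    unfold nHigh at h2
    have h3 : b ≤ (univ.filter fun v : Fin n =>
        (1 + 2 * δ * g) * n < row g (pull P Λ) v).card := by
      rw [hb]
      exact (Nat.floor_lt hρn).2 h2
    obtain ⟨B, hB1, hB2⟩ := Finset.exists_subset_card_eq h3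
    rw [Finset.mem_biUnion]
    refine ⟨(P, Λ, B), mem_univ _, ?_⟩
    rw [hFdef]
    dsimp only
    rw [if_pos ⟨hB2, fun v hv => (mem_filter.1 (hB1 hv)).2⟩, mem_filter]
    exact ⟨hφ, h1⟩
  set bd : ℝ := Real.exp (l * lc k s r n - A * (n : ℝ) ^ 2) with hbd
  have hFb : ∀ i ∈ I, ((F i).card : ℝ) ≤ bd := by
    intro i _
    rw [hFdef]
    dsimp only
    split_ifs with hi
    · have h1 := ROW_one (k := k) (s := s) hk hr (δ := δ) hg (pull i.1 i.2.1) i.2.2 hi.2 G
        (E.filter (fun φ => (exc φ (pull i.1 i.2.1) : ℝ) ≤ η * (n : ℝ) ^ 2))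
        ((Finset.filter_subset _ _).trans hE) (x := x) (T := η * (n : ℝ) ^ 2) hx hx1
        (fun φ hφ => (mem_filter.1 hφ).2)
      refine h1.trans ?_
      rw [← Real.exp_add, ← Real.exp_add, hbd, Real.exp_le_exp, hi.1]
      have h2 : l * (lc k s r (n - b) + b * (1 - 1 / g - δ) * n) ≤ l * lc k s r n :=
        mul_le_mul_of_nonneg_left hD hlr.le
      have hn0 : (0 : ℝ) ≤ n := Nat.cast_nonneg n
      have hbn : (0 : ℝ) ≤ b * n := by positivity
      have h3 : r * x * (b * n) ≤ δ * l / 2 * (b * n) := mul_le_mul_of_nonneg_right hrx hbn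
      have h4 : -(Real.log x * (η * (n : ℝ) ^ 2)) ≤ A * (n : ℝ) ^ 2 := by
        have := mul_le_mul_of_nonneg_right hηA (sq_nonneg (n : ℝ))
        linarith
      have h5 : ρ * n * n ≤ b * n := mul_le_mul_of_nonneg_right hb2 hn0
      have h6 : (δ * l / 2) * (ρ * n * n) ≤ (δ * l / 2) * (b * n) :=
        mul_le_mul_of_nonneg_left h5 (by positivity)
      have h7 : (δ * l / 2) * (ρ * n * n) = 2 * A * (n : ℝ) ^ 2 := by
        rw [hA]; ring
      nlinarith
    · rw [Finset.card_empty, hbd]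
      push_cast
      exact (Real.exp_pos _).le
  have h1 : (E.card : ℝ) ≤ (I.card : ℝ) * bd := by
    have h2 : E.card ≤ ∑ i ∈ I, (F i).card := (Finset.card_le_card hcov).trans Finset.card_biUnion_le
    have h3 : (E.card : ℝ) ≤ ∑ i ∈ I, ((F i).card : ℝ) := by exact_mod_cast h2
    refine h3.trans ((Finset.sum_le_sum hFb).trans ?_)
    rw [Finset.sum_const, nsmul_eq_mul]
  have h2 : (I.card : ℝ) = (M : ℝ) ^ n * (Fintype.card (LS (Fin M) r) : ℝ) * 2 ^ n := by
    rw [hI, Finset.card_univ, Fintype.card_prod, Fintype.card_prod]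
    simp only [Fintype.card_finset, Fintype.card_fin, Fintype.card_fun]
    push_cast
    ring
  rw [h2, hbd, sub_eq_add_neg, Real.exp_add, hl, ROW_cnum_eq hr hcpos] at h1
  have hc0 : (0 : ℝ) ≤ cnum k s r n := Nat.cast_nonneg _
  calc (E.card : ℝ) ≤ _ := h1
    _ = (cnum k s r n : ℝ) * (((M : ℝ) ^ n * (Fintype.card (LS (Fin M) r) : ℝ) * 2 ^ n) *
        Real.exp (-(A * (n : ℝ) ^ 2))) := by ring
    _ ≤ (cnum k s r n : ℝ) * (1 / 16) := mul_le_mul_of_nonneg_left hn hc0
    _ = _ := by ring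

end Pool.ER
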