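import Mathlib
import Pool.Agent.ER.Defs

set_option autoImplicit false

/-!
# SIZA: perfect tuples (core, from the statement of TUP)
-/

open Finset Filter

namespace Pool.ER

namespace SIZA

theorem exists_gap (S : Finset ℝ) : ∃ κ : ℝ, 0 < κ ∧ ∀ x ∈ S, 0 < x → κ ≤ x := by
  classical
  induction S using Finset.induction_on with
  | empty => exact ⟨1, one_pos, fun x hx => absurd hx (Finset.notMem_empty x)⟩
  | insert a S ha ih =>
    obtain ⟨κ, hκ, hκ2⟩ := ih
    by_cases h : 0 < a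
    · refine ⟨min κ a, lt_min hκ h, fun x hx hx0 => ?_⟩
      rcases Finset.mem_insert.1 hx with rfl | hx
      · exact min_le_right _ _
      · exact (min_le_left _ _).trans (hκ2 x hx hx0)
    · refine ⟨κ, hκ, fun x hx hx0 => ?_⟩
      rcases Finset.mem_insert.1 hx with rfl | hx
      · exact absurd hx0 h
      · exact hκ2 x hx hx0

theorem exists_kappa (k r : ℕ) (g : ℝ) : ∃ κ : ℝ, 0 < κ ∧ ∀ l ≤ k, ∀ t : ℕ → ℕ, (∀ i, t i ≤ r) →
    (l : ℝ) < ∑ i ∈ range l, g * beta r (t i) → l + κ ≤ ∑ i ∈ range l, g * beta r (t i) := by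
  classical
  obtain ⟨κ, hκ, hκ2⟩ := exists_gap ((univ : Finset (Fin (k + 1) × (Fin k → Fin (r + 1)))).image
    fun z => (∑ i ∈ range (z.1 : ℕ), g * beta r (if h : i < k then (z.2 ⟨i, h⟩ : ℕ) else 0)) - (z.1 : ℕ))
  refine ⟨κ, hκ, fun l hl t ht hlt => ?_⟩
  have h1 := hκ2 ((∑ i ∈ range l, g * beta r (t i)) - l) (Finset.mem_image.2
    ⟨(⟨l, by omega⟩, fun i => ⟨t i, by have := ht i; omega⟩), Finset.mem_univ _, ?_⟩) (by linarith)
  · linarith
  · dsimp only
    congr 1
    refine Finset.sum_congr rfl fun i hi => ?_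
    rw [dif_pos (by have := Finset.mem_range.1 hi; omega)]

theorem eL_nonneg {r : ℕ} (hr : 2 ≤ r) {g : ℝ} (hg : 0 ≤ g) (L : Finset (Fin r)) : 0 ≤ eL g L := by
  unfold eL beta
  refine mul_nonneg hg ?_
  have h1 : (max 1 L.card : ℕ) ≤ r := max_le (by omega) (by simpa using Finset.card_le_univ L)
  have hlr : 0 < Real.log r := Real.log_pos (by exact_mod_cast hr)
  rw [sub_nonneg, div_le_one hlr]
  refine Real.log_le_log ?_ (by exact_mod_cast h1)
  have : 1 ≤ max 1 L.card := le_max_left _ _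
  exact_mod_cast this

section

variable {r n : ℕ} (k s : ℕ) (g ξ₀ η : ℝ) (L : LS (Fin n) r)

open Classical in
/-- number of rainbow extensions of the prefix of length `l` -/
noncomputable def R (l : ℕ) (w : ℕ → Fin n) : ℕ :=
  ((univ : Finset (Fin k → Fin n)).filter fun w' =>
    (∀ i : Fin k, (i : ℕ) < l → w' i = w i) ∧ Rb s L w').card

theorem R_zero (w : ℕ → Fin n) : R k s L 0 w = nRb k s L := by
  classical
  unfold R nRb
  congr 1
  ext w'
  simp

theorem R_succ (l : ℕ) (hl : l < k) (w : ℕ → Fin n) :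
    ∑ j : Fin n, R k s L (l + 1) (Function.update w l j) = R k s L l w := by
  classical
  unfold R
  rw [Finset.card_eq_sum_card_fiberwise (f := fun w' : Fin k → Fin n => w' ⟨l, hl⟩)
    (t := (univ : Finset (Fin n))) (fun _ _ => Finset.mem_coe.2 (Finset.mem_univ _))]
  refine Finset.sum_congr rfl fun j _ => ?_
  congr 1
  ext w'
  simp only [Finset.mem_filter, Finset.mem_univ, true_and]
  constructor
  · rintro ⟨h1, h2⟩
    refine ⟨⟨fun i hi => ?_, h2⟩, ?_⟩
    · rw [h1 i (by omega), Function.update_of_ne (by omega)]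
    · rw [h1 ⟨l, hl⟩ (Nat.lt_succ_self l), Function.update_self]
  · rintro ⟨⟨h1, h2⟩, h3⟩
    refine ⟨fun i hi => ?_, h2⟩
    by_cases hil : (i : ℕ) = l
    · have : i = ⟨l, hl⟩ := Fin.ext hil
      subst this
      rw [h3, Function.update_self]
    · rw [h1 i (by omega), Function.update_of_ne hil]

theorem one_le_R (w : ℕ → Fin n) (h : Rb s L (fun i : Fin k => w i)) : 1 ≤ R k s L k w := by
  classical
  unfold R
  rw [Nat.one_le_iff_ne_zero, Finset.card_ne_zero]
  exact ⟨fun i => w i, by simp [h]⟩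

/-- few rainbow extensions -/
def Good (l : ℕ) (w : ℕ → Fin n) : Prop := (R k s L l w : ℝ) ≤ (ξ₀ * n) ^ (k - l) / 2

variable {k s g ξ₀ η L}

theorem Good.full {w : ℕ → Fin n} (h : Good k s ξ₀ L k w) : ¬ Rb s L (fun i : Fin k => w i) := by
  intro hR
  have h1 := one_le_R k s L w hR
  unfold Good at h
  rw [Nat.sub_self, pow_zero] at h
  have h2 : (1 : ℝ) ≤ R k s L k w := by exact_mod_cast h1
  linarith

open Classical in
theorem Good.markov (hξ₀ : 0 < ξ₀) (hn : 0 < n) {l : ℕ} (hl : l < k) {w : ℕ → Fin n}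
    (h : Good k s ξ₀ L l w) :
    ((univ.filter fun j : Fin n => ¬ Good k s ξ₀ L (l + 1) (Function.update w l j)).card : ℝ) ≤
      ξ₀ * n := by
  set S := univ.filter fun j : Fin n => ¬ Good k s ξ₀ L (l + 1) (Function.update w l j) with hS
  have hpos : 0 < ξ₀ * n := mul_pos hξ₀ (by exact_mod_cast hn)
  have h1 : (S.card : ℝ) * ((ξ₀ * n) ^ (k - (l + 1)) / 2) ≤ (ξ₀ * n) ^ (k - l) / 2 := by
    refine le_trans ?_ h
    rw [← R_succ k s L l hl w]
    push_cast
    calc (S.card : ℝ) * ((ξ₀ * n) ^ (k - (l + 1)) / 2)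
        = ∑ _j ∈ S, (ξ₀ * n) ^ (k - (l + 1)) / 2 := by rw [Finset.sum_const, nsmul_eq_mul]
      _ ≤ ∑ j ∈ S, (R k s L (l + 1) (Function.update w l j) : ℝ) := by
          refine Finset.sum_le_sum fun j hj => ?_
          have := (Finset.mem_filter.1 hj).2
          unfold Good at this
          exact (not_le.1 this).le
      _ ≤ ∑ j, (R k s L (l + 1) (Function.update w l j) : ℝ) :=
          Finset.sum_le_sum_of_subset_of_nonneg (Finset.subset_univ _) fun _ _ _ => by positivity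
  have h2 : (ξ₀ * n) ^ (k - l) = (ξ₀ * n) ^ (k - (l + 1)) * (ξ₀ * n) := by
    rw [← pow_succ]
    congr 1
    omega
  have h3 : 0 < (ξ₀ * n) ^ (k - (l + 1)) := pow_pos hpos _
  rw [h2] at h1
  have h4 : (ξ₀ * n) ^ (k - (l + 1)) * (S.card : ℝ) ≤ (ξ₀ * n) ^ (k - (l + 1)) * (ξ₀ * n) := by
    linarith
  exact le_of_mul_le_mul_left h4 h3

open Classical in
/-- few pairs have many rainbow extensions -/
theorem pairs_markov (hξ₀ : 0 < ξ₀) (hn : 0 < n) (hk : 2 ≤ k) (w : ℕ → Fin n)
    (h : (nRb k s L : ℝ) ≤ (ξ₀ * n) ^ k / 2) :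
    ((univ.filter fun z : Fin n × Fin n =>
      ¬ Good k s ξ₀ L 2 (Function.update (Function.update w 0 z.1) 1 z.2)).card : ℝ) ≤
      (ξ₀ * n) ^ 2 := by
  set S := univ.filter fun z : Fin n × Fin n =>
      ¬ Good k s ξ₀ L 2 (Function.update (Function.update w 0 z.1) 1 z.2) with hS
  have hpos : 0 < ξ₀ * n := mul_pos hξ₀ (by exact_mod_cast hn)
  have hsum : ∑ z : Fin n × Fin n,
      R k s L 2 (Function.update (Function.update w 0 z.1) 1 z.2) = nRb k s L := by
    rw [Fintype.sum_prod_type, ← R_zero k s L w, ← R_succ k s L 0 (by omega) w]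
    refine Finset.sum_congr rfl fun j _ => ?_
    rw [← R_succ k s L (0 + 1) (by omega)]
  have h1 : (S.card : ℝ) * ((ξ₀ * n) ^ (k - 2) / 2) ≤ (ξ₀ * n) ^ k / 2 := by
    refine le_trans ?_ h
    rw [← hsum]
    push_cast
    calc (S.card : ℝ) * ((ξ₀ * n) ^ (k - 2) / 2)
        = ∑ _j ∈ S, (ξ₀ * n) ^ (k - 2) / 2 := by rw [Finset.sum_const, nsmul_eq_mul]
      _ ≤ ∑ z ∈ S, (R k s L 2 (Function.update (Function.update w 0 z.1) 1 z.2) : ℝ) := by
          refine Finset.sum_le_sum fun j hj => ?_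
          have := (Finset.mem_filter.1 hj).2
          unfold Good at this
          exact (not_le.1 this).le
      _ ≤ ∑ z : Fin n × Fin n,
            (R k s L 2 (Function.update (Function.update w 0 z.1) 1 z.2) : ℝ) :=
          Finset.sum_le_sum_of_subset_of_nonneg (Finset.subset_univ _) fun _ _ _ => by positivity
  have h2 : (ξ₀ * n) ^ k = (ξ₀ * n) ^ (k - 2) * (ξ₀ * n) ^ 2 := by
    rw [← pow_add]
    congr 1
    omega
  have h3 : 0 < (ξ₀ * n) ^ (k - 2) := pow_pos hpos _
  rw [h2] at h1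
  have h4 : (ξ₀ * n) ^ (k - 2) * (S.card : ℝ) ≤ (ξ₀ * n) ^ (k - 2) * (ξ₀ * n) ^ 2 := by
    linarith
  exact le_of_mul_le_mul_left h4 h3

variable (g η L)

/-- partial loss -/
noncomputable def ps (l : ℕ) (w : ℕ → Fin n) (j : Fin n) : ℝ :=
  ∑ i ∈ range l, eL g (L s(w i, j))

/-- greedy prefix -/
def Gr (l : ℕ) (w : ℕ → Fin n) : Prop :=
  (∀ i < l, row g L (w i) ≤ (1 + η) * n) ∧ ∀ m < l, ps g L m w (w m) ≤ m

/-- `j` is a unit after the prefix of length `p` -/
def Un (p : ℕ) (w : ℕ → Fin n) (j : Fin n) : Prop :=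
  ∃ i < p, eL g (L s(w i, j)) = p ∧ ∀ i' < p, i' ≠ i → eL g (L s(w i', j)) = 0

variable {g η L}

theorem ps_congr {l : ℕ} {w w' : ℕ → Fin n} (h : ∀ i < l, w i = w' i) (j : Fin n) :
    ps g L l w j = ps g L l w' j :=
  Finset.sum_congr rfl fun i hi => by rw [h i (Finset.mem_range.1 hi)]

theorem Un_congr {p : ℕ} {w w' : ℕ → Fin n} (h : ∀ i < p, w i = w' i) (j : Fin n) :
    Un g L p w j ↔ Un g L p w' j := by
  have key : ∀ {w w' : ℕ → Fin n}, (∀ i < p, w i = w' i) → Un g L p w j → Un g L p w' j := by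
    rintro w w' h ⟨i, hi, h1, h2⟩
    refine ⟨i, hi, ?_, fun i' hi' hne => ?_⟩
    · rw [← h i hi]; exact h1
    · rw [← h i' hi']; exact h2 i' hi' hne
  exact ⟨key h, key fun i hi => (h i hi).symm⟩

theorem update_lt {l : ℕ} (w : ℕ → Fin n) (j : Fin n) : ∀ i < l, Function.update w l j i = w i :=
  fun i hi => Function.update_of_ne (by omega) _ _

theorem Gr.snoc {l : ℕ} {w : ℕ → Fin n} (h : Gr g η L l w) {j : Fin n}
    (hj : row g L j ≤ (1 + η) * n) (hj2 : ps g L l w j ≤ l) :
    Gr g η L (l + 1) (Function.update w l j) := by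
  refine ⟨fun i hi => ?_, fun m hm => ?_⟩
  · by_cases hil : i = l
    · rw [hil, Function.update_self]; exact hj
    · rw [Function.update_of_ne hil]; exact h.1 i (by omega)
  · by_cases hml : m = l
    · rw [hml, Function.update_self, ps_congr (update_lt w j)]
      exact hj2
    · rw [Function.update_of_ne hml, ps_congr (w' := w) fun i hi => update_lt w j i (by omega)]
      exact h.2 m (by omega)

theorem sum_ps (l : ℕ) (w : ℕ → Fin n) : ∑ j, ps g L l w j = ∑ i ∈ range l, row g L (w i) := by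
  unfold ps row
  rw [Finset.sum_comm]
  refine Finset.sum_congr rfl fun i _ => Finset.sum_congr rfl fun j _ => ?_
  rw [Sym2.eq_swap]

theorem sum_ps_le {l : ℕ} {w : ℕ → Fin n} (h : ∀ i < l, row g L (w i) ≤ (1 + η) * n) :
    ∑ j, ps g L l w j ≤ l * ((1 + η) * n) := by
  rw [sum_ps]
  calc ∑ i ∈ range l, row g L (w i) ≤ ∑ _i ∈ range l, (1 + η) * n :=
        Finset.sum_le_sum fun i hi => h i (Finset.mem_range.1 hi)
    _ = l * ((1 + η) * n) := by rw [Finset.sum_const, Finset.card_range, nsmul_eq_mul]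

variable (g η L) in
open Classical in
/-- vertices with a large row -/
noncomputable def Hi : Finset (Fin n) := univ.filter fun v => (1 + η) * n < row g L v

theorem card_Hi : (Hi g η L).card = nHigh g (1 + η) L := by
  classical
  unfold Hi nHigh
  congr

theorem Un.ps_eq {p : ℕ} {w : ℕ → Fin n} {j : Fin n} (h : Un g L p w j) : ps g L p w j = p := by
  obtain ⟨i, hi, h1, h2⟩ := h
  unfold ps
  rw [Finset.sum_eq_single i, h1]
  · intro i' hi' hne
    exact h2 i' (Finset.mem_range.1 hi') hne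
  · intro h
    exact absurd (Finset.mem_range.2 hi) h

section

variable (hr : 2 ≤ r) (hg : 0 ≤ g) (hn : 0 < n) {κ : ℝ} (hκ : 0 < κ)
  (hgap : ∀ l ≤ k, ∀ t : ℕ → ℕ, (∀ i, t i ≤ r) →
    (l : ℝ) < ∑ i ∈ range l, g * beta r (t i) → l + κ ≤ ∑ i ∈ range l, g * beta r (t i))
include hr hg

theorem ps_nonneg (l : ℕ) (w : ℕ → Fin n) (j : Fin n) : 0 ≤ ps g L l w j :=
  Finset.sum_nonneg fun _ _ => eL_nonneg hr hg _

include hgap

omit hg in
theorem ps_gap {l : ℕ} (hl : l ≤ k) (w : ℕ → Fin n) (j : Fin n) (h : ¬ ps g L l w j ≤ l) :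
    l + κ ≤ ps g L l w j := by
  unfold ps eL at h ⊢
  refine hgap l hl (fun i => max 1 (L s(w i, j)).card) (fun i => max_le (by omega) ?_) (not_le.1 h)
  simpa using Finset.card_le_univ (L s(w i, j))

include hκ

open Classical in
/-- many vertices can be appended -/
theorem card_ext {l : ℕ} (hl : l ≤ k) {w : ℕ → Fin n} (hη : 0 ≤ η)
    (hHi : ((Hi g η L).card : ℝ) ≤ η * n)
    (h : ∀ i < l, row g L (w i) ≤ (1 + η) * n) {t : ℝ} (hηt : η ≤ t)
    (ht : t * (4 * k + 3 * κ) < κ) :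
    2 * t * n < ((univ.filter fun j : Fin n =>
      j ∉ Hi g η L ∧ ps g L l w j ≤ l).card : ℝ) ∨ n = 0 := by
  rcases Nat.eq_zero_or_pos n with h0 | hn
  · exact Or.inr h0
  left
  have hn' : (0 : ℝ) < n := by exact_mod_cast hn
  set E := univ.filter fun j : Fin n => j ∉ Hi g η L ∧ ps g L l w j ≤ l with hE
  set E' := univ.filter fun j : Fin n => ps g L l w j ≤ l with hE'
  have h1 : (E'.card : ℝ) ≤ E.card + η * n := by
    have hsub : E' ⊆ E ∪ Hi g η L := by
      intro j hj
      rw [Finset.mem_union]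
      by_cases hjH : j ∈ Hi g η L
      · exact Or.inr hjH
      · exact Or.inl (Finset.mem_filter.2 ⟨Finset.mem_univ _, hjH, (Finset.mem_filter.1 hj).2⟩)
    have h2 := (Finset.card_le_card hsub).trans (Finset.card_union_le _ _)
    have h3 : (E'.card : ℝ) ≤ E.card + (Hi g η L).card := by exact_mod_cast h2
    linarith
  have h2 : ((n : ℝ) - E'.card) * (l + κ) ≤ l * ((1 + η) * n) := by
    refine le_trans ?_ (sum_ps_le h)
    have hcompl : ((univ.filter fun j : Fin n => ¬ ps g L l w j ≤ l).card : ℝ) = n - E'.card := by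
      have := Finset.card_filter_add_card_filter_not (s := (univ : Finset (Fin n)))
        (fun j : Fin n => ps g L l w j ≤ l)
      rw [Finset.card_univ, Fintype.card_fin] at this
      rw [eq_sub_iff_add_eq, add_comm]
      exact_mod_cast this
    rw [← hcompl]
    calc ((univ.filter fun j : Fin n => ¬ ps g L l w j ≤ l).card : ℝ) * (l + κ)
        = ∑ _j ∈ univ.filter fun j : Fin n => ¬ ps g L l w j ≤ l, ((l : ℝ) + κ) := by
          rw [Finset.sum_const, nsmul_eq_mul]
      _ ≤ ∑ j ∈ univ.filter fun j : Fin n => ¬ ps g L l w j ≤ l, ps g L l w j :=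
          Finset.sum_le_sum fun j hj => ps_gap hr hgap hl w j (Finset.mem_filter.1 hj).2
      _ ≤ ∑ j, ps g L l w j :=
          Finset.sum_le_sum_of_subset_of_nonneg (Finset.subset_univ _)
            fun _ _ _ => ps_nonneg hr hg _ _ _
  have hlk : (l : ℝ) ≤ k := by exact_mod_cast hl
  have hl0 : (0 : ℝ) ≤ l := by positivity
  have hE'0 : (0 : ℝ) ≤ E'.card := by positivity
  -- n κ - l η n ≤ |E'| (l + κ) ≤ |E'| (k + κ)
  have h3 : n * κ - k * η * n ≤ E'.card * (k + κ) := by
    have h4 : l * η * n ≤ k * η * n := by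
      have := mul_le_mul_of_nonneg_right hlk (mul_nonneg hη hn'.le)
      linarith
    have h5 : (E'.card : ℝ) * (l + κ) ≤ E'.card * (k + κ) :=
      mul_le_mul_of_nonneg_left (by linarith) hE'0
    nlinarith
  have hkκ : (0 : ℝ) < k + κ := by positivity
  by_contra hcon
  rw [not_lt] at hcon
  have h6 : (E'.card : ℝ) ≤ 3 * t * n := by
    have : η * n ≤ t * n := mul_le_mul_of_nonneg_right hηt hn'.le
    linarith
  have h7 : (E'.card : ℝ) * (k + κ) ≤ 3 * t * n * (k + κ) := mul_le_mul_of_nonneg_right h6 hkκ.le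
  have h8 : k * η * n ≤ k * t * n := by
    have : (0 : ℝ) ≤ k * n := by positivity
    nlinarith
  have h9 : n * κ ≤ n * (t * (4 * k + 3 * κ)) := by nlinarith
  have h10 : κ ≤ t * (4 * k + 3 * κ) := le_of_mul_le_mul_left h9 hn'
  linarith

open Classical in
/-- perfection: few vertices are not units -/
theorem card_not_unit {p : ℕ} (hp : p ≤ k) {w : ℕ → Fin n}
    (hHi : ((Hi g η L).card : ℝ) ≤ η * n)
    (h : ∀ i < p, row g L (w i) ≤ (1 + η) * n) {t : ℝ} (ht0 : 0 ≤ t) (hηt : η ≤ t)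
    (hfew : ((univ.filter fun j : Fin n =>
      (j ∉ Hi g η L ∧ ps g L p w j ≤ p) ∧ ¬ Un g L p w j).card : ℝ) ≤ 3 * t * n)
    {ξ : ℝ} (hξ : t * (5 * k + 4 * κ) ≤ ξ * κ) :
    ((univ.filter fun j : Fin n => ¬ Un g L p w j).card : ℝ) ≤ ξ * n := by
  set b := univ.filter fun j : Fin n => (j ∉ Hi g η L ∧ ps g L p w j ≤ p) ∧ ¬ Un g L p w j with hb
  set a := univ.filter fun j : Fin n => ¬ ps g L p w j ≤ p with ha
  set u := univ.filter fun j : Fin n => Un g L p w j with hu
  set N := univ.filter fun j : Fin n => ¬ Un g L p w j with hN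
  have hn0 : (0 : ℝ) ≤ n := by positivity
  -- N ⊆ a ∪ (b ∪ Hi)
  have h1 : (N.card : ℝ) ≤ a.card + (b.card + η * n) := by
    have hsub : N ⊆ a ∪ (b ∪ Hi g η L) := by
      intro j hj
      have hjN := (Finset.mem_filter.1 hj).2
      rw [Finset.mem_union, Finset.mem_union]
      by_cases hjH : j ∈ Hi g η L
      · exact Or.inr (Or.inr hjH)
      · by_cases hja : ps g L p w j ≤ p
        · exact Or.inr (Or.inl (Finset.mem_filter.2 ⟨Finset.mem_univ _, ⟨hjH, hja⟩, hjN⟩))
        · exact Or.inl (Finset.mem_filter.2 ⟨Finset.mem_univ _, hja⟩)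
    have h2 := (Finset.card_le_card hsub).trans ((Finset.card_union_le _ _).trans
      (Nat.add_le_add_left (Finset.card_union_le _ _) _))
    have h3 : (N.card : ℝ) ≤ a.card + (b.card + (Hi g η L).card) := by exact_mod_cast h2
    linarith
  have h2 : (u.card : ℝ) + N.card = n := by
    have := Finset.card_filter_add_card_filter_not (s := (univ : Finset (Fin n)))
      (fun j : Fin n => Un g L p w j)
    rw [Finset.card_univ, Fintype.card_fin] at this
    exact_mod_cast this
  -- the total loss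
  have h3 : p * (u.card : ℝ) + (p + κ) * a.card ≤ p * ((1 + η) * n) := by
    refine le_trans ?_ (sum_ps_le h)
    have hdisj : Disjoint u a := by
      rw [Finset.disjoint_left]
      intro j hju hja
      exact (Finset.mem_filter.1 hja).2 (Finset.mem_filter.1 hju).2.ps_eq.le
    calc (p : ℝ) * u.card + (p + κ) * a.card
        = ∑ _j ∈ u, (p : ℝ) + ∑ _j ∈ a, ((p : ℝ) + κ) := by
          rw [Finset.sum_const, Finset.sum_const, nsmul_eq_mul, nsmul_eq_mul]
          ring
      _ ≤ ∑ j ∈ u, ps g L p w j + ∑ j ∈ a, ps g L p w j := by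
          refine add_le_add (Finset.sum_le_sum fun j hj => ?_) (Finset.sum_le_sum fun j hj => ?_)
          · exact ((Finset.mem_filter.1 hj).2.ps_eq).ge
          · exact ps_gap hr hgap hp w j (Finset.mem_filter.1 hj).2
      _ = ∑ j ∈ u ∪ a, ps g L p w j := (Finset.sum_union hdisj).symm
      _ ≤ ∑ j, ps g L p w j :=
          Finset.sum_le_sum_of_subset_of_nonneg (Finset.subset_univ _)
            fun _ _ _ => ps_nonneg hr hg _ _ _
  have hpk : (p : ℝ) ≤ k := by exact_mod_cast hp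
  have hp0 : (0 : ℝ) ≤ p := by positivity
  have hηn : η * n ≤ t * n := mul_le_mul_of_nonneg_right hηt hn0
  -- κ |a| ≤ p (η n + b + η n) ≤ k * 5 t n
  have h4 : κ * a.card ≤ p * (5 * (t * n)) := by
    have h5 : κ * a.card ≤ p * (η * n + (b.card + η * n)) := by nlinarith
    refine h5.trans (mul_le_mul_of_nonneg_left ?_ hp0)
    linarith
  have h6 : κ * a.card ≤ k * (5 * (t * n)) :=
    h4.trans (mul_le_mul_of_nonneg_right hpk (by positivity))
  have h7 : κ * (N.card : ℝ) ≤ κ * (ξ * n) := by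
    have h8 : κ * (N.card : ℝ) ≤ κ * (a.card + (b.card + η * n)) :=
      mul_le_mul_of_nonneg_left h1 hκ.le
    have h9 : κ * (b.card + η * n) ≤ κ * (4 * t * n) :=
      mul_le_mul_of_nonneg_left (by linarith) hκ.le
    have h10 : t * (5 * k + 4 * κ) * n ≤ ξ * κ * n := mul_le_mul_of_nonneg_right hξ hn0
    nlinarith
  exact le_of_mul_le_mul_left h7 hκ

open Classical in
/-- elimination -/
theorem elim (T : Set ℕ)
    (htup : ∀ w : ℕ → Fin n, (∀ m < k, ps g L m w (w m) ≤ m) → ¬ Rb s L (fun i : Fin k => w i) →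
      ∃ p ∈ T, p < k ∧ Un g L p w (w p))
    (hη : 0 ≤ η) (hHi : ((Hi g η L).card : ℝ) ≤ η * n) (hn : 0 < n) {t : ℝ} (ht0 : 0 < t)
    (hηt : η ≤ t) (ht : t * (4 * k + 3 * κ) < κ) (F : Finset (Fin n)) (hF : (F.card : ℝ) ≤ t * n) :
    ∀ m l : ℕ, l + m = k → ∀ w : ℕ → Fin n, Good k s t L l w → Gr g η L l w →
      (∀ p ∈ T, p < l → ¬ Un g L p w (w p)) →
      ∃ p ∈ T, l ≤ p ∧ p < k ∧ ∃ w' : ℕ → Fin n, (∀ i < l, w' i = w i) ∧
        (∀ i, l ≤ i → i < p → w' i ∉ F) ∧ Gr g η L p w' ∧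
        ((univ.filter fun j : Fin n =>
          (j ∉ Hi g η L ∧ ps g L p w' j ≤ p) ∧ ¬ Un g L p w' j).card : ℝ) ≤ 3 * t * n := by
  intro m
  induction m with
  | zero =>
    intro l hl w hgood hGr hU
    have hlk : l = k := by omega
    subst hlk
    obtain ⟨p, hpT, hpk, hpU⟩ := htup w hGr.2 hgood.full
    exact absurd hpU (hU p hpT hpk)
  | succ m ih =>
    intro l hl w hgood hGr hU
    have hlk : l < k := by omega
    have hn' : (0 : ℝ) < n := by exact_mod_cast hn
    have hmark := hgood.markov ht0 hn hlk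
    set Bad := univ.filter fun j : Fin n => ¬ Good k s t L (l + 1) (Function.update w l j) with hBad
    -- the continuation
    have hcont : ∀ j : Fin n, (j ∉ Hi g η L ∧ ps g L l w j ≤ l) → j ∉ Bad → j ∉ F →
        (l ∈ T → ¬ Un g L l w j) →
        ∃ p ∈ T, l ≤ p ∧ p < k ∧ ∃ w' : ℕ → Fin n, (∀ i < l, w' i = w i) ∧
        (∀ i, l ≤ i → i < p → w' i ∉ F) ∧ Gr g η L p w' ∧
        ((univ.filter fun j : Fin n =>
          (j ∉ Hi g η L ∧ ps g L p w' j ≤ p) ∧ ¬ Un g L p w' j).card : ℝ) ≤ 3 * t * n := by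
      intro j hjE hjB hjF hjU
      have hjg : Good k s t L (l + 1) (Function.update w l j) := by
        by_contra h
        exact hjB (Finset.mem_filter.2 ⟨Finset.mem_univ _, h⟩)
      have hjH : row g L j ≤ (1 + η) * n := by
        by_contra h
        exact hjE.1 (Finset.mem_filter.2 ⟨Finset.mem_univ _, not_le.1 h⟩)
      obtain ⟨p, hpT, hlp, hpk, w', hw', hwF, hGr', hcard⟩ := ih (l + 1) (by omega)
        (Function.update w l j) hjg (hGr.snoc hjH hjE.2) (fun p hpT hpl hUn => by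
          by_cases hpl' : p = l
          · subst hpl'
            rw [Function.update_self, Un_congr (update_lt w j)] at hUn
            exact hjU hpT hUn
          · rw [Function.update_of_ne hpl',
              Un_congr (w' := w) fun i hi => update_lt w j i (by omega)] at hUn
            exact hU p hpT (by omega) hUn)
      refine ⟨p, hpT, by omega, hpk, w', fun i hi => ?_, fun i hi hip => ?_, hGr', hcard⟩
      · rw [hw' i (by omega), update_lt w j i hi]
      · by_cases hil : i = l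
        · rw [hil, hw' l (by omega), Function.update_self]
          exact hjF
        · exact hwF i (by omega) hip
    by_cases hfin : l ∈ T ∧ ((univ.filter fun j : Fin n =>
          (j ∉ Hi g η L ∧ ps g L l w j ≤ l) ∧ ¬ Un g L l w j).card : ℝ) ≤ 3 * t * n
    · exact ⟨l, hfin.1, le_rfl, hlk, w, fun _ _ => rfl, fun i h1 h2 => by omega, hGr, hfin.2⟩
    -- choose j in a big set minus Bad and F
    set E := if l ∈ T then univ.filter fun j : Fin n =>
          (j ∉ Hi g η L ∧ ps g L l w j ≤ l) ∧ ¬ Un g L l w j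
        else univ.filter fun j : Fin n => j ∉ Hi g η L ∧ ps g L l w j ≤ l with hE
    have hEbig : 2 * t * n < (E.card : ℝ) := by
      by_cases hlT : l ∈ T
      · have h1 := not_le.1 fun h => hfin ⟨hlT, h⟩
        rw [hE, if_pos hlT]
        have : 0 < t * n := mul_pos ht0 hn'
        linarith
      · rw [hE, if_neg hlT]
        rcases card_ext hr hg hκ hgap (by omega) hη hHi hGr.1 hηt ht with h | h
        · exact h
        · omega
    have hex : ∃ j ∈ E, j ∉ Bad ∪ F := by
      by_contra hcon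
      push Not at hcon
      have hsub : E ⊆ Bad ∪ F := hcon
      have h1 := (Finset.card_le_card hsub).trans (Finset.card_union_le _ _)
      have h2 : (E.card : ℝ) ≤ Bad.card + F.card := by exact_mod_cast h1
      linarith
    obtain ⟨j, hjE, hjN⟩ := hex
    rw [Finset.mem_union, not_or] at hjN
    by_cases hlT : l ∈ T
    · rw [hE, if_pos hlT] at hjE
      have h1 := (Finset.mem_filter.1 hjE).2
      exact hcont j h1.1 hjN.1 hjN.2 fun _ => h1.2
    · rw [hE, if_neg hlT] at hjE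
      have h1 := (Finset.mem_filter.1 hjE).2
      exact hcont j h1 hjN.1 hjN.2 fun h => absurd h hlT

end

end

theorem unitAt_iff {r n p : ℕ} {g : ℝ} {L : LS (Fin n) r} (w : ℕ → Fin n) (j : Fin n) :
    unitAt g L (fun i : Fin p => w i) j ↔ Un g L p w j := by
  constructor
  · rintro ⟨i, h1, h2⟩
    refine ⟨i, i.2, h1, fun i' hi' hne => ?_⟩
    exact h2 ⟨i', hi'⟩ fun h => hne (by rw [← h])
  · rintro ⟨i, hi, h1, h2⟩
    refine ⟨⟨i, hi⟩, h1, fun i' hne => ?_⟩
    exact h2 i' i'.2 fun h => hne (Fin.ext h)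

end SIZA

open SIZA in
theorem SIZA.perfect_tuples_of {k s r d : ℕ} {g : ℝ} (H : Par k s r d g)
    (hTUP : ∀ L : Fin k → Fin k → Finset (Fin r),
      (∀ l : Fin k, ∑ i ∈ univ.filter (· < l), eL g (L i l) ≤ ((l : ℕ) : ℝ)) → ¬ RbL s L →
      ∃ p a : ℕ, Shape k d r g p a ∧ ∃ (hp : p < k) (i : Fin k), i < ⟨p, hp⟩ ∧
        eL g (L i ⟨p, hp⟩) = p ∧
        ∀ i' : Fin k, i' < ⟨p, hp⟩ → i' ≠ i → eL g (L i' ⟨p, hp⟩) = 0) {ξ : ℝ} (hξ : 0 < ξ) :
    ∃ η φ : ℝ, 0 < η ∧ 0 < φ ∧ ∀ n : ℕ, 0 < n → ∀ L : LS (Fin n) r,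
      (nRb k s L : ℝ) ≤ η * (n : ℝ) ^ k → (nHigh g (1 + η) L : ℝ) ≤ η * n →
      ∃ (B₁ : Finset (Fin n)) (B₂ : Finset (Fin n × Fin n)),
        (B₁.card : ℝ) ≤ ξ * n ∧ (B₂.card : ℝ) ≤ ξ * (n : ℝ) ^ 2 ∧
        ∀ F : Finset (Fin n), (F.card : ℝ) ≤ φ * n →
          (∀ u, u ∉ B₁ → ∃ p a : ℕ, Shape k d r g p a ∧ ∃ w : Fin p → Fin n,
            (∃ h : 0 < p, w ⟨0, h⟩ = u) ∧ (∀ i : Fin p, 0 < (i : ℕ) → w i ∉ F) ∧
            PerfectT g ξ L w) ∧
          (∀ u v, (u, v) ∉ B₂ → eL g (L s(u, v)) = 0 →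
            ∃ p a : ℕ, Shape k d r g p a ∧ ∃ w : Fin p → Fin n,
            (∃ h : 1 < p, w ⟨0, by omega⟩ = u ∧ w ⟨1, h⟩ = v) ∧
            (∀ i : Fin p, 1 < (i : ℕ) → w i ∉ F) ∧ PerfectT g ξ L w) := by
  classical
  have hk := H.hk
  have hr : 2 ≤ r := by have := H.hs; have := H.hsr; omega
  have hk3 : (3 : ℝ) ≤ k := by exact_mod_cast hk
  have hg : 0 ≤ g := by have := H.hg; linarith
  obtain ⟨κ, hκ, hgap⟩ := exists_kappa k r g
  set t : ℝ := min 1 (min (κ / (2 * (4 * k + 3 * κ))) (ξ * κ / (5 * k + 4 * κ))) with ht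
  have hden1 : 0 < 4 * (k : ℝ) + 3 * κ := by positivity
  have hden2 : 0 < 5 * (k : ℝ) + 4 * κ := by positivity
  have ht0 : 0 < t := by
    rw [ht]
    refine lt_min one_pos (lt_min ?_ ?_) <;> positivity
  have ht1 : t ≤ 1 := min_le_left _ _
  have ht2 : t * (4 * k + 3 * κ) < κ := by
    have h1 : t ≤ κ / (2 * (4 * k + 3 * κ)) := (min_le_right _ _).trans (min_le_left _ _)
    have h2 := mul_le_mul_of_nonneg_right h1 hden1.le
    have h3 : κ / (2 * (4 * k + 3 * κ)) * (4 * k + 3 * κ) = κ / 2 := by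
      field_simp
    rw [h3] at h2
    linarith
  have ht3 : t * (5 * k + 4 * κ) ≤ ξ * κ := by
    have h1 : t ≤ ξ * κ / (5 * k + 4 * κ) := (min_le_right _ _).trans (min_le_right _ _)
    rwa [le_div_iff₀ hden2] at h1
  have ht4 : 4 * t ≤ ξ := by
    have h1 : κ * (4 * t) ≤ κ * ξ := by nlinarith [mul_nonneg ht0.le (by positivity : (0 : ℝ) ≤ k)]
    exact le_of_mul_le_mul_left h1 hκ
  set η : ℝ := t ^ k / 2 with hη
  have hη0 : 0 < η := by positivity
  have hηt : η ≤ t := by
    have : t ^ k ≤ t := by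
      calc t ^ k ≤ t ^ 1 := pow_le_pow_of_le_one ht0.le ht1 (by omega)
        _ = t := pow_one t
    rw [hη]
    linarith
  refine ⟨η, t, hη0, ht0, fun n hn L hRb hHigh => ?_⟩
  have hn' : (0 : ℝ) < n := by exact_mod_cast hn
  have hHi : ((Hi g η L).card : ℝ) ≤ η * n := by rw [card_Hi]; exact hHigh
  have hRb' : (nRb k s L : ℝ) ≤ (t * n) ^ k / 2 := by
    rw [mul_pow]
    rw [hη] at hRb
    linarith
  set w0 : ℕ → Fin n := fun _ => ⟨0, hn⟩ with hw0
  have hgood0 : Good k s t L 0 w0 := by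
    unfold Good
    rw [R_zero, Nat.sub_zero]
    exact hRb'
  set T : Set ℕ := {p | ∃ a, Shape k d r g p a} with hT
  have hTk : ∀ p ∈ T, 1 ≤ p ∧ p < k := by
    rintro p ⟨a, h | h⟩
    · exact ⟨h.2.1, by have := h.2.2.1; omega⟩
    · have := h.2.1
      omega
  have htup : ∀ w : ℕ → Fin n, (∀ m < k, ps g L m w (w m) ≤ m) →
      ¬ Rb s L (fun i : Fin k => w i) → ∃ p ∈ T, p < k ∧ Un g L p w (w p) := by
    intro w hw hnR
    obtain ⟨p, a, hS, hp, i, hi, h1, h2⟩ := hTUP (fun i j : Fin k => L s(w i, w j))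
      (fun l => by
        have h3 := hw l l.2
        unfold ps at h3
        refine le_trans (le_of_eq ?_) h3
        refine Finset.sum_bij (fun (i : Fin k) _ => (i : ℕ)) ?_ ?_ ?_ ?_
        · intro i hi
          exact Finset.mem_range.2 (Finset.mem_filter.1 hi).2
        · intro i _ j _ hij
          exact Fin.ext hij
        · intro i hi
          have hil := Finset.mem_range.1 hi
          exact ⟨⟨i, by omega⟩, Finset.mem_filter.2 ⟨Finset.mem_univ _, hil⟩, rfl⟩
        · intro i _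
          rfl) hnR
    refine ⟨p, ⟨a, hS⟩, hp, i, hi, h1, fun i' hi' hne => ?_⟩
    exact h2 ⟨i', by omega⟩ hi' fun h => hne (by rw [← h])
  have hfinal : ∀ (p : ℕ), p ∈ T → ∀ w' : ℕ → Fin n, Gr g η L p w' →
      ((univ.filter fun j : Fin n =>
          (j ∉ Hi g η L ∧ ps g L p w' j ≤ p) ∧ ¬ Un g L p w' j).card : ℝ) ≤ 3 * t * n →
      PerfectT g ξ L (fun i : Fin p => w' i) := by
    intro p hp w' hGr hfew
    refine ⟨?_, fun i => ?_⟩
    · have h1 := card_not_unit hr hg hκ hgap (hTk p hp).2.le hHi hGr.1 ht0.le hηt hfew ht3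
      refine le_trans (le_of_eq ?_) h1
      congr 2
      ext j
      simp only [Finset.mem_filter, Finset.mem_univ, true_and, unitAt_iff]
    · refine (hGr.1 i i.2).trans (mul_le_mul_of_nonneg_right ?_ hn'.le)
      linarith
  set B₁ : Finset (Fin n) := Hi g η L ∪ univ.filter fun j : Fin n =>
    ¬ Good k s t L (0 + 1) (Function.update w0 0 j) with hB₁
  set B₂ : Finset (Fin n × Fin n) := ((Hi g η L ×ˢ univ) ∪ (univ ×ˢ Hi g η L)) ∪
    univ.filter fun z : Fin n × Fin n =>
      ¬ Good k s t L 2 (Function.update (Function.update w0 0 z.1) 1 z.2) with hB₂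
  refine ⟨B₁, B₂, ?_, ?_, fun F hF => ⟨fun u hu => ?_, fun u v huv he => ?_⟩⟩
  · have h1 := hgood0.markov ht0 hn (by omega : 0 < k)
    have h2 : (B₁.card : ℝ) ≤ (Hi g η L).card + (univ.filter fun j : Fin n =>
        ¬ Good k s t L (0 + 1) (Function.update w0 0 j)).card := by
      exact_mod_cast Finset.card_union_le _ _
    have h3 : η * n ≤ t * n := mul_le_mul_of_nonneg_right hηt hn'.le
    have h4 : 4 * t * n ≤ ξ * n := mul_le_mul_of_nonneg_right ht4 hn'.le
    have h5 : 0 < t * n := mul_pos ht0 hn'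
    linarith
  · have h1 := pairs_markov ht0 hn (by omega : 2 ≤ k) w0 hRb'
    have h2 : (B₂.card : ℝ) ≤ ((Hi g η L).card * n + n * (Hi g η L).card) +
        (univ.filter fun z : Fin n × Fin n =>
          ¬ Good k s t L 2 (Function.update (Function.update w0 0 z.1) 1 z.2)).card := by
      have h3 := (Finset.card_union_le ((Hi g η L ×ˢ univ) ∪ (univ ×ˢ Hi g η L))
        (univ.filter fun z : Fin n × Fin n =>
          ¬ Good k s t L 2 (Function.update (Function.update w0 0 z.1) 1 z.2))).trans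
        (Nat.add_le_add_right (Finset.card_union_le _ _) _)
      rw [Finset.card_product, Finset.card_product, Finset.card_univ, Fintype.card_fin] at h3
      exact_mod_cast h3
    have h3 : ((Hi g η L).card : ℝ) * n ≤ t * n * n :=
      mul_le_mul_of_nonneg_right (hHi.trans (mul_le_mul_of_nonneg_right hηt hn'.le)) hn'.le
    have h4 : (t * n) ^ 2 ≤ t * n ^ 2 := by
      rw [mul_pow]
      have : t ^ 2 ≤ t := by nlinarith
      exact mul_le_mul_of_nonneg_right this (by positivity)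
    have h5 : 4 * t * n ^ 2 ≤ ξ * n ^ 2 := mul_le_mul_of_nonneg_right ht4 (by positivity)
    have h6 : 0 < t * n ^ 2 := by positivity
    nlinarith
  · rw [hB₁, Finset.mem_union, not_or] at hu
    have hur : row g L u ≤ (1 + η) * n := by
      by_contra h
      exact hu.1 (Finset.mem_filter.2 ⟨Finset.mem_univ _, not_le.1 h⟩)
    have hug : Good k s t L 1 (Function.update w0 0 u) := by
      by_contra h
      exact hu.2 (Finset.mem_filter.2 ⟨Finset.mem_univ _, h⟩)
    have hGr : Gr g η L 1 (Function.update w0 0 u) := by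
      have h0 : Gr g η L 0 w0 := ⟨fun i hi => by omega, fun m hm => by omega⟩
      exact h0.snoc hur (by simp [ps])
    obtain ⟨p, hpT, hp1, hpk, w', hw', hwF, hGr', hcard⟩ := elim hr hg hκ hgap T htup hη0.le hHi hn
      ht0 hηt ht2 F hF (k - 1) 1 (by omega) _ hug hGr (fun p hpT hp1 _ => by
        have := (hTk p hpT).1
        omega)
    obtain ⟨a, hS⟩ := hpT
    refine ⟨p, a, hS, fun i => w' i, ⟨by omega, ?_⟩, fun i hi => hwF i (by omega) i.2,
      hfinal p ⟨a, hS⟩ w' hGr' hcard⟩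
    change w' 0 = u
    rw [hw' 0 (by omega), Function.update_self]
  · rw [hB₂, Finset.mem_union, not_or, Finset.mem_union, not_or] at huv
    have hur : row g L u ≤ (1 + η) * n := by
      by_contra h
      exact huv.1.1 (Finset.mem_product.2 ⟨Finset.mem_filter.2 ⟨Finset.mem_univ _, not_le.1 h⟩,
        Finset.mem_univ _⟩)
    have hvr : row g L v ≤ (1 + η) * n := by
      by_contra h
      exact huv.1.2 (Finset.mem_product.2 ⟨Finset.mem_univ _,
        Finset.mem_filter.2 ⟨Finset.mem_univ _, not_le.1 h⟩⟩)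
    have huvg : Good k s t L 2 (Function.update (Function.update w0 0 u) 1 v) := by
      by_contra h
      exact huv.2 (Finset.mem_filter.2 ⟨Finset.mem_univ _, h⟩)
    have hGr1 : Gr g η L 1 (Function.update w0 0 u) := by
      have h0 : Gr g η L 0 w0 := ⟨fun i hi => by omega, fun m hm => by omega⟩
      exact h0.snoc hur (by simp [ps])
    have hps : ps g L 1 (Function.update w0 0 u) v = 0 := by
      unfold ps
      rw [Finset.sum_range_one, Function.update_self]
      exact he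
    have hGr : Gr g η L 2 (Function.update (Function.update w0 0 u) 1 v) :=
      hGr1.snoc hvr (by rw [hps]; positivity)
    obtain ⟨p, hpT, hp2, hpk, w', hw', hwF, hGr', hcard⟩ := elim hr hg hκ hgap T htup hη0.le hHi hn
      ht0 hηt ht2 F hF (k - 2) 2 (by omega) _ huvg hGr (fun p hpT hp2 hUn => by
        have hp1 := (hTk p hpT).1
        have hp : p = 1 := by omega
        subst hp
        rw [Function.update_self] at hUn
        have h1 := hUn.ps_eq
        rw [ps_congr (update_lt _ v), hps] at h1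
        norm_num at h1)
    obtain ⟨a, hS⟩ := hpT
    refine ⟨p, a, hS, fun i => w' i, ⟨by omega, ?_, ?_⟩, fun i hi => hwF i (by omega) i.2,
      hfinal p ⟨a, hS⟩ w' hGr' hcard⟩
    · change w' 0 = u
      rw [hw' 0 (by omega), Function.update_of_ne (by omega), Function.update_self]
    · change w' 1 = v
      rw [hw' 1 (by omega), Function.update_self]

end Pool.ER
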