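import Mathlib
import Pool.Agent.ER.Defs
import Pool.Agent.ER.TUP
import Pool.Agent.ER.SIZACore

set_option autoImplicit false

/-!
# SIZA: perfect tuples
-/

open Finset Filter

namespace Pool.ER

theorem perfect_tuples {k s r d : ℕ} {g : ℝ} (H : Par k s r d g) {ξ : ℝ} (hξ : 0 < ξ) :
    ∃ η φ : ℝ, 0 < η ∧ 0 < φ ∧ ∀ n : ℕ, 0 < n → ∀ L : LS (Fin n) r,
      (nRb k s L : ℝ) ≤ η * (n : ℝ) ^ k → (nHigh g (1 + η) L : ℝ) ≤ η * n →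
      ∃ (B₁ : Finset (Fin n)) (B₂ : Finset (Fin n × Fin n)),
        (B₁.card : ℝ) ≤ ξ * n ∧ (B₂.card : ℝ) ≤ ξ * (n : ℝ) ^ 2 ∧
        ∀ F : Finset (Fin n), (F.card : ℝ) ≤ φ * n →
          (∀ u, u ∉ B₁ → ∃ p a : ℕ, Shape k d r g p a ∧ ∃ w : Fin p → Fin n,
            (∃ h : 0 < p, w ⟨0, h⟩ = u) ∧ (∀ i : Fin p, 0 < (i : ℕ) → w i ∉ F) ∧
            PerfectT g ξ L w) ∧
          (∀ u v, (u, v) ∉ B₂ → eL g (L s(u, v)) = 0 →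
            ∃ p a : ℕ, Shape k d r g p a ∧ ∃ w : Fin p → Fin n,
            (∃ h : 1 < p, w ⟨0, by omega⟩ = u ∧ w ⟨1, h⟩ = v) ∧
            (∀ i : Fin p, 1 < (i : ℕ) → w i ∉ F) ∧ PerfectT g ξ L w) :=
  SIZA.perfect_tuples_of H (fun L h1 h2 => tuple_unit H L h1 h2) hξ

end Pool.ER
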