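import Mathlib
import Pool.Agent.ER.Defs

set_option autoImplicit false

/-! # SIZB, part a: counting helpers and the type of a vertex -/

open Finset

namespace Pool.ER

namespace SIZB

variable {n : ℕ}

open scoped Classical

/-- the number of `y` with `R y` -/
noncomputable def cN (R : Fin n → Prop) : ℝ := ∑ y : Fin n, if R y then (1 : ℝ) else 0

/-- the number of pairs with `R x y` -/
noncomputable def c2 (R : Fin n → Fin n → Prop) : ℝ := ∑ x : Fin n, cN (R x)

theorem cN_eq_card (R : Fin n → Prop) : cN R = ((univ.filter fun y => R y).card : ℝ) := by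
  unfold cN
  rw [Finset.sum_boole]

theorem cN_eq_card' (R : Fin n → Prop) [DecidablePred R] :
    cN R = ((univ.filter fun y => R y).card : ℝ) := by
  rw [cN_eq_card]
  congr!

theorem cN_nonneg (R : Fin n → Prop) : 0 ≤ cN R := by
  unfold cN
  exact Finset.sum_nonneg fun y _ => by split_ifs <;> norm_num

theorem cN_mono {R S : Fin n → Prop} (h : ∀ y, R y → S y) : cN R ≤ cN S := by
  unfold cN
  refine Finset.sum_le_sum fun y _ => ?_
  by_cases h1 : R y
  · simp [h1, h y h1]
  · simp only [h1, if_false]; split_ifs <;> norm_num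

theorem cN_or {R S T : Fin n → Prop} (h : ∀ y, R y → S y ∨ T y) : cN R ≤ cN S + cN T := by
  unfold cN
  rw [← Finset.sum_add_distrib]
  refine Finset.sum_le_sum fun y _ => ?_
  by_cases h1 : R y
  · rcases h y h1 with h2 | h2
    · simp only [h1, h2, if_true]; split_ifs <;> norm_num
    · simp only [h1, h2, if_true]; split_ifs <;> norm_num
  · simp only [h1, if_false]; split_ifs <;> norm_num

theorem cN_le (R : Fin n → Prop) : cN R ≤ n := by
  unfold cN
  calc ∑ y : Fin n, (if R y then (1 : ℝ) else 0) ≤ ∑ y : Fin n, (1 : ℝ) :=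
        Finset.sum_le_sum fun y _ => by split_ifs <;> norm_num
    _ = n := by simp

theorem cN_not (R : Fin n → Prop) : cN R + cN (fun y => ¬ R y) = n := by
  unfold cN
  rw [← Finset.sum_add_distrib]
  refine (Finset.sum_congr (g := fun _ => (1 : ℝ)) rfl fun y _ => ?_).trans (by simp)
  by_cases h : R y <;> simp [h]

theorem exists_of_cN_pos {R : Fin n → Prop} (h : 0 < cN R) : ∃ y, R y := by
  by_contra hc
  push Not at hc
  have : cN R = 0 := by
    unfold cN
    exact Finset.sum_eq_zero fun y _ => by simp [hc y]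
  linarith

theorem cN_false : cN (fun _ : Fin n => False) = 0 := by
  unfold cN; simp

theorem cN_true : cN (fun _ : Fin n => True) = n := by
  unfold cN; simp

theorem c2_nonneg (R : Fin n → Fin n → Prop) : 0 ≤ c2 R :=
  Finset.sum_nonneg fun x _ => cN_nonneg _

theorem c2_mono {R S : Fin n → Fin n → Prop} (h : ∀ x y, R x y → S x y) : c2 R ≤ c2 S :=
  Finset.sum_le_sum fun x _ => cN_mono (h x)

theorem c2_or {R S T : Fin n → Fin n → Prop} (h : ∀ x y, R x y → S x y ∨ T x y) :
    c2 R ≤ c2 S + c2 T := by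
  unfold c2
  rw [← Finset.sum_add_distrib]
  exact Finset.sum_le_sum fun x _ => cN_or (h x)

theorem c2_swap (R : Fin n → Fin n → Prop) : c2 R = c2 fun x y => R y x := by
  unfold c2 cN
  exact Finset.sum_comm

theorem c2_le_mul {R : Fin n → Fin n → Prop} {B : ℝ} (h : ∀ x, cN (R x) ≤ B) :
    c2 R ≤ n * B := by
  unfold c2
  calc ∑ x : Fin n, cN (R x) ≤ ∑ _x : Fin n, B := Finset.sum_le_sum fun x _ => h x
    _ = n * B := by simp

/-- the rows with `S x` only -/
theorem c2_left_le {R : Fin n → Fin n → Prop} {S : Fin n → Prop} {B : ℝ}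
    (hR : ∀ x y, R x y → S x) (h : ∀ x, S x → cN (R x) ≤ B) :
    c2 R ≤ cN S * B := by
  unfold c2
  have h1 : cN S * B = ∑ x : Fin n, (if S x then B else 0) := by
    unfold cN
    rw [Finset.sum_mul]
    exact Finset.sum_congr rfl fun x _ => by split_ifs <;> simp
  rw [h1]
  refine Finset.sum_le_sum fun x _ => ?_
  by_cases hx : S x
  · simp only [hx, if_true]; exact h x hx
  · simp only [hx, if_false]
    have : cN (R x) = 0 := by
      have : cN (R x) ≤ cN (fun _ : Fin n => False) := cN_mono fun y hy => hx (hR x y hy)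
      rw [cN_false] at this
      exact le_antisymm this (cN_nonneg _)
    rw [this]

theorem c2_prod (R S : Fin n → Prop) : c2 (fun x y => R x ∧ S y) = cN R * cN S := by
  unfold c2
  have : ∀ x : Fin n, cN (fun y => R x ∧ S y) = (if R x then (1:ℝ) else 0) * cN S := by
    intro x
    by_cases h : R x
    · simp [h]
    · simp [h, cN_false]
  simp only [this]
  rw [← Finset.sum_mul]
  rfl

theorem exists_of_c2_pos {R : Fin n → Fin n → Prop} (h : 0 < c2 R) : ∃ x y, R x y := by
  by_contra hc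
  push Not at hc
  have : c2 R = 0 := by
    unfold c2
    refine Finset.sum_eq_zero fun x _ => ?_
    have : cN (R x) ≤ cN (fun _ : Fin n => False) := cN_mono fun y hy => hc x y hy
    rw [cN_false] at this
    exact le_antisymm this (cN_nonneg _)
  linarith

/-- Markov -/
theorem cN_mul_le {f : Fin n → ℝ} (hf : ∀ x, 0 ≤ f x) (t : ℝ) :
    cN (fun x => t < f x) * t ≤ ∑ x, f x := by
  unfold cN
  rw [Finset.sum_mul]
  refine Finset.sum_le_sum fun x _ => ?_
  by_cases h : t < f x
  · simp only [h, if_true, one_mul]; exact h.le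
  · simp only [h, if_false, zero_mul]; exact hf x

theorem cN_sum_le {ι : Type} (s : Finset ι) (R : ι → Fin n → Prop) (S : Fin n → Prop)
    (h : ∀ y, S y → ∃ i ∈ s, R i y) : cN S ≤ ∑ i ∈ s, cN (R i) := by
  unfold cN
  rw [Finset.sum_comm]
  refine Finset.sum_le_sum fun y _ => ?_
  by_cases hy : S y
  · obtain ⟨i, hi, hR⟩ := h y hy
    simp only [hy, if_true]
    calc (1 : ℝ) = (if R i y then (1 : ℝ) else 0) := by simp [hR]
      _ ≤ ∑ i ∈ s, (if R i y then (1 : ℝ) else 0) :=
        Finset.single_le_sum (f := fun i => if R i y then (1 : ℝ) else 0)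
          (fun j _ => by split_ifs <;> norm_num) hi
  · simp only [hy, if_false]
    exact Finset.sum_nonneg fun i _ => by split_ifs <;> norm_num

/-! ### types -/

/-- unit -/
def Un (e : Fin n → Fin n → ℝ) {p : ℕ} (w : Fin p → Fin n) (j : Fin n) : Prop :=
  ∃ i : Fin p, e (w i) j = p ∧ ∀ i' : Fin p, i' ≠ i → e (w i') j = 0

/-- perfect -/
def Pf (e : Fin n → Fin n → ℝ) (ξ : ℝ) {p : ℕ} (w : Fin p → Fin n) : Prop :=
  cN (fun j => ¬ Un e w j) ≤ ξ * n ∧ ∀ i : Fin p, ∑ u, e (w i) u ≤ (1 + ξ) * n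

/-- `u` has type `p` -/
def Ty (e : Fin n → Fin n → ℝ) (ξ : ℝ) (p : ℕ) (u : Fin n) : Prop :=
  cN (fun j => e u j ≠ 0 ∧ e u j ≠ p) ≤ ξ * n ∧
  (p : ℝ) * cN (fun j => e u j = p) ≤ (1 + ξ) * n ∧
  (n : ℝ) / p - 2 * ξ * n ≤ cN (fun j => e u j = p)

theorem row_ge {e : Fin n → Fin n → ℝ} (h0 : ∀ x y, 0 ≤ e x y) (u : Fin n) {t : ℝ} :
    t * cN (fun j => e u j = t) ≤ ∑ j, e u j := by
  unfold cN
  rw [Finset.mul_sum]
  refine Finset.sum_le_sum fun x _ => ?_
  by_cases h : e u x = t
  · simp [h]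
  · simp only [h, if_false, mul_zero]; exact h0 _ _

theorem Pf.ty {e : Fin n → Fin n → ℝ} (h0 : ∀ x y, 0 ≤ e x y) {ξ : ℝ}
    {p : ℕ} (hp : 1 ≤ p) {w : Fin p → Fin n} (h : Pf e ξ w) (i : Fin p) : Ty e ξ p (w i) := by
  obtain ⟨h1, h2⟩ := h
  have hp0 : (0 : ℝ) < p := by exact_mod_cast hp
  have hξn : 0 ≤ ξ * n := le_trans (cN_nonneg _) h1
  have hb : ∀ i : Fin p, (p : ℝ) * cN (fun j => e (w i) j = p) ≤ (1 + ξ) * n := fun i =>
    le_trans (row_ge h0 (w i)) (h2 i)
  refine ⟨?_, hb i, ?_⟩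
  · refine le_trans (cN_mono ?_) h1
    rintro j ⟨hj1, hj2⟩ ⟨i', hi', hi''⟩
    by_cases hii : i = i'
    · subst hii; exact hj2 hi'
    · exact hj1 (hi'' i hii)
  · -- lower bound
    have h3 : (n : ℝ) ≤ ξ * n + ∑ i : Fin p, cN (fun j => e (w i) j = p) := by
      have h4 := cN_not (fun j => Un e w j)
      have h5 : cN (fun j => Un e w j) ≤ ∑ i ∈ (univ : Finset (Fin p)), cN (fun j => e (w i) j = p) := by
        refine cN_sum_le _ _ _ ?_
        rintro j ⟨i', hi', -⟩
        exact ⟨i', mem_univ _, hi'⟩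
      linarith
    have h6 : ∑ i' : Fin p, cN (fun j => e (w i') j = p) ≤
        cN (fun j => e (w i) j = p) + ((p : ℝ) - 1) * ((1 + ξ) * n / p) := by
      rw [← Finset.add_sum_erase _ _ (mem_univ i)]
      have : ∑ x ∈ univ.erase i, cN (fun j => e (w x) j = p) ≤
          ∑ x ∈ (univ : Finset (Fin p)).erase i, (1 + ξ) * n / p :=
        Finset.sum_le_sum fun x _ => by
          rw [le_div_iff₀ hp0, mul_comm]; exact hb x
      refine add_le_add le_rfl (this.trans ?_)
      rw [Finset.sum_const, Finset.card_erase_of_mem (mem_univ _), Finset.card_univ,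
        Fintype.card_fin, nsmul_eq_mul]
      push_cast [Nat.cast_sub hp]
      rfl
    have h7 : ((p : ℝ) - 1) * ((1 + ξ) * n / p) = n - n / p + (ξ * n - ξ * n / p) := by
      field_simp
    have h8 : 0 ≤ ξ * n / p := by positivity
    rw [h7] at h6
    nlinarith

/-- the type is unique -/
theorem Ty.unique {e : Fin n → Fin n → ℝ} {ξ ξ' : ℝ} {k p q : ℕ} {u : Fin n} (hn : 0 < n)
    (hp : 1 ≤ p) (hpk : p ≤ k) (hξ0 : 0 ≤ 2 * ξ + ξ') (hξ : (2 * ξ + ξ') * k < 1)
    (h : Ty e ξ p u) (h' : Ty e ξ' q u) : p = q := by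
  by_contra hpq
  have hn0 : (0 : ℝ) < n := by exact_mod_cast hn
  have hp0 : (0 : ℝ) < p := by exact_mod_cast hp
  have h1 : cN (fun j => e u j = p) ≤ cN (fun j => e u j ≠ 0 ∧ e u j ≠ q) := by
    refine cN_mono fun j hj => ⟨?_, ?_⟩
    · rw [hj]; exact hp0.ne'
    · rw [hj]; exact_mod_cast hpq
  have h2 := h.2.2
  have h3 := h'.1
  have h4 : (n : ℝ) / p ≤ (2 * ξ + ξ') * n := by linarith
  rw [div_le_iff₀ hp0] at h4
  have h5 : (2 * ξ + ξ') * p ≤ (2 * ξ + ξ') * k := by
    refine mul_le_mul_of_nonneg_left ?_ hξ0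
    exact_mod_cast hpk
  nlinarith

end SIZB

end Pool.ER
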