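import Mathlib
import Pool.Agent.ER.SIZBa

set_option autoImplicit false

/-! # SIZB, part b: one type dominates; the partition -/

open Finset

namespace Pool.ER

namespace SIZB

variable {n : ℕ}

open scoped Classical

theorem c2_rows {R : Fin n → Fin n → Prop} {S : Fin n → Prop} {B : ℝ} (hB : 0 ≤ B)
    (hR : ∀ x y, R x y → S x) (h : ∀ x, S x → cN (R x) ≤ B) :
    c2 R ≤ n * B := by
  refine (c2_left_le hR h).trans ?_
  exact mul_le_mul_of_nonneg_right (cN_le _) hB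

/-- one type dominates -/
theorem dominant {e : Fin n → Fin n → ℝ} (hs : ∀ x y, e x y = e y x) (h0 : ∀ x y, 0 ≤ e x y)
    {ξ : ℝ} {k : ℕ} (hn : 0 < n) (hξ : 0 < ξ) (hξk : 3 * ξ * k < 1) (hξ2 : ξ ≤ 1 / 2)
    {Sh : ℕ → Prop} (hSh : ∀ p, Sh p → 1 ≤ p ∧ p ≤ k)
    {b1 : Fin n → Prop} {b2 : Fin n → Fin n → Prop} (hb1 : cN b1 ≤ ξ * n)
    (hb2 : c2 b2 ≤ ξ * (n : ℝ) ^ 2)
    (h1 : ∀ u, ¬ b1 u → ∃ p, Sh p ∧ ∃ w : Fin p → Fin n, (∃ h : 0 < p, w ⟨0, h⟩ = u) ∧ Pf e ξ w)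
    (h2 : ∀ u v, ¬ b2 u v → e u v = 0 → ∃ p, Sh p ∧ ∃ w : Fin p → Fin n,
      (∃ h : 1 < p, w ⟨0, by omega⟩ = u ∧ w ⟨1, h⟩ = v) ∧ Pf e ξ w) :
    ∃ p, Sh p ∧ cN (fun u => ¬ Ty e ξ p u) ≤ (6 * ((k : ℝ) + 1) ^ 2 + 1) * ξ * n := by
  have hn0 : (0 : ℝ) < n := by exact_mod_cast hn
  set T : ℕ → Fin n → Prop := fun q u => Sh q ∧ Ty e ξ q u with hT
  -- cover
  have hcov : ∀ u, ¬ b1 u → ∃ q ∈ range (k + 1), T q u := by
    intro u hu
    obtain ⟨p, hp, w, ⟨hp0, hw⟩, hpf⟩ := h1 u hu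
    obtain ⟨hp1, hpk⟩ := hSh p hp
    refine ⟨p, mem_range.2 (by omega), hp, ?_⟩
    have := hpf.ty h0 hp1 ⟨0, hp0⟩
    rwa [hw] at this
  have hsum : (n : ℝ) ≤ ξ * n + ∑ q ∈ range (k + 1), cN (T q) := by
    have h3 := cN_not b1
    have h4 := cN_sum_le (range (k + 1)) T (fun u => ¬ b1 u) hcov
    linarith
  -- a large one
  obtain ⟨q, hq, hqm⟩ : ∃ q ∈ range (k + 1), (n : ℝ) / (2 * (k + 1)) ≤ cN (T q) := by
    by_contra hc
    push Not at hc
    have : ∑ q ∈ range (k + 1), cN (T q) < ∑ q ∈ range (k + 1), (n : ℝ) / (2 * (k + 1)) :=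
      Finset.sum_lt_sum_of_nonempty ⟨0, mem_range.2 (by omega)⟩ hc
    rw [Finset.sum_const, card_range, nsmul_eq_mul] at this
    have h5 : ((k + 1 : ℕ) : ℝ) * ((n : ℝ) / (2 * (k + 1))) = n / 2 := by
      push_cast
      field_simp
    rw [h5] at this
    nlinarith
  have hqpos : 0 < cN (T q) := lt_of_lt_of_le (by positivity) hqm
  obtain ⟨u0, hu0⟩ := exists_of_cN_pos hqpos
  have hShq : Sh q := hu0.1
  obtain ⟨hq1, hqk⟩ := hSh q hShq
  refine ⟨q, hShq, ?_⟩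
  -- products
  have hprod : ∀ q', q' ≠ q → cN (T q) * cN (T q') ≤ 3 * ξ * (n : ℝ) ^ 2 := by
    intro q' hqq
    rw [← c2_prod]
    have hA : c2 (fun u v => T q u ∧ (e u v ≠ 0 ∧ e u v ≠ q)) ≤ ξ * (n : ℝ) ^ 2 := by
      have := c2_rows (R := fun u v => T q u ∧ (e u v ≠ 0 ∧ e u v ≠ q)) (S := T q)
        (B := ξ * n) (by positivity) (fun x y h => h.1)
        (fun x hx => (cN_mono fun y hy => hy.2).trans hx.2.1)
      calc _ ≤ _ := this
        _ = _ := by ring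
    have hB : c2 (fun u v => T q' v ∧ (e u v ≠ 0 ∧ e u v ≠ q')) ≤ ξ * (n : ℝ) ^ 2 := by
      rw [c2_swap]
      have := c2_rows (R := fun v u => T q' v ∧ (e u v ≠ 0 ∧ e u v ≠ q')) (S := T q')
        (B := ξ * n) (by positivity) (fun x y h => h.1)
        (fun x hx => (cN_mono fun y hy => by rw [hs x y]; exact hy.2).trans hx.2.1)
      calc _ ≤ _ := this
        _ = _ := by ring
    have hC : c2 (fun u v => T q u ∧ T q' v) ≤ c2 b2 +
        (c2 (fun u v => T q u ∧ (e u v ≠ 0 ∧ e u v ≠ q)) +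
          c2 (fun u v => T q' v ∧ (e u v ≠ 0 ∧ e u v ≠ q'))) := by
      refine (c2_or (S := b2) (T := fun u v => (T q u ∧ (e u v ≠ 0 ∧ e u v ≠ q)) ∨
        (T q' v ∧ (e u v ≠ 0 ∧ e u v ≠ q'))) ?_).trans (add_le_add le_rfl (c2_or fun x y h => h))
      rintro u v ⟨hu, hv⟩
      by_contra hcon
      push Not at hcon
      obtain ⟨hc1, hc2, hc3⟩ := hcon
      have hz : e u v = 0 := by
        by_contra hne
        have e1 := hc2 hu hne
        have e2 := hc3 hv hne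
        rw [e1] at e2
        exact hqq (by exact_mod_cast e2.symm)
      obtain ⟨p, hp, w, ⟨hp1', hw0, hw1⟩, hpf⟩ := h2 u v hc1 hz
      obtain ⟨hp1, hpk⟩ := hSh p hp
      have t0 := hpf.ty h0 hp1 ⟨0, by omega⟩
      have t1 := hpf.ty h0 hp1 ⟨1, hp1'⟩
      rw [hw0] at t0
      rw [hw1] at t1
      have hu1 : p = q := t0.unique hn hp1 hpk (by positivity) (by nlinarith) hu.2
      have hv1 : p = q' := t1.unique hn hp1 hpk (by positivity) (by nlinarith) hv.2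
      exact hqq (hv1.symm.trans hu1)
    linarith
  have hsmall : ∀ q', q' ≠ q → cN (T q') ≤ 6 * ((k : ℝ) + 1) * ξ * n := by
    intro q' hqq
    have h3 := hprod q' hqq
    have h4 : (n : ℝ) / (2 * (k + 1)) * cN (T q') ≤ 3 * ξ * (n : ℝ) ^ 2 :=
      (mul_le_mul_of_nonneg_right hqm (cN_nonneg _)).trans h3
    have h5 : (n : ℝ) / (2 * (k + 1)) * cN (T q') = n * (cN (T q') / (2 * (k + 1))) := by ring
    have h6 : 3 * ξ * (n : ℝ) ^ 2 = n * (3 * ξ * n) := by ring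
    rw [h5, h6] at h4
    have h7 := le_of_mul_le_mul_left h4 hn0
    rw [div_le_iff₀ (by positivity)] at h7
    linarith
  have hfin : cN (fun u => ¬ Ty e ξ q u) ≤ cN b1 + ∑ q' ∈ (range (k + 1)).erase q, cN (T q') := by
    refine (cN_or (S := b1) (T := fun u => ¬ b1 u ∧ ¬ Ty e ξ q u) ?_).trans
      (add_le_add le_rfl ?_)
    · intro u hu
      by_cases hb : b1 u
      · exact Or.inl hb
      · exact Or.inr ⟨hb, hu⟩
    · refine cN_sum_le _ _ _ ?_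
      rintro u ⟨hu1, hu2⟩
      obtain ⟨q', hq', hT'⟩ := hcov u hu1
      refine ⟨q', mem_erase.2 ⟨?_, hq'⟩, hT'⟩
      rintro rfl
      exact hu2 hT'.2
  have hsum2 : ∑ q' ∈ (range (k + 1)).erase q, cN (T q') ≤
      ∑ q' ∈ (range (k + 1)).erase q, 6 * ((k : ℝ) + 1) * ξ * n :=
    Finset.sum_le_sum fun q' hq' => hsmall q' (ne_of_mem_erase hq')
  rw [Finset.sum_const, nsmul_eq_mul] at hsum2
  have hcard : (((range (k + 1)).erase q).card : ℝ) ≤ k + 1 := by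
    have : ((range (k + 1)).erase q).card ≤ k + 1 := (card_erase_le).trans (by simp)
    exact_mod_cast this
  have h8 : (((range (k + 1)).erase q).card : ℝ) * (6 * ((k : ℝ) + 1) * ξ * n) ≤
      (k + 1) * (6 * ((k : ℝ) + 1) * ξ * n) := mul_le_mul_of_nonneg_right hcard (by positivity)
  nlinarith

end SIZB

end Pool.ER
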