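import Mathlib
import Pool.Agent.ER.SIZBb

set_option autoImplicit false

/-! # SIZB, part c: light vertices and the partition -/

open Finset

namespace Pool.ER

namespace SIZB

variable {n : ℕ}

open scoped Classical

/-- defect of a vertex -/
noncomputable def LB (e : Fin n → Fin n → ℝ) (p : ℕ) (x : Fin n) : ℝ :=
  c2 fun y z => e x y = p ∧ e x z = p ∧ e y z ≠ p

theorem LB_nonneg (e : Fin n → Fin n → ℝ) (p : ℕ) (x : Fin n) : 0 ≤ LB e p x := c2_nonneg _

theorem light_sum {e : Fin n → Fin n → ℝ} (hs : ∀ x y, e x y = e y x) (h0 : ∀ x y, 0 ≤ e x y)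
    {ξ : ℝ} {k : ℕ} (hn : 0 < n) (hξ : 0 < ξ) (hξk : 3 * ξ * k < 1)
    {Sh : ℕ → Prop} (hSh : ∀ p, Sh p → 1 ≤ p ∧ p ≤ k)
    {b2 : Fin n → Fin n → Prop} (hb2 : c2 b2 ≤ ξ * (n : ℝ) ^ 2)
    (h2 : ∀ u v, ¬ b2 u v → e u v = 0 → ∃ p, Sh p ∧ ∃ w : Fin p → Fin n,
      (∃ h : 1 < p, w ⟨0, by omega⟩ = u ∧ w ⟨1, h⟩ = v) ∧ Pf e ξ w)
    {p : ℕ} {C : ℝ} (hp1 : 1 ≤ p) (hC : cN (fun u => ¬ Ty e ξ p u) ≤ C * ξ * n) :
    ∑ x, LB e p x ≤ (C + 3) * ξ * (n : ℝ) ^ 3 := by
  have hn0 : (0 : ℝ) < n := by exact_mod_cast hn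
  have hre : ∑ x, LB e p x =
      ∑ y : Fin n, ∑ z : Fin n, cN (fun x => e x y = p ∧ e x z = p ∧ e y z ≠ p) := by
    unfold LB c2 cN
    rw [Finset.sum_comm]
    refine Finset.sum_congr rfl fun y _ => ?_
    rw [Finset.sum_comm]
  rw [hre]
  set R : Fin n → Fin n → Prop := fun y z => ¬ Ty e ξ p y ∨ ((Ty e ξ p y ∧ (e y z ≠ 0 ∧ e y z ≠ p)) ∨ b2 y z)
    with hR
  have hR2 : c2 R ≤ (C + 2) * ξ * (n : ℝ) ^ 2 := by
    have e1 : c2 (fun y _ : Fin n => ¬ Ty e ξ p y) ≤ C * ξ * (n : ℝ) ^ 2 := by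
      have := c2_left_le (R := fun y _ : Fin n => ¬ Ty e ξ p y) (S := fun y => ¬ Ty e ξ p y)
        (B := (n : ℝ)) (fun x y h => h) (fun x _ => cN_le _)
      nlinarith
    have e2 : c2 (fun y z => Ty e ξ p y ∧ (e y z ≠ 0 ∧ e y z ≠ p)) ≤ ξ * (n : ℝ) ^ 2 := by
      have := c2_rows (R := fun u v => Ty e ξ p u ∧ (e u v ≠ 0 ∧ e u v ≠ p)) (S := Ty e ξ p)
        (B := ξ * n) (by positivity) (fun x y h => h.1)
        (fun x hx => (cN_mono fun y hy => hy.2).trans hx.1)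
      calc _ ≤ _ := this
        _ = _ := by ring
    have e3 := c2_or (R := R) (S := fun y _ : Fin n => ¬ Ty e ξ p y)
      (T := fun y z => (Ty e ξ p y ∧ (e y z ≠ 0 ∧ e y z ≠ p)) ∨ b2 y z) (fun x y h => h)
    have e4 := c2_or (R := fun y z => (Ty e ξ p y ∧ (e y z ≠ 0 ∧ e y z ≠ p)) ∨ b2 y z)
      (S := fun y z => Ty e ξ p y ∧ (e y z ≠ 0 ∧ e y z ≠ p)) (T := b2) (fun x y h => h)
    nlinarith
  have hpt : ∀ y z : Fin n, cN (fun x => e x y = p ∧ e x z = p ∧ e y z ≠ p) ≤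
      (if R y z then (1 : ℝ) else 0) * n + ξ * n := by
    intro y z
    by_cases hRyz : R y z
    · simp only [hRyz, if_true, one_mul]
      have := cN_le (fun x => e x y = p ∧ e x z = p ∧ e y z ≠ p)
      have : 0 ≤ ξ * n := by positivity
      linarith
    · simp only [hRyz, if_false, zero_mul, zero_add]
      simp only [hR] at hRyz
      push Not at hRyz
      obtain ⟨hy1, hy2, hy3⟩ := hRyz
      by_cases hz : e y z = 0
      · obtain ⟨p'', hp, w, ⟨hp1', hw0, hw1⟩, hpf⟩ := h2 y z hy3 hz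
        obtain ⟨hp1'', hpk⟩ := hSh p'' hp
        have t0 := hpf.ty h0 hp1'' ⟨0, by omega⟩
        rw [hw0] at t0
        have hu1 : p'' = p := t0.unique hn hp1'' hpk (by positivity) (by nlinarith) hy1
        subst hu1
        refine le_trans (cN_mono ?_) hpf.1
        rintro x ⟨hx1, hx2, -⟩ ⟨i, hi, hi'⟩
        have hpp : (p'' : ℝ) ≠ 0 := by
          have : (0 : ℝ) < p'' := by exact_mod_cast hp1''
          exact this.ne'
        by_cases hi0 : (⟨0, by omega⟩ : Fin p'') = i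
        · have h5 := hi' ⟨1, hp1'⟩ (by
            rw [← hi0]
            intro hcon
            have := congrArg Fin.val hcon
            simp at this)
          rw [hw1, hs z x, hx2] at h5
          exact hpp h5
        · have h5 := hi' ⟨0, by omega⟩ hi0
          rw [hw0, hs y x, hx1] at h5
          exact hpp h5
      · have : e y z = p := hy2 hy1 hz
        have h3 : cN (fun x => e x y = p ∧ e x z = p ∧ e y z ≠ p) ≤ cN (fun _ : Fin n => False) :=
          cN_mono fun x hx => hx.2.2 this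
        rw [cN_false] at h3
        have : 0 ≤ ξ * n := by positivity
        linarith
  calc ∑ y : Fin n, ∑ z : Fin n, cN (fun x => e x y = p ∧ e x z = p ∧ e y z ≠ p)
      ≤ ∑ y : Fin n, ∑ z : Fin n, ((if R y z then (1 : ℝ) else 0) * n + ξ * n) :=
        Finset.sum_le_sum fun y _ => Finset.sum_le_sum fun z _ => hpt y z
    _ = c2 R * n + ξ * (n : ℝ) ^ 3 := by
        unfold c2 cN
        simp only [Finset.sum_add_distrib, ← Finset.sum_mul, Finset.sum_const, card_univ,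
          Fintype.card_fin, nsmul_eq_mul]
        ring_nf
    _ ≤ _ := by nlinarith

/-- the partition defined by a perfect tuple of light vertices -/
theorem partition {e : Fin n → Fin n → ℝ} (hs : ∀ x y, e x y = e y x) (h0 : ∀ x y, 0 ≤ e x y)
    {ξ₁ ξ₂ ξ₆ C : ℝ} (hξ1 : 0 < ξ₁) (hξ2 : 0 < ξ₂) (hξ6 : 0 ≤ ξ₆)
    {p : ℕ} (hp : 1 ≤ p) (w : Fin p → Fin n) (hw : Pf e ξ₂ w)
    (hl : ∀ i, LB e p (w i) ≤ ξ₆ * (n : ℝ) ^ 2)
    (hC : cN (fun u => ¬ Ty e ξ₁ p u) ≤ C * ξ₁ * n) :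
    ∃ Q : Fin n → Fin p, (∀ i, |cN (fun j => Q j = i) - n / p| ≤ 3 * ξ₂ * n) ∧
      c2 (fun y z => e y z ≠ if Q y = Q z then (p : ℝ) else 0) ≤
        (5 * ξ₂ + 2 * p * ξ₆ + (C + 2) * ξ₁) * (n : ℝ) ^ 2 := by
  have hp0 : (0 : ℝ) < p := by exact_mod_cast hp
  have hQex : ∀ j : Fin n, ∃ i : Fin p, Un e w j → (e (w i) j = p ∧ ∀ i' : Fin p, i' ≠ i → e (w i') j = 0) := by
    intro j
    by_cases h : Un e w j
    · obtain ⟨i, hi⟩ := h
      exact ⟨i, fun _ => hi⟩
    · exact ⟨⟨0, hp⟩, fun h' => absurd h' h⟩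
  choose Q hQ using hQex
  have hQiff : ∀ j i, Un e w j → e (w i) j = p → Q j = i := by
    intro j i hj hij
    by_contra hne
    have := (hQ j hj).2 i (fun h => hne h.symm)
    rw [hij] at this
    exact hp0.ne' this
  have hty : ∀ i, Ty e ξ₂ p (w i) := fun i => hw.ty h0 hp i
  have hup : ∀ i, cN (fun j => e (w i) j = p) ≤ (1 + ξ₂) * n / p := by
    intro i
    rw [le_div_iff₀ hp0, mul_comm]
    exact (hty i).2.1
  have hn0 : (0 : ℝ) ≤ n := Nat.cast_nonneg n
  have hp1 : (1 : ℝ) ≤ p := by exact_mod_cast hp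
  -- unit vertices of a class
  have hcls : ∀ i, (n : ℝ) / p - 3 * ξ₂ * n ≤ cN (fun j => Un e w j ∧ Q j = i) := by
    intro i
    have h1 := (hty i).2.2
    have h2 := cN_or (R := fun j => e (w i) j = p) (S := fun j => ¬ Un e w j)
      (T := fun j => Un e w j ∧ Q j = i) (fun j hj => by
        by_cases hU : Un e w j
        · exact Or.inr ⟨hU, hQiff j i hU hj⟩
        · exact Or.inl hU)
    have h3 := hw.1
    linarith
  refine ⟨Q, ?_, ?_⟩
  · intro i
    rw [abs_le]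
    constructor
    · have h1 := hcls i
      have h2 : cN (fun j => Un e w j ∧ Q j = i) ≤ cN (fun j => Q j = i) := cN_mono fun j hj => hj.2
      linarith
    · have h1 := cN_or (R := fun j => Q j = i) (S := fun j => e (w i) j = p)
        (T := fun j => ¬ Un e w j) (fun j hj => by
          by_cases hU : Un e w j
          · left
            have := (hQ j hU).1
            rwa [hj] at this
          · exact Or.inr hU)
      have h2 := hup i
      have h3 := hw.1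
      have h4 : (1 + ξ₂) * n / p ≤ n / p + ξ₂ * n := by
        have : (1 + ξ₂) * n / p = n / p + ξ₂ * n / p := by ring
        rw [this]
        have : ξ₂ * n / p ≤ ξ₂ * n := div_le_self (by positivity) hp1
        linarith
      have h5 : 0 ≤ ξ₂ * n := by positivity
      linarith
  · -- the pairs
    have a1 : c2 (fun y _ : Fin n => ¬ Un e w y) ≤ ξ₂ * (n : ℝ) ^ 2 := by
      have := c2_left_le (R := fun y _ : Fin n => ¬ Un e w y) (S := fun y => ¬ Un e w y)
        (B := (n : ℝ)) (fun x y h => h) (fun x _ => cN_le _)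
      have h3 := hw.1
      nlinarith
    have a2 : c2 (fun _ z : Fin n => ¬ Un e w z) ≤ ξ₂ * (n : ℝ) ^ 2 := by
      rw [c2_swap]; exact a1
    have a3 : c2 (fun y z => (Un e w y ∧ Un e w z ∧ Q y = Q z) ∧ e y z ≠ p) ≤
        p * ξ₆ * (n : ℝ) ^ 2 := by
      have h1 : c2 (fun y z => (Un e w y ∧ Un e w z ∧ Q y = Q z) ∧ e y z ≠ p) ≤
          ∑ i : Fin p, LB e p (w i) := by
        unfold LB c2
        rw [Finset.sum_comm]
        refine Finset.sum_le_sum fun y _ => ?_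
        refine cN_sum_le _ _ _ ?_
        rintro z ⟨⟨hy, hz, hyz⟩, hne⟩
        refine ⟨Q y, mem_univ _, (hQ y hy).1, ?_, hne⟩
        rw [hyz]; exact (hQ z hz).1
      have h2 : ∑ i : Fin p, LB e p (w i) ≤ ∑ _i : Fin p, ξ₆ * (n : ℝ) ^ 2 :=
        Finset.sum_le_sum fun i _ => hl i
      rw [Finset.sum_const, card_univ, Fintype.card_fin, nsmul_eq_mul] at h2
      linarith
    have a4 : c2 (fun y _ : Fin n => ¬ Ty e ξ₁ p y) ≤ C * ξ₁ * (n : ℝ) ^ 2 := by
      have := c2_left_le (R := fun y _ : Fin n => ¬ Ty e ξ₁ p y) (S := fun y => ¬ Ty e ξ₁ p y)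
        (B := (n : ℝ)) (fun x y h => h) (fun x _ => cN_le _)
      nlinarith
    have a5 : c2 (fun y z => Ty e ξ₁ p y ∧ (e y z ≠ 0 ∧ e y z ≠ p)) ≤ ξ₁ * (n : ℝ) ^ 2 := by
      have := c2_rows (R := fun u v => Ty e ξ₁ p u ∧ (e u v ≠ 0 ∧ e u v ≠ p)) (S := Ty e ξ₁ p)
        (B := ξ₁ * n) (by positivity) (fun x y h => h.1)
        (fun x hx => (cN_mono fun y hy => hy.2).trans hx.1)
      calc _ ≤ _ := this
        _ = _ := by ring
    have a6 : c2 (fun y z => Ty e ξ₁ p y ∧ Un e w y ∧ Un e w z ∧ Q z ≠ Q y ∧ e y z = p) ≤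
        (ξ₁ + 3 * ξ₂) * (n : ℝ) ^ 2 + p * ξ₆ * (n : ℝ) ^ 2 := by
      have hrow : ∀ y : Fin n, cN (fun z => Ty e ξ₁ p y ∧ Un e w y ∧ Un e w z ∧ Q z ≠ Q y ∧ e y z = p)
          ≤ (ξ₁ + 3 * ξ₂) * n + cN (fun z => (Un e w y ∧ Un e w z ∧ Q y = Q z) ∧ e y z ≠ p) := by
        intro y
        by_cases hy : Ty e ξ₁ p y ∧ Un e w y
        · obtain ⟨hy1, hy2⟩ := hy
          have b1 : cN (fun z => Un e w z ∧ Q z = Q y) ≤
              cN (fun z => (Un e w z ∧ Q z = Q y) ∧ e y z = p) +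
              cN (fun z => (Un e w y ∧ Un e w z ∧ Q y = Q z) ∧ e y z ≠ p) := by
            refine cN_or fun z hz => ?_
            by_cases hez : e y z = p
            · exact Or.inl ⟨hz, hez⟩
            · exact Or.inr ⟨⟨hy2, hz.1, hz.2.symm⟩, hez⟩
          have b2 := hcls (Q y)
          have b3 : cN (fun z => (Un e w z ∧ Q z = Q y) ∧ e y z = p) +
              cN (fun z => Ty e ξ₁ p y ∧ Un e w y ∧ Un e w z ∧ Q z ≠ Q y ∧ e y z = p) ≤
              cN (fun z => e y z = p) := by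
            unfold cN
            rw [← Finset.sum_add_distrib]
            refine Finset.sum_le_sum fun z _ => ?_
            by_cases hez : e y z = p
            · by_cases hq : Q z = Q y
              · simp only [hez, hq, ne_eq, not_true_eq_false, false_and, and_false, if_false,
                  add_zero, and_true, if_true]
                split_ifs <;> norm_num
              · simp only [hez, hq, and_false, false_and, if_false, zero_add, if_true]
                split_ifs <;> norm_num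
            · simp [hez]
          have b4 : cN (fun z => e y z = p) ≤ (1 + ξ₁) * n / p := by
            rw [le_div_iff₀ hp0, mul_comm]
            exact hy1.2.1
          have b5 : (1 + ξ₁) * n / p ≤ n / p + ξ₁ * n := by
            have : (1 + ξ₁) * n / p = n / p + ξ₁ * n / p := by ring
            rw [this]
            have : ξ₁ * n / p ≤ ξ₁ * n := div_le_self (by positivity) hp1
            linarith
          linarith
        · have : cN (fun z => Ty e ξ₁ p y ∧ Un e w y ∧ Un e w z ∧ Q z ≠ Q y ∧ e y z = p) ≤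
              cN (fun _ : Fin n => False) := cN_mono fun z hz => hy ⟨hz.1, hz.2.1⟩
          rw [cN_false] at this
          have h2 := cN_nonneg (fun z => (Un e w y ∧ Un e w z ∧ Q y = Q z) ∧ e y z ≠ p)
          have h3 : 0 ≤ (ξ₁ + 3 * ξ₂) * n := by positivity
          linarith
      have h4 : c2 (fun y z => Ty e ξ₁ p y ∧ Un e w y ∧ Un e w z ∧ Q z ≠ Q y ∧ e y z = p) ≤
          ∑ y : Fin n, ((ξ₁ + 3 * ξ₂) * n +
            cN (fun z => (Un e w y ∧ Un e w z ∧ Q y = Q z) ∧ e y z ≠ p)) :=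
        Finset.sum_le_sum fun y _ => hrow y
      rw [Finset.sum_add_distrib, Finset.sum_const, card_univ, Fintype.card_fin,
        nsmul_eq_mul] at h4
      have h5 : ∑ y : Fin n, cN (fun z => (Un e w y ∧ Un e w z ∧ Q y = Q z) ∧ e y z ≠ p) =
        c2 (fun y z => (Un e w y ∧ Un e w z ∧ Q y = Q z) ∧ e y z ≠ p) := rfl
      rw [h5] at h4
      nlinarith
    -- combine
    have b1 := c2_or (R := fun y z => e y z ≠ if Q y = Q z then (p : ℝ) else 0)
      (S := fun y _ : Fin n => ¬ Un e w y)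
      (T := fun y z => ¬ Un e w z ∨ (((Un e w y ∧ Un e w z ∧ Q y = Q z) ∧ e y z ≠ p) ∨
        (¬ Ty e ξ₁ p y ∨ ((Ty e ξ₁ p y ∧ (e y z ≠ 0 ∧ e y z ≠ p)) ∨
          (Ty e ξ₁ p y ∧ Un e w y ∧ Un e w z ∧ Q z ≠ Q y ∧ e y z = p))))) (by
        intro y z hyz
        by_cases u1 : Un e w y
        · right
          by_cases u2 : Un e w z
          · right
            by_cases u3 : Q y = Q z
            · left
              rw [if_pos u3] at hyz
              exact ⟨⟨u1, u2, u3⟩, hyz⟩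
            · right
              rw [if_neg u3] at hyz
              by_cases u4 : Ty e ξ₁ p y
              · right
                by_cases u5 : e y z = p
                · right; exact ⟨u4, u1, u2, fun h => u3 h.symm, u5⟩
                · left; exact ⟨u4, hyz, u5⟩
              · left; exact u4
          · left; exact u2
        · left; exact u1)
    have b2 := c2_or (R := fun y z => ¬ Un e w z ∨ (((Un e w y ∧ Un e w z ∧ Q y = Q z) ∧ e y z ≠ p) ∨
        (¬ Ty e ξ₁ p y ∨ ((Ty e ξ₁ p y ∧ (e y z ≠ 0 ∧ e y z ≠ p)) ∨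
          (Ty e ξ₁ p y ∧ Un e w y ∧ Un e w z ∧ Q z ≠ Q y ∧ e y z = p)))))
      (S := fun _ z : Fin n => ¬ Un e w z) (T := _) (fun x y h => h)
    have b3 := c2_or (R := fun y z => ((Un e w y ∧ Un e w z ∧ Q y = Q z) ∧ e y z ≠ p) ∨
        (¬ Ty e ξ₁ p y ∨ ((Ty e ξ₁ p y ∧ (e y z ≠ 0 ∧ e y z ≠ p)) ∨
          (Ty e ξ₁ p y ∧ Un e w y ∧ Un e w z ∧ Q z ≠ Q y ∧ e y z = p))))
      (S := fun y z => (Un e w y ∧ Un e w z ∧ Q y = Q z) ∧ e y z ≠ p) (T := _) (fun x y h => h)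
    have b4 := c2_or (R := fun y z => ¬ Ty e ξ₁ p y ∨ ((Ty e ξ₁ p y ∧ (e y z ≠ 0 ∧ e y z ≠ p)) ∨
          (Ty e ξ₁ p y ∧ Un e w y ∧ Un e w z ∧ Q z ≠ Q y ∧ e y z = p)))
      (S := fun y _ : Fin n => ¬ Ty e ξ₁ p y) (T := _) (fun x y h => h)
    have b5 := c2_or (R := fun y z => (Ty e ξ₁ p y ∧ (e y z ≠ 0 ∧ e y z ≠ p)) ∨
          (Ty e ξ₁ p y ∧ Un e w y ∧ Un e w z ∧ Q z ≠ Q y ∧ e y z = p))
      (S := fun y z => Ty e ξ₁ p y ∧ (e y z ≠ 0 ∧ e y z ≠ p)) (T := _) (fun x y h => h)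
    calc _ ≤ _ := b1
      _ ≤ ξ₂ * (n : ℝ) ^ 2 + (ξ₂ * (n : ℝ) ^ 2 + (p * ξ₆ * (n : ℝ) ^ 2 + (C * ξ₁ * (n : ℝ) ^ 2 +
          (ξ₁ * (n : ℝ) ^ 2 + ((ξ₁ + 3 * ξ₂) * (n : ℝ) ^ 2 + p * ξ₆ * (n : ℝ) ^ 2))))) := by
        linarith
      _ = _ := by ring

end SIZB

end Pool.ER
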