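import Mathlib
import Pool.Agent.ER.SIZBc

set_option autoImplicit false

/-! # SIZB: structure of the sizes from perfect tuples -/

open Finset

namespace Pool.ER

namespace SIZB

open scoped Classical

theorem beta_nonneg {r t : ℕ} (hr : 2 ≤ r) (ht : 1 ≤ t) (htr : t ≤ r) : 0 ≤ beta r t := by
  unfold beta
  have h1 : 0 < Real.log r := Real.log_pos (by exact_mod_cast hr)
  have h2 : Real.log t ≤ Real.log r :=
    Real.log_le_log (by exact_mod_cast ht) (by exact_mod_cast htr)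
  have h3 : Real.log t / Real.log r ≤ 1 := by rw [div_le_one h1]; exact h2
  linarith

theorem eL_nonneg {g : ℝ} (hg : 0 ≤ g) {r : ℕ} (hr : 2 ≤ r) (L : Finset (Fin r)) :
    0 ≤ eL g L := by
  unfold eL
  refine mul_nonneg hg (beta_nonneg hr (le_max_left _ _) ?_)
  have : L.card ≤ r := by
    have := Finset.card_le_univ L
    simpa using this
  exact max_le (by omega) this

theorem c2_eq_card {n : ℕ} (R : Fin n → Fin n → Prop) :
    c2 R = ((univ.filter fun x : Fin n × Fin n => R x.1 x.2).card : ℝ) := by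
  unfold c2 cN
  rw [← Finset.sum_boole, Fintype.sum_prod_type]

theorem cN_mem {n : ℕ} (B : Finset (Fin n)) : cN (fun u => u ∈ B) = B.card := by
  rw [cN_eq_card]
  congr 2
  ext x; simp

theorem c2_mem {n : ℕ} (B : Finset (Fin n × Fin n)) : c2 (fun u v => (u, v) ∈ B) = B.card := by
  rw [c2_eq_card]
  congr 2
  ext x; simp

theorem shape_bound {k s r d : ℕ} {g : ℝ} (H : Par k s r d g) {p a : ℕ}
    (h : Shape k d r g p a) : 1 ≤ p ∧ p ≤ k := by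
  have := H.hk
  rcases h with h | h
  · obtain ⟨-, h1, h2, -⟩ := h
    omega
  · obtain ⟨-, h1, -⟩ := h
    omega

theorem pf_of_perfect {g ξ : ℝ} {n r p : ℕ} (L : LS (Fin n) r) (w : Fin p → Fin n)
    (h : PerfectT g ξ L w) : Pf (fun x y => eL g (L s(x, y))) ξ w := by
  refine ⟨?_, fun i => ?_⟩
  · rw [cN_eq_card]
    have := h.1
    have h2 : ∀ j, Un (fun x y => eL g (L s(x, y))) w j ↔ unitAt g L w j := fun j => Iff.rfl
    simp only [h2]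
    exact this
  · have := h.2 i
    unfold row at this
    refine le_trans (le_of_eq (Finset.sum_congr rfl fun u _ => ?_)) this
    show eL g (L s(w i, u)) = eL g (L s(u, w i))
    rw [Sym2.eq_swap]

theorem structure_size_of {k s r d : ℕ} {g : ℝ} (H : Par k s r d g)
    (hA : ∀ ξ : ℝ, 0 < ξ → ∃ η φ : ℝ, 0 < η ∧ 0 < φ ∧ ∀ n : ℕ, 0 < n → ∀ L : LS (Fin n) r,
      (nRb k s L : ℝ) ≤ η * (n : ℝ) ^ k → (nHigh g (1 + η) L : ℝ) ≤ η * n →
      ∃ (B₁ : Finset (Fin n)) (B₂ : Finset (Fin n × Fin n)),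
        (B₁.card : ℝ) ≤ ξ * n ∧ (B₂.card : ℝ) ≤ ξ * (n : ℝ) ^ 2 ∧
        ∀ F : Finset (Fin n), (F.card : ℝ) ≤ φ * n →
          (∀ u, u ∉ B₁ → ∃ p a : ℕ, Shape k d r g p a ∧ ∃ w : Fin p → Fin n,
            (∃ h : 0 < p, w ⟨0, h⟩ = u) ∧ (∀ i : Fin p, 0 < (i : ℕ) → w i ∉ F) ∧
            PerfectT g ξ L w) ∧
          (∀ u v, (u, v) ∉ B₂ → eL g (L s(u, v)) = 0 →
            ∃ p a : ℕ, Shape k d r g p a ∧ ∃ w : Fin p → Fin n,
            (∃ h : 1 < p, w ⟨0, by omega⟩ = u ∧ w ⟨1, h⟩ = v) ∧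
            (∀ i : Fin p, 1 < (i : ℕ) → w i ∉ F) ∧ PerfectT g ξ L w)) {τ : ℝ} (hτ : 0 < τ) :
    ∃ η : ℝ, 0 < η ∧ ∀ n : ℕ, 0 < n → ∀ L : LS (Fin n) r,
      (nRb k s L : ℝ) ≤ η * (n : ℝ) ^ k → (nHigh g (1 + η) L : ℝ) ≤ η * n →
      ∃ p a : ℕ, Shape k d r g p a ∧ ∃ Q : Fin n → Fin p,
        Bal τ Q ∧ (sizeBad g L Q : ℝ) ≤ τ * (n : ℝ) ^ 2 := by
  have hk3 := H.hk
  have hk0 : (3 : ℝ) ≤ k := by exact_mod_cast hk3
  have hg0 : 0 ≤ g := by have := H.hg; linarith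
  have hr2 : 2 ≤ r := by have := H.hs; have := H.hsr; omega
  set C : ℝ := 6 * ((k : ℝ) + 1) ^ 2 + 1 with hCdef
  have hCpos : 0 < C := by positivity
  set ξ₂ : ℝ := min (τ / 15) (1 / (6 * k)) with hξ2
  have hξ2pos : 0 < ξ₂ := lt_min (by positivity) (by positivity)
  have hξ2a : ξ₂ ≤ τ / 15 := min_le_left _ _
  have hξ2b : ξ₂ ≤ 1 / (6 * k) := min_le_right _ _
  have hξ2c : ξ₂ * k ≤ 1 / 6 := by
    have := mul_le_mul_of_nonneg_right hξ2b (by positivity : (0 : ℝ) ≤ k)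
    have h2 : 1 / (6 * (k : ℝ)) * k = 1 / 6 := by field_simp
    linarith
  obtain ⟨η₂, φ₂, hη2, hφ2, hA2⟩ := hA ξ₂ hξ2pos
  set ξ₆ : ℝ := τ / (6 * k) with hξ6
  have hξ6pos : 0 < ξ₆ := by positivity
  set φ' : ℝ := min φ₂ (1 / 2) with hφ'
  have hφ'pos : 0 < φ' := lt_min hφ2 (by norm_num)
  set D : ℝ := (C + 3) / ξ₆ + C with hD
  have hDpos : 0 < D := by positivity
  set ξ₁ : ℝ := min (min (τ / (3 * (C + 2))) (φ' / D)) (1 / (6 * k)) with hξ1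
  have hξ1pos : 0 < ξ₁ := lt_min (lt_min (by positivity) (by positivity)) (by positivity)
  have hξ1a : ξ₁ ≤ τ / (3 * (C + 2)) := (min_le_left _ _).trans (min_le_left _ _)
  have hξ1b : ξ₁ ≤ φ' / D := (min_le_left _ _).trans (min_le_right _ _)
  have hξ1c : ξ₁ ≤ 1 / (6 * k) := min_le_right _ _
  have hξ1d : ξ₁ * k ≤ 1 / 6 := by
    have := mul_le_mul_of_nonneg_right hξ1c (by positivity : (0 : ℝ) ≤ k)
    have h2 : 1 / (6 * (k : ℝ)) * k = 1 / 6 := by field_simp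
    linarith
  have hξ1e : (C + 2) * ξ₁ ≤ τ / 3 := by
    rw [le_div_iff₀ (by positivity)] at hξ1a
    linarith
  have hξ1f : ξ₁ * D ≤ φ' := by rwa [le_div_iff₀ hDpos] at hξ1b
  obtain ⟨η₁, φ₁, hη1, hφ1, hA1⟩ := hA ξ₁ hξ1pos
  refine ⟨min η₁ η₂, lt_min hη1 hη2, fun n hn L hRb hHi => ?_⟩
  have hn0 : (0 : ℝ) < n := by exact_mod_cast hn
  have hmono : ∀ η : ℝ, min η₁ η₂ ≤ η → (nHigh g (1 + η) L : ℝ) ≤ nHigh g (1 + min η₁ η₂) L := by
    intro η hη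
    unfold nHigh
    norm_cast
    refine Finset.card_le_card fun v hv => ?_
    simp only [mem_filter, mem_univ, true_and] at hv ⊢
    have : (1 + min η₁ η₂) * (n : ℝ) ≤ (1 + η) * n := by nlinarith
    linarith
  have hHi1 : (nHigh g (1 + η₁) L : ℝ) ≤ η₁ * n :=
    (hmono η₁ (min_le_left _ _)).trans (hHi.trans (by nlinarith [min_le_left η₁ η₂]))
  have hHi2 : (nHigh g (1 + η₂) L : ℝ) ≤ η₂ * n :=
    (hmono η₂ (min_le_right _ _)).trans (hHi.trans (by nlinarith [min_le_right η₁ η₂]))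
  have hRb1 : (nRb k s L : ℝ) ≤ η₁ * (n : ℝ) ^ k :=
    hRb.trans (mul_le_mul_of_nonneg_right (min_le_left _ _) (by positivity))
  have hRb2 : (nRb k s L : ℝ) ≤ η₂ * (n : ℝ) ^ k :=
    hRb.trans (mul_le_mul_of_nonneg_right (min_le_right _ _) (by positivity))
  obtain ⟨B₁, B₂, hB1, hB2, hP⟩ := hA1 n hn L hRb1 hHi1
  obtain ⟨B₁', B₂', hB1', hB2', hP'⟩ := hA2 n hn L hRb2 hHi2
  set e : Fin n → Fin n → ℝ := fun x y => eL g (L s(x, y)) with he
  have hs : ∀ x y, e x y = e y x := fun x y => by simp only [he, Sym2.eq_swap]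
  have h0 : ∀ x y, 0 ≤ e x y := fun x y => eL_nonneg hg0 hr2 _
  set Sh : ℕ → Prop := fun p => ∃ a, Shape k d r g p a with hSh
  have hShb : ∀ p, Sh p → 1 ≤ p ∧ p ≤ k := fun p ⟨a, ha⟩ => shape_bound H ha
  have hpf : ∀ {ξ : ℝ} {p : ℕ} (w : Fin p → Fin n), PerfectT g ξ L w → Pf e ξ w := by
    intro ξ p w hw
    exact pf_of_perfect L w hw
  obtain ⟨hP1, hP2⟩ := hP ∅ (by simp; positivity)
  have h1 : ∀ u, ¬ (u ∈ B₁) → ∃ p, Sh p ∧ ∃ w : Fin p → Fin n, (∃ h : 0 < p, w ⟨0, h⟩ = u) ∧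
      Pf e ξ₁ w := by
    intro u hu
    obtain ⟨p, a, hS, w, hw, -, hper⟩ := hP1 u hu
    exact ⟨p, ⟨a, hS⟩, w, hw, hpf w hper⟩
  have h2 : ∀ u v, ¬ ((u, v) ∈ B₂) → e u v = 0 → ∃ p, Sh p ∧ ∃ w : Fin p → Fin n,
      (∃ h : 1 < p, w ⟨0, by omega⟩ = u ∧ w ⟨1, h⟩ = v) ∧ Pf e ξ₁ w := by
    intro u v hu hz
    obtain ⟨p, a, hS, w, hw, -, hper⟩ := hP2 u v hu hz
    exact ⟨p, ⟨a, hS⟩, w, hw, hpf w hper⟩
  obtain ⟨p, hShp, hdom⟩ := dominant (k := k) hs h0 hn hξ1pos (by nlinarith) (by nlinarith)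
    hShb (b1 := fun u => u ∈ B₁) (b2 := fun u v => (u, v) ∈ B₂) (by rw [cN_mem]; exact hB1)
    (by rw [c2_mem]; exact hB2) h1 h2
  rw [← hCdef] at hdom
  obtain ⟨hp1, hpk⟩ := hShb p hShp
  have hlight := light_sum (k := k) hs h0 hn hξ1pos (by nlinarith) hShb
    (b2 := fun u v => (u, v) ∈ B₂) (by rw [c2_mem]; exact hB2) h2 hp1 hdom
  have hmark := cN_mul_le (f := LB e p) (LB_nonneg e p) (ξ₆ * (n : ℝ) ^ 2)
  set Fp : Fin n → Prop := fun x => ξ₆ * (n : ℝ) ^ 2 < LB e p x ∨ ¬ Ty e ξ₁ p x with hFp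
  have hFle : cN Fp ≤ φ' * n := by
    have a1 : cN (fun x => ξ₆ * (n : ℝ) ^ 2 < LB e p x) ≤ (C + 3) / ξ₆ * ξ₁ * n := by
      have a2 : cN (fun x => ξ₆ * (n : ℝ) ^ 2 < LB e p x) * (ξ₆ * (n : ℝ) ^ 2) ≤
          ((C + 3) / ξ₆ * ξ₁ * n) * (ξ₆ * (n : ℝ) ^ 2) := by
        refine hmark.trans (hlight.trans (le_of_eq ?_))
        field_simp
      exact le_of_mul_le_mul_right a2 (by positivity)
    have a3 : cN Fp ≤ _ := cN_or (R := Fp) (S := fun x => ξ₆ * (n : ℝ) ^ 2 < LB e p x)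
      (T := fun x => ¬ Ty e ξ₁ p x) (fun y h => h)
    have a4 : (C + 3) / ξ₆ * ξ₁ * n + C * ξ₁ * n = ξ₁ * D * n := by rw [hD]; ring
    nlinarith
  set F : Finset (Fin n) := univ.filter fun x => Fp x with hF
  have hFcard : (F.card : ℝ) ≤ φ₂ * n := by
    rw [hF, ← cN_eq_card' Fp]
    exact hFle.trans (mul_le_mul_of_nonneg_right (min_le_left _ _) hn0.le)
  obtain ⟨hP1', -⟩ := hP' F hFcard
  obtain ⟨u, hu1, hu2⟩ : ∃ u, u ∉ B₁' ∧ ¬ Fp u := by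
    by_contra hc
    push Not at hc
    have a1 := cN_or (R := fun _ : Fin n => True) (S := fun u => u ∈ B₁') (T := Fp)
      (fun y _ => by
        by_cases hy : y ∈ B₁'
        · exact Or.inl hy
        · exact Or.inr (hc y hy))
    rw [cN_true, cN_mem] at a1
    have a2 : φ' * n ≤ 1 / 2 * n := mul_le_mul_of_nonneg_right (min_le_right _ _) hn0.le
    have a3 : ξ₂ * n ≤ 1 / 6 * n := by
      refine mul_le_mul_of_nonneg_right ?_ hn0.le
      nlinarith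
    linarith
  obtain ⟨p', a', hS', w, ⟨hp0', hw0⟩, hwF, hper⟩ := hP1' u hu1
  obtain ⟨hp1', hpk'⟩ := hShb p' ⟨a', hS'⟩
  have hpf' := hpf w hper
  have hty' : Ty e ξ₂ p' u := by
    have := hpf'.ty h0 hp1' ⟨0, hp0'⟩
    rwa [hw0] at this
  have hFpu : Ty e ξ₁ p u := by
    by_contra hc
    exact hu2 (Or.inr hc)
  have hpp : p' = p := hty'.unique hn hp1' hpk' (by positivity) (by nlinarith) hFpu
  subst hpp
  have hallF : ∀ i : Fin p', ¬ Fp (w i) := by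
    intro i
    by_cases hi : 0 < (i : ℕ)
    · have := hwF i hi
      simpa [hF] using this
    · have : i = ⟨0, hp0'⟩ := Fin.ext (by simp; omega)
      rw [this, hw0]; exact hu2
  have hl : ∀ i, LB e p' (w i) ≤ ξ₆ * (n : ℝ) ^ 2 := by
    intro i
    by_contra hc
    push Not at hc
    exact hallF i (Or.inl hc)
  obtain ⟨Q, hQ1, hQ2⟩ := partition (C := C) hs h0 hξ1pos hξ2pos hξ6pos.le hp1' w hpf' hl hdom
  refine ⟨p', a', hS', Q, ?_, ?_⟩
  · intro i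
    have a1 := hQ1 i
    rw [cN_eq_card'] at a1
    refine a1.trans (mul_le_mul_of_nonneg_right ?_ hn0.le)
    linarith
  · have a1 : (sizeBad g L Q : ℝ) = c2 (fun y z => e y z ≠ if Q y = Q z then (p' : ℝ) else 0) := by
      rw [c2_eq_card]
      unfold sizeBad
      congr 2
      ext x
      simp only [mem_filter, mem_univ, true_and, he]
    rw [a1]
    refine hQ2.trans (mul_le_mul_of_nonneg_right ?_ (by positivity))
    have b1 : 2 * (p' : ℝ) * ξ₆ ≤ τ / 3 := by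
      have c1 : (p' : ℝ) ≤ k := by exact_mod_cast hpk
      have c2 : 2 * (p' : ℝ) * ξ₆ ≤ 2 * k * ξ₆ := by nlinarith
      have c3 : 2 * (k : ℝ) * ξ₆ = τ / 3 := by rw [hξ6]; field_simp; norm_num
      linarith
    linarith

end SIZB

end Pool.ER
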