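import Mathlib
import Pool.Agent.ER.SIZA
import Pool.Agent.ER.SIZB

set_option autoImplicit false

/-! # SIZB: final statement -/

open Finset Filter

namespace Pool.ER

theorem structure_size {k s r d : ℕ} {g : ℝ} (H : Par k s r d g) {τ : ℝ} (hτ : 0 < τ) :
    ∃ η : ℝ, 0 < η ∧ ∀ n : ℕ, 0 < n → ∀ L : LS (Fin n) r,
      (nRb k s L : ℝ) ≤ η * (n : ℝ) ^ k → (nHigh g (1 + η) L : ℝ) ≤ η * n →
      ∃ p a : ℕ, Shape k d r g p a ∧ ∃ Q : Fin n → Fin p,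
        Bal τ Q ∧ (sizeBad g L Q : ℝ) ≤ τ * (n : ℝ) ^ 2 :=
  SIZB.structure_size_of H (fun _ hξ => perfect_tuples H hξ) hτ

end Pool.ER
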