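import Mathlib
import Pool.Agent.ER.Defs
import Pool.Agent.ER.CONT
import Pool.Agent.ER.ROW
import Pool.Agent.ER.SIZBFin
import Pool.Agent.ER.LIST

set_option autoImplicit false

open Finset Filter

namespace Pool.ER

theorem NEAR_nHigh_anti {n r : ℕ} (g : ℝ) (L : LS (Fin n) r) {x y : ℝ} (h : x ≤ y) :
    nHigh g y L ≤ nHigh g x L := by
  classical
  unfold nHigh
  apply Finset.card_le_card
  intro v hv
  simp only [mem_filter, mem_univ, true_and] at hv ⊢
  have : x * (n : ℝ) ≤ y * n := by gcongr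
  linarith

/-- ordered pairs with an exceptional colour -/
theorem NEAR_ordered_exc {n r : ℕ} (φ : CG (Fin n) r) (L : LS (Fin n) r) :
    (univ.filter fun x : Fin n × Fin n => ∃ c : Fin r, c ∉ L s(x.1, x.2) ∧
      φ s(x.1, x.2) = some c).card ≤ 2 * exc φ L := by
  classical
  unfold exc
  set S := univ.filter fun e : Sym2 (Fin n) => ∃ c : Fin r, c ∉ L e ∧ φ e = some c with hS
  set T := univ.filter fun x : Fin n × Fin n => ∃ c : Fin r, c ∉ L s(x.1, x.2) ∧
      φ s(x.1, x.2) = some c with hT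
  have h1 : T.card ≤ ∑ e ∈ S, 2 := by
    have hmaps : ∀ x ∈ T, s(x.1, x.2) ∈ S := by
      intro x hx
      simp only [hT, mem_filter, mem_univ, true_and] at hx
      simp only [hS, mem_filter, mem_univ, true_and]
      exact hx
    rw [Finset.card_eq_sum_card_fiberwise hmaps]
    refine Finset.sum_le_sum fun e _ => ?_
    induction e using Sym2.ind with
    | _ a b =>
      refine (Finset.card_le_card (t := {(a, b), (b, a)}) ?_).trans Finset.card_le_two
      intro x hx
      simp only [mem_filter] at hx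
      have h2 := hx.2
      rw [Sym2.eq_iff] at h2
      simp only [mem_insert, mem_singleton, Prod.ext_iff]
      exact h2
  simpa [mul_comm] using h1

theorem NEAR_defect_le {n p r : ℕ} (φ : CG (Fin n) r) (L : LS (Fin n) r) (Q : Fin n → Fin p)
    (A : Finset (Fin r)) : defect φ Q A ≤ listBad L Q A + 2 * exc φ L := by
  classical
  refine le_trans ?_ (Nat.add_le_add_left (NEAR_ordered_exc φ L) _)
  unfold defect listBad
  refine le_trans (Finset.card_le_card ?_) (Finset.card_union_le _ _)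
  intro x hx
  simp only [mem_filter, mem_univ, true_and, mem_union] at hx ⊢
  obtain ⟨hQ, c, hc, hφ⟩ := hx
  by_cases h : L s(x.1, x.2) = pureL A (Q x.1) (Q x.2)
  · right
    refine ⟨c, ?_, hφ⟩
    rw [h, pureL, if_pos hQ]
    exact hc
  · left; exact h

theorem near {k s r d : ℕ} {g : ℝ} (H : Par k s r d g) {τ : ℝ} (hτ : 0 < τ) :
    ∃ ρ₀ δ₀ : ℝ, 0 < ρ₀ ∧ 0 < δ₀ ∧ ∀ ρ δ : ℝ, 0 < ρ → ρ ≤ ρ₀ → 0 < δ → δ ≤ δ₀ →
      ∀ᶠ n : ℕ in atTop, Dec k s r g ρ δ n → ∀ G : SimpleGraph (Fin n),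
        ∀ E ⊆ cols k s r G, (∀ φ ∈ E, ¬ NearPure k d r g τ φ) → (E.card : ℝ) ≤ cnum k s r n / 16 := by
  classical
  have hk := H.hk
  have hg0 : 0 < g := by
    have h1 := H.hg
    have h2 : (3 : ℝ) ≤ k := by exact_mod_cast hk
    linarith
  obtain ⟨ηl, hηl, hl⟩ := structure_lists H (τ := τ / 2) (by positivity)
  obtain ⟨ηs, hηs, hs⟩ := structure_size H (τ := min ηl (τ / 2)) (by positivity)
  refine ⟨ηs, ηs / (2 * g), hηs, by positivity, ?_⟩
  intro ρ δ hρ hρ0 hδ hδ0
  obtain ⟨ηr, hηr, hrow⟩ := row_bound (k := k) (s := s) (r := r) hk (by have := H.hsr; have := H.hs; omega) hg0 hδ hρ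
  set η := min (min ηl ηs) (min ηr (τ / 8)) with hη
  have hη0 : 0 < η := by positivity
  have hη1 : η ≤ ηl := (min_le_left _ _).trans (min_le_left _ _)
  have hη2 : η ≤ ηs := (min_le_left _ _).trans (min_le_right _ _)
  have hη3 : η ≤ ηr := (min_le_right _ _).trans (min_le_left _ _)
  have hη4 : η ≤ τ / 8 := (min_le_right _ _).trans (min_le_right _ _)
  obtain ⟨M, hM⟩ := container (k := k) (s := s) (r := r) (by omega) hη0
  filter_upwards [hrow M, eventually_gt_atTop 0] with n hn hn0 hDec G E hE hEn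
  refine hn hDec G E hE fun φ hφ => ?_
  have hcol := hE hφ
  simp only [cols, mem_filter, mem_univ, true_and] at hcol
  have hdiag : ∀ v, φ s(v, v) = none := by
    intro v
    by_contra h
    have := (hcol.1 s(v, v)).1 h
    simp at this
  obtain ⟨P, Λ, hexc, hRb⟩ := hM n φ hdiag hcol.2
  refine ⟨P, Λ, hexc.trans (by gcongr), ?_⟩
  by_contra hhigh
  rw [not_lt] at hhigh
  apply hEn φ hφ
  have h1 : (nHigh g (1 + ηs) (pull P Λ) : ℝ) ≤ ηs * n := by
    have h2 : nHigh g (1 + ηs) (pull P Λ) ≤ nHigh g (1 + 2 * δ * g) (pull P Λ) := by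
      apply NEAR_nHigh_anti
      have : 2 * δ * g ≤ ηs := by
        calc 2 * δ * g ≤ 2 * (ηs / (2 * g)) * g := by gcongr
          _ = ηs := by field_simp
      linarith
    calc (nHigh g (1 + ηs) (pull P Λ) : ℝ) ≤ nHigh g (1 + 2 * δ * g) (pull P Λ) := by exact_mod_cast h2
      _ ≤ ρ * n := hhigh
      _ ≤ ηs * n := by gcongr
  obtain ⟨p, a, hS, Q, hBal, hsb⟩ := hs n hn0 (pull P Λ) (hRb.trans (by gcongr)) h1
  have hBal1 : Bal ηl Q := fun i => (hBal i).trans (by gcongr; exact min_le_left _ _)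
  have hBal2 : Bal τ Q := fun i => (hBal i).trans (by
    gcongr
    exact (min_le_right _ _).trans (by linarith))
  obtain ⟨A, hA, hlb⟩ := hl n hn0 (pull P Λ) (hRb.trans (by gcongr)) p a hS Q hBal1
    (hsb.trans (by gcongr; exact min_le_left _ _))
  refine ⟨p, a, hS, Q, A, hA, hBal2, ?_⟩
  have h3 : (defect φ Q A : ℝ) ≤ listBad (pull P Λ) Q A + 2 * exc φ (pull P Λ) := by
    exact_mod_cast NEAR_defect_le φ (pull P Λ) Q A
  have h4 : η * (n : ℝ) ^ 2 ≤ τ / 8 * (n : ℝ) ^ 2 := by gcongr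
  have h5 : 0 ≤ (n : ℝ) ^ 2 := by positivity
  nlinarith

end Pool.ER
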