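import Mathlib
import Pool.Agent.ER.Defs
import Pool.Agent.ER.NEAR
import Pool.Agent.ER.CONV
import Pool.Agent.ER.RES

set_option autoImplicit false

open Finset Filter

namespace Pool.ER

theorem UPP_extremal (k s r n : ℕ) : ∃ G : SimpleGraph (Fin n), (cols k s r G).card = cnum k s r n := by
  classical
  obtain ⟨G, _, hG⟩ := Finset.exists_mem_eq_sup (univ : Finset (SimpleGraph (Fin n)))
    ⟨⊥, mem_univ _⟩ (fun G => (cols k s r G).card)
  refine ⟨G, ?_⟩
  rw [cnum, hG]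

theorem UPP_lc {k s r d : ℕ} {g : ℝ} (H : Par k s r d g) (m : ℕ) :
    (cnum k s r m : ℝ) = (r : ℝ) ^ (lc k s r m) := by
  have hk := H.hk
  have hr : (1 : ℝ) < r := by
    have := H.hs; have := H.hsr
    exact_mod_cast (by omega : 1 < r)
  have h2 : 1 ≤ cnum k s r m := one_le_cnum (by omega) (by have := H.hs; omega)
  rw [lc, Real.rpow_logb (by linarith) hr.ne' (by exact_mod_cast h2)]

/-- `u_n = lc (n+1) - lc n` is monotone -/
theorem UPP_mono {k s r d : ℕ} {g : ℝ} (H : Par k s r d g) :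
    Monotone fun n => lc k s r (n + 1) - lc k s r n := by
  have hk := H.hk
  have hr : (1 : ℝ) < r := by
    have := H.hs; have := H.hsr
    exact_mod_cast (by omega : 1 < r)
  refine monotone_nat_of_le_succ fun n => ?_
  have h1 : (cnum k s r (n + 1)) ^ 2 ≤ cnum k s r n * cnum k s r (n + 2) :=
    cnum_logconv (by omega)
  have h2 : ((cnum k s r (n + 1) : ℕ) : ℝ) ^ 2 ≤ cnum k s r n * cnum k s r (n + 2) := by
    exact_mod_cast h1
  rw [UPP_lc H, UPP_lc H, UPP_lc H, ← Real.rpow_natCast, ← Real.rpow_mul (by linarith),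
    ← Real.rpow_add (by linarith), Real.rpow_le_rpow_left_iff hr] at h2
  push_cast at h2
  show lc k s r (n + 1) - lc k s r n ≤ lc k s r (n + 1 + 1) - lc k s r (n + 1)
  have : n + 1 + 1 = n + 2 := rfl
  rw [this]
  linarith

theorem UPP_le {k s r d : ℕ} {g : ℝ} (H : Par k s r d g) (n : ℕ) :
    lc k s r (n + 1) - lc k s r n ≤ n := by
  have hk := H.hk
  have hr : (1 : ℝ) < r := by
    have := H.hs; have := H.hsr
    exact_mod_cast (by omega : 1 < r)
  have h1 : cnum k s r (n + 1) ≤ cnum k s r n * r ^ n :=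
    cnum_succ_le (by omega) (by have := H.hs; have := H.hsr; omega)
  have h2 : ((cnum k s r (n + 1) : ℕ) : ℝ) ≤ cnum k s r n * (r : ℝ) ^ n := by
    exact_mod_cast h1
  rw [UPP_lc H, UPP_lc H, ← Real.rpow_natCast, ← Real.rpow_add (by linarith),
    Real.rpow_le_rpow_left_iff hr] at h2
  linarith

/-- telescoping: `lc N - lc (N-b) ≥ b u_m` for `m ≤ N - b` -/
theorem UPP_tele {k s r d : ℕ} {g : ℝ} (H : Par k s r d g) (m b N : ℕ) (h : m + b ≤ N) :
    (b : ℝ) * (lc k s r (m + 1) - lc k s r m) ≤ lc k s r N - lc k s r (N - b) := by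
  have hm := UPP_mono H
  induction b with
  | zero => simp
  | succ b ih =>
    have h1 := ih (by omega)
    have h2 := hm (show m ≤ N - (b + 1) by omega)
    have h3 : N - (b + 1) + 1 = N - b := by omega
    simp only at h2
    rw [h3] at h2
    push_cast
    nlinarith

theorem growth_upper {k s r d : ℕ} {g : ℝ} (H : Par k s r d g) {θ : ℝ} (hθ : 0 < θ) :
    ∀ᶠ n : ℕ in atTop, lc k s r (n + 1) - lc k s r n ≤ (1 - 1 / g + θ) * n := by
  classical
  have hk := H.hk
  have hr1 : 1 < r := by have := H.hs; have := H.hsr; omega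
  have hg : 0 < g := by
    have h1 := H.hg
    have h2 : (3 : ℝ) ≤ k := by exact_mod_cast hk
    linarith
  have hginv : 0 < 1 / g := by positivity
  -- reduce to small theta
  by_cases hθg : 1 / g ≤ θ
  · refine Eventually.of_forall fun n => ?_
    have h1 := UPP_le H n
    have h2 : (0 : ℝ) ≤ n := Nat.cast_nonneg _
    nlinarith
  push_neg at hθg
  set g' := 1 / (1 / g - θ / 2) with hg'
  have hden : 0 < 1 / g - θ / 2 := by linarith
  have hg'0 : 0 < g' := by positivity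
  have hg'inv : 1 / g' = 1 / g - θ / 2 := by rw [hg', one_div_one_div]
  have hgg' : g < g' := by
    rw [hg', lt_div_iff₀ hden]
    have : g * (1 / g) = 1 := by field_simp
    nlinarith
  have hbeta : ∀ a : ℕ, 1 ≤ a → a < r → 0 < beta r a := by
    intro a ha har
    have h1 : (0 : ℝ) < Real.log r := Real.log_pos (by exact_mod_cast hr1)
    have h2 : Real.log a < Real.log r := Real.log_lt_log (by exact_mod_cast ha) (by exact_mod_cast har)
    rw [beta, sub_pos, div_lt_one h1]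
    exact h2
  have hlt : ∀ p a : ℕ, 1 ≤ p → 1 ≤ a → Ik k (p : ℝ) = a + d → a < r := by
    intro p a hp ha hI
    have h4 : Ik k (p : ℝ) ≤ k.choose 2 := by
      unfold Ik
      calc ∑ l ∈ range k, ⌊(l : ℝ) / (p : ℝ)⌋₊ ≤ ∑ l ∈ range k, l := by
            refine Finset.sum_le_sum fun l _ => ?_
            have h1 : (l : ℝ) / (p : ℝ) ≤ l := div_le_self (Nat.cast_nonneg _) (by exact_mod_cast hp)
            calc ⌊(l : ℝ) / (p : ℝ)⌋₊ ≤ ⌊(l : ℝ)⌋₊ := Nat.floor_mono h1
              _ = l := Nat.floor_natCast l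
        _ = k.choose 2 := by rw [Finset.sum_range_id, Nat.choose_two_right]
    have := H.hsd; have := H.hsr
    omega
  have H' : Par k s r d g' := by
    refine ⟨H.hk, H.hs, H.hd, H.hsd, H.hsr, H.hg.trans hgg'.le, ?_⟩
    intro p a hp hpk ha hI
    refine (H.hgp p a hp hpk ha hI).trans ?_
    exact mul_le_mul_of_nonneg_right hgg'.le (hbeta a ha (hlt p a hp ha hI)).le
  have hnoshape : ¬ ∃ p a : ℕ, Shape k d r g' p a := by
    rintro ⟨p, a, hS | hS⟩
    · obtain ⟨h1, h2, h3, h4, h5, h6⟩ := hS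
      have h7 := H.hgp p a h2 h3 (by omega) h4
      have h8 := hbeta a (by omega) (hlt p a h2 (by omega) h4)
      nlinarith
    · have h1 := hS.2.2
      have h2 := H.hg
      linarith
  obtain ⟨ρ₀, δ₀, hρ₀, hδ₀, hN⟩ := near H' (τ := 1) one_pos
  set ρ := min ρ₀ (min (θ / 16) (1 / 2)) with hρ
  have hρ0 : 0 < ρ := by positivity
  have hρ1 : ρ ≤ ρ₀ := min_le_left _ _
  have hρ2 : ρ ≤ θ / 16 := (min_le_right _ _).trans (min_le_left _ _)
  have hρ3 : ρ ≤ 1 / 2 := (min_le_right _ _).trans (min_le_right _ _)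
  have hNn := hN ρ δ₀ hρ0 hρ1 hδ₀ le_rfl
  -- eventually not Dec
  have hnot : ∀ᶠ N : ℕ in atTop, ¬ Dec k s r g' ρ δ₀ N := by
    filter_upwards [hNn] with N hN hD
    obtain ⟨G, hG⟩ := UPP_extremal k s r N
    have h1 := hN hD G (cols k s r G) (Finset.Subset.refl _) (fun φ _ h => by
      obtain ⟨p, a, hS, _⟩ := h
      exact hnoshape ⟨p, a, hS⟩)
    rw [hG] at h1
    have h2 : 1 ≤ cnum k s r N := one_le_cnum (by omega) (by have := H.hs; omega)
    have h3 : (1 : ℝ) ≤ cnum k s r N := by exact_mod_cast h2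
    linarith
  obtain ⟨N₀, hN₀⟩ := eventually_atTop.1 hnot
  filter_upwards [eventually_ge_atTop (max N₀ (⌈100 / θ⌉₊ + 100))] with n hn
  by_contra hcon
  push_neg at hcon
  have hnN : N₀ ≤ n := (le_max_left _ _).trans hn
  have hn2 : ⌈100 / θ⌉₊ + 100 ≤ n := (le_max_right _ _).trans hn
  have hn3 : 100 / θ ≤ n := by
    have h1 : 100 / θ ≤ (⌈100 / θ⌉₊ : ℕ) := Nat.le_ceil _
    have h2 : ((⌈100 / θ⌉₊ : ℕ) : ℝ) + 100 ≤ n := by exact_mod_cast hn2
    linarith
  have hn4 : 100 ≤ θ * n := by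
    rw [div_le_iff₀ hθ] at hn3
    linarith
  have hn5 : (100 : ℝ) ≤ n := by
    have h2 : ((⌈100 / θ⌉₊ : ℕ) : ℝ) + 100 ≤ n := by exact_mod_cast hn2
    have h3 : (0 : ℝ) ≤ (⌈100 / θ⌉₊ : ℕ) := Nat.cast_nonneg _
    linarith
  -- N
  set N := ⌈((n : ℝ) + 2) / (1 - ρ)⌉₊ with hNdef
  have hρ' : 0 < 1 - ρ := by linarith
  have hN1 : ((n : ℝ) + 2) / (1 - ρ) ≤ N := Nat.le_ceil _
  have hN2 : (N : ℝ) < ((n : ℝ) + 2) / (1 - ρ) + 1 := Nat.ceil_lt_add_one (by positivity)
  have hN3 : (n : ℝ) + 2 ≤ N * (1 - ρ) := by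
    rwa [div_le_iff₀ hρ'] at hN1
  have hN4 : (N : ℝ) * (1 - ρ) < n + 3 := by
    have h1 : (N : ℝ) * (1 - ρ) < (((n : ℝ) + 2) / (1 - ρ) + 1) * (1 - ρ) :=
      mul_lt_mul_of_pos_right hN2 hρ'
    have h2 : (((n : ℝ) + 2) / (1 - ρ) + 1) * (1 - ρ) = n + 2 + (1 - ρ) := by
      field_simp
    linarith
  have hNn' : n ≤ N := by
    have h1 : (0 : ℝ) ≤ N := Nat.cast_nonneg _
    have : (n : ℝ) ≤ N := by nlinarith
    exact_mod_cast this
  apply hN₀ N (hnN.trans hNn')
  intro b hb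
  have hbN : n + b ≤ N := by
    have : (n : ℝ) + b ≤ N := by nlinarith
    exact_mod_cast this
  have h1 := UPP_tele H n b N hbN
  have h2 : (b : ℝ) * (1 - 1 / g' - δ₀) * N ≤ b * (lc k s r (n + 1) - lc k s r n) := by
    rw [mul_assoc]
    refine mul_le_mul_of_nonneg_left ?_ (Nat.cast_nonneg b)
    refine le_trans ?_ hcon.le
    rw [hg'inv]
    have hN0 : (0 : ℝ) ≤ N := Nat.cast_nonneg _
    have h3 : 1 - 1 / g + θ ≤ 1 := by linarith
    have h4 : 0 ≤ 1 - 1 / g := by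
      have : (1 : ℝ) ≤ g := by
        have h1 := H.hg
        have h2 : (3 : ℝ) ≤ k := by exact_mod_cast hk
        linarith
      have : 1 / g ≤ 1 := by
        rw [div_le_one hg]; exact this
      linarith
    -- (1-1/g+θ/2-δ) N ≤ (1-1/g+θ) n
    have h5 : (n : ℝ) ≥ N * (1 - ρ) - 3 := by linarith
    have h6 : (1 - 1 / g + θ) * (n : ℝ) ≥ (1 - 1 / g + θ) * (N * (1 - ρ) - 3) :=
      mul_le_mul_of_nonneg_left h5 (by linarith)
    have h7 : (N : ℝ) ≥ n := by exact_mod_cast hNn'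
    have h8 : (1 - 1 / g + θ) * (N * ρ) ≤ 1 * (N * ρ) :=
      mul_le_mul_of_nonneg_right h3 (by positivity)
    have h9 : (N : ℝ) * ρ ≤ N * (θ / 16) := mul_le_mul_of_nonneg_left hρ2 hN0
    nlinarith
  linarith

end Pool.ER
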