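import Mathlib
import Pool.Agent.ER.Defs
import Pool.Agent.ER.UPP
import Pool.Agent.ER.LOW
import Pool.Agent.ER.GAN

set_option autoImplicit false

open Finset Filter

namespace Pool.ER

theorem GLO_g {k s r d : ℕ} {g : ℝ} (H : Par k s r d g) : 2 ≤ g := by
  have h1 := H.hg
  have h2 : (3 : ℝ) ≤ k := by exact_mod_cast H.hk
  linarith

theorem GLO_ginv {k s r d : ℕ} {g : ℝ} (H : Par k s r d g) : 0 < 1 / g ∧ 1 / g ≤ 1 / 2 := by
  have h := GLO_g H
  exact ⟨by positivity, one_div_le_one_div_of_le (by norm_num) h⟩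

theorem growth_lower {k s r d : ℕ} {g : ℝ} (H : Par k s r d g) {p a : ℕ}
    (hS : Shape k d r g p a) {δ : ℝ} (hδ : 0 < δ) :
    ∀ᶠ n : ℕ in atTop, (1 - 1 / g - δ) * n ≤ lc k s r (n + 1) - lc k s r n := by
  obtain ⟨B, hB⟩ := lower_bound H hS
  have h := GLO_ginv H
  exact growth_analysis (lc k s r) (UPP_mono H) (by linarith) hB
    (fun θ hθ => growth_upper H hθ) hδ

theorem GLO_zero {k s r d : ℕ} {g : ℝ} (H : Par k s r d g) : lc k s r 0 = 0 := by
  have h1 : 1 ≤ cnum k s r 0 := one_le_cnum (by have := H.hk; omega) (by have := H.hs; omega)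
  have h2 : cnum k s r 0 ≤ 1 := by
    unfold cnum
    refine Finset.sup_le fun G _ => ?_
    refine (Finset.card_le_univ _).trans ?_
    rw [Fintype.card_fun]
    have : Fintype.card (Sym2 (Fin 0)) = 0 := Fintype.card_eq_zero
    rw [this, pow_zero]
  have h3 : cnum k s r 0 = 1 := le_antisymm h2 h1
  rw [lc, h3]
  simp

theorem GLO_nonneg {k s r d : ℕ} {g : ℝ} (H : Par k s r d g) (n : ℕ) : 0 ≤ lc k s r n := by
  have h1 : 1 ≤ cnum k s r n := one_le_cnum (by have := H.hk; omega) (by have := H.hs; omega)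
  have hr : (1 : ℝ) < r := by
    have := H.hs; have := H.hsr
    exact_mod_cast (by omega : 1 < r)
  exact Real.logb_nonneg hr (by exact_mod_cast h1)

theorem GLO_incr {k s r d : ℕ} {g : ℝ} (H : Par k s r d g) (n : ℕ) :
    0 ≤ lc k s r (n + 1) - lc k s r n := by
  have h1 := UPP_mono H (Nat.zero_le n)
  simp only [zero_add] at h1
  rw [GLO_zero H] at h1
  have h2 := GLO_nonneg H 1
  linarith

theorem GLO_mono {k s r d : ℕ} {g : ℝ} (H : Par k s r d g) : Monotone (lc k s r) :=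
  monotone_nat_of_le_succ fun n => by have := GLO_incr H n; linarith

theorem dec_eventually {k s r d : ℕ} {g : ℝ} (H : Par k s r d g) {p a : ℕ}
    (hS : Shape k d r g p a) {ρ δ : ℝ} (hρ : 0 < ρ) (hδ : 0 < δ) (hρδ : ρ ≤ δ / 4) :
    ∀ᶠ n : ℕ in atTop, Dec k s r g ρ δ n := by
  obtain ⟨hg0, hg1⟩ := GLO_ginv H
  by_cases hneg : 1 - 1 / g - δ ≤ 0
  · refine Eventually.of_forall fun n b hb => ?_
    have h1 : (b : ℝ) * (1 - 1 / g - δ) * n ≤ 0 := by
      have h2 : (0 : ℝ) ≤ b * n := by positivity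
      nlinarith
    have h3 := GLO_mono H (Nat.sub_le n b)
    linarith
  push_neg at hneg
  have hδ1 : δ < 1 := by linarith
  have hgl := growth_lower H hS (δ := δ / 4) (by positivity)
  obtain ⟨N₀, hN₀⟩ := eventually_atTop.1 hgl
  filter_upwards [eventually_ge_atTop (4 * N₀ + 4 + 2 * ⌈4 / δ⌉₊)] with n hn b hb
  have hn1 : (4 * N₀ + 4 + 2 * (⌈4 / δ⌉₊ : ℕ) : ℝ) ≤ n := by exact_mod_cast hn
  have hn2 : 4 / δ ≤ (⌈4 / δ⌉₊ : ℕ) := Nat.le_ceil _
  have hN0' : (0 : ℝ) ≤ N₀ := Nat.cast_nonneg _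
  have hn3 : 8 / δ + 4 ≤ n := by
    have : 8 / δ = 2 * (4 / δ) := by ring
    rw [this]; linarith
  have hn4 : 8 + 4 * δ ≤ δ * n := by
    have h1 : (8 / δ + 4) * δ ≤ n * δ := mul_le_mul_of_nonneg_right hn3 hδ.le
    have h2 : (8 / δ + 4) * δ = 8 + 4 * δ := by field_simp
    linarith
  have hbn : (b : ℝ) ≤ δ / 4 * n + 1 := hb.trans (by
    have : (0 : ℝ) ≤ n := Nat.cast_nonneg _
    nlinarith)
  have hbn' : (b : ℝ) ≤ n / 2 - N₀ := by
    have h8 : δ / 4 * n ≤ 1 / 4 * n := by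
      have : (0 : ℝ) ≤ n := Nat.cast_nonneg _
      nlinarith
    have h9 : (0 : ℝ) ≤ (⌈4 / δ⌉₊ : ℕ) := Nat.cast_nonneg _
    have h10 : 4 < 4 / δ := by rw [lt_div_iff₀ hδ]; linarith
    linarith
  have hble : b ≤ n := by
    have : (b : ℝ) ≤ n := by
      have : (0 : ℝ) ≤ n := Nat.cast_nonneg _
      linarith
    exact_mod_cast this
  have hsub : ((n - b : ℕ) : ℝ) = n - b := by rw [Nat.cast_sub hble]
  have hge : N₀ ≤ n - b := by
    have : (N₀ : ℝ) ≤ ((n - b : ℕ) : ℝ) := by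
      rw [hsub]
      linarith
    exact_mod_cast this
  have h1 := hN₀ (n - b) hge
  have h2 := UPP_tele H (n - b) b n (by omega)
  rw [hsub] at h1
  have h3 : (b : ℝ) * ((1 - 1 / g - δ) * n) ≤ b * (lc k s r (n - b + 1) - lc k s r (n - b)) := by
    refine mul_le_mul_of_nonneg_left (le_trans ?_ h1) (Nat.cast_nonneg b)
    -- (1-1/g-δ) n ≤ (1-1/g-δ/4)(n-b)
    have h4 : 0 ≤ 1 - 1 / g - δ / 4 := by linarith
    have h5 : (n : ℝ) - b ≥ n - (δ / 4 * n + 1) := by linarith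
    have h6 : (1 - 1 / g - δ / 4) * (n - b) ≥ (1 - 1 / g - δ / 4) * (n - (δ / 4 * n + 1)) :=
      mul_le_mul_of_nonneg_left h5 h4
    have h7 : (1 - 1 / g - δ / 4) * (δ / 4 * n + 1) ≤ 1 * (δ / 4 * n + 1) :=
      mul_le_mul_of_nonneg_right (by linarith) (by
        have : (0 : ℝ) ≤ n := Nat.cast_nonneg _
        positivity)
    nlinarith
  have h4 : (b : ℝ) * (1 - 1 / g - δ) * n = b * ((1 - 1 / g - δ) * n) := by ring
  rw [h4]
  linarith

end Pool.ER
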