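import Mathlib
import Pool.Agent.ER.Defs
import Pool.Agent.ER.CHE
import Pool.Agent.ER.RES
import Pool.Agent.ER.LOW

set_option autoImplicit false

open Finset Filter

namespace Pool.ER

/-! # LDC: lower density by counting -/

/-- the pair `e` lies inside a class -/
def LDC_in {n p : ℕ} (Q : Fin n → Fin p) (e : Sym2 (Fin n)) : Prop := (e.map Q).IsDiag

theorem LDC_in_mk {n p : ℕ} (Q : Fin n → Fin p) (u v : Fin n) : LDC_in Q s(u, v) ↔ Q u = Q v :=
  Iff.rfl

/-- unordered pairs between X and Y -/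
def LDC_XY {n : ℕ} (X Y : Finset (Fin n)) : Finset (Sym2 (Fin n)) :=
  (X ×ˢ Y).image fun z => s(z.1, z.2)

theorem LDC_card_XY {n : ℕ} {X Y : Finset (Fin n)} (h : Disjoint X Y) :
    (LDC_XY X Y).card = X.card * Y.card := by
  unfold LDC_XY
  rw [Finset.card_image_of_injOn, Finset.card_product]
  rintro ⟨x, y⟩ hxy ⟨x', y'⟩ hxy' heq
  simp only [Finset.coe_product, Set.mem_prod, Finset.mem_coe] at hxy hxy'
  simp only [Sym2.eq_iff] at heq
  rcases heq with ⟨h1, h2⟩ | ⟨h1, h2⟩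
  · rw [h1, h2]
  · exact absurd (h1 ▸ hxy.1) (fun hx => Finset.disjoint_left.1 h hx hxy'.2)

open Classical in
/-- number of pairs inside the classes -/
theorem LDC_inside {n p : ℕ} (Q : Fin n → Fin p) :
    (n : ℝ) ^ 2 ≤ 2 * p * ((univ : Finset (Sym2 (Fin n))).filter fun e => LDC_in Q e).card := by
  have h1 : ((univ : Finset (Fin n × Fin n)).filter fun z => Q z.1 = Q z.2).card ≤
      2 * ((univ : Finset (Sym2 (Fin n))).filter fun e => LDC_in Q e).card := by
    refine (Finset.card_le_mul_card_image (f := fun z : Fin n × Fin n => s(z.1, z.2)) _ 2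
      ?_).trans ?_
    · intro e _
      induction e using Sym2.ind with
      | _ a b =>
        have hsub : (((univ : Finset (Fin n × Fin n)).filter fun z => Q z.1 = Q z.2).filter
            fun z => s(z.1, z.2) = s(a, b)) ⊆ {(a, b), (b, a)} := by
          rintro ⟨u, v⟩ huv
          rw [Finset.mem_filter] at huv
          have h := huv.2
          simp only [Sym2.eq_iff] at h
          rcases h with ⟨h1, h2⟩ | ⟨h1, h2⟩
          · simp [h1, h2]
          · simp [h1, h2]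
        exact (Finset.card_le_card hsub).trans Finset.card_le_two
    · refine Nat.mul_le_mul_left 2 (Finset.card_le_card ?_)
      intro e he
      rw [Finset.mem_image] at he
      obtain ⟨z, hz, rfl⟩ := he
      rw [Finset.mem_filter] at hz ⊢
      exact ⟨Finset.mem_univ _, hz.2⟩
  have h2 : ((univ : Finset (Fin n × Fin n)).filter fun z => Q z.1 = Q z.2).card =
      ∑ i : Fin p, ((univ.filter fun u => Q u = i).card) ^ 2 := by
    rw [Finset.card_eq_sum_card_fiberwise (f := fun z : Fin n × Fin n => Q z.1)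
      (t := (univ : Finset (Fin p))) (fun _ _ => Finset.mem_coe.2 (Finset.mem_univ _))]
    refine Finset.sum_congr rfl fun i _ => ?_
    rw [sq, ← Finset.card_product]
    congr 1
    ext ⟨u, v⟩
    simp only [Finset.mem_filter, Finset.mem_univ, true_and, Finset.mem_product]
    constructor
    · rintro ⟨h1, h2⟩
      exact ⟨h2, h1 ▸ h2⟩
    · rintro ⟨h1, h2⟩
      exact ⟨h1.trans h2.symm, h1⟩
  have h3 : (∑ i : Fin p, ((univ.filter fun u => Q u = i).card : ℝ)) = n := by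
    have := Finset.card_eq_sum_card_fiberwise (f := Q) (s := (univ : Finset (Fin n)))
      (t := (univ : Finset (Fin p))) (fun _ _ => Finset.mem_coe.2 (Finset.mem_univ _))
    rw [Finset.card_univ, Fintype.card_fin] at this
    exact_mod_cast this.symm
  have h4 := sq_sum_le_card_mul_sum_sq (s := (univ : Finset (Fin p)))
    (f := fun i => ((univ.filter fun u => Q u = i).card : ℝ))
  rw [h3, Finset.card_univ, Fintype.card_fin] at h4
  have h5 : (∑ i : Fin p, ((univ.filter fun u => Q u = i).card : ℝ) ^ 2) ≤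
      2 * ((univ : Finset (Sym2 (Fin n))).filter fun e => LDC_in Q e).card := by
    rw [h2] at h1
    exact_mod_cast h1
  calc (n : ℝ) ^ 2 ≤ p * ∑ i : Fin p, ((univ.filter fun u => Q u = i).card : ℝ) ^ 2 := h4
    _ ≤ p * (2 * ((univ : Finset (Sym2 (Fin n))).filter fun e => LDC_in Q e).card) :=
        mul_le_mul_of_nonneg_left h5 (Nat.cast_nonneg p)
    _ = _ := by ring

open Classical in
theorem LDC_bad_card {n p r : ℕ} (Q : Fin n → Fin p) (A : Finset (Fin r)) (φ : CG (Fin n) r) :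
    ((univ : Finset (Sym2 (Fin n))).filter fun e => LDC_in Q e ∧ ∃ c : Fin r, c ∉ A ∧ φ e = some c).card
      ≤ defect φ Q A := by
  unfold defect
  refine (Finset.card_le_card ?_).trans (Finset.card_image_le (f := fun z : Fin n × Fin n => s(z.1, z.2)))
  intro e he
  rw [Finset.mem_filter] at he
  obtain ⟨-, he⟩ := he
  induction e using Sym2.ind with
  | _ a b =>
    rw [Finset.mem_image]
    exact ⟨(a, b), Finset.mem_filter.2 ⟨Finset.mem_univ _, he.1, he.2⟩, rfl⟩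

open Classical in
theorem LDC_col_card {n r : ℕ} (X Y : Finset (Fin n)) (c : Fin r) (φ : CG (Fin n) r) :
    ((univ : Finset (Sym2 (Fin n))).filter fun e => e ∈ LDC_XY X Y ∧ φ e = some c).card
      ≤ ((X ×ˢ Y).filter fun z => φ s(z.1, z.2) = some c).card := by
  refine (Finset.card_le_card ?_).trans (Finset.card_image_le (f := fun z : Fin n × Fin n => s(z.1, z.2)))
  intro e he
  rw [Finset.mem_filter] at he
  obtain ⟨-, he, hc⟩ := he
  unfold LDC_XY at he
  rw [Finset.mem_image] at he ⊢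
  obtain ⟨z, hz, rfl⟩ := he
  exact ⟨z, Finset.mem_filter.2 ⟨hz, hc⟩, rfl⟩

open Classical in
/-- the weights -/
noncomputable def LDC_y {n p r : ℕ} (Q : Fin n → Fin p) (A : Finset (Fin r)) (X Y : Finset (Fin n))
    (c : Fin r) (x : ℝ) (e : Sym2 (Fin n)) (o : Option (Fin r)) : ℝ :=
  (if LDC_in Q e ∧ ∃ c : Fin r, c ∉ A ∧ o = some c then x else 1) *
    (if e ∈ LDC_XY X Y ∧ o = some c then 1 / 2 else 1)

theorem LDC_y_nonneg {n p r : ℕ} (Q : Fin n → Fin p) (A : Finset (Fin r)) (X Y : Finset (Fin n))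
    (c : Fin r) {x : ℝ} (hx : 0 ≤ x) (e : Sym2 (Fin n)) (o : Option (Fin r)) :
    0 ≤ LDC_y Q A X Y c x e o := by
  unfold LDC_y
  apply mul_nonneg <;> split_ifs <;> first | exact hx | norm_num

theorem LDC_y_none {n p r : ℕ} (Q : Fin n → Fin p) (A : Finset (Fin r)) (X Y : Finset (Fin n))
    (c : Fin r) (x : ℝ) (e : Sym2 (Fin n)) :
    LDC_y Q A X Y c x e none = 1 := by
  unfold LDC_y
  rw [if_neg (by rintro ⟨_, c, _, h⟩; exact absurd h (by simp)),
    if_neg (by rintro ⟨_, h⟩; exact absurd h (by simp)), one_mul]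

open Classical in
/-- the product of the weights -/
theorem LDC_prod {n p r : ℕ} (Q : Fin n → Fin p) (A : Finset (Fin r)) (X Y : Finset (Fin n))
    (c : Fin r) {l : ℝ} (hl : 0 ≤ l) (φ : CG (Fin n) r) {D M : ℝ} (hD : (defect φ Q A : ℝ) ≤ D)
    (hM : (((X ×ˢ Y).filter fun z => φ s(z.1, z.2) = some c).card : ℝ) ≤ M) :
    Real.exp (-(l * D + M)) ≤ ∏ e, LDC_y Q A X Y c (Real.exp (-l)) e (φ e) := by
  unfold LDC_y
  rw [Finset.prod_mul_distrib]
  have key : ∀ (P : Sym2 (Fin n) → Prop) [DecidablePred P] (x : ℝ),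
      ∏ e, (if P e then x else 1) = x ^ ((univ : Finset (Sym2 (Fin n))).filter P).card := by
    intro P _ x
    rw [Finset.prod_ite, Finset.prod_const, Finset.prod_const_one, mul_one]
  rw [key, key, neg_add, Real.exp_add]
  have h1 : Real.exp (-(l * D)) ≤ Real.exp (-l) ^ ((univ : Finset (Sym2 (Fin n))).filter fun e =>
      LDC_in Q e ∧ ∃ c : Fin r, c ∉ A ∧ φ e = some c).card := by
    rw [← Real.exp_nat_mul]
    apply Real.exp_le_exp.2
    have h2 : (((univ : Finset (Sym2 (Fin n))).filter fun e =>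
      LDC_in Q e ∧ ∃ c : Fin r, c ∉ A ∧ φ e = some c).card : ℝ) ≤ D :=
      le_trans (by exact_mod_cast LDC_bad_card Q A φ) hD
    nlinarith [mul_le_mul_of_nonneg_left h2 hl]
  have h3 : Real.exp (-M) ≤ (1 / 2 : ℝ) ^ ((univ : Finset (Sym2 (Fin n))).filter fun e =>
      e ∈ LDC_XY X Y ∧ φ e = some c).card := by
    have h4 : (((univ : Finset (Sym2 (Fin n))).filter fun e =>
      e ∈ LDC_XY X Y ∧ φ e = some c).card : ℝ) ≤ M :=
      le_trans (by exact_mod_cast LDC_col_card X Y c φ) hM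
    have h5 : Real.exp (-1) ≤ 1 / 2 := by
      rw [Real.exp_neg, ← one_div]
      apply one_div_le_one_div_of_le two_pos
      have := Real.add_one_le_exp (1 : ℝ)
      linarith
    refine le_trans ?_ (pow_le_pow_left₀ (Real.exp_pos _).le h5 _)
    rw [← Real.exp_nat_mul]
    apply Real.exp_le_exp.2
    linarith
  exact mul_le_mul h1 h3 (Real.exp_pos _).le (pow_nonneg (Real.exp_pos _).le _)

open Classical in
/-- size of the pure list of the pair -/
noncomputable def LDC_M {n p r : ℕ} (Q : Fin n → Fin p) (A : Finset (Fin r)) (e : Sym2 (Fin n)) : ℝ :=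
  if LDC_in Q e then ((max 1 A.card : ℕ) : ℝ) else r

open Classical in
/-- the set of allowed colours of the pair -/
noncomputable def LDC_B {n p r : ℕ} (Q : Fin n → Fin p) (A : Finset (Fin r)) (e : Sym2 (Fin n)) :
    Finset (Fin r) := if LDC_in Q e then A else univ

open Classical in
theorem LDC_sum_some {n p r : ℕ} (Q : Fin n → Fin p) (A : Finset (Fin r)) (X Y : Finset (Fin n))
    (c : Fin r) {x : ℝ} (hx : 0 ≤ x) (e : Sym2 (Fin n)) (hc : e ∈ LDC_XY X Y → c ∈ LDC_B Q A e) :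
    ∑ a : Fin r, LDC_y Q A X Y c x e (some a) ≤
      (LDC_B Q A e).card + r * x - (if e ∈ LDC_XY X Y then 1 / 2 else 0) := by
  have h1 : ∀ a : Fin r, LDC_y Q A X Y c x e (some a) ≤
      (if a ∈ LDC_B Q A e then 1 else 0) + x - (if e ∈ LDC_XY X Y ∧ a = c then 1 / 2 else 0) := by
    intro a
    unfold LDC_y
    by_cases h2 : e ∈ LDC_XY X Y ∧ a = c
    · have hca : a ∈ LDC_B Q A e := h2.2 ▸ hc h2.1
      rw [if_pos hca, if_pos h2]
      have hn : ¬ (LDC_in Q e ∧ ∃ c : Fin r, c ∉ A ∧ some a = some c) := by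
        rintro ⟨hin, c', hc', h⟩
        unfold LDC_B at hca
        rw [if_pos hin] at hca
        rw [Option.some.injEq] at h
        exact hc' (h ▸ hca)
      rw [if_neg hn, if_pos (by exact ⟨h2.1, by rw [h2.2]⟩)]
      linarith
    · rw [if_neg h2, if_neg (c := e ∈ LDC_XY X Y ∧ some a = some c)
        (by rw [Option.some.injEq]; exact h2), mul_one]
      by_cases h3 : a ∈ LDC_B Q A e
      · rw [if_pos h3]
        have hn : ¬ (LDC_in Q e ∧ ∃ c : Fin r, c ∉ A ∧ some a = some c) := by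
          rintro ⟨hin, c', hc', h⟩
          unfold LDC_B at h3
          rw [if_pos hin] at h3
          rw [Option.some.injEq] at h
          exact hc' (h ▸ h3)
        rw [if_neg hn]
        linarith
      · rw [if_neg h3]
        have hn : LDC_in Q e ∧ ∃ c : Fin r, c ∉ A ∧ some a = some c := by
          unfold LDC_B at h3
          split_ifs at h3 with h4
          · exact ⟨h4, a, h3, rfl⟩
          · exact absurd (Finset.mem_univ a) h3
        rw [if_pos hn]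
        linarith
  refine (Finset.sum_le_sum fun a _ => h1 a).trans ?_
  rw [Finset.sum_sub_distrib, Finset.sum_add_distrib, Finset.sum_const, Finset.card_univ,
    Fintype.card_fin, nsmul_eq_mul]
  have h5 : (∑ a : Fin r, if a ∈ LDC_B Q A e then (1 : ℝ) else 0) = (LDC_B Q A e).card := by
    rw [Finset.sum_boole, Finset.filter_mem_eq_inter, Finset.univ_inter]
  have h6 : (∑ a : Fin r, if e ∈ LDC_XY X Y ∧ a = c then (1 / 2 : ℝ) else 0) =
      if e ∈ LDC_XY X Y then 1 / 2 else 0 := by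
    by_cases h : e ∈ LDC_XY X Y
    · simp [h]
    · simp [h]
  rw [h5, h6]

open Classical in
/-- one factor -/
theorem LDC_factor {n p r : ℕ} (hr : 2 ≤ r) (Q : Fin n → Fin p) (A : Finset (Fin r))
    (X Y : Finset (Fin n)) (c : Fin r) {x : ℝ} (hx : 0 ≤ x) (e : Sym2 (Fin n))
    (hc : e ∈ LDC_XY X Y → c ∈ LDC_B Q A e) (h2 : e ∈ LDC_XY X Y → 2 ≤ (LDC_B Q A e).card)
    (Ω : Finset (Option (Fin r))) (hΩ : Ω = {none} ∨ Ω = univ.image some) :
    ∑ o ∈ Ω, LDC_y Q A X Y c x e o ≤ LDC_M Q A e * Real.exp (2 * r * x) *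
      (if e ∈ LDC_XY X Y then Real.exp (-(1 / (2 * r))) else 1) := by
  have hr0 : (0 : ℝ) < r := by exact_mod_cast (by omega : 0 < r)
  have hr2 : (2 : ℝ) ≤ r := by exact_mod_cast hr
  have hrx : 0 ≤ (r : ℝ) * x := by positivity
  have hM1 : (1 : ℝ) ≤ LDC_M Q A e := by
    unfold LDC_M
    split_ifs
    · exact_mod_cast le_max_left _ _
    · linarith
  have hMB : ((LDC_B Q A e).card : ℝ) ≤ LDC_M Q A e := by
    unfold LDC_M LDC_B
    split_ifs
    · exact_mod_cast le_max_right _ _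
    · simp
  have hBr : ((LDC_B Q A e).card : ℝ) ≤ r := by
    have := Finset.card_le_univ (LDC_B Q A e)
    rw [Fintype.card_fin] at this
    exact_mod_cast this
  have he1 : 1 + 2 * r * x ≤ Real.exp (2 * r * x) := by
    have := Real.add_one_le_exp (2 * r * x)
    linarith
  have he2 : 1 - 1 / (2 * (r : ℝ)) ≤ Real.exp (-(1 / (2 * r))) := by
    have := Real.add_one_le_exp (-(1 / (2 * (r : ℝ))))
    linarith
  have hhalf : 1 / (2 * (r : ℝ)) ≤ 1 / 4 := by
    apply one_div_le_one_div_of_le <;> linarith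
  have hhalf0 : 0 < 1 / (2 * (r : ℝ)) := by positivity
  have hmain : ∀ S : ℝ, S ≤ LDC_M Q A e * (1 + 2 * r * x) *
      (if e ∈ LDC_XY X Y then 1 - 1 / (2 * (r : ℝ)) else 1) →
      S ≤ LDC_M Q A e * Real.exp (2 * r * x) *
      (if e ∈ LDC_XY X Y then Real.exp (-(1 / (2 * r))) else 1) := by
    intro S hS
    refine hS.trans ?_
    refine mul_le_mul (mul_le_mul_of_nonneg_left he1 (by linarith)) ?_ ?_ ?_
    · split_ifs
      · exact he2
      · exact le_rfl
    · split_ifs <;> linarith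
    · exact mul_nonneg (by linarith) (Real.exp_pos _).le
  apply hmain
  rcases hΩ with rfl | rfl
  · rw [Finset.sum_singleton, LDC_y_none]
    split_ifs with h
    · have h3 : (2 : ℝ) ≤ (LDC_B Q A e).card := by exact_mod_cast h2 h
      have h4 : (2 : ℝ) ≤ LDC_M Q A e := h3.trans hMB
      have h5 : (2 : ℝ) * 1 ≤ LDC_M Q A e * (1 + 2 * r * x) :=
        mul_le_mul h4 (by nlinarith) (by norm_num) (by linarith)
      nlinarith
    · have h5 : (1 : ℝ) * 1 ≤ LDC_M Q A e * (1 + 2 * r * x) :=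
        mul_le_mul hM1 (by nlinarith) (by norm_num) (by linarith)
      linarith
  · rw [Finset.sum_image (fun _ _ _ _ h => Option.some_injective _ h)]
    refine (LDC_sum_some Q A X Y c hx e hc).trans ?_
    split_ifs with h
    · have h3 : (2 : ℝ) ≤ (LDC_B Q A e).card := by exact_mod_cast h2 h
      set m : ℝ := ((LDC_B Q A e).card : ℝ)
      have h4 : m / (2 * r) ≤ 1 / 2 := by
        rw [div_le_iff₀ (by positivity)]
        linarith
      have h5 : m + r * x - 1 / 2 ≤ m * (1 + 2 * r * x) * (1 - 1 / (2 * (r : ℝ))) := by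
        have h6 : m * (1 + 2 * r * x) * (1 - 1 / (2 * (r : ℝ))) =
          m - m / (2 * r) + 2 * (m * (1 - 1 / (2 * (r : ℝ)))) * (r * x) := by ring
        rw [h6]
        have h7 : 1 ≤ m * (1 - 1 / (2 * (r : ℝ))) := by nlinarith
        nlinarith
      refine h5.trans ?_
      have h8 : 0 ≤ (1 + 2 * r * x) * (1 - 1 / (2 * (r : ℝ))) :=
        mul_nonneg (by nlinarith) (by linarith)
      calc m * (1 + 2 * r * x) * (1 - 1 / (2 * (r : ℝ)))
          = m * ((1 + 2 * r * x) * (1 - 1 / (2 * (r : ℝ)))) := by ring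
        _ ≤ LDC_M Q A e * ((1 + 2 * r * x) * (1 - 1 / (2 * (r : ℝ)))) :=
            mul_le_mul_of_nonneg_right hMB h8
        _ = _ := by ring
    · have h5 : LDC_M Q A e * 1 * (r * x) ≥ 1 * (r * x) := by
        rw [mul_one]
        exact mul_le_mul_of_nonneg_right hM1 hrx
      nlinarith

open Classical in
/-- the product of the sizes of the pure lists -/
theorem LDC_prodM {n p r : ℕ} (hr : 2 ≤ r) (hp : 1 ≤ p) {g : ℝ} (hg : 0 < g) (Q : Fin n → Fin p)
    (A : Finset (Fin r)) (hβ : g * beta r (max 1 A.card) = p) :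
    ∏ e : Sym2 (Fin n), LDC_M Q A e ≤
      Real.exp (Real.log r * ((1 - 1 / g) * (n : ℝ) ^ 2 / 2 + n / 2)) := by
  have hr0 : (0 : ℝ) < r := by exact_mod_cast (by omega : 0 < r)
  have hlr : 0 < Real.log r := Real.log_pos (by exact_mod_cast (by omega : 1 < r))
  have hm0 : (0 : ℝ) < ((max 1 A.card : ℕ) : ℝ) := by
    exact_mod_cast lt_of_lt_of_le one_pos (le_max_left _ _)
  have h1 : ∏ e : Sym2 (Fin n), LDC_M Q A e =
      Real.exp (∑ e : Sym2 (Fin n), (Real.log r - if LDC_in Q e then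
        Real.log r * beta r (max 1 A.card) else 0)) := by
    rw [Real.exp_sum]
    refine Finset.prod_congr rfl fun e _ => ?_
    unfold LDC_M
    split_ifs
    · unfold beta
      rw [show Real.log r - Real.log r * (1 - Real.log ((max 1 A.card : ℕ) : ℝ) / Real.log r) =
        Real.log ((max 1 A.card : ℕ) : ℝ) by field_simp; ring, Real.exp_log hm0]
    · rw [sub_zero, Real.exp_log hr0]
  rw [h1]
  apply Real.exp_le_exp.2
  rw [Finset.sum_sub_distrib, Finset.sum_const, Finset.card_univ, Sym2.card, Fintype.card_fin,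
    nsmul_eq_mul, ← Finset.sum_filter, Finset.sum_const, nsmul_eq_mul]
  have h2 : (((n + 1).choose 2 : ℕ) : ℝ) = ((n : ℝ) ^ 2 + n) / 2 := by
    rw [Nat.cast_choose_two]
    push_cast
    ring
  rw [h2]
  have h3 := LDC_inside Q
  set N : ℝ := (((univ : Finset (Sym2 (Fin n))).filter fun e => LDC_in Q e).card : ℝ)
  have hβ' : beta r (max 1 A.card) = p / g := by
    rw [← hβ]; field_simp
  rw [hβ']
  have h4 : (n : ℝ) ^ 2 / (2 * g) ≤ N * (p / g) := by
    rw [div_le_iff₀ (by positivity)]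
    calc (n : ℝ) ^ 2 ≤ 2 * p * N := h3
      _ = N * (p / g) * (2 * g) := by field_simp
  have h5 : Real.log r * ((n : ℝ) ^ 2 / (2 * g)) ≤ Real.log r * (N * (p / g)) :=
    mul_le_mul_of_nonneg_left h4 hlr.le
  have h6 : Real.log r * ((1 - 1 / g) * (n : ℝ) ^ 2 / 2 + n / 2) =
      ((n : ℝ) ^ 2 + n) / 2 * Real.log r - Real.log r * ((n : ℝ) ^ 2 / (2 * g)) := by
    field_simp
    ring
  rw [h6]
  nlinarith [h5]

open Classical in
/-- the number of colourings for given structure and given sparse pair -/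
theorem LDC_fixed {n p r k s : ℕ} (hr : 2 ≤ r) (hp : 1 ≤ p) {g : ℝ} (hg : 0 < g)
    (G : SimpleGraph (Fin n)) (Q : Fin n → Fin p) (A : Finset (Fin r))
    (hβ : g * beta r (max 1 A.card) = p) (X Y : Finset (Fin n)) (hXY : Disjoint X Y) (i j : Fin p)
    (hX : ∀ x ∈ X, Q x = i) (hY : ∀ y ∈ Y, Q y = j) (c : Fin r) (hc : c ∈ pureL A i j)
    (hA : i = j → 2 ≤ A.card) {l : ℝ} (hl : 0 ≤ l) {D M : ℝ} (E : Finset (CG (Fin n) r))
    (hE : E ⊆ cols k s r G) (hdef : ∀ φ ∈ E, (defect φ Q A : ℝ) ≤ D)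
    (hlow : ∀ φ ∈ E, (((X ×ˢ Y).filter fun z => φ s(z.1, z.2) = some c).card : ℝ) ≤ M) :
    (E.card : ℝ) ≤ Real.exp (l * D + M +
      (Real.log r * ((1 - 1 / g) * (n : ℝ) ^ 2 / 2 + n / 2) + 2 * r * Real.exp (-l) * (n : ℝ) ^ 2 -
        X.card * Y.card / (2 * r))) := by
  have hr0 : (0 : ℝ) < r := by exact_mod_cast (by omega : 0 < r)
  -- colours in XY
  have hcB : ∀ e ∈ LDC_XY X Y, LDC_B Q A e = pureL A i j := by
    intro e he
    unfold LDC_XY at he
    rw [Finset.mem_image] at he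
    obtain ⟨z, hz, rfl⟩ := he
    rw [Finset.mem_product] at hz
    unfold LDC_B pureL
    have h1 : LDC_in Q s(z.1, z.2) ↔ i = j := by
      rw [LDC_in_mk, hX _ hz.1, hY _ hz.2]
    by_cases h2 : i = j
    · rw [if_pos (h1.2 h2), if_pos h2]
    · rw [if_neg (fun h => h2 (h1.1 h)), if_neg h2]
  have hB2 : 2 ≤ (pureL A i j).card := by
    unfold pureL
    split_ifs with h
    · exact hA h
    · rw [Finset.card_univ, Fintype.card_fin]; exact hr
  let Ω : Sym2 (Fin n) → Finset (Option (Fin r)) := fun e =>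
    if e ∈ G.edgeSet then univ.image some else {none}
  have hΩ : ∀ e, Ω e = {none} ∨ Ω e = univ.image some := by
    intro e
    by_cases h : e ∈ G.edgeSet
    · right; exact if_pos h
    · left; exact if_neg h
  have hEΩ : ∀ φ ∈ E, ∀ e, φ e ∈ Ω e := by
    intro φ hφ e
    have h1 := (RES_mem_cols.1 (hE hφ)).1 e
    by_cases h : e ∈ G.edgeSet
    · have h2 : Ω e = univ.image some := if_pos h
      rw [h2]
      obtain ⟨a, ha⟩ := Option.ne_none_iff_exists'.1 (h1.2 h)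
      rw [ha]
      exact Finset.mem_image_of_mem _ (Finset.mem_univ _)
    · have h2 : Ω e = {none} := if_neg h
      rw [h2, Finset.mem_singleton]
      by_contra h3
      exact h (h1.1 h3)
  have hmain := card_le_prod_sum Ω (LDC_y Q A X Y c (Real.exp (-l)))
    (fun e o => LDC_y_nonneg Q A X Y c (Real.exp_pos _).le e o) E hEΩ (Real.exp_pos (-(l * D + M)))
    (fun φ hφ => LDC_prod Q A X Y c hl φ (hdef φ hφ) (hlow φ hφ))
  refine hmain.trans ?_
  rw [← Real.exp_neg, neg_neg, Real.exp_add (l * D + M)]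
  refine mul_le_mul_of_nonneg_left ?_ (Real.exp_pos _).le
  have h1 : ∏ e, ∑ o ∈ Ω e, LDC_y Q A X Y c (Real.exp (-l)) e o ≤
      ∏ e, (LDC_M Q A e * Real.exp (2 * r * Real.exp (-l)) *
        (if e ∈ LDC_XY X Y then Real.exp (-(1 / (2 * r))) else 1)) := by
    refine Finset.prod_le_prod (fun e _ => Finset.sum_nonneg fun o _ =>
      LDC_y_nonneg Q A X Y c (Real.exp_pos _).le e o) (fun e _ => ?_)
    exact LDC_factor hr Q A X Y c (Real.exp_pos _).le e (fun h => by rw [hcB e h]; exact hc)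
      (fun h => by rw [hcB e h]; exact hB2) (Ω e) (hΩ e)
  refine h1.trans ?_
  rw [Finset.prod_mul_distrib, Finset.prod_mul_distrib, Finset.prod_const, Finset.card_univ,
    Finset.prod_ite, Finset.prod_const, Finset.prod_const_one, mul_one,
    Finset.filter_mem_eq_inter, Finset.univ_inter, LDC_card_XY hXY, Sym2.card, Fintype.card_fin,
    ← Real.exp_nat_mul, ← Real.exp_nat_mul]
  have h2 : (((n + 1).choose 2 : ℕ) : ℝ) ≤ (n : ℝ) ^ 2 := by
    rw [Nat.cast_choose_two]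
    push_cast
    rcases Nat.eq_zero_or_pos n with h | h
    · subst h; norm_num
    · have : (1 : ℝ) ≤ n := by exact_mod_cast h
      nlinarith
  have h3 : Real.exp ((((n + 1).choose 2 : ℕ) : ℝ) * (2 * r * Real.exp (-l))) ≤
      Real.exp (2 * r * Real.exp (-l) * (n : ℝ) ^ 2) := by
    apply Real.exp_le_exp.2
    rw [mul_comm]
    exact mul_le_mul_of_nonneg_left h2 (by positivity)
  calc (∏ e : Sym2 (Fin n), LDC_M Q A e) *
        Real.exp ((((n + 1).choose 2 : ℕ) : ℝ) * (2 * r * Real.exp (-l))) *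
        Real.exp (((X.card * Y.card : ℕ) : ℝ) * -(1 / (2 * r)))
      ≤ Real.exp (Real.log r * ((1 - 1 / g) * (n : ℝ) ^ 2 / 2 + n / 2)) *
        Real.exp (2 * r * Real.exp (-l) * (n : ℝ) ^ 2) *
        Real.exp (((X.card * Y.card : ℕ) : ℝ) * -(1 / (2 * r))) := by
        refine mul_le_mul_of_nonneg_right ?_ (Real.exp_pos _).le
        exact mul_le_mul (LDC_prodM hr hp hg Q A hβ) h3 (Real.exp_pos _).le (Real.exp_pos _).le
    _ = _ := by
        rw [← Real.exp_add, ← Real.exp_add]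
        congr 1
        push_cast
        ring

theorem LDC_shape {k s r d : ℕ} {g : ℝ} (H : Par k s r d g) {p a : ℕ} (hS : Shape k d r g p a) :
    1 ≤ p ∧ p ≤ k ∧ g * beta r (max 1 a) = p ∧ (a = 0 ∨ 2 ≤ a) := by
  have hk := H.hk
  rcases hS with ⟨ha, hp, hpk, -, hb, -⟩ | ⟨ha, hp, hg⟩
  · refine ⟨hp, by omega, ?_, Or.inr ha⟩
    rw [max_eq_right (by omega)]
    exact hb
  · refine ⟨by omega, by omega, ?_, Or.inl ha⟩
    subst ha
    rw [max_eq_left (by omega), hp, hg]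
    unfold beta
    rw [Nat.cast_one, Real.log_one, zero_div, sub_zero, mul_one, Nat.cast_sub (by omega),
      Nat.cast_one]

open Classical in
/-- the union bound for a given number of classes -/
theorem LDC_p {n k s r d : ℕ} {g : ℝ} (H : Par k s r d g) (p : ℕ) {ε τ l : ℝ} (hε : 0 < ε)
    (hl : 0 ≤ l) (G : SimpleGraph (Fin n)) (E : Finset (CG (Fin n) r)) (hE : E ⊆ cols k s r G)
    (h : ∀ φ ∈ E, ∃ a : ℕ, Shape k d r g p a ∧ ∃ (Q : Fin n → Fin p) (A : Finset (Fin r)),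
        A.card = a ∧ (defect φ Q A : ℝ) ≤ τ * (n : ℝ) ^ 2 ∧ ¬ LDW univ ε (1 / (4 * r)) φ Q A) :
    (E.card : ℝ) ≤ (((k ^ n * (2 ^ r * (2 ^ n * (2 ^ n * r))) : ℕ)) : ℝ) *
      Real.exp (Real.log r * ((1 - 1 / g) * (n : ℝ) ^ 2 / 2 + n / 2) + l * τ * (n : ℝ) ^ 2 +
        2 * r * Real.exp (-l) * (n : ℝ) ^ 2 - ε ^ 2 * (n : ℝ) ^ 2 / (4 * r)) := by
  rcases E.eq_empty_or_nonempty with hemp | ⟨φ₀, hφ₀⟩
  · rw [hemp, Finset.card_empty, Nat.cast_zero]
    positivity
  have hr : 2 ≤ r := by have := H.hs; have := H.hsr; omega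
  have hr0 : (0 : ℝ) < r := by exact_mod_cast (by omega : 0 < r)
  have hg : 0 < g := by
    have h1 := H.hg
    have h2 : (3 : ℝ) ≤ k := by exact_mod_cast H.hk
    linarith
  obtain ⟨a₀, hS₀, -⟩ := h φ₀ hφ₀
  obtain ⟨hp, hpk, -, -⟩ := LDC_shape H hS₀
  set B : ℝ := Real.exp (Real.log r * ((1 - 1 / g) * (n : ℝ) ^ 2 / 2 + n / 2) +
    l * τ * (n : ℝ) ^ 2 +
        2 * r * Real.exp (-l) * (n : ℝ) ^ 2 - ε ^ 2 * (n : ℝ) ^ 2 / (4 * r)) with hB
  let F : ((Fin n → Fin p) × Finset (Fin r) × Finset (Fin n) × Finset (Fin n) × Fin r) →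
      Finset (CG (Fin n) r) := fun q => E.filter fun φ =>
    Shape k d r g p q.2.1.card ∧ (defect φ q.1 q.2.1 : ℝ) ≤ τ * (n : ℝ) ^ 2 ∧
    Disjoint q.2.2.1 q.2.2.2.1 ∧ ε * n ≤ q.2.2.1.card ∧ ε * n ≤ q.2.2.2.1.card ∧
    ∃ i j : Fin p, (∀ x ∈ q.2.2.1, q.1 x = i) ∧ (∀ y ∈ q.2.2.2.1, q.1 y = j) ∧
      q.2.2.2.2 ∈ pureL q.2.1 i j ∧
      (((q.2.2.1 ×ˢ q.2.2.2.1).filter fun z => φ s(z.1, z.2) = some q.2.2.2.2).card : ℝ) ≤
        1 / (4 * r) * q.2.2.1.card * q.2.2.2.1.card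
  have hcov : E ⊆ univ.biUnion F := by
    intro φ hφ
    obtain ⟨a, hS, Q, A, hA, hdef, hLD⟩ := h φ hφ
    unfold LDW at hLD
    push Not at hLD
    obtain ⟨X, Y, -, -, hXY, hX, hY, i, j, hi, hj, c, hc, hlt⟩ := hLD
    rw [Finset.mem_biUnion]
    refine ⟨(Q, A, X, Y, c), Finset.mem_univ _, Finset.mem_filter.2 ⟨hφ, ?_⟩⟩
    exact ⟨hA ▸ hS, hdef, hXY, hX, hY, i, j, hi, hj, hc, hlt.le⟩
  have hF : ∀ q, ((F q).card : ℝ) ≤ B := by
    rintro ⟨Q, A, X, Y, c⟩
    rcases (F (Q, A, X, Y, c)).eq_empty_or_nonempty with hemp | ⟨φ, hφ⟩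
    · rw [hemp, Finset.card_empty, Nat.cast_zero]
      exact (Real.exp_pos _).le
    obtain ⟨hS, -, hXY, hX, hY, i, j, hi, hj, hc, -⟩ := (Finset.mem_filter.1 hφ).2
    dsimp only at hS hXY hX hY hi hj hc
    obtain ⟨-, -, hβ, ha⟩ := LDC_shape H hS
    have hA2 : i = j → 2 ≤ A.card := by
      intro hij
      unfold pureL at hc
      rw [if_pos hij] at hc
      rcases ha with ha | ha
      · rw [Finset.card_eq_zero] at ha
        rw [ha] at hc
        exact absurd hc (Finset.notMem_empty _)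
      · exact ha
    have hmain := LDC_fixed hr hp hg G Q A hβ X Y hXY i j hi hj c hc hA2 hl
      (D := τ * (n : ℝ) ^ 2) (M := 1 / (4 * r) * X.card * Y.card) (F (Q, A, X, Y, c))
      ((Finset.filter_subset _ _).trans hE)
      (fun φ hφ => (Finset.mem_filter.1 hφ).2.2.1)
      (fun φ hφ => by
        obtain ⟨-, -, -, -, -, i', j', -, -, -, hlt⟩ := (Finset.mem_filter.1 hφ).2
        exact hlt)
    refine hmain.trans ?_
    rw [hB]
    apply Real.exp_le_exp.2
    have hn0 : (0 : ℝ) ≤ ε * n := by positivity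
    have h1 : ε ^ 2 * (n : ℝ) ^ 2 ≤ X.card * Y.card := by
      calc ε ^ 2 * (n : ℝ) ^ 2 = (ε * n) * (ε * n) := by ring
        _ ≤ X.card * Y.card := mul_le_mul hX hY hn0 (hn0.trans hX)
    have h2 : ε ^ 2 * (n : ℝ) ^ 2 / (4 * r) ≤ X.card * Y.card / (4 * r) :=
      div_le_div_of_nonneg_right h1 (by positivity)
    have h3 : 1 / (4 * (r : ℝ)) * X.card * Y.card - X.card * Y.card / (2 * r) =
      - ((X.card * Y.card : ℝ) / (4 * r)) := by
      field_simp
      ring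
    linarith
  calc (E.card : ℝ) ≤ ((univ.biUnion F).card : ℝ) := by exact_mod_cast Finset.card_le_card hcov
    _ ≤ ∑ q, ((F q).card : ℝ) := by exact_mod_cast Finset.card_biUnion_le
    _ ≤ ∑ _q : (Fin n → Fin p) × Finset (Fin r) × Finset (Fin n) × Finset (Fin n) × Fin r, B :=
        Finset.sum_le_sum fun q _ => hF q
    _ = ((p ^ n * (2 ^ r * (2 ^ n * (2 ^ n * r))) : ℕ) : ℝ) * B := by
        rw [Finset.sum_const, Finset.card_univ, nsmul_eq_mul]
        simp only [Fintype.card_prod, Fintype.card_fun, Fintype.card_finset, Fintype.card_fin]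
    _ ≤ _ := by
        refine mul_le_mul_of_nonneg_right ?_ (Real.exp_pos _).le
        exact_mod_cast Nat.mul_le_mul_right _ (Nat.pow_le_pow_left hpk n)

theorem LDC_ev (C₀ C₁ : ℝ) {κ : ℝ} (hκ : 0 < κ) :
    ∀ᶠ n : ℕ in atTop, C₀ + C₁ * n ≤ κ * (n : ℝ) ^ 2 := by
  filter_upwards [eventually_ge_atTop 1, eventually_ge_atTop ⌈(|C₀| + |C₁|) / κ⌉₊] with n h1 h2
  have h3 : (|C₀| + |C₁|) / κ ≤ n := (Nat.le_ceil _).trans (by exact_mod_cast h2)
  rw [div_le_iff₀ hκ] at h3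
  have h4 : (1 : ℝ) ≤ n := by exact_mod_cast h1
  have h5 := le_abs_self C₀
  have h6 := le_abs_self C₁
  have h7 := abs_nonneg C₀
  have h8 := abs_nonneg C₁
  nlinarith [mul_le_mul_of_nonneg_right h3 (by linarith : (0 : ℝ) ≤ n),
    mul_le_mul_of_nonneg_right h6 (by linarith : (0 : ℝ) ≤ n), mul_le_mul_of_nonneg_left h4 h7]

open Classical in
/-- `ld_count`, with the lower bound as a hypothesis -/
theorem LDC_main {k s r d : ℕ} {g : ℝ} (H : Par k s r d g)
    (hlow : ∃ B : ℝ, ∀ n : ℕ, (1 - 1 / g) * (n : ℝ) ^ 2 / 2 - B * (n + 1) ≤ lc k s r n) :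
    ∃ γ : ℝ, 0 < γ ∧ γ ≤ 1 ∧ ∀ ε : ℝ, 0 < ε → ∃ τ : ℝ, 0 < τ ∧ ∀ᶠ n : ℕ in atTop,
      ∀ G : SimpleGraph (Fin n), ∀ E ⊆ cols k s r G,
      (∀ φ ∈ E, ∃ p a : ℕ, Shape k d r g p a ∧ ∃ (Q : Fin n → Fin p) (A : Finset (Fin r)),
        A.card = a ∧ (defect φ Q A : ℝ) ≤ τ * (n : ℝ) ^ 2 ∧ ¬ LDW univ ε γ φ Q A) →
      (E.card : ℝ) ≤ cnum k s r n / 16 := by
  have hk := H.hk
  have hr : 2 ≤ r := by have := H.hs; have := H.hsr; omega
  have hr0 : (0 : ℝ) < r := by exact_mod_cast (by omega : 0 < r)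
  have hr2 : (2 : ℝ) ≤ r := by exact_mod_cast hr
  have hk0 : (0 : ℝ) < k := by exact_mod_cast (by omega : 0 < k)
  have hlr : 0 < Real.log r := Real.log_pos (by linarith)
  obtain ⟨B, hB⟩ := hlow
  refine ⟨1 / (4 * r), by positivity, ?_, ?_⟩
  · rw [div_le_one (by positivity)]
    linarith
  intro ε hε
  -- the weight
  obtain ⟨l, hl, hlx⟩ : ∃ l : ℝ, 0 ≤ l ∧ 2 * r * Real.exp (-l) ≤ ε ^ 2 / (16 * r) := by
    refine ⟨max 0 (Real.log (32 * r ^ 2 / ε ^ 2)), le_max_left _ _, ?_⟩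
    have h1 : Real.exp (-max 0 (Real.log (32 * (r : ℝ) ^ 2 / ε ^ 2))) ≤ ε ^ 2 / (32 * r ^ 2) := by
      calc Real.exp (-max 0 (Real.log (32 * (r : ℝ) ^ 2 / ε ^ 2)))
          ≤ Real.exp (-Real.log (32 * (r : ℝ) ^ 2 / ε ^ 2)) :=
            Real.exp_le_exp.2 (neg_le_neg (le_max_right _ _))
        _ = ε ^ 2 / (32 * r ^ 2) := by
            rw [Real.exp_neg, Real.exp_log (by positivity), inv_div]
    calc 2 * r * Real.exp (-max 0 (Real.log (32 * (r : ℝ) ^ 2 / ε ^ 2)))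
        ≤ 2 * r * (ε ^ 2 / (32 * r ^ 2)) := mul_le_mul_of_nonneg_left h1 (by positivity)
      _ = ε ^ 2 / (16 * r) := by field_simp; ring
  refine ⟨ε ^ 2 / (16 * r * (l + 1)), by positivity, ?_⟩
  have hlτ : l * (ε ^ 2 / (16 * r * (l + 1))) ≤ ε ^ 2 / (16 * r) := by
    rw [← mul_div_assoc, div_le_div_iff₀ (by positivity) (by positivity)]
    have : 0 ≤ ε ^ 2 * (16 * r) := by positivity
    nlinarith
  filter_upwards [LDC_ev (Real.log ((k + 1) * 2 ^ r * r * 16) + Real.log r * B)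
    (Real.log k + 2 * Real.log 2 + Real.log r / 2 + Real.log r * B)
    (κ := ε ^ 2 / (8 * r)) (by positivity)] with n hn
  intro G E hE hprop
  -- split by p
  have hcov : E ⊆ (Finset.range (k + 1)).biUnion fun p => E.filter fun φ =>
      ∃ a : ℕ, Shape k d r g p a ∧ ∃ (Q : Fin n → Fin p) (A : Finset (Fin r)),
        A.card = a ∧ (defect φ Q A : ℝ) ≤ ε ^ 2 / (16 * r * (l + 1)) * (n : ℝ) ^ 2 ∧
        ¬ LDW univ ε (1 / (4 * r)) φ Q A := by
    intro φ hφ
    obtain ⟨p, a, hS, hrest⟩ := hprop φ hφ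
    obtain ⟨-, hpk, -, -⟩ := LDC_shape H hS
    rw [Finset.mem_biUnion]
    exact ⟨p, Finset.mem_range.2 (by omega), Finset.mem_filter.2 ⟨hφ, a, hS, hrest⟩⟩
  have h1 : (E.card : ℝ) ≤ ((k + 1 : ℕ) : ℝ) * ((((k ^ n * (2 ^ r * (2 ^ n * (2 ^ n * r))) : ℕ)) : ℝ) *
      Real.exp (Real.log r * ((1 - 1 / g) * (n : ℝ) ^ 2 / 2 + n / 2) +
        l * (ε ^ 2 / (16 * r * (l + 1))) * (n : ℝ) ^ 2 +
        2 * r * Real.exp (-l) * (n : ℝ) ^ 2 - ε ^ 2 * (n : ℝ) ^ 2 / (4 * r))) := by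
    have h2 : (E.card : ℝ) ≤ ∑ p ∈ Finset.range (k + 1), ((E.filter fun φ =>
      ∃ a : ℕ, Shape k d r g p a ∧ ∃ (Q : Fin n → Fin p) (A : Finset (Fin r)),
        A.card = a ∧ (defect φ Q A : ℝ) ≤ ε ^ 2 / (16 * r * (l + 1)) * (n : ℝ) ^ 2 ∧
        ¬ LDW univ ε (1 / (4 * r)) φ Q A).card : ℝ) := by
      exact_mod_cast (Finset.card_le_card hcov).trans Finset.card_biUnion_le
    refine h2.trans ?_
    refine (Finset.sum_le_sum fun p _ => LDC_p H p hε hl G _ ((Finset.filter_subset _ _).trans hE)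
      (fun φ hφ => (Finset.mem_filter.1 hφ).2)).trans ?_
    rw [Finset.sum_const, Finset.card_range, nsmul_eq_mul]
  refine h1.trans ?_
  -- lower bound for cnum
  have hc1 : 1 ≤ cnum k s r n := one_le_cnum (by omega) (by have := H.hs; omega)
  have hc0 : (0 : ℝ) < cnum k s r n := by exact_mod_cast hc1
  have h3 : Real.exp (Real.log r * ((1 - 1 / g) * (n : ℝ) ^ 2 / 2 - B * (n + 1))) ≤
      cnum k s r n := by
    rw [← Real.le_log_iff_exp_le hc0]
    have := hB n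
    unfold lc Real.logb at this
    rw [le_div_iff₀ hlr] at this
    linarith
  have h4 : (0 : ℝ) < (k + 1) * 2 ^ r * r * 16 := by positivity
  have h5 : ((k + 1 : ℕ) : ℝ) * ((((k ^ n * (2 ^ r * (2 ^ n * (2 ^ n * r))) : ℕ)) : ℝ) *
      Real.exp (Real.log r * ((1 - 1 / g) * (n : ℝ) ^ 2 / 2 + n / 2) +
        l * (ε ^ 2 / (16 * r * (l + 1))) * (n : ℝ) ^ 2 +
        2 * r * Real.exp (-l) * (n : ℝ) ^ 2 - ε ^ 2 * (n : ℝ) ^ 2 / (4 * r))) * 16 =
      Real.exp (Real.log ((k + 1) * 2 ^ r * r * 16) + (n : ℝ) * Real.log k + (n : ℝ) * Real.log 2 +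
        (n : ℝ) * Real.log 2 + (Real.log r * ((1 - 1 / g) * (n : ℝ) ^ 2 / 2 + n / 2) +
        l * (ε ^ 2 / (16 * r * (l + 1))) * (n : ℝ) ^ 2 +
        2 * r * Real.exp (-l) * (n : ℝ) ^ 2 - ε ^ 2 * (n : ℝ) ^ 2 / (4 * r))) := by
    rw [Real.exp_add, Real.exp_add, Real.exp_add, Real.exp_add, Real.exp_log h4,
      Real.exp_nat_mul, Real.exp_nat_mul, Real.exp_log hk0, Real.exp_log two_pos]
    push_cast
    ring
  rw [le_div_iff₀ (by norm_num : (0 : ℝ) < 16), h5]
  refine le_trans ?_ h3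
  apply Real.exp_le_exp.2
  have h6 : (0 : ℝ) ≤ (n : ℝ) ^ 2 := by positivity
  have h7 := mul_le_mul_of_nonneg_right hlx h6
  have h8 := mul_le_mul_of_nonneg_right hlτ h6
  have h9 : ε ^ 2 / (16 * r) * (n : ℝ) ^ 2 + ε ^ 2 / (16 * r) * (n : ℝ) ^ 2 -
      ε ^ 2 * (n : ℝ) ^ 2 / (4 * r) = - (ε ^ 2 / (8 * r) * (n : ℝ) ^ 2) := by
    field_simp
    ring
  nlinarith [hn, h7, h8, h9]

theorem ld_count {k s r d : ℕ} {g : ℝ} (H : Par k s r d g)
    (hS : ∃ p a : ℕ, Shape k d r g p a) :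
    ∃ γ : ℝ, 0 < γ ∧ γ ≤ 1 ∧ ∀ ε : ℝ, 0 < ε → ∃ τ : ℝ, 0 < τ ∧ ∀ᶠ n : ℕ in atTop,
      ∀ G : SimpleGraph (Fin n), ∀ E ⊆ cols k s r G,
      (∀ φ ∈ E, ∃ p a : ℕ, Shape k d r g p a ∧ ∃ (Q : Fin n → Fin p) (A : Finset (Fin r)),
        A.card = a ∧ (defect φ Q A : ℝ) ≤ τ * (n : ℝ) ^ 2 ∧ ¬ LDW univ ε γ φ Q A) →
      (E.card : ℝ) ≤ cnum k s r n / 16 := by
  obtain ⟨p, a, hS⟩ := hS
  exact LDC_main H (lower_bound H hS)

end Pool.ER
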