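import Mathlib
import Pool.Agent.ER.Defs
import Pool.Agent.ER.CHE

set_option autoImplicit false

open Finset Filter

namespace Pool.ER

/-! ### STAR: counting pairs of stars -/

/-- weight of a value -/
noncomputable def STAR_wt (x : ℝ) {r : ℕ} (L : Finset (Fin r)) : Option (Fin r) → ℝ
  | none => 1
  | some c => if c ∈ L then 1 else x

/-- allowed values -/
def STAR_Om {n r : ℕ} (W N : Finset (Fin n)) (w : Fin n) : Finset (Option (Fin r)) :=
  if w ∈ W ∧ w ∈ N then (univ : Finset (Fin r)).map Function.Embedding.some else {none}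

/-- size of a list, at least one -/
def STAR_mm {r : ℕ} (L : Finset (Fin r)) : ℕ := max 1 L.card

theorem STAR_wt_nonneg {x : ℝ} (hx : 0 ≤ x) {r : ℕ} (L : Finset (Fin r)) (a : Option (Fin r)) :
    0 ≤ STAR_wt x L a := by
  rcases a with _ | c
  · simp [STAR_wt]
  · simp only [STAR_wt]; split <;> linarith

theorem STAR_one_le_mm {r : ℕ} (L : Finset (Fin r)) : (1 : ℝ) ≤ STAR_mm L := by
  unfold STAR_mm; exact_mod_cast le_max_left _ _

theorem STAR_card_le_mm {r : ℕ} (L : Finset (Fin r)) : (L.card : ℝ) ≤ STAR_mm L := by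
  unfold STAR_mm; exact_mod_cast le_max_right _ _

theorem STAR_mm_le {r : ℕ} (hr : 2 ≤ r) (L : Finset (Fin r)) : (STAR_mm L : ℝ) ≤ r := by
  unfold STAR_mm
  have := Finset.card_le_univ L
  rw [Fintype.card_fin] at this
  have h : max 1 L.card ≤ r := max_le (by omega) this
  exact_mod_cast h

theorem STAR_sum_some {x : ℝ} (hx : 0 ≤ x) {r : ℕ} (L : Finset (Fin r)) :
    ∑ c : Fin r, STAR_wt x L (some c) ≤ L.card + r * x := by
  calc ∑ c : Fin r, STAR_wt x L (some c) ≤ ∑ c : Fin r, ((if c ∈ L then (1 : ℝ) else 0) + x) := by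
        refine Finset.sum_le_sum fun c _ => ?_
        simp only [STAR_wt]
        split <;> linarith
    _ = L.card + r * x := by
        rw [Finset.sum_add_distrib]
        simp

theorem STAR_sum_le {n r : ℕ} {x : ℝ} (hx : 0 ≤ x) (L : Finset (Fin r)) (W N : Finset (Fin n))
    (w : Fin n) : ∑ a ∈ STAR_Om W N w, STAR_wt x L a ≤ STAR_mm L * (1 + r * x) := by
  have h1 := STAR_one_le_mm L
  have h2 := STAR_card_le_mm L
  have h3 : 0 ≤ (r : ℝ) * x := by positivity
  unfold STAR_Om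
  split
  · rw [Finset.sum_map]
    have := STAR_sum_some hx L
    simp only [Function.Embedding.some_apply]
    nlinarith
  · rw [Finset.sum_singleton]
    simp only [STAR_wt]
    nlinarith

theorem STAR_sum_nonneg {n r : ℕ} {x : ℝ} (hx : 0 ≤ x) (L : Finset (Fin r))
    (W N : Finset (Fin n)) (w : Fin n) : 0 ≤ ∑ a ∈ STAR_Om W N w, STAR_wt x L a :=
  Finset.sum_nonneg fun a _ => STAR_wt_nonneg hx L a

/-- the gain factor -/
noncomputable def STAR_q (r : ℕ) : ℝ := 1 - 1 / (4 * (r : ℝ) ^ 2)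

theorem STAR_q_bounds {r : ℕ} (hr : 2 ≤ r) : 3 / 4 ≤ STAR_q r ∧ STAR_q r < 1 := by
  have h : (2 : ℝ) ≤ r := by exact_mod_cast hr
  have h2 : (4 : ℝ) ≤ (r : ℝ) ^ 2 := by nlinarith
  unfold STAR_q
  constructor
  · have : 1 / (4 * (r : ℝ) ^ 2) ≤ 1 / 16 := one_div_le_one_div_of_le (by norm_num) (by linarith)
    linarith
  · have : 0 < 1 / (4 * (r : ℝ) ^ 2) := by positivity
    linarith

theorem STAR_gain_arith {r : ℕ} (hr : 2 ≤ r) {y : ℝ} (hy : y ≤ 2 * (r : ℝ) ^ 2) :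
    y - 1 / 2 ≤ y * STAR_q r := by
  have h : (2 : ℝ) ≤ r := by exact_mod_cast hr
  have h2 : (0 : ℝ) < (r : ℝ) ^ 2 := by positivity
  have : y * STAR_q r = y - y / (4 * (r : ℝ) ^ 2) := by unfold STAR_q; ring
  rw [this]
  have h3 : y / (4 * (r : ℝ) ^ 2) ≤ 1 / 2 := by
    rw [div_le_iff₀ (by positivity)]
    linarith
  linarith

/-- one star, low colour `x0` -/
theorem STAR_low_one {n r : ℕ} (hr : 2 ≤ r) {x : ℝ} (hx : 0 ≤ x) (hx2 : (1 + r * x) ^ 2 ≤ 2)
    (L : Finset (Fin r)) (hL : 2 ≤ L.card) (x0 : Fin r) (hx0 : x0 ∈ L) (W N : Finset (Fin n))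
    (w : Fin n) :
    ∑ a ∈ STAR_Om W N w, STAR_wt x L a * (if a = some x0 then (1 / 2 : ℝ) else 1) ≤
      STAR_mm L * (1 + r * x) * STAR_q r := by
  have hr' : (2 : ℝ) ≤ r := by exact_mod_cast hr
  have hmm : (STAR_mm L : ℝ) = L.card := by
    unfold STAR_mm; rw [max_eq_right (by omega)]
  have hL' : (2 : ℝ) ≤ L.card := by exact_mod_cast hL
  have hLr : (L.card : ℝ) ≤ r := by rw [← hmm]; exact STAR_mm_le hr L
  have h3 : 0 ≤ (r : ℝ) * x := by positivity
  have hq := STAR_q_bounds hr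
  have h12 : 1 + r * x ≤ 2 := by nlinarith
  rw [hmm]
  unfold STAR_Om
  split
  · rw [Finset.sum_map]
    simp only [Function.Embedding.some_apply, Option.some.injEq]
    have h4 : ∑ c : Fin r, STAR_wt x L (some c) * (if c = x0 then (1 / 2 : ℝ) else 1) =
        ∑ c : Fin r, STAR_wt x L (some c) - 1 / 2 := by
      have : ∀ c : Fin r, STAR_wt x L (some c) * (if c = x0 then (1 / 2 : ℝ) else 1) =
          STAR_wt x L (some c) - (if c = x0 then (1 / 2 : ℝ) else 0) := by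
        intro c
        by_cases hc : c = x0
        · subst hc
          simp [STAR_wt, hx0]
          norm_num
        · simp [hc]
      rw [Finset.sum_congr rfl fun c _ => this c, Finset.sum_sub_distrib]
      simp
    rw [h4]
    have h5 := STAR_sum_some hx L
    have h6 : (L.card : ℝ) + r * x ≤ L.card * (1 + r * x) := by nlinarith
    have h7 : (L.card : ℝ) * (1 + r * x) ≤ 2 * (r : ℝ) ^ 2 := by nlinarith
    have h8 := STAR_gain_arith hr h7
    linarith
  · rw [Finset.sum_singleton]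
    simp only [STAR_wt, reduceCtorEq, if_false, mul_one]
    have h5 : (2 : ℝ) ≤ L.card * (1 + r * x) := by nlinarith
    nlinarith

theorem STAR_sum_prod {n r : ℕ} (x : ℝ) (Lu Lv : Finset (Fin r)) (W Nu Nv : Finset (Fin n))
    (w : Fin n) (f h : Option (Fin r) → ℝ) :
    ∑ a ∈ STAR_Om W Nu w ×ˢ STAR_Om W Nv w,
      STAR_wt x Lu a.1 * STAR_wt x Lv a.2 * (f a.1 * h a.2) =
    (∑ a ∈ STAR_Om W Nu w, STAR_wt x Lu a * f a) *
      (∑ b ∈ STAR_Om W Nv w, STAR_wt x Lv b * h b) := by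
  rw [Finset.sum_mul_sum, Finset.sum_product]
  refine Finset.sum_congr rfl fun a _ => Finset.sum_congr rfl fun b _ => ?_
  ring

/-- both stars, low pair `(x0, y0)` -/
theorem STAR_low_two {n r : ℕ} (hr : 2 ≤ r) {x : ℝ} (hx : 0 ≤ x) (hx2 : (1 + r * x) ^ 2 ≤ 2)
    (Lu Lv : Finset (Fin r)) (hLu : 2 ≤ Lu.card) (hLv : 2 ≤ Lv.card) (x0 y0 : Fin r)
    (hx0 : x0 ∈ Lu) (hy0 : y0 ∈ Lv) (W Nu Nv : Finset (Fin n)) (w : Fin n) :
    ∑ a ∈ STAR_Om W Nu w ×ˢ STAR_Om W Nv w, STAR_wt x Lu a.1 * STAR_wt x Lv a.2 *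
        (if a.1 = some x0 ∧ a.2 = some y0 then (1 / 2 : ℝ) else 1) ≤
      STAR_mm Lu * STAR_mm Lv * (1 + r * x) ^ 2 * STAR_q r := by
  have hr' : (2 : ℝ) ≤ r := by exact_mod_cast hr
  have hmu : (STAR_mm Lu : ℝ) = Lu.card := by
    unfold STAR_mm; rw [max_eq_right (by omega)]
  have hmv : (STAR_mm Lv : ℝ) = Lv.card := by
    unfold STAR_mm; rw [max_eq_right (by omega)]
  have hLu' : (2 : ℝ) ≤ Lu.card := by exact_mod_cast hLu
  have hLv' : (2 : ℝ) ≤ Lv.card := by exact_mod_cast hLv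
  have hLur : (Lu.card : ℝ) ≤ r := by rw [← hmu]; exact STAR_mm_le hr Lu
  have hLvr : (Lv.card : ℝ) ≤ r := by rw [← hmv]; exact STAR_mm_le hr Lv
  have h3 : 0 ≤ (r : ℝ) * x := by positivity
  have hq := STAR_q_bounds hr
  have hsu := STAR_sum_le hx Lu W Nu w
  have hsv := STAR_sum_le hx Lv W Nv w
  have hsu0 := STAR_sum_nonneg hx Lu W Nu w
  have hsv0 := STAR_sum_nonneg hx Lv W Nv w
  have hprod : ∑ a ∈ STAR_Om W Nu w ×ˢ STAR_Om W Nv w, STAR_wt x Lu a.1 * STAR_wt x Lv a.2 =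
      (∑ a ∈ STAR_Om W Nu w, STAR_wt x Lu a) * (∑ b ∈ STAR_Om W Nv w, STAR_wt x Lv b) := by
    have := STAR_sum_prod x Lu Lv W Nu Nv w (fun _ => 1) (fun _ => 1)
    simpa using this
  by_cases hu : w ∈ W ∧ w ∈ Nu
  · by_cases hv : w ∈ W ∧ w ∈ Nv
    · -- both
      have h4 : ∑ a ∈ STAR_Om W Nu w ×ˢ STAR_Om W Nv w, STAR_wt x Lu a.1 * STAR_wt x Lv a.2 *
          (if a.1 = some x0 ∧ a.2 = some y0 then (1 / 2 : ℝ) else 1) =
          ∑ a ∈ STAR_Om W Nu w ×ˢ STAR_Om W Nv w, STAR_wt x Lu a.1 * STAR_wt x Lv a.2 - 1 / 2 := by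
        have h5 : ∀ a : Option (Fin r) × Option (Fin r), STAR_wt x Lu a.1 * STAR_wt x Lv a.2 *
            (if a.1 = some x0 ∧ a.2 = some y0 then (1 / 2 : ℝ) else 1) =
            STAR_wt x Lu a.1 * STAR_wt x Lv a.2 -
              (if a = (some x0, some y0) then (1 / 2 : ℝ) else 0) := by
          intro a
          by_cases ha : a = (some x0, some y0)
          · subst ha
            simp [STAR_wt, hx0, hy0]
            norm_num
          · have : ¬ (a.1 = some x0 ∧ a.2 = some y0) := fun h => ha (Prod.ext h.1 h.2)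
            simp [ha, this]
        rw [Finset.sum_congr rfl fun a _ => h5 a, Finset.sum_sub_distrib, Finset.sum_ite_eq',
          if_pos]
        rw [Finset.mem_product]
        unfold STAR_Om
        rw [if_pos hu, if_pos hv]
        simp
      rw [h4, hprod]
      have h6 : (∑ a ∈ STAR_Om W Nu w, STAR_wt x Lu a) * (∑ b ∈ STAR_Om W Nv w, STAR_wt x Lv b) ≤
          STAR_mm Lu * STAR_mm Lv * (1 + r * x) ^ 2 := by
        calc _ ≤ (STAR_mm Lu * (1 + r * x)) * (STAR_mm Lv * (1 + r * x)) :=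
              mul_le_mul hsu hsv hsv0 (by positivity)
          _ = _ := by ring
      have h7 : (STAR_mm Lu : ℝ) * STAR_mm Lv * (1 + r * x) ^ 2 ≤ 2 * (r : ℝ) ^ 2 := by
        rw [hmu, hmv]
        have h8 : (Lu.card : ℝ) * Lv.card ≤ r * r := mul_le_mul hLur hLvr (by positivity)
          (by positivity)
        have h9 : (Lu.card : ℝ) * Lv.card * (1 + r * x) ^ 2 ≤ (r * r) * 2 :=
          mul_le_mul h8 hx2 (by positivity) (by positivity)
        linarith
      have h8 := STAR_gain_arith hr h7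
      linarith
    · -- `v` is not
      have hOv : (STAR_Om W Nv w : Finset (Option (Fin r))) = {none} := by
        unfold STAR_Om; rw [if_neg hv]
      have h4 : ∑ a ∈ STAR_Om W Nu w ×ˢ STAR_Om W Nv w, STAR_wt x Lu a.1 * STAR_wt x Lv a.2 *
          (if a.1 = some x0 ∧ a.2 = some y0 then (1 / 2 : ℝ) else 1) ≤
          ∑ a ∈ STAR_Om W Nu w ×ˢ STAR_Om W Nv w, STAR_wt x Lu a.1 * STAR_wt x Lv a.2 := by
        refine Finset.sum_le_sum fun a _ => ?_
        have := mul_nonneg (STAR_wt_nonneg hx Lu a.1) (STAR_wt_nonneg hx Lv a.2)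
        split <;> linarith
      refine h4.trans ?_
      rw [hprod]
      have h5 : ∑ b ∈ STAR_Om W Nv w, STAR_wt x Lv b = 1 := by
        rw [hOv, Finset.sum_singleton]; rfl
      rw [h5, mul_one, hmu, hmv]
      rw [hmu] at hsu
      have h6 : 0 ≤ (Lu.card : ℝ) * (1 + r * x) := by positivity
      have h7 : (1 : ℝ) ≤ Lv.card * (1 + r * x) * STAR_q r := by
        have : (2 : ℝ) ≤ Lv.card * (1 + r * x) := by nlinarith
        nlinarith
      calc _ ≤ (Lu.card : ℝ) * (1 + r * x) := hsu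
        _ ≤ (Lu.card : ℝ) * (1 + r * x) * (Lv.card * (1 + r * x) * STAR_q r) := by nlinarith
        _ = _ := by ring
  · -- `u` is not
    have hOu : (STAR_Om W Nu w : Finset (Option (Fin r))) = {none} := by
      unfold STAR_Om; rw [if_neg hu]
    have h4 : ∑ a ∈ STAR_Om W Nu w ×ˢ STAR_Om W Nv w, STAR_wt x Lu a.1 * STAR_wt x Lv a.2 *
        (if a.1 = some x0 ∧ a.2 = some y0 then (1 / 2 : ℝ) else 1) ≤
        ∑ a ∈ STAR_Om W Nu w ×ˢ STAR_Om W Nv w, STAR_wt x Lu a.1 * STAR_wt x Lv a.2 := by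
      refine Finset.sum_le_sum fun a _ => ?_
      have := mul_nonneg (STAR_wt_nonneg hx Lu a.1) (STAR_wt_nonneg hx Lv a.2)
      split <;> linarith
    refine h4.trans ?_
    rw [hprod]
    have h5 : ∑ b ∈ STAR_Om W Nu w, STAR_wt x Lu b = 1 := by
      rw [hOu, Finset.sum_singleton]; rfl
    rw [h5, one_mul, hmu, hmv]
    rw [hmv] at hsv
    have h6 : 0 ≤ (Lv.card : ℝ) * (1 + r * x) := by positivity
    have h7 : (1 : ℝ) ≤ Lu.card * (1 + r * x) * STAR_q r := by
      have : (2 : ℝ) ≤ Lu.card * (1 + r * x) := by nlinarith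
      nlinarith
    calc _ ≤ (Lv.card : ℝ) * (1 + r * x) := hsv
      _ ≤ (Lv.card : ℝ) * (1 + r * x) * (Lu.card * (1 + r * x) * STAR_q r) := by nlinarith
      _ = _ := by ring

/-! #### exceptions -/

theorem STAR_exc {n p r : ℕ} {x : ℝ} (hx0 : 0 < x) (hx1 : x ≤ 1) (W : Finset (Fin n))
    (Q : Fin n → Fin p) {ε : ℝ} (L : Fin p → Finset (Fin r)) (f : Fin n → Option (Fin r))
    (hf : ∀ w, f w ≠ none → w ∈ W)
    (h3 : ∀ i c, c ∉ L i → ((W.filter fun w => Q w = i ∧ f w = some c).card : ℝ) ≤ ε * n)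
    (hε : 0 ≤ ε) :
    x ^ ((p : ℝ) * r * (ε * n)) ≤ ∏ w, STAR_wt x (L (Q w)) (f w) := by
  classical
  set X : Finset (Fin n) := univ.filter fun w => ∃ c, f w = some c ∧ c ∉ L (Q w) with hX
  have h1 : ∏ w, STAR_wt x (L (Q w)) (f w) = x ^ X.card := by
    rw [← Finset.prod_const, hX, Finset.prod_filter]
    refine Finset.prod_congr rfl fun w _ => ?_
    rcases hw : f w with _ | c
    · simp [STAR_wt]
    · by_cases hc : c ∈ L (Q w)
      · simp [STAR_wt, hc]
      · simp [STAR_wt, hc]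
  have h2 : (X.card : ℝ) ≤ p * r * (ε * n) := by
    have hsub : X ⊆ (univ : Finset (Fin p × Fin r)).biUnion fun z =>
        if z.2 ∈ L z.1 then ∅ else W.filter fun w => Q w = z.1 ∧ f w = some z.2 := by
      intro w hw
      simp only [hX, Finset.mem_filter, Finset.mem_univ, true_and] at hw
      obtain ⟨c, hc, hcL⟩ := hw
      refine Finset.mem_biUnion.2 ⟨(Q w, c), Finset.mem_univ _, ?_⟩
      rw [if_neg hcL]
      simp only [Finset.mem_filter, true_and]
      exact ⟨hf w (by rw [hc]; simp), hc⟩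
    have h4 := (Finset.card_le_card hsub).trans Finset.card_biUnion_le
    have h5 : (X.card : ℝ) ≤ ∑ z : Fin p × Fin r,
        (((if z.2 ∈ L z.1 then ∅ else W.filter fun w => Q w = z.1 ∧ f w = some z.2) :
          Finset (Fin n)).card : ℝ) := by exact_mod_cast h4
    refine h5.trans ?_
    calc _ ≤ ∑ z : Fin p × Fin r, ε * n := by
          refine Finset.sum_le_sum fun z _ => ?_
          split
          · simp; positivity
          · exact h3 _ _ ‹_›
      _ = p * r * (ε * n) := by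
          rw [Finset.sum_const, Finset.card_univ, Fintype.card_prod, Fintype.card_fin,
            Fintype.card_fin, nsmul_eq_mul]
          push_cast; ring
  rw [h1, ← Real.rpow_natCast]
  exact Real.rpow_le_rpow_of_exponent_ge hx0 hx1 h2

/-! #### sums over the classes -/

theorem STAR_class_sum {n p : ℕ} (_hp : 1 ≤ p) {τ : ℝ} (hτ : 0 ≤ τ) (Q : Fin n → Fin p)
    (hB : Bal τ Q) (b : Fin p → ℝ) (hb0 : ∀ i, 0 ≤ b i) (hb1 : ∀ i, b i ≤ 1) :
    ∑ w, (1 - b (Q w)) ≤ n - (∑ i, b i) / p * n + p * τ * n := by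
  classical
  have h1 : ∑ w, b (Q w) = ∑ i, ((univ.filter fun w => Q w = i).card : ℝ) * b i := by
    rw [← Finset.sum_fiberwise (s := univ) (g := Q) (f := fun w => b (Q w))]
    refine Finset.sum_congr rfl fun i _ => ?_
    rw [Finset.sum_congr rfl (g := fun _ => b i)
      (fun w hw => by rw [(Finset.mem_filter.1 hw).2]), Finset.sum_const, nsmul_eq_mul]
  have h2 : ∑ i, ((n : ℝ) / p - τ * n) * b i ≤ ∑ w, b (Q w) := by
    rw [h1]
    refine Finset.sum_le_sum fun i _ => mul_le_mul_of_nonneg_right ?_ (hb0 i)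
    have := (abs_le.1 (hB i)).1
    linarith
  have h3 : ∑ i, ((n : ℝ) / p - τ * n) * b i = (∑ i, b i) / p * n - τ * n * ∑ i, b i := by
    rw [← Finset.mul_sum]; ring
  have h4 : ∑ i, b i ≤ p := by
    calc ∑ i, b i ≤ ∑ _i : Fin p, (1 : ℝ) := Finset.sum_le_sum fun i _ => hb1 i
      _ = p := by simp
  have h5 : τ * n * ∑ i, b i ≤ τ * n * p := mul_le_mul_of_nonneg_left h4 (by positivity)
  rw [Finset.sum_sub_distrib]
  simp only [Finset.sum_const, Finset.card_univ, Fintype.card_fin, nsmul_eq_mul, mul_one]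
  linarith

theorem STAR_beta {r : ℕ} (hr : 2 ≤ r) (L : Finset (Fin r)) :
    0 ≤ beta r (STAR_mm L) ∧ beta r (STAR_mm L) ≤ 1 ∧
      (STAR_mm L : ℝ) = (r : ℝ) ^ (1 - beta r (STAR_mm L)) := by
  have hr' : (2 : ℝ) ≤ r := by exact_mod_cast hr
  have hlog : 0 < Real.log r := Real.log_pos (by linarith)
  have h1 := STAR_one_le_mm L
  have h2 := STAR_mm_le hr L
  have h3 : 0 ≤ Real.log (STAR_mm L) := Real.log_nonneg h1
  have h4 : Real.log (STAR_mm L) ≤ Real.log r := Real.log_le_log (by linarith) h2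
  unfold beta
  refine ⟨?_, ?_, ?_⟩
  · have : Real.log (STAR_mm L) / Real.log r ≤ 1 := by
      rw [div_le_one hlog]; exact h4
    linarith
  · have : 0 ≤ Real.log (STAR_mm L) / Real.log r := by positivity
    linarith
  · rw [sub_sub_cancel, Real.rpow_def_of_pos (by linarith), mul_div_cancel₀ _ hlog.ne',
      Real.exp_log (by linarith)]

/-! #### the core estimate -/

theorem STAR_core {n p r : ℕ} (hr : 2 ≤ r) (hp : 1 ≤ p) (Q : Fin n → Fin p)
    (W Nu Nv : Finset (Fin n)) (Lu Lv : Fin p → Finset (Fin r)) {ε τ ξ δ K G : ℝ} (hε : 0 ≤ ε)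
    (hτ : 0 ≤ τ) (hξ : 0 ≤ ξ) (hδ : 1 + r * (r : ℝ) ^ (-ξ) ≤ (r : ℝ) ^ δ) (hB : Bal τ Q)
    (T : Finset (Fin n)) (Low : Fin n → Option (Fin r) × Option (Fin r) → Prop)
    (S : Finset ((Fin n → Option (Fin r)) × (Fin n → Option (Fin r))))
    (hS : ∀ z ∈ S, StarPair W Nu Nv Q ε Lu Lv z)
    [∀ w, DecidablePred (Low w)]
    (hG : ∀ z ∈ S, ((univ.filter fun w => Low w (z.1 w, z.2 w)).card : ℝ) ≤ G)
    (hT : ∀ w ∈ T, ∑ a ∈ STAR_Om W Nu w ×ˢ STAR_Om W Nv w,
      STAR_wt ((r : ℝ) ^ (-ξ)) (Lu (Q w)) a.1 * STAR_wt ((r : ℝ) ^ (-ξ)) (Lv (Q w)) a.2 *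
        (if Low w a then (1 / 2 : ℝ) else 1) ≤
      STAR_mm (Lu (Q w)) * STAR_mm (Lv (Q w)) * (1 + r * (r : ℝ) ^ (-ξ)) ^ 2 * (r : ℝ) ^ (-K)) :
    (S.card : ℝ) ≤ (r : ℝ) ^ (2 * (ξ * (p * r * (ε * n))) + G + 2 * δ * n - K * T.card +
      (2 - (∑ i, beta r (STAR_mm (Lu i)) + ∑ i, beta r (STAR_mm (Lv i))) / p) * n +
      2 * (p * τ * n)) := by
  classical
  have hr' : (2 : ℝ) ≤ r := by exact_mod_cast hr
  have hr0 : (0 : ℝ) < r := by linarith
  set x : ℝ := (r : ℝ) ^ (-ξ) with hx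
  have hx0 : 0 < x := by positivity
  have hx1 : x ≤ 1 := by
    rw [hx]
    exact Real.rpow_le_one_of_one_le_of_nonpos (by linarith) (by linarith)
  set Φ : ((Fin n → Option (Fin r)) × (Fin n → Option (Fin r))) →
    (Fin n → Option (Fin r) × Option (Fin r)) := fun z w => (z.1 w, z.2 w) with hΦ
  have hinj : Function.Injective Φ := by
    intro z z' h
    refine Prod.ext (funext fun w => ?_) (funext fun w => ?_)
    · exact congrArg Prod.fst (congrFun h w)
    · exact congrArg Prod.snd (congrFun h w)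
  have hcard : S.card = (S.image Φ).card := (Finset.card_image_of_injective S hinj).symm
  set y : Fin n → Option (Fin r) × Option (Fin r) → ℝ := fun w a =>
    STAR_wt x (Lu (Q w)) a.1 * STAR_wt x (Lv (Q w)) a.2 * (if Low w a then (1 / 2 : ℝ) else 1)
    with hy
  set E := (p : ℝ) * r * (ε * n) with hE
  have hc : 0 < x ^ E * x ^ E * (r : ℝ) ^ (-G) := by positivity
  have hmain := card_le_prod_sum (fun w => STAR_Om W Nu w ×ˢ STAR_Om W Nv w) y
    (by
      intro w a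
      have h1 := mul_nonneg (STAR_wt_nonneg hx0.le (Lu (Q w)) a.1)
        (STAR_wt_nonneg hx0.le (Lv (Q w)) a.2)
      simp only [hy]
      refine mul_nonneg h1 ?_
      split <;> norm_num)
    (S.image Φ)
    (by
      intro f hf w
      obtain ⟨z, hz, rfl⟩ := Finset.mem_image.1 hf
      have hz' := hS z hz
      refine Finset.mem_product.2 ⟨?_, ?_⟩
      · unfold STAR_Om
        simp only [hΦ]
        split
        · have : z.1 w ≠ none := (hz'.h1 w).2 ‹_›
          obtain ⟨c, hc⟩ := Option.ne_none_iff_exists'.1 this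
          rw [hc]; simp
        · have : ¬ z.1 w ≠ none := fun h => ‹¬ _› ((hz'.h1 w).1 h)
          push Not at this
          rw [this]; simp
      · unfold STAR_Om
        simp only [hΦ]
        split
        · have : z.2 w ≠ none := (hz'.h2 w).2 ‹_›
          obtain ⟨c, hc⟩ := Option.ne_none_iff_exists'.1 this
          rw [hc]; simp
        · have : ¬ z.2 w ≠ none := fun h => ‹¬ _› ((hz'.h2 w).1 h)
          push Not at this
          rw [this]; simp)
    hc
    (by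
      intro f hf
      obtain ⟨z, hz, rfl⟩ := Finset.mem_image.1 hf
      have hz' := hS z hz
      have hu := STAR_exc hx0 hx1 W Q Lu z.1 (fun w hw => ((hz'.h1 w).1 hw).1) hz'.h3 hε
      have hv := STAR_exc hx0 hx1 W Q Lv z.2 (fun w hw => ((hz'.h2 w).1 hw).1) hz'.h4 hε
      have hl : (r : ℝ) ^ (-G) ≤ ∏ w, (if Low w (z.1 w, z.2 w) then (1 / 2 : ℝ) else 1) := by
        rw [Finset.prod_ite, Finset.prod_const, Finset.prod_const_one, mul_one]
        have h1 := hG z hz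
        set N := (univ.filter fun w => Low w (z.1 w, z.2 w)).card with hN
        calc (r : ℝ) ^ (-G) ≤ (r : ℝ) ^ (-(N : ℝ)) :=
              Real.rpow_le_rpow_of_exponent_le (by linarith) (by linarith)
          _ = ((r : ℝ) ^ N)⁻¹ := by rw [Real.rpow_neg hr0.le, Real.rpow_natCast]
          _ ≤ ((2 : ℝ) ^ N)⁻¹ := by
              refine inv_anti₀ (by positivity) ?_
              exact pow_le_pow_left₀ (by norm_num) hr' N
          _ = (1 / 2 : ℝ) ^ N := by rw [one_div, inv_pow]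
      simp only [hy, hΦ]
      rw [Finset.prod_mul_distrib, Finset.prod_mul_distrib]
      have hx0E : 0 ≤ x ^ E := by positivity
      exact mul_le_mul (mul_le_mul hu hv hx0E (hx0E.trans hu)) hl (by positivity)
        (mul_nonneg (hx0E.trans hu) (hx0E.trans hv)))
  rw [hcard]
  refine hmain.trans ?_
  -- the factors
  have hfac : ∀ w, ∑ a ∈ STAR_Om W Nu w ×ˢ STAR_Om W Nv w, y w a ≤
      (r : ℝ) ^ ((1 - beta r (STAR_mm (Lu (Q w)))) + (1 - beta r (STAR_mm (Lv (Q w)))) + 2 * δ +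
        (if w ∈ T then -K else 0)) := by
    intro w
    have hbu := (STAR_beta hr (Lu (Q w))).2.2
    have hbv := (STAR_beta hr (Lv (Q w))).2.2
    have hRHS : (r : ℝ) ^ ((1 - beta r (STAR_mm (Lu (Q w)))) +
        (1 - beta r (STAR_mm (Lv (Q w)))) + 2 * δ + (if w ∈ T then -K else 0)) =
        STAR_mm (Lu (Q w)) * STAR_mm (Lv (Q w)) * ((r : ℝ) ^ δ) ^ 2 *
          (r : ℝ) ^ (if w ∈ T then -K else 0) := by
      rw [Real.rpow_add hr0, Real.rpow_add hr0, Real.rpow_add hr0, ← hbu, ← hbv]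
      congr 2
      rw [mul_comm 2 δ, Real.rpow_mul hr0.le]
      norm_num
    rw [hRHS]
    have h1x : 0 ≤ 1 + r * x := by positivity
    have hsq : (1 + r * x) ^ 2 ≤ ((r : ℝ) ^ δ) ^ 2 := pow_le_pow_left₀ h1x hδ 2
    have hmm0 : (0 : ℝ) ≤ STAR_mm (Lu (Q w)) * STAR_mm (Lv (Q w)) := by positivity
    by_cases hwT : w ∈ T
    · rw [if_pos hwT]
      refine (hT w hwT).trans ?_
      exact mul_le_mul_of_nonneg_right (mul_le_mul_of_nonneg_left hsq hmm0) (by positivity)
    · rw [if_neg hwT, Real.rpow_zero, mul_one]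
      calc ∑ a ∈ STAR_Om W Nu w ×ˢ STAR_Om W Nv w, y w a ≤
          ∑ a ∈ STAR_Om W Nu w ×ˢ STAR_Om W Nv w,
            STAR_wt x (Lu (Q w)) a.1 * STAR_wt x (Lv (Q w)) a.2 * (1 * 1) := by
            refine Finset.sum_le_sum fun a _ => ?_
            have h1 := mul_nonneg (STAR_wt_nonneg hx0.le (Lu (Q w)) a.1)
              (STAR_wt_nonneg hx0.le (Lv (Q w)) a.2)
            simp only [hy]
            split <;> linarith
        _ = (∑ a ∈ STAR_Om W Nu w, STAR_wt x (Lu (Q w)) a * 1) *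
              (∑ b ∈ STAR_Om W Nv w, STAR_wt x (Lv (Q w)) b * 1) :=
            STAR_sum_prod x (Lu (Q w)) (Lv (Q w)) W Nu Nv w (fun _ => 1) (fun _ => 1)
        _ ≤ (STAR_mm (Lu (Q w)) * (1 + r * x)) * (STAR_mm (Lv (Q w)) * (1 + r * x)) := by
            simp only [mul_one]
            exact mul_le_mul (STAR_sum_le hx0.le _ _ _ _) (STAR_sum_le hx0.le _ _ _ _)
              (STAR_sum_nonneg hx0.le _ _ _ _) (by positivity)
        _ = STAR_mm (Lu (Q w)) * STAR_mm (Lv (Q w)) * (1 + r * x) ^ 2 := by ring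
        _ ≤ _ := mul_le_mul_of_nonneg_left hsq hmm0
  have hprod : ∏ w, ∑ a ∈ STAR_Om W Nu w ×ˢ STAR_Om W Nv w, y w a ≤
      (r : ℝ) ^ (∑ w, ((1 - beta r (STAR_mm (Lu (Q w)))) + (1 - beta r (STAR_mm (Lv (Q w)))) +
        2 * δ + (if w ∈ T then -K else 0))) := by
    rw [Real.rpow_sum_of_pos hr0]
    refine Finset.prod_le_prod (fun w _ => ?_) (fun w _ => hfac w)
    refine Finset.sum_nonneg fun a _ => ?_
    have h1 := mul_nonneg (STAR_wt_nonneg hx0.le (Lu (Q w)) a.1)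
      (STAR_wt_nonneg hx0.le (Lv (Q w)) a.2)
    simp only [hy]
    split <;> linarith
  have hcinv : (x ^ E * x ^ E * (r : ℝ) ^ (-G))⁻¹ = (r : ℝ) ^ (2 * (ξ * E) + G) := by
    rw [hx, ← Real.rpow_mul hr0.le, ← Real.rpow_add hr0, ← Real.rpow_add hr0,
      ← Real.rpow_neg hr0.le]
    congr 1; ring
  rw [hcinv]
  refine (mul_le_mul_of_nonneg_left hprod (by positivity)).trans ?_
  rw [← Real.rpow_add hr0]
  refine Real.rpow_le_rpow_of_exponent_le (by linarith) ?_
  have hsu := STAR_class_sum hp hτ Q hB (fun i => beta r (STAR_mm (Lu i)))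
    (fun i => (STAR_beta hr (Lu i)).1) (fun i => (STAR_beta hr (Lu i)).2.1)
  have hsv := STAR_class_sum hp hτ Q hB (fun i => beta r (STAR_mm (Lv i)))
    (fun i => (STAR_beta hr (Lv i)).1) (fun i => (STAR_beta hr (Lv i)).2.1)
  have hTs : ∑ w : Fin n, (if w ∈ T then -K else 0) = -(K * T.card) := by
    rw [Finset.sum_ite_mem, Finset.univ_inter, Finset.sum_const, nsmul_eq_mul]; ring
  have hds : ∑ _w : Fin n, 2 * δ = 2 * δ * n := by
    rw [Finset.sum_const, Finset.card_univ, Fintype.card_fin, nsmul_eq_mul]; ring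
  rw [Finset.sum_add_distrib, Finset.sum_add_distrib, Finset.sum_add_distrib, hTs, hds]
  have hsplit : (2 - (∑ i, beta r (STAR_mm (Lu i)) + ∑ i, beta r (STAR_mm (Lv i))) / p) * n =
      (n - (∑ i, beta r (STAR_mm (Lu i))) / p * n) +
      (n - (∑ i, beta r (STAR_mm (Lv i))) / p * n) := by ring
  rw [hsplit]
  linarith

theorem STAR_exists_xi {r : ℕ} (hr : 2 ≤ r) {δ : ℝ} (hδ : 0 < δ) :
    ∃ ξ : ℝ, 0 ≤ ξ ∧ 1 + r * (r : ℝ) ^ (-ξ) ≤ (r : ℝ) ^ δ := by
  have hr' : (2 : ℝ) ≤ r := by exact_mod_cast hr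
  have hr0 : (0 : ℝ) < r := by linarith
  have h1 : 1 < (r : ℝ) ^ δ := Real.one_lt_rpow (by linarith) hδ
  set η := (r : ℝ) ^ δ - 1 with hη
  have hη0 : 0 < η := by linarith
  refine ⟨max 0 (1 - Real.logb r η), le_max_left _ _, ?_⟩
  set ξ := max 0 (1 - Real.logb r η) with hξ
  have h2 : 1 - ξ ≤ Real.logb r η := by
    have := le_max_right 0 (1 - Real.logb r η)
    linarith
  have h3 : (r : ℝ) * (r : ℝ) ^ (-ξ) = (r : ℝ) ^ (1 - ξ) := by
    rw [sub_eq_add_neg, Real.rpow_add hr0, Real.rpow_one]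
  have h4 : (r : ℝ) ^ (1 - ξ) ≤ η := by
    calc (r : ℝ) ^ (1 - ξ) ≤ (r : ℝ) ^ (Real.logb r η) :=
          Real.rpow_le_rpow_of_exponent_le (by linarith) h2
      _ = η := Real.rpow_logb hr0 (by linarith) hη0
  rw [h3]
  linarith

theorem STAR_sum_eL {p r : ℕ} {g : ℝ} (hg : 0 < g) (Lu Lv : Fin p → Finset (Fin r)) :
    (∑ i, eL g (Lu i) + ∑ i, eL g (Lv i)) / (g * p) =
      (∑ i, beta r (STAR_mm (Lu i)) + ∑ i, beta r (STAR_mm (Lv i))) / p := by
  have h : ∀ L : Fin p → Finset (Fin r), ∑ i, eL g (L i) = g * ∑ i, beta r (STAR_mm (L i)) := by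
    intro L
    rw [Finset.mul_sum]
    rfl
  rw [h, h, ← mul_add, mul_div_mul_left _ _ hg.ne']

theorem star_count {k r : ℕ} (hr : 2 ≤ r) {g θ : ℝ} (hg : 0 < g) (hθ : 0 < θ) :
    ∃ ε₀ τ₀ : ℝ, 0 < ε₀ ∧ 0 < τ₀ ∧ ∀ᶠ n : ℕ in atTop, ∀ p : ℕ, 1 ≤ p → p ≤ k →
      ∀ Q : Fin n → Fin p, Bal τ₀ Q → ∀ W Nu Nv : Finset (Fin n),
      ∀ Lu Lv : Fin p → Finset (Fin r),
      ∀ S : Finset ((Fin n → Option (Fin r)) × (Fin n → Option (Fin r))),
      (∀ z ∈ S, StarPair W Nu Nv Q ε₀ Lu Lv z) →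
      (S.card : ℝ) ≤ (r : ℝ) ^ ((2 - (∑ i, eL g (Lu i) + ∑ i, eL g (Lv i)) / (g * p) + θ) * n) := by
  classical
  have hr' : (2 : ℝ) ≤ r := by exact_mod_cast hr
  have hr0 : (0 : ℝ) < r := by linarith
  obtain ⟨ξ, hξ, hξδ⟩ := STAR_exists_xi hr (δ := θ / 8) (by linarith)
  refine ⟨θ / (16 * ((ξ + 1) * ((k + 1) * r))), θ / (16 * (k + 1)), by positivity, by positivity,
    Filter.Eventually.of_forall ?_⟩
  intro n p hp hpk Q hB W Nu Nv Lu Lv S hS
  set ε := θ / (16 * ((ξ + 1) * ((k + 1) * r))) with hε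
  set τ := θ / (16 * ((k : ℝ) + 1)) with hτ
  have hε0 : 0 < ε := by positivity
  have hτ0 : 0 < τ := by positivity
  have hpk' : (p : ℝ) ≤ k := by exact_mod_cast hpk
  have hcore := STAR_core hr hp Q W Nu Nv Lu Lv hε0.le hτ0.le hξ hξδ hB ∅
    (fun _ _ => False) (K := 0) (G := 0) S hS (by intro z _; simp) (by simp)
  refine hcore.trans (Real.rpow_le_rpow_of_exponent_le (by linarith) ?_)
  rw [STAR_sum_eL hg]
  have hn : (0 : ℝ) ≤ n := Nat.cast_nonneg n
  have h1 : 2 * (ξ * ((p : ℝ) * r * (ε * n))) ≤ θ / 8 * n := by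
    have h2 : ξ * ((p : ℝ) * r) ≤ (ξ + 1) * ((k + 1) * r) := by
      refine mul_le_mul (by linarith) (mul_le_mul_of_nonneg_right (by linarith) hr0.le)
        (by positivity) (by positivity)
    have h3 : (ξ + 1) * (((k : ℝ) + 1) * r) * ε = θ / 16 := by
      rw [hε]; field_simp
    calc 2 * (ξ * ((p : ℝ) * r * (ε * n))) = 2 * ((ξ * ((p : ℝ) * r)) * (ε * n)) := by ring
      _ ≤ 2 * (((ξ + 1) * (((k : ℝ) + 1) * r)) * (ε * n)) := by
          refine mul_le_mul_of_nonneg_left (mul_le_mul_of_nonneg_right h2 ?_) (by norm_num)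
          positivity
      _ = 2 * ((ξ + 1) * (((k : ℝ) + 1) * r) * ε) * n := by ring
      _ = θ / 8 * n := by rw [h3]; ring
  have h4 : 2 * ((p : ℝ) * τ * n) ≤ θ / 8 * n := by
    have h5 : (p : ℝ) * τ ≤ ((k : ℝ) + 1) * τ := mul_le_mul_of_nonneg_right (by linarith) hτ0.le
    have h6 : ((k : ℝ) + 1) * τ = θ / 16 := by rw [hτ]; field_simp
    calc 2 * ((p : ℝ) * τ * n) ≤ 2 * (((k : ℝ) + 1) * τ * n) := by
          refine mul_le_mul_of_nonneg_left (mul_le_mul_of_nonneg_right h5 hn) (by norm_num)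
      _ = θ / 8 * n := by rw [h6]; ring
  simp only [Finset.card_empty, Nat.cast_zero, mul_zero, sub_zero, add_zero]
  have h7 : 0 ≤ θ * n := by positivity
  nlinarith

theorem STAR_union {Z ι : Type} [Fintype ι] (S : Finset Z) (R : ι → Z → Prop)
    [∀ c, DecidablePred (R c)] (h : ∀ z ∈ S, ∃ c, R c z) (B : ℝ)
    (hB : ∀ c, ((S.filter (R c)).card : ℝ) ≤ B) : (S.card : ℝ) ≤ Fintype.card ι * B := by
  classical
  have hsub : S ⊆ (univ : Finset ι).biUnion fun c => S.filter (R c) := by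
    intro z hz
    obtain ⟨c, hc⟩ := h z hz
    exact Finset.mem_biUnion.2 ⟨c, Finset.mem_univ _, Finset.mem_filter.2 ⟨hz, hc⟩⟩
  have h1 := (Finset.card_le_card hsub).trans Finset.card_biUnion_le
  have h2 : (S.card : ℝ) ≤ ∑ c : ι, ((S.filter (R c)).card : ℝ) := by exact_mod_cast h1
  refine h2.trans ?_
  calc ∑ c : ι, ((S.filter (R c)).card : ℝ) ≤ ∑ _c : ι, B := Finset.sum_le_sum fun c _ => hB c
    _ = Fintype.card ι * B := by rw [Finset.sum_const, Finset.card_univ, nsmul_eq_mul]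

theorem star_gain {k r : ℕ} (hr : 2 ≤ r) {g : ℝ} (hg : 0 < g) :
    ∃ γ₂ κ ε₀ τ₀ : ℝ, 0 < γ₂ ∧ 0 < κ ∧ 0 < ε₀ ∧ 0 < τ₀ ∧ ∀ᶠ n : ℕ in atTop,
      ∀ p : ℕ, 1 ≤ p → p ≤ k →
      ∀ Q : Fin n → Fin p, Bal τ₀ Q → ∀ W Nu Nv : Finset (Fin n), n - 2 ≤ W.card →
      ∀ Lu Lv : Fin p → Finset (Fin r),
      ∀ S : Finset ((Fin n → Option (Fin r)) × (Fin n → Option (Fin r))),
      (∀ z ∈ S, StarPair W Nu Nv Q ε₀ Lu Lv z ∧ StarLow W Q γ₂ Lu Lv z) →
      (S.card : ℝ) ≤ (r : ℝ) ^ ((2 - (∑ i, eL g (Lu i) + ∑ i, eL g (Lv i)) / (g * p) - κ) * n) := by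
  classical
  have hr' : (2 : ℝ) ≤ r := by exact_mod_cast hr
  have hr0 : (0 : ℝ) < r := by linarith
  have hlogr : 0 < Real.log r := Real.log_pos (by linarith)
  obtain ⟨hq1, hq2⟩ := STAR_q_bounds hr
  have hq0 : 0 < STAR_q r := by linarith
  set K := -(Real.logb r (STAR_q r)) with hK
  have hKpos : 0 < K := by
    rw [hK, neg_pos]
    exact Real.logb_neg (by linarith) hq0 hq2
  have hqK : (r : ℝ) ^ (-K) = STAR_q r := by
    rw [hK, neg_neg]
    exact Real.rpow_logb hr0 (by linarith) hq0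
  set κ := K / (16 * ((k : ℝ) + 1)) with hκ
  have hκ0 : 0 < κ := by positivity
  have hlb2 : 0 < Real.logb r 2 := Real.logb_pos (by linarith) (by norm_num)
  set δ := min (κ / 2) (Real.logb r 2 / 2) with hδdef
  have hδ0 : 0 < δ := lt_min (by positivity) (by positivity)
  obtain ⟨ξ, hξ, hξδ⟩ := STAR_exists_xi hr hδ0
  set x : ℝ := (r : ℝ) ^ (-ξ) with hx
  have hx0 : 0 < x := by positivity
  have hx2 : (1 + r * x) ^ 2 ≤ 2 := by
    have h1x : 0 ≤ 1 + r * x := by positivity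
    calc (1 + r * x) ^ 2 ≤ ((r : ℝ) ^ δ) ^ 2 := pow_le_pow_left₀ h1x hξδ 2
      _ = (r : ℝ) ^ (2 * δ) := by
          rw [mul_comm 2 δ, Real.rpow_mul hr0.le]; norm_num
      _ ≤ (r : ℝ) ^ (Real.logb r 2) := by
          refine Real.rpow_le_rpow_of_exponent_le (by linarith) ?_
          have := min_le_right (κ / 2) (Real.logb r 2 / 2)
          linarith
      _ = 2 := Real.rpow_logb hr0 (by linarith) (by norm_num)
  set ε := κ / (2 * ((ξ + 1) * (((k : ℝ) + 1) * r))) with hε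
  set τ := min (κ / (2 * ((k : ℝ) + 1))) (1 / (2 * ((k : ℝ) + 1))) with hτ
  have hε0 : 0 < ε := by positivity
  have hτ0 : 0 < τ := lt_min (by positivity) (by positivity)
  refine ⟨κ, κ, ε, τ, hκ0, hκ0, hε0, hτ0, ?_⟩
  -- the number of cases is absorbed for large `n`
  have hev : ∀ᶠ n : ℕ in atTop, ((k : ℝ) * r + (k * r + k * (r * r))) ≤ (r : ℝ) ^ (κ * n) := by
    have h1 : Tendsto (fun n : ℕ => (r : ℝ) ^ (κ * (n : ℝ))) atTop atTop := by
      have h2 : Tendsto (fun n : ℕ => κ * (n : ℝ)) atTop atTop :=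
        tendsto_natCast_atTop_atTop.const_mul_atTop hκ0
      have h3 : Tendsto (fun y : ℝ => (r : ℝ) ^ y) atTop atTop := by
        have h4 : (fun y : ℝ => (r : ℝ) ^ y) = fun y : ℝ => Real.exp (Real.log r * y) := by
          funext y; rw [Real.rpow_def_of_pos hr0]
        rw [h4]
        exact Real.tendsto_exp_atTop.comp (tendsto_id.const_mul_atTop hlogr)
      exact h3.comp h2
    exact h1.eventually_ge_atTop _
  filter_upwards [hev] with n hn p hp hpk Q hB W Nu Nv _ Lu Lv S hS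
  have hpk' : (p : ℝ) ≤ k := by exact_mod_cast hpk
  have hp' : (1 : ℝ) ≤ p := by exact_mod_cast hp
  have hn0 : (0 : ℝ) ≤ n := Nat.cast_nonneg n
  set Ex := (2 - (∑ i, beta r (STAR_mm (Lu i)) + ∑ i, beta r (STAR_mm (Lv i))) / p) * n with hEx
  set B : ℝ := (r : ℝ) ^ (Ex - 4 * κ * n) with hBdef
  have hB0 : 0 ≤ B := by positivity
  -- the estimate in one case
  have hcase : ∀ (i : Fin p) (Low : Fin n → Option (Fin r) × Option (Fin r) → Prop)
      (S' : Finset ((Fin n → Option (Fin r)) × (Fin n → Option (Fin r)))), S' ⊆ S →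
      (∀ z ∈ S', ((univ.filter fun w => Low w (z.1 w, z.2 w)).card : ℝ) ≤ κ * n) →
      (∀ w, Q w = i → ∑ a ∈ STAR_Om W Nu w ×ˢ STAR_Om W Nv w,
        STAR_wt x (Lu (Q w)) a.1 * STAR_wt x (Lv (Q w)) a.2 *
          (if Low w a then (1 / 2 : ℝ) else 1) ≤
        STAR_mm (Lu (Q w)) * STAR_mm (Lv (Q w)) * (1 + r * x) ^ 2 * STAR_q r) →
      (S'.card : ℝ) ≤ B := by
    intro i Low S' hsub hG hT
    have hcore := STAR_core hr hp Q W Nu Nv Lu Lv hε0.le hτ0.le hξ hξδ hB
      (univ.filter fun w => Q w = i) Low (K := K) (G := κ * n) S'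
      (fun z hz => (hS z (hsub hz)).1) hG (by
        intro w hw
        rw [hqK]
        exact hT w (Finset.mem_filter.1 hw).2)
    refine hcore.trans (Real.rpow_le_rpow_of_exponent_le (by linarith) ?_)
    have hcl := (abs_le.1 (hB i)).1
    set t : ℝ := ((univ.filter fun w => Q w = i).card : ℝ) with ht
    have hk1 : (0 : ℝ) < (k : ℝ) + 1 := by positivity
    have h1 : 2 * (ξ * ((p : ℝ) * r * (ε * n))) ≤ κ * n := by
      have h2 : ξ * ((p : ℝ) * r) ≤ (ξ + 1) * ((k + 1) * r) := by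
        refine mul_le_mul (by linarith) (mul_le_mul_of_nonneg_right (by linarith) hr0.le)
          (by positivity) (by positivity)
      have h3 : (ξ + 1) * (((k : ℝ) + 1) * r) * ε = κ / 2 := by
        rw [hε]; field_simp
      calc 2 * (ξ * ((p : ℝ) * r * (ε * n))) = 2 * ((ξ * ((p : ℝ) * r)) * (ε * n)) := by ring
        _ ≤ 2 * (((ξ + 1) * (((k : ℝ) + 1) * r)) * (ε * n)) := by
            refine mul_le_mul_of_nonneg_left (mul_le_mul_of_nonneg_right h2 ?_) (by norm_num)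
            positivity
        _ = 2 * ((ξ + 1) * (((k : ℝ) + 1) * r) * ε) * n := by ring
        _ = κ * n := by rw [h3]; ring
    have h4 : 2 * ((p : ℝ) * τ * n) ≤ κ * n := by
      have h5 : (p : ℝ) * τ ≤ ((k : ℝ) + 1) * (κ / (2 * ((k : ℝ) + 1))) :=
        mul_le_mul (by linarith) (min_le_left _ _) hτ0.le hk1.le
      have h6 : ((k : ℝ) + 1) * (κ / (2 * ((k : ℝ) + 1))) = κ / 2 := by field_simp
      have h7 : (p : ℝ) * τ * n ≤ κ / 2 * n := mul_le_mul_of_nonneg_right (h5.trans h6.le) hn0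
      linarith
    have h8 : 2 * δ * n ≤ κ * n := by
      have := min_le_left (κ / 2) (Real.logb r 2 / 2)
      exact mul_le_mul_of_nonneg_right (by linarith) hn0
    have h9 : 8 * κ * n ≤ K * t := by
      have h10 : (n : ℝ) / ((k : ℝ) + 1) ≤ n / p :=
        div_le_div_of_nonneg_left hn0 (by linarith) (by linarith)
      have h11 : τ * n ≤ 1 / (2 * ((k : ℝ) + 1)) * n :=
        mul_le_mul_of_nonneg_right (min_le_right _ _) hn0
      have h12 : (n : ℝ) / ((k : ℝ) + 1) - 1 / (2 * ((k : ℝ) + 1)) * n =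
          n / (2 * ((k : ℝ) + 1)) := by field_simp; ring
      have h13 : n / (2 * ((k : ℝ) + 1)) ≤ t := by linarith
      have h14 : 8 * κ * n = K * (n / (2 * ((k : ℝ) + 1))) := by
        rw [hκ]; field_simp; ring
      rw [h14]
      exact mul_le_mul_of_nonneg_left h13 hKpos.le
    linarith
  -- the cases
  set R : (Fin p × Fin r) ⊕ ((Fin p × Fin r) ⊕ (Fin p × Fin r × Fin r)) →
      ((Fin n → Option (Fin r)) × (Fin n → Option (Fin r))) → Prop := fun c z => match c with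
    | .inl (i, a) => 2 ≤ (Lu i).card ∧ a ∈ Lu i ∧
        ((W.filter fun w => Q w = i ∧ z.1 w = some a).card : ℝ) < κ * n
    | .inr (.inl (i, b)) => 2 ≤ (Lv i).card ∧ b ∈ Lv i ∧
        ((W.filter fun w => Q w = i ∧ z.2 w = some b).card : ℝ) < κ * n
    | .inr (.inr (i, a, b)) => 2 ≤ (Lu i).card ∧ 2 ≤ (Lv i).card ∧ a ∈ Lu i ∧ b ∈ Lv i ∧
        ((W.filter fun w => Q w = i ∧ z.1 w = some a ∧ z.2 w = some b).card : ℝ) < κ * n
    with hR
  have hcov : ∀ z ∈ S, ∃ c, R c z := by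
    intro z hz
    rcases (hS z hz).2 with ⟨i, h1, a, ha, h2⟩ | ⟨i, h1, b, hb, h2⟩ | ⟨i, h1, h2, a, ha, b, hb, h3⟩
    · exact ⟨.inl (i, a), h1, ha, h2⟩
    · exact ⟨.inr (.inl (i, b)), h1, hb, h2⟩
    · exact ⟨.inr (.inr (i, a, b)), h1, h2, ha, hb, h3⟩
  have hbound : ∀ c, ((S.filter (R c)).card : ℝ) ≤ B := by
    intro c
    have hsubS : S.filter (R c) ⊆ S := Finset.filter_subset _ _
    have hRall : ∀ z ∈ S.filter (R c), R c z := fun z hz => (Finset.mem_filter.1 hz).2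
    generalize S.filter (R c) = S' at hsubS hRall ⊢
    rcases S'.eq_empty_or_nonempty with hem | ⟨z0, hz0⟩
    · rw [hem]; simpa using hB0
    rcases c with ⟨i, a⟩ | ⟨i, b⟩ | ⟨i, a, b⟩
    · obtain ⟨h1, h2, -⟩ := hRall z0 hz0
      refine hcase i (fun w z => Q w = i ∧ z.1 = some a) S' hsubS ?_ ?_
      · intro z hz
        have hzS := hsubS hz
        have hzR := hRall z hz
        refine le_trans ?_ hzR.2.2.le
        refine Nat.cast_le.2 (Finset.card_le_card ?_)
        intro w hw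
        have hw' : Q w = i ∧ z.1 w = some a := by
          simpa only [Finset.mem_filter, Finset.mem_univ, true_and] using hw
        refine Finset.mem_filter.2 ⟨?_, hw'⟩
        exact (((hS z hzS).1.h1 w).1 (by rw [hw'.2]; simp)).1
      · intro w hw
        have h3 := STAR_low_one hr hx0.le hx2 (Lu (Q w)) (by rw [hw]; exact h1) a
          (by rw [hw]; exact h2) W Nu w
        have h4 := STAR_sum_le hx0.le (Lv (Q w)) W Nv w
        have h5 := STAR_sum_prod x (Lu (Q w)) (Lv (Q w)) W Nu Nv w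
          (fun a' => if a' = some a then (1 / 2 : ℝ) else 1) (fun _ => 1)
        simp only [mul_one] at h5
        simp only [hw, true_and] at h3 h4 h5 ⊢
        rw [h5]
        calc _ ≤ (STAR_mm (Lu i) * (1 + r * x) * STAR_q r) * (STAR_mm (Lv i) * (1 + r * x)) :=
              mul_le_mul h3 h4 (STAR_sum_nonneg hx0.le _ _ _ _) (by positivity)
          _ = _ := by ring
    · obtain ⟨h1, h2, -⟩ := hRall z0 hz0
      refine hcase i (fun w z => Q w = i ∧ z.2 = some b) S' hsubS ?_ ?_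
      · intro z hz
        have hzS := hsubS hz
        have hzR := hRall z hz
        refine le_trans ?_ hzR.2.2.le
        refine Nat.cast_le.2 (Finset.card_le_card ?_)
        intro w hw
        have hw' : Q w = i ∧ z.2 w = some b := by
          simpa only [Finset.mem_filter, Finset.mem_univ, true_and] using hw
        refine Finset.mem_filter.2 ⟨?_, hw'⟩
        exact (((hS z hzS).1.h2 w).1 (by rw [hw'.2]; simp)).1
      · intro w hw
        have h3 := STAR_low_one hr hx0.le hx2 (Lv (Q w)) (by rw [hw]; exact h1) b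
          (by rw [hw]; exact h2) W Nv w
        have h4 := STAR_sum_le hx0.le (Lu (Q w)) W Nu w
        have h5 := STAR_sum_prod x (Lu (Q w)) (Lv (Q w)) W Nu Nv w (fun _ => 1)
          (fun a' => if a' = some b then (1 / 2 : ℝ) else 1)
        simp only [mul_one, one_mul] at h5
        simp only [hw, true_and] at h3 h4 h5 ⊢
        rw [h5]
        calc _ ≤ (STAR_mm (Lu i) * (1 + r * x)) * (STAR_mm (Lv i) * (1 + r * x) * STAR_q r) := by
              refine mul_le_mul h4 h3 ?_ (by positivity)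
              refine Finset.sum_nonneg fun a' _ => mul_nonneg (STAR_wt_nonneg hx0.le _ _) ?_
              split <;> norm_num
          _ = _ := by ring
    · obtain ⟨h1, h2, h3, h4, -⟩ := hRall z0 hz0
      refine hcase i (fun w z => Q w = i ∧ z.1 = some a ∧ z.2 = some b) S' hsubS ?_ ?_
      · intro z hz
        have hzS := hsubS hz
        have hzR := hRall z hz
        refine le_trans ?_ hzR.2.2.2.2.le
        refine Nat.cast_le.2 (Finset.card_le_card ?_)
        intro w hw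
        have hw' : Q w = i ∧ z.1 w = some a ∧ z.2 w = some b := by
          simpa only [Finset.mem_filter, Finset.mem_univ, true_and] using hw
        refine Finset.mem_filter.2 ⟨?_, hw'⟩
        exact (((hS z hzS).1.h1 w).1 (by rw [hw'.2.1]; simp)).1
      · intro w hw
        have h5 := STAR_low_two hr hx0.le hx2 (Lu (Q w)) (Lv (Q w)) (by rw [hw]; exact h1)
          (by rw [hw]; exact h2) a b (by rw [hw]; exact h3) (by rw [hw]; exact h4) W Nu Nv w
        simp only [hw, true_and] at h5 ⊢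
        exact h5
  have hfin := STAR_union S R hcov B hbound
  have hcardι : (Fintype.card ((Fin p × Fin r) ⊕ ((Fin p × Fin r) ⊕ (Fin p × Fin r × Fin r))) : ℝ)
      ≤ (r : ℝ) ^ (κ * n) := by
    refine le_trans ?_ hn
    simp only [Fintype.card_sum, Fintype.card_prod, Fintype.card_fin]
    push_cast
    have e1 : (p : ℝ) * r ≤ k * r := mul_le_mul_of_nonneg_right hpk' hr0.le
    have e2 : (p : ℝ) * (r * r) ≤ k * (r * r) := mul_le_mul_of_nonneg_right hpk' (by positivity)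
    linarith
  calc (S.card : ℝ) ≤ _ := hfin
    _ ≤ (r : ℝ) ^ (κ * n) * B := mul_le_mul_of_nonneg_right hcardι hB0
    _ = (r : ℝ) ^ (κ * n + (Ex - 4 * κ * n)) := by rw [hBdef, Real.rpow_add hr0]
    _ ≤ _ := by
        refine Real.rpow_le_rpow_of_exponent_le (by linarith) ?_
        rw [STAR_sum_eL hg]
        have : 0 ≤ κ * n := by positivity
        have h1 : (2 - (∑ i, beta r (STAR_mm (Lu i)) + ∑ i, beta r (STAR_mm (Lv i))) / p - κ) * n =
            Ex - κ * n := by rw [hEx]; ring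
        rw [h1]
        linarith

end Pool.ER
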