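import Mathlib
import Pool.Agent.ER.Defs
import Pool.Agent.ER.EMB
import Pool.Agent.ER.PAT
import Pool.Agent.ER.CLO
import Pool.Agent.ER.STAR

set_option autoImplicit false

/-!
# Module PAIR: counting colourings where a pair `u, v` is not fine
-/

open Finset Filter

namespace Pool.ER

theorem PAIR_gap {α : Type} [Fintype α] (f : α → ℝ) :
    ∃ κ : ℝ, 0 < κ ∧ ∀ x, 0 < f x → κ ≤ f x := by
  classical
  rcases (univ.filter fun x => 0 < f x).eq_empty_or_nonempty with h | h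
  · refine ⟨1, one_pos, fun x hx => ?_⟩
    have h1 : x ∈ univ.filter fun x => 0 < f x := by simp [hx]
    rw [h] at h1
    simp at h1
  · obtain ⟨x0, hx0, hmin⟩ := exists_min_image _ f h
    exact ⟨f x0, (mem_filter.1 hx0).2, fun x hx => hmin x (by simp [hx])⟩

theorem PAIR_ldw_mono {n p r : ℕ} {W : Finset (Fin n)} {ε ε' γ : ℝ} {φ : CG (Fin n) r}
    {Q : Fin n → Fin p} {A : Finset (Fin r)} (h : ε ≤ ε') (hL : LDW W ε γ φ Q A) :
    LDW W ε' γ φ Q A := by
  intro X Y hX hY hd hcX hcY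
  have hn : (0 : ℝ) ≤ n := Nat.cast_nonneg n
  exact hL X Y hX hY hd ((mul_le_mul_of_nonneg_right h hn).trans hcX)
    ((mul_le_mul_of_nonneg_right h hn).trans hcY)

theorem PAIR_adm {V : Type} {k s r : ℕ} {φ : CG V r} (hA : Adm k s φ) (w : Fin k → V)
    (χ : Fin k → Fin k → Fin r) (h : ∀ i j : Fin k, i < j → φ s(w i, w j) = some (χ i j))
    (hs : s ≤ (univ.filter fun c : Fin r => ∃ i j : Fin k, i < j ∧ χ i j = c).card) : False := by
  have h1 := hA w (fun i j hij => by rw [h i j hij]; simp)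
  have h2 : (univ.filter fun c : Fin r => ∃ i j : Fin k, i < j ∧ χ i j = c) ⊆ tupCols φ w := by
    intro c hc
    simp only [mem_filter, mem_univ, true_and, tupCols] at hc ⊢
    obtain ⟨i, j, hij, rfl⟩ := hc
    exact ⟨i, j, hij, h i j hij⟩
  have h3 := card_le_card h2
  omega

/-- the conclusion of `embed` at `n` -/
def PAIR_Emb (k r n : ℕ) (ε γ ε' : ℝ) : Prop :=
  ∀ (p : ℕ) (W : Finset (Fin n)) (φ : CG (Fin n) r)
      (Q : Fin n → Fin p) (A : Finset (Fin r)), LDW W ε γ φ Q A →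
      ∀ m : ℕ, m ≤ k → ∀ (cls : Fin m → Fin p) (Y : Fin m → Finset (Fin n))
        (χ : Fin m → Fin m → Fin r),
        (∀ a, Y a ⊆ W) → (∀ a, ∀ y ∈ Y a, Q y = cls a) → (∀ a, ε' * n ≤ (Y a).card) →
        (∀ a b : Fin m, a < b → χ a b ∈ pureL A (cls a) (cls b)) →
        ∃ w : Fin m → Fin n, (∀ a, w a ∈ Y a) ∧
          ∀ a b : Fin m, a < b → φ s(w a, w b) = some (χ a b)

theorem PAIR_hnr {k s r n p : ℕ} (hk : 1 ≤ k) {ε γ ε₂ : ℝ} (hemb : PAIR_Emb k r n ε γ ε₂)
    {W : Finset (Fin n)} {φ φ₀ : CG (Fin n) r} {Q : Fin n → Fin p} {A : Finset (Fin r)}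
    (hLD : LDW W ε γ φ₀ Q A) (hAdm : Adm k s φ)
    (hres : ∀ x ∈ W, ∀ y ∈ W, φ s(x, y) = φ₀ s(x, y)) (x : Fin n) (Lx : Fin p → Finset (Fin r))
    (hL : ∀ i c, c ∈ Lx i → ε₂ * n ≤ cnt W φ Q x i c) (cls : Fin k → Fin p) :
    ¬ RbL s (fun x y : Fin k => if (x : ℕ) = 0 then Lx (cls y) else
        pureL A (cls x) (cls y)) := by
  rintro ⟨χ, hχ, hs⟩
  obtain ⟨m, rfl⟩ : ∃ m, k = m + 1 := ⟨k - 1, by omega⟩
  obtain ⟨w, hwY, hw⟩ := hemb p W φ₀ Q A hLD m (by omega) (fun a => cls a.succ)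
    (fun a => W.filter fun y => Q y = cls a.succ ∧ φ s(x, y) = some (χ 0 a.succ))
    (fun a b => χ a.succ b.succ) (fun a => filter_subset _ _)
    (fun a y hy => (mem_filter.1 hy).2.1)
    (fun a => by
      have h1 := hχ 0 a.succ (Fin.succ_pos a)
      simp only [Fin.val_zero, if_true] at h1
      exact hL _ _ h1)
    (fun a b hab => by
      have h1 := hχ a.succ b.succ (Fin.succ_lt_succ_iff.mpr hab)
      simpa using h1)
  refine PAIR_adm hAdm (Fin.cons x w) χ ?_ hs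
  intro i j hij
  obtain ⟨b, rfl⟩ : ∃ b : Fin m, j = b.succ := Fin.exists_succ_eq.mpr (by
    rintro rfl
    exact absurd hij (Fin.not_lt_zero i)) |>.imp fun _ h => h.symm
  refine Fin.cases (fun _ => ?_) (fun a hij => ?_) i hij
  · simp only [Fin.cons_zero, Fin.cons_succ]
    exact (mem_filter.1 (hwY b)).2.2
  · simp only [Fin.cons_succ]
    rw [hres _ (mem_filter.1 (hwY a)).1 _ (mem_filter.1 (hwY b)).1]
    exact hw a b (Fin.succ_lt_succ_iff.mp hij)

/-- the profile of `x` -/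
noncomputable def PAIR_prof {n p r : ℕ} (W : Finset (Fin n)) (ε₂ : ℝ) (φ : CG (Fin n) r)
    (Q : Fin n → Fin p) (x : Fin n) : Fin p → Finset (Fin r) :=
  fun i => univ.filter fun c => ε₂ * n < (cnt W φ Q x i c : ℝ)

/-- the pair of stars -/
def PAIR_star {n r : ℕ} (W : Finset (Fin n)) (u v : Fin n) (φ : CG (Fin n) r) :
    (Fin n → Option (Fin r)) × (Fin n → Option (Fin r)) :=
  (fun w => if w ∈ W then φ s(u, w) else none, fun w => if w ∈ W then φ s(v, w) else none)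

theorem PAIR_cnt1 {n p r : ℕ} (W : Finset (Fin n)) (u v : Fin n) (φ : CG (Fin n) r)
    (Q : Fin n → Fin p) (i : Fin p) (c : Fin r) :
    (W.filter fun w => Q w = i ∧ (PAIR_star W u v φ).1 w = some c).card = cnt W φ Q u i c := by
  unfold cnt
  congr 1
  apply filter_congr
  intro w hw
  simp [PAIR_star, hw]

theorem PAIR_cnt2 {n p r : ℕ} (W : Finset (Fin n)) (u v : Fin n) (φ : CG (Fin n) r)
    (Q : Fin n → Fin p) (i : Fin p) (c : Fin r) :
    (W.filter fun w => Q w = i ∧ (PAIR_star W u v φ).2 w = some c).card = cnt W φ Q v i c := by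
  unfold cnt
  congr 1
  apply filter_congr
  intro w hw
  simp [PAIR_star, hw]

theorem PAIR_beta_one {r : ℕ} : beta r 1 = 1 := by
  simp [beta]

theorem PAIR_beta_self {r : ℕ} (hr : 2 ≤ r) : beta r r = 0 := by
  have h1 : (1 : ℝ) < r := by exact_mod_cast hr
  have h2 : Real.log r ≠ 0 := (Real.log_pos h1).ne'
  simp [beta, div_self h2]

theorem PAIR_eL_univ {r : ℕ} (hr : 2 ≤ r) (g : ℝ) : eL g (univ : Finset (Fin r)) = 0 := by
  unfold eL
  rw [card_univ, Fintype.card_fin, max_eq_right (by omega), PAIR_beta_self hr, mul_zero]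

theorem PAIR_eL_A {k d r p a : ℕ} {g : ℝ} (hS : Shape k d r g p a) (A : Finset (Fin r))
    (hA : A.card = a) (hk : 1 ≤ k) : eL g A = p := by
  unfold eL
  rcases hS with h | h
  · obtain ⟨h2, -, -, -, h5, -⟩ := h
    rw [hA, max_eq_right (by omega), h5]
  · obtain ⟨h0, hp, hg⟩ := h
    rw [hA, h0, max_eq_left (by norm_num), PAIR_beta_one, mul_one, hg, hp]
    push_cast [Nat.cast_sub hk]
    ring

theorem PAIR_sum_clone {k d r p a : ℕ} {g : ℝ} (hr : 2 ≤ r) (hS : Shape k d r g p a)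
    (A : Finset (Fin r)) (hA : A.card = a) (hk : 1 ≤ k) (L : Fin p → Finset (Fin r))
    (h : ∃ i₀, L i₀ = A ∧ ∀ j, j ≠ i₀ → L j = univ) : ∑ i, eL g (L i) = p := by
  obtain ⟨i₀, h1, h2⟩ := h
  rw [Finset.sum_eq_single i₀]
  · rw [h1]
    exact PAIR_eL_A hS A hA hk
  · intro j _ hj
    rw [h2 j hj, PAIR_eL_univ hr]
  · intro h
    exact absurd (mem_univ _) h

theorem PAIR_restr {n r : ℕ} {W : Finset (Fin n)} {φ φ₀ : CG (Fin n) r} (h : restr W φ = φ₀) :
    ∀ x ∈ W, ∀ y ∈ W, φ s(x, y) = φ₀ s(x, y) := by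
  intro x hx y hy
  rw [← h]
  unfold restr
  rw [if_pos (by rw [Finset.mk_mem_sym2_iff]; exact ⟨hx, hy⟩)]

/-- the colouring is determined by its restriction, its stars and the colour of `u v`. -/
theorem PAIR_inj {n r : ℕ} {u v : Fin n} {φ ψ : CG (Fin n) r}
    (hφd : ∀ x, φ s(x, x) = none) (hψd : ∀ x, ψ s(x, x) = none)
    (hres : restr (univ \ {u, v}) φ = restr (univ \ {u, v}) ψ)
    (hstar : PAIR_star (univ \ {u, v}) u v φ = PAIR_star (univ \ {u, v}) u v ψ)
    (huv : φ s(u, v) = ψ s(u, v)) : φ = ψ := by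
  have hm : ∀ w : Fin n, w ∈ (univ \ {u, v} : Finset (Fin n)) ↔ w ≠ u ∧ w ≠ v := by
    intro w
    simp
  have hu : ∀ w, φ s(u, w) = ψ s(u, w) := by
    intro w
    by_cases h1 : w = u
    · rw [h1, hφd, hψd]
    · by_cases h2 : w = v
      · rw [h2, huv]
      · have h3 := congrFun (congrArg Prod.fst hstar) w
        simp only [PAIR_star] at h3
        rwa [if_pos ((hm w).2 ⟨h1, h2⟩), if_pos ((hm w).2 ⟨h1, h2⟩)] at h3
  have hv : ∀ w, φ s(v, w) = ψ s(v, w) := by
    intro w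
    by_cases h1 : w = v
    · rw [h1, hφd, hψd]
    · by_cases h2 : w = u
      · rw [h2, Sym2.eq_swap, huv]
      · have h3 := congrFun (congrArg Prod.snd hstar) w
        simp only [PAIR_star] at h3
        rwa [if_pos ((hm w).2 ⟨h2, h1⟩), if_pos ((hm w).2 ⟨h2, h1⟩)] at h3
  funext e
  induction e using Sym2.ind with
  | _ x y =>
    by_cases hx1 : x = u
    · rw [hx1]; exact hu y
    by_cases hx2 : x = v
    · rw [hx2]; exact hv y
    by_cases hy1 : y = u
    · rw [hy1, Sym2.eq_swap]; exact hu x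
    by_cases hy2 : y = v
    · rw [hy2, Sym2.eq_swap]; exact hv x
    have h3 := congrFun hres s(x, y)
    unfold restr at h3
    have h4 : s(x, y) ∈ (univ \ {u, v} : Finset (Fin n)).sym2 := by
      rw [Finset.mk_mem_sym2_iff]
      exact ⟨(hm x).2 ⟨hx1, hx2⟩, (hm y).2 ⟨hy1, hy2⟩⟩
    rwa [if_pos h4, if_pos h4] at h3

theorem PAIR_fine {k s r d : ℕ} {g : ℝ} (H : Par k s r d g) {p a : ℕ} (hS : Shape k d r g p a)
    {n : ℕ} {ε γ ε₂ γ₂ : ℝ} {u v : Fin n} {φ φ₀ : CG (Fin n) r} {Q : Fin n → Fin p}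
    {A : Finset (Fin r)} (hA : A.card = a)
    (hemb : PAIR_Emb k r n ε γ γ₂) (hLD : LDW (univ \ {u, v}) ε γ φ₀ Q A) (hAdm : Adm k s φ)
    (hres : restr (univ \ {u, v}) φ = φ₀)
    (hcu : ∃ i₀, PAIR_prof (univ \ {u, v}) ε₂ φ Q u i₀ = A ∧
      ∀ j, j ≠ i₀ → PAIR_prof (univ \ {u, v}) ε₂ φ Q u j = univ)
    (hcv : ∃ i₀, PAIR_prof (univ \ {u, v}) ε₂ φ Q v i₀ = A ∧
      ∀ j, j ≠ i₀ → PAIR_prof (univ \ {u, v}) ε₂ φ Q v j = univ)
    (hlow : ¬ StarLow (univ \ {u, v}) Q γ₂ (PAIR_prof (univ \ {u, v}) ε₂ φ Q u)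
      (PAIR_prof (univ \ {u, v}) ε₂ φ Q v) (PAIR_star (univ \ {u, v}) u v φ)) :
    Fine (univ \ {u, v}) ε₂ γ₂ φ Q A u v := by
  have hr : 2 ≤ r := by have := H.hs; have := H.hsr; omega
  obtain ⟨W, hW⟩ : ∃ W : Finset (Fin n), W = univ \ {u, v} := ⟨_, rfl⟩
  rw [← hW] at hLD hres hcu hcv hlow ⊢
  obtain ⟨iu, hiu, hju⟩ := hcu
  obtain ⟨iv, hiv, hjv⟩ := hcv
  unfold StarLow at hlow
  push Not at hlow
  obtain ⟨hl1, hl2, hl3⟩ := hlow
  simp only [PAIR_cnt1] at hl1
  simp only [PAIR_cnt2] at hl2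
  have hcard : (univ : Finset (Fin r)).card = r := by simp
  refine ⟨iu, iv, ?_, ?_, ?_, ?_, ?_⟩
  · intro c hc
    by_contra h
    apply hc
    rw [← hiu]
    simp only [PAIR_prof, mem_filter, mem_univ, true_and]
    exact not_le.mp h
  · intro c hc
    by_contra h
    apply hc
    rw [← hiv]
    simp only [PAIR_prof, mem_filter, mem_univ, true_and]
    exact not_le.mp h
  · intro i hi c
    exact hl1 i (by rw [hju i hi, hcard]; exact hr) c (by rw [hju i hi]; exact mem_univ _)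
  · intro i hi c
    exact hl2 i (by rw [hjv i hi, hcard]; exact hr) c (by rw [hjv i hi]; exact mem_univ _)
  · intro hii c hφc
    by_contra hcA
    subst hii
    obtain ⟨cls, hcls, hcls0, χ, hχ, hs⟩ := rain_edge H hS A hA c hcA iu
    obtain ⟨m, rfl⟩ : ∃ m, k = m + 2 := ⟨k - 2, by have := H.hk; omega⟩
    have hprof : ∀ b : Fin m, 2 ≤ (PAIR_prof W ε₂ φ Q u (cls b.succ.succ)).card ∧
        2 ≤ (PAIR_prof W ε₂ φ Q v (cls b.succ.succ)).card ∧
        χ 0 b.succ.succ ∈ PAIR_prof W ε₂ φ Q u (cls b.succ.succ) ∧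
        χ 1 b.succ.succ ∈ PAIR_prof W ε₂ φ Q v (cls b.succ.succ) := by
      intro b
      have h0 := hχ 0 b.succ.succ (by rw [Fin.lt_def]; simp)
      have h1 := hχ 1 b.succ.succ (by rw [Fin.lt_def]; simp)
      have hb2 : ((b.succ.succ : Fin (m + 2)) : ℕ) ≠ 1 := by simp
      have hc0 : cls 0 = iu := hcls 0 (by simp)
      have hc1 : cls 1 = iu := hcls 1 (by simp)
      simp only [Fin.val_zero, true_and, hb2, if_false, hc0] at h0
      have h10 : ((1 : Fin (m + 2)) : ℕ) ≠ 0 := by simp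
      simp only [h10, false_and, if_false, hc1] at h1
      by_cases hcl : cls b.succ.succ = iu
      · have ha2 : 2 ≤ A.card := by
          rcases hS with h | h
          · rw [hA]; exact h.1
          · exact absurd hcl (hcls0 h.1 _ (by simp))
        rw [hcl] at h0 h1 ⊢
        simp only [pureL, if_true] at h0 h1
        rw [hiu, hiv]
        exact ⟨ha2, ha2, h0, h1⟩
      · rw [hju _ hcl, hjv _ hcl, hcard]
        exact ⟨hr, hr, mem_univ _, mem_univ _⟩
    obtain ⟨w, hwY, hw⟩ := hemb p W φ₀ Q A hLD m (by omega) (fun b => cls b.succ.succ)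
      (fun b => W.filter fun y => Q y = cls b.succ.succ ∧
        (PAIR_star W u v φ).1 y = some (χ 0 b.succ.succ) ∧
        (PAIR_star W u v φ).2 y = some (χ 1 b.succ.succ))
      (fun a b => χ a.succ.succ b.succ.succ) (fun a => filter_subset _ _)
      (fun a y hy => (mem_filter.1 hy).2.1)
      (fun b => by
        obtain ⟨h1, h2, h3, h4⟩ := hprof b
        exact hl3 _ h1 h2 _ h3 _ h4)
      (fun a b hab => by
        have h1 := hχ a.succ.succ b.succ.succ
          (Fin.succ_lt_succ_iff.mpr (Fin.succ_lt_succ_iff.mpr hab))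
        simpa using h1)
    have hres' := PAIR_restr hres
    have hstar1 : ∀ b, φ s(u, w b) = some (χ 0 b.succ.succ) := by
      intro b
      have h1 := mem_filter.1 (hwY b)
      have h2 := h1.2.2.1
      simp only [PAIR_star, h1.1, if_true] at h2
      exact h2
    have hstar2 : ∀ b, φ s(v, w b) = some (χ 1 b.succ.succ) := by
      intro b
      have h1 := mem_filter.1 (hwY b)
      have h2 := h1.2.2.2
      simp only [PAIR_star, h1.1, if_true] at h2
      exact h2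
    have hχ01 : χ 0 1 = c := by
      have h0 := hχ 0 1 (by rw [Fin.lt_def]; simp)
      simpa using h0
    refine PAIR_adm hAdm (Fin.cons u (Fin.cons v w)) χ ?_ hs
    intro i
    refine Fin.cases ?_ (fun i => Fin.cases ?_ (fun i => ?_) i) i
    · intro j
      refine Fin.cases ?_ (fun j => Fin.cases ?_ (fun j => ?_) j) j
      · intro h; exact absurd h (lt_irrefl _)
      · intro _
        simp only [Fin.cons_zero, Fin.cons_succ]
        rw [hφc]
        congr 1
        exact hχ01.symm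
      · intro _
        simp only [Fin.cons_zero, Fin.cons_succ]
        exact hstar1 j
    · intro j
      refine Fin.cases ?_ (fun j => Fin.cases ?_ (fun j => ?_) j) j
      · intro h; exact absurd h (Fin.not_lt_zero _)
      · intro h; exact absurd h (lt_irrefl _)
      · intro _
        simp only [Fin.cons_zero, Fin.cons_succ]
        exact hstar2 j
    · intro j
      refine Fin.cases ?_ (fun j => Fin.cases ?_ (fun j => ?_) j) j
      · intro h; exact absurd h (Fin.not_lt_zero _)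
      · intro h
        rw [Fin.succ_lt_succ_iff] at h
        exact absurd h (Fin.not_lt_zero _)
      · intro h
        rw [Fin.succ_lt_succ_iff, Fin.succ_lt_succ_iff] at h
        simp only [Fin.cons_succ]
        rw [hres' _ (mem_filter.1 (hwY i)).1 _ (mem_filter.1 (hwY j)).1]
        exact hw i j h

theorem PAIR_shape_p {k d r p a : ℕ} {g : ℝ} (hk : 3 ≤ k) (hS : Shape k d r g p a) :
    1 ≤ p ∧ p < k := by
  rcases hS with h | h
  · obtain ⟨-, h1, h2, -⟩ := h
    omega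
  · obtain ⟨-, h1, -⟩ := h
    omega

theorem pair_count {k s r d : ℕ} {g : ℝ} (H : Par k s r d g) {γ : ℝ} (hγ : 0 < γ)
    (hγ1 : γ ≤ 1) :
    ∃ γ₂ ε₀ : ℝ, 0 < γ₂ ∧ 0 < ε₀ ∧ ∀ ε₂ : ℝ, 0 < ε₂ → ε₂ ≤ ε₀ →
      ∃ ε τ κ : ℝ, 0 < ε ∧ 0 < τ ∧ 0 < κ ∧ ∀ᶠ n : ℕ in atTop, ∀ G : SimpleGraph (Fin n),
        ∀ u v : Fin n, u ≠ v → ∀ p a : ℕ, Shape k d r g p a →
        ∀ (Q : Fin n → Fin p) (A : Finset (Fin r)), A.card = a → Bal τ Q →
        ∀ φ₀ : CG (Fin n) r, LDW (univ \ {u, v}) ε γ φ₀ Q A →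
        ∀ E ⊆ cols k s r G, (∀ φ ∈ E, restr (univ \ {u, v}) φ = φ₀ ∧
          ¬ Fine (univ \ {u, v}) ε₂ γ₂ φ Q A u v) →
        (E.card : ℝ) ≤ (r : ℝ) ^ ((2 * (1 - 1 / g) - κ) * n) := by
  classical
  have hk := H.hk
  have hr : 2 ≤ r := by have := H.hs; have := H.hsr; omega
  have hr0 : (0 : ℝ) < r := by have : 0 < r := by omega
                               exact_mod_cast this
  have hr1 : (1 : ℝ) < r := by have : 1 < r := by omega
                               exact_mod_cast this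
  have hk0 : (0 : ℝ) < k := by have : 0 < k := by omega
                               exact_mod_cast this
  have hg : 0 < g := by
    have h1 := H.hg
    have h2 : (3 : ℝ) ≤ k := by exact_mod_cast hk
    linarith
  obtain ⟨κ₁, hκ₁, hgap⟩ := PAIR_gap (α := Σ q : Fin k, (Fin (q : ℕ) → Finset (Fin r)))
    (fun x => ∑ i, eL g (x.2 i) - ((x.1 : ℕ) : ℝ))
  obtain ⟨εc, τc, hεc, hτc, hcount⟩ := star_count (k := k) (r := r) hr hg
    (θ := κ₁ / (2 * (g * k))) (by positivity)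
  obtain ⟨γ₂, κg, εg, τg, hγ₂, hκg, hεg, hτg, hgain⟩ := star_gain (k := k) (r := r) hr hg
  refine ⟨γ₂, min εc εg, hγ₂, lt_min hεc hεg, ?_⟩
  intro ε₂ hε₂ hε₂0
  obtain ⟨εa, hεa, hemba⟩ := embed k r hγ hγ1 hε₂
  obtain ⟨εb, hεb, hembb⟩ := embed k r hγ hγ1 hγ₂
  obtain ⟨κ₂, hκ₂⟩ : ∃ κ₂, κ₂ = min (κ₁ / (2 * (g * k))) κg := ⟨_, rfl⟩
  have hκ₂0 : 0 < κ₂ := by rw [hκ₂]; exact lt_min (by positivity) hκg
  refine ⟨min εa εb, min τc τg, κ₂ / 2, lt_min hεa hεb, lt_min hτc hτg, by positivity, ?_⟩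
  have hbig : ∀ᶠ n : ℕ in atTop, ((r : ℝ) + 1) * (((2 : ℝ) ^ r) ^ k) ^ 2 ≤
      (r : ℝ) ^ (κ₂ / 2 * n) := by
    have h1 : (1 : ℝ) < (r : ℝ) ^ (κ₂ / 2) := Real.one_lt_rpow hr1 (by positivity)
    have h2 := (tendsto_pow_atTop_atTop_of_one_lt h1).eventually_ge_atTop
      (((r : ℝ) + 1) * (((2 : ℝ) ^ r) ^ k) ^ 2)
    filter_upwards [h2] with n hn
    rw [Real.rpow_mul hr0.le, Real.rpow_natCast]
    exact hn
  filter_upwards [hcount, hgain, hemba, hembb, hbig] with n hcount hgain hemba hembb hbig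
  intro G u v huv p a hS Q A hA hBal φ₀ hLD E hE hEP
  obtain ⟨hp1, hpk⟩ := PAIR_shape_p hk hS
  have hp0 : (0 : ℝ) < p := by exact_mod_cast hp1
  obtain ⟨W, hW⟩ : ∃ W : Finset (Fin n), W = univ \ {u, v} := ⟨_, rfl⟩
  have hWcard : n - 2 ≤ W.card := by
    rw [hW, card_sdiff_of_subset (subset_univ _), card_univ, Fintype.card_fin]
    have : ({u, v} : Finset (Fin n)).card ≤ 2 := card_le_two
    omega
  have hn0 : (0 : ℝ) ≤ n := Nat.cast_nonneg n
  have hBalc : Bal τc Q := fun i => (hBal i).trans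
    (mul_le_mul_of_nonneg_right (min_le_left _ _) hn0)
  have hBalg : Bal τg Q := fun i => (hBal i).trans
    (mul_le_mul_of_nonneg_right (min_le_right _ _) hn0)
  have hLDa : LDW (univ \ {u, v}) εa γ φ₀ Q A := PAIR_ldw_mono (min_le_left _ _) hLD
  have hLDb : LDW (univ \ {u, v}) εb γ φ₀ Q A := PAIR_ldw_mono (min_le_right _ _) hLD
  have hcols : ∀ φ ∈ E, (∀ e : Sym2 (Fin n), φ e ≠ none ↔ e ∈ G.edgeSet) ∧ Adm k s φ := by
    intro φ hφ
    have h1 := hE hφ
    unfold cols at h1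
    exact (mem_filter.1 h1).2
  have hdiag : ∀ φ ∈ E, ∀ x, φ s(x, x) = none := by
    intro φ hφ x
    by_contra h
    have h1 := ((hcols φ hφ).1 s(x, x)).1 h
    exact G.loopless.irrefl x h1
  -- clone alternative
  have hclone : ∀ φ ∈ E, ∀ x : Fin n, ∑ i, eL g (PAIR_prof W ε₂ φ Q x i) ≤ p →
      ∃ i₀, PAIR_prof W ε₂ φ Q x i₀ = A ∧ ∀ j, j ≠ i₀ → PAIR_prof W ε₂ φ Q x j = univ := by
    intro φ hφ x hsum
    refine clone H hS A hA _ hsum ?_
    intro cls _
    refine PAIR_hnr (by omega) hemba (W := W) (by rw [hW]; exact hLDa) (hcols φ hφ).2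
      (PAIR_restr (by rw [hW]; exact (hEP φ hφ).1)) x _ ?_ cls
    intro i c hc
    simp only [PAIR_prof, mem_filter, mem_univ, true_and] at hc
    exact hc.le
  have hsum_ge : ∀ φ ∈ E, ∀ x : Fin n, (p : ℝ) ≤ ∑ i, eL g (PAIR_prof W ε₂ φ Q x i) := by
    intro φ hφ x
    by_contra h
    have h1 := hclone φ hφ x (not_le.mp h).le
    rw [PAIR_sum_clone hr hS A hA (by omega) _ h1] at h
    exact h le_rfl
  have hgap' : ∀ L : Fin p → Finset (Fin r), (p : ℝ) < ∑ i, eL g (L i) →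
      (p : ℝ) + κ₁ ≤ ∑ i, eL g (L i) := by
    intro L hL
    have h1 := hgap ⟨⟨p, hpk⟩, L⟩ (by simpa using hL)
    have h2 : κ₁ ≤ ∑ i, eL g (L i) - (p : ℝ) := h1
    linarith
  -- star pairs
  obtain ⟨Nu, hNu⟩ : ∃ Nu : Finset (Fin n), Nu = univ.filter (fun w => G.Adj u w) := ⟨_, rfl⟩
  obtain ⟨Nv, hNv⟩ : ∃ Nv : Finset (Fin n), Nv = univ.filter (fun w => G.Adj v w) := ⟨_, rfl⟩
  have hSP : ∀ φ ∈ E, ∀ ε' : ℝ, ε₂ ≤ ε' → StarPair W Nu Nv Q ε'
      (PAIR_prof W ε₂ φ Q u) (PAIR_prof W ε₂ φ Q v) (PAIR_star W u v φ) := by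
    intro φ hφ ε' hε'
    have hle : ε₂ * n ≤ ε' * n := mul_le_mul_of_nonneg_right hε' hn0
    refine ⟨?_, ?_, ?_, ?_⟩
    · intro w
      rw [hNu]
      by_cases hw : w ∈ W
      · simp only [PAIR_star, hw, if_true, mem_filter, mem_univ, true_and]
        rw [(hcols φ hφ).1]
        simp
      · simp [PAIR_star, hw]
    · intro w
      rw [hNv]
      by_cases hw : w ∈ W
      · simp only [PAIR_star, hw, if_true, mem_filter, mem_univ, true_and]
        rw [(hcols φ hφ).1]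
        simp
      · simp [PAIR_star, hw]
    · intro i c hc
      rw [PAIR_cnt1]
      simp only [PAIR_prof, mem_filter, mem_univ, true_and, not_lt] at hc
      exact hc.trans hle
    · intro i c hc
      rw [PAIR_cnt2]
      simp only [PAIR_prof, mem_filter, mem_univ, true_and, not_lt] at hc
      exact hc.trans hle
  -- the bound for fixed profiles
  have hfix : ∀ Lu Lv : Fin p → Finset (Fin r),
      ((E.filter fun φ => PAIR_prof W ε₂ φ Q u = Lu ∧ PAIR_prof W ε₂ φ Q v = Lv).card : ℝ) ≤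
        ((r : ℝ) + 1) * (r : ℝ) ^ ((2 * (1 - 1 / g) - κ₂) * n) := by
    intro Lu Lv
    obtain ⟨E', hE'⟩ : ∃ E' : Finset (CG (Fin n) r), E' = E.filter fun φ =>
      PAIR_prof W ε₂ φ Q u = Lu ∧ PAIR_prof W ε₂ φ Q v = Lv := ⟨_, rfl⟩
    rw [← hE']
    rcases E'.eq_empty_or_nonempty with hemp | ⟨φ₁, hφ₁⟩
    · rw [hemp, card_empty, Nat.cast_zero]
      positivity
    have hE'mem : ∀ φ ∈ E', φ ∈ E ∧ PAIR_prof W ε₂ φ Q u = Lu ∧ PAIR_prof W ε₂ φ Q v = Lv := by
      intro φ hφ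
      rw [hE'] at hφ
      exact ⟨(mem_filter.1 hφ).1, (mem_filter.1 hφ).2.1, (mem_filter.1 hφ).2.2⟩
    have hcardE' : E'.card ≤ (E'.image (PAIR_star W u v)).card * (r + 1) := by
      have h1 : (E'.image (PAIR_star W u v)).card * (r + 1) =
          ((E'.image (PAIR_star W u v)) ×ˢ (univ : Finset (Option (Fin r)))).card := by
        rw [card_product, card_univ, Fintype.card_option, Fintype.card_fin]
      rw [h1]
      apply card_le_card_of_injOn (fun φ => (PAIR_star W u v φ, φ s(u, v)))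
      · intro φ hφ
        simp only [coe_product, coe_univ, Set.mem_prod, Set.mem_univ, and_true]
        exact mem_image_of_mem _ hφ
      · intro φ hφ ψ hψ h
        have h2 := congrArg Prod.fst h
        have h3 := congrArg Prod.snd h
        have hφ' := hE'mem φ hφ
        have hψ' := hE'mem ψ hψ
        refine PAIR_inj (hdiag φ hφ'.1) (hdiag ψ hψ'.1) ?_ (by rw [← hW]; exact h2) h3
        rw [(hEP φ hφ'.1).1, (hEP ψ hψ'.1).1]
    have hsumu : (p : ℝ) ≤ ∑ i, eL g (Lu i) := by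
      rw [← (hE'mem φ₁ hφ₁).2.1]
      exact hsum_ge φ₁ (hE'mem φ₁ hφ₁).1 u
    have hsumv : (p : ℝ) ≤ ∑ i, eL g (Lv i) := by
      rw [← (hE'mem φ₁ hφ₁).2.2]
      exact hsum_ge φ₁ (hE'mem φ₁ hφ₁).1 v
    have himg : ((E'.image (PAIR_star W u v)).card : ℝ) ≤
        (r : ℝ) ^ ((2 * (1 - 1 / g) - κ₂) * n) := by
      by_cases hcase : ∑ i, eL g (Lu i) ≤ p ∧ ∑ i, eL g (Lv i) ≤ p
      · -- gain
        obtain ⟨hcu, hcv⟩ := hcase
        have h1 := hgain p hp1 hpk.le Q hBalg W Nu Nv hWcard Lu Lv (E'.image (PAIR_star W u v))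
          (by
            intro z hz
            obtain ⟨φ, hφ, rfl⟩ := mem_image.1 hz
            obtain ⟨hφE, hLu, hLv⟩ := hE'mem φ hφ
            have hsp := hSP φ hφE εg (hε₂0.trans (min_le_right _ _))
            rw [hLu, hLv] at hsp
            refine ⟨hsp, ?_⟩
            by_contra hlow
            apply (hEP φ hφE).2
            have e1 := hclone φ hφE u (by rw [hLu]; exact hcu)
            have e2 := hclone φ hφE v (by rw [hLv]; exact hcv)
            rw [← hLu, ← hLv] at hlow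
            rw [hW] at e1 e2 hlow
            exact PAIR_fine H hS hA hembb hLDb (hcols φ hφE).2 (hEP φ hφE).1 e1 e2 hlow)
        refine h1.trans ?_
        apply Real.rpow_le_rpow_of_exponent_le hr1.le
        apply mul_le_mul_of_nonneg_right _ hn0
        have h2 : 2 / g ≤ (∑ i, eL g (Lu i) + ∑ i, eL g (Lv i)) / (g * p) := by
          rw [div_le_div_iff₀ hg (by positivity)]
          nlinarith
        have h3 : κ₂ ≤ κg := by rw [hκ₂]; exact min_le_right _ _
        have h4 : 2 * (1 - 1 / g) = 2 - 2 / g := by ring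
        linarith
      · -- count
        have h1 := hcount p hp1 hpk.le Q hBalc W Nu Nv Lu Lv (E'.image (PAIR_star W u v))
          (by
            intro z hz
            obtain ⟨φ, hφ, rfl⟩ := mem_image.1 hz
            obtain ⟨hφE, hLu, hLv⟩ := hE'mem φ hφ
            have hsp := hSP φ hφE εc (hε₂0.trans (min_le_left _ _))
            rw [hLu, hLv] at hsp
            exact hsp)
        refine h1.trans ?_
        apply Real.rpow_le_rpow_of_exponent_le hr1.le
        apply mul_le_mul_of_nonneg_right _ hn0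
        have hsum2 : 2 * (p : ℝ) + κ₁ ≤ ∑ i, eL g (Lu i) + ∑ i, eL g (Lv i) := by
          by_cases hu : ∑ i, eL g (Lu i) ≤ p
          · have hv : (p : ℝ) < ∑ i, eL g (Lv i) := by
              by_contra h
              exact hcase ⟨hu, not_lt.mp h⟩
            have := hgap' Lv hv
            linarith
          · have := hgap' Lu (not_le.mp hu)
            linarith
        have h2 : 2 / g + κ₁ / (g * k) ≤
            (∑ i, eL g (Lu i) + ∑ i, eL g (Lv i)) / (g * p) := by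
          have h5 : (2 * (p : ℝ) + κ₁) / (g * p) ≤
              (∑ i, eL g (Lu i) + ∑ i, eL g (Lv i)) / (g * p) := by gcongr
          have h6 : κ₁ / (g * k) ≤ κ₁ / (g * p) := by
            gcongr
          have h7 : (2 * (p : ℝ) + κ₁) / (g * p) = 2 / g + κ₁ / (g * p) := by
            field_simp
          linarith
        have h3 : κ₂ ≤ κ₁ / (2 * (g * k)) := by rw [hκ₂]; exact min_le_left _ _
        have h4 : 2 * (1 - 1 / g) = 2 - 2 / g := by ring
        have h8 : κ₁ / (g * k) = 2 * (κ₁ / (2 * (g * k))) := by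
          field_simp
        linarith
    calc (E'.card : ℝ) ≤ ((E'.image (PAIR_star W u v)).card : ℝ) * ((r : ℝ) + 1) := by
          exact_mod_cast hcardE'
      _ ≤ (r : ℝ) ^ ((2 * (1 - 1 / g) - κ₂) * n) * ((r : ℝ) + 1) := by gcongr
      _ = _ := by ring
  -- sum over profiles
  have hsum : E.card = ∑ x : (Fin p → Finset (Fin r)) × (Fin p → Finset (Fin r)),
      (E.filter fun φ => PAIR_prof W ε₂ φ Q u = x.1 ∧ PAIR_prof W ε₂ φ Q v = x.2).card := by
    rw [card_eq_sum_card_fiberwise (s := E)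
      (t := (univ : Finset ((Fin p → Finset (Fin r)) × (Fin p → Finset (Fin r)))))
      (f := fun φ => (PAIR_prof W ε₂ φ Q u, PAIR_prof W ε₂ φ Q v))
      (fun φ _ => by simp)]
    apply sum_congr rfl
    intro x _
    congr 1
    apply filter_congr
    intro φ _
    rw [Prod.ext_iff]
  have hcardL : ((Fintype.card ((Fin p → Finset (Fin r)) × (Fin p → Finset (Fin r))) : ℕ) : ℝ) ≤
      (((2 : ℝ) ^ r) ^ k) ^ 2 := by
    rw [Fintype.card_prod, Fintype.card_fun, Fintype.card_finset, Fintype.card_fin,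
      Fintype.card_fin]
    push_cast
    rw [← pow_two]
    have h1 : (1 : ℝ) ≤ (2 : ℝ) ^ r := one_le_pow₀ (by norm_num)
    have h2 : ((2 : ℝ) ^ r) ^ p ≤ ((2 : ℝ) ^ r) ^ k := pow_le_pow_right₀ h1 hpk.le
    gcongr
  have hX0 : 0 ≤ ((r : ℝ) + 1) * (r : ℝ) ^ ((2 * (1 - 1 / g) - κ₂) * n) := by positivity
  calc (E.card : ℝ) = ∑ x : (Fin p → Finset (Fin r)) × (Fin p → Finset (Fin r)),
      ((E.filter fun φ => PAIR_prof W ε₂ φ Q u = x.1 ∧ PAIR_prof W ε₂ φ Q v = x.2).card : ℝ) := by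
        rw [hsum]
        push_cast
        rfl
    _ ≤ ∑ _x : (Fin p → Finset (Fin r)) × (Fin p → Finset (Fin r)),
        ((r : ℝ) + 1) * (r : ℝ) ^ ((2 * (1 - 1 / g) - κ₂) * n) :=
        sum_le_sum fun x _ => hfix x.1 x.2
    _ = (Fintype.card ((Fin p → Finset (Fin r)) × (Fin p → Finset (Fin r))) : ℝ) *
        (((r : ℝ) + 1) * (r : ℝ) ^ ((2 * (1 - 1 / g) - κ₂) * n)) := by
        rw [sum_const, card_univ, nsmul_eq_mul]
    _ ≤ (((2 : ℝ) ^ r) ^ k) ^ 2 * (((r : ℝ) + 1) * (r : ℝ) ^ ((2 * (1 - 1 / g) - κ₂) * n)) :=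
        mul_le_mul_of_nonneg_right hcardL hX0
    _ = (((r : ℝ) + 1) * (((2 : ℝ) ^ r) ^ k) ^ 2) *
        (r : ℝ) ^ ((2 * (1 - 1 / g) - κ₂) * n) := by ring
    _ ≤ (r : ℝ) ^ (κ₂ / 2 * n) * (r : ℝ) ^ ((2 * (1 - 1 / g) - κ₂) * n) := by gcongr
    _ = (r : ℝ) ^ ((2 * (1 - 1 / g) - κ₂ / 2) * n) := by
        rw [← Real.rpow_add hr0]
        congr 1
        ring

end Pool.ER
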