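import Mathlib
import Pool.Agent.ER.Defs

set_option autoImplicit false

/-!
# Property A, module UNI: two optimal structures of the same colouring agree
-/

open Finset Filter

namespace Pool.ER

theorem UNI_shape {k s r d : ℕ} {g : ℝ} (H : Par k s r d g) {p a : ℕ} (hS : Shape k d r g p a) :
    1 ≤ p ∧ p ≤ k ∧ a < r := by
  have hk := H.hk
  have hsd := H.hsd
  have hsr := H.hsr
  have hs := H.hs
  have hd := H.hd
  rcases hS with ⟨_, hp1, hp2, hI, _, _⟩ | ⟨ha, hp, _⟩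
  · refine ⟨hp1, by omega, ?_⟩
    have h1 : Ik k (p : ℝ) ≤ ∑ l ∈ range k, l := by
      unfold Ik
      refine Finset.sum_le_sum fun l _ => ?_
      have h2 : (l : ℝ) / (p : ℝ) ≤ l := by
        have hp' : (1 : ℝ) ≤ p := by exact_mod_cast hp1
        exact div_le_self (Nat.cast_nonneg l) hp'
      calc ⌊(l : ℝ) / (p : ℝ)⌋₊ ≤ ⌊(l : ℝ)⌋₊ := Nat.floor_le_floor h2
        _ = l := Nat.floor_natCast l
    rw [Finset.sum_range_id, ← Nat.choose_two_right] at h1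
    omega
  · subst ha
    omega

/-- allowed colours between two large sets produce defects of the other structure -/
theorem UNI_defect {n p p' r : ℕ} {W : Finset (Fin n)} {φ : CG (Fin n) r} {Q : Fin n → Fin p}
    {A : Finset (Fin r)} {Q' : Fin n → Fin p'} {A' : Finset (Fin r)} {ε γ : ℝ} (hε : 0 < ε)
    (hγ : 0 < γ) (hLD : LDW W ε γ φ Q A) (X Y : Finset (Fin n)) (hX : X ⊆ W) (hY : Y ⊆ W)
    (hXY : Disjoint X Y) (hXc : ε * n ≤ X.card) (hYc : ε * n ≤ Y.card) (i₁ i₂ : Fin p)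
    (hX1 : ∀ x ∈ X, Q x = i₁) (hY1 : ∀ y ∈ Y, Q y = i₂) (j : Fin p') (hX2 : ∀ x ∈ X, Q' x = j)
    (hY2 : ∀ y ∈ Y, Q' y = j) (c : Fin r) (hc : c ∈ pureL A i₁ i₂) (hc' : c ∉ A') :
    γ * ε ^ 2 * (n : ℝ) ^ 2 ≤ defect φ Q' A' := by
  have h1 := hLD X Y hX hY hXY hXc hYc i₁ i₂ hX1 hY1 c hc
  have h2 : ((X ×ˢ Y).filter fun z => φ s(z.1, z.2) = some c).card ≤ defect φ Q' A' := by
    unfold defect
    refine Finset.card_le_card ?_
    intro z hz
    simp only [Finset.mem_filter, Finset.mem_product, Finset.mem_univ, true_and] at hz ⊢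
    exact ⟨by rw [hX2 _ hz.1.1, hY2 _ hz.1.2], c, hc', hz.2⟩
  have h3 : (((X ×ˢ Y).filter fun z => φ s(z.1, z.2) = some c).card : ℝ) ≤ defect φ Q' A' := by
    exact_mod_cast h2
  have hn : (0 : ℝ) ≤ ε * n := by positivity
  have h4 : γ * ε ^ 2 * (n : ℝ) ^ 2 ≤ γ * X.card * Y.card := by
    have : γ * ε ^ 2 * (n : ℝ) ^ 2 = γ * (ε * n) * (ε * n) := by ring
    rw [this]
    have h5 : γ * (ε * n) ≤ γ * X.card := mul_le_mul_of_nonneg_left hXc hγ.le
    exact mul_le_mul h5 hYc hn (by positivity)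
  linarith

/-- cells -/
def UNI_cell {n p p' : ℕ} (W : Finset (Fin n)) (Q : Fin n → Fin p) (Q' : Fin n → Fin p')
    (i : Fin p) (j : Fin p') : Finset (Fin n) := W.filter fun x => Q x = i ∧ Q' x = j

theorem UNI_cell_swap {n p p' : ℕ} (W : Finset (Fin n)) (Q : Fin n → Fin p) (Q' : Fin n → Fin p')
    (i : Fin p) (j : Fin p') : UNI_cell W Q' Q j i = UNI_cell W Q Q' i j := by
  unfold UNI_cell
  ext x
  simp only [Finset.mem_filter]
  tauto

/-- at most one big cell for every class of the second structure -/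
theorem UNI_unique {n p p' r : ℕ} {W : Finset (Fin n)} {φ : CG (Fin n) r} {Q : Fin n → Fin p}
    {A : Finset (Fin r)} {Q' : Fin n → Fin p'} {A' : Finset (Fin r)} {ε γ τ : ℝ} (hε : 0 < ε)
    (hγ : 0 < γ) (hn : 0 < n) (hLD : LDW W ε γ φ Q A) (hA' : A'.card < r)
    (hτ : τ < γ * ε ^ 2) (hdef : (defect φ Q' A' : ℝ) ≤ τ * (n : ℝ) ^ 2) (i₁ i₂ : Fin p)
    (j : Fin p') (h1 : ε * n ≤ (UNI_cell W Q Q' i₁ j).card)
    (h2 : ε * n ≤ (UNI_cell W Q Q' i₂ j).card) : i₁ = i₂ := by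
  by_contra hne
  obtain ⟨c, hc⟩ : ∃ c, c ∉ A' := by
    by_contra hall
    push Not at hall
    have : A' = univ := Finset.eq_univ_of_forall hall
    rw [this, Finset.card_univ, Fintype.card_fin] at hA'
    omega
  have h3 := UNI_defect (Q' := Q') (A' := A') hε hγ hLD (UNI_cell W Q Q' i₁ j)
    (UNI_cell W Q Q' i₂ j) (Finset.filter_subset _ _) (Finset.filter_subset _ _)
    (by
      rw [Finset.disjoint_left]
      intro x hx hx'
      simp only [UNI_cell, Finset.mem_filter] at hx hx'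
      exact hne (hx.2.1.symm.trans hx'.2.1))
    h1 h2 i₁ i₂ (fun x hx => (Finset.mem_filter.1 hx).2.1) (fun x hx => (Finset.mem_filter.1 hx).2.1)
    j (fun x hx => (Finset.mem_filter.1 hx).2.2) (fun x hx => (Finset.mem_filter.1 hx).2.2) c
    (by rw [pureL, if_neg hne]; exact Finset.mem_univ c) hc
  have hn2 : (0 : ℝ) < (n : ℝ) ^ 2 := by positivity
  have := mul_lt_mul_of_pos_right hτ hn2
  linarith

/-- the sum of the cells of a class -/
theorem UNI_sum {n p p' : ℕ} (W : Finset (Fin n)) (Q : Fin n → Fin p) (Q' : Fin n → Fin p')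
    (i : Fin p) : (W.filter fun x => Q x = i).card = ∑ j, (UNI_cell W Q Q' i j).card := by
  rw [Finset.card_eq_sum_card_fiberwise (f := Q') (t := univ)
    (by intro x _; exact Finset.mem_coe.2 (Finset.mem_univ _))]
  refine Finset.sum_congr rfl fun j _ => ?_
  unfold UNI_cell
  congr 1
  ext x
  simp only [Finset.mem_filter]
  tauto

/-- classes are large on `W` -/
theorem UNI_class {n p k : ℕ} (W : Finset (Fin n)) (hW : n - 2 ≤ W.card) (Q : Fin n → Fin p)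
    (hp : 1 ≤ p) (hpk : p ≤ k) {ε τ : ℝ} (hτε : τ ≤ ε) (hε1 : ε * (8 * k ^ 2) ≤ 1)
    (hn : 2 ≤ ε * n) (hB : Bal τ Q) (i : Fin p) :
    (8 * k - 2) * ε * n ≤ ((W.filter fun x => Q x = i).card : ℝ) := by
  have h1 := (abs_le.1 (hB i)).1
  have h2 : (univ.filter fun u => Q u = i).card ≤ (W.filter fun x => Q x = i).card + 2 := by
    have h3 : (univ.filter fun u => Q u = i) ⊆ (W.filter fun x => Q x = i) ∪ Wᶜ := by
      intro x hx
      simp only [Finset.mem_filter, Finset.mem_univ, true_and, Finset.mem_union,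
        Finset.mem_compl] at hx ⊢
      tauto
    have h4 := (Finset.card_le_card h3).trans (Finset.card_union_le _ _)
    rw [Finset.card_compl, Fintype.card_fin] at h4
    omega
  have h3 : ((univ.filter fun u => Q u = i).card : ℝ) ≤ (W.filter fun x => Q x = i).card + 2 := by
    exact_mod_cast h2
  have hp' : (0 : ℝ) < p := by exact_mod_cast hp
  have hpk' : (p : ℝ) ≤ k := by exact_mod_cast hpk
  have hk' : (0 : ℝ) < k := lt_of_lt_of_le hp' hpk'
  have hn0 : (0 : ℝ) ≤ n := Nat.cast_nonneg n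
  have h4 : 8 * k * ε * n ≤ (n : ℝ) / p := by
    rw [le_div_iff₀ hp']
    have h5 : 8 * k * ε * n * p ≤ 8 * k * ε * n * k := by
      apply mul_le_mul_of_nonneg_left hpk'
      have : 0 ≤ ε * n := by linarith
      have h6 : 8 * k * ε * n = 8 * k * (ε * n) := by ring
      rw [h6]
      positivity
    have h6 : 8 * k * ε * n * k = ε * (8 * k ^ 2) * n := by ring
    have h7 : ε * (8 * k ^ 2) * n ≤ 1 * n := mul_le_mul_of_nonneg_right hε1 hn0
    linarith
  have h5 : τ * n ≤ ε * n := mul_le_mul_of_nonneg_right hτε hn0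
  have h6 : (8 * (k : ℝ) - 2) * ε * n = 8 * k * ε * n - 2 * (ε * n) := by ring
  rw [h6]
  linarith

/-- every class has a big cell -/
theorem UNI_exists {n p p' k : ℕ} (W : Finset (Fin n)) (hW : n - 2 ≤ W.card) (Q : Fin n → Fin p)
    (Q' : Fin n → Fin p') (hp : 1 ≤ p) (hpk : p ≤ k) (hpk' : p' ≤ k) {ε τ : ℝ} (hτε : τ ≤ ε)
    (hε1 : ε * (8 * k ^ 2) ≤ 1) (hn : 2 ≤ ε * n) (hB : Bal τ Q) (i : Fin p) :
    ∃ j, ε * n ≤ (UNI_cell W Q Q' i j).card := by
  by_contra hcon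
  push Not at hcon
  have h1 := UNI_class W hW Q hp hpk hτε hε1 hn hB i
  rw [UNI_sum W Q Q' i] at h1
  push_cast at h1
  have h2 : ∑ j : Fin p', ((UNI_cell W Q Q' i j).card : ℝ) ≤ ∑ _j : Fin p', ε * n :=
    Finset.sum_le_sum fun j _ => (hcon j).le
  rw [Finset.sum_const, Finset.card_univ, Fintype.card_fin, nsmul_eq_mul] at h2
  have hpk'' : (p' : ℝ) ≤ k := by exact_mod_cast hpk'
  have h3 : (p' : ℝ) * (ε * n) ≤ k * (ε * n) := mul_le_mul_of_nonneg_right hpk'' (by linarith)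
  have hk1 : (1 : ℝ) ≤ k := by exact_mod_cast (hp.trans hpk)
  have h4 : (8 * (k : ℝ) - 2) * ε * n = 8 * (k * (ε * n)) - 2 * (ε * n) := by ring
  have h5 : ε * n ≤ k * (ε * n) := by nlinarith
  rw [h4] at h1
  linarith

/-- one inclusion of the palettes -/
theorem UNI_palette {n p p' k r : ℕ} {W : Finset (Fin n)} {φ : CG (Fin n) r} {Q : Fin n → Fin p}
    {A : Finset (Fin r)} {Q' : Fin n → Fin p'} {A' : Finset (Fin r)} {ε γ τ : ℝ} (hε : 0 < ε)
    (hγ : 0 < γ) (hn0 : 0 < n) (hLD : LDW W ε γ φ Q A)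
    (hτ : τ < γ * ε ^ 2) (hdef : (defect φ Q' A' : ℝ) ≤ τ * (n : ℝ) ^ 2)
    (hW : n - 2 ≤ W.card) (hp : 1 ≤ p) (hpk : p ≤ k) (hpk' : p' ≤ k) (hk : 3 ≤ k) (hτε : τ ≤ ε)
    (hε1 : ε * (8 * k ^ 2) ≤ 1) (hn : 2 ≤ ε * n) (hB : Bal τ Q) (i : Fin p) (j : Fin p')
    (hsmall : ∀ j', j' ≠ j → ((UNI_cell W Q Q' i j').card : ℝ) ≤ ε * n) : A ⊆ A' := by
  intro c hc
  by_contra hc'
  have h1 := UNI_class W hW Q hp hpk hτε hε1 hn hB i
  rw [UNI_sum W Q Q' i, ← Finset.add_sum_erase _ _ (Finset.mem_univ j)] at h1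
  push_cast at h1
  have h2 : ∑ j' ∈ univ.erase j, ((UNI_cell W Q Q' i j').card : ℝ) ≤
      ∑ _j' ∈ univ.erase j, ε * n :=
    Finset.sum_le_sum fun j' hj' => hsmall j' (Finset.ne_of_mem_erase hj')
  rw [Finset.sum_const, Finset.card_erase_of_mem (Finset.mem_univ j), Finset.card_univ,
    Fintype.card_fin, nsmul_eq_mul] at h2
  have hpk'' : ((p' - 1 : ℕ) : ℝ) ≤ k := by exact_mod_cast (by omega : p' - 1 ≤ k)
  have hεn : 0 < ε * n := by linarith
  have h3 : ((p' - 1 : ℕ) : ℝ) * (ε * n) ≤ k * (ε * n) :=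
    mul_le_mul_of_nonneg_right hpk'' hεn.le
  have hk3 : (3 : ℝ) ≤ k := by exact_mod_cast hk
  have h4 : (8 * (k : ℝ) - 2) * ε * n = 8 * (k * (ε * n)) - 2 * (ε * n) := by ring
  have h5 : 3 * (ε * n) ≤ k * (ε * n) := mul_le_mul_of_nonneg_right hk3 hεn.le
  rw [h4] at h1
  have hbig : 19 * (ε * n) ≤ ((UNI_cell W Q Q' i j).card : ℝ) := by linarith
  -- halves
  have hceil : ⌈ε * n⌉₊ ≤ (UNI_cell W Q Q' i j).card := by
    rw [Nat.ceil_le]
    linarith
  obtain ⟨X, hXsub, hXcard⟩ := Finset.exists_subset_card_eq hceil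
  have hXc : ε * n ≤ (X.card : ℝ) := by
    rw [hXcard]; exact Nat.le_ceil _
  have hXc' : (X.card : ℝ) < ε * n + 1 := by
    rw [hXcard]; exact Nat.ceil_lt_add_one hεn.le
  have hYc : ε * n ≤ ((UNI_cell W Q Q' i j \ X).card : ℝ) := by
    have h6 : (UNI_cell W Q Q' i j \ X).card + X.card = (UNI_cell W Q Q' i j).card :=
      Finset.card_sdiff_add_card_eq_card hXsub
    have h7 : ((UNI_cell W Q Q' i j \ X).card : ℝ) + X.card = (UNI_cell W Q Q' i j).card := by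
      exact_mod_cast h6
    linarith
  have h8 := UNI_defect (Q' := Q') (A' := A') hε hγ hLD X (UNI_cell W Q Q' i j \ X)
    (hXsub.trans (Finset.filter_subset _ _)) (Finset.sdiff_subset.trans (Finset.filter_subset _ _))
    Finset.disjoint_sdiff hXc hYc i i (fun x hx => (Finset.mem_filter.1 (hXsub hx)).2.1)
    (fun x hx => (Finset.mem_filter.1 (Finset.sdiff_subset hx)).2.1) j
    (fun x hx => (Finset.mem_filter.1 (hXsub hx)).2.2)
    (fun x hx => (Finset.mem_filter.1 (Finset.sdiff_subset hx)).2.2) c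
    (by rw [pureL, if_pos rfl]; exact hc) hc'
  have hn2 : (0 : ℝ) < (n : ℝ) ^ 2 := by positivity
  have := mul_lt_mul_of_pos_right hτ hn2
  linarith

theorem uni {k s r d : ℕ} {g : ℝ} (H : Par k s r d g) {γ : ℝ} (hγ : 0 < γ) {ε : ℝ} (hε : 0 < ε)
    (hε1 : ε * (8 * k ^ 2) ≤ 1) :
    ∃ τ : ℝ, 0 < τ ∧ ∀ᶠ n : ℕ in atTop, ∀ W : Finset (Fin n), n - 2 ≤ W.card →
      ∀ φ : CG (Fin n) r, ∀ p a p' a' : ℕ, Shape k d r g p a → Shape k d r g p' a' →
      ∀ (Q : Fin n → Fin p) (A : Finset (Fin r)) (Q' : Fin n → Fin p') (A' : Finset (Fin r)),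
      A.card = a → A'.card = a' → Bal τ Q → Bal τ Q' →
      (defect φ Q A : ℝ) ≤ τ * (n : ℝ) ^ 2 → (defect φ Q' A' : ℝ) ≤ τ * (n : ℝ) ^ 2 →
      LDW W ε γ φ Q A → LDW W ε γ φ Q' A' →
      A = A' ∧ ∃ σ : Fin p ≃ Fin p',
        ((W.filter fun x => Q' x ≠ σ (Q x)).card : ℝ) ≤ (k : ℝ) ^ 2 * ε * n := by
  have hk := H.hk
  refine ⟨min (γ * ε ^ 2 / 2) ε, by positivity, ?_⟩
  filter_upwards [eventually_gt_atTop 0, eventually_ge_atTop ⌈2 / ε⌉₊] with n hn0 hn1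
  intro W hW φ p a p' a' hS hS' Q A Q' A' hA hA' hB hB' hdef hdef' hLD hLD'
  set τ := min (γ * ε ^ 2 / 2) ε with hτdef
  have hτ : τ < γ * ε ^ 2 := by
    refine lt_of_le_of_lt (min_le_left _ _) ?_
    have : 0 < γ * ε ^ 2 := by positivity
    linarith
  have hτε : τ ≤ ε := min_le_right _ _
  have hn : 2 ≤ ε * n := by
    have h1 : 2 / ε ≤ n := (Nat.le_ceil _).trans (by exact_mod_cast hn1)
    rw [div_le_iff₀ hε] at h1
    linarith
  obtain ⟨hp, hpk, har⟩ := UNI_shape H hS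
  obtain ⟨hp', hpk', har'⟩ := UNI_shape H hS'
  -- big cells
  have hex := UNI_exists W hW Q Q' hp hpk hpk' hτε hε1 hn hB
  have hex' := UNI_exists W hW Q' Q hp' hpk' hpk hτε hε1 hn hB'
  choose f hf using hex
  have huniq : ∀ i₁ i₂ j, ε * n ≤ (UNI_cell W Q Q' i₁ j).card →
      ε * n ≤ (UNI_cell W Q Q' i₂ j).card → i₁ = i₂ := fun i₁ i₂ j =>
    UNI_unique hε hγ hn0 hLD (by omega) hτ hdef' i₁ i₂ j
  have huniq' : ∀ j₁ j₂ i, ε * n ≤ (UNI_cell W Q Q' i j₁).card →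
      ε * n ≤ (UNI_cell W Q Q' i j₂).card → j₁ = j₂ := by
    intro j₁ j₂ i h1 h2
    refine UNI_unique (W := W) (Q := Q') (Q' := Q) hε hγ hn0 hLD' (by omega) hτ hdef j₁ j₂ i ?_ ?_
    · rw [UNI_cell_swap]; exact h1
    · rw [UNI_cell_swap]; exact h2
  have hbij : Function.Bijective f := by
    constructor
    · intro i₁ i₂ h
      exact huniq i₁ i₂ (f i₁) (hf i₁) (h ▸ hf i₂)
    · intro j
      obtain ⟨i, hi⟩ := hex' j
      rw [UNI_cell_swap] at hi
      exact ⟨i, huniq' _ _ i (hf i) hi⟩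
  let σ : Fin p ≃ Fin p' := Equiv.ofBijective f hbij
  have hsmall : ∀ i j, j ≠ f i → ((UNI_cell W Q Q' i j).card : ℝ) ≤ ε * n := by
    intro i j hj
    by_contra hcon
    push Not at hcon
    exact hj (huniq' j (f i) i hcon.le (hf i))
  have hsmall' : ∀ j i, i ≠ σ.symm j → ((UNI_cell W Q' Q j i).card : ℝ) ≤ ε * n := by
    intro j i hi
    rw [UNI_cell_swap]
    apply hsmall
    intro h
    apply hi
    rw [Equiv.eq_symm_apply]
    exact h.symm
  refine ⟨?_, σ, ?_⟩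
  · apply Finset.Subset.antisymm
    · exact UNI_palette hε hγ hn0 hLD hτ hdef' hW hp hpk hpk' hk hτε hε1 hn hB ⟨0, hp⟩ (f ⟨0, hp⟩)
        (hsmall ⟨0, hp⟩)
    · exact UNI_palette hε hγ hn0 hLD' hτ hdef hW hp' hpk' hpk hk hτε hε1 hn hB' ⟨0, hp'⟩
        (σ.symm ⟨0, hp'⟩) (hsmall' ⟨0, hp'⟩)
  · have hsub : (W.filter fun x => Q' x ≠ σ (Q x)) ⊆
        ((univ : Finset (Fin p × Fin p')).filter fun q => q.2 ≠ f q.1).biUnion
          fun q => UNI_cell W Q Q' q.1 q.2 := by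
      intro x hx
      rw [Finset.mem_filter] at hx
      rw [Finset.mem_biUnion]
      exact ⟨(Q x, Q' x), Finset.mem_filter.2 ⟨Finset.mem_univ _, hx.2⟩,
        Finset.mem_filter.2 ⟨hx.1, rfl, rfl⟩⟩
    have h1 : ((W.filter fun x => Q' x ≠ σ (Q x)).card : ℝ) ≤
        ∑ q ∈ (univ : Finset (Fin p × Fin p')).filter fun q => q.2 ≠ f q.1,
          ((UNI_cell W Q Q' q.1 q.2).card : ℝ) := by
      exact_mod_cast (Finset.card_le_card hsub).trans Finset.card_biUnion_le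
    refine h1.trans ?_
    have h2 : ∑ q ∈ (univ : Finset (Fin p × Fin p')).filter fun q => q.2 ≠ f q.1,
          ((UNI_cell W Q Q' q.1 q.2).card : ℝ) ≤
        ∑ _q ∈ (univ : Finset (Fin p × Fin p')).filter fun q => q.2 ≠ f q.1, ε * n :=
      Finset.sum_le_sum fun q hq => hsmall q.1 q.2 (Finset.mem_filter.1 hq).2
    refine h2.trans ?_
    rw [Finset.sum_const, nsmul_eq_mul]
    have h3 : ((univ : Finset (Fin p × Fin p')).filter fun q => q.2 ≠ f q.1).card ≤ k * k := by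
      refine (Finset.card_filter_le _ _).trans ?_
      rw [Finset.card_univ, Fintype.card_prod, Fintype.card_fin, Fintype.card_fin]
      exact Nat.mul_le_mul hpk hpk'
    have h4 : (((univ : Finset (Fin p × Fin p')).filter fun q => q.2 ≠ f q.1).card : ℝ) ≤
        (k : ℝ) ^ 2 := by
      rw [sq]
      exact_mod_cast h3
    have h5 : (0 : ℝ) ≤ ε * n := by linarith
    calc (((univ : Finset (Fin p × Fin p')).filter fun q => q.2 ≠ f q.1).card : ℝ) * (ε * n)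
        ≤ (k : ℝ) ^ 2 * (ε * n) := mul_le_mul_of_nonneg_right h4 h5
      _ = (k : ℝ) ^ 2 * ε * n := by ring

end Pool.ER
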