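import Mathlib
import Pool.Agent.ER.Defs
import Pool.Agent.ER.NEAR
import Pool.Agent.ER.LDC
import Pool.Agent.ER.PAIR
import Pool.Agent.ER.UNI
import Pool.Agent.ER.GLO
import Pool.Agent.ER.RES

set_option autoImplicit false

open Finset Filter

namespace Pool.ER

theorem EXA_fiber {k s r n : ℕ} (hk : 2 ≤ k) (G : SimpleGraph (Fin n)) (W : Finset (Fin n))
    (E : Finset (CG (Fin n) r)) (hE : E ⊆ cols k s r G) {B : ℝ}
    (h : ∀ φ₀ : CG (Fin n) r, ((E.filter fun φ => restr W φ = φ₀).card : ℝ) ≤ B) :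
    (E.card : ℝ) ≤ cnum k s r W.card * B := by
  classical
  have hB : 0 ≤ B := (Nat.cast_nonneg _).trans (h (fun _ => none))
  have h1 : E.card = ∑ φ₀ ∈ (cols k s r G).image (restr W), (E.filter fun φ => restr W φ = φ₀).card :=
    Finset.card_eq_sum_card_fiberwise fun φ hφ => Finset.mem_image_of_mem _ (hE hφ)
  have h2 := card_image_restr_le (s := s) (r := r) hk G W
  rw [h1]
  push_cast
  calc ∑ φ₀ ∈ (cols k s r G).image (restr W), ((E.filter fun φ => restr W φ = φ₀).card : ℝ)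
      ≤ ∑ φ₀ ∈ (cols k s r G).image (restr W), B := Finset.sum_le_sum fun φ₀ _ => h φ₀
    _ = ((cols k s r G).image (restr W)).card * B := by simp
    _ ≤ _ := by gcongr

theorem EXA_restr_LDW {n p r : ℕ} {W : Finset (Fin n)} {ε γ : ℝ} {φ : CG (Fin n) r}
    {Q : Fin n → Fin p} {A : Finset (Fin r)} (h : LDW univ ε γ φ Q A) :
    LDW W ε γ (restr W φ) Q A := by
  intro X Y hX hY hd hx hy i j hi hj c hc
  refine (h X Y (subset_univ _) (subset_univ _) hd hx hy i j hi hj c hc).trans ?_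
  apply le_of_eq
  congr 2
  apply Finset.filter_congr
  intro z hz
  rw [Finset.mem_product] at hz
  have : s(z.1, z.2) ∈ W.sym2 := by
    rw [Finset.mk_mem_sym2_iff]
    exact ⟨hX hz.1, hY hz.2⟩
  simp [restr, this]

theorem EXA_restr_defect {n p r : ℕ} {W : Finset (Fin n)} {φ : CG (Fin n) r}
    {Q : Fin n → Fin p} {A : Finset (Fin r)} : defect (restr W φ) Q A ≤ defect φ Q A := by
  unfold defect
  apply Finset.card_le_card
  intro x hx
  simp only [mem_filter, mem_univ, true_and] at hx ⊢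
  obtain ⟨h1, c, hc, h2⟩ := hx
  refine ⟨h1, c, hc, ?_⟩
  unfold restr at h2
  split_ifs at h2 with h3
  exact h2

theorem EXA_core {n p r : ℕ} (hn : 2 ≤ n) (φ : CG (Fin n) r) (Q : Fin n → Fin p)
    (A : Finset (Fin r)) (hA : ∃ c, c ∉ A) {ε₂ γ₂ ρ : ℝ}
    (h1 : (ε₂ + ρ) * n + 2 < γ₂ / 2 * n) (h2 : γ₂ / 2 * n ≤ (γ₂ - ρ) * n)
    (h : ∀ u v : Fin n, u ≠ v → ∃ (p' : ℕ) (Q' : Fin n → Fin p') (σ : Fin p ≃ Fin p'),
      (((univ \ {u, v} : Finset (Fin n)).filter fun x => Q' x ≠ σ (Q x)).card : ℝ) ≤ ρ * n ∧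
      Fine (univ \ {u, v}) ε₂ γ₂ φ Q' A u v) :
    ∃ Q'' : Fin n → Fin p, Pure φ Q'' A := by
  classical
  obtain ⟨c₀, hc₀⟩ := hA
  -- comparison of counts
  have key1 : ∀ u v : Fin n, ∀ (p' : ℕ) (Q' : Fin n → Fin p') (σ : Fin p ≃ Fin p'),
      (((univ \ {u, v} : Finset (Fin n)).filter fun x => Q' x ≠ σ (Q x)).card : ℝ) ≤ ρ * n →
      ∀ (x : Fin n) (i : Fin p) (c : Fin r),
      (cnt univ φ Q x i c : ℝ) ≤ cnt (univ \ {u, v}) φ Q' x (σ i) c + ρ * n + 2 := by
    intro u v p' Q' σ hσ x i c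
    have h3 : cnt univ φ Q x i c ≤ cnt (univ \ {u, v}) φ Q' x (σ i) c +
        ((univ \ {u, v} : Finset (Fin n)).filter fun x => Q' x ≠ σ (Q x)).card +
        ({u, v} : Finset (Fin n)).card := by
      unfold cnt
      refine le_trans (Finset.card_le_card ?_) ((Finset.card_union_le _ _).trans
        (Nat.add_le_add_right (Finset.card_union_le _ _) _))
      intro w hw
      simp only [mem_filter, mem_univ, true_and, Finset.mem_union, Finset.mem_sdiff] at hw ⊢
      by_cases h4 : w ∈ ({u, v} : Finset (Fin n))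
      · right; exact h4
      · left
        by_cases h5 : Q' w = σ (Q w)
        · left; exact ⟨h4, by rw [h5, hw.1], hw.2⟩
        · right; exact ⟨h4, h5⟩
    have h4 : ({u, v} : Finset (Fin n)).card ≤ 2 := Finset.card_le_two
    have h5 : (cnt univ φ Q x i c : ℝ) ≤ cnt (univ \ {u, v}) φ Q' x (σ i) c +
        ((univ \ {u, v} : Finset (Fin n)).filter fun x => Q' x ≠ σ (Q x)).card +
        ({u, v} : Finset (Fin n)).card := by exact_mod_cast h3
    have h6 : (({u, v} : Finset (Fin n)).card : ℝ) ≤ 2 := by exact_mod_cast h4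
    linarith
  have key2 : ∀ u v : Fin n, ∀ (p' : ℕ) (Q' : Fin n → Fin p') (σ : Fin p ≃ Fin p'),
      (((univ \ {u, v} : Finset (Fin n)).filter fun x => Q' x ≠ σ (Q x)).card : ℝ) ≤ ρ * n →
      ∀ (x : Fin n) (i : Fin p) (c : Fin r),
      (cnt (univ \ {u, v}) φ Q' x (σ i) c : ℝ) ≤ cnt univ φ Q x i c + ρ * n := by
    intro u v p' Q' σ hσ x i c
    have h3 : cnt (univ \ {u, v}) φ Q' x (σ i) c ≤ cnt univ φ Q x i c +
        ((univ \ {u, v} : Finset (Fin n)).filter fun x => Q' x ≠ σ (Q x)).card := by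
      unfold cnt
      refine le_trans (Finset.card_le_card ?_) (Finset.card_union_le _ _)
      intro w hw
      simp only [mem_filter, mem_univ, true_and, Finset.mem_union, Finset.mem_sdiff] at hw ⊢
      by_cases h5 : Q' w = σ (Q w)
      · left
        refine ⟨?_, hw.2.2⟩
        have := hw.2.1
        rw [h5] at this
        exact σ.injective this
      · right; exact ⟨hw.1, h5⟩
    have h5 : (cnt (univ \ {u, v}) φ Q' x (σ i) c : ℝ) ≤ cnt univ φ Q x i c +
        ((univ \ {u, v} : Finset (Fin n)).filter fun x => Q' x ≠ σ (Q x)).card := by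
      exact_mod_cast h3
    linarith
  -- the class predicate
  let P : Fin n → Fin p → Prop := fun u i => ∀ c, c ∉ A → (cnt univ φ Q u i c : ℝ) < γ₂ / 2 * n
  have hpair : ∀ u v : Fin n, u ≠ v → ∃ i j : Fin p, P u i ∧ P v j ∧
      (∀ i', P u i' → i' = i) ∧ (∀ j', P v j' → j' = j) ∧
      (i = j → ∀ c, φ s(u, v) = some c → c ∈ A) := by
    intro u v huv
    obtain ⟨p', Q', σ, hσ, iu, iv, f1, f2, f3, f4, f5⟩ := h u v huv
    refine ⟨σ.symm iu, σ.symm iv, ?_, ?_, ?_, ?_, ?_⟩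
    · intro c hc
      have h3 := key1 u v p' Q' σ hσ u (σ.symm iu) c
      rw [Equiv.apply_symm_apply] at h3
      have h4 := f1 c hc
      linarith
    · intro c hc
      have h3 := key1 u v p' Q' σ hσ v (σ.symm iv) c
      rw [Equiv.apply_symm_apply] at h3
      have h4 := f2 c hc
      linarith
    · intro i' hi'
      by_contra hne
      have h3 : σ i' ≠ iu := fun h => hne (by rw [← h, Equiv.symm_apply_apply])
      have h4 := f3 (σ i') h3 c₀
      have h5 := key2 u v p' Q' σ hσ u i' c₀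
      have h6 := hi' c₀ hc₀
      linarith
    · intro j' hj'
      by_contra hne
      have h3 : σ j' ≠ iv := fun h => hne (by rw [← h, Equiv.symm_apply_apply])
      have h4 := f4 (σ j') h3 c₀
      have h5 := key2 u v p' Q' σ hσ v j' c₀
      have h6 := hj' c₀ hc₀
      linarith
    · intro hij
      exact f5 (σ.symm.injective hij)
  have hex : ∀ u : Fin n, ∃ i, P u i := by
    intro u
    obtain ⟨v, hv⟩ : ∃ v : Fin n, u ≠ v := by
      have : Nontrivial (Fin n) := Fin.nontrivial_iff_two_le.2 hn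
      obtain ⟨v, hv⟩ := exists_ne u
      exact ⟨v, hv.symm⟩
    obtain ⟨i, j, hi, _⟩ := hpair u v hv
    exact ⟨i, hi⟩
  choose Q'' hQ'' using hex
  refine ⟨Q'', ?_⟩
  intro u v huv hQ c hc
  obtain ⟨i, j, hi, hj, hiu, hju, hij⟩ := hpair u v huv
  have h3 := hiu _ (hQ'' u)
  have h4 := hju _ (hQ'' v)
  exact hij (by rw [← h3, ← h4, hQ]) c hc

theorem EXA_Ik_le {k : ℕ} {e : ℝ} (he : 1 ≤ e) : Ik k e ≤ k.choose 2 := by
  unfold Ik
  calc ∑ l ∈ range k, ⌊(l : ℝ) / e⌋₊ ≤ ∑ l ∈ range k, l := by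
        refine Finset.sum_le_sum fun l _ => ?_
        have h1 : (l : ℝ) / e ≤ l := div_le_self (Nat.cast_nonneg _) he
        calc ⌊(l : ℝ) / e⌋₊ ≤ ⌊(l : ℝ)⌋₊ := Nat.floor_mono h1
          _ = l := Nat.floor_natCast l
    _ = k.choose 2 := by
        rw [Finset.sum_range_id, Nat.choose_two_right]

theorem EXA_shape_lt {k s r d : ℕ} {g : ℝ} (H : Par k s r d g) {p a : ℕ}
    (hS : Shape k d r g p a) : a < r := by
  have h1 := H.hsd
  have h2 := H.hsr
  have h3 := H.hs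
  rcases hS with h | h
  · have h4 := EXA_Ik_le (k := k) (e := (p : ℝ)) (by exact_mod_cast h.2.1)
    have h5 := h.2.2.2.1
    omega
  · have := h.1
    omega

theorem EXA_two {k s r d : ℕ} {g : ℝ} (H : Par k s r d g)
    (hS : ∃ p a : ℕ, Shape k d r g p a) {κ : ℝ} (hκ : 0 < κ) :
    ∀ᶠ n : ℕ in atTop, (cnum k s r (n - 2) : ℝ) * (r : ℝ) ^ ((2 * (1 - 1 / g) - κ) * n) ≤
      cnum k s r n * (r : ℝ) ^ (-(κ / 2) * n) := by
  obtain ⟨p, a, hS⟩ := hS
  have h1 := growth_lower H hS (δ := κ / 8) (by positivity)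
  obtain ⟨N, hN⟩ := eventually_atTop.1 h1
  have hk := H.hk
  have hr : (1 : ℝ) < r := by
    have := H.hs; have := H.hsr
    exact_mod_cast (by omega : 1 < r)
  have hg : 0 < g := by
    have h1 := H.hg
    have h2 : (3 : ℝ) ≤ k := by exact_mod_cast hk
    linarith
  have hlc : ∀ m, (cnum k s r m : ℝ) = (r : ℝ) ^ (lc k s r m) := by
    intro m
    have h2 : 1 ≤ cnum k s r m := one_le_cnum (by omega) (by have := H.hs; omega)
    rw [lc, Real.rpow_logb (by linarith) hr.ne' (by exact_mod_cast h2)]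
  filter_upwards [eventually_ge_atTop (N + 2), eventually_ge_atTop ⌈12 / κ⌉₊] with n hn hn2
  have hn3 : 12 / κ ≤ n := (Nat.le_ceil _).trans (by exact_mod_cast hn2)
  have hn4 : 12 ≤ κ * n := by
    rw [div_le_iff₀ hκ] at hn3
    linarith
  obtain ⟨m, rfl⟩ : ∃ m, n = m + 2 := ⟨n - 2, by omega⟩
  have e1 := hN m (by omega)
  have e2 := hN (m + 1) (by omega)
  rw [hlc, hlc, ← Real.rpow_add (by linarith), ← Real.rpow_add (by linarith)]
  apply Real.rpow_le_rpow_of_exponent_le hr.le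
  have h3 : m + 2 - 2 = m := by omega
  rw [h3]
  push_cast at *
  have e3 : 0 < 1 / g := by positivity
  have e4 : m + 1 + 1 = m + 2 := rfl
  rw [e4] at e2
  nlinarith

theorem EXA_small (r : ℕ) (hr : 1 < r) {κ : ℝ} (hκ : 0 < κ) :
    ∀ᶠ n : ℕ in atTop, (n : ℝ) ^ 2 * (r : ℝ) ^ (-(κ / 2) * n) ≤ 1 / 16 := by
  have hr' : (1 : ℝ) < r := by exact_mod_cast hr
  have h1 : (r : ℝ) ^ (-(κ / 2)) < 1 := Real.rpow_lt_one_of_one_lt_of_neg hr' (by linarith)
  have h2 : 0 ≤ (r : ℝ) ^ (-(κ / 2)) := by positivity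
  have h3 := tendsto_pow_const_mul_const_pow_of_lt_one 2 h2 h1
  have h4 := h3.eventually (Iic_mem_nhds (show (0 : ℝ) < 1 / 16 by norm_num))
  filter_upwards [h4] with n hn
  rw [Real.rpow_mul (by linarith), Real.rpow_natCast]
  exact hn

theorem exact_pure {k s r d : ℕ} {g : ℝ} (H : Par k s r d g)
    (hS : ∃ p a : ℕ, Shape k d r g p a) :
    ∀ᶠ n : ℕ in atTop, ∀ G : SimpleGraph (Fin n), (cols k s r G).card = cnum k s r n →
      ∀ E ⊆ cols k s r G,
      (∀ φ ∈ E, ¬ ∃ p a : ℕ, Shape k d r g p a ∧ ∃ (Q : Fin n → Fin p) (A : Finset (Fin r)),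
        A.card = a ∧ Pure φ Q A) →
      4 * E.card ≤ cnum k s r n := by
  classical
  have hk := H.hk
  have hk0 : (0 : ℝ) < k := by exact_mod_cast (by omega : 0 < k)
  have hr1 : 1 < r := by have := H.hs; have := H.hsr; omega
  obtain ⟨γ, hγ, hγ1, hLD⟩ := ld_count H hS
  obtain ⟨γ₂, ε₀, hγ₂, hε₀, hP⟩ := pair_count H hγ hγ1
  set ε₂ := min ε₀ (γ₂ / 16) with hε₂
  have hε₂0 : 0 < ε₂ := by positivity
  have hε₂1 : ε₂ ≤ ε₀ := min_le_left _ _
  have hε₂2 : ε₂ ≤ γ₂ / 16 := min_le_right _ _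
  obtain ⟨εp, τp, κ, hεp, hτp, hκ, hPn⟩ := hP ε₂ hε₂0 hε₂1
  set ε := min εp (min (1 / (8 * (k : ℝ) ^ 2)) (γ₂ / (16 * (k : ℝ) ^ 2))) with hε
  have hε0 : 0 < ε := by positivity
  have hε1 : ε ≤ εp := min_le_left _ _
  have hε2 : ε ≤ 1 / (8 * (k : ℝ) ^ 2) := (min_le_right _ _).trans (min_le_left _ _)
  have hε3 : ε ≤ γ₂ / (16 * (k : ℝ) ^ 2) := (min_le_right _ _).trans (min_le_right _ _)
  have hε2' : ε * (8 * (k : ℝ) ^ 2) ≤ 1 := by
    rwa [le_div_iff₀ (by positivity)] at hε2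
  have hε3' : (k : ℝ) ^ 2 * ε ≤ γ₂ / 16 := by
    rw [le_div_iff₀ (by positivity)] at hε3
    linarith
  obtain ⟨τu, hτu, hU⟩ := uni H hγ hε0 hε2'
  obtain ⟨τl, hτl, hLDn⟩ := hLD ε hε0
  set τ := min τp (min τu τl) with hτ
  have hτ0 : 0 < τ := by positivity
  have hτ1 : τ ≤ τp := min_le_left _ _
  have hτ2 : τ ≤ τu := (min_le_right _ _).trans (min_le_left _ _)
  have hτ3 : τ ≤ τl := (min_le_right _ _).trans (min_le_right _ _)
  obtain ⟨ρ₀, δ₀, hρ₀, hδ₀, hN⟩ := near H hτ0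
  have hρ : 0 < min ρ₀ (δ₀ / 4) := by positivity
  have hNn := hN (min ρ₀ (δ₀ / 4)) δ₀ hρ (min_le_left _ _) hδ₀ le_rfl
  obtain ⟨p₁, a₁, hS₁⟩ := hS
  have hD := dec_eventually H hS₁ hρ hδ₀ (min_le_right _ _)
  have hT := EXA_two H ⟨p₁, a₁, hS₁⟩ hκ
  have hSm := EXA_small r hr1 hκ
  filter_upwards [hNn, hD, hT, hSm, hPn, hU, hLDn, eventually_ge_atTop 2,
    eventually_ge_atTop (⌈8 / γ₂⌉₊ + 1)] with n hNn hD hT hSm hPn hU hLDn hn2 hn3
  intro G hG E hE hEn
  have hn3' : 2 < γ₂ / 4 * n := by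
    have h1 : 8 / γ₂ ≤ ⌈8 / γ₂⌉₊ := Nat.le_ceil _
    have h2 : ((⌈8 / γ₂⌉₊ : ℕ) : ℝ) + 1 ≤ n := by exact_mod_cast hn3
    have h3 : 8 / γ₂ < n := by linarith
    rw [div_lt_iff₀ hγ₂] at h3
    linarith
  -- good structures
  let GoodS : Finset (Fin n) → CG (Fin n) r → (Σ p : ℕ, (Fin n → Fin p) × Finset (Fin r)) → Prop :=
    fun W φ st => Shape k d r g st.1 st.2.2.card ∧ Bal τ st.2.1 ∧
      (defect φ st.2.1 st.2.2 : ℝ) ≤ τ * (n : ℝ) ^ 2 ∧ LDW W ε γ φ st.2.1 st.2.2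
  have hst : ∀ (x : Fin n × Fin n) (φ₀ : CG (Fin n) r),
      ∃ st : (Σ p : ℕ, (Fin n → Fin p) × Finset (Fin r)),
        (∃ st', GoodS (univ \ {x.1, x.2}) φ₀ st') → GoodS (univ \ {x.1, x.2}) φ₀ st := by
    intro x φ₀
    by_cases h : ∃ st', GoodS (univ \ {x.1, x.2}) φ₀ st'
    · obtain ⟨st, hst⟩ := h
      exact ⟨st, fun _ => hst⟩
    · exact ⟨⟨1, fun _ => 0, ∅⟩, fun h' => absurd h' h⟩
  choose stf hstf using hst
  set E₁ := E.filter fun φ => ¬ NearPure k d r g τ φ with hE₁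
  set E₂ := E.filter fun φ => ∃ p a : ℕ, Shape k d r g p a ∧
      ∃ (Q : Fin n → Fin p) (A : Finset (Fin r)),
        A.card = a ∧ (defect φ Q A : ℝ) ≤ τl * (n : ℝ) ^ 2 ∧ ¬ LDW univ ε γ φ Q A with hE₂
  let D : Fin n × Fin n → Finset (CG (Fin n) r) := fun x => E.filter fun φ =>
    (∃ st', GoodS (univ \ {x.1, x.2}) (restr (univ \ {x.1, x.2}) φ) st') ∧
    ¬ Fine (univ \ {x.1, x.2}) ε₂ γ₂ φ (stf x (restr (univ \ {x.1, x.2}) φ)).2.1
      (stf x (restr (univ \ {x.1, x.2}) φ)).2.2 x.1 x.2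
  have hc1 : (E₁.card : ℝ) ≤ cnum k s r n / 16 :=
    hNn hD G E₁ ((Finset.filter_subset _ _).trans hE) fun φ hφ => (Finset.mem_filter.1 hφ).2
  have hc2 : (E₂.card : ℝ) ≤ cnum k s r n / 16 :=
    hLDn G E₂ ((Finset.filter_subset _ _).trans hE) fun φ hφ => (Finset.mem_filter.1 hφ).2
  have hcD : ∀ x : Fin n × Fin n, x.1 ≠ x.2 →
      ((D x).card : ℝ) ≤ cnum k s r n * (r : ℝ) ^ (-(κ / 2) * n) := by
    intro x hx
    refine le_trans ?_ hT
    have hW : (univ \ {x.1, x.2} : Finset (Fin n)).card = n - 2 := by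
      rw [Finset.card_sdiff_of_subset (subset_univ _), Finset.card_pair hx, Finset.card_univ,
        Fintype.card_fin]
    have h1 := EXA_fiber (k := k) (s := s) (by omega) G (univ \ {x.1, x.2}) (D x)
      ((Finset.filter_subset _ _).trans hE) (B := (r : ℝ) ^ ((2 * (1 - 1 / g) - κ) * n)) ?_
    · rwa [hW] at h1
    · intro φ₀
      by_cases hne : ∃ st', GoodS (univ \ {x.1, x.2}) φ₀ st'
      · have hgood := hstf x φ₀ hne
        obtain ⟨g1, g2, g3, g4⟩ := hgood
        refine hPn G x.1 x.2 hx (stf x φ₀).1 _ g1 (stf x φ₀).2.1 (stf x φ₀).2.2 rfl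
          (fun i => (g2 i).trans (by gcongr)) φ₀ ?_ _
          ((Finset.filter_subset _ _).trans ((Finset.filter_subset _ _).trans hE)) ?_
        · intro X Y hX hY hd hx' hy' i j hi hj c hc
          exact g4 X Y hX hY hd (le_trans (by gcongr) hx') (le_trans (by gcongr) hy') i j hi hj c hc
        · intro φ hφ
          rw [Finset.mem_filter] at hφ
          obtain ⟨hφ1, hφ2⟩ := hφ
          refine ⟨hφ2, ?_⟩
          have h2 := (Finset.mem_filter.1 hφ1).2.2
          rwa [hφ2] at h2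
      · have h2 : ((D x).filter fun φ => restr (univ \ {x.1, x.2}) φ = φ₀) = ∅ := by
          rw [Finset.filter_eq_empty_iff]
          intro φ hφ heq
          have h3 := (Finset.mem_filter.1 hφ).2.1
          rw [heq] at h3
          exact hne h3
        rw [h2]
        simp only [card_empty, Nat.cast_zero]
        positivity
  -- covering
  have hcover : E ⊆ E₁ ∪ E₂ ∪ ((univ : Finset (Fin n × Fin n)).filter fun x => x.1 ≠ x.2).biUnion D := by
    intro φ hφ
    by_contra hnot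
    rw [Finset.mem_union, Finset.mem_union, not_or, not_or] at hnot
    obtain ⟨⟨n1, n2⟩, n3⟩ := hnot
    have m1 : NearPure k d r g τ φ := by
      by_contra h
      exact n1 (Finset.mem_filter.2 ⟨hφ, h⟩)
    obtain ⟨p, a, hS2, Q, A, hA, hB, hdef⟩ := m1
    have m2 : LDW univ ε γ φ Q A := by
      by_contra h
      exact n2 (Finset.mem_filter.2 ⟨hφ, p, a, hS2, Q, A, hA, hdef.trans (by gcongr), h⟩)
    have m3 : ∀ u v : Fin n, u ≠ v → φ ∉ D (u, v) := by
      intro u v huv h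
      apply n3
      rw [Finset.mem_biUnion]
      exact ⟨(u, v), by simp [huv], h⟩
    subst hA
    have hAne : ∃ c, c ∉ A := by
      by_contra h
      push_neg at h
      have h2 : A = univ := Finset.eq_univ_iff_forall.2 h
      have h3 := EXA_shape_lt H hS2
      rw [h2, Finset.card_univ, Fintype.card_fin] at h3
      omega
    obtain ⟨Q'', hQ''⟩ := EXA_core hn2 φ Q A hAne (ε₂ := ε₂) (γ₂ := γ₂) (ρ := (k : ℝ) ^ 2 * ε)
      (by nlinarith) (by
        have : (0 : ℝ) ≤ n := Nat.cast_nonneg _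
        nlinarith) (by
        intro u v huv
        have hgr : ∃ st', GoodS (univ \ {u, v}) (restr (univ \ {u, v}) φ) st' := by
          refine ⟨⟨p, Q, A⟩, hS2, hB, ?_, EXA_restr_LDW m2⟩
          refine le_trans ?_ hdef
          exact_mod_cast EXA_restr_defect
        have hF : Fine (univ \ {u, v}) ε₂ γ₂ φ (stf (u, v) (restr (univ \ {u, v}) φ)).2.1
            (stf (u, v) (restr (univ \ {u, v}) φ)).2.2 u v := by
          by_contra h
          exact m3 u v huv (Finset.mem_filter.2 ⟨hφ, hgr, h⟩)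
        have hg2 := hstf (u, v) (restr (univ \ {u, v}) φ) hgr
        obtain ⟨g1, g2, g3, g4⟩ := hg2
        have hW : (univ \ {u, v} : Finset (Fin n)).card = n - 2 := by
          rw [Finset.card_sdiff_of_subset (subset_univ _), Finset.card_pair huv, Finset.card_univ,
            Fintype.card_fin]
        obtain ⟨hAA, σ, hσ⟩ := hU (univ \ {u, v}) hW.ge (restr (univ \ {u, v}) φ) p A.card
          (stf (u, v) (restr (univ \ {u, v}) φ)).1 _ hS2 g1 Q A
          (stf (u, v) (restr (univ \ {u, v}) φ)).2.1 (stf (u, v) (restr (univ \ {u, v}) φ)).2.2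
          rfl rfl (fun i => (hB i).trans (by gcongr)) (fun i => (g2 i).trans (by gcongr))
          ((by exact_mod_cast EXA_restr_defect : (defect (restr (univ \ {u, v}) φ) Q A : ℝ) ≤ defect φ Q A).trans
            (hdef.trans (by gcongr))) (g3.trans (by gcongr)) (EXA_restr_LDW m2) g4
        refine ⟨_, _, σ, hσ, ?_⟩
        rw [hAA]
        exact hF)
    exact hEn φ hφ ⟨p, A.card, hS2, Q'', A, rfl, hQ''⟩
  have hcard : (E.card : ℝ) ≤ cnum k s r n / 16 + cnum k s r n / 16 + cnum k s r n / 16 := by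
    have h1 : E.card ≤ E₁.card + E₂.card +
        ∑ x ∈ (univ : Finset (Fin n × Fin n)).filter (fun x => x.1 ≠ x.2), (D x).card :=
      (Finset.card_le_card hcover).trans ((Finset.card_union_le _ _).trans
        (Nat.add_le_add (Finset.card_union_le _ _) Finset.card_biUnion_le))
    have h2 : (E.card : ℝ) ≤ E₁.card + E₂.card +
        ∑ x ∈ (univ : Finset (Fin n × Fin n)).filter (fun x => x.1 ≠ x.2), ((D x).card : ℝ) := by
      exact_mod_cast h1
    have h3 : ∑ x ∈ (univ : Finset (Fin n × Fin n)).filter (fun x => x.1 ≠ x.2), ((D x).card : ℝ) ≤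
        cnum k s r n / 16 := by
      calc ∑ x ∈ (univ : Finset (Fin n × Fin n)).filter (fun x => x.1 ≠ x.2), ((D x).card : ℝ)
          ≤ ∑ x ∈ (univ : Finset (Fin n × Fin n)).filter (fun x => x.1 ≠ x.2),
              (cnum k s r n : ℝ) * (r : ℝ) ^ (-(κ / 2) * n) :=
            Finset.sum_le_sum fun x hx => hcD x (Finset.mem_filter.1 hx).2
        _ = (((univ : Finset (Fin n × Fin n)).filter (fun x => x.1 ≠ x.2)).card : ℝ) *
              ((cnum k s r n : ℝ) * (r : ℝ) ^ (-(κ / 2) * n)) := by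
            rw [Finset.sum_const, nsmul_eq_mul]
        _ ≤ ((n : ℝ) ^ 2) * ((cnum k s r n : ℝ) * (r : ℝ) ^ (-(κ / 2) * n)) := by
            gcongr
            have h4 : ((univ : Finset (Fin n × Fin n)).filter (fun x => x.1 ≠ x.2)).card ≤ n ^ 2 := by
              refine (Finset.card_le_univ _).trans ?_
              simp [sq]
            exact_mod_cast h4
        _ = (cnum k s r n : ℝ) * ((n : ℝ) ^ 2 * (r : ℝ) ^ (-(κ / 2) * n)) := by ring
        _ ≤ (cnum k s r n : ℝ) * (1 / 16) := by gcongr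
        _ = _ := by ring
    linarith
  have h5 : (4 * E.card : ℝ) ≤ cnum k s r n := by
    have h6 : (0 : ℝ) ≤ cnum k s r n := Nat.cast_nonneg _
    linarith
  exact_mod_cast h5

end Pool.ER
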