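import Mathlib
import Pool.Agent.ER.Defs

set_option autoImplicit false

open Finset Filter

namespace Pool.ER

theorem FIN1_Ik_le (k p : ℕ) : Ik k (p : ℝ) ≤ k * k := by
  unfold Ik
  calc ∑ l ∈ range k, ⌊(l : ℝ) / (p : ℝ)⌋₊ ≤ ∑ _l ∈ range k, k := by
        refine Finset.sum_le_sum fun l hl => ?_
        rw [Nat.floor_div_natCast, Nat.floor_natCast]
        exact (Nat.div_le_self l p).trans (Finset.mem_range.1 hl).le
    _ = k * k := by simp

theorem not_KS_large {k s d : ℕ} (hk : 3 ≤ k) (hs : 3 ≤ s) (hd : 1 ≤ d)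
    (hsd : s + d = k.choose 2 + 1) : ∃ r, s ≤ r ∧ ¬ KS k s d r := by
  have _ := hs
  have _ := hd
  have _ := hsd
  refine ⟨(k * k) ^ (k - 1) + (s - 1) ^ (k - 1) + s + 1, by omega, ?_⟩
  set r := (k * k) ^ (k - 1) + (s - 1) ^ (k - 1) + s + 1 with hr
  have hpow : ∀ m : ℕ, 1 ≤ m → r ≤ r ^ m := fun m hm =>
    Nat.le_self_pow (by omega) r
  rintro (h | ⟨p, a, h2, hp, ha, hI, h⟩)
  · have := hpow (k - 2) (by omega)
    omega
  · have h3 := hpow (k - 1 - p) (by omega)
    have h4 : a ≤ k * k := by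
      have := FIN1_Ik_le k p
      omega
    have h5 : a ^ (k - 1) ≤ (k * k) ^ (k - 1) := Nat.pow_le_pow_left h4 _
    omega

/-- the coloured graph of a colouring of the edges -/
noncomputable def FIN1_ext {r n : ℕ} (G : SimpleGraph (Fin n)) (c : G.edgeSet → Fin r) :
    CG (Fin n) r := by
  classical
  exact fun e => if h : e ∈ G.edgeSet then some (c ⟨e, h⟩) else none

theorem FIN1_ext_some {r n : ℕ} (G : SimpleGraph (Fin n)) (c : G.edgeSet → Fin r)
    (e : Sym2 (Fin n)) (x : Fin r) :
    FIN1_ext G c e = some x ↔ ∃ h : e ∈ G.edgeSet, c ⟨e, h⟩ = x := by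
  classical
  unfold FIN1_ext
  by_cases h : e ∈ G.edgeSet
  · rw [dif_pos h]
    constructor
    · intro h1; exact ⟨h, Option.some_injective _ h1⟩
    · rintro ⟨_, h1⟩; rw [h1]
  · rw [dif_neg h]
    constructor
    · intro h1; exact absurd h1.symm (Option.some_ne_none x)
    · rintro ⟨h1, _⟩; exact absurd h1 h

theorem FIN1_ext_ne {r n : ℕ} (G : SimpleGraph (Fin n)) (c : G.edgeSet → Fin r)
    (e : Sym2 (Fin n)) : FIN1_ext G c e ≠ none ↔ e ∈ G.edgeSet := by
  rw [Option.ne_none_iff_exists']
  constructor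
  · rintro ⟨x, hx⟩
    exact ((FIN1_ext_some G c e x).1 hx).1
  · intro h
    exact ⟨c ⟨e, h⟩, (FIN1_ext_some G c e _).2 ⟨h, rfl⟩⟩

/-- colours inside the image of a tuple -/
theorem FIN1_cols_image {r n k : ℕ} (G : SimpleGraph (Fin n)) (c : G.edgeSet → Fin r)
    (w : Fin k → Fin n) :
    {i : Fin r | ∃ e : G.edgeSet, (∀ v ∈ (e : Sym2 (Fin n)), v ∈ univ.image w) ∧ c e = i} =
      ((tupCols (FIN1_ext G c) w : Finset (Fin r)) : Set (Fin r)) := by
  ext x
  simp only [Set.mem_ofPred_eq, tupCols, coe_filter, mem_univ, true_and]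
  constructor
  · rintro ⟨⟨e, he⟩, h1, h2⟩
    induction e using Sym2.ind with
    | _ a b =>
      dsimp only at h1
      obtain ⟨i, _, hi⟩ := Finset.mem_image.1 (h1 a (Sym2.mem_mk_left a b))
      obtain ⟨j, _, hj⟩ := Finset.mem_image.1 (h1 b (Sym2.mem_mk_right a b))
      have hab : a ≠ b := G.ne_of_adj ((SimpleGraph.mem_edgeSet G).1 he)
      have hij : i ≠ j := by
        rintro rfl
        exact hab (hi.symm.trans hj)
      rcases lt_or_gt_of_ne hij with h | h
      · refine ⟨i, j, h, ?_⟩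
        rw [FIN1_ext_some, hi, hj]
        exact ⟨he, h2⟩
      · refine ⟨j, i, h, ?_⟩
        rw [FIN1_ext_some, hi, hj, Sym2.eq_swap]
        exact ⟨he, h2⟩
  · rintro ⟨i, j, hij, h⟩
    obtain ⟨h1, h2⟩ := (FIN1_ext_some G c _ x).1 h
    refine ⟨⟨s(w i, w j), h1⟩, ?_, h2⟩
    intro v hv
    rcases Sym2.mem_iff.1 hv with rfl | rfl
    · exact Finset.mem_image_of_mem w (mem_univ i)
    · exact Finset.mem_image_of_mem w (mem_univ j)

theorem FIN1_adm {k s r n : ℕ} (G : SimpleGraph (Fin n)) (c : G.edgeSet → Fin r) :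
    (∀ S : Finset (Fin n), G.IsNClique k S →
        Set.ncard {i : Fin r | ∃ e : G.edgeSet,
          (∀ v ∈ (e : Sym2 (Fin n)), v ∈ S) ∧ c e = i} < s) ↔ Adm k s (FIN1_ext G c) := by
  classical
  constructor
  · intro H w hw
    have hadj : ∀ i j : Fin k, i ≠ j → G.Adj (w i) (w j) := by
      intro i j hij
      rcases lt_or_gt_of_ne hij with h | h
      · exact (SimpleGraph.mem_edgeSet G).1 ((FIN1_ext_ne G c _).1 (hw i j h))
      · exact ((SimpleGraph.mem_edgeSet G).1 ((FIN1_ext_ne G c _).1 (hw j i h))).symm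
    have hinj : Function.Injective w := by
      intro i j hij
      by_contra hne
      exact (G.ne_of_adj (hadj i j hne)) hij
    have hS : G.IsNClique k (univ.image w) := by
      constructor
      · intro a ha b hb hab
        rw [Finset.mem_coe, Finset.mem_image] at ha hb
        obtain ⟨i, _, rfl⟩ := ha
        obtain ⟨j, _, rfl⟩ := hb
        exact hadj i j (fun h => hab (by rw [h]))
      · rw [Finset.card_image_of_injective _ hinj, Finset.card_univ, Fintype.card_fin]
    have h1 := H _ hS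
    rw [FIN1_cols_image, Set.ncard_coe_finset] at h1
    exact h1
  · intro H S hS
    set w : Fin k → Fin n := fun i => S.orderEmbOfFin hS.card_eq i with hw
    have himg : univ.image w = S := by
      ext v
      rw [Finset.mem_image]
      have h2 := Finset.range_orderEmbOfFin S hS.card_eq
      constructor
      · rintro ⟨i, _, rfl⟩
        exact Finset.orderEmbOfFin_mem S hS.card_eq i
      · intro hv
        have h3 : v ∈ Set.range (S.orderEmbOfFin hS.card_eq) := by rw [h2]; exact hv
        obtain ⟨i, hi⟩ := h3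
        exact ⟨i, mem_univ i, hi⟩
    have h1 := H w (by
      intro i j hij
      rw [FIN1_ext_ne, SimpleGraph.mem_edgeSet]
      refine hS.isClique ?_ ?_ ?_
      · exact Finset.orderEmbOfFin_mem S hS.card_eq i
      · exact Finset.orderEmbOfFin_mem S hS.card_eq j
      · intro h
        exact hij.ne ((S.orderEmbOfFin hS.card_eq).injective h))
    rw [← Set.ncard_coe_finset, ← FIN1_cols_image, himg] at h1
    exact h1

/-- the frozen counting function -/
theorem frozen_card {k s r n : ℕ} (hk : 2 ≤ k) (G : SimpleGraph (Fin n)) :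
    Nat.card {c : G.edgeSet → Fin r //
      ∀ S : Finset (Fin n), G.IsNClique k S →
        Set.ncard {i : Fin r | ∃ e : G.edgeSet,
          (∀ v ∈ (e : Sym2 (Fin n)), v ∈ S) ∧ c e = i} < s} = (cols k s r G).card := by
  classical
  have _ := hk
  rw [← Nat.card_eq_finsetCard]
  refine Nat.card_congr (Equiv.ofBijective (fun c => (⟨FIN1_ext G c.1, ?_⟩ : cols k s r G)) ?_)
  · unfold cols
    rw [mem_filter]
    exact ⟨mem_univ _, FIN1_ext_ne G c.1, (FIN1_adm G c.1).1 c.2⟩
  · constructor
    · intro c c' h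
      have h1 : FIN1_ext G c.1 = FIN1_ext G c'.1 := congrArg Subtype.val h
      apply Subtype.ext
      funext e
      have h2 : FIN1_ext G c'.1 e.1 = some (c.1 e) := by
        rw [← h1]
        exact (FIN1_ext_some G c.1 e.1 (c.1 e)).2 ⟨e.2, rfl⟩
      obtain ⟨_, h3⟩ := (FIN1_ext_some G c'.1 e.1 (c.1 e)).1 h2
      exact h3.symm
    · rintro ⟨φ, hφ⟩
      have hφ' := hφ
      unfold cols at hφ'
      rw [mem_filter] at hφ'
      obtain ⟨_, h1, h2⟩ := hφ'
      have h3 : ∀ e : G.edgeSet, ∃ x : Fin r, φ e.1 = some x := fun e =>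
        Option.ne_none_iff_exists'.1 ((h1 e.1).2 e.2)
      choose c hc using h3
      have h4 : FIN1_ext G c = φ := by
        funext e
        by_cases he : e ∈ G.edgeSet
        · rw [(FIN1_ext_some G c e (c ⟨e, he⟩)).2 ⟨he, rfl⟩]
          exact (hc ⟨e, he⟩).symm
        · have h5 : φ e = none := by
            by_contra h6
            exact he ((h1 e).1 h6)
          have h7 : FIN1_ext G c e = none := by
            by_contra h6
            exact he ((FIN1_ext_ne G c e).1 h6)
          rw [h5, h7]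
      refine ⟨⟨c, (FIN1_adm G c).2 (by rw [h4]; exact h2)⟩, ?_⟩
      exact Subtype.ext h4

theorem FIN1_card_all {k s r n : ℕ} (hk : 2 ≤ k) (G : SimpleGraph (Fin n)) [DecidableRel G.Adj]
    (h : ∀ c : G.edgeSet → Fin r, ∀ S : Finset (Fin n), G.IsNClique k S →
        Set.ncard {i : Fin r | ∃ e : G.edgeSet,
          (∀ v ∈ (e : Sym2 (Fin n)), v ∈ S) ∧ c e = i} < s) :
    (cols k s r G).card = r ^ G.edgeFinset.card := by
  classical
  rw [← frozen_card hk G]
  rw [Nat.card_congr (Equiv.subtypeUnivEquiv h), Nat.card_fun, Nat.card_eq_fintype_card,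
    Fintype.card_fin, Nat.card_eq_fintype_card, ← SimpleGraph.edgeFinset_card]

/-- graphs without `K_k`: all colourings are admissible -/
theorem cols_card_of_cliqueFree {k s r n : ℕ} (hk : 2 ≤ k) (G : SimpleGraph (Fin n))
    [DecidableRel G.Adj] (hG : G.CliqueFree k) : (cols k s r G).card = r ^ G.edgeFinset.card :=
  FIN1_card_all hk G fun _ S hS => absurd hS (hG S)

/-- the trivial range -/
theorem extremal_char_small {k s r n : ℕ} (hk : 3 ≤ k) (hr : 2 ≤ r) (hrs : r < s)
    (G : SimpleGraph (Fin n)) : (cols k s r G).card = cnum k s r n ↔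
      Nonempty (G ≃g (⊤ : SimpleGraph (Fin n))) := by
  classical
  have hcard : ∀ (H : SimpleGraph (Fin n)) [DecidableRel H.Adj],
      (cols k s r H).card = r ^ H.edgeFinset.card := by
    intro H _
    refine FIN1_card_all (by omega) H fun c S _ => ?_
    refine lt_of_le_of_lt ?_ hrs
    calc Set.ncard {i : Fin r | ∃ e : H.edgeSet, (∀ v ∈ (e : Sym2 (Fin n)), v ∈ S) ∧ c e = i}
        ≤ Set.ncard (Set.univ : Set (Fin r)) := Set.ncard_le_ncard (Set.subset_univ _)
      _ = r := by rw [Set.ncard_univ, Nat.card_eq_fintype_card, Fintype.card_fin]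
  have htop : ∀ H : SimpleGraph (Fin n), (cols k s r H).card ≤ (cols k s r (⊤ : SimpleGraph (Fin n))).card := by
    intro H
    rw [hcard H, hcard ⊤]
    exact Nat.pow_le_pow_right (by omega)
      (Finset.card_le_card (SimpleGraph.edgeFinset_mono (le_top : H ≤ ⊤)))
  have hcn : cnum k s r n = (cols k s r (⊤ : SimpleGraph (Fin n))).card := by
    refine le_antisymm ?_ ?_
    · exact Finset.sup_le fun H _ => htop H
    · exact Finset.le_sup (f := fun G : SimpleGraph (Fin n) => (cols k s r G).card) (mem_univ ⊤)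
  rw [hcn]
  constructor
  · intro h
    have h1 : G = ⊤ := by
      by_contra hne
      have h2 : G < ⊤ := lt_of_le_of_ne le_top hne
      have h3 : G.edgeFinset.card < (⊤ : SimpleGraph (Fin n)).edgeFinset.card :=
        Finset.card_lt_card (SimpleGraph.edgeFinset_strict_mono h2)
      rw [hcard G, hcard ⊤] at h
      have h4 := Nat.pow_lt_pow_right (show 1 < r by omega) h3
      omega
    rw [h1]
    exact ⟨SimpleGraph.Iso.refl⟩
  · rintro ⟨f⟩
    have h1 : G = ⊤ := by
      ext a b
      rw [← f.map_adj_iff]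
      simp
    rw [h1]

end Pool.ER
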