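import Mathlib
import Pool.Agent.ER.Defs

set_option autoImplicit false

/-!
# TIE, part 1: growth rates and balanced assignments
-/

open Finset Filter

namespace Pool.ER

namespace TIE

theorem exp_beats {a b : ℕ} (ha : 1 ≤ a) (hab : a < b) (C j : ℕ) :
    ∀ᶠ x : ℕ in atTop, C * (x + 1) ^ j * a ^ x < b ^ x := by
  have ha' : (0 : ℝ) < a := by exact_mod_cast ha
  have hb' : (0 : ℝ) < b := by exact_mod_cast (lt_of_lt_of_le Nat.zero_lt_one (ha.trans hab.le))
  have habs : |(a : ℝ) / b| < 1 := by
    rw [abs_of_pos (div_pos ha' hb'), div_lt_one hb']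
    exact_mod_cast hab
  have hlim := (tendsto_pow_const_mul_const_pow_of_abs_lt_one j habs).comp (tendsto_add_atTop_nat 1)
  have hlim2 := hlim.const_mul ((C : ℝ) * (b / a))
  rw [mul_zero] at hlim2
  filter_upwards [hlim2.eventually (gt_mem_nhds one_pos)] with x hx
  have h1 : (C : ℝ) * (b / a) * (((x + 1 : ℕ) : ℝ) ^ j * ((a : ℝ) / b) ^ (x + 1)) =
      (C : ℝ) * (x + 1) ^ j * a ^ x / b ^ x := by
    push_cast
    rw [pow_succ, div_pow]
    field_simp
  simp only [Function.comp_apply] at hx
  rw [h1, div_lt_one (pow_pos hb' x)] at hx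
  exact_mod_cast hx

theorem factorial_pow_le (B : ℕ) (hB : 0 < B) (b : ℕ) :
    B.factorial * B ^ b ≤ b.factorial * B ^ B := by
  rcases le_total B b with h | h
  · induction b, h using Nat.le_induction with
    | base => exact le_rfl
    | succ b hb ih =>
      calc B.factorial * B ^ (b + 1) = B * (B.factorial * B ^ b) := by ring
        _ ≤ (b + 1) * (b.factorial * B ^ B) := Nat.mul_le_mul (by omega) ih
        _ = (b + 1).factorial * B ^ B := by rw [Nat.factorial_succ]; ring
  · obtain ⟨i, rfl⟩ := Nat.exists_eq_add_of_le h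
    clear h
    have key : ∀ i b : ℕ, 0 < b + i → (b + i).factorial ≤ b.factorial * (b + i) ^ i := by
      intro i
      induction i with
      | zero => intro b _; simp
      | succ i ih =>
        intro b hbi
        have h1 : (b + (i + 1)).factorial ≤ (b + 1).factorial * (b + 1 + i) ^ i := by
          have := ih (b + 1) (by omega)
          rwa [show b + 1 + i = b + (i + 1) by ring] at this ⊢
        calc (b + (i + 1)).factorial ≤ (b + 1).factorial * (b + 1 + i) ^ i := h1
          _ = b.factorial * ((b + 1) * (b + 1 + i) ^ i) := by rw [Nat.factorial_succ]; ring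
          _ ≤ b.factorial * ((b + (i + 1)) * (b + (i + 1)) ^ i) := by
              refine Nat.mul_le_mul_left _ (Nat.mul_le_mul (by omega) ?_)
              exact Nat.pow_le_pow_left (by omega) _
          _ = b.factorial * (b + (i + 1)) ^ (i + 1) := by ring
    calc (b + i).factorial * (b + i) ^ b ≤ (b.factorial * (b + i) ^ i) * (b + i) ^ b :=
          Nat.mul_le_mul_right _ (key i b hB)
      _ = b.factorial * (b + i) ^ (b + i) := by rw [pow_add]; ring

theorem prod_factorial_ge (p B : ℕ) (c : Fin p → ℕ) (hc : ∑ i, c i = p * B) :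
    B.factorial ^ p ≤ ∏ i, (c i).factorial := by
  rcases Nat.eq_zero_or_pos B with rfl | hB
  · rw [Nat.factorial_zero, one_pow]
    exact Nat.one_le_iff_ne_zero.2 (Finset.prod_ne_zero_iff.2 fun i _ => Nat.factorial_ne_zero _)
  · have h1 : ∏ i, (B.factorial * B ^ c i) ≤ ∏ i, ((c i).factorial * B ^ B) :=
      Finset.prod_le_prod' fun i _ => factorial_pow_le B hB (c i)
    rw [Finset.prod_mul_distrib, Finset.prod_mul_distrib, Finset.prod_pow_eq_pow_sum, hc,
      Finset.prod_const, Finset.prod_const, Finset.card_univ, Fintype.card_fin, ← pow_mul,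
      mul_comm B p] at h1
    exact Nat.le_of_mul_le_mul_right h1 (pow_pos hB _)

theorem pow_le_multinomial (p B : ℕ) :
    p ^ (p * B) * B.factorial ^ p ≤ (p * B + 1) ^ p * (p * B).factorial := by
  classical
  have h1 : p ^ (p * B) = ∑ c ∈ Finset.piAntidiag (univ : Finset (Fin p)) (p * B),
      Nat.multinomial univ c := by
    have := Finset.sum_pow_eq_sum_piAntidiag (univ : Finset (Fin p)) (fun _ => (1 : ℕ)) (p * B)
    simpa using this
  rw [h1, Finset.sum_mul]
  have h2 : ∀ c ∈ Finset.piAntidiag (univ : Finset (Fin p)) (p * B),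
      Nat.multinomial univ c * B.factorial ^ p ≤ (p * B).factorial := by
    intro c hc
    have hsum : ∑ i, c i = p * B := (Finset.mem_piAntidiag.1 hc).1
    calc Nat.multinomial univ c * B.factorial ^ p
        ≤ Nat.multinomial univ c * ∏ i, (c i).factorial :=
          Nat.mul_le_mul_left _ (prod_factorial_ge p B c hsum)
      _ = (∑ i, c i).factorial := by rw [mul_comm]; exact Nat.multinomial_spec _ _
      _ = (p * B).factorial := by rw [hsum]
  refine (Finset.sum_le_card_nsmul _ _ _ h2).trans ?_
  rw [smul_eq_mul]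
  refine Nat.mul_le_mul_right _ ?_
  have hsub : Finset.piAntidiag (univ : Finset (Fin p)) (p * B) ⊆
      Fintype.piFinset fun _ : Fin p => Finset.range (p * B + 1) := by
    intro c hc
    have hsum : ∑ i, c i = p * B := (Finset.mem_piAntidiag.1 hc).1
    rw [Fintype.mem_piFinset]
    intro i
    rw [Finset.mem_range, Nat.lt_succ_iff, ← hsum]
    exact Finset.single_le_sum (fun _ _ => Nat.zero_le _) (Finset.mem_univ i)
  refine (Finset.card_le_card hsub).trans ?_
  rw [Fintype.card_piFinset, Finset.prod_const, Finset.card_range, Finset.card_univ,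
    Fintype.card_fin]

theorem card_perm_image {T : Type} [Fintype T] [DecidableEq T] {p : ℕ} (q : T → Fin p) (B : ℕ)
    (hB : ∀ i, Fintype.card {x // q x = i} = B) :
    (Fintype.card T).factorial ≤
      B.factorial ^ p * ((univ : Finset (Equiv.Perm T)).image fun τ x => q (τ x)).card := by
  classical
  have h1 := Finset.card_le_mul_card_image (f := fun (τ : Equiv.Perm T) x => q (τ x))
    (univ : Finset (Equiv.Perm T)) (B.factorial ^ p) (fun f hf => ?_)
  · rwa [Finset.card_univ, Fintype.card_perm] at h1
  · obtain ⟨τ₀, -, rfl⟩ := Finset.mem_image.1 hf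
    have h2 := DomMulAct.stabilizer_card (α := T) q
    have h3 : ∏ i, (Fintype.card {a // q a = i}).factorial = B.factorial ^ p := by
      rw [Finset.prod_congr rfl fun i _ => by rw [hB i], Finset.prod_const, Finset.card_univ,
        Fintype.card_fin]
    rw [h3] at h2
    rw [← h2, Fintype.card_subtype]
    refine Finset.card_le_card_of_injOn (fun τ => τ * τ₀⁻¹) (fun τ hτ => ?_) ?_
    · have hτ' := (Finset.mem_filter.1 (Finset.mem_coe.1 hτ)).2
      refine Finset.mem_coe.2 (Finset.mem_filter.2 ⟨Finset.mem_univ _, ?_⟩)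
      funext x
      have := congrFun hτ' (τ₀⁻¹ x)
      simpa using this
    · intro τ _ τ' _ h
      exact mul_right_cancel h

/-- the number of balanced assignments -/
theorem card_balanced {p B : ℕ} {T : Type} [Fintype T] [DecidableEq T] (q : T → Fin p)
    (hT : Fintype.card T = p * B) (hB : ∀ i, Fintype.card {x // q x = i} = B) :
    p ^ (p * B) ≤
      (p * B + 1) ^ p * ((univ : Finset (Equiv.Perm T)).image fun τ x => q (τ x)).card := by
  have h1 := pow_le_multinomial p B
  have h2 := card_perm_image q B hB
  rw [hT] at h2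
  have h3 : p ^ (p * B) * B.factorial ^ p ≤ ((p * B + 1) ^ p *
      ((univ : Finset (Equiv.Perm T)).image fun τ x => q (τ x)).card) * B.factorial ^ p := by
    refine h1.trans ?_
    calc (p * B + 1) ^ p * (p * B).factorial ≤ (p * B + 1) ^ p * (B.factorial ^ p *
          ((univ : Finset (Equiv.Perm T)).image fun τ x => q (τ x)).card) := Nat.mul_le_mul_left _ h2
      _ = _ := by ring
  exact Nat.le_of_mul_le_mul_right h3 (pow_pos (Nat.factorial_pos _) _)

end TIE

end Pool.ER
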