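import Mathlib
import Pool.Agent.ER.Defs
import Pool.Agent.ER.TIEBasic

set_option autoImplicit false

/-!
# TIE, part 2: counting colourings of the complete graph which determine their classes
-/

open Finset Filter

namespace Pool.ER

namespace TIE

section

variable {n p r : ℕ}

/-- admissible values of the pure colourings of `K_n` -/
def Om (A : Finset (Fin r)) (Q : Fin n → Fin p) (e : Sym2 (Fin n)) : Finset (Option (Fin r)) :=
  if e.IsDiag then {none} else if (e.map Q).IsDiag then A.map Function.Embedding.some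
  else univ.map Function.Embedding.some

theorem Om_diag (A : Finset (Fin r)) (Q : Fin n → Fin p) (v : Fin n) : Om A Q s(v, v) = {none} := by
  unfold Om
  rw [if_pos (by simp)]

theorem Om_in (A : Finset (Fin r)) (Q : Fin n → Fin p) {u v : Fin n} (h : u ≠ v) (hQ : Q u = Q v) :
    Om A Q s(u, v) = A.map Function.Embedding.some := by
  unfold Om
  rw [if_neg (by simpa using h), if_pos (by simpa using hQ)]

theorem Om_cross (A : Finset (Fin r)) (Q : Fin n → Fin p) {u v : Fin n} (hQ : Q u ≠ Q v) :
    Om A Q s(u, v) = univ.map Function.Embedding.some := by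
  unfold Om
  rw [if_neg (by intro h; exact hQ (congrArg Q (by simpa using h))), if_neg (by simpa using hQ)]

theorem card_Om (A : Finset (Fin r)) (Q : Fin n → Fin p) (e : Sym2 (Fin n)) :
    (Om A Q e).card = if e.IsDiag then 1 else if (e.map Q).IsDiag then A.card else r := by
  unfold Om
  split_ifs
  · rfl
  · rw [Finset.card_map]
  · rw [Finset.card_map, Finset.card_univ, Fintype.card_fin]

/-- permuting the vertices does not change the number of pure colourings -/
theorem card_comp (A : Finset (Fin r)) (Q : Fin n → Fin p) (σ : Equiv.Perm (Fin n)) :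
    (Fintype.piFinset (Om A fun x => Q (σ x))).card = (Fintype.piFinset (Om A Q)).card := by
  rw [Fintype.card_piFinset, Fintype.card_piFinset]
  refine Fintype.prod_bijective (Sym2.map σ) ?_ _ _ fun e => ?_
  · constructor
    · exact Sym2.map.injective σ.injective
    · intro e
      induction e with
      | h x y => exact ⟨s(σ.symm x, σ.symm y), by simp⟩
  · rw [card_Om, card_Om]
    induction e with
    | h x y =>
      simp

/-- the number of pure colourings for the Turan classes -/
theorem card_turan (A : Finset (Fin r)) (hp : 0 < p) :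
    (Fintype.piFinset (Om A fun x : Fin n => (⟨(x : ℕ) % p, Nat.mod_lt _ hp⟩ : Fin p))).card =
      r ^ (SimpleGraph.turanGraph n p).edgeFinset.card *
        A.card ^ (n.choose 2 - (SimpleGraph.turanGraph n p).edgeFinset.card) := by
  classical
  rw [Fintype.card_piFinset]
  have hsub : (SimpleGraph.turanGraph n p).edgeFinset ⊆ (⊤ : SimpleGraph (Fin n)).edgeFinset :=
    SimpleGraph.edgeFinset_subset_edgeFinset.2 le_top
  have hcard : ((⊤ : SimpleGraph (Fin n)).edgeFinset \ (SimpleGraph.turanGraph n p).edgeFinset).card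
      = n.choose 2 - (SimpleGraph.turanGraph n p).edgeFinset.card := by
    rw [Finset.card_sdiff_of_subset hsub, SimpleGraph.card_edgeFinset_top_eq_card_choose_two,
      Fintype.card_fin]
  have hterm : ∀ e : Sym2 (Fin n),
      (Om A (fun x : Fin n => (⟨(x : ℕ) % p, Nat.mod_lt _ hp⟩ : Fin p)) e).card =
      (if e ∈ (SimpleGraph.turanGraph n p).edgeFinset then r else 1) *
      (if e ∈ (⊤ : SimpleGraph (Fin n)).edgeFinset \ (SimpleGraph.turanGraph n p).edgeFinset
        then A.card else 1) := by
    intro e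
    rw [card_Om]
    induction e with
    | h x y =>
      simp only [Sym2.map_mk, Sym2.mk_isDiag_iff, SimpleGraph.mem_edgeFinset,
        SimpleGraph.mem_edgeSet, SimpleGraph.turanGraph_adj, Finset.mem_sdiff, Fin.mk.injEq,
        SimpleGraph.top_adj]
      by_cases hxy : x = y
      · subst hxy
        simp
      · by_cases hmod : (x : ℕ) % p = (y : ℕ) % p
        · simp [hxy, hmod]
        · simp [hxy, hmod]
  rw [Finset.prod_congr rfl fun e _ => hterm e, Finset.prod_mul_distrib, Finset.prod_ite_mem,
    Finset.prod_ite_mem, Finset.univ_inter, Finset.univ_inter, Finset.prod_const,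
    Finset.prod_const, hcard]

/-- restricting the colours of a star -/
theorem card_star (A : Finset (Fin r)) (Q : Fin n → Fin p) (w : Fin n) (S : Finset (Fin n))
    (hS : ∀ x ∈ S, Q x ≠ Q w) :
    ((Fintype.piFinset (Om A Q)).filter fun φ =>
      ∀ x ∈ S, φ s(w, x) ∈ A.map Function.Embedding.some).card * r ^ S.card ≤
      (Fintype.piFinset (Om A Q)).card * A.card ^ S.card := by
  classical
  set E := S.image fun x => s(w, x) with hE
  have hEcard : E.card = S.card := by
    rw [hE, Finset.card_image_of_injective]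
    intro x y h
    simp only [Sym2.eq_iff] at h
    rcases h with h | h
    · exact h.2
    · rw [h.2, h.1] at *
  set Om' : Sym2 (Fin n) → Finset (Option (Fin r)) := fun e =>
    if e ∈ E then A.map Function.Embedding.some else Om A Q e with hOm'
  have hsub : ((Fintype.piFinset (Om A Q)).filter fun φ =>
      ∀ x ∈ S, φ s(w, x) ∈ A.map Function.Embedding.some) ⊆ Fintype.piFinset Om' := by
    intro φ hφ
    rw [Finset.mem_filter, Fintype.mem_piFinset] at hφ
    rw [Fintype.mem_piFinset]
    intro e
    rw [hOm']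
    dsimp only
    split_ifs with he
    · obtain ⟨x, hx, rfl⟩ := Finset.mem_image.1 he
      exact hφ.2 x hx
    · exact hφ.1 e
  refine (Nat.mul_le_mul_right _ (Finset.card_le_card hsub)).trans (le_of_eq ?_)
  have hpow : ∀ c : ℕ, c ^ E.card = ∏ e : Sym2 (Fin n), if e ∈ E then c else 1 := by
    intro c
    rw [Finset.prod_ite_mem, Finset.univ_inter, Finset.prod_const]
  rw [Fintype.card_piFinset, Fintype.card_piFinset, ← hEcard, hpow, hpow,
    ← Finset.prod_mul_distrib, ← Finset.prod_mul_distrib]
  refine Finset.prod_congr rfl fun e _ => ?_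
  rw [hOm']
  dsimp only
  split_ifs with he
  · obtain ⟨x, hx, rfl⟩ := Finset.mem_image.1 he
    rw [Om_cross A Q (fun h => hS x hx h.symm), Finset.card_map, Finset.card_map, Finset.card_univ,
      Fintype.card_fin, mul_comm]
  · rfl

/-- colourings which determine the classes of the first `m` vertices -/
def Dt (A : Finset (Fin r)) (m : ℕ) (Q : Fin n → Fin p) : Finset (CG (Fin n) r) :=
  (Fintype.piFinset (Om A Q)).filter fun φ => ∀ w : Fin n, (w : ℕ) < m → ∀ j : Fin p, j ≠ Q w →
    ∃ x : Fin n, m ≤ (x : ℕ) ∧ Q x = j ∧ φ s(w, x) ∉ A.map Function.Embedding.some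

theorem card_Dt (A : Finset (Fin r)) (m B : ℕ) (Q : Fin n → Fin p) (hr : 0 < r)
    (hQ : ∀ j : Fin p, ∃ S : Finset (Fin n), (∀ x ∈ S, m ≤ (x : ℕ) ∧ Q x = j) ∧ S.card = B)
    (hB : 2 * (m * p) * A.card ^ B ≤ r ^ B) :
    (Fintype.piFinset (Om A Q)).card ≤ 2 * (Dt A m Q).card := by
  classical
  choose S hS hScard using hQ
  set X := (Fintype.piFinset (Om A Q)).card with hX
  set Bad : Fin n × Fin p → Finset (CG (Fin n) r) := fun z =>
    (Fintype.piFinset (Om A Q)).filter fun φ =>
      ∀ x ∈ S z.2, φ s(z.1, x) ∈ A.map Function.Embedding.some with hBad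
  set I : Finset (Fin n × Fin p) := univ.filter fun z => (z.1 : ℕ) < m ∧ z.2 ≠ Q z.1 with hI
  have hIcard : I.card ≤ m * p := by
    have hsub : I ⊆ (univ.filter fun w : Fin n => (w : ℕ) < m) ×ˢ (univ : Finset (Fin p)) := by
      intro z hz
      exact Finset.mem_product.2 ⟨Finset.mem_filter.2 ⟨Finset.mem_univ _,
        (Finset.mem_filter.1 hz).2.1⟩, Finset.mem_univ _⟩
    refine (Finset.card_le_card hsub).trans ?_
    rw [Finset.card_product, Finset.card_univ, Fintype.card_fin]
    refine Nat.mul_le_mul_right _ ?_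
    have : (univ.filter fun w : Fin n => (w : ℕ) < m).card ≤ (Finset.range m).card :=
      Finset.card_le_card_of_injOn (fun w : Fin n => (w : ℕ))
        (fun w hw => Finset.mem_coe.2 (Finset.mem_range.2
          (Finset.mem_filter.1 (Finset.mem_coe.1 hw)).2)) fun x _ y _ h => Fin.ext h
    rwa [Finset.card_range] at this
  have hcover : Fintype.piFinset (Om A Q) ⊆ Dt A m Q ∪ I.biUnion Bad := by
    intro φ hφ
    rw [Finset.mem_union]
    by_cases hD : φ ∈ Dt A m Q
    · exact Or.inl hD
    · right
      rw [Dt, Finset.mem_filter, not_and] at hD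
      have h1 := hD hφ
      push Not at h1
      obtain ⟨w, hw, j, hj, hx⟩ := h1
      rw [Finset.mem_biUnion]
      refine ⟨(w, j), Finset.mem_filter.2 ⟨Finset.mem_univ _, hw, hj⟩,
        Finset.mem_filter.2 ⟨hφ, fun x hxS => ?_⟩⟩
      exact hx x (hS j x hxS).1 (hS j x hxS).2
  have hBadcard : ∀ z ∈ I, (Bad z).card * r ^ B ≤ X * A.card ^ B := by
    intro z hz
    have hz2 := (Finset.mem_filter.1 hz).2
    have h1 := card_star A Q z.1 (S z.2) (fun x hx => by rw [(hS z.2 x hx).2]; exact hz2.2)
    rw [hScard] at h1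
    exact h1
  have h1 : X ≤ (Dt A m Q).card + ∑ z ∈ I, (Bad z).card :=
    (Finset.card_le_card hcover).trans ((Finset.card_union_le _ _).trans
      (Nat.add_le_add_left Finset.card_biUnion_le _))
  have h2 : (∑ z ∈ I, (Bad z).card) * r ^ B ≤ (m * p) * (X * A.card ^ B) := by
    rw [Finset.sum_mul]
    refine (Finset.sum_le_card_nsmul _ _ _ hBadcard).trans ?_
    rw [smul_eq_mul]
    exact Nat.mul_le_mul_right _ hIcard
  have h3 : X * r ^ B ≤ (Dt A m Q).card * r ^ B + (m * p) * (X * A.card ^ B) := by
    calc X * r ^ B ≤ ((Dt A m Q).card + ∑ z ∈ I, (Bad z).card) * r ^ B :=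
          Nat.mul_le_mul_right _ h1
      _ = (Dt A m Q).card * r ^ B + (∑ z ∈ I, (Bad z).card) * r ^ B := by ring
      _ ≤ _ := Nat.add_le_add_left h2 _
  have h4 : X * (2 * (m * p) * A.card ^ B) ≤ X * r ^ B := Nat.mul_le_mul_left _ hB
  have h5 : X * r ^ B ≤ (2 * (Dt A m Q).card) * r ^ B := by nlinarith
  exact Nat.le_of_mul_le_mul_right h5 (pow_pos hr _)

/-- colourings determine the classes -/
theorem Dt_disjoint (A : Finset (Fin r)) (m : ℕ) (Q Q' : Fin n → Fin p) (hne : Q ≠ Q')
    (hQ : ∀ x : Fin n, m ≤ (x : ℕ) → Q x = Q' x) : Disjoint (Dt A m Q) (Dt A m Q') := by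
  rw [Finset.disjoint_left]
  intro φ h1 h2
  obtain ⟨w, hw⟩ := Function.ne_iff.1 hne
  have hwm : (w : ℕ) < m := by
    by_contra h
    exact hw (hQ w (not_lt.1 h))
  have h3 := (Finset.mem_filter.1 h1).2
  have h4 := Fintype.mem_piFinset.1 (Finset.mem_filter.1 h2).1
  obtain ⟨x, hx, hxj, hxA⟩ := h3 w hwm (Q' w) (Ne.symm hw)
  have h5 := h4 s(w, x)
  rw [Om_in A Q' (by rintro rfl; omega) (by rw [← hQ x hx, hxj])] at h5
  exact hxA h5

end

end TIE

end Pool.ER
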