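import Mathlib
import Pool.Agent.ER.Defs
import Pool.Agent.ER.TIEBasic
import Pool.Agent.ER.TIECore

set_option autoImplicit false

/-!
# TIE, part 3: the complete graph beats the Turan graph in a tie
-/

open Finset Filter

namespace Pool.ER

namespace TIE

theorem Ik_le {k p : ℕ} (hk : k ≤ 2 * p) : Ik k (p : ℝ) ≤ k - p := by
  unfold Ik
  have h1 : ∀ l ∈ range k, ⌊(l : ℝ) / (p : ℝ)⌋₊ ≤ if p ≤ l then 1 else 0 := by
    intro l hl
    rw [Nat.floor_div_eq_div]
    have hl' := Finset.mem_range.1 hl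
    split_ifs with h
    · have : l / p < 2 := Nat.div_lt_of_lt_mul (by omega)
      omega
    · rw [Nat.div_eq_of_lt (not_le.1 h)]
  refine (Finset.sum_le_sum h1).trans ?_
  rw [← Finset.card_filter]
  have h2 : (range k).filter (fun l => p ≤ l) = Finset.Ico p k := by
    ext l
    simp only [Finset.mem_filter, Finset.mem_range, Finset.mem_Ico]
    omega
  rw [h2, Nat.card_Ico]

theorem pow_eq {k s r d : ℕ} {g : ℝ} (H : Par k s r d g) (hgk : g = (k : ℝ) - 1) {p a : ℕ}
    (hS : LShape k d r g p a) : a ^ (k - 1) = r ^ (k - 1 - p) := by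
  obtain ⟨ha, hp1, hpk, -, hbeta, -⟩ := hS
  have hk := H.hk
  have hr : 2 ≤ r := by have := H.hs; have := H.hsr; omega
  have hlr : 0 < Real.log r := Real.log_pos (by exact_mod_cast hr)
  unfold beta at hbeta
  rw [hgk] at hbeta
  have h1 : ((k - 1 : ℕ) : ℝ) * Real.log a = ((k - 1 - p : ℕ) : ℝ) * Real.log r := by
    have h2 : ((k - 1 - p : ℕ) : ℝ) = (k : ℝ) - 1 - p := by
      rw [Nat.cast_sub (by omega), Nat.cast_sub (by omega)]
      norm_num
    have h3 : ((k - 1 : ℕ) : ℝ) = (k : ℝ) - 1 := by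
      rw [Nat.cast_sub (by omega)]
      norm_num
    rw [h2, h3]
    field_simp at hbeta
    linarith
  rw [← Real.log_pow, ← Real.log_pow] at h1
  have ha0 : (0 : ℝ) < a := by exact_mod_cast (by omega : 0 < a)
  have hr0 : (0 : ℝ) < r := by exact_mod_cast (by omega : 0 < r)
  have h4 := Real.log_injOn_pos (Set.mem_Ioi.2 (pow_pos ha0 _)) (Set.mem_Ioi.2 (pow_pos hr0 _)) h1
  exact_mod_cast h4

theorem turan_lower (n p : ℕ) (hp : 0 < p) :
    p * n ^ 2 ≤ 2 * p * (SimpleGraph.turanGraph n p).edgeFinset.card +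
      (n ^ 2 + p ^ 2 + 2 * p) := by
  rw [SimpleGraph.card_edgeFinset_turanGraph]
  set t := n % p with ht
  have htp : t < p := Nat.mod_lt _ hp
  have htn : t ≤ n := Nat.mod_le _ _
  obtain ⟨q, rfl⟩ : ∃ q, p = q + 1 := ⟨p - 1, by omega⟩
  obtain ⟨u, hu⟩ : ∃ u, n ^ 2 = t ^ 2 + u := ⟨n ^ 2 - t ^ 2, by
    have := Nat.pow_le_pow_left htn 2
    omega⟩
  have h1 : n ^ 2 - t ^ 2 = u := by omega
  rw [h1, Nat.add_sub_cancel]
  have h2 : u * q ≤ 2 * (q + 1) * (u * q / (2 * (q + 1))) + 2 * (q + 1) := by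
    have := Nat.div_add_mod (u * q) (2 * (q + 1))
    have h3 := Nat.mod_lt (u * q) (by omega : 0 < 2 * (q + 1))
    omega
  have h4 : 2 * t.choose 2 + t = t ^ 2 := by
    rw [Nat.choose_two_right, Nat.mul_div_cancel' (Nat.even_mul_pred_self t).two_dvd]
    rcases Nat.eq_zero_or_pos t with h | h
    · simp [h]
    · obtain ⟨v, hv⟩ : ∃ v, t = v + 1 := ⟨t - 1, by omega⟩
      rw [hv, Nat.add_sub_cancel]
      ring
  have h5 : t ≤ q := by omega
  nlinarith [Nat.zero_le (t.choose 2), Nat.mul_le_mul h5 h5]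

theorem mem_cols {n k s r : ℕ} (G : SimpleGraph (Fin n)) (φ : CG (Fin n) r) :
    φ ∈ cols k s r G ↔ (∀ e : Sym2 (Fin n), φ e ≠ none ↔ e ∈ G.edgeSet) ∧ Adm k s φ := by
  classical
  unfold cols
  simp only [Finset.mem_filter, Finset.mem_univ, true_and]

theorem numeric_final {n p K r a e c₀ m : ℕ} (hp : 1 ≤ p) (hpK : p ≤ K) (hr : 1 ≤ r)
    (haK : a ^ K = r ^ (K - p)) (hc₀ : p * n ^ 2 ≤ 2 * p * c₀ + (n ^ 2 + p ^ 2 + 2 * p))
    (hc₀' : c₀ ≤ n.choose 2) (he : 2 * K * e ≤ (K - 1) * n ^ 2) (hm : n ≤ 2 * (m + p)) :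
    r ^ e ≤ (r ^ c₀ * a ^ (n.choose 2 - c₀)) * r ^ (p ^ 2 + 2 * p) * a ^ (m + p) := by
  obtain ⟨u, rfl⟩ := Nat.exists_eq_add_of_le hpK
  rw [Nat.add_sub_cancel_left] at haK
  set i₀ := n.choose 2 - c₀ with hi₀
  have h1 : 2 * i₀ + 2 * c₀ + n = n ^ 2 := by
    have h2 : 2 * n.choose 2 + n = n ^ 2 := by
      rw [Nat.choose_two_right, Nat.mul_div_cancel' (Nat.even_mul_pred_self n).two_dvd]
      rcases Nat.eq_zero_or_pos n with h | h
      · simp [h]
      · obtain ⟨v, hv⟩ : ∃ v, n = v + 1 := ⟨n - 1, by omega⟩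
        rw [hv, Nat.add_sub_cancel]
        ring
    omega
  rw [← Nat.pow_le_pow_iff_left (show 2 * (p + u) ≠ 0 by omega)]
  have h3 : (r ^ c₀ * a ^ i₀ * r ^ (p ^ 2 + 2 * p) * a ^ (m + p)) ^ (2 * (p + u)) =
      r ^ (2 * (p + u) * c₀ + u * (2 * i₀) + 2 * (p + u) * (p ^ 2 + 2 * p) + u * (2 * (m + p))) := by
    have h4 : ∀ x : ℕ, (a ^ x) ^ (2 * (p + u)) = r ^ (u * (2 * x)) := by
      intro x
      calc (a ^ x) ^ (2 * (p + u)) = (a ^ (p + u)) ^ (2 * x) := by
            rw [← pow_mul, ← pow_mul]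
            congr 1
            ring
        _ = r ^ (u * (2 * x)) := by rw [haK, ← pow_mul]
    rw [mul_pow, mul_pow, mul_pow, h4, h4, ← pow_mul, ← pow_mul, ← pow_add, ← pow_add, ← pow_add]
    congr 1
    ring
  rw [h3, ← pow_mul]
  refine Nat.pow_le_pow_right hr ?_
  have h5 : u * n ≤ u * (2 * (m + p)) := Nat.mul_le_mul_left _ hm
  have h6 : u * (2 * i₀) + 2 * u * c₀ + u * n = u * n ^ 2 := by rw [← h1]; ring
  have h7 : (p + u - 1) * n ^ 2 + n ^ 2 = p * n ^ 2 + u * n ^ 2 := by
    obtain ⟨q, rfl⟩ : ∃ q, p = q + 1 := ⟨p - 1, by omega⟩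
    rw [show q + 1 + u - 1 = q + u by omega]
    ring
  have h8 : p ^ 2 + 2 * p ≤ 2 * (p + u) * (p ^ 2 + 2 * p) :=
    Nat.le_mul_of_pos_left _ (by omega)
  nlinarith

end TIE

open TIE in
theorem TIE.tie_count_of {k s r d : ℕ} {g : ℝ} (H : Par k s r d g) (hgk : g = (k : ℝ) - 1) {p a : ℕ}
    (hS : LShape k d r g p a)
    (hadm : ∀ (n : ℕ) (φ : CG (Fin n) r), (∀ v, φ s(v, v) = none) → ∀ (Q : Fin n → Fin p)
      (A : Finset (Fin r)), A.card = a → Pure φ Q A → Adm k s φ) (hp : 2 ≤ p) :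
    ∀ᶠ n : ℕ in atTop, r ^ (SimpleGraph.turanGraph n (k - 1)).edgeFinset.card
      < (cols k s r (⊤ : SimpleGraph (Fin n))).card := by
  classical
  have hk := H.hk
  have hd := H.hd
  have hr2 : 2 ≤ r := by have := H.hs; have := H.hsr; omega
  have haK := pow_eq H hgk hS
  obtain ⟨ha, hp1, hpk, hI, hbeta, hor⟩ := hS
  have hk2p : k ≤ 2 * p := by omega
  have hap : a < p := by
    have := Ik_le hk2p
    omega
  have har : a < r := by
    by_contra hcon
    push Not at hcon
    have hlr : 0 < Real.log r := Real.log_pos (by exact_mod_cast hr2)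
    have h1 : Real.log r ≤ Real.log a :=
      Real.log_le_log (by exact_mod_cast (by omega : 0 < r)) (by exact_mod_cast hcon)
    have h2 : beta r a ≤ 0 := by
      unfold beta
      rw [sub_nonpos, one_le_div hlr]
      exact h1
    have h3 : (0 : ℝ) < p := by exact_mod_cast (by omega : 0 < p)
    have hg0 : 0 ≤ g := by
      have hk1 : (3 : ℝ) ≤ k := by exact_mod_cast hk
      rw [hgk]
      linarith
    have h4 : g * beta r a ≤ 0 := mul_nonpos_of_nonneg_of_nonpos hg0 h2
    linarith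
  -- the palette
  obtain ⟨A, -, hA⟩ := Finset.exists_subset_card_eq (s := (univ : Finset (Fin r))) (n := a)
    (by rw [Finset.card_univ, Fintype.card_fin]; exact har.le)
  -- eventually in `B`
  set c := p ^ 2 + 2 * p with hc
  have hev1 : ∀ᶠ B : ℕ in atTop, 2 * (p * B * p) * a ^ B ≤ r ^ B := by
    filter_upwards [exp_beats (by omega : 1 ≤ a) har (2 * p * p) 1] with B hB
    refine le_trans ?_ hB.le
    refine Nat.mul_le_mul_right _ ?_
    rw [pow_one]
    nlinarith [Nat.zero_le (p * p)]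
  have htend : Tendsto (fun B : ℕ => p * B) atTop atTop :=
    tendsto_atTop_mono (fun B => Nat.le_mul_of_pos_left B (by omega)) tendsto_id
  have hev2 : ∀ᶠ B : ℕ in atTop, 2 * (p * B + 1) ^ p * (r ^ c * a ^ (p * B + p)) < p ^ (p * B) := by
    filter_upwards [htend.eventually (exp_beats (by omega : 1 ≤ a) hap (2 * (r ^ c * a ^ p)) p)]
      with B hB
    refine lt_of_eq_of_lt ?_ hB
    rw [pow_add]
    ring
  have htend2 : Tendsto (fun n : ℕ => n / (2 * p)) atTop atTop :=
    Nat.tendsto_div_const_atTop (by omega)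
  filter_upwards [htend2.eventually hev1, htend2.eventually hev2] with n hB1 hB2
  set B := n / (2 * p) with hBdef
  set m := p * B with hm
  have hn1 : 2 * m ≤ n := by
    have := Nat.div_mul_le_self n (2 * p)
    rw [hm, hBdef]
    linarith
  have hn2 : n ≤ 2 * (m + p) := by
    have := Nat.div_add_mod n (2 * p)
    have h3 := Nat.mod_lt n (by omega : 0 < 2 * p)
    rw [hm, hBdef]
    nlinarith
  have hp0 : 0 < p := by omega
  set Q₀ : Fin n → Fin p := fun x => ⟨(x : ℕ) % p, Nat.mod_lt _ hp0⟩ with hQ₀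
  -- the second part
  let T : Type := {x : Fin n // (x : ℕ) < m}
  set q : T → Fin p := fun x => Q₀ x.1 with hq
  have hTB : ∀ i, Fintype.card {x : T // q x = i} = B := by
    intro i
    have hval : ∀ j : Fin B, (i : ℕ) + p * (j : ℕ) < m := by
      intro j
      have h1 : p * (j : ℕ) + p ≤ p * B := by
        have := Nat.mul_le_mul_left p (Nat.succ_le_of_lt j.2)
        rw [Nat.succ_eq_add_one, mul_add, mul_one] at this
        exact this
      have := i.2
      rw [hm]
      omega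
    rw [← Fintype.card_fin B]
    symm
    refine Fintype.card_of_bijective (f := fun j : Fin B =>
      (⟨⟨⟨(i : ℕ) + p * (j : ℕ), by have := hval j; omega⟩, hval j⟩, ?_⟩ : {x : T // q x = i})) ?_
    · rw [hq, hQ₀]
      refine Fin.ext ?_
      change ((i : ℕ) + p * (j : ℕ)) % p = i
      rw [Nat.add_mul_mod_self_left, Nat.mod_eq_of_lt i.2]
    · constructor
      · intro j j' h
        have h1 : (i : ℕ) + p * (j : ℕ) = (i : ℕ) + p * (j' : ℕ) :=
          congrArg (fun z : {x : T // q x = i} => ((z.1.1 : Fin n) : ℕ)) h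
        have h2 : p * (j : ℕ) = p * (j' : ℕ) := by omega
        exact Fin.ext (Nat.eq_of_mul_eq_mul_left hp0 h2)
      · rintro ⟨⟨x, hx⟩, hxi⟩
        have h1 : (x : ℕ) % p = i := congrArg (fun z : Fin p => (z : ℕ)) hxi
        have h2 := Nat.mod_add_div (x : ℕ) p
        have h3 : (x : ℕ) / p < B := by
          rw [Nat.div_lt_iff_lt_mul hp0, mul_comm B p]
          exact hx
        refine ⟨⟨(x : ℕ) / p, h3⟩, Subtype.ext (Subtype.ext (Fin.ext ?_))⟩
        change (i : ℕ) + p * ((x : ℕ) / p) = x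
        rw [← h1]
        exact h2
  have hTcard : Fintype.card T = p * B := by
    have h1 : Fintype.card T = m := by
      change Fintype.card {x : Fin n // (x : ℕ) < m} = m
      rw [Fintype.card_subtype]
      have h2 : (univ.filter fun x : Fin n => (x : ℕ) < m) =
          (Finset.range m).attach.image fun x => (⟨x.1, by
            have := Finset.mem_range.1 x.2
            omega⟩ : Fin n) := by
        ext x
        simp only [Finset.mem_filter, Finset.mem_univ, true_and, Finset.mem_image,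
          Finset.mem_attach, Subtype.exists, Finset.mem_range]
        constructor
        · intro hx
          exact ⟨x, hx, rfl⟩
        · rintro ⟨y, hy, rfl⟩
          exact hy
      rw [h2, Finset.card_image_of_injective, Finset.card_attach, Finset.card_range]
      intro x y h
      exact Subtype.ext (congrArg (fun z : Fin n => (z : ℕ)) h)
    exact h1
  have hbal := card_balanced q hTcard hTB
  -- the assignments
  set ext : Equiv.Perm T → Fin n → Fin p := fun τ x => Q₀ (Equiv.Perm.ofSubtype τ x) with hext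
  set 𝒬 : Finset (Fin n → Fin p) := (univ : Finset (Equiv.Perm T)).image ext with h𝒬
  have h𝒬card : ((univ : Finset (Equiv.Perm T)).image fun τ x => q (τ x)).card ≤ 𝒬.card := by
    have h1 : ((univ : Finset (Equiv.Perm T)).image fun τ x => q (τ x)) =
        𝒬.image fun Q (x : T) => Q x.1 := by
      rw [h𝒬, Finset.image_image]
      refine Finset.image_congr fun τ _ => ?_
      funext x
      rw [hext]
      simp only [Function.comp_apply]
      rw [Equiv.Perm.ofSubtype_apply_coe]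
    rw [h1]
    exact Finset.card_image_le
  have hQ𝒬 : ∀ Q ∈ 𝒬, (∀ x : Fin n, m ≤ (x : ℕ) → Q x = Q₀ x) ∧
      (Fintype.piFinset (Om A Q)).card = (Fintype.piFinset (Om A Q₀)).card := by
    intro Q hQ
    obtain ⟨τ, -, rfl⟩ := Finset.mem_image.1 hQ
    refine ⟨fun x hx => ?_, card_comp A Q₀ _⟩
    rw [hext]
    dsimp only
    rw [Equiv.Perm.ofSubtype_apply_of_not_mem τ (not_lt.2 hx)]
  -- vertices of the first part
  have hfirst : ∀ Q ∈ 𝒬, ∀ j : Fin p, ∃ S : Finset (Fin n),
      (∀ x ∈ S, m ≤ (x : ℕ) ∧ Q x = j) ∧ S.card = B := by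
    intro Q hQ j
    have hval : ∀ i : Fin B, m + ((j : ℕ) + p * (i : ℕ)) < n := by
      intro i
      have h1 : p * (i : ℕ) + p ≤ p * B := by
        have := Nat.mul_le_mul_left p (Nat.succ_le_of_lt i.2)
        rw [Nat.succ_eq_add_one, mul_add, mul_one] at this
        exact this
      have := j.2
      omega
    refine ⟨Finset.image (fun i : Fin B => (⟨m + ((j : ℕ) + p * (i : ℕ)), hval i⟩ : Fin n)) univ,
      fun x hx => ?_, ?_⟩
    · obtain ⟨i, -, rfl⟩ := Finset.mem_image.1 hx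
      refine ⟨Nat.le_add_right _ _, ?_⟩
      rw [(hQ𝒬 Q hQ).1 _ (Nat.le_add_right _ _), hQ₀]
      refine Fin.ext ?_
      change (m + ((j : ℕ) + p * (i : ℕ))) % p = j
      rw [hm, Nat.mul_add_mod, Nat.add_mul_mod_self_left, Nat.mod_eq_of_lt j.2]
    · rw [Finset.card_image_of_injective, Finset.card_univ, Fintype.card_fin]
      intro i i' h
      have h1 : m + ((j : ℕ) + p * (i : ℕ)) = m + ((j : ℕ) + p * (i' : ℕ)) :=
        congrArg (fun z : Fin n => (z : ℕ)) h
      have h2 : p * (i : ℕ) = p * (i' : ℕ) := by omega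
      exact Fin.ext (Nat.eq_of_mul_eq_mul_left hp0 h2)
  set X := (Fintype.piFinset (Om A Q₀)).card with hX
  have hDt : ∀ Q ∈ 𝒬, X ≤ 2 * (Dt A m Q).card := by
    intro Q hQ
    refine (hQ𝒬 Q hQ).2.symm.le.trans ?_
    refine card_Dt A m B Q (by omega) (hfirst Q hQ) ?_
    rw [hA]
    exact hB1
  -- union
  have hsub : 𝒬.biUnion (Dt A m) ⊆ cols k s r (⊤ : SimpleGraph (Fin n)) := by
    intro φ hφ
    obtain ⟨Q, hQ, hφQ⟩ := Finset.mem_biUnion.1 hφ
    have hφΩ := Fintype.mem_piFinset.1 (Finset.mem_filter.1 hφQ).1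
    rw [mem_cols]
    refine ⟨fun e => ?_, ?_⟩
    · induction e with
      | h x y =>
        rw [SimpleGraph.mem_edgeSet, SimpleGraph.top_adj]
        by_cases hxy : x = y
        · subst hxy
          have h1 := hφΩ s(x, x)
          rw [Om_diag, Finset.mem_singleton] at h1
          simp [h1]
        · have h1 := hφΩ s(x, y)
          have h2 : φ s(x, y) ≠ none := by
            by_cases hQxy : Q x = Q y
            · rw [Om_in A Q hxy hQxy, Finset.mem_map] at h1
              obtain ⟨c, -, hc⟩ := h1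
              rw [← hc]
              exact Option.some_ne_none c
            · rw [Om_cross A Q hQxy, Finset.mem_map] at h1
              obtain ⟨c, -, hc⟩ := h1
              rw [← hc]
              exact Option.some_ne_none c
          exact ⟨fun _ => hxy, fun _ => h2⟩
    · refine hadm n φ (fun v => ?_) Q A hA fun u v huv hQuv c hc => ?_
      · have h1 := hφΩ s(v, v)
        rwa [Om_diag, Finset.mem_singleton] at h1
      · have h1 := hφΩ s(u, v)
        rw [Om_in A Q huv hQuv, Finset.mem_map] at h1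
        obtain ⟨c', hc', hc''⟩ := h1
        rw [hc] at hc''
        have : c' = c := Option.some_injective _ hc''
        rwa [← this]
  have hunion : (𝒬.biUnion (Dt A m)).card = ∑ Q ∈ 𝒬, (Dt A m Q).card := by
    refine Finset.card_biUnion fun Q hQ Q' hQ' hne => Dt_disjoint A m Q Q' hne fun x hx => ?_
    rw [(hQ𝒬 Q hQ).1 x hx, (hQ𝒬 Q' hQ').1 x hx]
  have hmain : 𝒬.card * X ≤ 2 * (cols k s r (⊤ : SimpleGraph (Fin n))).card := by
    have h1 : 𝒬.card * X ≤ ∑ Q ∈ 𝒬, 2 * (Dt A m Q).card := by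
      rw [← smul_eq_mul]
      exact Finset.card_nsmul_le_sum _ _ _ hDt
    rw [← Finset.mul_sum, ← hunion] at h1
    exact h1.trans (Nat.mul_le_mul_left _ (Finset.card_le_card hsub))
  -- numbers
  set N := (cols k s r (⊤ : SimpleGraph (Fin n))).card with hN
  set e := (SimpleGraph.turanGraph n (k - 1)).edgeFinset.card with he
  have hXval : X = r ^ (SimpleGraph.turanGraph n p).edgeFinset.card *
      a ^ (n.choose 2 - (SimpleGraph.turanGraph n p).edgeFinset.card) := by
    rw [hX, hQ₀, card_turan A hp0, hA]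
  have hc₀' : (SimpleGraph.turanGraph n p).edgeFinset.card ≤ n.choose 2 := by
    have h1 : (SimpleGraph.turanGraph n p).edgeFinset ⊆
        (⊤ : SimpleGraph (Fin n)).edgeFinset :=
      SimpleGraph.edgeFinset_subset_edgeFinset.2 le_top
    have h2 := Finset.card_le_card h1
    rwa [SimpleGraph.card_edgeFinset_top_eq_card_choose_two, Fintype.card_fin] at h2
  have hEX : r ^ e ≤ X * r ^ c * a ^ (m + p) := by
    rw [hXval]
    exact numeric_final hp1 (by omega : p ≤ k - 1) (by omega) haK (turan_lower n p hp0) hc₀'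
      SimpleGraph.mul_card_edgeFinset_turanGraph_le hn2
  by_contra hcon
  push Not at hcon
  -- `p ^ m * r ^ e ≤ p ^ m * X * .. ≤ (m + 1) ^ p * |Q| * X * .. ≤ 2 (m + 1) ^ p * N * ..`
  have hEpos : 0 < r ^ e := pow_pos (by omega) _
  have h1 : p ^ m * r ^ e ≤ (2 * (m + 1) ^ p * (r ^ c * a ^ (m + p))) * r ^ e := by
    calc p ^ m * r ^ e ≤ p ^ m * (X * r ^ c * a ^ (m + p)) := Nat.mul_le_mul_left _ hEX
      _ ≤ ((m + 1) ^ p * 𝒬.card) * (X * r ^ c * a ^ (m + p)) :=
          Nat.mul_le_mul_right _ (hbal.trans (Nat.mul_le_mul_left _ h𝒬card))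
      _ = (𝒬.card * X) * ((m + 1) ^ p * (r ^ c * a ^ (m + p))) := by ring
      _ ≤ (2 * N) * ((m + 1) ^ p * (r ^ c * a ^ (m + p))) := Nat.mul_le_mul_right _ hmain
      _ ≤ (2 * r ^ e) * ((m + 1) ^ p * (r ^ c * a ^ (m + p))) :=
          Nat.mul_le_mul_right _ (Nat.mul_le_mul_left _ hcon)
      _ = _ := by ring
  have h2 : p ^ m ≤ 2 * (m + 1) ^ p * (r ^ c * a ^ (m + p)) := Nat.le_of_mul_le_mul_right h1 hEpos
  exact absurd hB2 (not_lt.2 h2)

end Pool.ER
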