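import Mathlib
import Pool.Agent.ER.Defs
import Pool.Agent.ER.PAT
import Pool.Agent.ER.TIEMain

set_option autoImplicit false

/-!
# TIE
-/

open Finset Filter

namespace Pool.ER

/-- if `K_n` wins the tie with the Turan graph -/
theorem tie_count {k s r d : ℕ} {g : ℝ} (H : Par k s r d g) (hgk : g = (k : ℝ) - 1) {p a : ℕ}
    (hS : LShape k d r g p a) (hp : 2 ≤ p) :
    ∀ᶠ n : ℕ in atTop, r ^ (SimpleGraph.turanGraph n (k - 1)).edgeFinset.card
      < (cols k s r (⊤ : SimpleGraph (Fin n))).card :=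
  TIE.tie_count_of H hgk hS (fun _ φ hdiag Q A hA hP => pure_adm H hS φ hdiag Q A hA hP) hp

end Pool.ER
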