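import Mathlib
import Pool.Agent.ER.Defs
import Pool.Agent.ER.EXA
import Pool.Agent.ER.FIN1
import Pool.Agent.ER.TIE
import Pool.Agent.ER.NUM2
import Pool.Agent.ER.LOW
import Pool.Agent.ER.PAT

set_option autoImplicit false

open Finset Filter

namespace Pool.ER

theorem FIN2_mem {V : Type} [Fintype V] [DecidableEq V] {k s r : ℕ} {G : SimpleGraph V} {φ : CG V r} :
    φ ∈ cols k s r G ↔ (∀ e : Sym2 V, φ e ≠ none ↔ e ∈ G.edgeSet) ∧ Adm k s φ := by
  classical
  simp [cols]

theorem FIN2_le_cnum {k s r n : ℕ} (G : SimpleGraph (Fin n)) :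
    (cols k s r G).card ≤ cnum k s r n := by
  classical
  exact Finset.le_sup (f := fun G : SimpleGraph (Fin n) => (cols k s r G).card) (mem_univ G)

theorem FIN2_exists (k s r n : ℕ) : ∃ G : SimpleGraph (Fin n), (cols k s r G).card = cnum k s r n := by
  classical
  obtain ⟨G, _, hG⟩ := Finset.exists_mem_eq_sup (univ : Finset (SimpleGraph (Fin n)))
    ⟨⊥, mem_univ _⟩ (fun G => (cols k s r G).card)
  refine ⟨G, ?_⟩
  rw [cnum, hG]

/-- invariance under isomorphism (one inequality) -/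
theorem FIN2_iso_le {k s r n : ℕ} {G G' : SimpleGraph (Fin n)} (e : G ≃g G') :
    (cols k s r G').card ≤ (cols k s r G).card := by
  classical
  refine Finset.card_le_card_of_injOn (fun φ => fun x => φ (x.map e)) ?_ ?_
  · intro φ hφ
    rw [Finset.mem_coe, FIN2_mem] at hφ ⊢
    refine ⟨?_, ?_⟩
    · intro x
      rw [hφ.1]
      induction x using Sym2.ind with
      | _ a b =>
        simp only [Sym2.map_mk, SimpleGraph.mem_edgeSet]
        exact e.map_adj_iff
    · intro w hw
      have h1 := hφ.2 (fun i => e (w i)) (fun i j hij => by simpa using hw i j hij)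
      have h2 : tupCols (fun x => φ (x.map e)) w = tupCols φ (fun i => e (w i)) := by
        ext c
        rw [tupCols, tupCols, Finset.mem_filter, Finset.mem_filter]
        exact Iff.rfl
      show (tupCols (fun x => φ (x.map e)) w).card < s
      rw [h2]
      exact h1
  · intro φ _ ψ _ h
    funext x
    have h1 := congrFun h (x.map e.symm)
    simp only [Sym2.map_map] at h1
    have h2 : (e : Fin n → Fin n) ∘ (e.symm : Fin n → Fin n) = id := by
      funext y; simp
    rw [h2, Sym2.map_id] at h1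
    exact h1

theorem FIN2_iso {k s r n : ℕ} {G G' : SimpleGraph (Fin n)} (e : G ≃g G') :
    (cols k s r G).card = (cols k s r G').card :=
  le_antisymm (FIN2_iso_le e.symm) (FIN2_iso_le e)

/-- adding a missing edge to a graph all of whose (most) colourings are loop pure -/
theorem FIN2_add {k s r d : ℕ} {g : ℝ} (H : Par k s r d g) {n : ℕ} (G : SimpleGraph (Fin n))
    (F : Finset (CG (Fin n) r)) (hF : F ⊆ cols k s r G)
    (hp : ∀ φ ∈ F, ∃ p a : ℕ, LShape k d r g p a ∧ ∃ (Q : Fin n → Fin p) (A : Finset (Fin r)),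
        A.card = a ∧ Pure φ Q A) {u v : Fin n} (huv : u ≠ v) (hadj : ¬ G.Adj u v) :
    2 * F.card ≤ cnum k s r n := by
  classical
  -- two colours for every φ
  have hch : ∀ φ : CG (Fin n) r, ∃ c : Bool → Fin r, φ ∈ F → (c false ≠ c true ∧
      ∀ b, Adm k s (Function.update φ s(u, v) (some (c b)))) := by
    intro φ
    by_cases hφ : φ ∈ F
    · obtain ⟨p, a, hS, Q, A, hA, hP⟩ := hp φ hφ
      have h2 : 1 < A.card := by rw [hA]; exact hS.1
      obtain ⟨x, hx, y, hy, hxy⟩ := Finset.one_lt_card.1 h2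
      refine ⟨fun b => if b then x else y, fun _ => ⟨by simpa using hxy.symm, fun b => ?_⟩⟩
      have hc : (if b then x else y) ∈ A := by split_ifs <;> assumption
      refine pure_adm H hS _ ?_ Q A hA ?_
      · intro w
        have hne : s(w, w) ≠ s(u, v) := by
          intro h
          rw [Sym2.eq_iff] at h
          rcases h with ⟨h1, h2⟩ | ⟨h1, h2⟩
          · exact huv (h1.symm.trans h2)
          · exact huv (h2.symm.trans h1)
        rw [Function.update_of_ne hne]
        have h3 := (FIN2_mem.1 (hF hφ)).1 s(w, w)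
        by_contra h4
        have := h3.1 h4
        simp at this
      · intro x' y' hxy' hQ c hcc
        by_cases hne : s(x', y') = s(u, v)
        · rw [hne, Function.update_self] at hcc
          rw [Option.some.injEq] at hcc
          rw [← hcc]; exact hc
        · rw [Function.update_of_ne hne] at hcc
          exact hP x' y' hxy' hQ c hcc
    · have hr0 : 0 < r := by have := H.hs; have := H.hsr; omega
      exact ⟨fun _ => ⟨0, hr0⟩, fun h => absurd h hφ⟩
  choose cc hcc using hch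
  set G' := G ⊔ SimpleGraph.edge u v with hG'
  have hG'adj : ∀ x y, G'.Adj x y ↔ G.Adj x y ∨ s(x, y) = s(u, v) := by
    intro x y
    rw [hG', SimpleGraph.sup_adj, SimpleGraph.edge_adj]
    constructor
    · rintro (h | ⟨h, _⟩)
      · exact Or.inl h
      · right; rw [Sym2.eq_iff]; exact h
    · rintro (h | h)
      · exact Or.inl h
      · right
        rw [Sym2.eq_iff] at h
        refine ⟨h, ?_⟩
        rcases h with ⟨h1, h2⟩ | ⟨h1, h2⟩
        · rw [h1, h2]; exact huv
        · rw [h1, h2]; exact huv.symm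
  have h1 : (F ×ˢ (univ : Finset Bool)).card ≤ (cols k s r G').card := by
    refine Finset.card_le_card_of_injOn
      (fun z => Function.update z.1 s(u, v) (some (cc z.1 z.2))) ?_ ?_
    · rintro ⟨φ, b⟩ hz
      rw [Finset.mem_coe, Finset.mem_product] at hz
      have hφ : φ ∈ F := hz.1
      rw [Finset.mem_coe, FIN2_mem]
      refine ⟨?_, (hcc φ hφ).2 b⟩
      intro e
      have h3 := (FIN2_mem.1 (hF hφ)).1 e
      induction e using Sym2.ind with
      | _ x y =>
        rw [SimpleGraph.mem_edgeSet, hG'adj]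
        by_cases hne : s(x, y) = s(u, v)
        · simp only [hne, Function.update_self]
          simp
        · simp only [Function.update_of_ne hne]
          rw [h3, SimpleGraph.mem_edgeSet]
          simp [hne]
    · rintro ⟨φ, b⟩ hz ⟨ψ, b'⟩ hz' heq
      rw [Finset.mem_coe, Finset.mem_product] at hz hz'
      have hφ : φ ∈ F := hz.1
      have hψ : ψ ∈ F := hz'.1
      simp only at heq
      have hnone : ∀ χ ∈ F, χ s(u, v) = none := by
        intro χ hχ
        have h3 := (FIN2_mem.1 (hF hχ)).1 s(u, v)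
        by_contra h4
        exact hadj ((SimpleGraph.mem_edgeSet _).1 (h3.1 h4))
      have h4 : φ = ψ := by
        funext e
        by_cases hne : e = s(u, v)
        · rw [hne, hnone φ hφ, hnone ψ hψ]
        · have := congrFun heq e
          rwa [Function.update_of_ne hne, Function.update_of_ne hne] at this
      subst h4
      have h5 := congrFun heq s(u, v)
      rw [Function.update_self, Function.update_self, Option.some.injEq] at h5
      have h6 := (hcc φ hφ).1
      have h7 : b = b' := by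
        cases b <;> cases b' <;> simp_all
      rw [h7]
  rw [Finset.card_product] at h1
  simp only [card_univ, Fintype.card_bool] at h1
  have h2 := FIN2_le_cnum (k := k) (s := s) (r := r) G'
  omega

theorem FIN2_colorable {k s r : ℕ} {n : ℕ} {G : SimpleGraph (Fin n)} {φ : CG (Fin n) r}
    (hφ : φ ∈ cols k s r G) {p : ℕ} {Q : Fin n → Fin p} (hP : Pure φ Q (∅ : Finset (Fin r))) :
    G.Colorable p := by
  refine ⟨SimpleGraph.Coloring.mk Q ?_⟩
  intro u v huv hQ
  have h1 := ((FIN2_mem.1 hφ).1 s(u, v)).2 ((SimpleGraph.mem_edgeSet _).2 huv)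
  obtain ⟨c, hc⟩ := Option.ne_none_iff_exists'.1 h1
  have := hP u v huv.ne hQ c hc
  simp at this

open Classical in
/-- extremal graphs are `⊤` or the Turán graph -/
theorem FIN2_dich {k s r d : ℕ} {g : ℝ} (H : Par k s r d g)
    (hS : ∃ p a : ℕ, Shape k d r g p a) :
    ∀ᶠ n : ℕ in atTop, ∀ G : SimpleGraph (Fin n), (cols k s r G).card = cnum k s r n →
      Nonempty (G ≃g SimpleGraph.turanGraph n (k - 1)) ∨
      (G = ⊤ ∧ ∃ F ⊆ cols k s r G, 3 * cnum k s r n ≤ 4 * F.card ∧
        ∀ φ ∈ F, ∃ p a : ℕ, LShape k d r g p a ∧ ∃ (Q : Fin n → Fin p) (A : Finset (Fin r)),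
        A.card = a ∧ Pure φ Q A) := by
  have hk := H.hk
  have hr1 : 1 < r := by have := H.hs; have := H.hsr; omega
  filter_upwards [exact_pure H hS] with n hn G hG
  set E := (cols k s r G).filter fun φ => ¬ ∃ p a : ℕ, Shape k d r g p a ∧
    ∃ (Q : Fin n → Fin p) (A : Finset (Fin r)), A.card = a ∧ Pure φ Q A with hE
  have h1 := hn G hG E (Finset.filter_subset _ _) (fun φ hφ => (Finset.mem_filter.1 hφ).2)
  by_cases hT : ∃ φ ∈ cols k s r G, ∃ (p a : ℕ), TShape k g p a ∧
      ∃ (Q : Fin n → Fin p) (A : Finset (Fin r)), A.card = a ∧ Pure φ Q A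
  · left
    obtain ⟨φ, hφ, p, a, hT, Q, A, hA, hP⟩ := hT
    obtain ⟨ha, hp, hgk⟩ := hT
    subst ha
    rw [Finset.card_eq_zero] at hA
    subst hA
    have hcol := FIN2_colorable hφ hP
    subst hp
    have hfree : G.CliqueFree k := hcol.cliqueFree (by omega)
    have hTfree : (SimpleGraph.turanGraph n (k - 1)).CliqueFree k := by
      have := SimpleGraph.turanGraph_cliqueFree (n := n) (r := k - 1) (by omega)
      rwa [Nat.sub_add_cancel (by omega)] at this
    have e1 := cols_card_of_cliqueFree (s := s) (r := r) (by omega) G hfree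
    have e2 := cols_card_of_cliqueFree (s := s) (r := r) (by omega) (SimpleGraph.turanGraph n (k - 1)) hTfree
    have e3 := FIN2_le_cnum (k := k) (s := s) (r := r) (SimpleGraph.turanGraph n (k - 1))
    rw [← hG, e1, e2] at e3
    have e4 : (SimpleGraph.turanGraph n (k - 1)).edgeFinset.card ≤ G.edgeFinset.card :=
      (Nat.pow_le_pow_iff_right hr1).1 e3
    have hTm := SimpleGraph.isTuranMaximal_turanGraph (n := n) (r := k - 1) (by omega)
    have hGm : G.IsTuranMaximal (k - 1) := by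
      refine ⟨by show G.CliqueFree (k - 1 + 1); rwa [Nat.sub_add_cancel (by omega)], ?_⟩
      intro G' _ hG'
      refine le_trans ?_ e4
      have := hTm.2 hG'
      convert! this
    have := (SimpleGraph.isTuranMaximal_iff_nonempty_iso_turanGraph (G := G) (r := k - 1) (by omega)).1 hGm
    rwa [Fintype.card_fin] at this
  · right
    push_neg at hT
    set F := cols k s r G \ E with hF
    have hFsub : F ⊆ cols k s r G := Finset.sdiff_subset
    have hFc : 3 * cnum k s r n ≤ 4 * F.card := by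
      have h2 : F.card = (cols k s r G).card - E.card :=
        Finset.card_sdiff_of_subset (Finset.filter_subset _ _)
      have h3 : E.card ≤ (cols k s r G).card := Finset.card_le_card (Finset.filter_subset _ _)
      omega
    have hFp : ∀ φ ∈ F, ∃ p a : ℕ, LShape k d r g p a ∧
        ∃ (Q : Fin n → Fin p) (A : Finset (Fin r)), A.card = a ∧ Pure φ Q A := by
      intro φ hφ
      rw [hF, Finset.mem_sdiff] at hφ
      have h2 : ∃ p a : ℕ, Shape k d r g p a ∧
          ∃ (Q : Fin n → Fin p) (A : Finset (Fin r)), A.card = a ∧ Pure φ Q A := by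
        by_contra h
        exact hφ.2 (Finset.mem_filter.2 ⟨hφ.1, h⟩)
      obtain ⟨p, a, hS | hS, Q, A, hA, hP⟩ := h2
      · exact ⟨p, a, hS, Q, A, hA, hP⟩
      · exact absurd hP (hT φ hφ.1 p a hS Q A hA)
    refine ⟨?_, F, hFsub, hFc, hFp⟩
    by_contra hne
    obtain ⟨u, v, huv, hadj⟩ : ∃ u v : Fin n, u ≠ v ∧ ¬ G.Adj u v := by
      by_contra h
      push_neg at h
      apply hne
      ext a b
      rw [SimpleGraph.top_adj]
      exact ⟨fun h' => h'.ne, fun h' => h a b h'⟩
    have h4 := FIN2_add H G F hFsub hFp huv hadj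
    have h5 : 1 ≤ cnum k s r n := one_le_cnum (by omega) (by have := H.hs; omega)
    omega

theorem FIN2_Ik_one (k : ℕ) : Ik k ((1 : ℕ) : ℝ) = k.choose 2 := by
  unfold Ik
  have : ∀ l ∈ range k, ⌊(l : ℝ) / ((1 : ℕ) : ℝ)⌋₊ = l := by
    intro l _
    rw [Nat.cast_one, div_one, Nat.floor_natCast]
  rw [Finset.sum_congr rfl this, Finset.sum_range_id, Nat.choose_two_right]

theorem FIN2_Ik_le {k p : ℕ} (hp : 1 ≤ p) : Ik k (p : ℝ) ≤ k.choose 2 := by
  unfold Ik
  calc ∑ l ∈ range k, ⌊(l : ℝ) / (p : ℝ)⌋₊ ≤ ∑ l ∈ range k, l := by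
        refine Finset.sum_le_sum fun l _ => ?_
        have h1 : (l : ℝ) / (p : ℝ) ≤ l := div_le_self (Nat.cast_nonneg _) (by exact_mod_cast hp)
        calc ⌊(l : ℝ) / (p : ℝ)⌋₊ ≤ ⌊(l : ℝ)⌋₊ := Nat.floor_mono h1
          _ = l := Nat.floor_natCast l
    _ = k.choose 2 := by rw [Finset.sum_range_id, Nat.choose_two_right]

/-- `x * beta r a ≤ / ≥ p` in terms of powers, for `x = k - 1` -/
theorem FIN2_beta_le {k r a p : ℕ} (hk : 3 ≤ k) (hr : 1 < r) (ha : 1 ≤ a) (hp : p ≤ k - 1) :
    (p : ℝ) ≤ ((k : ℝ) - 1) * beta r a ↔ a ^ (k - 1) ≤ r ^ (k - 1 - p) := by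
  have hlr : 0 < Real.log r := Real.log_pos (by exact_mod_cast hr)
  have ha' : (0 : ℝ) < a := by exact_mod_cast ha
  have hr' : (0 : ℝ) < r := by exact_mod_cast (by omega : 0 < r)
  have h1 : (a ^ (k - 1) ≤ r ^ (k - 1 - p)) ↔
      Real.log ((a : ℝ) ^ (k - 1)) ≤ Real.log ((r : ℝ) ^ (k - 1 - p)) := by
    rw [Real.log_le_log_iff (by positivity) (by positivity)]
    exact_mod_cast Iff.rfl
  rw [h1, Real.log_pow, Real.log_pow, beta, Nat.cast_sub hp, Nat.cast_sub (by omega : 1 ≤ k)]
  push_cast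
  have h2 : ((k : ℝ) - 1) * (1 - Real.log a / Real.log r) =
      (((k : ℝ) - 1) * (Real.log r - Real.log a)) / Real.log r := by
    field_simp
  rw [h2, le_div_iff₀ hlr]
  constructor <;> intro h <;> linarith

theorem FIN2_beta_lt {k r a p : ℕ} (hk : 3 ≤ k) (hr : 1 < r) (ha : 1 ≤ a) (hp : p ≤ k - 1) :
    ((k : ℝ) - 1) * beta r a < p ↔ r ^ (k - 1 - p) < a ^ (k - 1) := by
  rw [← not_le, ← not_le, not_iff_not]
  exact FIN2_beta_le hk hr ha hp

theorem FIN2_turan_lower (n m : ℕ) (hm : 1 ≤ m) :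
    (1 - 1 / (m : ℝ)) * (n : ℝ) ^ 2 / 2 - (m : ℝ) ^ 2 - 1 ≤
      ((SimpleGraph.turanGraph n m).edgeFinset.card : ℝ) := by
  rw [SimpleGraph.card_edgeFinset_turanGraph]
  have hm0 : (0 : ℝ) < m := by exact_mod_cast hm
  have h1 : ((n ^ 2 - (n % m) ^ 2) * (m - 1) : ℕ) < (2 * m) * ((n ^ 2 - (n % m) ^ 2) * (m - 1) / (2 * m) + 1) :=
    Nat.lt_mul_div_succ _ (by omega)
  have h2 : (n % m) ^ 2 ≤ n ^ 2 := Nat.pow_le_pow_left (Nat.mod_le _ _) 2
  have h3 : (((n : ℝ) ^ 2 - ((n % m : ℕ) : ℝ) ^ 2) * ((m : ℝ) - 1)) <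
      (2 * m) * ((((n ^ 2 - (n % m) ^ 2) * (m - 1) / (2 * m) : ℕ) : ℝ) + 1) := by
    have h4 : (((n ^ 2 - (n % m) ^ 2) * (m - 1) : ℕ) : ℝ) <
        (((2 * m) * ((n ^ 2 - (n % m) ^ 2) * (m - 1) / (2 * m) + 1) : ℕ) : ℝ) := by
      exact_mod_cast h1
    rw [Nat.cast_mul, Nat.cast_sub h2, Nat.cast_sub hm] at h4
    push_cast at h4 ⊢
    exact h4
  have h5 : ((n % m : ℕ) : ℝ) ≤ m := by exact_mod_cast (Nat.mod_lt n (by omega)).le
  have h6 : (0 : ℝ) ≤ ((n % m : ℕ) : ℝ) := Nat.cast_nonneg _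
  have h7 : ((n % m : ℕ) : ℝ) ^ 2 ≤ (m : ℝ) ^ 2 := by gcongr
  push_cast
  set X := (((n ^ 2 - (n % m) ^ 2) * (m - 1) / (2 * m) : ℕ) : ℝ) with hX
  have hch : (0 : ℝ) ≤ ((n % m).choose 2 : ℕ) := Nat.cast_nonneg _
  -- X ≥ ((n^2 - m^2)(m-1))/(2m) - 1
  have h8 : ((n : ℝ) ^ 2 - (m : ℝ) ^ 2) * ((m : ℝ) - 1) < (2 * m) * (X + 1) := by
    refine lt_of_le_of_lt ?_ h3
    have : (0 : ℝ) ≤ (m : ℝ) - 1 := by
      have : (1 : ℝ) ≤ m := by exact_mod_cast hm
      linarith
    nlinarith
  have h9 : (1 - 1 / (m : ℝ)) * (n : ℝ) ^ 2 / 2 = ((n : ℝ) ^ 2 * ((m : ℝ) - 1)) / (2 * m) := by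
    field_simp
  have h10 : ((n : ℝ) ^ 2 * ((m : ℝ) - 1)) / (2 * m) ≤ X + 1 + (m : ℝ) ^ 2 := by
    rw [div_le_iff₀ (by positivity)]
    have : (1 : ℝ) ≤ m := by exact_mod_cast hm
    have h11 : (m : ℝ) ^ 2 * ((m : ℝ) - 1) ≤ 2 * (m : ℝ) ^ 2 * m := by
      have h12 : (0 : ℝ) ≤ (m : ℝ) ^ 2 := by positivity
      nlinarith
    nlinarith
  rw [h9]
  linarith

theorem FIN2_turan_upper (n m : ℕ) (hm : 1 ≤ m) :
    ((SimpleGraph.turanGraph n m).edgeFinset.card : ℝ) ≤ (1 - 1 / (m : ℝ)) * (n : ℝ) ^ 2 / 2 := by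
  have h1 := SimpleGraph.mul_card_edgeFinset_turanGraph_le (n := n) (r := m)
  have h2 : ((2 * m * (SimpleGraph.turanGraph n m).edgeFinset.card : ℕ) : ℝ) ≤ (((m - 1) * n ^ 2 : ℕ) : ℝ) := by
    exact_mod_cast h1
  rw [Nat.cast_mul ((m : ℕ) - 1), Nat.cast_sub hm] at h2
  push_cast at h2
  have hm0 : (0 : ℝ) < m := by exact_mod_cast hm
  have h9 : (1 - 1 / (m : ℝ)) * (n : ℝ) ^ 2 / 2 = (((m : ℝ) - 1) * (n : ℝ) ^ 2) / (2 * m) := by
    field_simp
  rw [h9, le_div_iff₀ (by positivity)]
  linarith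

theorem FIN2_turan_cols {k s r n : ℕ} (hk : 3 ≤ k) :
    (cols k s r (SimpleGraph.turanGraph n (k - 1))).card =
      r ^ (SimpleGraph.turanGraph n (k - 1)).edgeFinset.card := by
  apply cols_card_of_cliqueFree (by omega)
  have := SimpleGraph.turanGraph_cliqueFree (n := n) (r := k - 1) (by omega)
  rwa [Nat.sub_add_cancel (by omega)] at this

/-- if `KS` then the Turán graph is not extremal -/
theorem FIN2_KS {k s r d : ℕ} {g : ℝ} (H : Par k s r d g)
    (hS : ∃ p a : ℕ, Shape k d r g p a) (hKS : KS k s d r) :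
    ∀ᶠ n : ℕ in atTop, (cols k s r (SimpleGraph.turanGraph n (k - 1))).card < cnum k s r n := by
  have hk := H.hk
  have hr1 : 1 < r := by have := H.hs; have := H.hsr; omega
  have hr' : (1 : ℝ) < r := by exact_mod_cast hr1
  rcases H.hg.lt_or_eq with hgk | hgk
  · -- g > k-1
    obtain ⟨p, a, hS⟩ := hS
    obtain ⟨B, hB⟩ := lower_bound H hS
    have hk1 : (0 : ℝ) < (k : ℝ) - 1 := by
      have : (3 : ℝ) ≤ k := by exact_mod_cast hk
      linarith
    have hg0 : 0 < g := hk1.trans hgk
    have hc : 0 < 1 / ((k : ℝ) - 1) - 1 / g := by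
      rw [sub_pos]
      exact one_div_lt_one_div_of_lt hk1 hgk
    set c := 1 / ((k : ℝ) - 1) - 1 / g with hcdef
    filter_upwards [eventually_ge_atTop (⌈(4 * |B| + 4) / c⌉₊ + 1)] with n hn
    rw [FIN2_turan_cols hk]
    have hn1 : (4 * |B| + 4) / c + 1 ≤ n := by
      have h1 : (4 * |B| + 4) / c ≤ (⌈(4 * |B| + 4) / c⌉₊ : ℕ) := Nat.le_ceil _
      have h2 : ((⌈(4 * |B| + 4) / c⌉₊ : ℕ) : ℝ) + 1 ≤ n := by exact_mod_cast hn
      linarith
    have hn2 : 4 * |B| + 4 ≤ c * n := by
      have h1 : (4 * |B| + 4) / c ≤ n := by linarith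
      rw [div_le_iff₀ hc] at h1
      linarith
    have hn3 : (1 : ℝ) ≤ n := by
      have : 0 ≤ (4 * |B| + 4) / c := by positivity
      linarith
    have h1 := FIN2_turan_upper n (k - 1) (by omega)
    have h2 := hB n
    have h3 : (((k - 1 : ℕ)) : ℝ) = (k : ℝ) - 1 := by rw [Nat.cast_sub (by omega)]; simp
    rw [h3] at h1
    have h4 : ((SimpleGraph.turanGraph n (k - 1)).edgeFinset.card : ℝ) < lc k s r n := by
      have h5 : B ≤ |B| := le_abs_self B
      have h6 : (0 : ℝ) ≤ |B| := abs_nonneg B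
      have h7 : c * (n : ℝ) ^ 2 / 2 ≥ (4 * |B| + 4) * n / 2 := by
        have : c * (n : ℝ) ^ 2 = (c * n) * n := by ring
        rw [this]
        have : (4 * |B| + 4) * n ≤ (c * n) * n := by
          apply mul_le_mul_of_nonneg_right hn2 (by linarith)
        linarith
      have h8 : (1 - 1 / g) * (n : ℝ) ^ 2 / 2 =
          (1 - 1 / ((k : ℝ) - 1)) * (n : ℝ) ^ 2 / 2 + c * (n : ℝ) ^ 2 / 2 := by
        rw [hcdef]; ring
      nlinarith
    have h5 : (1 : ℝ) ≤ cnum k s r n := by
      exact_mod_cast one_le_cnum (k := k) (s := s) (r := r) (n := n) (by omega) (by have := H.hs; omega)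
    have h6 : ((r : ℝ)) ^ (((SimpleGraph.turanGraph n (k - 1)).edgeFinset.card : ℕ) : ℝ) <
        (r : ℝ) ^ (lc k s r n) := Real.rpow_lt_rpow_of_exponent_lt hr' h4
    rw [lc, Real.rpow_logb (by linarith) hr'.ne' (by linarith), Real.rpow_natCast] at h6
    exact_mod_cast h6
  · -- g = k-1
    have hgk' : g = (k : ℝ) - 1 := hgk.symm
    rcases hKS with h | ⟨p, a, hp2, hpk, ha, hI, h⟩
    · exfalso
      have h1 := H.hgp 1 (s - 1) le_rfl (by omega) (by have := H.hs; omega) (by
        rw [FIN2_Ik_one]; have := H.hsd; have := H.hs; omega)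
      rw [hgk', FIN2_beta_le hk hr1 (by have := H.hs; omega) (by omega)] at h1
      have h2 : k - 1 - 1 = k - 2 := by omega
      rw [h2] at h1
      omega
    · have h1 := H.hgp p a (by omega) hpk ha hI
      have h2 : g * beta r a = p := by
        refine le_antisymm ?_ h1
        rw [hgk']
        by_contra hlt
        push_neg at hlt
        rw [hgk', FIN2_beta_le hk hr1 ha (by omega)] at h1
        have h3 : a ^ (k - 1) = r ^ (k - 1 - p) := le_antisymm h1 h
        -- equality of logs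
        have hlr : 0 < Real.log r := Real.log_pos hr'
        have h4 : Real.log ((a : ℝ) ^ (k - 1)) = Real.log ((r : ℝ) ^ (k - 1 - p)) := by
          congr 1
          exact_mod_cast h3
        rw [Real.log_pow, Real.log_pow, Nat.cast_sub (by omega : p ≤ k - 1),
          Nat.cast_sub (by omega : 1 ≤ k)] at h4
        push_cast at h4
        have h5 : ((k : ℝ) - 1) * beta r a = p := by
          rw [beta]
          field_simp
          linarith
        linarith
      have ha2 : 2 ≤ a := by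
        by_contra hlt
        have : a = 1 := by omega
        subst this
        rw [one_pow] at h
        have h3 : 1 < r ^ (k - 1 - p) := Nat.one_lt_pow (by omega) hr1
        omega
      have hlt : a < s := by
        have h3 := FIN2_Ik_le (k := k) (p := p) (by omega)
        have := H.hsd
        omega
      obtain ⟨_, h3⟩ := numeric H (t := a) ha hlt
      rw [h2] at h3
      obtain ⟨p', hL⟩ := h3 (by omega)
      have hpp : p' = p := by
        have h4 := hL.2.2.2.2.1
        rw [h2] at h4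
        exact_mod_cast h4.symm
      subst hpp
      filter_upwards [tie_count H hgk' hL hp2] with n hn
      rw [FIN2_turan_cols hk]
      exact lt_of_lt_of_le hn (FIN2_le_cnum _)

/-- number of colourings with all colours in a set of size `m` -/
theorem FIN2_count {k s r n m : ℕ} (F : Finset (CG (Fin n) r))
    (hF : F ⊆ cols k s r (⊤ : SimpleGraph (Fin n)))
    (hp : ∀ φ ∈ F, ∃ A : Finset (Fin r), A.card = m ∧ ∀ u v : Fin n, u ≠ v → ∀ c, φ s(u, v) = some c → c ∈ A) :
    F.card ≤ 2 ^ r * m ^ (n.choose 2) := by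
  classical
  have h1 : F ⊆ ((univ : Finset (Finset (Fin r))).filter fun A => A.card = m).biUnion fun A =>
      F.filter fun φ => ∀ u v : Fin n, u ≠ v → ∀ c, φ s(u, v) = some c → c ∈ A := by
    intro φ hφ
    obtain ⟨A, hA, h⟩ := hp φ hφ
    rw [Finset.mem_biUnion]
    exact ⟨A, by simp [hA], Finset.mem_filter.2 ⟨hφ, h⟩⟩
  refine (Finset.card_le_card h1).trans (Finset.card_biUnion_le.trans ?_)
  have h2 : ∀ A ∈ (univ : Finset (Finset (Fin r))).filter (fun A => A.card = m),
      (F.filter fun φ => ∀ u v : Fin n, u ≠ v → ∀ c, φ s(u, v) = some c → c ∈ A).card ≤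
        m ^ (n.choose 2) := by
    intro A hA
    have hAm : A.card = m := (Finset.mem_filter.1 hA).2
    let Ω : Sym2 (Fin n) → Finset (Option (Fin r)) := fun e =>
      if e.IsDiag then {none} else A.map ⟨some, Option.some_injective _⟩
    have h3 : (F.filter fun φ => ∀ u v : Fin n, u ≠ v → ∀ c, φ s(u, v) = some c → c ∈ A) ⊆
        Fintype.piFinset Ω := by
      intro φ hφ
      rw [Finset.mem_filter] at hφ
      rw [Fintype.mem_piFinset]
      intro e
      have h4 := (FIN2_mem.1 (hF hφ.1)).1 e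
      induction e using Sym2.ind with
      | _ x y =>
        rw [SimpleGraph.mem_edgeSet, SimpleGraph.top_adj] at h4
        by_cases hxy : x = y
        · simp only [Ω, Sym2.mk_isDiag_iff, hxy, if_true, Finset.mem_singleton]
          by_contra h5
          rw [hxy] at h4
          exact (h4.1 h5) rfl
        · simp only [Ω, Sym2.mk_isDiag_iff, hxy, if_false]
          obtain ⟨c, hc⟩ := Option.ne_none_iff_exists'.1 (h4.2 hxy)
          rw [hc]
          simp only [Finset.mem_map, Function.Embedding.coeFn_mk, Option.some.injEq, exists_eq_right]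
          exact hφ.2 x y hxy c hc
    refine (Finset.card_le_card h3).trans ?_
    rw [Fintype.card_piFinset]
    have h4 : ∀ e : Sym2 (Fin n), (Ω e).card = if e.IsDiag then 1 else m := by
      intro e
      simp only [Ω]
      split_ifs
      · simp
      · rw [Finset.card_map, hAm]
    rw [Finset.prod_congr rfl (fun e _ => h4 e), Finset.prod_ite, Finset.prod_const_one, one_mul,
      Finset.prod_const]
    apply le_of_eq
    congr 1
    have h5 := Sym2.card_subtype_not_diag (α := Fin n)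
    rw [Fintype.card_fin, Fintype.card_subtype] at h5
    exact h5
  refine (Finset.sum_le_sum h2).trans ?_
  rw [Finset.sum_const, smul_eq_mul]
  refine Nat.mul_le_mul_right _ ((Finset.card_le_univ _).trans ?_)
  simp

/-- if not `KS` then `⊤` is not extremal -/
theorem FIN2_notKS {k s r d : ℕ} {g : ℝ} (H : Par k s r d g)
    (hS : ∃ p a : ℕ, Shape k d r g p a) (hKS : ¬ KS k s d r) :
    ∀ᶠ n : ℕ in atTop, (cols k s r (⊤ : SimpleGraph (Fin n))).card ≠ cnum k s r n := by
  have hk := H.hk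
  have hs := H.hs
  have hr1 : 1 < r := by have := H.hs; have := H.hsr; omega
  have hr' : (1 : ℝ) < r := by exact_mod_cast hr1
  have hlr : 0 < Real.log r := Real.log_pos hr'
  have hk1 : (0 : ℝ) < (k : ℝ) - 1 := by
    have : (3 : ℝ) ≤ k := by exact_mod_cast hk
    linarith
  rw [KS, not_or] at hKS
  obtain ⟨hK1, hK2⟩ := hKS
  push_neg at hK1 hK2
  -- every LShape for g has p = 1 and a = s-1; g = k-1
  have hL : ∀ p a : ℕ, LShape k d r g p a → a = s - 1 ∧ ((k : ℝ) - 1) * beta r a < p → False := by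
    rintro p a hL ⟨ha, hlt⟩
    obtain ⟨h1, h2, h3, h4, h5, h6⟩ := hL
    rw [FIN2_beta_lt hk hr1 (by omega) (by omega)] at hlt
    by_cases hp : p = 1
    · subst hp
      subst ha
      have : k - 1 - 1 = k - 2 := by omega
      rw [this] at hlt
      omega
    · have := hK2 p a (by omega) h3 (by omega) h4
      omega
  have hL2 : ∀ p a : ℕ, LShape k d r g p a → p = 1 → a = s - 1 := by
    rintro p a ⟨h1, h2, h3, h4, h5, h6⟩ hp
    subst hp
    rw [FIN2_Ik_one] at h4
    have := H.hsd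
    omega
  have hgk : g = (k : ℝ) - 1 := by
    by_contra hne
    have hlt : (k : ℝ) - 1 < g := lt_of_le_of_ne H.hg (Ne.symm hne)
    obtain ⟨p, a, hS | hS⟩ := hS
    · obtain ⟨h1, h2, h3, h4, h5, h6⟩ := hS
      have har : a < r := by
        have h3 := FIN2_Ik_le (k := k) (p := p) (by omega)
        have := H.hsd; have := H.hsr
        omega
      have hb : 0 < beta r a := by
        rw [beta, sub_pos, div_lt_one hlr]
        exact Real.log_lt_log (by exact_mod_cast (by omega : 0 < a)) (by exact_mod_cast har)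
      have h7 : ((k : ℝ) - 1) * beta r a < p := by
        rw [← h5]
        exact mul_lt_mul_of_pos_right hlt hb
      have h8 := h7
      rw [FIN2_beta_lt hk hr1 (by omega) (by omega)] at h8
      by_cases hp : p = 1
      · exact hL p a ⟨h1, h2, h3, h4, h5, h6⟩ ⟨hL2 p a ⟨h1, h2, h3, h4, h5, h6⟩ hp, h7⟩
      · have := hK2 p a (by omega) h3 (by omega) h4
        omega
    · exact hne hS.2.2
  have hL3 : ∀ p a : ℕ, LShape k d r g p a → p = 1 ∧ a = s - 1 := by
    intro p a hL'
    have hL'' := hL'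
    obtain ⟨h1, h2, h3, h4, h5, h6⟩ := hL''
    by_cases hp : p = 1
    · exact ⟨hp, hL2 p a hL' hp⟩
    · exfalso
      have h7 : ¬ ((k : ℝ) - 1) * beta r a > p := by
        rw [hgk] at h5
        linarith
      have h8 := hK2 p a (by omega) h3 (by omega) h4
      -- a^(k-1) < r^(k-1-p), so p < (k-1) beta
      apply h7
      have h9 : Real.log ((a : ℝ) ^ (k - 1)) < Real.log ((r : ℝ) ^ (k - 1 - p)) := by
        apply Real.log_lt_log
        · have : (0 : ℝ) < a := by exact_mod_cast (by omega : 0 < a)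
          positivity
        · exact_mod_cast h8
      rw [Real.log_pow, Real.log_pow, Nat.cast_sub (by omega : p ≤ k - 1),
          Nat.cast_sub (by omega : 1 ≤ k)] at h9
      push_cast at h9
      have h10 : ((k : ℝ) - 1) * beta r a =
          (((k : ℝ) - 1) * (Real.log r - Real.log a)) / Real.log r := by
        rw [beta]; field_simp
      rw [h10, gt_iff_lt, lt_div_iff₀ hlr]
      linarith
  filter_upwards [FIN2_dich H hS, eventually_ge_atTop (max k 1),
    eventually_ge_atTop (⌈(4 * ((k : ℝ) ^ 2 + 4 + r * Real.log 2 / Real.log r + Real.log 4 / Real.log r)) * 4⌉₊ + 1)]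
    with n hn hnk hnbig htop
  rcases hn ⊤ htop with hiso | ⟨_, F, hF, hFc, hFp⟩
  · obtain ⟨e⟩ := hiso
    have h1 : (⊤ : SimpleGraph (Fin n)).CliqueFree k := by
      have hTfree : (SimpleGraph.turanGraph n (k - 1)).CliqueFree k := by
        have := SimpleGraph.turanGraph_cliqueFree (n := n) (r := k - 1) (by omega)
        rwa [Nat.sub_add_cancel (by omega)] at this
      exact hTfree.comap ⟨e.toEmbedding.toCopy⟩
    have h2 : k ≤ n := (le_max_left _ _).trans hnk
    obtain ⟨S, hS⟩ : ∃ S : Finset (Fin n), S.card = k := by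
      obtain ⟨S, _, hS⟩ := Finset.exists_subset_card_eq (s := (univ : Finset (Fin n))) (n := k) (by simpa using h2)
      exact ⟨S, hS⟩
    refine h1 S ⟨?_, hS⟩
    intro x _ y _ hxy
    exact hxy
  · have h1 : F.card ≤ 2 ^ r * (s - 1) ^ (n.choose 2) := by
      apply FIN2_count F hF
      intro φ hφ
      obtain ⟨p, a, hLS, Q, A, hA, hP⟩ := hFp φ hφ
      obtain ⟨hp, ha⟩ := hL3 p a hLS
      subst hp
      refine ⟨A, hA.trans ha, fun u v huv c hc => hP u v huv (Subsingleton.elim _ _) c hc⟩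
    have h2 : r ^ (SimpleGraph.turanGraph n (k - 1)).edgeFinset.card ≤ cnum k s r n := by
      rw [← FIN2_turan_cols (s := s) hk]
      exact FIN2_le_cnum _
    have h3 : 3 * r ^ (SimpleGraph.turanGraph n (k - 1)).edgeFinset.card ≤
        4 * (2 ^ r * (s - 1) ^ (n.choose 2)) := by
      calc 3 * r ^ (SimpleGraph.turanGraph n (k - 1)).edgeFinset.card ≤ 3 * cnum k s r n := by gcongr
        _ ≤ 4 * F.card := hFc
        _ ≤ _ := by gcongr
    -- logs
    have hs1 : (0 : ℝ) < ((s - 1 : ℕ) : ℝ) := by exact_mod_cast (by omega : 0 < s - 1)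
    have h4 : Real.log (r ^ (SimpleGraph.turanGraph n (k - 1)).edgeFinset.card : ℝ) ≤
        Real.log (4 * (2 ^ r * ((s - 1 : ℕ) : ℝ) ^ (n.choose 2))) := by
      apply Real.log_le_log (by positivity)
      have : ((3 * r ^ (SimpleGraph.turanGraph n (k - 1)).edgeFinset.card : ℕ) : ℝ) ≤
        ((4 * (2 ^ r * (s - 1) ^ (n.choose 2)) : ℕ) : ℝ) := by exact_mod_cast h3
      push_cast at this
      have h5 : (0 : ℝ) ≤ (r : ℝ) ^ (SimpleGraph.turanGraph n (k - 1)).edgeFinset.card := by positivity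
      linarith
    rw [Real.log_mul (by norm_num) (by positivity), Real.log_mul (by positivity) (by positivity),
      Real.log_pow, Real.log_pow, Real.log_pow] at h4
    have h5 := FIN2_turan_lower n (k - 1) (by omega)
    have h6 : (((k - 1 : ℕ)) : ℝ) = (k : ℝ) - 1 := by rw [Nat.cast_sub (by omega)]; simp
    rw [h6] at h5
    -- (k-1) log(s-1) ≤ (k-2) log r
    have h7 : ((k : ℝ) - 1) * Real.log ((s - 1 : ℕ) : ℝ) ≤ ((k : ℝ) - 2) * Real.log r := by
      have h8 : Real.log ((((s - 1 : ℕ) : ℝ)) ^ (k - 1)) ≤ Real.log ((r : ℝ) ^ (k - 2)) := by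
        apply Real.log_le_log (by positivity)
        exact_mod_cast hK1
      rw [Real.log_pow, Real.log_pow, Nat.cast_sub (by omega : 1 ≤ k), Nat.cast_sub (by omega : 2 ≤ k)] at h8
      push_cast at h8
      exact h8
    have h8 : Real.log ((s - 1 : ℕ) : ℝ) ≤ (1 - 1 / ((k : ℝ) - 1)) * Real.log r := by
      have : (1 - 1 / ((k : ℝ) - 1)) = ((k : ℝ) - 2) / ((k : ℝ) - 1) := by
        field_simp; ring
      rw [this, div_mul_eq_mul_div, le_div_iff₀ hk1]
      linarith
    have h9 : ((n.choose 2 : ℕ) : ℝ) = (n : ℝ) * ((n : ℝ) - 1) / 2 := Nat.cast_choose_two ℝ n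
    have hn1 : (1 : ℝ) ≤ n := by exact_mod_cast (le_max_right _ _).trans hnk
    have h10 : ((n.choose 2 : ℕ) : ℝ) * Real.log ((s - 1 : ℕ) : ℝ) ≤
        (n : ℝ) * ((n : ℝ) - 1) / 2 * ((1 - 1 / ((k : ℝ) - 1)) * Real.log r) := by
      rw [h9]
      apply mul_le_mul_of_nonneg_left h8
      have : (0 : ℝ) ≤ (n : ℝ) - 1 := by linarith
      positivity
    set α := 1 - 1 / ((k : ℝ) - 1) with hα
    have hα1 : 1 / 2 ≤ α := by
      rw [hα]
      have : 1 / ((k : ℝ) - 1) ≤ 1 / 2 := by
        apply one_div_le_one_div_of_le (by norm_num)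
        have : (3 : ℝ) ≤ k := by exact_mod_cast hk
        linarith
      linarith
    have h11 : (α * (n : ℝ) ^ 2 / 2 - ((k : ℝ) - 1) ^ 2 - 1) * Real.log r ≤
        Real.log 4 + (r * Real.log 2 + (n : ℝ) * ((n : ℝ) - 1) / 2 * (α * Real.log r)) := by
      have h12 : (α * (n : ℝ) ^ 2 / 2 - ((k : ℝ) - 1) ^ 2 - 1) * Real.log r ≤
          ((SimpleGraph.turanGraph n (k - 1)).edgeFinset.card : ℝ) * Real.log r :=
        mul_le_mul_of_nonneg_right h5 hlr.le
      linarith
    -- α n / 2 * log r ≤ log 4 + r log 2 + k log r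
    have h12 : α * n / 2 ≤ (k : ℝ) ^ 2 + r * Real.log 2 / Real.log r + Real.log 4 / Real.log r := by
      have h13 : α * n / 2 * Real.log r ≤ (k : ℝ) ^ 2 * Real.log r + r * Real.log 2 + Real.log 4 := by
        have h30 : ((k : ℝ) - 1) ^ 2 + 1 ≤ (k : ℝ) ^ 2 := by nlinarith
        have h31 : (((k : ℝ) - 1) ^ 2 + 1) * Real.log r ≤ (k : ℝ) ^ 2 * Real.log r :=
          mul_le_mul_of_nonneg_right h30 hlr.le
        nlinarith
      have h14 : (k : ℝ) ^ 2 + r * Real.log 2 / Real.log r + Real.log 4 / Real.log r =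
          ((k : ℝ) ^ 2 * Real.log r + r * Real.log 2 + Real.log 4) / Real.log r := by field_simp
      rw [h14, le_div_iff₀ hlr]
      exact h13
    have h13 : (4 * ((k : ℝ) ^ 2 + 4 + r * Real.log 2 / Real.log r + Real.log 4 / Real.log r)) * 4 ≤
        (⌈(4 * ((k : ℝ) ^ 2 + 4 + r * Real.log 2 / Real.log r + Real.log 4 / Real.log r)) * 4⌉₊ : ℕ) :=
      Nat.le_ceil _
    have h14 : ((⌈(4 * ((k : ℝ) ^ 2 + 4 + r * Real.log 2 / Real.log r + Real.log 4 / Real.log r)) * 4⌉₊ : ℕ) : ℝ) + 1 ≤ n := by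
      exact_mod_cast hnbig
    have h15 : 0 ≤ r * Real.log 2 / Real.log r := by
      have : 0 ≤ Real.log 2 := Real.log_nonneg (by norm_num)
      positivity
    have h16 : 0 ≤ Real.log 4 / Real.log r := by
      have : 0 ≤ Real.log 4 := Real.log_nonneg (by norm_num)
      positivity
    have h17 : (0 : ℝ) ≤ k := Nat.cast_nonneg _
    nlinarith

theorem extremal_char {k s r d : ℕ} (hk : 3 ≤ k) (hs : 3 ≤ s) (hd : 1 ≤ d)
    (hsd : s + d = k.choose 2 + 1) (hsr : s ≤ r) :
    ∀ᶠ n : ℕ in atTop, ∀ G : SimpleGraph (Fin n), (cols k s r G).card = cnum k s r n ↔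
      ((KS k s d r ∧ Nonempty (G ≃g (⊤ : SimpleGraph (Fin n)))) ∨
        (¬ KS k s d r ∧ Nonempty (G ≃g SimpleGraph.turanGraph n (k - 1)))) := by
  obtain ⟨g, H, hS⟩ := exists_crit hk hs hd hsd hsr
  by_cases hKS : KS k s d r
  · filter_upwards [FIN2_dich H hS, FIN2_KS H hS hKS] with n hn hT G
    have key : ∀ G : SimpleGraph (Fin n), (cols k s r G).card = cnum k s r n → G = ⊤ := by
      intro G hG
      rcases hn G hG with ⟨⟨e⟩⟩ | h
      · exfalso
        rw [FIN2_iso e] at hG
        omega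
      · exact h.1
    constructor
    · intro hG
      left
      refine ⟨hKS, ?_⟩
      rw [key G hG]
      exact ⟨SimpleGraph.Iso.refl⟩
    · rintro (⟨_, ⟨e⟩⟩ | h)
      · obtain ⟨G₀, hG₀⟩ := FIN2_exists k s r n
        rw [key G₀ hG₀] at hG₀
        rw [FIN2_iso e, hG₀]
      · exact absurd hKS h.1
  · filter_upwards [FIN2_dich H hS, FIN2_notKS H hS hKS] with n hn hT G
    have key : ∀ G : SimpleGraph (Fin n), (cols k s r G).card = cnum k s r n →
        Nonempty (G ≃g SimpleGraph.turanGraph n (k - 1)) := by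
      intro G hG
      rcases hn G hG with h | ⟨h, _⟩
      · exact h
      · exfalso
        rw [h] at hG
        exact hT hG
    constructor
    · intro hG
      exact Or.inr ⟨hKS, key G hG⟩
    · rintro (h | ⟨_, ⟨e⟩⟩)
      · exact absurd h.1 hKS
      · obtain ⟨G₀, hG₀⟩ := FIN2_exists k s r n
        obtain ⟨e₀⟩ := key G₀ hG₀
        rw [FIN2_iso e, ← FIN2_iso e₀, hG₀]

end Pool.ER
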