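import Mathlib
import Pool.Agent.ER.Defs
import Pool.Agent.ER.FIN1
import Pool.Agent.ER.FIN2

set_option autoImplicit false

open Finset Filter

namespace Pool.ER

theorem KS_anti {k s d r r' : ℕ} (hr : r ≤ r') (h : KS k s d r') : KS k s d r := by
  rcases h with h | ⟨p, a, h2, hp, ha, hI, h⟩
  · exact Or.inl (lt_of_le_of_lt (Nat.pow_le_pow_left hr _) h)
  · exact Or.inr ⟨p, a, h2, hp, ha, hI, (Nat.pow_le_pow_left hr _).trans h⟩

theorem property_A :
    ∀ k s : ℕ, 3 ≤ k → 3 ≤ s → s ≤ k.choose 2 →
      ∃ rstar : ℕ, ∀ r : ℕ, 2 ≤ r → ∃ n0 : ℕ, ∀ n : ℕ, n0 ≤ n →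
        ∀ G : SimpleGraph (Fin n),
          ((∀ H : SimpleGraph (Fin n),
              Nat.card {c : H.edgeSet → Fin r //
                ∀ S : Finset (Fin n), H.IsNClique k S →
                  Set.ncard {i : Fin r | ∃ e : H.edgeSet,
                    (∀ v ∈ (e : Sym2 (Fin n)), v ∈ S) ∧ c e = i} < s}
              ≤ Nat.card {c : G.edgeSet → Fin r //
                ∀ S : Finset (Fin n), G.IsNClique k S →
                  Set.ncard {i : Fin r | ∃ e : G.edgeSet,
                    (∀ v ∈ (e : Sym2 (Fin n)), v ∈ S) ∧ c e = i} < s}) ↔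
            ((r < rstar ∧ Nonempty (G ≃g (⊤ : SimpleGraph (Fin n)))) ∨
              (rstar ≤ r ∧ Nonempty (G ≃g SimpleGraph.turanGraph n (k - 1))))) := by
  intro k s hk hs hsk
  obtain ⟨d, hd, hsd⟩ : ∃ d, 1 ≤ d ∧ s + d = k.choose 2 + 1 := ⟨k.choose 2 + 1 - s, by omega, by omega⟩
  classical
  have hex := not_KS_large hk hs hd hsd
  refine ⟨Nat.find hex, fun r hr => ?_⟩
  have hkey : ∀ᶠ n : ℕ in atTop, ∀ G : SimpleGraph (Fin n), (cols k s r G).card = cnum k s r n ↔
      ((r < Nat.find hex ∧ Nonempty (G ≃g (⊤ : SimpleGraph (Fin n)))) ∨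
        (Nat.find hex ≤ r ∧ Nonempty (G ≃g SimpleGraph.turanGraph n (k - 1)))) := by
    by_cases hrs : r < s
    · refine Eventually.of_forall fun n G => ?_
      have h1 : r < Nat.find hex := lt_of_lt_of_le hrs (Nat.find_spec hex).1
      rw [extremal_char_small hk hr hrs G]
      constructor
      · intro h; exact Or.inl ⟨h1, h⟩
      · rintro (h | h)
        · exact h.2
        · omega
    · have h1 := extremal_char hk hs hd hsd (le_of_not_gt hrs)
      filter_upwards [h1] with n hn G
      rw [hn G]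
      have h2 : KS k s d r ↔ r < Nat.find hex := by
        constructor
        · intro h
          by_contra h3
          exact (Nat.find_spec hex).2 (KS_anti (le_of_not_gt h3) h)
        · intro h
          by_contra h3
          exact Nat.find_min hex h ⟨le_of_not_gt hrs, h3⟩
      rw [h2, not_lt]
  obtain ⟨n0, hn0⟩ := eventually_atTop.1 hkey
  refine ⟨n0, fun n hn G => ?_⟩
  rw [← hn0 n hn G]
  have hk2 : 2 ≤ k := by omega
  simp only [frozen_card hk2]
  constructor
  · intro h
    refine le_antisymm ?_ ?_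
    · exact Finset.le_sup (f := fun G : SimpleGraph (Fin n) => (cols k s r G).card) (mem_univ G)
    · exact Finset.sup_le fun H _ => h H
  · intro h H
    rw [h]
    exact Finset.le_sup (f := fun G : SimpleGraph (Fin n) => (cols k s r G).card) (mem_univ H)

end Pool.ER
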