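import Mathlib

set_option autoImplicit false

/-!
Numeric inequality for MP_86b484 (helper39), part 1: prefix sums of `⌈θ m⌉ - θ m`.
-/

namespace Pool.Agent.ER.Num

open Finset

/-- `u θ m = ⌈θ m⌉ - θ m`. -/
noncomputable def u (θ : ℝ) (m : ℕ) : ℝ := (⌈θ * m⌉₊ : ℝ) - θ * m

/-- `S θ M = ∑_{m=1}^M u θ m`. -/
noncomputable def S (θ : ℝ) (M : ℕ) : ℝ := ∑ m ∈ range M, u θ (m + 1)

lemma u_nonneg (θ : ℝ) (m : ℕ) : 0 ≤ u θ m := by
  unfold u
  have := Nat.le_ceil (θ * m)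
  linarith

lemma u_lt_one {θ : ℝ} (h0 : 0 ≤ θ) (m : ℕ) : u θ m < 1 := by
  unfold u
  have := Nat.ceil_lt_add_one (show 0 ≤ θ * m by positivity)
  linarith

lemma u_zero (θ : ℝ) : u θ 0 = 0 := by
  simp [u]

lemma S_zero (θ : ℝ) : S θ 0 = 0 := by
  simp [S]

lemma S_succ (θ : ℝ) (M : ℕ) : S θ (M + 1) = S θ M + u θ (M + 1) := by
  simp [S, Finset.sum_range_succ]

lemma u_succ_of_le {θ : ℝ} (h0 : 0 < θ) {m : ℕ} (h : θ ≤ u θ m) :
    u θ (m + 1) = u θ m - θ := by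
  have hlt := u_lt_one h0.le m
  have hc : ⌈θ * ((m + 1 : ℕ) : ℝ)⌉₊ = ⌈θ * (m : ℝ)⌉₊ := by
    have hu : θ * (m : ℝ) = (⌈θ * (m : ℝ)⌉₊ : ℝ) - u θ m := by unfold u; ring
    have hx : θ * ((m + 1 : ℕ) : ℝ) = (⌈θ * (m : ℝ)⌉₊ : ℝ) - u θ m + θ := by
      push_cast
      rw [mul_add, mul_one]
      linarith
    have hpos : 1 ≤ ⌈θ * (m : ℝ)⌉₊ := by
      by_contra hcon
      have h00 : ⌈θ * (m : ℝ)⌉₊ = 0 := by omega
      have : u θ m ≤ 0 := by
        unfold u
        rw [h00]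
        have : 0 ≤ θ * (m : ℝ) := by positivity
        push_cast
        linarith
      linarith
    rw [hx]
    rw [Nat.ceil_eq_iff (by omega)]
    constructor
    · push_cast [Nat.cast_sub hpos]
      linarith
    · linarith
  unfold u at *
  rw [hc]
  push_cast
  ring

lemma u_succ_of_lt {θ : ℝ} (_h0 : 0 < θ) (h1 : θ ≤ 1) {m : ℕ} (h : u θ m < θ) :
    u θ (m + 1) = u θ m - θ + 1 := by
  have hnn := u_nonneg θ m
  have hc : ⌈θ * ((m + 1 : ℕ) : ℝ)⌉₊ = ⌈θ * (m : ℝ)⌉₊ + 1 := by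
    have hx : θ * ((m + 1 : ℕ) : ℝ) = (⌈θ * (m : ℝ)⌉₊ : ℝ) - u θ m + θ := by
      unfold u
      push_cast
      ring
    rw [hx]
    rw [Nat.ceil_eq_iff (by omega)]
    constructor
    · push_cast
      linarith
    · push_cast
      linarith
  unfold u at *
  rw [hc]
  push_cast
  ring

/-- first prefix bound -/
lemma S1 {θ : ℝ} (h0 : 0 < θ) (h1 : θ < 1) (M : ℕ) :
    (1 - θ) * M / 2 + u θ M * (1 - u θ M) / (2 * θ) ≤ S θ M := by
  induction M with
  | zero => simp [u_zero, S_zero]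
  | succ M ih =>
    rw [S_succ]
    have hnn := u_nonneg θ M
    rcases le_or_gt θ (u θ M) with h | h
    · rw [u_succ_of_le h0 h]
      have key : (1 - θ) * ((M + 1 : ℕ) : ℝ) / 2 + (u θ M - θ) * (1 - (u θ M - θ)) / (2 * θ)
          = (1 - θ) * M / 2 + u θ M * (1 - u θ M) / (2 * θ) + (u θ M - θ) := by
        push_cast
        field_simp
        ring
      linarith
    · rw [u_succ_of_lt h0 h1.le h]
      have key : (1 - θ) * ((M + 1 : ℕ) : ℝ) / 2
            + (u θ M - θ + 1) * (1 - (u θ M - θ + 1)) / (2 * θ)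
          = (1 - θ) * M / 2 + u θ M * (1 - u θ M) / (2 * θ) + (u θ M - θ + 1) - u θ M / θ := by
        push_cast
        field_simp
        ring
      have : 0 ≤ u θ M / θ := by positivity
      linarith

/-- second prefix bound -/
lemma S2 {θ : ℝ} (h0 : 0 < θ) (h1 : θ < 1) (M : ℕ) :
    θ * M / 2 + u θ M - u θ M * (1 - u θ M) / (2 * (1 - θ)) ≤ S θ M := by
  have hη : 0 < 1 - θ := by linarith
  induction M with
  | zero => simp [u_zero, S_zero]
  | succ M ih =>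
    rw [S_succ]
    have hnn := u_nonneg θ M
    rcases le_or_gt θ (u θ M) with h | h
    · rw [u_succ_of_le h0 h]
      have key : θ * ((M + 1 : ℕ) : ℝ) / 2 + (u θ M - θ)
            - (u θ M - θ) * (1 - (u θ M - θ)) / (2 * (1 - θ))
          = θ * M / 2 + u θ M - u θ M * (1 - u θ M) / (2 * (1 - θ)) + (u θ M - θ)
            - (1 - (1 - u θ M) / (1 - θ)) := by
        push_cast
        field_simp
        ring
      have : (1 - u θ M) / (1 - θ) ≤ 1 := by
        rw [div_le_one hη]; linarith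
      linarith
    · rw [u_succ_of_lt h0 h1.le h]
      have key : θ * ((M + 1 : ℕ) : ℝ) / 2 + (u θ M - θ + 1)
            - (u θ M - θ + 1) * (1 - (u θ M - θ + 1)) / (2 * (1 - θ))
          = θ * M / 2 + u θ M - u θ M * (1 - u θ M) / (2 * (1 - θ)) + (u θ M - θ + 1) := by
        push_cast
        field_simp
        ring
      linarith

/-- exact value as long as `(1-θ) M < 1` -/
lemma S_exact {θ : ℝ} (h0 : 0 < θ) (h1 : θ < 1) (M : ℕ) (hM : (1 - θ) * M < 1) :
    S θ M = (1 - θ) * M * (M + 1) / 2 ∧ u θ M = (1 - θ) * M := by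
  induction M with
  | zero => simp [u_zero, S_zero]
  | succ M ih =>
    push_cast at hM ⊢
    have hM' : (1 - θ) * (M : ℝ) < 1 := by
      have : 0 < 1 - θ := by linarith
      nlinarith
    obtain ⟨ih1, ih2⟩ := ih hM'
    have hlt : u θ M < θ := by rw [ih2]; linarith
    rw [S_succ, u_succ_of_lt h0 h1.le hlt, ih1, ih2]
    constructor <;> ring

lemma S_half {θ : ℝ} (h0 : 0 < θ) (h1 : θ < 1) (M : ℕ) : (1 - θ) * M / 2 ≤ S θ M := by
  have h := S1 h0 h1 M
  have hnn := u_nonneg θ M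
  have hlt := u_lt_one h0.le M
  have : 0 ≤ u θ M * (1 - u θ M) / (2 * θ) := by
    apply div_nonneg
    · apply mul_nonneg hnn; linarith
    · linarith
  linarith

/-- for `θ ≥ 1/2` and `(1-θ) M ≥ 1`: `S ≥ M/4` -/
lemma S_quarter {θ : ℝ} (h0 : 1 / 2 ≤ θ) (h1 : θ < 1) (M : ℕ) (hM : 1 ≤ (1 - θ) * M) :
    (M : ℝ) / 4 ≤ S θ M := by
  have hθ : 0 < θ := by linarith
  have hη : 0 < 1 - θ := by linarith
  have h := S2 hθ h1 M
  set v := u θ M with hv
  -- v - v(1-v)/(2η) ≥ -(1-2η)^2/(8η)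
  have h2 : -((1 - 2 * (1 - θ)) ^ 2 / (8 * (1 - θ))) ≤ v - v * (1 - v) / (2 * (1 - θ)) := by
    have e : v - v * (1 - v) / (2 * (1 - θ)) + ((1 - 2 * (1 - θ)) ^ 2 / (8 * (1 - θ)))
        = (2 * v - (1 - 2 * (1 - θ))) ^ 2 / (8 * (1 - θ)) := by
      field_simp
      ring
    have : 0 ≤ (2 * v - (1 - 2 * (1 - θ))) ^ 2 / (8 * (1 - θ)) := by positivity
    linarith
  have h3 : (1 - 2 * (1 - θ)) ^ 2 / (8 * (1 - θ)) ≤ (1 - 2 * (1 - θ)) ^ 2 * M / 8 := by
    rw [div_le_div_iff₀ (by positivity) (by norm_num)]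
    nlinarith [sq_nonneg (1 - 2 * (1 - θ))]
  have h4 : (M : ℝ) / 4 ≤ θ * M / 2 - (1 - 2 * (1 - θ)) ^ 2 * M / 8 := by
    have hM0 : (0 : ℝ) ≤ M := by positivity
    nlinarith [mul_nonneg hM0 (show 0 ≤ (1 - θ) by linarith), mul_nonneg hM0 (show 0 ≤ (2 * θ - 1) * (3 - 2 * θ) by nlinarith)]
  linarith

lemma S_theta {θ : ℝ} (h0 : 1 / 2 ≤ θ) (h1 : θ < 1) (M : ℕ) :
    θ * (1 - θ) * M ≤ S θ M := by
  have hθ : 0 < θ := by linarith
  have hη : 0 < 1 - θ := by linarith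
  rcases lt_or_ge ((1 - θ) * M) 1 with h | h
  · rw [(S_exact hθ h1 M h).1]
    rcases Nat.eq_zero_or_pos M with rfl | hM
    · simp
    · have hM1 : (1 : ℝ) ≤ M := by exact_mod_cast hM
      have : 0 ≤ (1 - θ) * M := by positivity
      nlinarith
  · have := S_quarter h0 h1 M h
    have hM0 : (0 : ℝ) ≤ M := by positivity
    nlinarith [mul_nonneg hM0 (sq_nonneg (2 * θ - 1))]

/-- (ii*) in the form `S j * (a + 2θ) ≥ θ(1-θ) j (j+1)` for `j ≤ a`. -/
lemma S_ii {θ : ℝ} (h0 : 0 < θ) (h1 : θ < 1) (j a : ℕ) (hj : j ≤ a) :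
    θ * (1 - θ) * j * (j + 1) ≤ S θ j * (a + 2 * θ) := by
  have hη : 0 < 1 - θ := by linarith
  have hja : (j : ℝ) ≤ a := by exact_mod_cast hj
  have hj0 : (0 : ℝ) ≤ j := by positivity
  rcases le_or_gt θ (1 / 2) with h | h
  · have hS := S_half h0 h1 j
    have hS0 : 0 ≤ S θ j := by
      have : 0 ≤ (1 - θ) * j / 2 := by positivity
      linarith
    have e1 : S θ j * (j + 2 * θ) ≤ S θ j * (a + 2 * θ) := by
      apply mul_le_mul_of_nonneg_left _ hS0; linarith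
    have e2 : (1 - θ) * j / 2 * (j + 2 * θ) ≤ S θ j * (j + 2 * θ) := by
      apply mul_le_mul_of_nonneg_right hS; positivity
    have e3 : θ * (1 - θ) * j * (j + 1) ≤ (1 - θ) * j / 2 * (j + 2 * θ) := by
      have : 0 ≤ (1 - θ) * j * (j * (1 - 2 * θ)) := by
        apply mul_nonneg (by positivity)
        apply mul_nonneg hj0; linarith
      nlinarith
    linarith
  · have hS := S_theta h.le h1 j
    have hS0 : 0 ≤ S θ j := by
      have : 0 ≤ θ * (1 - θ) * j := by positivity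
      linarith
    have e1 : S θ j * (j + 1) ≤ S θ j * (a + 2 * θ) := by
      apply mul_le_mul_of_nonneg_left _ hS0; linarith
    have e2 : θ * (1 - θ) * j * (j + 1) ≤ S θ j * (j + 1) := by
      apply mul_le_mul_of_nonneg_right hS; positivity
    linarith

/-- (i*) : either `y S ≥ θ(1-θ) M (M+1)/2` or `y S ≥ y²/8`, `y = p + θ`. -/
lemma S_i {θ : ℝ} (h0 : 0 < θ) (h1 : θ < 1) (M p : ℕ) (hp : 1 ≤ p) :
    θ * (1 - θ) * M * (M + 1) / 2 ≤ (p + θ) * S θ M ∨ (p + θ) ^ 2 / 8 ≤ (p + θ) * S θ M := by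
  have hη : 0 < 1 - θ := by linarith
  have hp1 : (1 : ℝ) ≤ p := by exact_mod_cast hp
  have hM0 : (0 : ℝ) ≤ M := by positivity
  have hy : 0 < (p : ℝ) + θ := by linarith
  rcases le_or_gt θ (1 / 2) with h | h
  · have hS := S_half h0 h1 M
    rcases le_or_gt (θ * (M + 1)) (p + θ) with hc | hc
    · left
      have e1 : (p + θ) * ((1 - θ) * M / 2) ≤ (p + θ) * S θ M :=
        mul_le_mul_of_nonneg_left hS hy.le
      have e2 : θ * (M + 1) * ((1 - θ) * M / 2) ≤ (p + θ) * ((1 - θ) * M / 2) :=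
        mul_le_mul_of_nonneg_right hc (by positivity)
      linarith
    · right
      -- M > p/θ ≥ 2p
      have hMp : 2 * (p : ℝ) ≤ M := by
        have : (p : ℝ) < θ * M := by linarith
        nlinarith
      have : (p + θ) / 8 ≤ S θ M := by nlinarith
      nlinarith
  · rcases lt_or_ge ((1 - θ) * M) 1 with hc | hc
    · left
      rw [(S_exact h0 h1 M hc).1]
      have : 0 ≤ (1 - θ) * M * (M + 1) / 2 := by positivity
      nlinarith
    · have hS := S_quarter h.le h1 M hc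
      rcases le_or_gt ((M : ℝ) + 1) (2 * (p + θ)) with hd | hd
      · left
        have hS' := S_theta h.le h1 M
        have e1 : (p + θ) * (θ * (1 - θ) * M) ≤ (p + θ) * S θ M :=
          mul_le_mul_of_nonneg_left hS' hy.le
        have e2 : 0 ≤ θ * (1 - θ) * M := by positivity
        nlinarith
      · right
        have hMp : 2 * (p : ℝ) ≤ M := by linarith
        have : (p + θ) / 8 ≤ S θ M := by nlinarith
        nlinarith

end Pool.Agent.ER.Num
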