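import Pool.Agent.ER.NumMain

set_option autoImplicit false

/-!
Numeric inequality for MP_86b484 (helper39), part 4: finite check and final form.
-/

namespace Pool.Agent.ER.Num

open Finset

/-! ### finite check -/

/-- `Ik` at the breakpoint `p + j/m0` -/
def Ib (k p m0 j : ℕ) : ℕ :=
  ∑ m ∈ range ((k - 1) / p), (k - ((m + 1) * p + (j * (m + 1) + m0 - 1) / m0))

/-- one instance of the check -/
def chk1 (k p m0 j I d : ℕ) : Bool :=
  (decide (d < ep k (p + 1)) &&
    decide ((I - d) ^ m0 < (ep k p - d) ^ (m0 - j) * (ep k (p + 1) - d) ^ j)) ||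
  decide ((I - d) ^ (m0 * (k - 1 - p)) < (ep k p - d) ^ (m0 * (k - 1 - p) - j))

/-- the check for `(k,p)` -/
def chk (k p : ℕ) : Bool :=
  decide (∀ m0 < (k - 1) / p + 1, ∀ j < m0, 1 ≤ j → ∀ d < Ib k p m0 j, 1 ≤ d →
    chk1 k p m0 j (Ib k p m0 j) d = true)

set_option maxRecDepth 100000 in
lemma chk_one : ∀ k < 12, 3 ≤ k → chk k 1 = true := by decide +kernel

set_option maxRecDepth 100000 in
lemma chk_two : ∀ k < 19, 5 ≤ k → chk k 2 = true := by decide +kernel

set_option maxRecDepth 100000 in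
lemma chk_three : ∀ k < 25, 7 ≤ k → chk k 3 = true := by decide +kernel

lemma chk_small (k p a : ℕ) (ha : a = (k - 1) / p) (ha2 : 2 ≤ a)
    (hcase : ¬ (4 ≤ p ∨ (p = 3 ∧ 8 ≤ a) ∨ (p = 2 ∧ 9 ≤ a) ∨ (p = 1 ∧ 11 ≤ a)))
    (hp : 1 ≤ p) : chk k p = true := by
  have h1 : p ≤ 3 := by
    by_contra hcon
    exact hcase (Or.inl (by omega))
  have h2 : a * p ≤ k - 1 := by rw [ha]; exact Nat.div_mul_le_self _ _
  have h3 : k - 1 < (a + 1) * p := by
    have : (k - 1) / p < a + 1 := by omega
    rwa [Nat.div_lt_iff_lt_mul (by omega)] at this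
  interval_cases p
  · apply chk_one k _ _ <;> omega
  · apply chk_two k _ _ <;> omega
  · apply chk_three k _ _ <;> omega

/-- reduction to the next breakpoint -/
lemma breakpoint (k p a : ℕ) (hp : 1 ≤ p) (hk : 1 ≤ k) (ha : a = (k - 1) / p) (ha1 : 1 ≤ a)
    (θ : ℝ) (h0 : 0 < θ) (h1 : θ < 1) :
    ∃ m0 j : ℕ, 1 ≤ m0 ∧ m0 ≤ a ∧ 1 ≤ j ∧ j ≤ m0 ∧ θ ≤ (j : ℝ) / m0 ∧
      Ik k (p + θ) = Ib k p m0 j := by
  obtain ⟨m, hm, hmin⟩ := Finset.exists_min_image (range a)
    (fun m => (⌈θ * ((m + 1 : ℕ) : ℝ)⌉₊ : ℝ) / ((m + 1 : ℕ) : ℝ)) ⟨0, mem_range.2 ha1⟩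
  rw [mem_range] at hm
  set m0 := m + 1 with hm0
  set j := ⌈θ * (m0 : ℝ)⌉₊ with hj
  have hm0pos : (0 : ℝ) < m0 := by rw [hm0]; positivity
  refine ⟨m0, j, by omega, by omega, ?_, ?_, ?_, ?_⟩
  · rw [hj, Nat.one_le_ceil_iff]
    positivity
  · rw [hj, Nat.ceil_le]
    nlinarith
  · rw [le_div_iff₀ hm0pos]
    exact Nat.le_ceil _
  · rw [Ik_layer' k p hp θ h0.le, layer_restrict k p a hp hk ha
      (fun m => ⌈θ * ((m + 1 : ℕ) : ℝ)⌉₊)]
    unfold Ib
    rw [← ha]
    apply Finset.sum_congr rfl
    intro i hi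
    congr 2
    have hi' := hmin i hi
    have hpos : (0 : ℝ) < ((i + 1 : ℕ) : ℝ) := by positivity
    -- q = ceil division
    set q := (j * (i + 1) + m0 - 1) / m0 with hq
    have hm0' : 0 < m0 := by omega
    apply le_antisymm
    · -- ceil ≤ q
      rw [Nat.ceil_le]
      have h2 : j * (i + 1) ≤ q * m0 := by
        have := Nat.div_add_mod (j * (i + 1) + m0 - 1) m0
        have hlt := Nat.mod_lt (j * (i + 1) + m0 - 1) hm0'
        rw [← hq] at this
        rw [mul_comm m0 q] at this
        omega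
      have h3 : ((j * (i + 1) : ℕ) : ℝ) ≤ ((q * m0 : ℕ) : ℝ) := by exact_mod_cast h2
      push_cast at h3
      have h4 : θ * (m0 : ℝ) ≤ j := Nat.le_ceil _
      have h5 : θ * (m0 : ℝ) * ((i : ℝ) + 1) ≤ q * m0 := by
        calc θ * (m0 : ℝ) * ((i : ℝ) + 1) ≤ j * ((i : ℝ) + 1) :=
              mul_le_mul_of_nonneg_right h4 (by positivity)
          _ ≤ q * m0 := h3
      push_cast
      have h6 : θ * ((i : ℝ) + 1) * m0 ≤ q * m0 := by linarith
      exact le_of_mul_le_mul_right h6 hm0pos
    · -- q ≤ ceil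
      rw [div_le_div_iff₀ hm0pos hpos] at hi'
      have h2 : j * (i + 1) ≤ ⌈θ * ((i + 1 : ℕ) : ℝ)⌉₊ * m0 := by exact_mod_cast hi'
      rw [hq]
      have h3 : (j * (i + 1) + m0 - 1) / m0 < ⌈θ * ((i + 1 : ℕ) : ℝ)⌉₊ + 1 := by
        rw [Nat.div_lt_iff_lt_mul hm0']
        have : (⌈θ * ((i + 1 : ℕ) : ℝ)⌉₊ + 1) * m0
            = ⌈θ * ((i + 1 : ℕ) : ℝ)⌉₊ * m0 + m0 := by ring
        omega
      omega

lemma log_lt_of_pow_lt {x c b : ℕ} {m0 j : ℕ} (hx : 1 ≤ x) (hc : 1 ≤ c) (hb : 1 ≤ b)
    (hm : 1 ≤ m0) (hjm : j ≤ m0) (h : x ^ m0 < c ^ (m0 - j) * b ^ j) :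
    Real.log x < (1 - (j : ℝ) / m0) * Real.log c + (j : ℝ) / m0 * Real.log b := by
  have hx' : (0 : ℝ) < x := by exact_mod_cast hx
  have hc' : (0 : ℝ) < c := by exact_mod_cast hc
  have hb' : (0 : ℝ) < b := by exact_mod_cast hb
  have hm' : (0 : ℝ) < m0 := by exact_mod_cast hm
  have h1 : ((x : ℝ)) ^ m0 < (c : ℝ) ^ (m0 - j) * (b : ℝ) ^ j := by exact_mod_cast h
  have h2 := Real.log_lt_log (by positivity) h1
  rw [Real.log_pow, Real.log_mul (by positivity) (by positivity), Real.log_pow, Real.log_pow,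
    Nat.cast_sub hjm] at h2
  have h3 : (1 - (j : ℝ) / m0) * Real.log c + (j : ℝ) / m0 * Real.log b
      = (((m0 : ℝ) - j) * Real.log c + j * Real.log b) / m0 := by
    field_simp
  rw [h3, lt_div_iff₀ hm']
  linarith

/-- Core: non-integer `y = p + θ`. -/
theorem core (k p d : ℕ) (hd0 : 1 ≤ d) (hp : 1 ≤ p) (hpk : p + 1 < k) (θ : ℝ) (h0 : 0 < θ) (h1 : θ < 1)
    (hI : d + 1 ≤ Ik k (p + θ)) (L0 ρ : ℝ) (hρ : 0 < ρ)
    (hL0 : Real.log (ep k p - d : ℝ) ≤ L0)
    (hL1 : d < ep k (p + 1) → Real.log (ep k (p + 1) - d : ℝ) ≤ L0 - ρ)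
    (hK : 0 ≤ L0 - ((k : ℝ) - 1 - p) * ρ) :
    Real.log (Ik k (p + θ) - d : ℝ) < L0 - θ * ρ := by
  have hη : 0 < 1 - θ := by linarith
  have hp1 : (1 : ℝ) ≤ p := by exact_mod_cast hp
  have hk' : (p : ℝ) + 1 + 1 ≤ k := by exact_mod_cast hpk
  have hKp : 1 ≤ (k : ℝ) - 1 - p := by linarith
  have hlt := Ik_lt_ep k p hp (by omega) (p + θ) (by linarith)
  have hlt' : (Ik k (p + θ) : ℝ) + 1 ≤ ep k p := by exact_mod_cast hlt
  have hx1 : (1 : ℝ) ≤ (Ik k (p + θ) : ℝ) - d := by
    have : ((d + 1 : ℕ) : ℝ) ≤ Ik k (p + θ) := by exact_mod_cast hI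
    push_cast at this
    linarith
  -- generic easy case : Ik ≤ ep k (p+1)
  have heasy : Ik k (p + θ) ≤ ep k (p + 1) →
      Real.log (Ik k (p + θ) - d : ℝ) < L0 - θ * ρ := by
    intro hle
    have hle' : (Ik k (p + θ) : ℝ) ≤ ep k (p + 1) := by exact_mod_cast hle
    have hd : d < ep k (p + 1) := by omega
    have h2 : Real.log (Ik k (p + θ) - d : ℝ) ≤ Real.log (ep k (p + 1) - d : ℝ) :=
      Real.log_le_log (by linarith) (by linarith)
    have := hL1 hd
    nlinarith
  rcases Nat.lt_or_ge (k - 1) (2 * p) with hsmall | hbig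
  · exact heasy (Ik_le_of_small k p hp hsmall θ h0 h1)
  -- a ≥ 2
  set a := (k - 1) / p with ha
  have ha2 : 2 ≤ a := by
    rw [ha, Nat.le_div_iff_mul_le (by omega)]; exact hbig
  set E : ℝ := (ep k p : ℝ) with hE
  set E' : ℝ := (ep k (p + 1) : ℝ) with hE'
  set I : ℝ := (Ik k (p + θ) : ℝ) with hIdef
  have hδ1 : 1 ≤ E - I := by linarith
  have hα1 : 1 ≤ E - E' := by
    have := ep_succ_lt k p hp (by omega)
    have : E' + 1 ≤ E := by rw [hE, hE']; exact_mod_cast this
    linarith
  have hL0nn : 0 ≤ L0 := by nlinarith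
  by_cases hcase : (4 ≤ p ∨ (p = 3 ∧ 8 ≤ a) ∨ (p = 2 ∧ 9 ≤ a) ∨ (p = 1 ∧ 11 ≤ a))
  · -- analytic case
    have ha2' : (2 : ℝ) ≤ a := by exact_mod_cast ha2
    have hkeyB := keyB k p a hp (by omega) ha θ h0 h1
    have hkeyC := keyC k p hp θ h0 h1
    have hαle := alpha_le k p a hp (by omega) ha
    rw [← hE, ← hE', ← hIdef] at hkeyB hkeyC
    rw [← hE, ← hE'] at hαle
    set N : ℝ := (1 - θ) * E + θ * E' - I with hN
    -- R
    set R : ℝ := min ((p : ℝ) + 1) (((a : ℝ) + 2) / 2) with hR
    have hN0 : 0 ≤ N := by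
      have : 0 ≤ 2 * (1 - θ) * (E - I) := by
        apply mul_nonneg <;> linarith
      have h5 : 0 ≤ (a + 2) * N := by linarith
      exact nonneg_of_mul_nonneg_right h5 (by positivity)
    have hRN : (1 - θ) * (E - I) ≤ R * N := by
      rcases min_choice ((p : ℝ) + 1) (((a : ℝ) + 2) / 2) with hc | hc
      · rw [hR, hc]
        have : ((p : ℝ) + 1) * N - (1 - θ) * (E - I)
            = (1 - θ) * p * E + θ * (p + 1) * E' - (p + θ) * I := by
          rw [hN]; ring
        linarith
      · rw [hR, hc]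
        linarith
    have hR2 : 2 ≤ R := by
      rw [hR]; apply le_min <;> linarith
    rcases le_or_gt (R * (E - E')) (E - d) with hA | hB
    · -- case A
      have hb1 : 1 ≤ E' - d := by nlinarith
      have hd : d < ep k (p + 1) := by
        have : (d : ℝ) < (ep k (p + 1) : ℝ) := by rw [← hE']; linarith
        exact_mod_cast this
      have hL1' := hL1 hd
      have hkey : (I - d) * ((1 - θ) * (E' - d) + θ * (E - d)) ≤ (E - d) * (E' - d) := by
        -- equivalent to (1-θ) δ α ≤ c N
        have h6 : (1 - θ) * (E - I) * (E - E') ≤ (E - d) * N := by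
          have h7 : (1 - θ) * (E - I) * (E - E') ≤ R * N * (E - E') :=
            mul_le_mul_of_nonneg_right hRN (by linarith)
          have h8 : R * (E - E') * N ≤ (E - d) * N := mul_le_mul_of_nonneg_right hA hN0
          linarith
        have h9 : (E - d) * (E' - d) - (I - d) * ((1 - θ) * (E' - d) + θ * (E - d))
            = (E - d) * N - (1 - θ) * (E - I) * (E - E') := by
          rw [hN]; ring
        linarith
      have h10 := hmgm (b := E' - d) (c := E - d) (θ := θ) (x := I - d) (by linarith)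
        (by linarith) h0 h1 (by linarith) hkey
      nlinarith
    · -- case B
      have hc1 : 1 ≤ E - d := by linarith
      have hstar := starstar p a hp ha2 hcase R (E - E') (by linarith) (min_le_left _ _)
        (min_le_right _ _) hα1 hαle
      have hKa : (p : ℝ) * (a - 1) ≤ (k : ℝ) - 1 - p := by
        have : a * p ≤ k - 1 := by rw [ha]; exact Nat.div_mul_le_self _ _
        have h5 : a * p + 1 ≤ k := by omega
        have h6 : (a : ℝ) * p + 1 ≤ k := by exact_mod_cast h5
        linarith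
      have hlogc : 0 ≤ Real.log (E - d) := Real.log_nonneg hc1
      have hlogle : Real.log (E - d) ≤ Real.log (R * (E - E')) :=
        Real.log_le_log (by linarith) hB.le
      -- c log c ≤ (K-p) α
      have h11 : (E - d) * Real.log (E - d) ≤ ((k : ℝ) - 1 - p) * (E - E') := by
        calc (E - d) * Real.log (E - d) ≤ (R * (E - E')) * Real.log (R * (E - E')) :=
              mul_le_mul hB.le hlogle hlogc (by nlinarith)
          _ = (R * Real.log (R * (E - E'))) * (E - E') := by ring
          _ ≤ (p * (a - 1)) * (E - E') := mul_le_mul_of_nonneg_right hstar (by linarith)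
          _ ≤ ((k : ℝ) - 1 - p) * (E - E') := mul_le_mul_of_nonneg_right hKa (by linarith)
      have h12 := log_sub_gt (c := E - d) (δ := E - I) (by linarith) (by linarith)
      have h13 : E - d - (E - I) = I - d := by ring
      rw [h13] at h12
      -- δ ≥ θ α
      have h14 : θ * (E - E') ≤ E - I := by
        have : N = (E - I) - θ * (E - E') := by rw [hN]; ring
        linarith
      -- θ log c / (K-p) ≤ δ / c
      have h15 : θ * Real.log (E - d) / ((k : ℝ) - 1 - p) ≤ (E - I) / (E - d) := by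
        rw [div_le_div_iff₀ (by linarith) (by linarith)]
        calc θ * Real.log (E - d) * (E - d) = θ * ((E - d) * Real.log (E - d)) := by ring
          _ ≤ θ * (((k : ℝ) - 1 - p) * (E - E')) := mul_le_mul_of_nonneg_left h11 h0.le
          _ = θ * (E - E') * ((k : ℝ) - 1 - p) := by ring
          _ ≤ (E - I) * ((k : ℝ) - 1 - p) := mul_le_mul_of_nonneg_right h14 (by linarith)
      -- ρ ≤ L0 / (K - p)
      have h16 : θ * ρ ≤ θ * L0 / ((k : ℝ) - 1 - p) := by
        rw [le_div_iff₀ (by linarith)]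
        nlinarith
      have h17 : Real.log (E - d) - θ * Real.log (E - d) / ((k : ℝ) - 1 - p)
          ≤ L0 - θ * L0 / ((k : ℝ) - 1 - p) := by
        have e1 : Real.log (E - d) - θ * Real.log (E - d) / ((k : ℝ) - 1 - p)
            = (1 - θ / ((k : ℝ) - 1 - p)) * Real.log (E - d) := by ring
        have e2 : L0 - θ * L0 / ((k : ℝ) - 1 - p) = (1 - θ / ((k : ℝ) - 1 - p)) * L0 := by ring
        rw [e1, e2]
        apply mul_le_mul_of_nonneg_left hL0
        have : θ / ((k : ℝ) - 1 - p) ≤ 1 := by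
          rw [div_le_one (by linarith)]; linarith
        linarith
      linarith
  · -- finite check
    have hchk := chk_small k p a ha ha2 hcase hp
    obtain ⟨m0, j, hm01, hm0a, hj1, hjm, hθ, hIk⟩ :=
      breakpoint k p a hp (by omega) ha (by omega) θ h0 h1
    have hm0pos : (0 : ℝ) < m0 := by exact_mod_cast hm01
    rcases Nat.lt_or_ge j m0 with hjlt | hjge
    · have hdE : d < ep k p := by omega
      unfold chk at hchk
      rw [decide_eq_true_eq] at hchk
      have hc := hchk m0 (by omega) j hjlt hj1 d (by omega) hd0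
      unfold chk1 at hc
      rw [← hIk] at hc
      simp only [Bool.or_eq_true, Bool.and_eq_true, decide_eq_true_eq] at hc
      have hcastx : ((Ik k (p + θ) - d : ℕ) : ℝ) = I - d := by
        rw [Nat.cast_sub (by omega)]
      have hcastc : ((ep k p - d : ℕ) : ℝ) = E - d := by
        rw [Nat.cast_sub (by omega)]
      have hθρ : θ * ρ ≤ (j : ℝ) / m0 * ρ := mul_le_mul_of_nonneg_right hθ hρ.le
      have hθ1 : (j : ℝ) / m0 ≤ 1 := by
        rw [div_le_one hm0pos]; exact_mod_cast hjm
      have hθ0 : 0 < (j : ℝ) / m0 := by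
        have : (0 : ℝ) < j := by exact_mod_cast hj1
        positivity
      rcases hc with ⟨hd', hc⟩ | hc
      · have hL1' := hL1 hd'
        have hcastb : ((ep k (p + 1) - d : ℕ) : ℝ) = E' - d := by
          rw [Nat.cast_sub hd'.le]
        have h2 := log_lt_of_pow_lt (by omega) (by omega) (by omega) hm01 hjm hc
        rw [hcastx, hcastc, hcastb] at h2
        have h3 : (1 - (j : ℝ) / m0) * Real.log (E - d) ≤ (1 - (j : ℝ) / m0) * L0 :=
          mul_le_mul_of_nonneg_left hL0 (by linarith)
        have h4 : (j : ℝ) / m0 * Real.log (E' - d) ≤ (j : ℝ) / m0 * (L0 - ρ) :=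
          mul_le_mul_of_nonneg_left hL1' hθ0.le
        nlinarith
      · have hmk : 1 ≤ m0 * (k - 1 - p) := by
          have : 1 ≤ k - 1 - p := by omega
          exact Nat.mul_pos (by omega) (by omega)
        have hjk : j ≤ m0 * (k - 1 - p) := by
          have : 1 ≤ k - 1 - p := by omega
          nlinarith
        have h2 := log_lt_of_pow_lt (x := Ik k (p + θ) - d) (c := ep k p - d) (b := 1)
          (by omega) (by omega) le_rfl hmk hjk (by simpa using hc)
        rw [hcastx, hcastc] at h2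
        simp only [Nat.cast_one, Real.log_one, mul_zero, add_zero] at h2
        have hcastk : ((m0 * (k - 1 - p) : ℕ) : ℝ) = m0 * ((k : ℝ) - 1 - p) := by
          have e : k - 1 - p = k - (1 + p) := by omega
          rw [e]
          push_cast [Nat.cast_sub (show 1 + p ≤ k by omega)]
          ring
        rw [hcastk] at h2
        have hKp0 : (0 : ℝ) < (k : ℝ) - 1 - p := by linarith
        have e3 : (j : ℝ) / (m0 * ((k : ℝ) - 1 - p)) = (j : ℝ) / m0 / ((k : ℝ) - 1 - p) := by
          field_simp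
        rw [e3] at h2
        have h5 : (j : ℝ) / m0 / ((k : ℝ) - 1 - p) ≤ 1 := by
          rw [div_le_one hKp0]; linarith
        have h3 : (1 - (j : ℝ) / m0 / ((k : ℝ) - 1 - p)) * Real.log (E - d)
            ≤ (1 - (j : ℝ) / m0 / ((k : ℝ) - 1 - p)) * L0 :=
          mul_le_mul_of_nonneg_left hL0 (by linarith)
        have h6 : (j : ℝ) / m0 * ρ ≤ (j : ℝ) / m0 / ((k : ℝ) - 1 - p) * L0 := by
          have : ρ ≤ L0 / ((k : ℝ) - 1 - p) := by
            rw [le_div_iff₀ hKp0]; linarith
          calc (j : ℝ) / m0 * ρ ≤ (j : ℝ) / m0 * (L0 / ((k : ℝ) - 1 - p)) :=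
                mul_le_mul_of_nonneg_left this hθ0.le
            _ = _ := by ring
        nlinarith
    · -- j = m0
      have hjm' : j = m0 := le_antisymm hjm hjge
      apply heasy
      rw [hIk, hjm']
      unfold Ib
      rw [ep_layer k (p + 1) (by omega)]
      have hr := layer_restrict k p a hp (by omega) ha (fun m => m + 1)
      have e : ∑ m ∈ range k, (k - (m + 1) * (p + 1)) = ∑ m ∈ range k, (k - ((m + 1) * p + (m + 1))) := by
        apply Finset.sum_congr rfl
        intro m _
        congr 1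
      rw [e, hr, ← ha]
      apply Finset.sum_le_sum
      intro m _
      have : m + 1 ≤ (m0 * (m + 1) + m0 - 1) / m0 := by
        rw [Nat.le_div_iff_mul_le (by omega)]
        have : (m + 1) * m0 = m0 * (m + 1) := by ring
        omega
      omega

/-- **The numeric inequality.**  `D = log r`, `F` = the value; `h` says that the looped palettes
with `p` parts have value at most `F`, `hF` that the Turán template has value at most `F`. -/
theorem num (k d : ℕ) (hd : 1 ≤ d) (D F : ℝ) (hD : 0 < D) (hk : 3 ≤ k)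
    (hF : (k : ℝ) - 1 ≤ F)
    (h : ∀ p : ℕ, 1 ≤ p → p < k → d < ep k p →
      Real.log ((ep k p : ℝ) - d) ≤ D * (1 - p / F))
    (y : ℝ) (hy : 0 < y) (t : ℕ) (ht : 1 ≤ t) (hI : t + d ≤ Ik k y) :
    Real.log t < D * (1 - y / F) ∨
      ∃ p : ℕ, 1 ≤ p ∧ p + 2 ≤ k ∧ y = p ∧ 2 ≤ t ∧ t + d = ep k p ∧
        Real.log t = D * (1 - p / F) := by
  have hk' : (3 : ℝ) ≤ k := by exact_mod_cast hk
  have hF0 : 0 < F := by linarith
  have ht' : (1 : ℝ) ≤ t := by exact_mod_cast ht
  -- y ≤ k - 1
  have hyk : y ≤ (k : ℝ) - 1 := by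
    by_contra hcon
    push Not at hcon
    rw [Ik_eq_zero k y hy hcon] at hI
    omega
  rcases lt_or_ge y 1 with hy1 | hy1
  · -- y < 1
    left
    have h1 := Ik_le_ep_one k y
    have h2 := h 1 le_rfl (by omega) (by omega)
    have h3 : (t : ℝ) + d ≤ ep k 1 := by
      have : t + d ≤ ep k 1 := hI.trans h1
      exact_mod_cast this
    have h4 : Real.log t ≤ Real.log ((ep k 1 : ℝ) - d) :=
      Real.log_le_log (by linarith) (by linarith)
    have h5 : D * (1 - ((1 : ℕ) : ℝ) / F) < D * (1 - y / F) := by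
      apply mul_lt_mul_of_pos_left _ hD
      have : y / F < ((1 : ℕ) : ℝ) / F := by
        apply div_lt_div_of_pos_right _ hF0
        push_cast
        exact hy1
      linarith
    linarith
  · -- y ≥ 1
    set p := ⌊y⌋₊ with hp
    have hp1 : 1 ≤ p := by
      rw [hp]; exact Nat.one_le_floor_iff y |>.2 hy1 |> fun h => h
    have hpy : (p : ℝ) ≤ y := Nat.floor_le hy.le
    have hyp : y < p + 1 := Nat.lt_floor_add_one y
    have hpk : p + 1 ≤ k := by
      have : (p : ℝ) + 1 ≤ k := by linarith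
      exact_mod_cast this
    rcases eq_or_lt_of_le hpy with heq | hlt
    · -- integer
      rw [← heq, Ik_eq_ep k p hp1] at hI
      have h2 := h p hp1 (by omega) (by omega)
      have h3 : (t : ℝ) + d ≤ ep k p := by exact_mod_cast hI
      have h4 : Real.log t ≤ Real.log ((ep k p : ℝ) - d) :=
        Real.log_le_log (by linarith) (by linarith)
      rcases lt_or_ge (Real.log t) (D * (1 - y / F)) with h5 | h5
      · left; exact h5
      right
      rw [← heq] at h5
      have h6 : Real.log t = D * (1 - p / F) := le_antisymm (h4.trans h2) h5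
      have hpk2 : p + 2 ≤ k := by
        by_contra hcon
        have hp' : p = k - 1 := by omega
        have : ep k p = 1 := by
          rw [hp']
          unfold ep
          rw [show k = (k - 1) + 1 by omega, Finset.sum_range_succ]
          simp only [Nat.add_sub_cancel]
          rw [Nat.div_self (by omega), Finset.sum_eq_zero]
          intro l hl
          exact Nat.div_eq_of_lt (mem_range.1 hl)
        omega
      refine ⟨p, hp1, hpk2, heq.symm, ?_, ?_, h6⟩
      · by_contra hcon
        have ht1 : t = 1 := by omega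
        rw [ht1] at h6
        simp only [Nat.cast_one, Real.log_one] at h6
        have h7 : 1 - (p : ℝ) / F = 0 := by
          rcases mul_eq_zero.1 h6.symm with h8 | h8
          · linarith
          · exact h8
        have h9 : (p : ℝ) = F := by
          field_simp at h7
          linarith
        have : (p : ℝ) + 2 ≤ k := by exact_mod_cast hpk2
        linarith
      · have h7 : Real.log ((ep k p : ℝ) - d) ≤ Real.log t := by linarith
        have h8 : (ep k p : ℝ) - d ≤ t := by
          rwa [Real.log_le_log_iff (by linarith) (by linarith)] at h7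
        have h9 : (ep k p : ℝ) ≤ ((t + d : ℕ) : ℝ) := by push_cast; linarith
        have h10 : ep k p ≤ t + d := by exact_mod_cast h9
        omega
    · -- non-integer
      left
      have hpk1 : p + 1 < k := by
        rcases Nat.lt_or_ge (p + 1) k with h5 | h5
        · exact h5
        · exfalso
          have : (k : ℝ) ≤ p + 1 := by exact_mod_cast h5
          linarith
      set θ := y - p with hθ
      have hyθ : y = p + θ := by rw [hθ]; ring
      rw [hyθ] at hI ⊢
      have hlt2 := Ik_lt_ep k p hp1 (by omega) (p + θ) (by linarith)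
      have hc := core k p d hd hp1 hpk1 θ (by linarith) (by linarith) (by omega)
        (D * (1 - p / F)) (D / F) (by positivity) (h p hp1 (by omega) (by omega)) (by
          intro hd'
          have := h (p + 1) (by omega) (by omega) hd'
          have e : D * (1 - ((p + 1 : ℕ) : ℝ) / F) = D * (1 - p / F) - D / F := by
            push_cast; ring
          linarith) (by
          have e : D * (1 - p / F) - ((k : ℝ) - 1 - p) * (D / F) = D * (1 - (k - 1) / F) := by ring
          rw [e]
          apply mul_nonneg hD.le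
          have : ((k : ℝ) - 1) / F ≤ 1 := by rw [div_le_one hF0]; exact hF
          linarith)
      have h3 : (t : ℝ) ≤ (Ik k (p + θ) : ℝ) - d := by
        have : ((t + d : ℕ) : ℝ) ≤ Ik k (p + θ) := by exact_mod_cast hI
        push_cast at this
        linarith
      have h4 : Real.log t ≤ Real.log ((Ik k (p + θ) : ℝ) - d) :=
        Real.log_le_log (by linarith) h3
      have e : D * (1 - (p + θ) / F) = D * (1 - p / F) - θ * (D / F) := by ring
      rw [e]
      linarith

end Pool.Agent.ER.Num
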