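import Pool.Agent.ER.NumBasic

set_option autoImplicit false

/-!
Numeric inequality for MP_86b484 (helper39), part 2: the key lemma.
-/

namespace Pool.Agent.ER.Num

open Finset

/-- number of inside pairs of the balanced partition of `k` points into `p` parts -/
def ep (k p : ℕ) : ℕ := ∑ l ∈ range k, l / p

/-- greedy bound for the number of heavy pairs (loss `≥ y`) in a greedy `k`-clique -/
noncomputable def Ik (k : ℕ) (y : ℝ) : ℕ := ∑ l ∈ range k, min l ⌊(l : ℝ) / y⌋₊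

lemma Ik_eq_ep (k p : ℕ) (_hp : 1 ≤ p) : Ik k (p : ℝ) = ep k p := by
  unfold Ik ep
  apply Finset.sum_congr rfl
  intro l _
  rw [Nat.floor_div_natCast, Nat.floor_natCast]
  exact min_eq_right (Nat.div_le_self l p)

lemma Ik_layer (k : ℕ) (y : ℝ) (hy : 1 ≤ y) :
    Ik k y = ∑ m ∈ range k, (k - ⌈((m + 1 : ℕ) : ℝ) * y⌉₊) := by
  have hy0 : 0 < y := by linarith
  unfold Ik
  have h1 : ∀ l ∈ range k, min l ⌊(l : ℝ) / y⌋₊
      = ∑ m ∈ range k, (if ⌈((m + 1 : ℕ) : ℝ) * y⌉₊ ≤ l then 1 else 0) := by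
    intro l hl
    rw [mem_range] at hl
    have hfl : ⌊(l : ℝ) / y⌋₊ ≤ l := by
      have : (l : ℝ) / y ≤ l := div_le_self (by positivity) hy
      calc ⌊(l : ℝ) / y⌋₊ ≤ ⌊(l : ℝ)⌋₊ := Nat.floor_le_floor this
        _ = l := Nat.floor_natCast l
    rw [min_eq_right hfl]
    rw [← Finset.sum_filter, Finset.sum_const, smul_eq_mul, mul_one]
    have : (range k).filter (fun m => ⌈((m + 1 : ℕ) : ℝ) * y⌉₊ ≤ l) = range ⌊(l : ℝ) / y⌋₊ := by
      ext m
      simp only [mem_filter, mem_range]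
      rw [Nat.ceil_le, ← le_div_iff₀ hy0]
      rw [← Nat.le_floor_iff (by positivity)]
      omega
    rw [this, card_range]
  rw [Finset.sum_congr rfl h1, Finset.sum_comm]
  apply Finset.sum_congr rfl
  intro m _
  rw [← Finset.sum_filter, Finset.sum_const, smul_eq_mul, mul_one]
  have : (range k).filter (fun l => ⌈((m + 1 : ℕ) : ℝ) * y⌉₊ ≤ l)
      = Finset.Ico ⌈((m + 1 : ℕ) : ℝ) * y⌉₊ k := by
    ext l
    simp only [mem_filter, mem_range, mem_Ico]
    tauto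
  rw [this, Nat.card_Ico]

lemma ceil_split (p m : ℕ) (θ : ℝ) (h0 : 0 ≤ θ) :
    ⌈((m + 1 : ℕ) : ℝ) * (p + θ)⌉₊ = (m + 1) * p + ⌈θ * ((m + 1 : ℕ) : ℝ)⌉₊ := by
  have : ((m + 1 : ℕ) : ℝ) * (p + θ) = θ * ((m + 1 : ℕ) : ℝ) + (((m + 1) * p : ℕ) : ℝ) := by
    push_cast; ring
  rw [this, Nat.ceil_add_natCast (by positivity)]
  ring

lemma Ik_layer' (k p : ℕ) (hp : 1 ≤ p) (θ : ℝ) (h0 : 0 ≤ θ) :
    Ik k (p + θ) = ∑ m ∈ range k, (k - ((m + 1) * p + ⌈θ * ((m + 1 : ℕ) : ℝ)⌉₊)) := by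
  have hp1 : (1 : ℝ) ≤ p := by exact_mod_cast hp
  rw [Ik_layer k _ (by linarith)]
  apply Finset.sum_congr rfl
  intro m _
  rw [ceil_split p m θ h0]

lemma ep_layer (k p : ℕ) (hp : 1 ≤ p) :
    ep k p = ∑ m ∈ range k, (k - (m + 1) * p) := by
  have := Ik_layer' k p hp 0 le_rfl
  rw [add_zero, Ik_eq_ep k p hp] at this
  rw [this]
  apply Finset.sum_congr rfl
  intro m _
  simp

/-- lower bound for `ep` -/
lemma ep_ge (k p M : ℕ) (hp : 1 ≤ p) (hM : M ≤ k) :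
    (M : ℝ) * k - p * (M * (M + 1) / 2) ≤ ep k p := by
  rw [ep_layer k p hp]
  have h1 : ∑ m ∈ range M, (k - (m + 1) * p) ≤ ∑ m ∈ range k, (k - (m + 1) * p) :=
    Finset.sum_le_sum_of_subset (Finset.range_mono hM)
  have h2 : (M : ℝ) * k - p * (M * (M + 1) / 2) ≤ ((∑ m ∈ range M, (k - (m + 1) * p) : ℕ) : ℝ) := by
    clear h1 hM
    induction M with
    | zero => simp
    | succ M ih =>
      rw [Finset.sum_range_succ]
      push_cast at ih ⊢
      have h3 : (k : ℝ) - (M + 1) * p ≤ ((k - (M + 1) * p : ℕ) : ℝ) := by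
        have := le_tsub_add (a := (M + 1) * p) (b := k)
        have h4 : ((k : ℕ) : ℝ) ≤ ((k - (M + 1) * p + (M + 1) * p : ℕ) : ℝ) := by exact_mod_cast this
        push_cast at h4
        linarith
      nlinarith
  have h3 : ((∑ m ∈ range M, (k - (m + 1) * p) : ℕ) : ℝ)
      ≤ ((∑ m ∈ range k, (k - (m + 1) * p) : ℕ) : ℝ) := by exact_mod_cast h1
  linarith

lemma ep_ge' (k p : ℕ) (hp : 1 ≤ p) : (k : ℝ) * (k - p) ≤ 2 * p * ep k p := by
  have h := ep_ge k p (k / p) hp (Nat.div_le_self k p)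
  have hp1 : (1 : ℝ) ≤ p := by exact_mod_cast hp
  have hdm := Nat.div_add_mod k p
  have hlt := Nat.mod_lt k (show 0 < p by omega)
  set M := k / p with hM
  set z := k % p with hz
  have hk : (k : ℝ) = p * M + z := by exact_mod_cast hdm.symm
  have hz0 : (0 : ℝ) ≤ z := by positivity
  have hz1 : (z : ℝ) ≤ p := by exact_mod_cast hlt.le
  have h2 : 2 * p * ((M : ℝ) * k - p * (M * (M + 1) / 2)) ≤ 2 * p * (ep k p : ℝ) :=
    mul_le_mul_of_nonneg_left h (by positivity)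
  have h3 : (k : ℝ) * (k - p) + z * (p - z) = 2 * p * ((M : ℝ) * k - p * (M * (M + 1) / 2)) := by
    rw [hk]; ring
  nlinarith [mul_nonneg hz0 (sub_nonneg.2 hz1)]

/-- exact formula for `Ik` -/
lemma Ik_le_formula (k p : ℕ) (hp : 1 ≤ p) (θ : ℝ) (h0 : 0 < θ) (M : ℕ)
    (hM : M = ⌊(k : ℝ) / (p + θ)⌋₊) :
    (Ik k (p + θ) : ℝ) ≤ M * k - (p + θ) * (M * (M + 1) / 2) - S θ M := by
  have hp1 : (1 : ℝ) ≤ p := by exact_mod_cast hp
  have hy : 0 < (p : ℝ) + θ := by linarith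
  have hMk : M ≤ k := by
    rw [hM]
    have : (k : ℝ) / (p + θ) ≤ k := div_le_self (by positivity) (by linarith)
    calc ⌊(k : ℝ) / (p + θ)⌋₊ ≤ ⌊(k : ℝ)⌋₊ := Nat.floor_le_floor this
      _ = k := Nat.floor_natCast k
  rw [Ik_layer k _ (by linarith)]
  -- terms beyond M vanish
  have hsplit : ∑ m ∈ range k, (k - ⌈((m + 1 : ℕ) : ℝ) * (p + θ)⌉₊)
      = ∑ m ∈ range M, (k - ⌈((m + 1 : ℕ) : ℝ) * (p + θ)⌉₊) := by
    symm
    apply Finset.sum_subset (Finset.range_mono hMk)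
    intro m _ hm2
    rw [mem_range, not_lt] at hm2
    apply Nat.sub_eq_zero_of_le
    have h1 : (k : ℝ) / (p + θ) < ((m + 1 : ℕ) : ℝ) := by
      rw [hM] at hm2
      exact Nat.lt_of_floor_lt (by omega)
    rw [div_lt_iff₀ hy] at h1
    have h2 := Nat.le_ceil (((m + 1 : ℕ) : ℝ) * (p + θ))
    have h3 : (k : ℝ) ≤ (⌈((m + 1 : ℕ) : ℝ) * (p + θ)⌉₊ : ℝ) := by linarith
    exact_mod_cast h3
  rw [hsplit]
  have hle : ∀ m ∈ range M, ((k - ⌈((m + 1 : ℕ) : ℝ) * (p + θ)⌉₊ : ℕ) : ℝ)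
      = (k : ℝ) - (p + θ) * (m + 1) - u θ (m + 1) := by
    intro m hm
    rw [mem_range] at hm
    have h1 : ((m + 1 : ℕ) : ℝ) ≤ (k : ℝ) / (p + θ) := by
      rw [hM] at hm
      rw [← Nat.le_floor_iff (by positivity)]
      omega
    rw [le_div_iff₀ hy] at h1
    have h2 : ⌈((m + 1 : ℕ) : ℝ) * (p + θ)⌉₊ ≤ k := by
      rw [Nat.ceil_le]; exact h1
    rw [Nat.cast_sub h2, ceil_split p m θ h0.le]
    unfold u
    push_cast
    ring
  rw [Nat.cast_sum, Finset.sum_congr rfl hle]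
  have : ∀ N : ℕ, ∑ m ∈ range N, ((k : ℝ) - (p + θ) * (m + 1) - u θ (m + 1))
      = N * k - (p + θ) * (N * (N + 1) / 2) - S θ N := by
    intro N
    induction N with
    | zero => simp [S_zero]
    | succ N ih =>
      rw [Finset.sum_range_succ, ih, S_succ]
      push_cast
      ring
  rw [this M]

/-- Key lemma, part (c). -/
theorem keyC (k p : ℕ) (hp : 1 ≤ p) (θ : ℝ) (h0 : 0 < θ) (h1 : θ < 1) :
    (p + θ) * (Ik k (p + θ) : ℝ) ≤ (1 - θ) * p * ep k p + θ * (p + 1) * ep k (p + 1) := by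
  have hη : 0 < 1 - θ := by linarith
  have hp1 : (1 : ℝ) ≤ p := by exact_mod_cast hp
  have hy : 0 < (p : ℝ) + θ := by linarith
  set M := ⌊(k : ℝ) / (p + θ)⌋₊ with hM
  have hI := Ik_le_formula k p hp θ h0 M hM
  have hMk : M ≤ k := by
    rw [hM]
    have : (k : ℝ) / (p + θ) ≤ k := div_le_self (by positivity) (by linarith)
    calc ⌊(k : ℝ) / (p + θ)⌋₊ ≤ ⌊(k : ℝ)⌋₊ := Nat.floor_le_floor this
      _ = k := Nat.floor_natCast k
  have hI' : (p + θ) * (Ik k (p + θ) : ℝ)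
      ≤ (p + θ) * (M * k - (p + θ) * (M * (M + 1) / 2) - S θ M) :=
    mul_le_mul_of_nonneg_left hI hy.le
  rcases S_i h0 h1 M p hp with h | h
  · have e1 := ep_ge k p M hp hMk
    have e2 := ep_ge k (p + 1) M (by omega) hMk
    push_cast at e2
    have e1' : (1 - θ) * p * ((M : ℝ) * k - p * (M * (M + 1) / 2)) ≤ (1 - θ) * p * ep k p :=
      mul_le_mul_of_nonneg_left e1 (by positivity)
    have e2' : θ * (p + 1) * ((M : ℝ) * k - (p + 1) * (M * (M + 1) / 2))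
        ≤ θ * (p + 1) * ep k (p + 1) :=
      mul_le_mul_of_nonneg_left e2 (by positivity)
    nlinarith
  · have e1 := ep_ge' k p hp
    have e2 := ep_ge' k (p + 1) (by omega)
    push_cast at e2
    have e1' : (1 - θ) * ((k : ℝ) * (k - p)) ≤ (1 - θ) * (2 * p * ep k p) :=
      mul_le_mul_of_nonneg_left e1 (by positivity)
    have e2' : θ * ((k : ℝ) * (k - (p + 1))) ≤ θ * (2 * (p + 1) * ep k (p + 1)) :=
      mul_le_mul_of_nonneg_left e2 (by positivity)
    -- z = k - M y, z (y - z) ≤ y^2/4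
    have hz : 0 ≤ ((p : ℝ) + θ - 2 * (k - M * (p + θ))) ^ 2 := sq_nonneg _
    nlinarith

lemma abel_nonneg (w x : ℕ → ℝ) (n : ℕ) (hw : ∀ m, m < n → 0 ≤ w m)
    (hanti : ∀ m, m + 1 < n → w (m + 1) ≤ w m)
    (hX : ∀ j, j ≤ n → 0 ≤ ∑ m ∈ range j, x m) : 0 ≤ ∑ m ∈ range n, w m * x m := by
  rcases Nat.eq_zero_or_pos n with rfl | hn
  · simp
  have key : ∀ j, j + 1 ≤ n → w j * ∑ m ∈ range (j + 1), x m ≤ ∑ m ∈ range (j + 1), w m * x m := by
    intro j
    induction j with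
    | zero => intro _; simp
    | succ j ih =>
      intro hj
      have h1 := ih (by omega)
      rw [Finset.sum_range_succ (fun m => w m * x m), Finset.sum_range_succ x (j + 1), mul_add]
      have h2 : w (j + 1) * ∑ m ∈ range (j + 1), x m ≤ w j * ∑ m ∈ range (j + 1), x m :=
        mul_le_mul_of_nonneg_right (hanti j (by omega)) (hX _ (by omega))
      linarith
  obtain ⟨j, rfl⟩ : ∃ j, n = j + 1 := ⟨n - 1, by omega⟩
  have h1 := key j le_rfl
  have h2 : 0 ≤ w j * ∑ m ∈ range (j + 1), x m := mul_nonneg (hw j (by omega)) (hX _ le_rfl)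
  linarith

/-- Restriction of the layer sum to `m < a`, `a = (k-1)/p`. -/
lemma layer_restrict (k p a : ℕ) (hp : 1 ≤ p) (hk : 1 ≤ k) (ha : a = (k - 1) / p) (c : ℕ → ℕ) :
    ∑ m ∈ range k, (k - ((m + 1) * p + c m)) = ∑ m ∈ range a, (k - ((m + 1) * p + c m)) := by
  symm
  have hak : a ≤ k := by
    rw [ha]
    exact (Nat.div_le_self _ _).trans (by omega)
  apply Finset.sum_subset (Finset.range_mono hak)
  intro m _ hm2
  rw [mem_range, not_lt] at hm2
  apply Nat.sub_eq_zero_of_le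
  have h1 : k - 1 < (m + 1) * p := by
    have h2 : (k - 1) / p < m + 1 := by omega
    rwa [Nat.div_lt_iff_lt_mul (by omega)] at h2
  omega

lemma base_pos (k p a m : ℕ) (hp : 1 ≤ p) (hk : 1 ≤ k) (ha : a = (k - 1) / p) (hm : m < a) :
    (m + 1) * p + 1 ≤ k := by
  have h1 : (m + 1) ≤ (k - 1) / p := by omega
  rw [Nat.le_div_iff_mul_le (by omega)] at h1
  omega

/-- Key lemma, part (b). -/
theorem keyB (k p a : ℕ) (hp : 1 ≤ p) (hk : 1 ≤ k) (ha : a = (k - 1) / p) (θ : ℝ)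
    (h0 : 0 < θ) (h1 : θ < 1) :
    2 * (1 - θ) * ((ep k p : ℝ) - Ik k (p + θ))
      ≤ (a + 2) * ((1 - θ) * ep k p + θ * ep k (p + 1) - Ik k (p + θ)) := by
  have hη : 0 < 1 - θ := by linarith
  -- rewrite the three sums
  have hE : (ep k p : ℝ) = ∑ m ∈ range a, ((k : ℝ) - (m + 1) * p) := by
    rw [ep_layer k p hp]
    have := layer_restrict k p a hp hk ha (fun _ => 0)
    simp only [add_zero] at this
    rw [this, Nat.cast_sum]
    apply Finset.sum_congr rfl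
    intro m hm
    have hb := base_pos k p a m hp hk ha (mem_range.1 hm)
    rw [Nat.cast_sub (by omega)]
    push_cast
    ring
  have hEI : (ep k p : ℝ) - Ik k (p + θ)
      = ∑ m ∈ range a, min (⌈θ * ((m + 1 : ℕ) : ℝ)⌉₊ : ℝ) ((k : ℝ) - (m + 1) * p) := by
    rw [hE, Ik_layer' k p hp θ h0.le,
      layer_restrict k p a hp hk ha (fun m => ⌈θ * ((m + 1 : ℕ) : ℝ)⌉₊), Nat.cast_sum,
      ← Finset.sum_sub_distrib]
    apply Finset.sum_congr rfl
    intro m hm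
    have hb := base_pos k p a m hp hk ha (mem_range.1 hm)
    rcases le_or_gt ((m + 1) * p + ⌈θ * ((m + 1 : ℕ) : ℝ)⌉₊) k with hc | hc
    · rw [Nat.cast_sub hc]
      have hc' : (((m + 1) * p + ⌈θ * ((m + 1 : ℕ) : ℝ)⌉₊ : ℕ) : ℝ) ≤ k := by exact_mod_cast hc
      rw [min_eq_left]
      · push_cast
        ring
      · push_cast at hc' ⊢
        linarith
    · rw [Nat.sub_eq_zero_of_le hc.le]
      have hc' : (k : ℝ) ≤ (((m + 1) * p + ⌈θ * ((m + 1 : ℕ) : ℝ)⌉₊ : ℕ) : ℝ) := by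
        exact_mod_cast hc.le
      rw [min_eq_right]
      · push_cast
        ring
      · push_cast at hc' ⊢
        linarith
  have hEE : (ep k p : ℝ) - ep k (p + 1)
      = ∑ m ∈ range a, min ((m : ℝ) + 1) ((k : ℝ) - (m + 1) * p) := by
    have hl := ep_layer k (p + 1) (by omega)
    have hr := layer_restrict k p a hp hk ha (fun m => m + 1)
    have hl' : ep k (p + 1) = ∑ m ∈ range a, (k - ((m + 1) * p + (m + 1))) := by
      rw [hl, ← hr]
      apply Finset.sum_congr rfl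
      intro m _
      congr 1
    rw [hE, hl', Nat.cast_sum, ← Finset.sum_sub_distrib]
    apply Finset.sum_congr rfl
    intro m hm
    have hb := base_pos k p a m hp hk ha (mem_range.1 hm)
    rcases le_or_gt ((m + 1) * p + (m + 1)) k with hc | hc
    · rw [Nat.cast_sub hc]
      have hc' : (((m + 1) * p + (m + 1) : ℕ) : ℝ) ≤ k := by exact_mod_cast hc
      rw [min_eq_left]
      · push_cast
        ring
      · push_cast at hc' ⊢
        linarith
    · rw [Nat.sub_eq_zero_of_le hc.le]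
      have hc' : (k : ℝ) ≤ (((m + 1) * p + (m + 1) : ℕ) : ℝ) := by
        exact_mod_cast hc.le
      rw [min_eq_right]
      · push_cast
        ring
      · push_cast at hc' ⊢
        linarith
  -- weights
  set w : ℕ → ℝ := fun m => min 1 (((k : ℝ) - (m + 1) * p) / (m + 1)) with hw
  have hwpos : ∀ m, m < a → 0 ≤ w m := by
    intro m hm
    have hb := base_pos k p a m hp hk ha hm
    have hb' : (((m + 1) * p + 1 : ℕ) : ℝ) ≤ k := by exact_mod_cast hb
    push_cast at hb'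
    apply le_min zero_le_one
    apply div_nonneg _ (by positivity)
    linarith
  have hwanti : ∀ m, m + 1 < a → w (m + 1) ≤ w m := by
    intro m hm
    have hb := base_pos k p a (m + 1) hp hk ha hm
    have hb' : (((m + 1 + 1) * p + 1 : ℕ) : ℝ) ≤ k := by exact_mod_cast hb
    push_cast at hb'
    simp only [hw]
    apply min_le_min le_rfl
    push_cast
    rw [div_le_div_iff₀ (by positivity) (by positivity)]
    have hp1 : (1 : ℝ) ≤ p := by exact_mod_cast hp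
    have hm0 : (0 : ℝ) ≤ m := by positivity
    have hk0 : (0 : ℝ) ≤ k := by positivity
    nlinarith
  have hpre : ∀ j : ℕ, ∑ m ∈ range j, ((a + 2 * θ) * (⌈θ * ((m + 1 : ℕ) : ℝ)⌉₊ : ℝ)
      - θ * (a + 2) * (m + 1)) = (a + 2 * θ) * S θ j - θ * (1 - θ) * j * (j + 1) := by
    intro j
    induction j with
    | zero => simp [S_zero]
    | succ j ih =>
      rw [Finset.sum_range_succ, ih, S_succ]
      unfold u
      push_cast
      ring
  have hab := abel_nonneg w (fun m => (a + 2 * θ) * (⌈θ * ((m + 1 : ℕ) : ℝ)⌉₊ : ℝ)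
      - θ * (a + 2) * (m + 1)) a hwpos hwanti (by
        intro j hj
        rw [hpre j]
        have := S_ii h0 h1 j a hj
        linarith)
  -- compare
  have hle1 : ∑ m ∈ range a, w m * (⌈θ * ((m + 1 : ℕ) : ℝ)⌉₊ : ℝ) ≤ (ep k p : ℝ) - Ik k (p + θ) := by
    rw [hEI]
    apply Finset.sum_le_sum
    intro m hm
    have hm0 : (0 : ℝ) < (m : ℝ) + 1 := by positivity
    have hc0 : (0 : ℝ) ≤ (⌈θ * ((m + 1 : ℕ) : ℝ)⌉₊ : ℝ) := by positivity
    have hc1 : (⌈θ * ((m + 1 : ℕ) : ℝ)⌉₊ : ℝ) ≤ m + 1 := by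
      have : ⌈θ * ((m + 1 : ℕ) : ℝ)⌉₊ ≤ m + 1 := by
        rw [Nat.ceil_le]
        have : (0 : ℝ) ≤ ((m + 1 : ℕ) : ℝ) := by positivity
        nlinarith
      exact_mod_cast this
    have hb := base_pos k p a m hp hk ha (mem_range.1 hm)
    have hb' : (((m + 1) * p + 1 : ℕ) : ℝ) ≤ k := by exact_mod_cast hb
    push_cast at hb'
    apply le_min
    · calc w m * (⌈θ * ((m + 1 : ℕ) : ℝ)⌉₊ : ℝ) ≤ 1 * (⌈θ * ((m + 1 : ℕ) : ℝ)⌉₊ : ℝ) :=
            mul_le_mul_of_nonneg_right (min_le_left _ _) hc0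
        _ = _ := one_mul _
    · calc w m * (⌈θ * ((m + 1 : ℕ) : ℝ)⌉₊ : ℝ) ≤ (((k : ℝ) - (m + 1) * p) / (m + 1)) * (m + 1) := by
            apply mul_le_mul (min_le_right _ _) hc1 hc0
            apply div_nonneg _ hm0.le
            linarith
        _ = _ := by field_simp
  have heq2 : ∑ m ∈ range a, w m * ((m : ℝ) + 1) = (ep k p : ℝ) - ep k (p + 1) := by
    rw [hEE]
    apply Finset.sum_congr rfl
    intro m _
    have hm0 : (0 : ℝ) < (m : ℝ) + 1 := by positivity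
    simp only [hw]
    rw [min_mul_of_nonneg _ _ hm0.le, one_mul, div_mul_cancel₀ _ hm0.ne']
  have hsum : ∑ m ∈ range a, w m * ((a + 2 * θ) * (⌈θ * ((m + 1 : ℕ) : ℝ)⌉₊ : ℝ)
      - θ * (a + 2) * (m + 1))
      = (a + 2 * θ) * ∑ m ∈ range a, w m * (⌈θ * ((m + 1 : ℕ) : ℝ)⌉₊ : ℝ)
        - θ * (a + 2) * ∑ m ∈ range a, w m * ((m : ℝ) + 1) := by
    rw [Finset.mul_sum, Finset.mul_sum, ← Finset.sum_sub_distrib]
    apply Finset.sum_congr rfl
    intro m _
    ring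
  rw [hsum, heq2] at hab
  have h5 : (a + 2 * θ) * ∑ m ∈ range a, w m * (⌈θ * ((m + 1 : ℕ) : ℝ)⌉₊ : ℝ)
      ≤ (a + 2 * θ) * ((ep k p : ℝ) - Ik k (p + θ)) :=
    mul_le_mul_of_nonneg_left hle1 (by positivity)
  nlinarith

end Pool.Agent.ER.Num
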