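import Pool.Agent.ER.NumKey

set_option autoImplicit false

/-!
Numeric inequality for MP_86b484 (helper39), part 3: the inequality itself.
-/

namespace Pool.Agent.ER.Num

open Finset

/-! ### logarithm estimates -/

lemma mul_log_le {x : ℝ} (hx : 0 < x) (m n : ℕ) (h : x ^ m ≤ (2.718 : ℝ) ^ n) :
    (m : ℝ) * Real.log x ≤ n := by
  have h1 : Real.log (x ^ m) ≤ Real.log ((2.718 : ℝ) ^ n) :=
    Real.log_le_log (by positivity) h
  rw [Real.log_pow, Real.log_pow] at h1
  have h2 : Real.log (2.718 : ℝ) ≤ 1 := by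
    rw [Real.log_le_iff_le_exp (by norm_num)]
    have := Real.exp_one_gt_d9
    linarith
  have h3 : (n : ℝ) * Real.log (2.718 : ℝ) ≤ n * 1 :=
    mul_le_mul_of_nonneg_left h2 (by positivity)
  linarith

lemma log_succ_le {x y : ℝ} (hx : 0 < x) (hy : 0 < y) : Real.log y ≤ Real.log x + (y - x) / x := by
  have h := Real.log_le_sub_one_of_pos (show 0 < y / x by positivity)
  rw [Real.log_div hy.ne' hx.ne'] at h
  have : y / x - 1 = (y - x) / x := by field_simp
  linarith

lemma cube_bound1 (a : ℕ) (ha : 9 ≤ a) :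
    Real.log ((a : ℝ) * (a + 1) * (a + 2) / 4) ≤ a - 3 := by
  induction a, ha using Nat.le_induction with
  | base =>
    have := mul_log_le (x := (247.5 : ℝ)) (by norm_num) 1 6 (by norm_num)
    norm_num at this ⊢
    linarith
  | succ a ha ih =>
    have ha' : (9 : ℝ) ≤ a := by exact_mod_cast ha
    have h1 := log_succ_le (x := (a : ℝ) * (a + 1) * (a + 2) / 4)
      (y := ((a + 1 : ℕ) : ℝ) * ((a + 1 : ℕ) + 1) * ((a + 1 : ℕ) + 2) / 4)
      (by positivity) (by positivity)
    have h2 : (((a + 1 : ℕ) : ℝ) * ((a + 1 : ℕ) + 1) * ((a + 1 : ℕ) + 2) / 4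
        - (a : ℝ) * (a + 1) * (a + 2) / 4) / ((a : ℝ) * (a + 1) * (a + 2) / 4) = 3 / a := by
      push_cast
      field_simp
      ring
    have h3 : (3 : ℝ) / a ≤ 1 := by
      rw [div_le_one (by linarith)]; linarith
    rw [h2] at h1
    push_cast at h1 ⊢
    linarith

lemma cube_bound2 (a : ℕ) (ha : 9 ≤ a) :
    Real.log ((a : ℝ) * (a + 1) * (a + 2) / 4) ≤ 4 / 5 * (a - 1) := by
  induction a, ha using Nat.le_induction with
  | base =>
    have := mul_log_le (x := (247.5 : ℝ)) (by norm_num) 1 6 (by norm_num)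
    norm_num at this ⊢
    linarith
  | succ a ha ih =>
    have ha' : (9 : ℝ) ≤ a := by exact_mod_cast ha
    have h1 := log_succ_le (x := (a : ℝ) * (a + 1) * (a + 2) / 4)
      (y := ((a + 1 : ℕ) : ℝ) * ((a + 1 : ℕ) + 1) * ((a + 1 : ℕ) + 2) / 4)
      (by positivity) (by positivity)
    have h2 : (((a + 1 : ℕ) : ℝ) * ((a + 1 : ℕ) + 1) * ((a + 1 : ℕ) + 2) / 4
        - (a : ℝ) * (a + 1) * (a + 2) / 4) / ((a : ℝ) * (a + 1) * (a + 2) / 4) = 3 / a := by
      push_cast
      field_simp
      ring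
    have h3 : (3 : ℝ) / a ≤ 4 / 5 := by
      rw [div_le_iff₀ (by linarith)]; linarith
    rw [h2] at h1
    push_cast at h1 ⊢
    linarith

lemma sq_bound (C : ℝ) (hC : 0 < C) (q r : ℝ) (a0 : ℕ) (ha0 : 1 ≤ a0) (hq : 0 ≤ q)
    (h : 2 * q ≤ r * a0)
    (hbase : q * Real.log (C * a0 * (a0 + 1)) ≤ r * (a0 - 1)) (a : ℕ) (ha : a0 ≤ a) :
    q * Real.log (C * a * (a + 1)) ≤ r * (a - 1) := by
  induction a, ha using Nat.le_induction with
  | base => exact hbase
  | succ a ha ih =>
    have ha0' : (1 : ℝ) ≤ a0 := by exact_mod_cast ha0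
    have ha' : (a0 : ℝ) ≤ a := by exact_mod_cast ha
    have ha1 : (0 : ℝ) < a := by linarith
    have h1 := log_succ_le (x := C * a * (a + 1))
      (y := C * ((a + 1 : ℕ) : ℝ) * ((a + 1 : ℕ) + 1)) (by positivity) (by positivity)
    have h2 : (C * ((a + 1 : ℕ) : ℝ) * ((a + 1 : ℕ) + 1) - C * a * (a + 1)) / (C * a * (a + 1))
        = 2 / a := by
      push_cast
      field_simp
      ring
    rw [h2] at h1
    have hr : 0 ≤ r := by
      by_contra hcon
      push Not at hcon
      nlinarith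
    have h3 : q * (2 / a) ≤ r := by
      rw [mul_div_assoc', div_le_iff₀ ha1]
      nlinarith
    have h4 := mul_le_mul_of_nonneg_left h1 hq
    have h4' : q * (Real.log (C * a * (a + 1)) + 2 / a)
        = q * Real.log (C * a * (a + 1)) + q * (2 / a) := by ring
    rw [h4'] at h4
    push_cast at h4 ⊢
    linarith

/-- The inequality `(**)`. -/
lemma starstar (p a : ℕ) (hp : 1 ≤ p) (ha : 2 ≤ a)
    (hcase : 4 ≤ p ∨ (p = 3 ∧ 8 ≤ a) ∨ (p = 2 ∧ 9 ≤ a) ∨ (p = 1 ∧ 11 ≤ a))
    (R α : ℝ) (hR1 : 1 ≤ R) (hRp : R ≤ p + 1) (hRa : R ≤ (a + 2) / 2) (hα1 : 1 ≤ α)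
    (hα : α ≤ a * (a + 1) / 2) : R * Real.log (R * α) ≤ p * (a - 1) := by
  have ha2 : (2 : ℝ) ≤ a := by exact_mod_cast ha
  have hp1 : (1 : ℝ) ≤ p := by exact_mod_cast hp
  have hRα : 1 ≤ R * α := by nlinarith
  have hlog0 : 0 ≤ Real.log (R * α) := Real.log_nonneg hRα
  -- generic upper bounds
  have hb1 : Real.log (R * α) ≤ Real.log ((a : ℝ) * (a + 1) * (a + 2) / 4) := by
    apply Real.log_le_log (by linarith)
    have : R * α ≤ (a + 2) / 2 * (a * (a + 1) / 2) :=
      mul_le_mul hRa hα (by linarith) (by positivity)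
    linarith
  have hb2 : Real.log (R * α) ≤ Real.log (((p : ℝ) + 1) / 2 * a * (a + 1)) := by
    apply Real.log_le_log (by linarith)
    have : R * α ≤ (p + 1) * (a * (a + 1) / 2) :=
      mul_le_mul hRp hα (by linarith) (by positivity)
    linarith
  have hu1 : R * Real.log (R * α) ≤ (a + 2) / 2 * Real.log ((a : ℝ) * (a + 1) * (a + 2) / 4) :=
    mul_le_mul hRa hb1 hlog0 (by positivity)
  have hu2 : R * Real.log (R * α) ≤ (p + 1) * Real.log (((p : ℝ) + 1) / 2 * a * (a + 1)) :=
    mul_le_mul hRp hb2 hlog0 (by positivity)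
  rcases hcase with h4 | ⟨h3, h8⟩ | ⟨h2, h9⟩ | ⟨h1, h11⟩
  · have hp4 : (4 : ℝ) ≤ p := by exact_mod_cast h4
    rcases Nat.lt_or_ge a 9 with ha9 | ha9
    · -- small a
      have hgoal : (a + 2) / 2 * Real.log ((a : ℝ) * (a + 1) * (a + 2) / 4) ≤ 4 * (a - 1) := by
        interval_cases a
        · have := mul_log_le (x := (6 : ℝ)) (by norm_num) 1 2 (by norm_num)
          norm_num at this ⊢; linarith
        · have := mul_log_le (x := (15 : ℝ)) (by norm_num) 5 16 (by norm_num)
          norm_num at this ⊢; linarith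
        · have := mul_log_le (x := (30 : ℝ)) (by norm_num) 1 4 (by norm_num)
          norm_num at this ⊢; linarith
        · have := mul_log_le (x := (105/2 : ℝ)) (by norm_num) 7 32 (by norm_num)
          norm_num at this ⊢; linarith
        · have := mul_log_le (x := (84 : ℝ)) (by norm_num) 1 5 (by norm_num)
          norm_num at this ⊢; linarith
        · have := mul_log_le (x := (126 : ℝ)) (by norm_num) 3 16 (by norm_num)
          norm_num at this ⊢; linarith
        · have := mul_log_le (x := (180 : ℝ)) (by norm_num) 5 28 (by norm_num)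
          norm_num at this ⊢; linarith
      nlinarith
    · have ha9' : (9 : ℝ) ≤ a := by exact_mod_cast ha9
      rcases le_or_gt a (2 * p) with hap | hap
      · have hap' : (a : ℝ) ≤ 2 * p := by exact_mod_cast hap
        have hc := cube_bound1 a ha9
        have : (a + 2) / 2 * Real.log ((a : ℝ) * (a + 1) * (a + 2) / 4) ≤ (a + 2) / 2 * (a - 3) :=
          mul_le_mul_of_nonneg_left hc (by positivity)
        nlinarith
      · have hap' : 2 * (p : ℝ) ≤ a := by exact_mod_cast hap.le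
        have hc := cube_bound2 a ha9
        have h5 : R * Real.log (R * α) ≤ (p + 1) * (4 / 5 * (a - 1)) :=
          mul_le_mul hRp (hb1.trans hc) hlog0 (by positivity)
        nlinarith
  · subst h3
    have hs := sq_bound 2 (by norm_num) 4 3 8 (by norm_num) (by norm_num) (by norm_num) (by
      have := mul_log_le (x := (144 : ℝ)) (by norm_num) 4 21 (by norm_num)
      norm_num at this ⊢; linarith) a h8
    push_cast at hu2
    norm_num at hu2 ⊢
    linarith
  · subst h2
    have hs := sq_bound (3/2) (by norm_num) 3 2 9 (by norm_num) (by norm_num) (by norm_num) (by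
      have := mul_log_le (x := (135 : ℝ)) (by norm_num) 3 16 (by norm_num)
      norm_num at this ⊢; linarith) a h9
    push_cast at hu2
    norm_num at hu2 ⊢
    linarith
  · subst h1
    have hs := sq_bound 1 (by norm_num) 2 1 11 (by norm_num) (by norm_num) (by norm_num) (by
      have := mul_log_le (x := (132 : ℝ)) (by norm_num) 2 10 (by norm_num)
      norm_num at this ⊢; linarith) a h11
    push_cast at hu2
    norm_num at hu2 hs ⊢
    linarith

/-! ### monotonicity facts -/

lemma Ik_lt_ep (k p : ℕ) (hp : 1 ≤ p) (hpk : p < k) (y : ℝ) (hy : (p : ℝ) < y) :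
    Ik k y < ep k p := by
  have hp1 : (1 : ℝ) ≤ p := by exact_mod_cast hp
  unfold Ik ep
  apply Finset.sum_lt_sum
  · intro l _
    refine (min_le_right _ _).trans ?_
    calc ⌊(l : ℝ) / y⌋₊ ≤ ⌊(l : ℝ) / (p : ℝ)⌋₊ := by
          apply Nat.floor_le_floor
          exact div_le_div_of_nonneg_left (by positivity) (by linarith) hy.le
      _ = l / p := by rw [Nat.floor_div_natCast, Nat.floor_natCast]
  · refine ⟨p, mem_range.2 hpk, ?_⟩
    have h1 : ⌊(p : ℝ) / y⌋₊ = 0 := by
      rw [Nat.floor_eq_zero, div_lt_one (by linarith)]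
      exact hy
    rw [h1, Nat.div_self (by omega)]
    simp

lemma ep_succ_lt (k p : ℕ) (hp : 1 ≤ p) (hpk : p < k) : ep k (p + 1) < ep k p := by
  have := Ik_lt_ep k p hp hpk ((p + 1 : ℕ) : ℝ) (by push_cast; linarith)
  rwa [Ik_eq_ep k (p + 1) (by omega)] at this

lemma Ik_eq_zero (k : ℕ) (y : ℝ) (hy : 0 < y) (h : (k : ℝ) - 1 < y) : Ik k y = 0 := by
  unfold Ik
  apply Finset.sum_eq_zero
  intro l hl
  have hl' : l + 1 ≤ k := mem_range.1 hl
  have hl'' : (l : ℝ) + 1 ≤ k := by exact_mod_cast hl'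
  have h1 : ⌊(l : ℝ) / y⌋₊ = 0 := by
    rw [Nat.floor_eq_zero, div_lt_one hy]
    linarith
  rw [h1]; simp

lemma Ik_le_ep_one (k : ℕ) (y : ℝ) : Ik k y ≤ ep k 1 := by
  unfold Ik ep
  apply Finset.sum_le_sum
  intro l _
  simp

lemma Ik_le_of_small (k p : ℕ) (hp : 1 ≤ p) (hk : k - 1 < 2 * p) (θ : ℝ) (h0 : 0 < θ)
    (_h1 : θ < 1) : Ik k (p + θ) ≤ ep k (p + 1) := by
  have hp1 : (1 : ℝ) ≤ p := by exact_mod_cast hp
  unfold Ik ep
  apply Finset.sum_le_sum
  intro l hl
  rw [mem_range] at hl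
  refine (min_le_right _ _).trans ?_
  rcases Nat.lt_or_ge l (p + 1) with h | h
  · have h' : (l : ℝ) + 1 ≤ p + 1 := by exact_mod_cast h
    have : ⌊(l : ℝ) / (p + θ)⌋₊ = 0 := by
      rw [Nat.floor_eq_zero, div_lt_one (by linarith)]
      linarith
    rw [this]; exact Nat.zero_le _
  · have h2 : l < 2 * p := by omega
    have h2' : (l : ℝ) < 2 * p := by exact_mod_cast h2
    have h3 : ⌊(l : ℝ) / (p + θ)⌋₊ < 2 := by
      rw [Nat.floor_lt (by positivity), div_lt_iff₀ (by linarith)]
      push_cast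
      linarith
    have h4 : 1 ≤ l / (p + 1) := by
      rw [Nat.le_div_iff_mul_le (by omega)]
      omega
    omega

lemma alpha_le (k p a : ℕ) (hp : 1 ≤ p) (hk : 1 ≤ k) (ha : a = (k - 1) / p) :
    (ep k p : ℝ) - ep k (p + 1) ≤ a * (a + 1) / 2 := by
  have hN : ep k p ≤ ep k (p + 1) + ∑ m ∈ range a, (m + 1) := by
    have h1 := layer_restrict k p a hp hk ha (fun _ => 0)
    have h2 := layer_restrict k p a hp hk ha (fun m => m + 1)
    have e1 : ep k p = ∑ m ∈ range a, (k - ((m + 1) * p + 0)) := by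
      rw [ep_layer k p hp, ← h1]; simp
    have e2 : ep k (p + 1) = ∑ m ∈ range a, (k - ((m + 1) * p + (m + 1))) := by
      rw [ep_layer k (p + 1) (by omega), ← h2]
      apply Finset.sum_congr rfl
      intro m _
      congr 1
    rw [e1, e2, ← Finset.sum_add_distrib]
    apply Finset.sum_le_sum
    intro m _
    omega
  have hs : ((∑ m ∈ range a, (m + 1) : ℕ) : ℝ) = a * (a + 1) / 2 := by
    have : ∀ n : ℕ, ((∑ m ∈ range n, (m + 1) : ℕ) : ℝ) = n * (n + 1) / 2 := by
      intro n
      induction n with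
      | zero => simp
      | succ n ih =>
        rw [Finset.sum_range_succ, Nat.cast_add, ih]
        push_cast
        ring
    exact this a
  have hN' : (ep k p : ℝ) ≤ ((ep k (p + 1) + ∑ m ∈ range a, (m + 1) : ℕ) : ℝ) := by
    exact_mod_cast hN
  rw [Nat.cast_add, hs] at hN'
  linarith

/-! ### HM–GM and the elementary logarithm inequality -/

lemma hmgm {b c θ x : ℝ} (hb : 0 < b) (hbc : b < c) (h0 : 0 < θ) (h1 : θ < 1) (hx : 0 < x)
    (h : x * ((1 - θ) * b + θ * c) ≤ c * b) :
    Real.log x < (1 - θ) * Real.log c + θ * Real.log b := by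
  have hc : 0 < c := by linarith
  have hη : 0 < 1 - θ := by linarith
  have hsc := strictConcaveOn_log_Ioi.2 (x := 1 / c) (y := 1 / b)
    (by simp only [Set.mem_Ioi]; positivity) (by simp only [Set.mem_Ioi]; positivity)
    (by
      intro heq
      have : b = c := by
        field_simp at heq
        linarith
      linarith) hη h0 (by ring)
  simp only [smul_eq_mul] at hsc
  rw [one_div, one_div, Real.log_inv, Real.log_inv] at hsc
  have h2 : (1 - θ) * c⁻¹ + θ * b⁻¹ = ((1 - θ) * b + θ * c) / (c * b) := by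
    field_simp
  rw [h2] at hsc
  have h3 : x ≤ ((1 - θ) * b + θ * c)⁻¹ * (c * b) := by
    rw [inv_mul_eq_div, le_div_iff₀ (by positivity)]
    exact h
  have h4 : Real.log x ≤ - Real.log (((1 - θ) * b + θ * c) / (c * b)) := by
    rw [← Real.log_inv]
    apply Real.log_le_log hx
    rw [inv_div, div_eq_inv_mul]
    exact h3
  linarith

lemma log_sub_gt {c δ : ℝ} (hδ : 0 < δ) (hcδ : 0 < c - δ) :
    δ / c < Real.log c - Real.log (c - δ) := by
  have hc : 0 < c := by linarith
  have h := Real.log_lt_sub_one_of_pos (show 0 < (c - δ) / c by positivity)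
    (by
      intro heq
      rw [div_eq_one_iff_eq hc.ne'] at heq
      linarith)
  rw [Real.log_div hcδ.ne' hc.ne'] at h
  have : (c - δ) / c - 1 = - (δ / c) := by field_simp; ring
  linarith

end Pool.Agent.ER.Num
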